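import Pool.Agent.H811R3.PS.Defs

set_option autoImplicit false

open Finset MeasureTheory Filter

namespace Pool.Agent.H811R3.PS

open Polynomial Matrix

theorem A2_aeval {d : ℕ} (N : Matrix (Fin d) (Fin d) ℝ) (lam : ℝ) (f : Fin d → ℝ)
    (hf : N.mulVec f = lam • f) (q : Polynomial ℝ) : (aeval N q).mulVec f = q.eval lam • f := by
  have hpow : ∀ n : ℕ, (N ^ n).mulVec f = lam ^ n • f := by
    intro n
    induction n with
    | zero => simp
    | succ n ih =>
      rw [pow_succ, ← Matrix.mulVec_mulVec, hf, Matrix.mulVec_smul, ih, smul_smul, pow_succ,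
        mul_comm]
  induction q using Polynomial.induction_on' with
  | add p q hp hq => rw [map_add, Matrix.add_mulVec, hp, hq, Polynomial.eval_add, add_smul]
  | monomial n a =>
    rw [aeval_monomial, ← Algebra.smul_def, Matrix.smul_mulVec, hpow, Polynomial.eval_monomial,
      smul_smul]

theorem a2_holds (hA1 : StA1) : StA2 := by
  intro d hd M lam hP
  have hd0 : 0 < d := by omega
  set MQ := M.map (Int.castRingHom ℚ) with hMQ
  set MR := M.map (Int.castRingHom ℝ) with hMR
  have hMRQ : MR = MQ.map (algebraMap ℚ ℝ) := by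
    ext i j
    simp [hMR, hMQ]
  have hχ : MR.charpoly = MQ.charpoly.map (algebraMap ℚ ℝ) := by
    rw [hMRQ, Matrix.charpoly_map]
  have hsep : MR.charpoly.Separable := by
    rw [hχ]
    exact (hP.irr.separable).map
  have hroot : MR.charpoly.IsRoot lam := hP.root
  have hdet : (Matrix.scalar (Fin d) lam - MR).det = 0 := by
    have := Matrix.eval_charpoly MR lam
    rw [← this]
    exact hroot
  obtain ⟨f, hf0, hf⟩ := Matrix.exists_mulVec_eq_zero_iff.mpr hdet
  obtain ⟨l, hl0, hl⟩ := Matrix.exists_vecMul_eq_zero_iff.mpr hdet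
  have hf' : MR.mulVec f = lam • f := by
    rw [Matrix.sub_mulVec, sub_eq_zero] at hf
    rw [← hf]
    ext i
    simp [Matrix.scalar_apply, Matrix.mulVec_diagonal]
  have hl' : Matrix.vecMul l MR = lam • l := by
    rw [Matrix.vecMul_sub, sub_eq_zero] at hl
    rw [← hl]
    ext i
    simp [Matrix.scalar_apply, Matrix.vecMul_diagonal, mul_comm]
  have hact : ∀ g : Fin d → ℝ, act M g = MR.mulVec g := by
    intro g
    funext i
    simp only [act, Matrix.mulVec, dotProduct, hMR, Matrix.map_apply]
    refine Finset.sum_congr rfl fun j _ => ?_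
    simp
  have hl'' : ∀ j, ∑ i, l i * (M i j : ℝ) = lam * l j := by
    intro j
    have := congrFun hl' j
    simp only [Matrix.vecMul, dotProduct, hMR, Matrix.map_apply, Pi.smul_apply, smul_eq_mul] at this
    rw [← this]
    refine Finset.sum_congr rfl fun i _ => ?_
    simp
  -- the pairing is nonzero
  have hlf : dot l f ≠ 0 := by
    intro h0
    set N : (Fin d → ℝ) →ₗ[ℝ] (Fin d → ℝ) := (MR - Matrix.scalar (Fin d) lam).mulVecLin with hN
    have hNapp : ∀ g, N g = MR.mulVec g - lam • g := by
      intro g
      rw [hN, Matrix.mulVecLin_apply, Matrix.sub_mulVec]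
      congr 1
      ext i
      simp [Matrix.scalar_apply, Matrix.mulVec_diagonal]
    have hker : LinearMap.ker N ≤ Submodule.span ℝ {f} := by
      intro g hg
      rw [LinearMap.mem_ker, hNapp, sub_eq_zero] at hg
      rw [Submodule.mem_span_singleton]
      set i₀ : Fin d := ⟨0, hd0⟩
      have hfi : f i₀ ≠ 0 := (hA1 d M hP.irr).2.2 f lam hf0 (by
        rw [hact, hf']; rfl) i₀
      refine ⟨g i₀ / f i₀, ?_⟩
      by_contra hne
      have hh0 : g - (g i₀ / f i₀) • f ≠ 0 := fun h => hne (sub_eq_zero.mp h).symm
      have := (hA1 d M hP.irr).2.2 (g - (g i₀ / f i₀) • f) lam hh0 (by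
        rw [hact, Matrix.mulVec_sub, Matrix.mulVec_smul, hf', hg]
        funext i
        simp only [Pi.sub_apply, Pi.smul_apply, smul_eq_mul]
        ring) i₀
      apply this
      simp only [Pi.sub_apply, Pi.smul_apply, smul_eq_mul]
      field_simp
      ring
    have hkd : Module.finrank ℝ (LinearMap.ker N) ≤ 1 := by
      refine (Submodule.finrank_mono hker).trans ?_
      exact (finrank_span_le_card _).trans (by simp)
    have hrn := LinearMap.finrank_range_add_finrank_ker N
    rw [Module.finrank_fin_fun] at hrn
    -- the functional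
    let D : (Fin d → ℝ) →ₗ[ℝ] ℝ :=
      { toFun := fun g => dot l g
        map_add' := fun a b => by
          simp only [dot, Pi.add_apply, mul_add, Finset.sum_add_distrib]
        map_smul' := fun c a => by
          simp only [dot, Pi.smul_apply, smul_eq_mul, RingHom.id_apply]
          rw [Finset.mul_sum]
          refine Finset.sum_congr rfl fun i _ => by ring }
    have hD : ∀ g, D g = dot l g := fun g => rfl
    have hDsurj : Function.Surjective D := by
      obtain ⟨i, hi⟩ := Function.ne_iff.mp hl0
      intro x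
      refine ⟨Pi.single i (x / l i), ?_⟩
      rw [hD, dot, Finset.sum_eq_single i]
      · rw [Pi.single_eq_same]
        have : l i ≠ 0 := hi
        field_simp
      · intro b _ hb
        simp [Pi.single_eq_of_ne hb]
      · intro h
        exact absurd (Finset.mem_univ i) h
    have hDr := LinearMap.finrank_range_add_finrank_ker D
    rw [Module.finrank_fin_fun, LinearMap.range_eq_top.mpr hDsurj, finrank_top,
      Module.finrank_self] at hDr
    have hle : LinearMap.range N ≤ LinearMap.ker D := by
      rintro _ ⟨g, rfl⟩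
      rw [LinearMap.mem_ker, hD, hNapp]
      have e1 : dot l (MR.mulVec g) = lam * dot l g := by
        have : dot l (MR.mulVec g) = Matrix.vecMul l MR ⬝ᵥ g := by
          rw [← Matrix.dotProduct_mulVec]; rfl
        rw [this, hl', smul_dotProduct]
        rfl
      have e2 : dot l (MR.mulVec g - lam • g) = dot l (MR.mulVec g) - lam * dot l g := by
        simp only [dot, Pi.sub_apply, Pi.smul_apply, smul_eq_mul, mul_sub,
          Finset.sum_sub_distrib, Finset.mul_sum]
        congr 1
        refine Finset.sum_congr rfl fun i _ => by ring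
      rw [e2, e1, sub_self]
    have heq : LinearMap.range N = LinearMap.ker D :=
      Submodule.eq_of_le_of_finrank_le hle (by omega)
    have hfr : f ∈ LinearMap.range N := by
      rw [heq, LinearMap.mem_ker, hD]
      exact h0
    obtain ⟨g, hg⟩ := hfr
    obtain ⟨q, hq⟩ := Polynomial.dvd_iff_isRoot.mpr hroot
    have h1 : (aeval MR q).mulVec (MR.mulVec g - lam • g) = 0 := by
      have e1 : aeval MR (q * (X - C lam)) = 0 := by
        rw [mul_comm, ← hq, Matrix.aeval_self_charpoly]
      have e2 : (aeval MR (q * (X - C lam))).mulVec g = (aeval MR q).mulVec (MR.mulVec g - lam • g) := by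
        rw [map_mul, ← Matrix.mulVec_mulVec, map_sub, aeval_X, aeval_C, Matrix.sub_mulVec]
        congr 2
        rw [Algebra.algebraMap_eq_smul_one, Matrix.smul_mulVec, Matrix.one_mulVec]
      rw [← e2, e1, Matrix.zero_mulVec]
    rw [← hNapp, hg, A2_aeval MR lam f hf' q] at h1
    have hq0 : q.eval lam = 0 := by
      rcases smul_eq_zero.mp h1 with h | h
      · exact h
      · exact absurd h hf0
    obtain ⟨r, hr⟩ := Polynomial.dvd_iff_isRoot.mpr (show q.IsRoot lam from hq0)
    have hsq : (X - C lam) * (X - C lam) ∣ MR.charpoly := by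
      refine ⟨r, ?_⟩
      rw [hq, hr]
      ring
    have := hsep.squarefree _ hsq
    exact Polynomial.not_isUnit_X_sub_C lam this
  refine ⟨l, (dot l f)⁻¹ • f, ?_, hl'', ?_⟩
  · have : dot l ((dot l f)⁻¹ • f) = (dot l f)⁻¹ * dot l f := by
      simp only [dot, Pi.smul_apply, smul_eq_mul]
      rw [Finset.mul_sum]
      refine Finset.sum_congr rfl fun i _ => by ring
    rw [this, inv_mul_cancel₀ hlf]
  · rw [hact, Matrix.mulVec_smul, hf']
    funext i
    simp only [Pi.smul_apply, smul_eq_mul]
    ring

end Pool.Agent.H811R3.PS
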