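import Pool.Agent.H811R3.PS.Defs

set_option autoImplicit false

/-!
# Exponential decay on the kernel of the left eigenvector
-/

open Finset MeasureTheory Filter Topology

namespace Pool.Agent.H811R3.PS

namespace TA3

open Matrix

/-- complexification -/
noncomputable def cx {d : ℕ} (M : Matrix (Fin d) (Fin d) ℤ) : Matrix (Fin d) (Fin d) ℂ :=
  M.map (Int.castRingHom ℂ)

/-- the deflated matrix -/
noncomputable def N0 {d : ℕ} (M : Matrix (Fin d) (Fin d) ℤ) (lam : ℝ) (l f : Fin d → ℝ) :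
    Matrix (Fin d) (Fin d) ℂ :=
  fun i j => cx M i j - (lam : ℂ) * ((f i : ℂ) * (l j : ℂ))

lemma N0_mulVec {d : ℕ} (M : Matrix (Fin d) (Fin d) ℤ) (lam : ℝ) (l f : Fin d → ℝ)
    (v : Fin d → ℂ) (i : Fin d) :
    (N0 M lam l f *ᵥ v) i = (cx M *ᵥ v) i - (lam : ℂ) * (f i : ℂ) * ∑ j, (l j : ℂ) * v j := by
  simp only [Matrix.mulVec, dotProduct, N0]
  rw [mul_sum, ← sum_sub_distrib]
  refine sum_congr rfl fun j _ => ?_
  ring

lemma left_c {d : ℕ} (M : Matrix (Fin d) (Fin d) ℤ) (lam : ℝ) (l : Fin d → ℝ)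
    (hl : ∀ j, ∑ i, l i * (M i j : ℝ) = lam * l j) (v : Fin d → ℂ) :
    ∑ i, (l i : ℂ) * (cx M *ᵥ v) i = (lam : ℂ) * ∑ j, (l j : ℂ) * v j := by
  simp only [Matrix.mulVec, dotProduct, cx, Matrix.map_apply]
  simp_rw [mul_sum]
  rw [sum_comm]
  refine sum_congr rfl fun j _ => ?_
  have h := congrArg (fun x : ℝ => (x : ℂ)) (hl j)
  simp only [Complex.ofReal_sum, Complex.ofReal_mul, Complex.ofReal_intCast] at h
  have : ∑ i, (l i : ℂ) * ((Int.castRingHom ℂ) (M i j) * v j) =
      (∑ i, (l i : ℂ) * (M i j : ℂ)) * v j := by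
    rw [sum_mul]
    refine sum_congr rfl fun i _ => ?_
    simp only [eq_intCast]
    ring
  rw [this, h]
  ring

lemma left_N0 {d : ℕ} (M : Matrix (Fin d) (Fin d) ℤ) (lam : ℝ) (l f : Fin d → ℝ)
    (hlf : dot l f = 1) (hl : ∀ j, ∑ i, l i * (M i j : ℝ) = lam * l j) (v : Fin d → ℂ) :
    ∑ i, (l i : ℂ) * (N0 M lam l f *ᵥ v) i = 0 := by
  simp_rw [N0_mulVec, mul_sub]
  rw [sum_sub_distrib, left_c M lam l hl v]
  have h : ∑ i, (l i : ℂ) * ((lam : ℂ) * (f i : ℂ) * ∑ j, (l j : ℂ) * v j) =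
      (lam : ℂ) * (∑ i, (l i : ℂ) * (f i : ℂ)) * ∑ j, (l j : ℂ) * v j := by
    generalize ∑ j, (l j : ℂ) * v j = S
    rw [mul_sum, sum_mul]
    refine sum_congr rfl fun i _ => ?_
    ring
  rw [h]
  have h2 : ∑ i, (l i : ℂ) * (f i : ℂ) = 1 := by
    have := congrArg (fun x : ℝ => (x : ℂ)) hlf
    simpa [dot] using this
  rw [h2]
  ring

/-- the eigenvalues of the deflated matrix -/
lemma eig (h1 : StA1) {d : ℕ} (hd : 2 ≤ d) (M : Matrix (Fin d) (Fin d) ℤ) (lam : ℝ) (hP : Pis M lam)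
    (l f : Fin d → ℝ) (hlf : dot l f = 1) (hl : ∀ j, ∑ i, l i * (M i j : ℝ) = lam * l j)
    (hf : act M f = fun i => lam * f i) (μ : ℂ) (v : Fin d → ℂ) (hv : v ≠ 0)
    (hμ : N0 M lam l f *ᵥ v = fun i => μ * v i) : ‖μ‖ < 1 := by
  by_cases hμ0 : μ = 0
  · simp [hμ0]
  have hlv : ∑ j, (l j : ℂ) * v j = 0 := by
    have := left_N0 M lam l f hlf hl v
    rw [hμ] at this
    have h2 : ∑ i, (l i : ℂ) * (μ * v i) = μ * ∑ j, (l j : ℂ) * v j := by
      rw [mul_sum]
      refine sum_congr rfl fun i _ => ?_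
      ring
    simp only at this
    rw [h2] at this
    exact (mul_eq_zero.1 this).resolve_left hμ0
  have hMv : cx M *ᵥ v = fun i => μ * v i := by
    rw [← hμ]
    funext i
    rw [N0_mulVec, hlv]
    ring
  by_cases hml : μ = (lam : ℂ)
  · exfalso
    obtain ⟨_, _, h3⟩ := h1 d M hP.irr
    have hf0 : f ≠ 0 := by
      rintro rfl
      simp [dot] at hlf
    have hfi := h3 f lam hf0 hf
    -- real vectors
    have key : ∀ w : Fin d → ℝ, (act M w = fun i => lam * w i) → dot l w = 0 → w = 0 := by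
      intro w hw hlw
      have i0 : Fin d := ⟨0, by omega⟩
      set u : Fin d → ℝ := fun i => w i0 * f i - f i0 * w i with hu
      have hu0 : u = 0 := by
        by_contra hne
        refine h3 u lam hne ?_ i0 ?_
        · funext i
          have e1 := congrFun hw i
          have e2 := congrFun hf i
          simp only [act] at e1 e2 ⊢
          simp only [hu]
          have : ∑ x, (M i x : ℝ) * (w i0 * f x - f i0 * w x) =
              w i0 * ∑ x, (M i x : ℝ) * f x - f i0 * ∑ x, (M i x : ℝ) * w x := by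
            rw [mul_sum, mul_sum, ← sum_sub_distrib]
            refine sum_congr rfl fun x _ => ?_
            ring
          rw [this, e1, e2]
          ring
        · simp only [hu]; ring
      have hd1 : dot l u = w i0 * dot l f - f i0 * dot l w := by
        simp only [dot, hu]
        rw [mul_sum, mul_sum, ← sum_sub_distrib]
        refine sum_congr rfl fun x _ => ?_
        ring
      rw [hu0, hlf, hlw] at hd1
      have hw0 : w i0 = 0 := by
        simp [dot] at hd1
        linarith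
      funext i
      have := congrFun hu0 i
      simp only [hu, hw0, Pi.zero_apply] at this
      have h4 : f i0 * w i = 0 := by linarith
      exact (mul_eq_zero.1 h4).resolve_left (hfi i0)
    have hre : (fun i => (v i).re) = 0 := by
      apply key
      · funext i
        have := congrArg Complex.re (congrFun hMv i)
        rw [hml] at this
        simp only [Matrix.mulVec, dotProduct, cx, Matrix.map_apply, Complex.re_sum] at this
        simpa [act] using this
      · have := congrArg Complex.re hlv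
        simpa [dot, Complex.re_sum] using this
    have him : (fun i => (v i).im) = 0 := by
      apply key
      · funext i
        have := congrArg Complex.im (congrFun hMv i)
        rw [hml] at this
        simp only [Matrix.mulVec, dotProduct, cx, Matrix.map_apply, Complex.im_sum] at this
        simpa [act] using this
      · have := congrArg Complex.im hlv
        simpa [dot, Complex.im_sum] using this
    apply hv
    funext i
    apply Complex.ext
    · exact congrFun hre i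
    · exact congrFun him i
  · refine hP.others μ ?_ hml
    rw [← Matrix.mem_spectrum_iff_isRoot_charpoly, spectrum.mem_iff]
    intro hunit
    have hdet := (Matrix.isUnit_iff_isUnit_det _).1 hunit
    apply hdet.ne_zero
    rw [← Matrix.exists_mulVec_eq_zero_iff]
    refine ⟨v, hv, ?_⟩
    rw [Matrix.sub_mulVec]
    have h5 : (algebraMap ℂ (Matrix (Fin d) (Fin d) ℂ)) μ *ᵥ v = fun i => μ * v i := by
      funext i
      rw [Matrix.algebraMap_eq_diagonal, Matrix.mulVec_diagonal]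
      rfl
    rw [h5]
    change (fun i => μ * v i) - cx M *ᵥ v = 0
    rw [hMv, sub_self]

attribute [local instance] Matrix.linftyOpNormedRing Matrix.linftyOpNormedAlgebra

/-- power bound from the spectral radius -/
lemma pow_bound {d : ℕ} (hd : 0 < d) (N : Matrix (Fin d) (Fin d) ℂ)
    (hN : ∀ μ ∈ spectrum ℂ N, ‖μ‖ < 1) :
    ∃ C θ : ℝ, 0 < C ∧ 0 < θ ∧ θ < 1 ∧ ∀ k : ℕ, ‖N ^ k‖ ≤ C * θ ^ k := by
  have i0 : Fin d := ⟨0, hd⟩
  have : Nonempty (Fin d) := ⟨i0⟩
  have hcomp : CompleteSpace (Matrix (Fin d) (Fin d) ℂ) := FiniteDimensional.complete ℂ _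
  have hs : spectralRadius ℂ N < (1 : NNReal) := by
    apply spectrum.spectralRadius_lt_of_forall_lt_of_nonempty (spectrum.nonempty N)
    intro k hk
    exact_mod_cast hN k hk
  obtain ⟨r, hr1, hr2⟩ := ENNReal.lt_iff_exists_nnreal_btwn.1 hs
  have hr1' : r < 1 := by exact_mod_cast hr2
  have ht := spectrum.pow_nnnorm_pow_one_div_tendsto_nhds_spectralRadius N
  have hev := ht.eventually_lt_const hr1
  obtain ⟨n0, hn0⟩ := eventually_atTop.1 hev
  have hrpos : 0 < r := by
    have : (0 : ENNReal) < r := lt_of_le_of_lt bot_le hr1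
    exact_mod_cast this
  have hrpos' : (0:ℝ) < r := hrpos
  have hb : ∀ n, n0 + 1 ≤ n → ‖N ^ n‖ ≤ (r:ℝ) ^ n := by
    intro n hn
    have h := hn0 n (by omega)
    have hnpos : (0:ℝ) < n := by exact_mod_cast (by omega : 0 < n)
    have h2 : ((‖N ^ n‖₊ : ENNReal)) < (r : ENNReal) ^ (n:ℝ) := by
      have h3 := ENNReal.rpow_lt_rpow h hnpos
      rwa [← ENNReal.rpow_mul, one_div_mul_cancel hnpos.ne', ENNReal.rpow_one] at h3
    rw [ENNReal.rpow_natCast] at h2
    have h4 : ‖N ^ n‖₊ < r ^ n := by exact_mod_cast h2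
    have h5 : (‖N ^ n‖₊ : ℝ) < ((r ^ n : NNReal) : ℝ) := by exact_mod_cast h4
    rw [NNReal.coe_pow] at h5
    exact h5.le
  refine ⟨1 + ∑ n ∈ Finset.range (n0 + 1), ‖N ^ n‖ / (r:ℝ) ^ n, r, ?_, hrpos', by exact_mod_cast hr1', ?_⟩
  · have : 0 ≤ ∑ n ∈ Finset.range (n0 + 1), ‖N ^ n‖ / (r:ℝ) ^ n := sum_nonneg fun _ _ => by positivity
    linarith
  · intro k
    have hnn : 0 ≤ ∑ n ∈ Finset.range (n0 + 1), ‖N ^ n‖ / (r:ℝ) ^ n := sum_nonneg fun _ _ => by positivity
    rcases le_or_gt (n0 + 1) k with hk | hk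
    · refine (hb k hk).trans ?_
      have : 0 ≤ (r:ℝ) ^ k := by positivity
      nlinarith
    · have h1 : ‖N ^ k‖ / (r:ℝ) ^ k ≤ ∑ n ∈ Finset.range (n0 + 1), ‖N ^ n‖ / (r:ℝ) ^ n :=
        single_le_sum (f := fun n => ‖N ^ n‖ / (r:ℝ) ^ n) (fun _ _ => by positivity) (Finset.mem_range.2 hk)
      have h2 : ‖N ^ k‖ = ‖N ^ k‖ / (r:ℝ) ^ k * (r:ℝ) ^ k := by
        field_simp
      rw [h2]
      refine mul_le_mul_of_nonneg_right ?_ (by positivity)
      linarith

end TA3

open TA3 in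
open Matrix in
attribute [local instance] Matrix.linftyOpNormedRing Matrix.linftyOpNormedAlgebra in
theorem a3_holds (h1 : StA1) : StA3 := by
  intro d hd M lam hP l f hlf hl hf
  have hspec : ∀ μ ∈ spectrum ℂ (N0 M lam l f), ‖μ‖ < 1 := by
    intro μ hμ
    rw [spectrum.mem_iff] at hμ
    have hdet : ((algebraMap ℂ (Matrix (Fin d) (Fin d) ℂ)) μ - N0 M lam l f).det = 0 := by
      by_contra hne
      exact hμ ((Matrix.isUnit_iff_isUnit_det _).2 (isUnit_iff_ne_zero.2 hne))
    obtain ⟨v, hv, hv2⟩ := Matrix.exists_mulVec_eq_zero_iff.2 hdet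
    refine eig h1 hd M lam hP l f hlf hl hf μ v hv ?_
    rw [Matrix.sub_mulVec, sub_eq_zero] at hv2
    rw [← hv2]
    funext i
    rw [Matrix.algebraMap_eq_diagonal, Matrix.mulVec_diagonal]
    rfl
  obtain ⟨C, θ, hC, hθ0, hθ1, hk⟩ := pow_bound (by omega) (N0 M lam l f) hspec
  refine ⟨C, θ, hC, hθ0, hθ1, ?_⟩
  intro k y hy
  -- complexify
  have hyc : ∑ j, (l j : ℂ) * (y j : ℂ) = 0 := by
    have := congrArg (fun x : ℝ => (x : ℂ)) hy
    simpa [dot] using this
  have hpow : ∀ k : ℕ, ∑ j, (l j : ℂ) * ((cx M ^ k) *ᵥ (fun i => (y i : ℂ))) j = 0 ∧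
      (N0 M lam l f ^ k) *ᵥ (fun i => (y i : ℂ)) = (cx M ^ k) *ᵥ (fun i => (y i : ℂ)) := by
    intro k
    induction k with
    | zero => simpa using hyc
    | succ k ih =>
      have e1 : (cx M ^ (k + 1)) *ᵥ (fun i => (y i : ℂ)) =
          cx M *ᵥ ((cx M ^ k) *ᵥ (fun i => (y i : ℂ))) := by
        rw [pow_succ', Matrix.mulVec_mulVec]
      have e2 : (N0 M lam l f ^ (k + 1)) *ᵥ (fun i => (y i : ℂ)) =
          N0 M lam l f *ᵥ ((N0 M lam l f ^ k) *ᵥ (fun i => (y i : ℂ))) := by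
        rw [pow_succ', Matrix.mulVec_mulVec]
      constructor
      · rw [e1, left_c M lam l hl, ih.1, mul_zero]
      · rw [e2, e1, ih.2]
        funext i
        rw [N0_mulVec, ih.1]
        ring
  have hmap : cx M ^ k = (M ^ k).map (Int.castRingHom ℂ) := by
    rw [cx, Matrix.map_pow]
  have hb := Matrix.linfty_opNorm_mulVec (N0 M lam l f ^ k) (fun i => (y i : ℂ))
  have hyn : ‖(fun i => (y i : ℂ))‖ ≤ ‖y‖ := by
    rw [pi_norm_le_iff_of_nonneg (norm_nonneg _)]
    intro i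
    rw [Complex.norm_real]
    exact norm_le_pi_norm y i
  rw [pi_norm_le_iff_of_nonneg (by positivity)]
  intro i
  have h6 : ((act (M ^ k) y i : ℝ) : ℂ) = ((N0 M lam l f ^ k) *ᵥ (fun i => (y i : ℂ))) i := by
    rw [(hpow k).2, hmap]
    simp [act, Matrix.mulVec, dotProduct]
  have h7 : ‖act (M ^ k) y i‖ = ‖((N0 M lam l f ^ k) *ᵥ (fun i => (y i : ℂ))) i‖ := by
    rw [← h6, Complex.norm_real]
  rw [h7]
  calc _ ≤ ‖(N0 M lam l f ^ k) *ᵥ (fun i => (y i : ℂ))‖ := norm_le_pi_norm _ i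
    _ ≤ ‖N0 M lam l f ^ k‖ * ‖(fun i => (y i : ℂ))‖ := hb
    _ ≤ (C * θ ^ k) * ‖y‖ := mul_le_mul (hk k) hyn (norm_nonneg _) (by positivity)

end Pool.Agent.H811R3.PS
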