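import Pool.Agent.H811R3.PS.Defs

set_option autoImplicit false

open Finset MeasureTheory Filter

namespace Pool.Agent.H811R3.PS

namespace TA4

variable {d : ℕ}

theorem act_eq (A : Matrix (Fin d) (Fin d) ℤ) (y : Fin d → ℝ) :
    act A y = (A.map (Int.castRingHom ℝ)).mulVec y := by
  funext i
  simp [act, Matrix.mulVec, dotProduct]

theorem act_mul (A B : Matrix (Fin d) (Fin d) ℤ) (y : Fin d → ℝ) :
    act (A * B) y = act A (act B y) := by
  rw [act_eq, act_eq, act_eq, Matrix.mulVec_mulVec, Matrix.map_mul]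

theorem act_one (y : Fin d → ℝ) : act (1 : Matrix (Fin d) (Fin d) ℤ) y = y := by
  rw [act_eq, Matrix.map_one _ (by simp) (by simp), Matrix.one_mulVec]

theorem act_add (A : Matrix (Fin d) (Fin d) ℤ) (y z : Fin d → ℝ) :
    act A (y + z) = act A y + act A z := by
  rw [act_eq, act_eq, act_eq, Matrix.mulVec_add]

theorem act_smul (A : Matrix (Fin d) (Fin d) ℤ) (c : ℝ) (y : Fin d → ℝ) :
    act A (c • y) = c • act A y := by
  rw [act_eq, act_eq, Matrix.mulVec_smul]

theorem act_pow_eig {A : Matrix (Fin d) (Fin d) ℤ} {f : Fin d → ℝ} {lam : ℝ}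
    (h : act A f = fun i => lam * f i) (k : ℕ) : act (A ^ k) f = lam ^ k • f := by
  induction k with
  | zero => rw [pow_zero, act_one, pow_zero, one_smul]
  | succ k ih =>
    have h' : act A f = lam • f := h
    rw [pow_succ, act_mul, h', act_smul, ih, smul_smul, pow_succ']

theorem dot_add (l y z : Fin d → ℝ) : dot l (y + z) = dot l y + dot l z := by
  simp only [dot, Pi.add_apply, mul_add, Finset.sum_add_distrib]

theorem dot_sub (l y z : Fin d → ℝ) : dot l (y - z) = dot l y - dot l z := by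
  simp only [dot, Pi.sub_apply, mul_sub, Finset.sum_sub_distrib]

theorem dot_smul (l : Fin d → ℝ) (c : ℝ) (y : Fin d → ℝ) : dot l (c • y) = c * dot l y := by
  simp only [dot, Pi.smul_apply, smul_eq_mul, Finset.mul_sum]
  exact Finset.sum_congr rfl fun i _ => by ring

theorem dot_smul_left (l : Fin d → ℝ) (c : ℝ) (y : Fin d → ℝ) :
    dot (fun i => c * l i) y = c * dot l y := by
  simp only [dot, Finset.mul_sum]
  exact Finset.sum_congr rfl fun i _ => by ring

theorem dot_single (l : Fin d → ℝ) (j : Fin d) : dot l (Pi.single j 1) = l j := by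
  simp [dot, Pi.single_apply]

theorem pow_nonneg_entries {M : Matrix (Fin d) (Fin d) ℤ} (h : ∀ i j, 0 ≤ M i j) (k : ℕ)
    (i j : Fin d) : 0 ≤ (M ^ k) i j := by
  induction k generalizing i j with
  | zero =>
    rw [pow_zero, Matrix.one_apply]
    split_ifs <;> norm_num
  | succ k ih =>
    rw [pow_succ, Matrix.mul_apply]
    exact Finset.sum_nonneg fun x _ => mul_nonneg (ih i x) (h x j)

theorem act_single (A : Matrix (Fin d) (Fin d) ℤ) (j i : Fin d) :
    act A (Pi.single j 1) i = (A i j : ℝ) := by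
  simp [act, Pi.single_apply]

theorem prj_add (f y z : Fin d → ℝ) : prj f (y + z) = prj f y + prj f z := by
  funext i
  simp only [prj, Pi.add_apply, Finset.sum_add_distrib]
  ring

theorem prj_smul (f : Fin d → ℝ) (c : ℝ) (y : Fin d → ℝ) : prj f (c • y) = c • prj f y := by
  funext i
  simp only [prj, Pi.smul_apply, smul_eq_mul, ← Finset.mul_sum]
  ring

theorem prj_self {f : Fin d → ℝ} (h : ∑ i, f i = 1) : prj f f = 0 := by
  funext i
  simp [prj, h]

theorem abs_dot_le {l : Fin d → ℝ} (hl : ∀ i, 0 < l i) (y : Fin d → ℝ) :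
    |dot l y| ≤ sl l * ‖y‖ := by
  unfold dot sl
  calc |∑ i, l i * y i| ≤ ∑ i, |l i * y i| := Finset.abs_sum_le_sum_abs _ _
    _ ≤ ∑ i, l i * ‖y‖ := by
        refine Finset.sum_le_sum fun i _ => ?_
        rw [abs_mul, abs_of_pos (hl i)]
        exact mul_le_mul_of_nonneg_left (norm_le_pi_norm y i) (hl i).le
    _ = _ := by rw [Finset.sum_mul]

theorem norm_prj_le {f : Fin d → ℝ} (hf : ∀ i, 0 < f i) (hs : ∑ i, f i = 1) (z : Fin d → ℝ) :
    ‖prj f z‖ ≤ (1 + d) * ‖z‖ := by
  rw [pi_norm_le_iff_of_nonneg (by positivity)]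
  intro i
  have h1 : ‖z i‖ ≤ ‖z‖ := norm_le_pi_norm z i
  have h2 : |∑ j, z j| ≤ d * ‖z‖ := by
    calc |∑ j, z j| ≤ ∑ j, |z j| := Finset.abs_sum_le_sum_abs _ _
      _ ≤ ∑ _j : Fin d, ‖z‖ := Finset.sum_le_sum fun j _ => norm_le_pi_norm z j
      _ = d * ‖z‖ := by simp
  have h3 : f i ≤ 1 := by
    rw [← hs]
    exact Finset.single_le_sum (fun j _ => (hf j).le) (Finset.mem_univ i)
  unfold prj
  calc ‖z i - (∑ j, z j) * f i‖ ≤ ‖z i‖ + ‖(∑ j, z j) * f i‖ := norm_sub_le _ _
    _ ≤ ‖z‖ + d * ‖z‖ * 1 := by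
        rw [norm_mul, Real.norm_eq_abs (∑ j, z j), Real.norm_eq_abs (f i), abs_of_pos (hf i)]
        gcongr
        exact (hf i).le
    _ = (1 + d) * ‖z‖ := by ring

end TA4

open TA4

theorem a4_holds (hA1 : StA1) (hA2 : StA2) (hA3 : StA3) : StA4 := by
  intro d hd M lam hP
  obtain ⟨l0, f0, h1, hl, hf⟩ := hA2 d hd M lam hP
  obtain ⟨C, θ, hC, hθ0, hθ1, hcon⟩ := hA3 d hd M lam hP l0 f0 h1 hl hf
  obtain ⟨-, hind, hfne⟩ := hA1 d M hP.irr
  have hlam : 0 < lam := by linarith [hP.one_lt]
  have hl0 : l0 ≠ 0 := by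
    rintro rfl
    simp [dot] at h1
  have hf0 : f0 ≠ 0 := by
    rintro rfl
    simp [dot] at h1
  have hlne : ∀ j, l0 j ≠ 0 := by
    intro j h
    have h2 := hind l0 lam hl0 hl (Pi.single j 1) (by
      intro h3
      have := congrFun h3 j
      simp at this)
    apply h2
    have : ic (Pi.single j 1 : Fin d → ℤ) = Pi.single j 1 := by
      funext i
      simp [ic, Pi.single_apply]
    rw [this, dot_single, h]
  have hfne' : ∀ i, f0 i ≠ 0 := hfne f0 lam hf0 hf
  -- all products are nonnegative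
  have hpos : ∀ i j, 0 < f0 i * l0 j := by
    intro i j
    have hge : 0 ≤ f0 i * l0 j := by
      set y' : Fin d → ℝ := Pi.single j 1 - l0 j • f0 with hy'
      have hdy : dot l0 y' = 0 := by
        rw [hy', dot_sub, dot_smul, dot_single, h1]
        ring
      have h2 : ∀ k : ℕ, -(C * ‖y'‖ * (θ / lam) ^ k) ≤ f0 i * l0 j := by
        intro k
        have h3 : act (M ^ k) (Pi.single j 1) = (l0 j * lam ^ k) • f0 + act (M ^ k) y' := by
          have : (Pi.single j 1 : Fin d → ℝ) = l0 j • f0 + y' := by rw [hy']; abel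
          rw [this, act_add, act_smul, act_pow_eig hf, smul_smul]
        have h4 := congrFun h3 i
        rw [act_single, Pi.add_apply, Pi.smul_apply, smul_eq_mul] at h4
        have h5 : (0 : ℝ) ≤ ((M ^ k) i j : ℝ) := by
          exact_mod_cast pow_nonneg_entries hP.nonneg k i j
        have h6 : |act (M ^ k) y' i| ≤ C * θ ^ k * ‖y'‖ :=
          (norm_le_pi_norm (act (M ^ k) y') i).trans (hcon k y' hdy)
        have h7 := (abs_le.1 h6).2
        have h8 : 0 < lam ^ k := pow_pos hlam k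
        rw [div_pow]
        have h9 : 0 ≤ lam ^ k * (f0 i * l0 j + C * ‖y'‖ * (θ ^ k / lam ^ k)) := by
          have : lam ^ k * (f0 i * l0 j + C * ‖y'‖ * (θ ^ k / lam ^ k)) =
              l0 j * lam ^ k * f0 i + C * θ ^ k * ‖y'‖ := by
            field_simp
          rw [this]
          linarith
        have h10 := nonneg_of_mul_nonneg_right h9 h8
        linarith
      have h3 : Tendsto (fun k : ℕ => -(C * ‖y'‖ * (θ / lam) ^ k)) atTop (nhds 0) := by
        have h4 : Tendsto (fun k : ℕ => (θ / lam) ^ k) atTop (nhds 0) := by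
          apply tendsto_pow_atTop_nhds_zero_of_lt_one (by positivity)
          rw [div_lt_one hlam]
          linarith [hP.one_lt]
        have h5 := (h4.const_mul (C * ‖y'‖)).neg
        simpa using h5
      exact le_of_tendsto' h3 h2
    exact lt_of_le_of_ne hge (mul_ne_zero (hfne' i) (hlne j)).symm
  set S := ∑ i, f0 i with hS
  have hSl : ∀ j, 0 < S * l0 j := by
    intro j
    rw [hS, Finset.sum_mul]
    have hne : (Finset.univ : Finset (Fin d)).Nonempty := ⟨⟨0, by omega⟩, Finset.mem_univ _⟩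
    exact Finset.sum_pos (fun i _ => hpos i j) hne
  have hS0 : S ≠ 0 := by
    intro h
    have := hSl ⟨0, by omega⟩
    rw [h, zero_mul] at this
    exact lt_irrefl _ this
  have hfpos : ∀ i, 0 < f0 i / S := by
    intro i
    have h2 := div_pos (hpos i ⟨0, by omega⟩) (hSl ⟨0, by omega⟩)
    rw [mul_div_mul_right _ _ (hlne _)] at h2
    exact h2
  have hfsum : ∑ i, f0 i / S = 1 := by
    rw [← Finset.sum_div, ← hS, div_self hS0]
  have hlf : dot (fun j => S * l0 j) (fun i => f0 i / S) = 1 := by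
    rw [← h1]
    unfold dot
    refine Finset.sum_congr rfl fun i _ => ?_
    field_simp
  have hright : act M (fun i => f0 i / S) = fun i => lam * (f0 i / S) := by
    have e : (fun i => f0 i / S) = S⁻¹ • f0 := by
      funext i
      rw [Pi.smul_apply, smul_eq_mul]
      ring
    rw [e, act_smul, hf]
    funext i
    rw [Pi.smul_apply, smul_eq_mul]
    ring
  have hD : Dat M lam (fun j => S * l0 j) (fun i => f0 i / S) := by
    refine ⟨hP.one_lt, hSl, hfpos, hfsum, hlf, ?_, hright, ?_⟩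
    · intro j
      calc ∑ i, S * l0 i * (M i j : ℝ) = S * ∑ i, l0 i * (M i j : ℝ) := by
            rw [Finset.mul_sum]
            exact Finset.sum_congr rfl fun i _ => by ring
        _ = lam * (S * l0 j) := by rw [hl j]; ring
    · intro v hv
      rw [dot_smul_left]
      exact mul_ne_zero hS0 (hind l0 lam hl0 hl v hv)
  refine ⟨fun j => S * l0 j, fun i => f0 i / S, hD, ?_⟩
  set l : Fin d → ℝ := fun j => S * l0 j with hldef
  set f : Fin d → ℝ := fun i => f0 i / S with hfdef
  have hsl : 0 ≤ sl l := Finset.sum_nonneg fun i _ => (hSl i).le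
  refine ⟨(1 + d) * C * (1 + sl l), θ, by positivity, hθ0, hθ1, ?_⟩
  intro k y
  set q := prj f y with hq
  have hy : y = q + (∑ i, y i) • f := by
    funext i
    simp only [hq, prj, Pi.add_apply, Pi.smul_apply, smul_eq_mul]
    ring
  set y' : Fin d → ℝ := q - dot l q • f with hy'
  have hyy : y = (∑ i, y i + dot l q) • f + y' := by
    rw [hy', add_smul]
    conv_lhs => rw [hy]
    abel
  have hd0 : dot l0 y' = 0 := by
    have h2 : dot l y' = 0 := by
      rw [hy', dot_sub, dot_smul, hlf]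
      ring
    rw [hldef, dot_smul_left] at h2
    exact (mul_eq_zero.1 h2).resolve_left hS0
  have h2 : prj f (act (M ^ k) y) = prj f (act (M ^ k) y') := by
    conv_lhs => rw [hyy]
    rw [act_add, act_smul, act_pow_eig hright, prj_add, prj_smul, prj_smul, prj_self hfsum]
    simp
  have hf1 : ∀ i, f i ≤ 1 := by
    intro i
    rw [← hfsum]
    exact Finset.single_le_sum (fun j _ => (hfpos j).le) (Finset.mem_univ i)
  have h3 : ‖y'‖ ≤ (1 + sl l) * ‖q‖ := by
    have h4 : ‖f‖ ≤ 1 := by
      rw [pi_norm_le_iff_of_nonneg (by norm_num)]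
      intro i
      rw [Real.norm_eq_abs, abs_of_pos (hfpos i)]
      exact hf1 i
    calc ‖y'‖ ≤ ‖q‖ + ‖dot l q • f‖ := norm_sub_le _ _
      _ ≤ ‖q‖ + sl l * ‖q‖ * 1 := by
          rw [norm_smul, Real.norm_eq_abs]
          have := abs_dot_le (l := l) hSl q
          gcongr
      _ = _ := by ring
  calc ‖prj f (act (M ^ k) y)‖ = ‖prj f (act (M ^ k) y')‖ := by rw [h2]
    _ ≤ (1 + d) * ‖act (M ^ k) y'‖ := norm_prj_le hfpos hfsum _
    _ ≤ (1 + d) * (C * θ ^ k * ‖y'‖) := by
        have := hcon k y' hd0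
        gcongr
    _ ≤ (1 + d) * (C * θ ^ k * ((1 + sl l) * ‖q‖)) := by gcongr
    _ = (1 + d) * C * (1 + sl l) * θ ^ k * ‖q‖ := by ring

end Pool.Agent.H811R3.PS
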