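import Pool.Agent.H811R3.PS.Defs

/-!
# Task A5: every box contains a lattice point
-/

set_option autoImplicit false

open Finset

namespace Pool.Agent.H811R3.PS

namespace A5

variable {d : ℕ}

lemma act_eq (A : Matrix (Fin d) (Fin d) ℤ) (y : Fin d → ℝ) :
    act A y = (A.map (Int.castRingHom ℝ)).mulVec y := by
  funext i
  simp [act, Matrix.mulVec, dotProduct]

lemma act_mul (A B : Matrix (Fin d) (Fin d) ℤ) (y : Fin d → ℝ) :
    act (A * B) y = act A (act B y) := by
  rw [act_eq, act_eq, act_eq, Matrix.mulVec_mulVec, ← Matrix.map_mul]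

lemma act_ic (A : Matrix (Fin d) (Fin d) ℤ) (v : Fin d → ℤ) :
    ic (A.mulVec v) = act A (ic v) := by
  funext i
  simp [act, ic, Matrix.mulVec, dotProduct]

lemma dot_act {M : Matrix (Fin d) (Fin d) ℤ} {lam : ℝ} {l : Fin d → ℝ}
    (h : ∀ j, ∑ i, l i * (M i j : ℝ) = lam * l j) (y : Fin d → ℝ) :
    dot l (act M y) = lam * dot l y := by
  unfold dot act
  simp_rw [mul_sum]
  rw [sum_comm]
  refine sum_congr rfl fun j _ => ?_
  rw [← mul_assoc, ← h j, sum_mul]
  exact sum_congr rfl fun i _ => by ring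

lemma dot_act_pow {M : Matrix (Fin d) (Fin d) ℤ} {lam : ℝ} {l : Fin d → ℝ}
    (h : ∀ j, ∑ i, l i * (M i j : ℝ) = lam * l j) (k : ℕ) (y : Fin d → ℝ) :
    dot l (act (M ^ k) y) = lam ^ k * dot l y := by
  induction k with
  | zero => simp [act_eq]
  | succ k ih => rw [pow_succ', act_mul, dot_act h, ih, pow_succ']; ring

/-- the matrix attached to a polynomial -/
def BB (M : Matrix (Fin d) (Fin d) ℤ) (b : Fin d → ℤ) : Matrix (Fin d) (Fin d) ℤ :=
  ∑ i : Fin d, b i • M ^ (i : ℕ)

lemma act_BB (M : Matrix (Fin d) (Fin d) ℤ) (b : Fin d → ℤ) (y : Fin d → ℝ) :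
    act (BB M b) y = ∑ i : Fin d, (b i : ℝ) • act (M ^ (i : ℕ)) y := by
  funext r
  simp only [act, BB, Matrix.sum_apply, Matrix.smul_apply, smul_eq_mul, Int.cast_sum, Int.cast_mul,
    Finset.sum_apply, Pi.smul_apply, sum_mul, mul_sum]
  rw [sum_comm]
  exact sum_congr rfl fun i _ => sum_congr rfl fun j _ => by ring

lemma BB_det (M : Matrix (Fin d) (Fin d) ℤ)
    (hU : ∀ p : Polynomial ℚ, p ≠ 0 → p.natDegree < d →
      IsUnit (Polynomial.aeval (M.map (Int.castRingHom ℚ)) p)) (b : Fin d → ℤ) (hb : b ≠ 0) :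
    (BB M b).det ≠ 0 := by
  obtain ⟨i0, hi0⟩ : ∃ i, b i ≠ 0 := by
    by_contra h
    push Not at h
    exact hb (funext h)
  set p : Polynomial ℚ := ∑ i : Fin d, Polynomial.C (b i : ℚ) * Polynomial.X ^ (i : ℕ) with hp
  have hp0 : p ≠ 0 := by
    intro h
    have h1 : p.coeff i0 = (b i0 : ℚ) := by
      rw [hp, Polynomial.finsetSum_coeff]
      simp only [Polynomial.coeff_C_mul, Polynomial.coeff_X_pow]
      rw [sum_eq_single i0]
      · simp
      · intro j _ hj
        have : (i0 : ℕ) ≠ (j : ℕ) := fun h => hj (Fin.ext h.symm)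
        simp [this]
      · simp
    rw [h, Polynomial.coeff_zero] at h1
    exact hi0 (by exact_mod_cast h1.symm)
  have hdeg : p.natDegree < d :=
    (Polynomial.natDegree_lt_iff_degree_lt hp0).2 (Polynomial.degree_sum_fin_lt _)
  have h1 := hU p hp0 hdeg
  have h2 : Polynomial.aeval (M.map (Int.castRingHom ℚ)) p =
      (BB M b).map (Int.castRingHom ℚ) := by
    have e : (BB M b).map (Int.castRingHom ℚ) = (Int.castRingHom ℚ).mapMatrix (BB M b) := rfl
    rw [e, hp, BB, map_sum, map_sum]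
    refine sum_congr rfl fun i _ => ?_
    rw [map_mul, Polynomial.aeval_C, map_pow, Polynomial.aeval_X, map_zsmul, map_pow,
      Algebra.algebraMap_eq_smul_one, smul_mul_assoc, one_mul]
    ext r s
    simp
  rw [h2, Matrix.isUnit_iff_isUnit_det] at h1
  have h3 : ((BB M b).map (Int.castRingHom ℚ)).det = (((BB M b).det : ℤ) : ℚ) := by
    have e : (BB M b).map (Int.castRingHom ℚ) = (Int.castRingHom ℚ).mapMatrix (BB M b) := rfl
    rw [e, ← RingHom.map_det]
    rfl
  rw [h3] at h1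
  intro h
  rw [h] at h1
  simp at h1

lemma act_surj {B : Matrix (Fin d) (Fin d) ℤ} (hB : B.det ≠ 0) (y : Fin d → ℝ) :
    ∃ x, act B x = y := by
  have h3 : (B.map (Int.castRingHom ℝ)).det = ((B.det : ℤ) : ℝ) := by
    have e : B.map (Int.castRingHom ℝ) = (Int.castRingHom ℝ).mapMatrix B := rfl
    rw [e, ← RingHom.map_det]
    rfl
  have h4 : IsUnit (B.map (Int.castRingHom ℝ)).det := by
    rw [h3]
    exact (Int.cast_ne_zero.2 hB).isUnit
  refine ⟨(B.map (Int.castRingHom ℝ))⁻¹.mulVec y, ?_⟩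
  rw [act_eq, Matrix.mulVec_mulVec, Matrix.mul_nonsing_inv _ h4, Matrix.one_mulVec]

/-- pigeonhole: a small value of a polynomial -/
lemma small_value (hd : 2 ≤ d) {lam : ℝ} (hlam : 1 < lam) (h : ℕ) (hh : 1 ≤ h) :
    ∃ b : Fin d → ℤ, b ≠ 0 ∧ (∀ i, |(b i : ℝ)| ≤ h) ∧
      |∑ i : Fin d, (b i : ℝ) * lam ^ (i : ℕ)| ≤ (∑ i : Fin d, lam ^ (i : ℕ)) / (h : ℝ) ^ (d - 1) := by
  classical
  set S : ℝ := ∑ i : Fin d, lam ^ (i : ℕ) with hS
  have hne : Nonempty (Fin d) := ⟨⟨0, by omega⟩⟩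
  have hS0 : 0 < S := sum_pos (fun i _ => by positivity) univ_nonempty
  have hh0 : (0 : ℝ) < h := by exact_mod_cast hh
  set w : ℝ := S / (h : ℝ) ^ (d - 1) with hw
  have hw0 : 0 < w := by positivity
  let V : (Fin d → Fin (h + 1)) → ℝ := fun a => ∑ i : Fin d, ((a i : ℕ) : ℝ) * lam ^ (i : ℕ)
  have hV0 : ∀ a, 0 ≤ V a := fun a => sum_nonneg fun i _ => by positivity
  have hV1 : ∀ a, V a / w ≤ ((h ^ d : ℕ) : ℝ) := by
    intro a
    rw [div_le_iff₀ hw0, hw]
    have e : ((h ^ d : ℕ) : ℝ) * (S / (h : ℝ) ^ (d - 1)) = h * S := by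
      have : ((h ^ d : ℕ) : ℝ) = (h : ℝ) ^ (d - 1) * h := by
        rw [← pow_succ]
        push_cast
        congr 1
        omega
      rw [this]
      field_simp
    rw [e, hS, mul_sum]
    refine sum_le_sum fun i _ => ?_
    have : ((a i : ℕ) : ℝ) ≤ h := by
      have := (a i).2
      exact_mod_cast Nat.lt_succ_iff.1 this
    exact mul_le_mul_of_nonneg_right this (by positivity)
  have hcard : (range (h ^ d + 1)).card < (univ : Finset (Fin d → Fin (h + 1))).card := by
    rw [card_range, card_univ, Fintype.card_fun, Fintype.card_fin, Fintype.card_fin]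
    obtain ⟨n, rfl⟩ : ∃ n, d = n + 1 := ⟨d - 1, by omega⟩
    have h1 : h ^ n ≤ (h + 1) ^ n := Nat.pow_le_pow_left (by omega) n
    have h2 : (h + 1) ^ 1 ≤ (h + 1) ^ n := Nat.pow_le_pow_right (by omega) (by omega)
    have h3 : h ^ n * h ≤ (h + 1) ^ n * h := Nat.mul_le_mul_right h h1
    rw [pow_one] at h2
    rw [pow_succ, pow_succ]
    have h4 : (h + 1) ^ n * (h + 1) = (h + 1) ^ n * h + (h + 1) ^ n := by ring
    omega
  obtain ⟨a, _, a', _, hne', hf⟩ := exists_ne_map_eq_of_card_lt_of_maps_to hcard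
    (f := fun a => ⌊V a / w⌋₊) (by
      intro a _
      simp only [coe_range, Set.mem_Iio]
      exact Nat.lt_succ_iff.2 (Nat.floor_le_of_le (hV1 a)))
  refine ⟨fun i => ((a i : ℕ) : ℤ) - ((a' i : ℕ) : ℤ), ?_, ?_, ?_⟩
  · intro h0
    apply hne'
    funext i
    have := congrFun h0 i
    simp only [Pi.zero_apply] at this
    exact Fin.ext (by omega)
  · intro i
    have h1 := (a i).2
    have h2 := (a' i).2
    have : |((a i : ℕ) : ℤ) - ((a' i : ℕ) : ℤ)| ≤ h := by rw [abs_le]; omega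
    exact_mod_cast this
  · have e : ∑ i : Fin d, (((((a i : ℕ) : ℤ) - ((a' i : ℕ) : ℤ) : ℤ)) : ℝ) * lam ^ (i : ℕ) =
        V a - V a' := by
      simp only [V, ← sum_sub_distrib]
      refine sum_congr rfl fun i _ => ?_
      push_cast
      ring
    rw [e]
    have h1 := Nat.floor_le (div_nonneg (hV0 a) hw0.le)
    have h2 := Nat.floor_le (div_nonneg (hV0 a') hw0.le)
    have h3 := Nat.lt_floor_add_one (V a / w)
    have h4 := Nat.lt_floor_add_one (V a' / w)
    rw [hf] at h1 h3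
    have e1 : V a = (V a / w) * w := by field_simp
    have e2 : V a' = (V a' / w) * w := by field_simp
    rw [abs_le]
    constructor <;> nlinarith

end A5

open A5

theorem a5_holds (hA1 : StA1) : StA5 := by
  intro d hd M lam hM l f hD hCon
  obtain ⟨C, θ, hC0, hθ0, hθ1, hC⟩ := hCon
  obtain ⟨hU, -, -⟩ := hA1 d M hM.irr
  set S : ℝ := ∑ i : Fin d, lam ^ (i : ℕ) with hS
  have hlam := hM.one_lt
  have hS0 : 0 ≤ S := sum_nonneg fun i _ => by positivity
  have hsl : 0 ≤ sl l := sum_nonneg fun i _ => (hD.lpos i).le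
  refine ⟨d * C * (1 + d) + S * sl l * 2 ^ (d - 1) + 1, by positivity, fun H hH α => ?_⟩
  set h : ℕ := ⌊H⌋₊ with hh
  have hh1 : 1 ≤ h := (Nat.one_le_floor_iff H).2 hH
  have hhR : (1 : ℝ) ≤ h := by exact_mod_cast hh1
  have hhH : (h : ℝ) ≤ H := Nat.floor_le (by linarith)
  have hhH2 : H / 2 ≤ h := by
    have := Nat.lt_floor_add_one H
    rw [← hh] at this
    linarith
  obtain ⟨b, hb0, hbh, hbv⟩ := small_value hd hlam h hh1
  have hdet := BB_det M hU b hb0
  obtain ⟨x, hx⟩ := act_surj hdet (fun i => α * f i)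
  set z : Fin d → ℤ := (BB M b).mulVec (fun i => ⌊x i⌋) with hz
  set u : Fin d → ℝ := fun i => Int.fract (x i) with hu
  have hu0 : ∀ i, 0 ≤ u i := fun i => Int.fract_nonneg _
  have hu1 : ∀ i, u i ≤ 1 := fun i => (Int.fract_lt_one _).le
  have hzu : ∀ r, α * f r = ic z r + act (BB M b) u r := by
    intro r
    have h1 : act (BB M b) x r = α * f r := congrFun hx r
    rw [← h1, hz, act_ic]
    unfold act
    rw [← sum_add_distrib]
    refine sum_congr rfl fun j _ => ?_
    have : x j = ic (fun i => ⌊x i⌋) j + u j := (Int.floor_add_fract (x j)).symm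
    rw [this]
    ring
  have hic : ic z = fun r => α * f r - act (BB M b) u r := by
    funext r
    rw [hzu r]
    ring
  have hdu0 : 0 ≤ dot l u := sum_nonneg fun i _ => mul_nonneg (hD.lpos i).le (hu0 i)
  have hdu1 : dot l u ≤ sl l := sum_le_sum fun i _ =>
    mul_le_of_le_one_right (hD.lpos i).le (hu1 i)
  have hf1 : ∀ i, f i ≤ 1 := by
    intro i
    rw [← hD.fsum]
    exact single_le_sum (fun j _ => (hD.fpos j).le) (mem_univ i)
  refine ⟨z, ?_, ?_⟩
  · -- the transversal bound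
    have hpu : ‖prj f u‖ ≤ 1 + d := by
      rw [pi_norm_le_iff_of_nonneg (by positivity)]
      intro i
      unfold prj
      have h1 : ∑ j, u j ≤ d := by
        calc ∑ j, u j ≤ ∑ _j : Fin d, (1 : ℝ) := sum_le_sum fun j _ => hu1 j
          _ = d := by simp
      have h0 : 0 ≤ ∑ j, u j := sum_nonneg fun j _ => hu0 j
      have h2 : (∑ j, u j) * f i ≤ d * 1 :=
        mul_le_mul h1 (hf1 i) (hD.fpos i).le (by positivity)
      have h3 : 0 ≤ (∑ j, u j) * f i := mul_nonneg h0 (hD.fpos i).le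
      have h4 := hu0 i
      have h5 := hu1 i
      rw [Real.norm_eq_abs, abs_le]
      constructor <;> linarith
    have e : prj f (ic z) = - ∑ i : Fin d, (b i : ℝ) • prj f (act (M ^ (i : ℕ)) u) := by
      funext r
      have e1 : ∀ y : Fin d → ℝ, (fun r => α * f r - y r) = ic z →
          prj f (ic z) r = - prj f y r := by
        intro y hy
        rw [← hy]
        unfold prj
        rw [sum_sub_distrib, ← mul_sum, hD.fsum]
        ring
      rw [e1 _ hic.symm, act_BB]
      simp only [Pi.neg_apply, Finset.sum_apply, Pi.smul_apply, smul_eq_mul, prj]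
      rw [sum_comm, sum_mul, ← sum_sub_distrib]
      congr 1
      refine sum_congr rfl fun i _ => ?_
      rw [← mul_sum]
      ring
    rw [e, norm_neg]
    have h1 : ‖∑ i : Fin d, (b i : ℝ) • prj f (act (M ^ (i : ℕ)) u)‖ ≤
        ∑ _i : Fin d, h * (C * (1 + d)) := by
      refine (norm_sum_le _ _).trans (sum_le_sum fun i _ => ?_)
      rw [norm_smul, Real.norm_eq_abs]
      refine mul_le_mul (hbh i) ?_ (norm_nonneg _) (by positivity)
      refine (hC i u).trans ?_
      have h2 : θ ^ (i : ℕ) ≤ 1 := pow_le_one₀ hθ0.le hθ1.le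
      have h3 : C * θ ^ (i : ℕ) ≤ C := mul_le_of_le_one_right hC0.le h2
      exact mul_le_mul h3 hpu (norm_nonneg _) hC0.le
    refine h1.trans ?_
    rw [sum_const, card_univ, Fintype.card_fin, nsmul_eq_mul]
    have h2 : 0 ≤ S * sl l * 2 ^ (d - 1) + 1 := by
      have := mul_nonneg (mul_nonneg hS0 hsl) (pow_nonneg (zero_le_two (α := ℝ)) (d - 1))
      linarith
    have h3 : (d : ℝ) * (h * (C * (1 + d))) = (d * C * (1 + d)) * h := by ring
    rw [h3]
    have h4 : 0 ≤ (d : ℝ) * C * (1 + d) := by positivity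
    calc (d * C * (1 + d)) * (h : ℝ) ≤ (d * C * (1 + d)) * H := mul_le_mul_of_nonneg_left hhH h4
      _ ≤ _ := by nlinarith
  · -- the longitudinal bound
    have e : dot l (ic z) - α = -((∑ i : Fin d, (b i : ℝ) * lam ^ (i : ℕ)) * dot l u) := by
      have e1 : dot l (ic z) = α * dot l f - dot l (act (BB M b) u) := by
        rw [hic]
        unfold dot
        rw [mul_sum, ← sum_sub_distrib]
        exact sum_congr rfl fun i _ => by ring
      have e2 : dot l (act (BB M b) u) = (∑ i : Fin d, (b i : ℝ) * lam ^ (i : ℕ)) * dot l u := by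
        rw [act_BB]
        have e3 : dot l (∑ i : Fin d, (b i : ℝ) • act (M ^ (i : ℕ)) u) =
            ∑ i : Fin d, (b i : ℝ) * dot l (act (M ^ (i : ℕ)) u) := by
          unfold dot
          simp only [Finset.sum_apply, Pi.smul_apply, smul_eq_mul, mul_sum]
          rw [sum_comm]
          exact sum_congr rfl fun i _ => sum_congr rfl fun j _ => by ring
        rw [e3, sum_mul]
        refine sum_congr rfl fun i _ => ?_
        rw [dot_act_pow hD.left]
        ring
      rw [e1, e2, hD.lf]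
      ring
    rw [e, abs_neg, abs_mul, abs_of_nonneg hdu0]
    have h1 : |∑ i : Fin d, (b i : ℝ) * lam ^ (i : ℕ)| * dot l u ≤
        S / (h : ℝ) ^ (d - 1) * sl l := mul_le_mul hbv hdu1 hdu0
          (div_nonneg hS0 (pow_nonneg (Nat.cast_nonneg h) _))
    refine h1.trans ?_
    have hH0 : 0 < H := by linarith
    have e4 : H ^ (-((d : ℝ) - 1)) = (H ^ (d - 1))⁻¹ := by
      rw [Real.rpow_neg hH0.le]
      congr 1
      rw [← Real.rpow_natCast]
      congr 1
      rw [Nat.cast_sub (by omega)]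
      simp
    rw [e4]
    have h2 : (H / 2) ^ (d - 1) ≤ (h : ℝ) ^ (d - 1) := pow_le_pow_left₀ (by positivity) hhH2 _
    have h3 : S / (h : ℝ) ^ (d - 1) ≤ S / (H / 2) ^ (d - 1) :=
      div_le_div_of_nonneg_left hS0 (by positivity) h2
    have h4 : S / (H / 2) ^ (d - 1) = S * 2 ^ (d - 1) * (H ^ (d - 1))⁻¹ := by
      rw [div_pow]
      field_simp
    rw [h4] at h3
    have h5 := mul_le_mul_of_nonneg_right h3 hsl
    refine h5.trans ?_
    have h6 : 0 ≤ (H ^ (d - 1))⁻¹ := by positivity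
    have h7 : S * 2 ^ (d - 1) * (H ^ (d - 1))⁻¹ * sl l =
        (S * sl l * 2 ^ (d - 1)) * (H ^ (d - 1))⁻¹ := by ring
    rw [h7]
    refine mul_le_mul_of_nonneg_right ?_ h6
    have h8 : 0 ≤ (d : ℝ) * C * (1 + d) := by positivity
    linarith

end Pool.Agent.H811R3.PS
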