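import Pool.Agent.H811R3.PS.Defs2

set_option autoImplicit false

open Finset MeasureTheory Filter

namespace Pool.Agent.H811R3.PS

theorem bc_holds (hLOW : StLOW) (hPA : StPA) : StBC := by
  intro d M lam l f Cc θ δ hC
  obtain ⟨-, hPA2⟩ := hPA d M lam l f Cc θ δ hC
  have hPV : PV f := ⟨hC.dat.fpos, hC.dat.fsum⟩
  obtain ⟨c, hc, n0, hlow⟩ := hLOW d hC.d2 f hPV 1
  have hd2 : (2 : ℝ) ≤ d := by exact_mod_cast hC.d2
  have hlam : 1 < lam := hC.dat.one_lt
  have hsl : 0 ≤ sl l := Finset.sum_nonneg fun i _ => (hC.dat.lpos i).le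
  have hy : Tendsto (fun k : ℕ => lam ^ k) atTop atTop := tendsto_pow_atTop_atTop_of_one_lt hlam
  set a : ℝ := ((d : ℝ) - 1) / 2 with ha
  have ha0 : 0 ≤ a := by rw [ha]; linarith
  have h1 : ∀ᶠ k : ℕ in atTop, 1 / (c * (1 + sl l) ^ (-a)) ≤ (lam ^ k) ^ ((d : ℝ) - a) := by
    have h2 : Tendsto (fun k : ℕ => (lam ^ k) ^ ((d : ℝ) - a)) atTop atTop :=
      (tendsto_rpow_atTop (by rw [ha]; linarith)).comp hy
    exact h2.eventually_ge_atTop _
  have h2 : ∀ j : Fin d, ∀ᶠ k : ℕ in atTop, ((n0 : ℝ) + 2) ≤ lam ^ k * l j := by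
    intro j
    exact (hy.atTop_mul_const (hC.dat.lpos j)).eventually_ge_atTop _
  refine ⟨(d : ℝ) * d, by positivity, ?_⟩
  filter_upwards [hPA2, h1, Filter.eventually_all.2 h2] with k hk hk1 hk2 w0
  obtain ⟨-, hsum, hN, hN2, hz⟩ := hk
  set y := lam ^ k with hydef
  have hy0 : 0 < y := pow_pos (by linarith) k
  have hone : ∀ j : Fin d, y ^ (-(d : ℝ)) ≤
      Pr f 0 (NN M k j) (fun w => cnt w 0 (NN M k j) = fun i => (M ^ k) i j) w0 := by
    intro j
    have hn1 : ((n0 : ℝ) + 1) ≤ NN M k j := by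
      have := (abs_le.1 (hN j)).1
      have := hk2 j
      linarith
    have hn0 : n0 ≤ NN M k j := by
      have : ((n0 : ℝ)) ≤ NN M k j := by linarith
      exact_mod_cast this
    have hn2 : (1 : ℝ) ≤ NN M k j := by
      have : (0 : ℝ) ≤ n0 := by positivity
      linarith
    have h3 := hlow (NN M k j) hn0 (fun i => (M ^ k) i j) (hsum j).symm (by
      intro i
      rw [one_mul]
      exact (hz j i).trans (Real.one_le_sqrt.2 hn2)) 0 w0
    rw [zero_add] at h3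
    refine le_trans ?_ h3
    have h4 : (L0P l y) ^ (-a) ≤ (NN M k j : ℝ) ^ (-a) :=
      Real.rpow_le_rpow_of_nonpos (by linarith) (hN2 j) (by linarith)
    have h5 : (L0P l y) ^ (-a) = (1 + sl l) ^ (-a) * y ^ (-a) := by
      unfold L0P
      rw [Real.mul_rpow (by linarith) hy0.le]
    have h6 : y ^ (-(d : ℝ)) ≤ c * ((1 + sl l) ^ (-a) * y ^ (-a)) := by
      have h7 : 0 < c * (1 + sl l) ^ (-a) := by
        have : 0 < (1 + sl l) ^ (-a) := Real.rpow_pos_of_pos (by linarith) _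
        positivity
      rw [div_le_iff₀ h7] at hk1
      have h8 : 0 < y ^ (-(d : ℝ)) := Real.rpow_pos_of_pos hy0 _
      calc y ^ (-(d : ℝ)) = y ^ (-(d : ℝ)) * 1 := by rw [mul_one]
        _ ≤ y ^ (-(d : ℝ)) * (y ^ ((d : ℝ) - a) * (c * (1 + sl l) ^ (-a))) :=
            mul_le_mul_of_nonneg_left hk1 h8.le
        _ = c * ((1 + sl l) ^ (-a) * (y ^ (-(d : ℝ)) * y ^ ((d : ℝ) - a))) := by ring
        _ = c * ((1 + sl l) ^ (-a) * y ^ (-a)) := by
            rw [← Real.rpow_add hy0]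
            congr 3
            ring
    calc y ^ (-(d : ℝ)) ≤ c * ((1 + sl l) ^ (-a) * y ^ (-a)) := h6
      _ = c * (L0P l y) ^ (-a) := by rw [h5]
      _ ≤ c * (NN M k j : ℝ) ^ (-a) := mul_le_mul_of_nonneg_left h4 hc.le
  calc y ^ (-((d : ℝ) * d)) = ∏ _j : Fin d, y ^ (-(d : ℝ)) := by
        rw [Finset.prod_const, Finset.card_univ, Fintype.card_fin, ← Real.rpow_mul_natCast hy0.le]
        congr 1
        ring
    _ ≤ _ := Finset.prod_le_prod (fun j _ => (Real.rpow_pos_of_pos hy0 _).le) fun j _ => hone j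

end Pool.Agent.H811R3.PS
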