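import Pool.Agent.H298R2.PS.Core

set_option autoImplicit false

open Finset MeasureTheory Filter

namespace Pool.Agent.H811R3.PS

open B298 in
/-- (BE) self alignments with small offset -/
theorem be_holds (hPRO : StPRO) (hPA : StPA) (hEX : StEX) : StBE := by
  classical
  intro d M lam l f Cc θ δ ctx c C1 hc hC1 m0 hL1
  have hd := ctx.d2
  have hl := ctx.dat.lpos
  have hlf := ctx.dat.lf
  have hf : PV f := ⟨ctx.dat.fpos, ctx.dat.fsum⟩
  obtain ⟨hδ, hδ1, -⟩ := ctx.adm
  have hne : (univ : Finset (Fin d)).Nonempty := ⟨⟨0, by omega⟩, mem_univ _⟩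
  have hsl : 0 < sl l := Finset.sum_pos (fun i _ => hl i) hne
  have hlm : 0 < lm l := inv_pos.2 (Finset.sum_pos (fun i _ => inv_pos.2 (hl i)) hne)
  have hlam : 1 < lam := ctx.pis.one_lt
  refine ⟨c * lm l / 48, by positivity, ?_⟩
  have hpow : Tendsto (fun k : ℕ => lam ^ k) atTop atTop := tendsto_pow_atTop_atTop_of_one_lt hlam
  obtain ⟨hDat, hPA2⟩ := hPA d M lam l f Cc θ δ ctx
  filter_upwards [hPA2, hpow.eventually (ev_num hd hl hδ hδ1 hC1 hc m0), eventually_ge_atTop 1]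
    with k hk hnum hk1
  obtain ⟨-, -, hNl, hNL0, -⟩ := hk
  have hD := hDat k hk1
  obtain ⟨y1, m0le, m1, n1, n3, n4, n5, ne0⟩ := hnum
  set y : ℝ := lam ^ k with hy
  set m : ℕ := mP d δ y with hm
  set A := M ^ k with hA
  set N := NN M k with hN
  set e : ℝ := eP d C1 δ y with he
  set R' : ℝ := sl l * R0P l δ y with hR'
  have hy0 : 0 < y := by linarith
  have hmR : (1 : ℝ) ≤ m := by exact_mod_cast m1
  intro w0 i v hve hv2e
  refine hPRO d f hf N w0 _ i _ fun W => ?_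
  have hR'0 : 0 ≤ R' := by
    rw [hR']
    refine mul_nonneg hsl.le ?_
    unfold R0P
    positivity
  -- positions of the top strand
  set o : ℝ := dot l (ic (A.mulVec v)) with ho
  have ho' : o = y * dot l (ic v) := dot_mulVec hD v
  have ho1 : y * e ≤ o := by rw [ho']; exact mul_le_mul_of_nonneg_left hve hy0.le
  have ho2 : o ≤ 2 * (y * e) := by
    rw [ho']
    have := mul_le_mul_of_nonneg_left hv2e hy0.le
    linarith
  have hye0 : 0 ≤ y * e := mul_nonneg hy0.le ne0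
  have hroom : 2 * (y * e) ≤ y * lm l / 4 := by
    have := mul_le_mul_of_nonneg_left n5 hy0.le
    linarith
  have hli : y * lm l ≤ y * l i := mul_le_mul_of_nonneg_left (lm_le hl i) hy0.le
  set τ : ℕ := ⌈2 * (y * e) + R'⌉₊ + 1 with hτ
  set K : ℕ := ⌊y * lm l / (24 * m)⌋₊ with hK
  have hτc : (τ : ℝ) = (⌈2 * (y * e) + R'⌉₊ : ℝ) + 1 := by rw [hτ]; push_cast; rfl
  have hτ1 : 2 * (y * e) + R' + 1 ≤ τ := by
    have := Nat.le_ceil (2 * (y * e) + R')
    rw [hτc]
    linarith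
  have hτ2 : (τ : ℝ) < 2 * (y * e) + R' + 2 := by
    have := Nat.ceil_lt_add_one (show 0 ≤ 2 * (y * e) + R' by positivity)
    rw [hτc]
    linarith
  have hτpos : 1 ≤ τ := by rw [hτ]; omega
  have h3mK : 3 * (m : ℝ) * K ≤ y * lm l / 8 := by
    have h1 : (K : ℝ) ≤ y * lm l / (24 * m) := Nat.floor_le (by positivity)
    calc 3 * (m : ℝ) * K ≤ 3 * (m : ℝ) * (y * lm l / (24 * m)) :=
          mul_le_mul_of_nonneg_left h1 (by positivity)
      _ = y * lm l / 8 := by
          field_simp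
          ring
  have hNi : τ + K * (3 * m) ≤ N i := by
    have h1 := hNl i
    rw [abs_le] at h1
    have h2 : ((τ + K * (3 * m) : ℕ) : ℝ) ≤ (N i : ℝ) := by
      push_cast
      nlinarith
    exact_mod_cast h2
  -- the targets
  set tk : ℕ → (ℕ → Fin d) → ℕ := fun k' w =>
    sInf {t | dot l (ic (cnt w 0 (τ + k' * (3 * m)))) + m ≤ o + dot l (ic (cnt w 0 t))} with htk
  set V : ℕ → (ℕ → Fin d) → Fin d → ℤ := fun k' w => A.mulVec v + cnt w 0 (tk k' w) with hV
  set a : ℕ → (ℕ → Fin d) → Fin d := fun k' w => w (tk k' w) with ha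
  set G : ℕ → (ℕ → Fin d) → Prop := fun k' w =>
    ‖prj f (ic (cnt w 0 (τ + k' * (3 * m))))‖ ≤ R0P l δ y with hG
  -- the index `τ_k - 1` always works
  have hlast : ∀ (k' : ℕ) (w : ℕ → Fin d), τ + k' * (3 * m) - 1 ∈
      {t | dot l (ic (cnt w 0 (τ + k' * (3 * m)))) + m ≤ o + dot l (ic (cnt w 0 t))} := by
    intro k' w
    obtain ⟨s, hs⟩ : ∃ s, τ + k' * (3 * m) = s + 1 := ⟨τ + k' * (3 * m) - 1, by omega⟩
    rw [hs, Nat.add_sub_cancel]
    show dot l (ic (cnt w 0 (s + 1))) + m ≤ o + dot l (ic (cnt w 0 s))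
    rw [dot_cnt_succ]
    have := le_sl hl (w s)
    linarith
  have htk_lt : ∀ (k' : ℕ) (w : ℕ → Fin d), tk k' w < τ + k' * (3 * m) := by
    intro k' w
    have h1 : tk k' w ≤ τ + k' * (3 * m) - 1 := Nat.sInf_le (hlast k' w)
    omega
  have htk_mem : ∀ (k' : ℕ) (w : ℕ → Fin d), dot l (ic (cnt w 0 (τ + k' * (3 * m)))) + m ≤
      o + dot l (ic (cnt w 0 (tk k' w))) := fun k' w => Nat.sInf_mem ⟨_, hlast k' w⟩
  have loc_le : ∀ (k' : ℕ) (w w' : ℕ → Fin d), (∀ t < τ + k' * (3 * m), w t = w' t) →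
      tk k' w' ≤ tk k' w := by
    intro k' w w' h
    refine Nat.sInf_le ?_
    show dot l (ic (cnt w' 0 (τ + k' * (3 * m)))) + m ≤ o + dot l (ic (cnt w' 0 (tk k' w)))
    rw [← cnt_congr h le_rfl, ← cnt_congr h (htk_lt k' w).le]
    exact htk_mem k' w
  have loc_tk : ∀ k', Loc (τ + k' * (3 * m)) (tk k') := fun k' w w' h =>
    le_antisymm (loc_le k' w' w (fun t ht => (h t ht).symm)) (loc_le k' w w' h)
  have locV : ∀ k', Loc (τ + k' * (3 * m)) (V k') := by
    intro k' w w' h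
    simp only [hV]
    rw [← loc_tk k' w w' h, cnt_congr h (htk_lt k' w).le]
  have loca : ∀ k', Loc (τ + k' * (3 * m)) (a k') := by
    intro k' w w' h
    simp only [ha]
    rw [← loc_tk k' w w' h]
    exact h _ (htk_lt k' w)
  have locG : ∀ k', Loc (τ + k' * (3 * m)) (G k') := by
    intro k' w w' h
    simp only [hG]
    rw [cnt_congr h le_rfl]
  have hkey := hL1 m m0le τ K (N i) hNi V a G locV loca locG (by
    intro k' hk' w hGw
    have h1 := pos_close hl hlf w (τ + k' * (3 * m)) hGw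
    rw [abs_le] at h1
    have h2 : ((τ + k' * (3 * m) : ℕ) : ℝ) = τ + k' * (3 * m) := by push_cast; ring
    rw [h2] at h1
    have h5 : (0 : ℝ) ≤ (k' : ℝ) * (3 * m) := by positivity
    have h6 : o ≤ dot l (ic (cnt w 0 (τ + k' * (3 * m)))) := by linarith
    have hstep : ∀ t, (fun t => o + dot l (ic (cnt w 0 t))) (t + 1) ≤
        (fun t => o + dot l (ic (cnt w 0 t))) t + sl l := by
      intro t
      simp only
      rw [dot_cnt_succ]
      have := le_sl hl (w t)
      linarith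
    obtain ⟨g1, g2, -⟩ := first_hit (X := fun t => o + dot l (ic (cnt w 0 t))) (s := sl l)
      (B := dot l (ic (cnt w 0 (τ + k' * (3 * m)))) + m) hstep (by
        rw [dot_cnt_zero]
        linarith) (T := τ + k' * (3 * m) - 1) (hlast k' w)
    have h7 : dot l (ic (V k' w - cnt w 0 (τ + k' * (3 * m)))) =
        o + dot l (ic (cnt w 0 (tk k' w))) - dot l (ic (cnt w 0 (τ + k' * (3 * m)))) := by
      rw [dis]
      simp only [hV]
      rw [dia]
    have g1' : dot l (ic (cnt w 0 (τ + k' * (3 * m)))) + m ≤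
      o + dot l (ic (cnt w 0 (tk k' w))) := g1
    have g2' : o + dot l (ic (cnt w 0 (tk k' w))) ≤
      dot l (ic (cnt w 0 (τ + k' * (3 * m)))) + m + sl l := g2
    rw [h7]
    constructor <;> linarith) w0
  refine le_trans ?_ (hkey.trans n3)
  refine Pr_mono hEX hf 0 (N i) (fun w hw => ?_) w0
  obtain ⟨hreg, hev⟩ := hw
  intro k' hk'
  have hbl : τ + (k' + 1) * (3 * m) ≤ N i := by
    have h1 : (k' + 1) * (3 * m) ≤ K * (3 * m) := Nat.mul_le_mul_right _ hk'
    omega
  have hbl0 : τ + k' * (3 * m) ≤ N i := by nlinarith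
  have hGw : G k' w := by
    have h1 := hreg i 0 (τ + k' * (3 * m)) (Nat.zero_le _) hbl0 (by
      have h2 : ((τ + k' * (3 * m) - 0 : ℕ) : ℝ) ≤ (N i : ℝ) := by
        rw [Nat.sub_zero]
        exact_mod_cast hbl0
      exact h2.trans (hNL0 i))
    rw [Function.update_self] at h1
    exact h1
  refine ⟨hGw, ?_⟩
  rintro ⟨t', ht1, ht2, hwt, he1, he2⟩
  apply hev
  refine ⟨tk k' w, t', lt_of_lt_of_le (htk_lt k' w) hbl0, by omega, ?_, ?_⟩
  · rw [Function.update_self]
    exact hwt.symm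
  · unfold chv
    rw [Function.update_self]
    exact ⟨he1, he2⟩

end Pool.Agent.H811R3.PS
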