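import Pool.Agent.H811R3.PS.Defs2

set_option autoImplicit false

open Finset MeasureTheory Filter

namespace Pool.Agent.H811R3.PS

namespace BFaux

lemma prT_nonneg {d : ℕ} {f : Fin d → ℝ} (hf : PV f) (N : Fin d → ℕ) (w0 : ℕ → Fin d)
    (E : (Fin d → ℕ → Fin d) → Prop) : 0 ≤ PrT f N w0 E := by
  unfold PrT
  apply Finset.sum_nonneg
  intro t _
  apply mul_nonneg
  · exact Finset.prod_nonneg fun j _ => Finset.prod_nonneg fun s _ => (hf.1 _).le
  · split_ifs <;> norm_num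

lemma prT_mono {d : ℕ} {f : Fin d → ℝ} (hf : PV f) (N : Fin d → ℕ) (w0 : ℕ → Fin d)
    {E F : (Fin d → ℕ → Fin d) → Prop} (h : ∀ W, E W → F W) :
    PrT f N w0 E ≤ PrT f N w0 F := by
  unfold PrT
  apply Finset.sum_le_sum
  intro t _
  apply mul_le_mul_of_nonneg_left
  · by_cases h1 : E (fun j => ovr w0 0 (t j))
    · rw [if_pos h1, if_pos (h _ h1)]
    · rw [if_neg h1]; split_ifs <;> norm_num
  · exact Finset.prod_nonneg fun j _ => Finset.prod_nonneg fun s _ => (hf.1 _).le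

lemma asym {lam : ℝ} (hl : 1 < lam) {c C δ : ℝ} (hc : 0 < c) (hδ : 0 < δ) :
    ∀ᶠ k : ℕ in atTop, (lam ^ k) ^ C * Real.exp (-(c * (lam ^ k) ^ δ)) ≤
      Real.exp (-(c / 2 * (lam ^ k) ^ δ)) := by
  have h1 : Tendsto (fun k : ℕ => lam ^ k) atTop atTop := tendsto_pow_atTop_atTop_of_one_lt hl
  have h2 : Tendsto (fun k : ℕ => (lam ^ k) ^ δ) atTop atTop := (tendsto_rpow_atTop hδ).comp h1
  have h3 := (isLittleO_rpow_exp_pos_mul_atTop (C / δ) (half_pos hc)).bound one_pos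
  have h4 := h2.eventually h3
  filter_upwards [h4] with k hk
  have hy : 0 < lam ^ k := pow_pos (by linarith) k
  have e1 : ((lam ^ k) ^ δ) ^ (C / δ) = (lam ^ k) ^ C := by
    rw [← Real.rpow_mul hy.le]; congr 1; field_simp
  rw [e1, one_mul, Real.norm_of_nonneg (Real.rpow_nonneg hy.le _),
    Real.norm_of_nonneg (Real.exp_pos _).le] at hk
  calc (lam ^ k) ^ C * Real.exp (-(c * (lam ^ k) ^ δ))
      ≤ Real.exp (c / 2 * (lam ^ k) ^ δ) * Real.exp (-(c * (lam ^ k) ^ δ)) :=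
        mul_le_mul_of_nonneg_right hk (Real.exp_pos _).le
    _ = Real.exp (-(c / 2 * (lam ^ k) ^ δ)) := by
        rw [← Real.exp_add]; congr 1; ring

end BFaux

open BFaux in
theorem bf_holds (hBU : StBU) (hBC : StBC) (hCNT : StCNT) (hDF : StDF) (hPN : StPN)
    (hPA : StPA) : StBF := by
  intro d M lam l f Cc θ δ ctx
  have hd := ctx.d2
  have hf : PV f := ⟨ctx.dat.fpos, ctx.dat.fsum⟩
  set a : Fin d := ⟨0, by omega⟩ with ha
  set b : Fin d := ⟨1, by omega⟩ with hb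
  have hab : a ≠ b := by
    intro h
    have := congrArg Fin.val h
    simp [ha, hb] at this
  obtain ⟨C1, c, hC1, hc, hU⟩ := hBU d M lam l f Cc θ δ ctx a b
  obtain ⟨C, hC, hBC'⟩ := hBC d M lam l f Cc θ δ ctx
  have hN := hPN d M lam l f Cc θ δ ctx C1 hC1
  have hA := (hPA d M lam l f Cc θ δ ctx).1
  refine ⟨c / 2, half_pos hc, ?_⟩
  filter_upwards [hU, hBC', hN, eventually_ge_atTop 1, asym (C := C) ctx.pis.one_lt hc ctx.adm.1]
    with k hU hBC' hN hk1 has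
  intro w0
  have hU := hU w0
  have hBC' := hBC' w0
  obtain ⟨hcon, hnum⟩ := hN
  have hdat := hA k hk1
  set E : (Fin d → ℕ → Fin d) → Prop := fun W =>
    ¬ (Coin (M ^ k) l f (NN M k) W (4 * R0P l δ (lam ^ k)) ∧
        Reg f (NN M k) W (L0P l (lam ^ k)) (R0P l δ (lam ^ k)) ∧
        Dist (NN M k) W (LP δ (lam ^ k))) with hE
  have hcnt := hCNT d f hf (M ^ k) (NN M k) w0 E
  have hmono : PrT f (NN M k) w0 (fun W => E W ∧ ∀ j, cnt (W j) 0 (NN M k j)
      = fun i => (M ^ k) i j) ≤ Real.exp (-(c * (lam ^ k) ^ δ)) := by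
    refine le_trans (prT_mono hf _ _ ?_) hU
    rintro W ⟨h1, h2⟩
    refine ⟨h2, fun hg => h1 ?_⟩
    exact ⟨hDF d hd (M ^ k) (lam ^ k) l f (NN M k) W _ _ _ _ _ _ _ a b _ hdat hcon hnum hg hab,
      hg.regL, hg.dist⟩
  have hy : 0 < lam ^ k := pow_pos (by linarith [ctx.pis.one_lt]) k
  set p := ∏ j, Pr f 0 (NN M k j) (fun w => cnt w 0 (NN M k j) = fun i => (M ^ k) i j) w0 with hp
  have hp0 : 0 < (lam ^ k) ^ (-C) := Real.rpow_pos_of_pos hy _
  classical
  have goal : ((univ.filter fun t : (∀ j : Fin d, Fin (NN M k j) → Fin d) =>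
      E (fun j => ovr w0 0 (t j)) ∧ ∀ j, cnt (ovr w0 0 (t j)) 0 (NN M k j)
        = fun i => (M ^ k) i j).card : ℝ) ≤ Real.exp (-(c / 2 * (lam ^ k) ^ δ)) *
      ((univ.filter fun t : (∀ j : Fin d, Fin (NN M k j) → Fin d) =>
        ∀ j, cnt (ovr w0 0 (t j)) 0 (NN M k j) = fun i => (M ^ k) i j).card : ℝ) := by
    have hcnt' : ((univ.filter fun t : (∀ j : Fin d, Fin (NN M k j) → Fin d) =>
      E (fun j => ovr w0 0 (t j)) ∧ ∀ j, cnt (ovr w0 0 (t j)) 0 (NN M k j)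
        = fun i => (M ^ k) i j).card : ℝ) * p =
      PrT f (NN M k) w0 (fun W => E W ∧ ∀ j, cnt (W j) 0 (NN M k j) = fun i => (M ^ k) i j) *
      ((univ.filter fun t : (∀ j : Fin d, Fin (NN M k j) → Fin d) =>
        ∀ j, cnt (ovr w0 0 (t j)) 0 (NN M k j) = fun i => (M ^ k) i j).card : ℝ) := by
      convert hcnt using 3
      congr 1
      ext t
      simp only [Finset.mem_filter, Finset.mem_univ, true_and]
    set x : ℝ := ((univ.filter fun t : (∀ j : Fin d, Fin (NN M k j) → Fin d) =>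
      E (fun j => ovr w0 0 (t j)) ∧ ∀ j, cnt (ovr w0 0 (t j)) 0 (NN M k j)
        = fun i => (M ^ k) i j).card : ℝ) with hx
    set z : ℝ := ((univ.filter fun t : (∀ j : Fin d, Fin (NN M k j) → Fin d) =>
        ∀ j, cnt (ovr w0 0 (t j)) 0 (NN M k j) = fun i => (M ^ k) i j).card : ℝ) with hz
    have hx0 : 0 ≤ x := Nat.cast_nonneg _
    have hz0 : 0 ≤ z := Nat.cast_nonneg _
    have h1 : x * (lam ^ k) ^ (-C) ≤ Real.exp (-(c * (lam ^ k) ^ δ)) * z :=
      calc x * (lam ^ k) ^ (-C) ≤ x * p := mul_le_mul_of_nonneg_left hBC' hx0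
        _ = _ := hcnt'
        _ ≤ Real.exp (-(c * (lam ^ k) ^ δ)) * z := mul_le_mul_of_nonneg_right hmono hz0
    have hinv : (lam ^ k) ^ C * (lam ^ k) ^ (-C) = 1 := by
      rw [← Real.rpow_add hy]; simp
    calc x = (lam ^ k) ^ C * (x * (lam ^ k) ^ (-C)) := by
          rw [mul_comm x, ← mul_assoc, hinv, one_mul]
      _ ≤ (lam ^ k) ^ C * (Real.exp (-(c * (lam ^ k) ^ δ)) * z) :=
          mul_le_mul_of_nonneg_left h1 (Real.rpow_nonneg hy.le _)
      _ = ((lam ^ k) ^ C * Real.exp (-(c * (lam ^ k) ^ δ))) * z := by ring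
      _ ≤ Real.exp (-(c / 2 * (lam ^ k) ^ δ)) * z := mul_le_mul_of_nonneg_right has hz0
  convert goal using 3
  · ext t
    simp only [Finset.mem_filter, Finset.mem_univ, true_and]
    exact Iff.rfl
  · congr 1
    ext t
    simp only [Finset.mem_filter, Finset.mem_univ, true_and]
    exact Iff.rfl

end Pool.Agent.H811R3.PS
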