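import Pool.Agent.H298R2.PS.Core

set_option autoImplicit false

open Finset MeasureTheory Filter

namespace Pool.Agent.H811R3.PS

open B298 in
/-- (BN) overlaps of different letters -/
theorem bn_holds (hPRO : StPRO) (hPA : StPA) (hEX : StEX) : StBN := by
  classical
  intro d M lam l f Cc θ δ ctx c C1 hc hC1 m0 hL1
  have hd := ctx.d2
  have hl := ctx.dat.lpos
  have hlf := ctx.dat.lf
  have hf : PV f := ⟨ctx.dat.fpos, ctx.dat.fsum⟩
  obtain ⟨hδ, hδ1, -⟩ := ctx.adm
  have hne : (univ : Finset (Fin d)).Nonempty := ⟨⟨0, by omega⟩, mem_univ _⟩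
  have hsl : 0 < sl l := Finset.sum_pos (fun i _ => hl i) hne
  have hlm : 0 < lm l := inv_pos.2 (Finset.sum_pos (fun i _ => inv_pos.2 (hl i)) hne)
  have hlam : 1 < lam := ctx.pis.one_lt
  refine ⟨c * lm l / 48, by positivity, ?_⟩
  have hpow : Tendsto (fun k : ℕ => lam ^ k) atTop atTop := tendsto_pow_atTop_atTop_of_one_lt hlam
  obtain ⟨hDat, hPA2⟩ := hPA d M lam l f Cc θ δ ctx
  filter_upwards [hPA2, hpow.eventually (ev_num hd hl hδ hδ1 hC1 hc m0), eventually_ge_atTop 1]
    with k hk hnum hk1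
  obtain ⟨-, -, hNl, hNL0, -⟩ := hk
  have hD := hDat k hk1
  obtain ⟨y1, m0le, m1, n1, n3, -, -, -⟩ := hnum
  set y : ℝ := lam ^ k with hy
  set m : ℕ := mP d δ y with hm
  set A := M ^ k with hA
  set N := NN M k with hN
  set e : ℝ := eP d C1 δ y with he
  set R' : ℝ := sl l * R0P l δ y with hR'
  have hy0 : 0 < y := by linarith
  have hmR : (1 : ℝ) ≤ m := by exact_mod_cast m1
  intro w0 i j v hij hlen
  refine hPRO d f hf N w0 _ j _ fun W => ?_
  -- exactness of the top word
  by_cases hex : cnt (W i) 0 (N i) = fun r => A r i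
  swap
  · refine (le_of_eq (Pr_empty hEX hf 0 (N j) (fun w hw => hex ?_) w0)).trans (Real.exp_nonneg _)
    have h1 := hw.1 i
    rwa [Function.update_of_ne hij] at h1
  -- positions of the top strand
  set X : ℕ → ℝ := fun t => dot l (ic (A.mulVec v + cnt (W i) 0 t)) with hX
  have hX0 : X 0 = y * dot l (ic v) := by
    simp only [hX]
    rw [dia, dot_cnt_zero, add_zero, dot_mulVec hD]
  have hXs : ∀ t, X (t + 1) = X t + l (W i t) := by
    intro t
    simp only [hX]
    rw [dia, dia, dot_cnt_succ]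
    ring
  have hXN : X (N i) = y * (dot l (ic v) + l i) := by
    simp only [hX]
    rw [dia, hex, dot_mulVec hD, dot_col hD]
    ring
  have hXmono : Monotone X := monotone_nat_of_le_succ fun t => by
    rw [hXs]
    have := hl (W i t)
    linarith
  have hXstep : ∀ t, X (t + 1) ≤ X t + sl l := by
    intro t
    rw [hXs]
    have := le_sl hl (W i t)
    linarith
  set o1 : ℝ := max 0 (X 0) with ho1
  have ho10 : 0 ≤ o1 := le_max_left _ _
  -- the room
  have hroom1 : o1 + y * lm l / 4 ≤ y * l j := by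
    have h1 : lm l / 4 ≤ l j - max (dot l (ic v)) 0 := by
      unfold len at hlen
      have := min_le_right (dot l (ic v) + l i) (l j)
      linarith
    have h2 : o1 = y * max (dot l (ic v)) 0 := by
      rw [ho1, hX0, max_comm, mul_max_of_nonneg _ _ hy0.le, mul_zero]
    rw [h2]
    nlinarith
  have hroom2 : o1 + y * lm l / 4 ≤ X (N i) := by
    have h1 : lm l / 4 ≤ (dot l (ic v) + l i) - max (dot l (ic v)) 0 := by
      unfold len at hlen
      have := min_le_left (dot l (ic v) + l i) (l j)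
      linarith
    have h2 : o1 = y * max (dot l (ic v)) 0 := by
      rw [ho1, hX0, max_comm, mul_max_of_nonneg _ _ hy0.le, mul_zero]
    rw [h2, hXN]
    nlinarith
  have hR'0 : 0 ≤ R' := by
    rw [hR']
    refine mul_nonneg hsl.le ?_
    unfold R0P
    positivity
  set τ : ℕ := ⌈o1 + R'⌉₊ with hτ
  set K : ℕ := ⌊y * lm l / (24 * m)⌋₊ with hK
  have hτ1 : o1 + R' ≤ τ := Nat.le_ceil _
  have hτ2 : (τ : ℝ) < o1 + R' + 1 := Nat.ceil_lt_add_one (by positivity)
  have h3mK : 3 * (m : ℝ) * K ≤ y * lm l / 8 := by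
    have h1 : (K : ℝ) ≤ y * lm l / (24 * m) := Nat.floor_le (by positivity)
    calc 3 * (m : ℝ) * K ≤ 3 * (m : ℝ) * (y * lm l / (24 * m)) :=
          mul_le_mul_of_nonneg_left h1 (by positivity)
      _ = y * lm l / 8 := by
          field_simp
          ring
  have hNj : τ + K * (3 * m) ≤ N j := by
    have h1 := hNl j
    rw [abs_le] at h1
    have h2 : ((τ + K * (3 * m) : ℕ) : ℝ) ≤ (N j : ℝ) := by
      push_cast
      nlinarith
    exact_mod_cast h2
  -- the targets
  set tk : ℕ → (ℕ → Fin d) → ℕ := fun k' w =>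
    sInf {t | dot l (ic (cnt w 0 (τ + k' * (3 * m)))) + m ≤ X t} with htk
  set V : ℕ → (ℕ → Fin d) → Fin d → ℤ := fun k' w => A.mulVec v + cnt (W i) 0 (tk k' w) with hV
  set a : ℕ → (ℕ → Fin d) → Fin d := fun k' w => W i (tk k' w) with ha
  set G : ℕ → (ℕ → Fin d) → Prop := fun k' w =>
    ‖prj f (ic (cnt w 0 (τ + k' * (3 * m))))‖ ≤ R0P l δ y with hG
  have loc_tk : ∀ k', Loc (τ + k' * (3 * m)) (tk k') := by
    intro k' w w' h
    simp only [htk]
    rw [cnt_congr h le_rfl]
  have locV : ∀ k', Loc (τ + k' * (3 * m)) (V k') := by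
    intro k' w w' h
    simp only [hV]
    rw [loc_tk k' w w' h]
  have loca : ∀ k', Loc (τ + k' * (3 * m)) (a k') := by
    intro k' w w' h
    simp only [ha]
    rw [loc_tk k' w w' h]
  have locG : ∀ k', Loc (τ + k' * (3 * m)) (G k') := by
    intro k' w w' h
    simp only [hG]
    rw [cnt_congr h le_rfl]
  -- the first passage
  have hit : ∀ k' < K, ∀ w, G k' w →
      dot l (ic (cnt w 0 (τ + k' * (3 * m)))) + m ≤ X (tk k' w) ∧
      X (tk k' w) ≤ dot l (ic (cnt w 0 (τ + k' * (3 * m)))) + m + sl l ∧ tk k' w < N i := by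
    intro k' hk' w hGw
    have h1 := pos_close hl hlf w (τ + k' * (3 * m)) hGw
    rw [abs_le] at h1
    set q : ℝ := dot l (ic (cnt w 0 (τ + k' * (3 * m)))) with hq
    have h2 : ((τ + k' * (3 * m) : ℕ) : ℝ) = τ + k' * (3 * m) := by push_cast; ring
    rw [h2] at h1
    have h3 : (k' : ℝ) + 1 ≤ K := by exact_mod_cast hk'
    have h4 : (k' : ℝ) * (3 * m) ≤ 3 * m * K := by nlinarith
    have h5 : (0 : ℝ) ≤ (k' : ℝ) * (3 * m) := by positivity
    have h6 : o1 ≤ q := by linarith
    have h7 : X 0 ≤ o1 := le_max_right _ _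
    have h8 : q + m + sl l < X (N i) := by linarith
    obtain ⟨g1, g2, g3⟩ := first_hit (X := X) (s := sl l) (B := q + m) hXstep
      (by linarith) (T := N i) (by linarith)
    refine ⟨g1, g2, ?_⟩
    by_contra h9
    push Not at h9
    have h10 := hXmono h9
    have h11 : X (tk k' w) ≤ q + m + sl l := g2
    linarith
  have hkey := hL1 m m0le τ K (N j) hNj V a G locV loca locG (by
    intro k' hk' w hGw
    obtain ⟨g1, g2, -⟩ := hit k' hk' w hGw
    have h1 : dot l (ic (V k' w - cnt w 0 (τ + k' * (3 * m)))) =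
        X (tk k' w) - dot l (ic (cnt w 0 (τ + k' * (3 * m)))) := by
      rw [dis]
    rw [h1]
    constructor <;> linarith) w0
  refine le_trans ?_ (hkey.trans n3)
  refine Pr_mono hEX hf 0 (N j) (fun w hw => ?_) w0
  obtain ⟨-, hreg, hev⟩ := hw
  intro k' hk'
  have hbl : τ + (k' + 1) * (3 * m) ≤ N j := by
    have h1 : (k' + 1) * (3 * m) ≤ K * (3 * m) := Nat.mul_le_mul_right _ hk'
    omega
  have hGw : G k' w := by
    have h1 := hreg j 0 (τ + k' * (3 * m)) (Nat.zero_le _) (by nlinarith) (by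
      have h2 : ((τ + k' * (3 * m) - 0 : ℕ) : ℝ) ≤ (N j : ℝ) := by
        rw [Nat.sub_zero]
        have : τ + k' * (3 * m) ≤ N j := by nlinarith
        exact_mod_cast this
      exact h2.trans (hNL0 j))
    rw [Function.update_self] at h1
    exact h1
  refine ⟨hGw, ?_⟩
  rintro ⟨t', ht1, ht2, hwt, he1, he2⟩
  obtain ⟨-, -, g3⟩ := hit k' hk' w hGw
  apply hev
  refine ⟨tk k' w, t', g3, by omega, ?_, ?_⟩
  · rw [Function.update_of_ne hij, Function.update_self]
    exact hwt.symm
  · unfold chv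
    rw [Function.update_of_ne hij, Function.update_self]
    exact ⟨he1, he2⟩

end Pool.Agent.H811R3.PS
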