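import Pool.Agent.H811R3.PS.Defs2

/-! Task BP: nice children with high probability (helper551). -/

set_option autoImplicit false

open Finset MeasureTheory Filter

namespace Pool.Agent.H811R3.PS

theorem bp_sum_cnt {d : ℕ} (w : ℕ → Fin d) (a b : ℕ) :
    ∑ i, cnt w a b i = ((b - a : ℕ) : ℤ) := by
  unfold cnt
  rw [Finset.sum_comm]
  simp

theorem bp_dot_prj {d : ℕ} (l f y : Fin d → ℝ) :
    dot l y = dot l (prj f y) + (∑ j, y j) * dot l f := by
  unfold dot prj
  rw [Finset.mul_sum, ← Finset.sum_add_distrib]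
  exact Finset.sum_congr rfl fun i _ => by ring

theorem bp_abs_dot {d : ℕ} (l y : Fin d → ℝ) (hl : ∀ i, 0 ≤ l i) :
    |dot l y| ≤ sl l * ‖y‖ := by
  unfold dot sl
  rw [Finset.sum_mul]
  refine (Finset.abs_sum_le_sum_abs _ _).trans (Finset.sum_le_sum fun i _ => ?_)
  rw [abs_mul, abs_of_nonneg (hl i)]
  exact mul_le_mul_of_nonneg_left (norm_le_pi_norm y i) (hl i)

theorem bp_dot_mulVec {d : ℕ} {A : Matrix (Fin d) (Fin d) ℤ} {Lam : ℝ} {l f : Fin d → ℝ}
    (h : Dat A Lam l f) (v : Fin d → ℤ) : dot l (ic (A.mulVec v)) = Lam * dot l (ic v) := by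
  unfold dot ic
  have h1 : ∀ i, l i * ((A.mulVec v i : ℤ) : ℝ) = ∑ j, l i * ((A i j : ℝ) * (v j : ℝ)) := by
    intro i
    rw [← Finset.mul_sum]
    congr 1
    simp [Matrix.mulVec, dotProduct]
  rw [Finset.sum_congr rfl fun i _ => h1 i, Finset.sum_comm, Finset.mul_sum]
  refine Finset.sum_congr rfl fun j _ => ?_
  have h2 := h.left j
  calc ∑ i, l i * ((A i j : ℝ) * (v j : ℝ)) = (∑ i, l i * (A i j : ℝ)) * (v j : ℝ) := by
        rw [Finset.sum_mul]
        exact Finset.sum_congr rfl fun i _ => by ring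
    _ = Lam * (l j * (v j : ℝ)) := by rw [h2]; ring

open Classical in
theorem bp_Pr_mono (hEX : StEX) {d : ℕ} {f : Fin d → ℝ} (hf : PV f) (τ L : ℕ)
    (S T : (ℕ → Fin d) → Prop) (w : ℕ → Fin d) (h : ∀ w', S w' → T w') :
    Pr f τ L S w ≤ Pr f τ L T w := by
  unfold Pr
  refine (hEX d f hf).2.2.1 τ L _ _ w fun w' _ => ?_
  by_cases h1 : S w'
  · rw [if_pos h1, if_pos (h w' h1)]
  · rw [if_neg h1]
    split_ifs <;> norm_num

/-- the real inequality needed for large `y` -/
theorem bp_asym (s m δ : ℝ) (hm : 0 < m) (hδ : δ < 1 / 2) :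
    ∀ᶠ y : ℝ in atTop, s * (y ^ δ * √((1 + s) * y)) + 2 ≤ 3 / 16 * (y * m) := by
  set Q := |s * √(1 + s)| + 1 with hQ
  have hQ0 : 0 < Q := by positivity
  have h2 := (tendsto_rpow_atTop (show 0 < 1 / 2 - δ by linarith)).eventually_ge_atTop
    (16 * Q / m)
  filter_upwards [h2, eventually_ge_atTop (32 / m), eventually_gt_atTop 0] with y hy' hy2 hy0
  have hy : y ^ (δ + 1 / 2) ≤ m / (16 * Q) * y := by
    have e1 : y ^ (δ + 1 / 2) * y ^ (1 / 2 - δ) = y := by
      rw [← Real.rpow_add hy0]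
      have : δ + 1 / 2 + (1 / 2 - δ) = 1 := by ring
      rw [this, Real.rpow_one]
    have e2 := mul_le_mul_of_nonneg_left hy' (Real.rpow_nonneg hy0.le (δ + 1 / 2))
    rw [e1] at e2
    have e3 : y ^ (δ + 1 / 2) = m / (16 * Q) * (y ^ (δ + 1 / 2) * (16 * Q / m)) := by
      field_simp
    rw [e3]
    exact mul_le_mul_of_nonneg_left e2 (by positivity)
  have h3 : y ^ δ * √((1 + s) * y) = √(1 + s) * y ^ (δ + 1 / 2) := by
    rw [mul_comm (1 + s) y, Real.sqrt_mul hy0.le, Real.rpow_add hy0, ← Real.sqrt_eq_rpow]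
    ring
  have h4 : 2 ≤ 1 / 16 * (y * m) := by
    rw [div_le_iff₀ hm] at hy2
    linarith
  have h5 : s * (y ^ δ * √((1 + s) * y)) ≤ 1 / 16 * (y * m) := by
    rw [h3, ← mul_assoc]
    have h6 : 0 ≤ y ^ (δ + 1 / 2) := Real.rpow_nonneg hy0.le _
    calc s * √(1 + s) * y ^ (δ + 1 / 2) ≤ Q * y ^ (δ + 1 / 2) := by
          refine mul_le_mul_of_nonneg_right ?_ h6
          have := le_abs_self (s * √(1 + s))
          linarith
      _ ≤ Q * (m / (16 * Q) * y) := mul_le_mul_of_nonneg_left hy hQ0.le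
      _ = 1 / 16 * (y * m) := by field_simp
  linarith

theorem bp_holds (hP1 : StP1) (hPRO : StPRO) (hPA : StPA) (hEX : StEX) : StBP := by
  intro d M lam l f Cc θ δ hC
  have hd2 := hC.d2
  have hlam : 1 < lam := hC.dat.one_lt
  have hPV : PV f := ⟨hC.dat.fpos, hC.dat.fsum⟩
  have hne : (univ : Finset (Fin d)).Nonempty := ⟨⟨0, by omega⟩, mem_univ _⟩
  obtain ⟨i₀, -, hi₀⟩ := Finset.exists_min_image univ f hne
  set p := f i₀ with hp
  have hp0 : 0 < p := hC.dat.fpos i₀
  have hpf : ∀ i, p ≤ f i := fun i => hi₀ i (mem_univ i)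
  have hl0 : ∀ i, 0 ≤ l i := fun i => (hC.dat.lpos i).le
  have hs0 : 0 < sl l := Finset.sum_pos (fun i _ => hC.dat.lpos i) hne
  have hm0 : 0 < lm l := inv_pos.mpr (Finset.sum_pos (fun i _ => inv_pos.mpr (hC.dat.lpos i)) hne)
  have hδ0 : 0 < δ := hC.adm.1
  have hδ1 : δ < 1 / 2 := by
    have h1 := hC.adm.2.1
    have h2 : (1 : ℝ) / (10 * ((d : ℝ) + 1) ^ 3) < 1 / 2 := by
      have h3 : (1 : ℝ) ≤ ((d : ℝ) + 1) ^ 3 := one_le_pow₀ (by
        have : (0 : ℝ) ≤ d := Nat.cast_nonneg d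
        linarith)
      rw [div_lt_div_iff₀ (by positivity) (by norm_num)]
      linarith
    linarith
  obtain ⟨hDat, hPAe⟩ := hPA d M lam l f Cc θ δ hC
  have hty : Tendsto (fun k : ℕ => lam ^ k) atTop atTop := tendsto_pow_atTop_atTop_of_one_lt hlam
  refine ⟨p * (lm l / 32), by positivity, ?_⟩
  filter_upwards [hPAe, eventually_ge_atTop 1, hty.eventually (bp_asym (sl l) (lm l) δ hm0 hδ1),
    hty.eventually_ge_atTop (32 / lm l), hty.eventually_ge_atTop 1] with k hk hk1 hasym hylm hy1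
  intro w0 i v hg hlen
  obtain ⟨-, -, hN, hNL, -⟩ := hk
  have hD := hDat k hk1
  set y := lam ^ k with hy
  have hy0 : 0 < y := by linarith
  set g := dot l (ic v) with hgdef
  have hg0 : 0 < g := by
    by_contra hng
    push Not at hng
    have : y * g ≤ 0 := mul_nonpos_of_nonneg_of_nonpos hy0.le hng
    linarith
  have hgl : g ≤ l i - lm l / 4 := by
    unfold len at hlen
    rw [← hgdef, max_eq_left hg0.le, min_eq_right (by linarith)] at hlen
    linarith
  set R := R0P l δ y with hR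
  have hR' : R = y ^ δ * √((1 + sl l) * y) := rfl
  have hR0 : 0 ≤ R := by
    rw [hR']
    positivity
  have ho : dot l (ic ((M ^ k).mulVec v)) = y * g := bp_dot_mulVec hD v
  set τ := ⌈y * g + sl l * R⌉₊ with hτ
  set K := ⌊y * lm l / 16⌋₊ with hK
  have hτ1 : y * g + sl l * R ≤ τ := Nat.le_ceil _
  have hτ2 : (τ : ℝ) ≤ y * g + sl l * R + 1 :=
    (Nat.ceil_lt_add_one (by positivity)).le
  have hK1 : (K : ℝ) ≤ y * lm l / 16 := Nat.floor_le (by positivity)
  have hK2 : y * lm l / 16 - 1 ≤ K := by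
    have := Nat.lt_floor_add_one (y * lm l / 16)
    linarith
  have hNi : y * l i - 1 ≤ NN M k i := by
    have := (abs_le.mp (hN i)).1
    linarith
  have hτK : τ + K ≤ NN M k i := by
    have h1 : (τ : ℝ) + K ≤ NN M k i := by
      have h2 : y * g ≤ y * (l i - lm l / 4) := mul_le_mul_of_nonneg_left hgl hy0.le
      rw [← hR'] at hasym
      linarith
    exact_mod_cast h1
  -- the probability
  refine hPRO d f hPV (NN M k) w0 _ i _ fun W => ?_
  have hbound := hP1 d hd2 l f hPV hC.dat.lpos p hp0.le hpf ((M ^ k).mulVec v)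
    (by rw [ho]; exact hg) τ K (NN M k i) hτK w0
  refine le_trans (bp_Pr_mono hEX hPV 0 (NN M k i) _ _ w0 ?_) (hbound.trans ?_)
  · rintro w ⟨hReg, hEv⟩ t' ht1 ht2
    have hWi : Function.update W i w i = w := Function.update_self _ _ _
    have ht'N : t' < NN M k i := by omega
    constructor
    · rw [ho]
      have h1 := hReg i 0 t' (Nat.zero_le _) ht'N.le (by
        have h2 : ((t' - 0 : ℕ) : ℝ) ≤ NN M k i := by
          rw [Nat.sub_zero]
          exact_mod_cast ht'N.le
        exact h2.trans (hNL i))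
      rw [hWi] at h1
      have h3 := bp_dot_prj l f (ic (cnt w 0 t'))
      have h4 : ∑ j, ic (cnt w 0 t') j = t' := by
        have h5 := bp_sum_cnt w 0 t'
        rw [Nat.sub_zero] at h5
        unfold ic
        exact_mod_cast h5
      rw [h4, hC.dat.lf, mul_one] at h3
      have h6 := bp_abs_dot l (prj f (ic (cnt w 0 t'))) hl0
      have h7 := (abs_le.mp h6).1
      have h8 : sl l * ‖prj f (ic (cnt w 0 t'))‖ ≤ sl l * R := mul_le_mul_of_nonneg_left h1 hs0.le
      have h9 : (τ : ℝ) ≤ t' := by exact_mod_cast ht1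
      rw [h3]
      linarith
    · rintro ⟨t, htt, hne', hlen'⟩
      apply hEv
      refine ⟨t, t', by omega, ht'N, ?_, ?_⟩
      · rw [hWi]
        exact hne'
      · unfold chv
        rw [hWi]
        exact hlen'
  · -- the numerical bound
    have hp1 : p ≤ 1 := by
      rw [← hC.dat.fsum]
      exact Finset.single_le_sum (fun i _ => (hC.dat.fpos i).le) (mem_univ i₀)
    have h1 : (1 - p) ^ K ≤ Real.exp (-(p * K)) := by
      have h2 : 1 - p ≤ Real.exp (-p) := by
        have := Real.add_one_le_exp (-p)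
        linarith
      calc (1 - p) ^ K ≤ (Real.exp (-p)) ^ K := pow_le_pow_left₀ (by linarith) h2 K
        _ = Real.exp (-(p * K)) := by
            rw [← Real.exp_nat_mul]
            congr 1
            ring
    refine h1.trans (Real.exp_le_exp.mpr ?_)
    have h3 : y ^ δ ≤ y := by
      calc y ^ δ ≤ y ^ (1 : ℝ) := Real.rpow_le_rpow_of_exponent_le hy1 (by linarith)
        _ = y := Real.rpow_one y
    have h4 : lm l / 32 * y ≤ K := by
      rw [div_le_iff₀ hm0] at hylm
      linarith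
    have h5 : p * (lm l / 32) * y ^ δ ≤ p * K := by
      calc p * (lm l / 32) * y ^ δ ≤ p * (lm l / 32) * y :=
            mul_le_mul_of_nonneg_left h3 (by positivity)
        _ = p * (lm l / 32 * y) := by ring
        _ ≤ p * K := mul_le_mul_of_nonneg_left h4 hp0.le
    linarith

end Pool.Agent.H811R3.PS
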