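import Pool.Agent.H811R3.PS.Defs2

/-!
# Task BR: discrepancy
-/

set_option autoImplicit false

open Finset MeasureTheory Filter

namespace Pool.Agent.H811R3.PS

namespace TBR

variable {d : ℕ}

open Classical in
/-- the union bound -/
theorem prT_union {f : Fin d → ℝ} (hf : ∀ i, 0 < f i) (N : Fin d → ℕ) (w0 : ℕ → Fin d)
    {ι : Type} (S : Finset ι) (F : ι → (Fin d → ℕ → Fin d) → Prop)
    (E : (Fin d → ℕ → Fin d) → Prop) (hE : ∀ W, E W → ∃ x ∈ S, F x W) {q : ℝ}
    (hq : ∀ x ∈ S, PrT f N w0 (F x) ≤ q) : PrT f N w0 E ≤ S.card * q := by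
  have h1 : PrT f N w0 E ≤ ∑ x ∈ S, PrT f N w0 (F x) := by
    unfold PrT
    rw [Finset.sum_comm]
    refine Finset.sum_le_sum fun t _ => ?_
    rw [← Finset.mul_sum]
    refine mul_le_mul_of_nonneg_left ?_ (Finset.prod_nonneg fun j _ =>
      Finset.prod_nonneg fun s _ => (hf _).le)
    split_ifs with h
    · obtain ⟨x, hx, hxF⟩ := hE _ h
      have h2 : (1 : ℝ) = if F x (fun j => ovr w0 0 (t j)) then 1 else 0 := by rw [if_pos hxF]
      refine h2.trans_le ?_
      exact Finset.single_le_sum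
        (f := fun x => if F x (fun j => ovr w0 0 (t j)) then (1 : ℝ) else 0)
        (fun i _ => by split_ifs <;> norm_num) hx
    · exact Finset.sum_nonneg fun i _ => by split_ifs <;> norm_num
  refine h1.trans ?_
  rw [← nsmul_eq_mul]
  exact Finset.sum_le_card_nsmul _ _ _ hq

theorem numeric (D s δ : ℝ) (hD : 0 ≤ D) (hs : 0 ≤ s) (hδ : 0 < δ) :
    ∀ᶠ y : ℝ in atTop, D * (s * y + 2) ^ 2 * (2 * Real.exp (-((y ^ δ) ^ 2 / 4))) ≤
      Real.exp (-(1 * y ^ δ)) := by
  set n : ℕ := ⌈2 / δ⌉₊ with hn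
  set c : ℝ := 2 * D * (s + 2) ^ 2 + 1 with hc
  have hc0 : 0 < c := by positivity
  have hx : Tendsto (fun y : ℝ => y ^ δ) atTop atTop := tendsto_rpow_atTop hδ
  have h1 : ∀ᶠ x : ℝ in atTop, x ^ n ≤ Real.exp x := by
    have h2 := Real.tendsto_pow_mul_exp_neg_atTop_nhds_zero n
    have h3 := h2.eventually (gt_mem_nhds (by norm_num : (0 : ℝ) < 1))
    filter_upwards [h3] with x hx3
    rw [Real.exp_neg, ← div_eq_mul_inv, div_lt_one (Real.exp_pos x)] at hx3
    exact hx3.le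
  have h4 : ∀ᶠ x : ℝ in atTop, Real.log c + 2 * x ≤ x ^ 2 / 4 := by
    filter_upwards [eventually_ge_atTop (16 : ℝ), eventually_ge_atTop (Real.log c)] with x h5 h6
    nlinarith
  filter_upwards [hx.eventually h1, hx.eventually h4, eventually_ge_atTop (1 : ℝ)] with y h5 h6 hy
  set x : ℝ := y ^ δ with hxdef
  have hy0 : 0 < y := by linarith
  have hx1 : 1 ≤ x := Real.one_le_rpow hy hδ.le
  have h7 : y ^ 2 ≤ x ^ n := by
    rw [hxdef, ← Real.rpow_natCast (y ^ δ) n, ← Real.rpow_mul hy0.le, ← Real.rpow_natCast y 2]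
    apply Real.rpow_le_rpow_of_exponent_le hy
    have h8 : 2 / δ ≤ (n : ℝ) := Nat.le_ceil _
    rw [div_le_iff₀ hδ] at h8
    push_cast
    linarith
  have h9 : D * (s * y + 2) ^ 2 ≤ D * ((s + 2) ^ 2 * y ^ 2) := by
    have h10 : s * y + 2 ≤ (s + 2) * y := by nlinarith
    have h11 : (s * y + 2) ^ 2 ≤ ((s + 2) * y) ^ 2 := by
      have : 0 ≤ s * y + 2 := by positivity
      gcongr
    rw [mul_pow] at h11
    exact mul_le_mul_of_nonneg_left h11 hD
  have h12 : D * (s * y + 2) ^ 2 * 2 ≤ c * Real.exp x := by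
    calc D * (s * y + 2) ^ 2 * 2 ≤ D * ((s + 2) ^ 2 * y ^ 2) * 2 := by gcongr
      _ ≤ D * ((s + 2) ^ 2 * Real.exp x) * 2 := by
        gcongr
        exact h7.trans h5
      _ = (2 * D * (s + 2) ^ 2) * Real.exp x := by ring
      _ ≤ c * Real.exp x := by
        have := Real.exp_pos x
        rw [hc]
        nlinarith
  calc D * (s * y + 2) ^ 2 * (2 * Real.exp (-(x ^ 2 / 4)))
      = (D * (s * y + 2) ^ 2 * 2) * Real.exp (-(x ^ 2 / 4)) := by ring
    _ ≤ (c * Real.exp x) * Real.exp (-(x ^ 2 / 4)) := by gcongr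
    _ = Real.exp (Real.log c + x + -(x ^ 2 / 4)) := by
      rw [Real.exp_add, Real.exp_add, Real.exp_log hc0]
    _ ≤ Real.exp (-(1 * x)) := Real.exp_le_exp.2 (by linarith)

end TBR

theorem br_holds (hHOE : StHOE) (hPRO : StPRO) (hPA : StPA) : StBR := by
  intro d M lam l f Cc θ δ hctx Ls hLs
  have hD := hctx.dat
  have hd := hctx.d2
  obtain ⟨hδ0, hδ1, hδ2⟩ := hctx.adm
  obtain ⟨-, hPA2⟩ := hPA d M lam l f Cc θ δ hctx
  have hPV : PV f := ⟨hD.fpos, hD.fsum⟩
  have hsl : 0 ≤ sl l := Finset.sum_nonneg fun i _ => (hD.lpos i).le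
  have hy : Tendsto (fun k : ℕ => lam ^ k) atTop atTop :=
    tendsto_pow_atTop_atTop_of_one_lt hD.one_lt
  have hnum := hy.eventually (TBR.numeric ((d : ℝ) ^ 2) (1 + sl l) δ (by positivity)
    (by positivity) hδ0)
  refine ⟨1, one_pos, ?_⟩
  filter_upwards [hPA2, hLs, hnum, hy.eventually_ge_atTop 1] with k hk hL1 hn hy1
  intro w0
  set y : ℝ := lam ^ k with hydef
  have hy0 : 0 < y := by linarith
  set x : ℝ := y ^ δ with hxdef
  have hx0 : 0 < x := Real.rpow_pos_of_pos hy0 _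
  have hL0 : 0 < Ls k := by linarith
  set R : ℝ := x * √(Ls k) with hR
  have hR0 : 0 < R := mul_pos hx0 (Real.sqrt_pos.2 hL0)
  set B : ℕ := ⌊(1 + sl l) * y⌋₊ + 1 with hB
  have hNB : ∀ j, NN M k j < B := by
    intro j
    have h1 := hk.2.2.2.1 j
    unfold L0P at h1
    rw [hB]
    exact Nat.lt_succ_of_le (Nat.le_floor h1)
  set S : Finset (((Fin d × Fin d) × ℕ) × ℕ) :=
    (((Finset.univ : Finset (Fin d × Fin d)) ×ˢ Finset.range B) ×ˢ Finset.range B).filter
      (fun q => q.1.2 < q.2 ∧ q.2 ≤ NN M k q.1.1.1 ∧ ((q.2 - q.1.2 : ℕ) : ℝ) ≤ Ls k) with hS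
  have key := TBR.prT_union (q := 2 * Real.exp (-(x ^ 2 / 4))) hD.fpos (NN M k) w0 S
    (fun q W => R < |prj f (ic (cnt (W q.1.1.1) q.1.2 q.2)) q.1.1.2|)
    (fun W => ¬ Reg f (NN M k) W (Ls k) R) ?_ ?_
  · refine key.trans (le_trans ?_ hn)
    have hcard : (S.card : ℝ) ≤ (d : ℝ) ^ 2 * ((1 + sl l) * y + 2) ^ 2 := by
      have h1 : S.card ≤ d * d * B * B := by
        refine (Finset.card_filter_le _ _).trans ?_
        rw [Finset.card_product, Finset.card_product, Finset.card_univ, Fintype.card_prod,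
          Fintype.card_fin, Finset.card_range]
      have h2 : (B : ℝ) ≤ (1 + sl l) * y + 2 := by
        rw [hB]
        push_cast
        have := Nat.floor_le (show 0 ≤ (1 + sl l) * y by positivity)
        linarith
      calc (S.card : ℝ) ≤ ((d * d * B * B : ℕ) : ℝ) := by exact_mod_cast h1
        _ = (d : ℝ) ^ 2 * ((B : ℝ) * B) := by push_cast; ring
        _ ≤ (d : ℝ) ^ 2 * (((1 + sl l) * y + 2) * ((1 + sl l) * y + 2)) := by gcongr
        _ = (d : ℝ) ^ 2 * ((1 + sl l) * y + 2) ^ 2 := by ring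
    gcongr
  · intro W hW
    unfold Reg at hW
    push Not at hW
    obtain ⟨j, t, t', h1, h2, h3, h4⟩ := hW
    have h5 : ∃ i, R < |prj f (ic (cnt (W j) t t')) i| := by
      by_contra hne
      push Not at hne
      refine absurd ((pi_norm_le_iff_of_nonneg hR0.le).2 fun i => ?_) (not_le.2 h4)
      rw [Real.norm_eq_abs]
      exact hne i
    obtain ⟨i, hi⟩ := h5
    have h6 : t < t' := by
      rcases h1.lt_or_eq with h | h
      · exact h
      · exfalso
        subst h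
        have e : prj f (ic (cnt (W j) t t)) i = 0 := by
          simp [prj, ic, cnt]
        rw [e, abs_zero] at hi
        linarith
    refine ⟨(((j, i), t), t'), ?_, hi⟩
    have h7 := hNB j
    rw [hS, Finset.mem_filter, Finset.mem_product, Finset.mem_product, Finset.mem_range,
      Finset.mem_range]
    exact ⟨⟨⟨Finset.mem_univ _, by dsimp only; omega⟩, by dsimp only; omega⟩, h6, h2, h3⟩
  · rintro ⟨⟨⟨j, i⟩, t⟩, t'⟩ hq
    rw [hS, Finset.mem_filter] at hq
    obtain ⟨-, h1, h2, h3⟩ := hq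
    dsimp only at h1 h2 h3 ⊢
    refine hPRO d f hPV (NN M k) w0 _ j _ fun W => ?_
    simp only [Function.update_self]
    refine (hHOE d f hPV t t' (NN M k j) h1 h2 i R hR0.le w0).trans ?_
    have h4 : (0 : ℝ) < (t' : ℝ) - t := by
      have : (t : ℝ) < t' := by exact_mod_cast h1
      linarith
    have h5 : (t' : ℝ) - t ≤ Ls k := by
      rw [Nat.cast_sub h1.le] at h3
      exact h3
    have h6 : x ^ 2 / 4 ≤ R ^ 2 / (4 * ((t' : ℝ) - t)) := by
      rw [hR, mul_pow, Real.sq_sqrt hL0.le, div_le_div_iff₀ (by norm_num) (by positivity)]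
      have : x ^ 2 * ((t' : ℝ) - t) ≤ x ^ 2 * Ls k := by gcongr
      linarith
    have h7 : Real.exp (-(R ^ 2 / (4 * ((t' : ℝ) - t)))) ≤ Real.exp (-(x ^ 2 / 4)) :=
      Real.exp_le_exp.2 (by linarith)
    linarith

end Pool.Agent.H811R3.PS
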