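import Pool.Agent.H811R3.PS.Defs2

/-!
Task BRU: runs of letters.
-/

set_option autoImplicit false

open Finset MeasureTheory Filter

namespace Pool.Agent.H811R3.PS

namespace BRU

open Classical in
/-- union bound -/
theorem prT_exists_le {d : ℕ} {f : Fin d → ℝ} (hf : ∀ i, 0 ≤ f i) (N : Fin d → ℕ) (w0 : ℕ → Fin d)
    (E : Fin d → (Fin d → ℕ → Fin d) → Prop) :
    PrT f N w0 (fun W => ¬ ∀ i, E i W) ≤ ∑ i, PrT f N w0 (fun W => ¬ E i W) := by
  unfold PrT
  rw [Finset.sum_comm]
  refine Finset.sum_le_sum fun t _ => ?_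
  rw [← Finset.mul_sum]
  refine mul_le_mul_of_nonneg_left ?_
    (Finset.prod_nonneg fun j _ => Finset.prod_nonneg fun s _ => hf _)
  split_ifs with h
  · obtain ⟨i, hi⟩ := not_forall.mp h
    refine le_trans ?_ (Finset.single_le_sum (fun i _ => ?_) (Finset.mem_univ i))
    · rw [if_pos hi]
    · split_ifs <;> norm_num
  · exact Finset.sum_nonneg fun i _ => by split_ifs <;> norm_num

/-- the event: block `k` is `a^K b^K` -/
def Sk {d : ℕ} (K : ℕ) (a b : Fin d) (k : ℕ) (w : ℕ → Fin d) : Prop :=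
  (∀ s < K, w (k * (2 * K) + s) = a) ∧ (∀ s < K, w (k * (2 * K) + K + s) = b)

theorem Sk_loc {d : ℕ} (K : ℕ) (a b : Fin d) (k : ℕ) :
    Loc (0 + (k + 1) * (2 * K)) (Sk K a b k) := by
  intro w w' h
  have e : (k + 1) * (2 * K) = k * (2 * K) + 2 * K := by ring
  have h1 : ∀ s < K, w (k * (2 * K) + s) = w' (k * (2 * K) + s) := fun s hs => h _ (by omega)
  have h2 : ∀ s < K, w (k * (2 * K) + K + s) = w' (k * (2 * K) + K + s) :=
    fun s hs => h _ (by omega)
  unfold Sk
  apply propext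
  constructor
  · rintro ⟨h3, h4⟩
    exact ⟨fun s hs => (h1 s hs).symm.trans (h3 s hs), fun s hs => (h2 s hs).symm.trans (h4 s hs)⟩
  · rintro ⟨h3, h4⟩
    exact ⟨fun s hs => (h1 s hs).trans (h3 s hs), fun s hs => (h2 s hs).trans (h4 s hs)⟩

open Classical in
theorem Sk_prob {d : ℕ} {f : Fin d → ℝ} {pm : ℝ} (hpm : 0 ≤ pm) (hf : ∀ i, pm ≤ f i) (K : ℕ)
    (a b : Fin d) (k : ℕ) (w : ℕ → Fin d) :
    pm ^ (2 * K) ≤ Pr f (0 + k * (2 * K)) (2 * K) (Sk K a b k) w := by
  have hf0 : ∀ i, 0 ≤ f i := fun i => hpm.trans (hf i)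
  unfold Pr Ex
  let v0 : Fin (2 * K) → Fin d := fun t => if (t : ℕ) < K then a else b
  have hS : Sk K a b k (ovr w (0 + k * (2 * K)) v0) := by
    refine ⟨fun s hs => ?_, fun s hs => ?_⟩
    · unfold ovr
      rw [dif_pos (by omega)]
      simp only [v0]
      rw [if_pos (by omega)]
    · unfold ovr
      rw [dif_pos (by omega)]
      simp only [v0]
      rw [if_neg (by omega)]
  calc pm ^ (2 * K) = ∏ _t : Fin (2 * K), pm := by simp
    _ ≤ ∏ t, f (v0 t) := Finset.prod_le_prod (fun _ _ => hpm) fun t _ => hf _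
    _ = (∏ t, f (v0 t)) * (if Sk K a b k (ovr w (0 + k * (2 * K)) v0) then 1 else 0) := by
        rw [if_pos hS, mul_one]
    _ ≤ _ := Finset.single_le_sum
        (f := fun v : Fin (2 * K) → Fin d => (∏ t, f (v t)) *
          (if Sk K a b k (ovr w (0 + k * (2 * K)) v) then (1 : ℝ) else 0))
        (fun v _ => mul_nonneg (Finset.prod_nonneg fun t _ => hf0 _)
          (by split_ifs <;> norm_num)) (Finset.mem_univ v0)

end BRU

theorem bru_holds (hEX : StEX) (hSEQ : StSEQ) (hPRO : StPRO) (hPA : StPA) : StBRU := by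
  intro d M lam l f Cc θ δ hC K a b
  have hPV : PV f := ⟨hC.dat.fpos, hC.dat.fsum⟩
  have hf0 : ∀ i, 0 ≤ f i := fun i => (hC.dat.fpos i).le
  have hd := hC.d2
  have : Nonempty (Fin d) := ⟨⟨0, by omega⟩⟩
  -- bounds
  obtain ⟨i0, hi0⟩ := Finite.exists_min f
  obtain ⟨j0, hj0⟩ := Finite.exists_min l
  set pm := f i0 with hpm
  set lm0 := l j0 with hlm0
  have hpm0 : 0 < pm := hC.dat.fpos i0
  have hlm : 0 < lm0 := hC.dat.lpos j0
  have hpm1 : pm ≤ 1 := by
    rw [← hC.dat.fsum]
    exact Finset.single_le_sum (fun i _ => hf0 i) (Finset.mem_univ i0)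
  rcases Nat.eq_zero_or_pos K with hK | hK
  · subst hK
    refine ⟨1, one_pos, Eventually.of_forall fun k w0 => ?_⟩
    have h0 : PrT f (NN M k) w0 (fun W => ¬ ∀ i, EvR (NN M k) W 0 a b i) = 0 := by
      unfold PrT
      refine Finset.sum_eq_zero fun t _ => ?_
      rw [if_neg, mul_zero]
      intro h
      refine h fun i => ⟨0, by omega, fun s hs => absurd hs (by omega),
        fun s hs => absurd hs (by omega)⟩
    rw [h0]
    exact (Real.exp_pos _).le
  set p := pm ^ (2 * K) with hp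
  have hp0 : 0 < p := pow_pos hpm0 _
  have hp1 : p ≤ 1 := pow_le_one₀ hpm0.le hpm1
  have hKr : (0 : ℝ) < K := by exact_mod_cast hK
  set c := p * lm0 / (4 * K) with hc
  have hc0 : 0 < c := by positivity
  refine ⟨c, hc0, ?_⟩
  have hlam : 1 < lam := hC.pis.one_lt
  have htend : Tendsto (fun k : ℕ => lam ^ k) atTop atTop := tendsto_pow_atTop_atTop_of_one_lt hlam
  have hev1 := htend.eventually_ge_atTop ((Real.log d + 2 * p) * (4 * K) / (p * lm0))
  have hev2 := htend.eventually_ge_atTop 1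
  filter_upwards [(hPA d M lam l f Cc θ δ hC).2, hev1, hev2] with k hk hy1 hy2 w0
  obtain ⟨-, -, hNN, -, -⟩ := hk
  set y := lam ^ k with hy
  -- one letter
  have hone : ∀ i, PrT f (NN M k) w0 (fun W => ¬ EvR (NN M k) W K a b i) ≤
      Real.exp (-(Real.log d + c * y)) := by
    intro i
    set Kb := NN M k i / (2 * K) with hKb
    have hq : ∀ W : Fin d → ℕ → Fin d, Pr f 0 (NN M k i)
        (fun w => ¬ EvR (NN M k) (Function.update W i w) K a b i) w0 ≤ (1 - p) ^ Kb := by
      intro W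
      have h1 := hSEQ d f hPV p hp0.le 0 (2 * K) Kb (NN M k i) (BRU.Sk K a b)
        (by rw [zero_add]; exact Nat.div_mul_le_self _ _)
        (fun k _ => BRU.Sk_loc K a b k)
        (fun k _ w => BRU.Sk_prob hpm0.le hi0 K a b k w) w0
      refine le_trans ?_ h1
      refine (hEX d f hPV).2.2.1 _ _ _ _ _ fun w' _ => ?_
      by_cases hE : EvR (NN M k) (Function.update W i w') K a b i
      · rw [if_neg (not_not.mpr hE)]
        split_ifs <;> norm_num
      · rw [if_pos hE, if_pos]
        intro k' hk' hS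
        apply hE
        refine ⟨k' * (2 * K), ?_, ?_, ?_⟩
        · have h2 : (k' + 1) * (2 * K) ≤ NN M k i :=
            (Nat.mul_le_mul_right _ hk').trans (Nat.div_mul_le_self _ _)
          calc k' * (2 * K) + 2 * K = (k' + 1) * (2 * K) := by ring
            _ ≤ _ := h2
        · intro s hs
          rw [Function.update_self]
          exact hS.1 s hs
        · intro s hs
          rw [Function.update_self]
          exact hS.2 s hs
    refine (hPRO d f hPV (NN M k) w0 _ i _ hq).trans ?_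
    have h2 : (1 - p) ^ Kb ≤ Real.exp (-(p * Kb)) := by
      have h3 : 1 - p ≤ Real.exp (-p) := by
        have := Real.add_one_le_exp (-p)
        linarith
      calc (1 - p) ^ Kb ≤ Real.exp (-p) ^ Kb := pow_le_pow_left₀ (by linarith) h3 _
        _ = Real.exp (-(p * Kb)) := by rw [← Real.exp_nat_mul]; congr 1; ring
    refine h2.trans (Real.exp_le_exp.mpr (neg_le_neg ?_))
    -- numerical estimate
    have h4 : (NN M k i : ℝ) < 2 * K * (Kb + 1) := by
      have h5 : NN M k i < 2 * K * (Kb + 1) := by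
        rw [mul_comm]
        exact Nat.lt_mul_of_div_lt (by rw [← hKb]; omega) (by omega)
      exact_mod_cast h5
    have h6 := (abs_le.mp (hNN i)).1
    have h7 : y * lm0 ≤ y * l i := mul_le_mul_of_nonneg_left (hj0 i) (by linarith)
    have h8 : y * lm0 - 1 < 2 * K * (Kb + 1) := by linarith
    rw [div_le_iff₀ (by positivity)] at hy1
    have h9 : c * y = p * lm0 * y / (4 * K) := by rw [hc]; ring
    rw [h9]
    have hK1 : (1 : ℝ) ≤ K := by exact_mod_cast hK
    have h10 : Real.log d + p * lm0 * y / (4 * K) + 2 * p ≤ 2 * (p * lm0 * y / (4 * K)) := by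
      have : Real.log d + 2 * p ≤ p * lm0 * y / (4 * K) := by
        rw [le_div_iff₀ (by positivity)]
        linarith
      linarith
    have h11 : 2 * (p * lm0 * y / (4 * K)) = p * (y * lm0) / (2 * K) := by
      field_simp
      ring
    have h12 : p * (y * lm0) / (2 * K) ≤ p * (Kb + 1) + p := by
      rw [div_le_iff₀ (by positivity)]
      have h13 : y * lm0 ≤ 2 * K * (Kb + 1) + 1 := by linarith
      have h14 : p * (y * lm0) ≤ p * (2 * K * (Kb + 1) + 1) := mul_le_mul_of_nonneg_left h13 hp0.le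
      have h15 : p * 1 ≤ p * (2 * K) := mul_le_mul_of_nonneg_left (by linarith) hp0.le
      nlinarith
    linarith
  have hδ0 : 0 < δ := hC.adm.1
  have hδ1 : δ ≤ 1 := by
    refine hC.adm.2.1.trans ?_
    rw [div_le_one (by positivity)]
    have : (1 : ℝ) ≤ ((d : ℝ) + 1) ^ 3 := one_le_pow₀ (by
      have : (0 : ℝ) ≤ d := Nat.cast_nonneg d
      linarith)
    linarith
  have hyδ : y ^ δ ≤ y := by
    calc y ^ δ ≤ y ^ (1 : ℝ) := Real.rpow_le_rpow_of_exponent_le hy2 hδ1
      _ = y := Real.rpow_one y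
  have hd0 : (0 : ℝ) < d := by exact_mod_cast (by omega : 0 < d)
  calc PrT f (NN M k) w0 (fun W => ¬ ∀ i, EvR (NN M k) W K a b i)
      ≤ ∑ i, PrT f (NN M k) w0 (fun W => ¬ EvR (NN M k) W K a b i) :=
        BRU.prT_exists_le hf0 _ _ (fun i W => EvR (NN M k) W K a b i)
    _ ≤ ∑ _i : Fin d, Real.exp (-(Real.log d + c * y)) := Finset.sum_le_sum fun i _ => hone i
    _ = d * Real.exp (-(Real.log d + c * y)) := by simp
    _ = Real.exp (-(c * y)) := by
        rw [neg_add, Real.exp_add, Real.exp_neg, Real.exp_log hd0]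
        field_simp
    _ ≤ _ := Real.exp_le_exp.mpr (neg_le_neg (mul_le_mul_of_nonneg_left hyδ hc0.le))

end Pool.Agent.H811R3.PS
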