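import Pool.Agent.H811R3.PS.Defs2

set_option autoImplicit false

open Finset MeasureTheory Filter

namespace Pool.Agent.H811R3.PS

namespace BUaux

lemma w_nonneg {d : ℕ} {f : Fin d → ℝ} (hf : PV f) (N : Fin d → ℕ)
    (t : ∀ j : Fin d, Fin (N j) → Fin d) : 0 ≤ ∏ j, ∏ s, f (t j s) :=
  Finset.prod_nonneg fun j _ => Finset.prod_nonneg fun s _ => (hf.1 _).le

lemma prT_mono {d : ℕ} {f : Fin d → ℝ} (hf : PV f) (N : Fin d → ℕ) (w0 : ℕ → Fin d)
    {E F : (Fin d → ℕ → Fin d) → Prop} (h : ∀ W, E W → F W) :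
    PrT f N w0 E ≤ PrT f N w0 F := by
  unfold PrT
  apply Finset.sum_le_sum
  intro t _
  apply mul_le_mul_of_nonneg_left _ (w_nonneg hf N t)
  by_cases h1 : E (fun j => ovr w0 0 (t j))
  · rw [if_pos h1, if_pos (h _ h1)]
  · rw [if_neg h1]; split_ifs <;> norm_num

lemma prT_or {d : ℕ} {f : Fin d → ℝ} (hf : PV f) (N : Fin d → ℕ) (w0 : ℕ → Fin d)
    (E F : (Fin d → ℕ → Fin d) → Prop) :
    PrT f N w0 (fun W => E W ∨ F W) ≤ PrT f N w0 E + PrT f N w0 F := by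
  unfold PrT
  rw [← Finset.sum_add_distrib]
  apply Finset.sum_le_sum
  intro t _
  rw [← mul_add]
  apply mul_le_mul_of_nonneg_left _ (w_nonneg hf N t)
  by_cases h1 : E (fun j => ovr w0 0 (t j)) <;> by_cases h2 : F (fun j => ovr w0 0 (t j)) <;>
    simp [h1, h2]

lemma prT_false {d : ℕ} (f : Fin d → ℝ) (N : Fin d → ℕ) (w0 : ℕ → Fin d)
    {E : (Fin d → ℕ → Fin d) → Prop} (h : ∀ W, ¬ E W) : PrT f N w0 E = 0 := by
  unfold PrT
  apply Finset.sum_eq_zero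
  intro t _
  rw [if_neg (h _), mul_zero]

lemma prT_cond {d : ℕ} {f : Fin d → ℝ} (hf : PV f) (N : Fin d → ℕ) (w0 : ℕ → Fin d)
    (P : Prop) (E : (Fin d → ℕ → Fin d) → Prop) {q : ℝ} (hq : 0 ≤ q)
    (h : P → PrT f N w0 E ≤ q) : PrT f N w0 (fun W => P ∧ E W) ≤ q := by
  by_cases hP : P
  · exact (prT_mono hf N w0 (fun W hW => hW.2)).trans (h hP)
  · rw [prT_false f N w0 (fun W hW => hP hW.1)]; exact hq

lemma prT_exists {d : ℕ} {f : Fin d → ℝ} (hf : PV f) (N : Fin d → ℕ) (w0 : ℕ → Fin d)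
    {ι : Type} (s : Finset ι) (E : ι → (Fin d → ℕ → Fin d) → Prop) (q : ℝ)
    (hq : ∀ x ∈ s, PrT f N w0 (E x) ≤ q) :
    PrT f N w0 (fun W => ∃ x ∈ s, E x W) ≤ s.card * q := by
  classical
  induction s using Finset.induction_on with
  | empty =>
    rw [prT_false f N w0 (fun W hW => by obtain ⟨x, hx, _⟩ := hW; simp at hx)]
    simp
  | insert a s ha ih =>
    have h1 := ih (fun x hx => hq x (Finset.mem_insert_of_mem hx))
    have h2 := hq a (Finset.mem_insert_self a s)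
    have h3 : PrT f N w0 (fun W => ∃ x ∈ insert a s, E x W) ≤
        PrT f N w0 (fun W => E a W ∨ ∃ x ∈ s, E x W) := by
      apply prT_mono hf
      rintro W ⟨x, hx, hW⟩
      rcases Finset.mem_insert.1 hx with rfl | hx
      · exact Or.inl hW
      · exact Or.inr ⟨x, hx, hW⟩
    have h4 := prT_or hf N w0 (E a) (fun W => ∃ x ∈ s, E x W)
    rw [Finset.card_insert_of_notMem ha]
    push_cast
    linarith

lemma box (d : ℕ) (B : ℝ) (hB : 1 ≤ B) : ∃ s : Finset (Fin d → ℤ),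
    (∀ v : Fin d → ℤ, (∀ i, |(v i : ℝ)| ≤ B) → v ∈ s) ∧ (s.card : ℝ) ≤ (3 * B) ^ d := by
  refine ⟨Fintype.piFinset fun _ => Finset.Icc (-⌊B⌋) ⌊B⌋, ?_, ?_⟩
  · intro v hv
    rw [Fintype.mem_piFinset]
    intro i
    rw [Finset.mem_Icc]
    have h := abs_le.1 (hv i)
    constructor
    · have : -(v i) ≤ ⌊B⌋ := Int.le_floor.2 (by push_cast; linarith)
      linarith
    · exact Int.le_floor.2 h.2
  · rw [Fintype.card_piFinset, Finset.prod_const, Finset.card_univ, Fintype.card_fin, Int.card_Icc]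
    push_cast
    apply pow_le_pow_left₀ (Nat.cast_nonneg _)
    have h0 : 0 ≤ ⌊B⌋ := Int.floor_nonneg.2 (by linarith)
    have h1 : ((⌊B⌋ + 1 - -⌊B⌋).toNat : ℤ) = 2 * ⌊B⌋ + 1 := by
      rw [Int.toNat_of_nonneg (by linarith)]; ring
    have h2 : (((⌊B⌋ + 1 - -⌊B⌋).toNat : ℕ) : ℝ) = 2 * (⌊B⌋ : ℝ) + 1 := by
      exact_mod_cast h1
    rw [h2]
    have := Int.floor_le B
    linarith

lemma asym {lam : ℝ} (hl : 1 < lam) {c C δ : ℝ} (hc : 0 < c) (hδ : 0 < δ) :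
    ∀ᶠ k : ℕ in atTop, (lam ^ k) ^ C * Real.exp (-(c * (lam ^ k) ^ δ)) ≤
      Real.exp (-(c / 2 * (lam ^ k) ^ δ)) := by
  have h1 : Tendsto (fun k : ℕ => lam ^ k) atTop atTop := tendsto_pow_atTop_atTop_of_one_lt hl
  have h2 : Tendsto (fun k : ℕ => (lam ^ k) ^ δ) atTop atTop := (tendsto_rpow_atTop hδ).comp h1
  have h3 := (isLittleO_rpow_exp_pos_mul_atTop (C / δ) (half_pos hc)).bound one_pos
  have h4 := h2.eventually h3
  filter_upwards [h4] with k hk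
  have hy : 0 < lam ^ k := pow_pos (by linarith) k
  have e1 : ((lam ^ k) ^ δ) ^ (C / δ) = (lam ^ k) ^ C := by
    rw [← Real.rpow_mul hy.le]; congr 1; field_simp
  rw [e1, one_mul, Real.norm_of_nonneg (Real.rpow_nonneg hy.le _),
    Real.norm_of_nonneg (Real.exp_pos _).le] at hk
  calc (lam ^ k) ^ C * Real.exp (-(c * (lam ^ k) ^ δ))
      ≤ Real.exp (c / 2 * (lam ^ k) ^ δ) * Real.exp (-(c * (lam ^ k) ^ δ)) :=
        mul_le_mul_of_nonneg_right hk (Real.exp_pos _).le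
    _ = Real.exp (-(c / 2 * (lam ^ k) ^ δ)) := by
        rw [← Real.exp_add]; congr 1; ring

/-- all vectors in question are in a polynomial box -/
lemma coord_bound {d : ℕ} {l f : Fin d → ℝ} (hl : ∀ i, 0 < l i) (hf : ∀ i, 0 < f i)
    (hfs : ∑ i, f i = 1) (hlf : dot l f = 1) (v : Fin d → ℤ) (i : Fin d) :
    |(v i : ℝ)| ≤ (1 + sl l) * ‖prj f (ic v)‖ + |dot l (ic v)| := by
  have hp : ∀ j, |prj f (ic v) j| ≤ ‖prj f (ic v)‖ := fun j => by
    rw [← Real.norm_eq_abs]; exact norm_le_pi_norm _ j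
  have h1 : dot l (ic v) = dot l (prj f (ic v)) + ∑ j, ic v j := by
    have e1 : dot l (prj f (ic v)) = dot l (ic v) - (∑ j, ic v j) * dot l f := by
      unfold dot prj
      rw [Finset.mul_sum, ← Finset.sum_sub_distrib]
      exact Finset.sum_congr rfl fun j _ => by ring
    rw [e1, hlf]; ring
  have h2 : |dot l (prj f (ic v))| ≤ sl l * ‖prj f (ic v)‖ := by
    unfold dot sl
    rw [Finset.sum_mul]
    refine (Finset.abs_sum_le_sum_abs _ _).trans (Finset.sum_le_sum fun j _ => ?_)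
    rw [abs_mul, abs_of_pos (hl j)]
    exact mul_le_mul_of_nonneg_left (hp j) (hl j).le
  have h3 : |∑ j, ic v j| ≤ |dot l (ic v)| + sl l * ‖prj f (ic v)‖ := by
    have : ∑ j, ic v j = dot l (ic v) - dot l (prj f (ic v)) := by linarith
    rw [this]
    exact (abs_sub _ _).trans (by linarith)
  have hfi : f i ≤ 1 := by
    rw [← hfs]; exact Finset.single_le_sum (fun j _ => (hf j).le) (Finset.mem_univ i)
  have h4 : (v i : ℝ) = prj f (ic v) i + (∑ j, ic v j) * f i := by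
    unfold prj ic; ring
  rw [h4]
  refine (abs_add_le _ _).trans ?_
  rw [abs_mul, abs_of_pos (hf i)]
  have h5 : |∑ j, ic v j| * f i ≤ |∑ j, ic v j| :=
    mul_le_of_le_one_right (abs_nonneg _) hfi
  have h6 := hp i
  nlinarith

lemma len_bound {d : ℕ} {l : Fin d → ℝ} (hl : ∀ i, 0 < l i) (i j : Fin d) (v : Fin d → ℤ)
    (h : 0 < len l i j v) : |dot l (ic v)| ≤ sl l := by
  have hi : ∀ i, l i ≤ sl l := fun i =>
    Finset.single_le_sum (f := l) (fun j _ => (hl j).le) (Finset.mem_univ i)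
  unfold len at h
  have h1 : min (dot l (ic v) + l i) (l j) ≤ dot l (ic v) + l i := min_le_left _ _
  have h2 : min (dot l (ic v) + l i) (l j) ≤ l j := min_le_right _ _
  have h3 : dot l (ic v) ≤ max (dot l (ic v)) 0 := le_max_left _ _
  have h4 : 0 ≤ max (dot l (ic v)) 0 := le_max_right _ _
  have := hi i
  have := hi j
  rw [abs_le]; constructor <;> linarith

lemma lm_pos {d : ℕ} (hd : 2 ≤ d) {l : Fin d → ℝ} (hl : ∀ i, 0 < l i) : 0 < lm l := by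
  unfold lm
  apply inv_pos.2
  apply Finset.sum_pos (fun i _ => inv_pos.2 (hl i))
  exact ⟨⟨0, by omega⟩, Finset.mem_univ _⟩

lemma LsP_ge {d : ℕ} (hd : 2 ≤ d) {lam θ δ C1 : ℝ} (hlam : 1 < lam) (hadm : Adm d lam θ δ)
    (hC1 : 0 < C1) {l : Fin d → ℝ} (hl : ∀ i, 0 < l i) :
    ∀ᶠ k : ℕ in atTop, 1 ≤ LsP l C1 δ (lam ^ k) := by
  have h1 : Tendsto (fun k : ℕ => lam ^ k) atTop atTop := tendsto_pow_atTop_atTop_of_one_lt hlam
  have hd' : (2 : ℝ) ≤ d := by exact_mod_cast hd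
  have hpos : 0 < 2 / ((d : ℝ) + 1) := by positivity
  have h2 : Tendsto (fun k : ℕ => (lam ^ k) ^ (2 / ((d : ℝ) + 1))) atTop atTop :=
    (tendsto_rpow_atTop hpos).comp h1
  have hlm := lm_pos hd hl
  filter_upwards [h2.eventually_ge_atTop (lm l / (2 * C1)), h1.eventually_ge_atTop 1] with k hk hk1
  set y := lam ^ k
  have hy : 0 < y := by linarith
  obtain ⟨hδ0, hδ1, _⟩ := hadm
  have hδ2 : δ ≤ 2 / ((d : ℝ) + 1) := by
    refine hδ1.trans ?_
    rw [div_le_div_iff₀ (by positivity) (by positivity)]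
    nlinarith [pow_pos (by linarith : (0:ℝ) < d + 1) 2, mul_pos (by linarith : (0:ℝ) < d + 1) (by linarith : (0:ℝ) < d + 1)]
  have hm1 : 1 ≤ mP d δ y := by
    unfold mP
    rw [Nat.one_le_floor_iff]
    exact Real.one_le_rpow hk1 (by linarith)
  have hm2 : (mP d δ y : ℝ) ≤ y ^ (2 / ((d : ℝ) + 1)) := by
    unfold mP
    refine (Nat.floor_le (Real.rpow_nonneg hy.le _)).trans ?_
    exact Real.rpow_le_rpow_of_exponent_le hk1 (by linarith)
  have hm3 : (0 : ℝ) < mP d δ y := by exact_mod_cast hm1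
  have h3 : (y ^ (2 / ((d : ℝ) + 1))) ^ (-(((d : ℝ) - 1) / 2)) ≤
      (mP d δ y : ℝ) ^ (-(((d : ℝ) - 1) / 2)) :=
    Real.rpow_le_rpow_of_nonpos hm3 hm2 (by linarith)
  have h4 : y * (y ^ (2 / ((d : ℝ) + 1))) ^ (-(((d : ℝ) - 1) / 2)) = y ^ (2 / ((d : ℝ) + 1)) := by
    rw [← Real.rpow_mul hy.le]
    nth_rewrite 1 [← Real.rpow_one y]
    rw [← Real.rpow_add hy]
    congr 1
    field_simp; ring
  unfold LsP eP
  rw [le_div_iff₀ hlm]
  rw [div_le_iff₀ (by positivity)] at hk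
  have h5 : y ^ (2 / ((d : ℝ) + 1)) ≤ y * (mP d δ y : ℝ) ^ (-(((d : ℝ) - 1) / 2)) := by
    rw [← h4]; exact mul_le_mul_of_nonneg_left h3 hy.le
  nlinarith [h5, hk, hC1]

end BUaux

set_option maxHeartbeats 2000000 in
open BUaux in
theorem bu_holds (hL1 : StL1) (hL2 : StL2) (hBR : StBR) (hBRU : StBRU) (hBP : StBP)
    (hBN : StBN) (hBE : StBE) (hBW : StBW) (hBD : StBD) (hPN : StPN) (hPA : StPA) : StBU := by
  have _unused := hPA
  intro d M lam l f Cc θ δ ctx a b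
  have hd := ctx.d2
  have hlam := ctx.pis.one_lt
  have hl := ctx.dat.lpos
  have hf : PV f := ⟨ctx.dat.fpos, ctx.dat.fsum⟩
  have hlm := lm_pos hd hl
  have hsl : 0 < sl l := by
    unfold sl
    exact Finset.sum_pos (fun i _ => hl i) ⟨⟨0, by omega⟩, Finset.mem_univ _⟩
  obtain ⟨c1, C1, hc1, hC1, m0, hm0⟩ := hL1 d hd M lam l f ctx.dat ctx.den
  have t1 : Tendsto (fun k : ℕ => lam ^ k) atTop atTop := tendsto_pow_atTop_atTop_of_one_lt hlam
  have hL0 : ∀ᶠ k : ℕ in atTop, 1 ≤ L0P l (lam ^ k) := by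
    filter_upwards [t1.eventually_ge_atTop 1] with k hk
    unfold L0P
    nlinarith
  obtain ⟨r1, hr1, R1⟩ := hBR d M lam l f Cc θ δ ctx (fun k => L0P l (lam ^ k)) hL0
  obtain ⟨r2, hr2, R2⟩ := hBR d M lam l f Cc θ δ ctx (fun k => LsP l C1 δ (lam ^ k))
    (LsP_ge hd hlam ctx.adm hC1 hl)
  obtain ⟨r3, hr3, R3⟩ := hBRU d M lam l f Cc θ δ ctx (KP l) a b
  obtain ⟨r4, hr4, R4⟩ := hBP d M lam l f Cc θ δ ctx
  obtain ⟨r5, hr5, R5⟩ := hBN d M lam l f Cc θ δ ctx c1 C1 hc1 hC1 m0 hm0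
  obtain ⟨r6, hr6, R6⟩ := hBE d M lam l f Cc θ δ ctx c1 C1 hc1 hC1 m0 hm0
  obtain ⟨r7, hr7, R7⟩ := hBW hL2 d M lam l f Cc θ δ ctx C1 hC1
  obtain ⟨r8, hr8, R8⟩ := hBD d M lam l f Cc θ δ ctx
  have hN := hPN d M lam l f Cc θ δ ctx C1 hC1
  obtain ⟨c, hc, g1, g2, g3, g4, g5, g6, g7, g8⟩ : ∃ c : ℝ, 0 < c ∧ c ≤ r1 ∧ c ≤ r2 ∧ c ≤ r3 ∧
      c ≤ r4 ∧ c ≤ r5 ∧ c ≤ r6 ∧ c ≤ r7 ∧ c ≤ r8 := by
    refine ⟨min r1 (min r2 (min r3 (min r4 (min r5 (min r6 (min r7 r8)))))), ?_, ?_⟩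
    · simp only [lt_min_iff]; exact ⟨hr1, hr2, hr3, hr4, hr5, hr6, hr7, hr8⟩
    · have h := le_refl (min r1 (min r2 (min r3 (min r4 (min r5 (min r6 (min r7 r8)))))))
      simpa only [le_min_iff] using h
  refine ⟨C1, c / 2, hC1, half_pos hc, ?_⟩
  filter_upwards [R1, R2, R3, R4, R5, R6, R7, R8, hN,
    asym (C := 3 * (d : ℝ) + 1) hlam hc ctx.adm.1,
    t1.eventually_ge_atTop (4 * (1 + sl l) ^ 2 + sl l + lm l + 1),
    t1.eventually_ge_atTop (1 + 6 * lm l),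
    t1.eventually_ge_atTop (4 + 4 * (d : ℝ) ^ 2 * 3 ^ d)]
    with k R1 R2 R3 R4 R5 R6 R7 R8 hN has hy1 hy2 hy3
  intro w0
  have R1 := R1 w0
  have R2 := R2 w0
  have R3 := R3 w0
  have R4 := R4 w0
  have R5 := R5 w0
  have R6 := R6 w0
  have R7 := R7 w0
  have R8 := R8 w0
  obtain ⟨_, hnum⟩ := hN
  set y := lam ^ k with hy
  set R0 := R0P l δ y with hR0
  set e := eP d C1 δ y with he
  have hy0 : 1 ≤ y := by nlinarith
  have hypos : 0 < y := by linarith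
  have hyd : 0 ≤ y ^ δ := Real.rpow_nonneg hypos.le _
  set q := Real.exp (-(c * y ^ δ)) with hq
  have hq0 : 0 ≤ q := (Real.exp_pos _).le
  have hexp : ∀ r : ℝ, c ≤ r → Real.exp (-(r * y ^ δ)) ≤ q := by
    intro r hr
    apply Real.exp_le_exp.2
    have := mul_le_mul_of_nonneg_right hr hyd
    linarith
  -- the box
  obtain ⟨s, hs, hcard⟩ := box d (y ^ 3) (one_le_pow₀ hy0)
  have hslmul : 1 ≤ 1 + sl l := by linarith
  have hR0le : R0 ≤ (1 + sl l) * y ^ 2 := by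
    rw [hR0]; unfold R0P L0P
    have h1 : y ^ δ ≤ y := by
      nth_rewrite 2 [← Real.rpow_one y]
      apply Real.rpow_le_rpow_of_exponent_le hy0
      refine ctx.adm.2.1.trans ?_
      rw [div_le_one (by positivity)]
      have : (0 : ℝ) ≤ d := Nat.cast_nonneg _
      have : (1 : ℝ) ≤ ((d : ℝ) + 1) ^ 3 := one_le_pow₀ (by linarith)
      linarith
    have h2 : √((1 + sl l) * y) ≤ (1 + sl l) * y := by
      have h3 : 1 ≤ (1 + sl l) * y := by nlinarith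
      rw [Real.sqrt_le_left (by linarith)]
      nlinarith
    calc y ^ δ * √((1 + sl l) * y) ≤ y * ((1 + sl l) * y) :=
          mul_le_mul h1 h2 (Real.sqrt_nonneg _) hypos.le
      _ = (1 + sl l) * y ^ 2 := by ring
  have hmem1 : ∀ v : Fin d → ℤ, ‖prj f (ic v)‖ ≤ 4 * R0 → |dot l (ic v)| ≤ sl l + lm l → v ∈ s := by
    intro v h1 h2
    apply hs
    intro i
    refine (coord_bound hl ctx.dat.fpos ctx.dat.fsum ctx.dat.lf v i).trans ?_
    have h3 : (1 + sl l) * ‖prj f (ic v)‖ ≤ (1 + sl l) * (4 * ((1 + sl l) * y ^ 2)) := by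
      apply mul_le_mul_of_nonneg_left _ (by linarith)
      linarith
    have h4 : (1 + sl l) * (4 * ((1 + sl l) * y ^ 2)) + (sl l + lm l) ≤ y ^ 3 := by
      have h5 : 1 ≤ y ^ 2 := one_le_pow₀ hy0
      have h6 : (4 * (1 + sl l) ^ 2 + sl l + lm l) * y ^ 2 ≤ y ^ 3 := by
        have : y ^ 3 = y * y ^ 2 := by ring
        rw [this]
        apply mul_le_mul_of_nonneg_right (by linarith) (by positivity)
      nlinarith
    linarith
  have hmem2 : ∀ u : Fin d → ℤ, y * e / 2 ≤ ((∑ i, u i : ℤ) : ℝ) →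
      ((∑ i, u i : ℤ) : ℝ) ≤ 3 * y * e → ‖prj f (ic u)‖ ≤ √((∑ i, u i : ℤ) : ℝ) → u ∈ s := by
    intro u h1 h2 h3
    apply hs
    intro i
    have hepos := hnum.epos
    have he2 := hnum.e2
    set S : ℝ := ((∑ i, u i : ℤ) : ℝ) with hS
    have hS0 : 0 ≤ S := by
      have : 0 ≤ y * e / 2 := by positivity
      linarith
    have h4 : √S ≤ 1 + S := by
      rw [Real.sqrt_le_left (by linarith)]
      nlinarith
    have h5 : (u i : ℝ) = prj f (ic u) i + S * f i := by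
      rw [hS]; push_cast; unfold prj ic; ring
    have h6 : |prj f (ic u) i| ≤ ‖prj f (ic u)‖ := by
      rw [← Real.norm_eq_abs]; exact norm_le_pi_norm _ i
    have hfi : f i ≤ 1 := by
      rw [← hf.2]; exact Finset.single_le_sum (fun j _ => (hf.1 j).le) (Finset.mem_univ i)
    have h7 : |(u i : ℝ)| ≤ 1 + 2 * S := by
      rw [h5]
      refine (abs_add_le _ _).trans ?_
      rw [abs_mul, abs_of_nonneg hS0, abs_of_pos (hf.1 i)]
      nlinarith [(hf.1 i).le]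
    have h8 : 3 * y * e ≤ 3 * y * lm l := by
      apply mul_le_mul_of_nonneg_left _ (by positivity)
      linarith
    have h9 : 1 + 6 * lm l * y ≤ y ^ 3 := by
      have e1 : (1 + 6 * lm l) * y ^ 2 ≤ y ^ 3 := by
        have : y ^ 3 = y * y ^ 2 := by ring
        rw [this]
        apply mul_le_mul_of_nonneg_right (by linarith) (by positivity)
      have e2 : y ≤ y ^ 2 := by nlinarith
      have e3 : 6 * lm l * y ≤ 6 * lm l * y ^ 2 := mul_le_mul_of_nonneg_left e2 (by positivity)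
      have e4 : (1 + 6 * lm l) * y ^ 2 = y ^ 2 + 6 * lm l * y ^ 2 := by ring
      linarith
    linarith
  -- the events
  set L0 := L0P l y with hL0
  set Ls := LsP l C1 δ y with hLs
  set S : Finset (Fin d × Fin d × (Fin d → ℤ)) := univ ×ˢ (univ ×ˢ s) with hSdef
  set G : Fin d × Fin d × (Fin d → ℤ) → (Fin d → ℕ → Fin d) → Prop := fun x W =>
    ((2 * sl l ≤ y * dot l (ic x.2.2) ∧ lm l / 4 ≤ len l x.1 x.1 x.2.2) ∧
      (Reg f (NN M k) W L0 R0 ∧ ¬ EvP (M ^ k) l (NN M k) W x.1 x.2.2)) ∨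
    ((x.1 ≠ x.2.1 ∧ lm l / 4 ≤ len l x.1 x.2.1 x.2.2) ∧
      (Exact (M ^ k) (NN M k) W ∧ Reg f (NN M k) W L0 R0 ∧
        ¬ EvN (M ^ k) l (NN M k) W e x.1 x.2.1 x.2.2)) ∨
    ((e ≤ dot l (ic x.2.2) ∧ dot l (ic x.2.2) ≤ 2 * e) ∧
      (Reg f (NN M k) W L0 R0 ∧ ¬ EvN (M ^ k) l (NN M k) W e x.1 x.1 x.2.2)) ∨
    ((y * e / 2 ≤ ((∑ i, x.2.2 i : ℤ) : ℝ) ∧ ((∑ i, x.2.2 i : ℤ) : ℝ) ≤ 3 * y * e ∧
      ‖prj f (ic x.2.2)‖ ≤ √((∑ i, x.2.2 i : ℤ) : ℝ)) ∧
      ¬ EvW (NN M k) W x.1 x.2.2) with hG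
  have hGq : ∀ x ∈ S, PrT f (NN M k) w0 (G x) ≤ 4 * q := by
    intro x _
    have b1 := prT_cond hf (NN M k) w0 _ _ hq0
      (fun h : (2 * sl l ≤ y * dot l (ic x.2.2) ∧ lm l / 4 ≤ len l x.1 x.1 x.2.2) =>
        (R4 x.1 x.2.2 h.1 h.2).trans (hexp r4 g4))
    have b2 := prT_cond hf (NN M k) w0 _ _ hq0
      (fun h : (x.1 ≠ x.2.1 ∧ lm l / 4 ≤ len l x.1 x.2.1 x.2.2) =>
        (R5 x.1 x.2.1 x.2.2 h.1 h.2).trans (hexp r5 g5))
    have b3 := prT_cond hf (NN M k) w0 _ _ hq0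
      (fun h : (e ≤ dot l (ic x.2.2) ∧ dot l (ic x.2.2) ≤ 2 * e) =>
        (R6 x.1 x.2.2 h.1 h.2).trans (hexp r6 g6))
    have b4 := prT_cond hf (NN M k) w0 _ _ hq0
      (fun h : (y * e / 2 ≤ ((∑ i, x.2.2 i : ℤ) : ℝ) ∧ ((∑ i, x.2.2 i : ℤ) : ℝ) ≤ 3 * y * e ∧
          ‖prj f (ic x.2.2)‖ ≤ √((∑ i, x.2.2 i : ℤ) : ℝ)) =>
        (R7 x.1 x.2.2 h.1 h.2.1 h.2.2).trans (hexp r7 g7))
    have c3 := prT_or hf (NN M k) w0 _ _ |>.trans (add_le_add b3 b4)
    have c2 := prT_or hf (NN M k) w0 _ _ |>.trans (add_le_add b2 c3)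
    have c1 := prT_or hf (NN M k) w0 _ _ |>.trans (add_le_add b1 c2)
    refine le_trans (le_of_eq ?_) (c1.trans (le_of_eq (by ring)))
    rfl
  have hEx := prT_exists hf (NN M k) w0 S G (4 * q) hGq
  have hScard : (S.card : ℝ) ≤ (d : ℝ) ^ 2 * (3 * y ^ 3) ^ d := by
    rw [hSdef, Finset.card_product, Finset.card_product, Finset.card_univ, Fintype.card_fin]
    push_cast
    have : (0 : ℝ) ≤ d := Nat.cast_nonneg _
    calc (d : ℝ) * (d * s.card) = (d : ℝ) ^ 2 * s.card := by ring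
      _ ≤ _ := mul_le_mul_of_nonneg_left hcard (by positivity)
  have hcover : PrT f (NN M k) w0 (fun W => Exact (M ^ k) (NN M k) W ∧
      ¬ Good (M ^ k) y l f (NN M k) W L0 R0 Ls (R1P l C1 δ y) e (KP l) a b (LP δ y)) ≤
      PrT f (NN M k) w0 (fun W => (¬ Reg f (NN M k) W L0 (y ^ δ * √L0)) ∨
        (¬ Reg f (NN M k) W Ls (y ^ δ * √Ls)) ∨ (¬ ∀ i, EvR (NN M k) W (KP l) a b i) ∨
        (¬ Dist (NN M k) W (LP δ y)) ∨ ∃ x ∈ S, G x W) := by
    apply prT_mono hf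
    rintro W ⟨hW, hng⟩
    by_contra hcon
    push Not at hcon
    obtain ⟨u1, u2, u3, u4, u5⟩ := hcon
    have memS : ∀ (i j : Fin d) (v : Fin d → ℤ), v ∈ s → (i, j, v) ∈ S := by
      intro i j v hv
      simp [hSdef, hv]
    apply hng
    refine ⟨hW, u1, u2, u3, ?_, ?_, ?_, ?_, u4⟩
    · intro i v v1 v2 v3
      have hv : v ∈ s := hmem1 v v1 ((len_bound hl i i v (by linarith)).trans (by linarith))
      by_contra hE
      exact u5 _ (memS i i v hv) (Or.inl ⟨⟨v2, v3⟩, u1, hE⟩)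
    · intro i j v v1 v2 v3
      have hv : v ∈ s := hmem1 v v2 ((len_bound hl i j v (by linarith)).trans (by linarith))
      by_contra hE
      exact u5 _ (memS i j v hv) (Or.inr (Or.inl ⟨⟨v1, v3⟩, hW, u1, hE⟩))
    · intro i v v1 v2 v3
      have hepos := hnum.epos
      have he2 := hnum.e2
      have hv : v ∈ s := hmem1 v v1 (by
        rw [abs_le]
        constructor <;> linarith)
      by_contra hE
      exact u5 _ (memS i i v hv) (Or.inr (Or.inr (Or.inl ⟨⟨v2, v3⟩, u1, hE⟩)))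
    · intro c u v1 v2 v3
      have hv : u ∈ s := hmem2 u v1 v2 v3
      by_contra hE
      exact u5 _ (memS c c u hv) (Or.inr (Or.inr (Or.inr ⟨⟨v1, v2, v3⟩, hE⟩)))
  refine hcover.trans ?_
  have d4 := prT_or hf (NN M k) w0 _ _ |>.trans (add_le_add (R8.trans (hexp r8 g8)) hEx)
  have d3 := prT_or hf (NN M k) w0 _ _ |>.trans (add_le_add (R3.trans (hexp r3 g3)) d4)
  have d2 := prT_or hf (NN M k) w0 _ _ |>.trans (add_le_add (R2.trans (hexp r2 g2)) d3)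
  have d1 := prT_or hf (NN M k) w0 _ _ |>.trans (add_le_add (R1.trans (hexp r1 g1)) d2)
  refine le_trans d1 ?_
  have hpoly : 4 + 4 * (S.card : ℝ) ≤ y ^ (3 * (d : ℝ) + 1) := by
    have e1 : y ^ (3 * (d : ℝ) + 1) = y * y ^ (3 * d) := by
      rw [Real.rpow_add hypos, Real.rpow_one]
      have : (3 * (d : ℝ)) = ((3 * d : ℕ) : ℝ) := by push_cast; ring
      rw [this, Real.rpow_natCast]; ring
    rw [e1]
    have e2 : 1 ≤ y ^ (3 * d) := one_le_pow₀ hy0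
    have e3 : (3 * y ^ 3) ^ d = 3 ^ d * y ^ (3 * d) := by rw [mul_pow, ← pow_mul]
    rw [e3] at hScard
    calc 4 + 4 * (S.card : ℝ) ≤ 4 * y ^ (3 * d) + 4 * ((d : ℝ) ^ 2 * (3 ^ d * y ^ (3 * d))) := by
          linarith
      _ = (4 + 4 * (d : ℝ) ^ 2 * 3 ^ d) * y ^ (3 * d) := by ring
      _ ≤ y * y ^ (3 * d) := mul_le_mul_of_nonneg_right hy3 (by positivity)
  calc q + (q + (q + (q + (S.card : ℝ) * (4 * q)))) = (4 + 4 * (S.card : ℝ)) * q := by ring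
    _ ≤ y ^ (3 * (d : ℝ) + 1) * q := mul_le_mul_of_nonneg_right hpoly hq0
    _ ≤ Real.exp (-(c / 2 * y ^ δ)) := has

end Pool.Agent.H811R3.PS
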