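import Pool.Agent.H811R3.PS.Defs2

/-! Task BW (helper204): windows with prescribed content. -/

set_option autoImplicit false

open Finset MeasureTheory Filter

namespace Pool.Agent.H811R3.PS

namespace BW

theorem real_bound (c0 A1 A2 Lm a x κ δ y : ℝ) (s N : ℕ) (hc0 : 0 < c0) (hA1 : 0 < A1)
    (hA2 : 0 < A2) (hLm : 0 < Lm) (ha : 0 < a) (hκ : 0 ≤ κ) (hδ : κ + 1 - x * (a + 1) = δ)
    (hy : 1 ≤ y) (hs : 1 ≤ s) (h1 : A1 * y ^ x ≤ s) (h2 : (s : ℝ) ≤ A2 * y ^ x)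
    (h3 : c0 * y ^ κ * (A1 * y ^ x) ^ (-a) ≤ 1) (h4 : Lm / 2 * y ≤ N) (h5 : 8 * (s : ℝ) ≤ N) :
    1 ≤ ⌊y ^ κ⌋₊ ∧ (2 * (N / (2 * s) - 1) + 2) * s ≤ N ∧
    (1 - c0 * (⌊y ^ κ⌋₊ : ℝ) * (s : ℝ) ^ (-a)) ^ (N / (2 * s) - 1) ≤
      Real.exp (-((c0 * Lm / 16 * A2 ^ (-(a + 1))) * y ^ δ)) := by
  have hy0 : 0 < y := by linarith
  have hs0 : (0 : ℝ) < s := by exact_mod_cast hs
  have hyκ : 1 ≤ y ^ κ := Real.one_le_rpow hy hκ
  have hyκ0 : 0 < y ^ κ := by linarith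
  have hyx : 0 < y ^ x := Real.rpow_pos_of_pos hy0 x
  set K := ⌊y ^ κ⌋₊ with hK
  have hKle : (K : ℝ) ≤ y ^ κ := Nat.floor_le hyκ0.le
  have hK1 : 1 ≤ K := by
    rw [hK, Nat.one_le_floor_iff]; exact hyκ
  have hK1r : (1 : ℝ) ≤ K := by exact_mod_cast hK1
  have hKge : y ^ κ / 2 ≤ K := by
    have := Nat.lt_floor_add_one (y ^ κ)
    rw [← hK] at this
    linarith
  -- natural division
  have hq : 4 ≤ N / (2 * s) := by
    rw [Nat.le_div_iff_mul_le (by omega)]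
    have : 8 * s ≤ N := by exact_mod_cast h5
    omega
  have hmul : (N / (2 * s)) * (2 * s) ≤ N := Nat.div_mul_le_self _ _
  refine ⟨hK1, ?_, ?_⟩
  · have : 2 * (N / (2 * s) - 1) + 2 = 2 * (N / (2 * s)) := by omega
    rw [this]
    calc 2 * (N / (2 * s)) * s = (N / (2 * s)) * (2 * s) := by ring
      _ ≤ N := hmul
  set J := N / (2 * s) - 1 with hJ
  have hJr : (N : ℝ) / (4 * s) ≤ J := by
    have h6 : (J : ℝ) = ((N / (2 * s) : ℕ) : ℝ) - 1 := by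
      rw [hJ, Nat.cast_sub (by omega)]; simp
    have h7 : (N : ℝ) / (2 * s) - 1 ≤ ((N / (2 * s) : ℕ) : ℝ) := by
      have h8 : N < (N / (2 * s) + 1) * (2 * s) := by
        have := Nat.lt_mul_div_succ N (show 0 < 2 * s by omega)
        calc N < 2 * s * (N / (2 * s) + 1) := this
          _ = _ := by ring
      have h9 : (N : ℝ) < (((N / (2 * s) : ℕ) : ℝ) + 1) * (2 * s) := by exact_mod_cast h8
      have h10 : (N : ℝ) / (2 * s) ≤ ((N / (2 * s) : ℕ) : ℝ) + 1 := by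
        rw [div_le_iff₀ (by positivity)]; exact h9.le
      linarith
    have h11 : (N : ℝ) / (2 * s) = 2 * ((N : ℝ) / (4 * s)) := by
      field_simp; ring
    have h12 : 2 ≤ (N : ℝ) / (4 * s) := by
      rw [le_div_iff₀ (by positivity)]; linarith
    rw [h6]; linarith
  set r := c0 * (K : ℝ) * (s : ℝ) ^ (-a) with hr
  have hsa : 0 < (s : ℝ) ^ (-a) := Real.rpow_pos_of_pos hs0 _
  have hr0 : 0 ≤ r := by rw [hr]; positivity
  have hr1 : r ≤ 1 := by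
    refine le_trans ?_ h3
    rw [hr]
    have h6 : (s : ℝ) ^ (-a) ≤ (A1 * y ^ x) ^ (-a) :=
      Real.rpow_le_rpow_of_nonpos (by positivity) h1 (by linarith)
    calc c0 * (K : ℝ) * (s : ℝ) ^ (-a) ≤ c0 * y ^ κ * (s : ℝ) ^ (-a) := by gcongr
      _ ≤ c0 * y ^ κ * (A1 * y ^ x) ^ (-a) := by gcongr
  have hpow : (1 - r) ^ J ≤ Real.exp (-(r * J)) := by
    calc (1 - r) ^ J ≤ (Real.exp (-r)) ^ J :=
          pow_le_pow_left₀ (by linarith) (Real.one_sub_le_exp_neg r) J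
      _ = Real.exp (-(r * J)) := by
          rw [← Real.exp_nat_mul]; congr 1; ring
  refine hpow.trans (Real.exp_le_exp.2 (neg_le_neg ?_))
  -- the exponent
  have h6 : (A2 * y ^ x) ^ (-(a + 1)) ≤ (s : ℝ) ^ (-(a + 1)) :=
    Real.rpow_le_rpow_of_nonpos hs0 h2 (by linarith)
  have h7 : (A2 * y ^ x) ^ (-(a + 1)) = A2 ^ (-(a + 1)) * y ^ (-(x * (a + 1))) := by
    rw [Real.mul_rpow hA2.le hyx.le, ← Real.rpow_mul hy0.le]
    congr 2; ring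
  have h8 : (s : ℝ) ^ (-(a + 1)) = (s : ℝ) ^ (-a) / s := by
    rw [neg_add, Real.rpow_add hs0, Real.rpow_neg_one]
    rfl
  have h9 : y ^ δ = y ^ κ * y * y ^ (-(x * (a + 1))) := by
    rw [← hδ, show κ + 1 - x * (a + 1) = κ + 1 + (-(x * (a + 1))) by ring, Real.rpow_add hy0,
      Real.rpow_add hy0, Real.rpow_one]
  calc c0 * Lm / 16 * A2 ^ (-(a + 1)) * y ^ δ
      = c0 * (y ^ κ / 2) * ((Lm / 2 * y) / 4) * (A2 ^ (-(a + 1)) * y ^ (-(x * (a + 1)))) := by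
        rw [h9]; ring
    _ = c0 * (y ^ κ / 2) * ((Lm / 2 * y) / 4) * (A2 * y ^ x) ^ (-(a + 1)) := by rw [h7]
    _ ≤ c0 * (y ^ κ / 2) * ((Lm / 2 * y) / 4) * (s : ℝ) ^ (-(a + 1)) := by gcongr
    _ = c0 * (y ^ κ / 2) * (s : ℝ) ^ (-a) * ((Lm / 2 * y) / (4 * s)) := by
        rw [h8]; field_simp
    _ ≤ c0 * (K : ℝ) * (s : ℝ) ^ (-a) * ((N : ℝ) / (4 * s)) := by gcongr
    _ ≤ r * J := by
        rw [hr]
        exact mul_le_mul_of_nonneg_left hJr (by positivity)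

theorem lm_le {d : ℕ} (l : Fin d → ℝ) (hl : ∀ i, 0 < l i) (i : Fin d) : lm l ≤ l i := by
  unfold lm
  have h : (l i)⁻¹ ≤ ∑ j, (l j)⁻¹ :=
    Finset.single_le_sum (f := fun j => (l j)⁻¹) (fun j _ => (inv_pos.2 (hl j)).le)
      (Finset.mem_univ i)
  rw [inv_le_comm₀ (lt_of_lt_of_le (inv_pos.2 (hl i)) h) (hl i)]
  exact h

theorem lm_pos {d : ℕ} (hd : 2 ≤ d) (l : Fin d → ℝ) (hl : ∀ i, 0 < l i) : 0 < lm l := by
  unfold lm
  rw [inv_pos]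
  haveI : Nonempty (Fin d) := ⟨⟨0, by omega⟩⟩
  exact Finset.sum_pos (fun i _ => inv_pos.2 (hl i)) Finset.univ_nonempty

end BW

open BW

theorem bw_holds (hPRO : StPRO) (hPA : StPA) : StBW := by
  intro hL2 d M lam l f Cc θ δ hctx C1 hC1
  have hd := hctx.d2
  have hdR : (2 : ℝ) ≤ d := by exact_mod_cast hd
  have hPV : PV f := ⟨hctx.dat.fpos, hctx.dat.fsum⟩
  obtain ⟨c0, C0, hc0, hC0, s0, hL⟩ := hL2 d hd f hPV
  obtain ⟨-, hPAk⟩ := hPA d M lam l f Cc θ δ hctx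
  obtain ⟨hδ0, hδ1, -⟩ := hctx.adm
  have hlam : 1 < lam := hctx.dat.one_lt
  have hLm := lm_pos hd l hctx.dat.lpos
  -- parameters
  set a : ℝ := ((d : ℝ) - 1) / 2 with ha
  have ha0 : 0 < a := by rw [ha]; linarith
  have ha2 : 1 / 2 ≤ a := by rw [ha]; linarith
  set β : ℝ := 2 / ((d : ℝ) + 1) - δ with hβ
  set x : ℝ := 1 - β * a with hx
  set κ : ℝ := δ * (((d : ℝ) ^ 2 - 1) / 4 + 1) with hκ
  have hd1 : (0 : ℝ) < (d : ℝ) + 1 := by linarith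
  have hδ2 : δ * (10 * ((d : ℝ) + 1) ^ 3) ≤ 1 := by
    rwa [le_div_iff₀ (by positivity)] at hδ1
  have hκ0 : 0 < κ := by
    rw [hκ]; apply mul_pos hδ0; nlinarith
  have hxval : x = 2 / ((d : ℝ) + 1) + δ * a := by
    rw [hx, hβ, ha]; field_simp; ring
  have hexp : κ + 1 - x * (a + 1) = δ := by
    rw [hxval, hκ, ha]; field_simp; ring
  -- inequalities between exponents
  have hδd : δ * ((d : ℝ) + 1) ^ 2 ≤ 1 / (10 * ((d : ℝ) + 1)) := by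
    rw [le_div_iff₀ (by positivity)]
    calc δ * ((d : ℝ) + 1) ^ 2 * (10 * ((d : ℝ) + 1)) = δ * (10 * ((d : ℝ) + 1) ^ 3) := by ring
      _ ≤ 1 := hδ2
  have hinv : 0 < 1 / ((d : ℝ) + 1) := by positivity
  have hκs : κ ≤ 1 / (10 * ((d : ℝ) + 1)) := by
    refine le_trans ?_ hδd
    rw [hκ]
    apply mul_le_mul_of_nonneg_left _ hδ0.le
    nlinarith
  have hinv10 : 1 / (10 * ((d : ℝ) + 1)) = (1 / ((d : ℝ) + 1)) / 10 := by
    field_simp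
  have hδs : δ ≤ 1 / (10 * ((d : ℝ) + 1)) := by
    refine le_trans ?_ hδd
    nlinarith
  have hβ0 : 0 < β := by
    rw [hβ]
    have : 2 / ((d : ℝ) + 1) = 2 * (1 / ((d : ℝ) + 1)) := by ring
    rw [this]; rw [hinv10] at hδs; linarith
  have hxlow : 2 * (1 / ((d : ℝ) + 1)) ≤ x := by
    rw [hxval]
    have : 2 / ((d : ℝ) + 1) = 2 * (1 / ((d : ℝ) + 1)) := by ring
    rw [this]
    have := mul_pos hδ0 ha0
    linarith
  have hx0 : 0 < x := by linarith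
  have h6κ : 0 < x - 6 * κ := by rw [hinv10] at hκs; linarith
  have hxa : 0 < x * a - κ := by
    have : x * (1 / 2) ≤ x * a := mul_le_mul_of_nonneg_left ha2 hx0.le
    rw [hinv10] at hκs; linarith
  have hx1 : 0 < 1 - x := by
    have : 1 - x = β * a := by rw [hx]; ring
    rw [this]; exact mul_pos hβ0 ha0
  set A1 : ℝ := C1 / 2 with hA1
  set A2 : ℝ := 3 * (C1 * 2 ^ a) with hA2
  have hA10 : 0 < A1 := by rw [hA1]; linarith
  have hA20 : 0 < A2 := by rw [hA2]; positivity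
  refine ⟨c0 * lm l / 16 * A2 ^ (-(a + 1)), by positivity, ?_⟩
  have hy : Tendsto (fun k : ℕ => lam ^ k) atTop atTop := tendsto_pow_atTop_atTop_of_one_lt hlam
  have e1 : ∀ᶠ y : ℝ in atTop, (s0 : ℝ) / A1 ≤ y ^ x := (tendsto_rpow_atTop hx0).eventually_ge_atTop _
  have e2 : ∀ᶠ y : ℝ in atTop, C0 ^ 2 / A1 ≤ y ^ (x - 6 * κ) :=
    (tendsto_rpow_atTop h6κ).eventually_ge_atTop _
  have e3 : ∀ᶠ y : ℝ in atTop, c0 * A1 ^ (-a) ≤ y ^ (x * a - κ) :=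
    (tendsto_rpow_atTop hxa).eventually_ge_atTop _
  have e4 : ∀ᶠ y : ℝ in atTop, 16 * A2 / lm l ≤ y ^ (1 - x) :=
    (tendsto_rpow_atTop hx1).eventually_ge_atTop _
  have e5 : ∀ᶠ y : ℝ in atTop, 2 / lm l ≤ y := eventually_ge_atTop _
  have e6 : ∀ᶠ y : ℝ in atTop, 1 ≤ y := eventually_ge_atTop _
  filter_upwards [hy.eventually e1, hy.eventually e2, hy.eventually e3, hy.eventually e4,
    hy.eventually e5, hy.eventually e6, hPAk] with k f1 f2 f3 f4 f5 f6 hPAk'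
  obtain ⟨-, -, hNN, -, -⟩ := hPAk'
  set y : ℝ := lam ^ k with hydef
  have hy0 : 0 < y := by linarith
  intro w0 c u hu1 hu2 hu3
  -- size of e
  set m : ℕ := mP d δ y with hm
  have hyβ : 1 ≤ y ^ β := Real.one_le_rpow f6 hβ0.le
  have hmle : (m : ℝ) ≤ y ^ β := Nat.floor_le (by linarith)
  have hm1 : 1 ≤ m := by
    show 1 ≤ ⌊y ^ (2 / ((d : ℝ) + 1) - δ)⌋₊
    rw [Nat.one_le_floor_iff]; exact hyβ
  have hm1r : (1 : ℝ) ≤ m := by exact_mod_cast hm1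
  have hmge : y ^ β / 2 ≤ m := by
    have : y ^ β < (m : ℝ) + 1 := Nat.lt_floor_add_one (y ^ (2 / ((d : ℝ) + 1) - δ))
    linarith
  have hee : eP d C1 δ y = C1 * (m : ℝ) ^ (-a) := rfl
  have hyβa : y * y ^ (-(β * a)) = y ^ x := by
    rw [hx, show 1 - β * a = 1 + (-(β * a)) by ring, Real.rpow_add hy0, Real.rpow_one]
  have hmlow : y ^ (-(β * a)) ≤ (m : ℝ) ^ (-a) := by
    have h := Real.rpow_le_rpow_of_nonpos (by linarith : (0 : ℝ) < m) hmle (by linarith : -a ≤ 0)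
    rw [← Real.rpow_mul hy0.le, mul_neg] at h
    exact h
  have hmupp : (m : ℝ) ^ (-a) ≤ 2 ^ a * y ^ (-(β * a)) := by
    have h := Real.rpow_le_rpow_of_nonpos (by linarith : (0 : ℝ) < y ^ β / 2) hmge
      (by linarith : -a ≤ 0)
    refine h.trans (le_of_eq ?_)
    rw [Real.div_rpow (by linarith) (by norm_num), ← Real.rpow_mul hy0.le, mul_neg,
      Real.rpow_neg (by norm_num : (0 : ℝ) ≤ 2), div_inv_eq_mul, mul_comm]
  have hlow : A1 * y ^ x ≤ ((∑ i, u i : ℤ) : ℝ) := by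
    refine le_trans ?_ hu1
    rw [hee, hA1, ← hyβa]
    calc C1 / 2 * (y * y ^ (-(β * a))) ≤ C1 / 2 * (y * (m : ℝ) ^ (-a)) := by gcongr
      _ = y * (C1 * (m : ℝ) ^ (-a)) / 2 := by ring
  have hupp : ((∑ i, u i : ℤ) : ℝ) ≤ A2 * y ^ x := by
    refine hu2.trans ?_
    rw [hee, hA2, ← hyβa]
    calc 3 * y * (C1 * (m : ℝ) ^ (-a)) ≤ 3 * y * (C1 * (2 ^ a * y ^ (-(β * a)))) := by gcongr
      _ = 3 * (C1 * 2 ^ a) * (y * y ^ (-(β * a))) := by ring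
  have hyx0 : 0 < y ^ x := Real.rpow_pos_of_pos hy0 x
  have hpos : (0 : ℝ) < ((∑ i, u i : ℤ) : ℝ) := lt_of_lt_of_le (by positivity) hlow
  have hposZ : 0 < ∑ i, u i := by exact_mod_cast hpos
  obtain ⟨s, hs⟩ := Int.eq_ofNat_of_zero_le hposZ.le
  have hsR : ((∑ i, u i : ℤ) : ℝ) = (s : ℝ) := by rw [hs]; simp
  rw [hsR] at hlow hupp hpos hu3
  have hs1 : 1 ≤ s := by
    have : (0 : ℝ) < s := hpos
    exact_mod_cast this
  have hs0' : s0 ≤ s := by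
    have : (s0 : ℝ) ≤ s := by
      rw [div_le_iff₀ hA10] at f1
      linarith
    exact_mod_cast this
  have hNc := hNN c
  have hlc := lm_le l hctx.dat.lpos c
  have hN : lm l / 2 * y ≤ (NN M k c : ℝ) := by
    have h1 : y * l c - 1 ≤ (NN M k c : ℝ) := by
      have := (abs_le.1 hNc).1; linarith
    have h2 : y * lm l ≤ y * l c := mul_le_mul_of_nonneg_left hlc hy0.le
    have h3 : 2 ≤ y * lm l := by rwa [div_le_iff₀ hLm] at f5
    linarith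
  have h8s : 8 * (s : ℝ) ≤ (NN M k c : ℝ) := by
    refine le_trans ?_ hN
    rw [div_le_iff₀ hLm] at f4
    have h1 : y = y ^ x * y ^ (1 - x) := by
      rw [← Real.rpow_add hy0]; simp
    calc 8 * (s : ℝ) ≤ 8 * (A2 * y ^ x) := by gcongr
      _ = (16 * A2) * y ^ x / 2 := by ring
      _ ≤ (y ^ (1 - x) * lm l) * y ^ x / 2 := by gcongr
      _ = lm l / 2 * (y ^ x * y ^ (1 - x)) := by ring
      _ = lm l / 2 * y := by rw [← h1]
  have h3' : c0 * y ^ κ * (A1 * y ^ x) ^ (-a) ≤ 1 := by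
    rw [Real.mul_rpow hA10.le hyx0.le, ← Real.rpow_mul hy0.le]
    have h1 : y ^ κ * y ^ (x * -a) = (y ^ (x * a - κ))⁻¹ := by
      rw [← Real.rpow_add hy0, ← Real.rpow_neg hy0.le]
      congr 1; ring
    calc c0 * y ^ κ * (A1 ^ (-a) * y ^ (x * -a)) = (c0 * A1 ^ (-a)) * (y ^ κ * y ^ (x * -a)) := by
          ring
      _ = (c0 * A1 ^ (-a)) * (y ^ (x * a - κ))⁻¹ := by rw [h1]
      _ ≤ y ^ (x * a - κ) * (y ^ (x * a - κ))⁻¹ := by gcongr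
      _ = 1 := mul_inv_cancel₀ (Real.rpow_pos_of_pos hy0 _).ne'
  obtain ⟨g1, g2, g3⟩ := real_bound c0 A1 A2 (lm l) a x κ δ y s (NN M k c) hc0 hA10 hA20 hLm ha0
    hκ0.le hexp f6 hs1 hlow hupp h3' hN h8s
  -- C K^3 ≤ √s
  have hK3 : C0 * ((⌊y ^ κ⌋₊ : ℕ) : ℝ) ^ 3 ≤ √(s : ℝ) := by
    apply Real.le_sqrt_of_sq_le
    have h1 : ((⌊y ^ κ⌋₊ : ℕ) : ℝ) ≤ y ^ κ := Nat.floor_le (by positivity)
    have h2 : (y ^ κ) ^ 6 = y ^ (6 * κ) := by
      rw [← Real.rpow_natCast, ← Real.rpow_mul hy0.le]; congr 1; push_cast; ring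
    calc (C0 * ((⌊y ^ κ⌋₊ : ℕ) : ℝ) ^ 3) ^ 2 = C0 ^ 2 * ((⌊y ^ κ⌋₊ : ℕ) : ℝ) ^ 6 := by ring
      _ ≤ C0 ^ 2 * (y ^ κ) ^ 6 := by gcongr
      _ = C0 ^ 2 * y ^ (6 * κ) := by rw [h2]
      _ ≤ (A1 * y ^ (x - 6 * κ)) * y ^ (6 * κ) := by
          rw [div_le_iff₀ hA10] at f2
          gcongr
          linarith
      _ = A1 * y ^ x := by
          rw [mul_assoc, ← Real.rpow_add hy0]; congr 2; ring
      _ ≤ s := hlow
  have hmain := hL s hs0' ⌊y ^ κ⌋₊ g1 hK3 u hs hu3 (NN M k c / (2 * s) - 1) (NN M k c) g2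
  refine hPRO d f hPV (NN M k) w0 (fun W => ¬ EvW (NN M k) W c u) c _ (fun W => ?_)
  refine le_trans (le_of_eq ?_) ((hmain w0).trans g3)
  congr 1
  funext w
  simp only [EvW, Function.update_self]

end Pool.Agent.H811R3.PS
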