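import Pool.Agent.H811R3.PS.Defs3

/-!
Task C1 (helper96): facts on the subshift.
-/

set_option autoImplicit false

open Finset MeasureTheory Filter

namespace Pool.Agent.H811R3.PS

namespace TC1

theorem ulim_fin {α : Type} [Finite α] (g : ℕ → α) :
    ∃ v, ∀ᶠ n in (hyperfilter ℕ : Filter ℕ), g n = v := by
  obtain ⟨a, ha⟩ := ((hyperfilter ℕ).map g).eq_pure_of_finite
  refine ⟨a, ?_⟩
  have h1 : ({a} : Set α) ∈ (hyperfilter ℕ).map g := by
    rw [ha]
    exact Ultrafilter.mem_pure.2 rfl
  exact h1

theorem ulim_int (g : ℕ → ℤ) (B : ℤ) (h : ∀ n, |g n| ≤ B) :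
    ∃ v, ∀ᶠ n in (hyperfilter ℕ : Filter ℕ), g n = v := by
  obtain ⟨v, hv⟩ := ulim_fin
    (fun n => (⟨g n, Finset.mem_Icc.2 (abs_le.1 (h n))⟩ : {z // z ∈ Finset.Icc (-B) B}))
  exact ⟨v.1, hv.mono fun n hn => congrArg Subtype.val hn⟩

theorem ev_ge (N : ℕ) : ∀ᶠ n in (hyperfilter ℕ : Filter ℕ), N ≤ n :=
  Nat.hyperfilter_le_atTop (eventually_ge_atTop N)

variable {d : ℕ}

def win (x : ℤ → Fin d) (a : ℤ) (n : ℕ) : List (Fin d) :=
  List.ofFn fun s : Fin n => x (a + (s : ℕ))

theorem win_length (x : ℤ → Fin d) (a : ℤ) (n : ℕ) : (win x a n).length = n := by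
  simp [win]

theorem win_getElem? (x : ℤ → Fin d) (a : ℤ) (n i : ℕ) (h : i < n) :
    (win x a n)[i]? = some (x (a + i)) := by
  unfold win
  rw [List.getElem?_ofFn, dif_pos h]

theorem win_append (x : ℤ → Fin d) (a : ℤ) (n m : ℕ) :
    win x a (n + m) = win x a n ++ win x (a + n) m := by
  apply List.ext_getElem?
  intro i
  by_cases h1 : i < n
  · rw [List.getElem?_append_left (by rw [win_length]; exact h1), win_getElem? x a _ _ (by omega),
      win_getElem? x a _ _ h1]
  · rw [List.getElem?_append_right (by rw [win_length]; omega), win_length]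
    by_cases h2 : i < n + m
    · rw [win_getElem? x a _ _ h2, win_getElem? x _ _ _ (by omega)]
      congr 2
      have : n ≤ i := by omega
      push_cast [this]
      ring
    · rw [List.getElem?_eq_none (by rw [win_length]; omega),
        List.getElem?_eq_none (by rw [win_length]; omega)]

theorem win_one (x : ℤ → Fin d) (a : ℤ) : win x a 1 = [x a] := by
  simp [win]

/-- the language -/
def Lg (σ : Fin d → List (Fin d)) (w : List (Fin d)) : Prop :=
  ∃ (b : Fin d) (k : ℕ), 1 ≤ k ∧ w <:+: (app σ)^[k] [b]

theorem mem_XS (σ : Fin d → List (Fin d)) (x : ℤ → Fin d) :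
    x ∈ XS σ ↔ ∀ (a : ℤ) (n : ℕ), Lg σ (win x a n) := Iff.rfl

theorem Lg_mono {σ : Fin d → List (Fin d)} {w w' : List (Fin d)} (h : w <:+: w') (hw : Lg σ w') :
    Lg σ w := by
  obtain ⟨b, k, hk, hw⟩ := hw
  exact ⟨b, k, hk, h.trans hw⟩

theorem win_infix (x : ℤ → Fin d) {a a' : ℤ} {n n' : ℕ} (h1 : a ≤ a')
    (h2 : a' + n' ≤ a + n) : win x a' n' <:+: win x a n := by
  obtain ⟨p, hp⟩ : ∃ p : ℕ, a' = a + p := ⟨(a' - a).toNat, by omega⟩
  subst hp
  obtain ⟨r, hr⟩ : ∃ r : ℕ, n = p + (n' + r) := ⟨n - (p + n'), by omega⟩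
  subst hr
  rw [win_append, win_append]
  exact ⟨win x a p, win x (a + p + n') r, by simp⟩

theorem win_sh (x : ℤ → Fin d) (a : ℤ) (n : ℕ) : win (sh x) a n = win x (a + 1) n := by
  unfold win sh
  congr 1
  funext s
  congr 1
  ring

theorem lim_mem {σ : Fin d → List (Fin d)} (xn : ℕ → ℤ → Fin d) (x : ℤ → Fin d)
    (hx : ∀ j, ∀ᶠ n in (hyperfilter ℕ : Filter ℕ), xn n j = x j)
    (h : ∀ (a : ℤ) (m : ℕ), ∀ᶠ n in (hyperfilter ℕ : Filter ℕ), Lg σ (win (xn n) a m)) :
    x ∈ XS σ := by
  rw [mem_XS]
  intro a m
  have h1 : ∀ᶠ n in (hyperfilter ℕ : Filter ℕ), ∀ s : Fin m, xn n (a + (s : ℕ)) = x (a + (s : ℕ)) :=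
    eventually_all.2 fun s => hx _
  obtain ⟨n, hn1, hn2⟩ := (h1.and (h a m)).exists
  have h2 : win (xn n) a m = win x a m := by
    unfold win
    congr 1
    funext s
    exact hn1 s
  rwa [h2] at hn2

theorem app_append (σ : Fin d → List (Fin d)) (u v : List (Fin d)) :
    app σ (u ++ v) = app σ u ++ app σ v := by
  unfold app
  rw [List.flatMap_append]

theorem app_single (σ : Fin d → List (Fin d)) (a : Fin d) : app σ [a] = σ a := by
  simp [app]

theorem app_infix (σ : Fin d → List (Fin d)) {u v : List (Fin d)} (h : u <:+: v) :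
    app σ u <:+: app σ v := by
  obtain ⟨s, t, rfl⟩ := h
  rw [app_append, app_append]
  exact ⟨app σ s, app σ t, rfl⟩

theorem iter_infix (σ : Fin d → List (Fin d)) (k : ℕ) {u v : List (Fin d)} (h : u <:+: v) :
    (app σ)^[k] u <:+: (app σ)^[k] v := by
  induction k with
  | zero => exact h
  | succ k ih =>
    rw [Function.iterate_succ_apply', Function.iterate_succ_apply']
    exact app_infix σ ih

/-- position of the image of the `i`-th letter -/
def FF (σ : Fin d → List (Fin d)) (u : List (Fin d)) (i : ℕ) : ℕ := (app σ (u.take i)).length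

theorem FF_succ (σ : Fin d → List (Fin d)) (u : List (Fin d)) (i : ℕ) (hi : i < u.length) :
    FF σ u (i + 1) = FF σ u i + (σ u[i]).length := by
  unfold FF
  rw [List.take_succ_eq_append_getElem hi, app_append, List.length_append, app_single]

theorem FF_succ' (σ : Fin d → List (Fin d)) (u : List (Fin d)) (i : ℕ) (hi : u.length ≤ i) :
    FF σ u (i + 1) = FF σ u i := by
  unfold FF
  rw [List.take_of_length_le hi, List.take_of_length_le (by omega)]

theorem FF_zero (σ : Fin d → List (Fin d)) (u : List (Fin d)) : FF σ u 0 = 0 := by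
  simp [FF, app]

theorem FF_length (σ : Fin d → List (Fin d)) (u : List (Fin d)) :
    FF σ u u.length = (app σ u).length := by
  simp [FF]

theorem FF_le (σ : Fin d → List (Fin d)) (u : List (Fin d)) (i k : ℕ) :
    FF σ u i ≤ FF σ u (i + k) := by
  induction k with
  | zero => exact le_rfl
  | succ k ih =>
    refine ih.trans ?_
    rw [← add_assoc]
    by_cases h : i + k < u.length
    · rw [FF_succ _ _ _ h]; omega
    · rw [FF_succ' _ _ _ (not_lt.1 h)]

theorem FF_lip (σ : Fin d → List (Fin d)) (M : ℕ) (hM : ∀ j, (σ j).length ≤ M)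
    (u : List (Fin d)) (i k : ℕ) : FF σ u (i + k) ≤ FF σ u i + M * k := by
  induction k with
  | zero => simp
  | succ k ih =>
    rw [← add_assoc, Nat.mul_succ]
    by_cases h : i + k < u.length
    · rw [FF_succ _ _ _ h]
      have := hM u[i + k]
      omega
    · rw [FF_succ' _ _ _ (not_lt.1 h)]
      omega

theorem cut (σ : Fin d → List (Fin d)) (u : List (Fin d)) (P : ℕ) (hP : P < (app σ u).length) :
    ∃ q, q < u.length ∧ FF σ u q ≤ P ∧ P < FF σ u (q + 1) := by
  classical
  have hex : ∃ i, P < FF σ u i := ⟨u.length, by rw [FF_length]; exact hP⟩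
  have h1 := Nat.find_spec hex
  have h2 : Nat.find hex ≤ u.length := Nat.find_min' hex (by rw [FF_length]; exact hP)
  have h3 : Nat.find hex ≠ 0 := by
    intro h
    rw [h, FF_zero] at h1
    omega
  obtain ⟨q, hq⟩ := Nat.exists_eq_succ_of_ne_zero h3
  refine ⟨q, ?_, ?_, ?_⟩
  · omega
  · by_contra hcon
    push Not at hcon
    exact Nat.find_min hex (by omega : q < Nat.find hex) hcon
  · rw [hq] at h1
    exact h1

theorem app_getElem? (σ : Fin d → List (Fin d)) (u : List (Fin d)) (i : ℕ) (hi : i < u.length)
    (t : ℕ) (ht : t < (σ u[i]).length) : (app σ u)[FF σ u i + t]? = (σ u[i])[t]? := by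
  have h1 : app σ u = app σ (u.take i) ++ (σ u[i] ++ app σ (u.drop (i + 1))) := by
    conv_lhs => rw [← List.take_append_drop i u, List.drop_eq_getElem_cons hi]
    rw [app_append]
    congr 1
  rw [h1, List.getElem?_append_right (by unfold FF; omega)]
  have h2 : FF σ u i + t - (app σ (u.take i)).length = t := by
    unfold FF
    omega
  rw [h2, List.getElem?_append_left ht]

end TC1

open TC1

theorem c1_holds : StC1 := by
  intro d hd σ hinc
  have hmem : ∀ a j, a ∈ σ j := by
    intro a j
    have h1 := hinc a j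
    unfold inc at h1
    have h2 : 0 < (σ j).count a := by omega
    exact List.count_pos_iff.1 h2
  have hlen2 : ∀ j, 2 ≤ (σ j).length := by
    intro j
    have h1 : (σ j).toFinset = Finset.univ := by
      ext a
      simp [hmem a j]
    have h2 := List.toFinset_card_le (σ j)
    rw [h1, Finset.card_univ, Fintype.card_fin] at h2
    omega
  have hd0 : 0 < d := by omega
  let b0 : Fin d := ⟨0, hd0⟩
  obtain ⟨M, hM⟩ : ∃ M : ℕ, ∀ j, (σ j).length ≤ M :=
    ⟨Finset.univ.sup fun j => (σ j).length, fun j =>
      Finset.le_sup (f := fun j => (σ j).length) (Finset.mem_univ j)⟩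
  have hM1 : 1 ≤ M := (by norm_num : 1 ≤ 2).trans ((hlen2 b0).trans (hM b0))
  refine ⟨?_, ?_, ?_, ?_, ?_⟩
  · -- desubstitution
    intro x hx
    have h1 : ∀ n : ℕ, ∃ (b : Fin d) (k : ℕ) (A B : List (Fin d)), 1 ≤ k ∧
        A ++ win x (-n) (2 * n + 1) ++ B = app σ ((app σ)^[k] [b]) := by
      intro n
      obtain ⟨b, k, hk, hw⟩ := (mem_XS σ x).1 hx (-n) (2 * n + 1)
      have h2 : (app σ)^[k] [b] <:+: (app σ)^[k + 1] [b] := by
        rw [Function.iterate_succ_apply]
        apply iter_infix
        rw [app_single]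
        obtain ⟨s, t, hst⟩ := List.append_of_mem (hmem b b)
        exact ⟨s, t, by rw [hst]; simp⟩
      obtain ⟨A, B, hAB⟩ := hw.trans h2
      rw [Function.iterate_succ_apply'] at hAB
      exact ⟨b, k, A, B, hk, hAB⟩
    choose b k A B hk hAB using h1
    let u : ℕ → List (Fin d) := fun n => (app σ)^[k n] [b n]
    let P : ℕ → ℕ := fun n => (A n).length + n
    have hlenu : ∀ n, (app σ (u n)).length = (A n).length + (2 * n + 1) + (B n).length := by
      intro n
      show (app σ ((app σ)^[k n] [b n])).length = _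
      rw [← hAB n, List.length_append, List.length_append, win_length]
    have hPlt : ∀ n, P n < (app σ (u n)).length := by
      intro n
      rw [hlenu n]
      show (A n).length + n < _
      omega
    choose q hq hq1 hq2 using fun n => cut σ (u n) (P n) (hPlt n)
    have hletter : ∀ n (i t : ℕ) (hi : i < (u n).length), t < (σ (u n)[i]).length →
        ∀ p : ℤ, (FF σ (u n) i : ℤ) + t - P n = p → -(n : ℤ) ≤ p → p ≤ n →
        x p = wd σ (u n)[i] t := by
      intro n i t hi ht p hp hp1 hp2
      have e1 := app_getElem? σ (u n) i hi t ht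
      have e2 : app σ (u n) = A n ++ (win x (-n) (2 * n + 1) ++ B n) := by
        show app σ ((app σ)^[k n] [b n]) = _
        rw [← hAB n, List.append_assoc]
      have hPn : (P n : ℤ) = (A n).length + n := by
        show (((A n).length + n : ℕ) : ℤ) = _
        push_cast
        ring
      have hge : (A n).length ≤ FF σ (u n) i + t := by omega
      have hlt : FF σ (u n) i + t - (A n).length < 2 * n + 1 := by omega
      rw [e2, List.getElem?_append_right hge,
        List.getElem?_append_left (by rw [win_length]; exact hlt), win_getElem? _ _ _ _ hlt] at e1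
      have e3 : (-(n : ℤ)) + ((FF σ (u n) i + t - (A n).length : ℕ) : ℤ) = p := by omega
      rw [e3] at e1
      unfold wd
      rw [List.getD_eq_getElem?_getD, ← e1]
      rfl
    -- local data
    let xn : ℕ → ℤ → Fin d := fun n m => (u n).getD ((q n : ℤ) + m).toNat b0
    let cn : ℕ → ℤ → ℤ := fun n m => (FF σ (u n) ((q n : ℤ) + m).toNat : ℤ) - P n
    have hcb : ∀ m n, |cn n m| ≤ (|m| + 1) * M := by
      intro m n
      have a1 := hq1 n
      have a2 := hq2 n
      have a3 := FF_lip σ M hM (u n) (q n) 1
      rw [mul_one] at a3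
      show |(FF σ (u n) ((q n : ℤ) + m).toNat : ℤ) - P n| ≤ _
      by_cases hm : 0 ≤ m
      · obtain ⟨k, rfl⟩ := Int.eq_ofNat_of_zero_le hm
        have e1 : ((q n : ℤ) + k).toNat = q n + k := by omega
        rw [e1]
        have a4 := FF_le σ (u n) (q n) k
        have a5 := FF_lip σ M hM (u n) (q n) k
        have e2 : |(k : ℤ)| = k := abs_of_nonneg (by positivity)
        rw [e2, abs_le]
        have a6 : ((k : ℤ) + 1) * M = M * k + M := by ring
        rw [a6]
        have a7 : (0 : ℤ) ≤ (M : ℤ) * k := by positivity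
        have a5' : (FF σ (u n) (q n + k) : ℤ) ≤ FF σ (u n) (q n) + M * k := by exact_mod_cast a5
        constructor
        · omega
        · omega
      · push Not at hm
        have e2 : |m| = -m := abs_of_neg hm
        rw [e2, abs_le]
        set i := ((q n : ℤ) + m).toNat with hi
        obtain ⟨r, hr⟩ : ∃ r : ℕ, q n = i + r := ⟨q n - i, by omega⟩
        have hrm : (r : ℤ) ≤ -m := by omega
        have a4 := FF_le σ (u n) i r
        have a5 := FF_lip σ M hM (u n) i r
        rw [← hr] at a4 a5
        have a5' : (FF σ (u n) (q n) : ℤ) ≤ FF σ (u n) i + M * r := by exact_mod_cast a5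
        have a8 : (M : ℤ) * r ≤ M * (-m) := mul_le_mul_of_nonneg_left hrm (by positivity)
        have a6 : (-m + 1) * (M : ℤ) = M * (-m) + M := by ring
        rw [a6]
        have a9 : (0 : ℤ) ≤ (M : ℤ) * (-m) := mul_nonneg (by positivity) (by omega)
        constructor
        · omega
        · omega
    have hrange : ∀ m : ℤ, ∀ᶠ n in (hyperfilter ℕ : Filter ℕ), 0 ≤ (q n : ℤ) + m ∧
        (q n : ℤ) + m < (u n).length := by
      intro m
      filter_upwards [ev_ge (M * (m.natAbs + 1))] with n hn
      have a1 := hq1 n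
      have a2 := hq2 n
      have a3 := FF_lip σ M hM (u n) 0 (q n + 1)
      rw [FF_zero, zero_add, zero_add] at a3
      have a4 : M * (m.natAbs + 1) < M * (q n + 1) := by
        have : n ≤ P n := by
          show n ≤ (A n).length + n
          omega
        omega
      have a5 := Nat.lt_of_mul_lt_mul_left a4
      obtain ⟨r, hr⟩ : ∃ r : ℕ, (u n).length = q n + r := ⟨(u n).length - q n, by
        have := hq n
        omega⟩
      have a6 := FF_lip σ M hM (u n) (q n) r
      rw [← hr, FF_length, hlenu] at a6
      have a7 : M * (m.natAbs + 1) < M * r := by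
        have : P n = (A n).length + n := rfl
        omega
      have a8 := Nat.lt_of_mul_lt_mul_left a7
      omega
    choose x1 hx1 using fun m => ulim_fin (fun n => xn n m)
    choose c hc using fun m => ulim_int (fun n => cn n m) ((|m| + 1) * M) (fun n => hcb m n)
    have hstep : ∀ m, c (m + 1) = c m + (σ (x1 m)).length := by
      intro m
      obtain ⟨n, ⟨⟨⟨hn1, hn2⟩, hn3⟩, hn4⟩, hn5, hn6⟩ :=
        ((((hc m).and (hc (m + 1))).and (hx1 m)).and (ev_ge 0)).and (hrange m) |>.exists
      rw [← hn1, ← hn2, ← hn3]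
      show (FF σ (u n) ((q n : ℤ) + (m + 1)).toNat : ℤ) - P n =
        (FF σ (u n) ((q n : ℤ) + m).toNat : ℤ) - P n +
          (σ ((u n).getD ((q n : ℤ) + m).toNat b0)).length
      have e1 : ((q n : ℤ) + (m + 1)).toNat = ((q n : ℤ) + m).toNat + 1 := by omega
      have e2 : ((q n : ℤ) + m).toNat < (u n).length := by omega
      rw [e1, FF_succ _ _ _ e2, List.getD_eq_getElem _ _ e2]
      push_cast
      ring
    refine ⟨x1, ?_, c, ⟨hstep, ?_, ?_⟩⟩
    · -- x1 in XS
      apply lim_mem xn x1 hx1
      intro a m
      filter_upwards [hrange a, hrange (a + m)] with n hn1 hn2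
      have hu : Lg σ (u n) := ⟨b n, k n, hk n, List.infix_rfl⟩
      refine Lg_mono ?_ hu
      have e1 : win (xn n) a m = ((u n).drop ((q n : ℤ) + a).toNat).take m := by
        apply List.ext_getElem?
        intro i
        by_cases hi : i < m
        · rw [win_getElem? _ _ _ _ hi, List.getElem?_take_of_lt hi, List.getElem?_drop]
          have e2 : ((q n : ℤ) + a).toNat + i < (u n).length := by omega
          rw [List.getElem?_eq_getElem e2]
          show some ((u n).getD ((q n : ℤ) + (a + i)).toNat b0) = _
          have e3 : ((q n : ℤ) + (a + i)).toNat = ((q n : ℤ) + a).toNat + i := by omega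
          rw [e3, List.getD_eq_getElem _ _ e2]
        · rw [List.getElem?_eq_none (by rw [win_length]; omega),
            List.getElem?_eq_none (by rw [List.length_take]; omega)]
      rw [e1]
      exact (List.take_prefix _ _).isInfix.trans (List.drop_suffix _ _).isInfix
    · -- zero
      obtain ⟨n, hn1, hn2⟩ := ((hc 0).and (hc 1)).exists
      rw [← hn1, ← hn2]
      show (FF σ (u n) ((q n : ℤ) + 0).toNat : ℤ) - P n ≤ 0 ∧
        0 < (FF σ (u n) ((q n : ℤ) + 1).toNat : ℤ) - P n
      have e1 : ((q n : ℤ) + 0).toNat = q n := by omega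
      have e2 : ((q n : ℤ) + 1).toNat = q n + 1 := by omega
      rw [e1, e2]
      have a1 := hq1 n
      have a2 := hq2 n
      constructor
      · omega
      · omega
    · -- letter
      intro m t ht
      obtain ⟨n, ⟨⟨hn1, hn3⟩, hn4⟩, hn5, hn6⟩ :=
        (((hc m).and (hx1 m)).and (ev_ge ((c m + t).natAbs))).and (hrange m) |>.exists
      have e2 : ((q n : ℤ) + m).toNat < (u n).length := by omega
      have e3 : x1 m = (u n)[((q n : ℤ) + m).toNat] := by
        rw [← hn3]
        show (u n).getD ((q n : ℤ) + m).toNat b0 = _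
        rw [List.getD_eq_getElem _ _ e2]
      rw [e3] at ht ⊢
      apply hletter n _ t e2 ht
      · rw [← hn1]
        show _ = (FF σ (u n) ((q n : ℤ) + m).toNat : ℤ) - P n + t
        ring
      · omega
      · omega
  · -- images
    intro x1 hx1 x c hdes
    rw [mem_XS]
    have himg : ∀ (m : ℤ) (k : ℕ), ∃ N : ℕ, c (m + k) = c m + N ∧ win x (c m) N = app σ (win x1 m k) := by
      intro m k
      induction k with
      | zero => exact ⟨0, by simp, by simp [win, app]⟩
      | succ k ih =>
        obtain ⟨N, hN1, hN2⟩ := ih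
        refine ⟨N + (σ (x1 (m + k))).length, ?_, ?_⟩
        · push_cast
          rw [← add_assoc, hdes.step, hN1]
          ring
        · rw [win_append, win_append, app_append, hN2, win_one, app_single]
          congr 1
          rw [← hN1]
          apply List.ext_getElem?
          intro i
          by_cases hi : i < (σ (x1 (m + k))).length
          · rw [win_getElem? _ _ _ _ hi, hdes.letter _ _ hi, List.getElem?_eq_getElem hi]
            unfold wd
            rw [List.getD_eq_getElem _ _ hi]
          · rw [List.getElem?_eq_none (by rw [win_length]; omega),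
              List.getElem?_eq_none (by omega)]
    have hup : ∀ k : ℕ, c 0 + k ≤ c k := by
      intro k
      induction k with
      | zero => simp
      | succ k ih =>
        have := hdes.step k
        have h2 := hlen2 (x1 k)
        push_cast
        rw [this]
        omega
    have hdown : ∀ k : ℕ, c (-(k : ℤ)) ≤ c 0 - k := by
      intro k
      induction k with
      | zero => simp
      | succ k ih =>
        have h1 := hdes.step (-(((k + 1 : ℕ)) : ℤ))
        have h2 := hlen2 (x1 (-(((k + 1 : ℕ)) : ℤ)))
        have h3 : -(((k + 1 : ℕ)) : ℤ) + 1 = -(k : ℤ) := by push_cast; ring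
        rw [h3] at h1
        push_cast at h1 h2 ⊢
        omega
    intro a n
    set K : ℕ := (a - c 0).natAbs + n with hK
    have h1 := hdown K
    have h2 := hup K
    obtain ⟨N, hN1, hN2⟩ := himg (-(K : ℤ)) (K + K)
    have h3 : -(K : ℤ) + ((K + K : ℕ) : ℤ) = K := by push_cast; ring
    rw [h3] at hN1
    obtain ⟨b, k, hk, hw⟩ := (mem_XS σ x1).1 hx1 (-(K : ℤ)) (K + K)
    have h4 : Lg σ (win x (c (-(K : ℤ))) N) := by
      rw [hN2]
      refine ⟨b, k + 1, by omega, ?_⟩
      rw [Function.iterate_succ_apply']
      exact app_infix σ hw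
    refine Lg_mono (win_infix x ?_ ?_) h4
    · omega
    · omega
  · -- shift
    intro x
    rw [mem_XS, mem_XS]
    constructor
    · intro h a n
      rw [win_sh]
      exact h _ _
    · intro h a n
      have := h (a - 1) n
      rw [win_sh] at this
      simpa using this
  · -- compactness
    apply IsClosed.isCompact
    have h1 : XS σ = ⋂ (a : ℤ) (n : ℕ), {x : ℤ → Fin d | Lg σ (win x a n)} := by
      ext x
      simp only [Set.mem_iInter]
      exact mem_XS σ x
    rw [h1]
    refine isClosed_iInter fun a => isClosed_iInter fun n => ?_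
    have h2 : {x : ℤ → Fin d | Lg σ (win x a n)} =
        (fun (x : ℤ → Fin d) (s : Fin n) => x (a + (s : ℕ))) ⁻¹' {f | Lg σ (List.ofFn f)} := rfl
    rw [h2]
    apply IsClosed.preimage
    · exact continuous_pi fun s => continuous_apply _
    · exact (Set.toFinite _).isClosed
  · -- nonempty
    have hlenapp : ∀ w : List (Fin d), 2 * w.length ≤ (app σ w).length := by
      intro w
      induction w with
      | nil => simp
      | cons a w ih =>
        have : app σ (a :: w) = σ a ++ app σ w := by simp [app]
        rw [this, List.length_append, List.length_cons]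
        have := hlen2 a
        omega
    have hgrow : ∀ k : ℕ, 2 ^ k ≤ ((app σ)^[k] [b0]).length := by
      intro k
      induction k with
      | zero => simp
      | succ k ih =>
        rw [Function.iterate_succ_apply', pow_succ]
        have := hlenapp ((app σ)^[k] [b0])
        omega
    let w : ℕ → List (Fin d) := fun n => (app σ)^[2 * n + 1] [b0]
    have hwl : ∀ n, 2 * n + 1 ≤ (w n).length := by
      intro n
      exact (Nat.lt_two_pow_self.le).trans (hgrow (2 * n + 1))
    let xn : ℕ → ℤ → Fin d := fun n m => (w n).getD (m + n).toNat b0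
    choose x hx using fun m => ulim_fin (fun n => xn n m)
    refine ⟨x, lim_mem xn x hx ?_⟩
    intro a m
    filter_upwards [ev_ge (a.natAbs + m)] with n hn
    have h1 : Lg σ (win (xn n) (-n) (2 * n + 1)) := by
      have e1 : win (xn n) (-n) (2 * n + 1) = (w n).take (2 * n + 1) := by
        apply List.ext_getElem?
        intro i
        by_cases hi : i < 2 * n + 1
        · rw [win_getElem? _ _ _ _ hi, List.getElem?_take_of_lt hi]
          have e2 : i < (w n).length := lt_of_lt_of_le hi (hwl n)
          rw [List.getElem?_eq_getElem e2]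
          show some ((w n).getD ((-(n : ℤ) + i) + n).toNat b0) = _
          have e3 : ((-(n : ℤ) + i) + n).toNat = i := by omega
          rw [e3, List.getD_eq_getElem _ _ e2]
        · rw [List.getElem?_eq_none (by rw [win_length]; omega),
            List.getElem?_eq_none (by rw [List.length_take]; omega)]
      rw [e1]
      exact ⟨b0, 2 * n + 1, by omega, (List.take_prefix _ _).isInfix⟩
    refine Lg_mono (win_infix (xn n) ?_ ?_) h1
    · omega
    · push_cast
      omega

end Pool.Agent.H811R3.PS
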