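import Pool.Agent.H811R3.PS.Defs3

set_option autoImplicit false

open Finset MeasureTheory Filter

namespace Pool.Agent.H811R3.PS

/-- growth of the cuts -/
theorem C2_grow (c : ℤ → ℤ) (M : ℤ) (h : ∀ m, c m + 1 ≤ c (m + 1) ∧ c (m + 1) ≤ c m + M) (m : ℤ)
    (k : ℕ) : c m + k ≤ c (m + k) ∧ c (m + k) ≤ c m + k * M := by
  induction k with
  | zero => simp
  | succ k ih =>
    have h1 := h (m + k)
    have e : m + ((k + 1 : ℕ) : ℤ) = m + k + 1 := by
      push_cast
      ring
    rw [e]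
    push_cast
    constructor
    · linarith [ih.1, h1.1]
    · linarith [ih.2, h1.2]

theorem C2_lt (c : ℤ → ℤ) (M : ℤ) (h : ∀ m, c m + 1 ≤ c (m + 1) ∧ c (m + 1) ≤ c m + M) {m m' : ℤ}
    (hm : m < m') : c m < c m' := by
  obtain ⟨k, hk⟩ := Int.eq_ofNat_of_zero_le (show 0 ≤ m' - m by linarith)
  have h1 := (C2_grow c M h m k).1
  have e : m + (k : ℤ) = m' := by linarith
  rw [e] at h1
  have : (0 : ℤ) < k := by linarith
  linarith

theorem C2_le (c : ℤ → ℤ) (M : ℤ) (h : ∀ m, c m + 1 ≤ c (m + 1) ∧ c (m + 1) ≤ c m + M) {m m' : ℤ}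
    (hm : m ≤ m') : c m ≤ c m' := by
  rcases hm.eq_or_lt with h1 | h1
  · rw [h1]
  · exact (C2_lt c M h h1).le

/-- the tile containing a given place -/
theorem C2_find (c : ℤ → ℤ) (M : ℤ) (h : ∀ m, c m + 1 ≤ c (m + 1) ∧ c (m + 1) ≤ c m + M) (z : ℤ) :
    ∃ m, c m ≤ z ∧ z < c (m + 1) := by
  have hb : ∃ b, ∀ m, c m ≤ z → m ≤ b := by
    refine ⟨max 0 (z - c 0), fun m hm => ?_⟩
    by_contra hc
    push Not at hc
    have h0 : 0 < m := lt_of_le_of_lt (le_max_left _ _) hc
    have h1 : z - c 0 < m := lt_of_le_of_lt (le_max_right _ _) hc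
    obtain ⟨k, hk⟩ := Int.eq_ofNat_of_zero_le h0.le
    have h2 := (C2_grow c M h 0 k).1
    rw [zero_add, ← hk] at h2
    linarith
  have hi : ∃ m, c m ≤ z := by
    refine ⟨min 0 (z - c 0), ?_⟩
    have h0 : min 0 (z - c 0) ≤ 0 := min_le_left _ _
    have h1 : min 0 (z - c 0) ≤ z - c 0 := min_le_right _ _
    obtain ⟨k, hk⟩ := Int.eq_ofNat_of_zero_le (show 0 ≤ -(min 0 (z - c 0)) by linarith)
    have h2 := (C2_grow c M h (min 0 (z - c 0)) k).1
    rw [← hk] at h2
    have e : min 0 (z - c 0) + -(min 0 (z - c 0)) = 0 := by ring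
    rw [e] at h2
    linarith
  obtain ⟨m, hm1, hm2⟩ := Int.exists_greatest_of_bdd hb hi
  refine ⟨m, hm1, ?_⟩
  by_contra hc
  have := hm2 (m + 1) (not_lt.1 hc)
  linarith

/-- the local claim -/
theorem C2_claim {d : ℕ} (σ : Fin d → List (Fin d)) (L : ℕ) (hL : 1 ≤ L) (M : ℤ)
    (hlen : ∀ j, 2 * L ≤ (σ j).length) (hM : ∀ j, ((σ j).length : ℤ) ≤ M)
    (hD : Dist (ln σ) (wd σ) L) (x y x1 y1 : ℤ → Fin d) (c e : ℤ → ℤ)
    (hx : Des σ x x1 c) (hy : Des σ y y1 e) (m : ℤ)
    (hw : ∀ s : ℕ, s < 2 * L → x (c m + s) = y (c m + s)) :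
    ∃ m', c m = e m' ∧ x1 m = y1 m' := by
  have he : ∀ m, e m + 1 ≤ e (m + 1) ∧ e (m + 1) ≤ e m + M := by
    intro m
    have h1 := hy.step m
    have h2 := hlen (y1 m)
    have h3 := hM (y1 m)
    rw [h1]
    constructor
    · have : (1 : ℤ) ≤ ((σ (y1 m)).length : ℤ) := by exact_mod_cast (by omega : 1 ≤ (σ (y1 m)).length)
      linarith
    · linarith
  obtain ⟨m', h1, h2⟩ := C2_find e M he (c m)
  obtain ⟨p, hp⟩ := Int.eq_ofNat_of_zero_le (show 0 ≤ c m - e m' by linarith)
  obtain ⟨r, hr⟩ := Int.eq_ofNat_of_zero_le (show 0 ≤ e (m' + 1) - c m by linarith)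
  have hr0 : 0 < r := by
    have : (0 : ℤ) < r := by linarith
    exact_mod_cast this
  have hst := hy.step m'
  have hpr : p + r = (σ (y1 m')).length := by
    have : (p : ℤ) + r = ((σ (y1 m')).length : ℤ) := by linarith
    exact_mod_cast this
  have hlx := hlen (x1 m)
  rcases Nat.lt_or_ge r L with hrL | hrL
  · exfalso
    have hly := hlen (y1 (m' + 1))
    have h3 := hD (x1 m) (y1 (m' + 1)) L (L - r) (by unfold ln; omega) (by unfold ln; omega) ?_
    · have := h3.2
      omega
    · intro s hs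
      have e1 := hx.letter m (L + s) (by omega)
      have e2 := hy.letter (m' + 1) (L - r + s) (by omega)
      have e3 := hw (L + s) (by omega)
      rw [← e1, ← e2, e3]
      congr 1
      push_cast [Nat.cast_sub hrL.le]
      linarith
  · have h3 := hD (x1 m) (y1 m') 0 p (by unfold ln; omega) (by unfold ln; omega) ?_
    · refine ⟨m', ?_, h3.1⟩
      have h4 : p = 0 := h3.2.symm
      rw [h4] at hp
      simp only [Nat.cast_zero] at hp
      linarith
    · intro s hs
      have e1 := hx.letter m (0 + s) (by omega)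
      have e2 := hy.letter m' (p + s) (by omega)
      have e3 := hw (0 + s) (by omega)
      rw [← e1, ← e2, e3]
      congr 1
      push_cast
      linarith

theorem c2_holds : StC2 := by
  intro d σ L hL hlen hD B
  set M : ℕ := ∑ j, (σ j).length with hMdef
  have hMj : ∀ j, (σ j).length ≤ M := fun j =>
    Finset.single_le_sum (f := fun j => (σ j).length) (fun _ _ => Nat.zero_le _) (mem_univ j)
  have hM : ∀ j, ((σ j).length : ℤ) ≤ (M : ℤ) := fun j => by exact_mod_cast hMj j
  refine ⟨(B + 2) * M, ?_⟩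
  intro x y x1 y1 c e hx hy hxy
  have hgen : ∀ (z z1 : ℤ → Fin d) (g : ℤ → ℤ), Des σ z z1 g →
      ∀ m, g m + 1 ≤ g (m + 1) ∧ g (m + 1) ≤ g m + M := by
    intro z z1 g hg m
    have h1 := hg.step m
    have h2 := hlen (z1 m)
    have h3 := hM (z1 m)
    rw [h1]
    constructor
    · have : (1 : ℤ) ≤ ((σ (z1 m)).length : ℤ) := by
        exact_mod_cast (by omega : 1 ≤ (σ (z1 m)).length)
      linarith
    · linarith
  have hc := hgen x x1 c hx
  have he := hgen y y1 e hy
  have hML : (2 * L : ℤ) ≤ M := by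
    exact_mod_cast (hlen (x1 0)).trans (hMj (x1 0))
  -- size of the cuts
  have hsize : ∀ m : ℤ, |m| ≤ B → ∀ s : ℕ, s < 2 * L → x (c m + s) = y (c m + s) := by
    intro m hm s hs
    apply hxy
    have hc0 := hx.zero
    have h1 := (hc 0).2
    rw [zero_add] at h1
    have hs' : (s : ℤ) < 2 * L := by exact_mod_cast hs
    have hs0 : (0 : ℤ) ≤ s := Int.natCast_nonneg s
    have hM0 : (0 : ℤ) ≤ M := Int.natCast_nonneg M
    rw [abs_le] at hm
    have hB0 : (0 : ℤ) ≤ B := Int.natCast_nonneg B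
    push_cast
    rcases le_total 0 m with h0 | h0
    · obtain ⟨k, hk⟩ := Int.eq_ofNat_of_zero_le h0
      have h2 := C2_grow c M hc 0 k
      rw [zero_add, ← hk] at h2
      have hkB : (k : ℤ) ≤ B := by linarith
      have h3 : (k : ℤ) * M ≤ B * M := mul_le_mul_of_nonneg_right hkB hM0
      have hk0 : (0 : ℤ) ≤ k := Int.natCast_nonneg k
      have hBM : (0 : ℤ) ≤ B * M := mul_nonneg hB0 hM0
      rw [abs_le]
      constructor
      · nlinarith [h2.1]
      · nlinarith [h2.2]
    · obtain ⟨k, hk⟩ := Int.eq_ofNat_of_zero_le (show 0 ≤ -m by linarith)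
      have h2 := C2_grow c M hc m k
      have e1 : m + (k : ℤ) = 0 := by linarith
      rw [e1] at h2
      have hkB : (k : ℤ) ≤ B := by linarith
      have h3 : (k : ℤ) * M ≤ B * M := mul_le_mul_of_nonneg_right hkB hM0
      have hk0 : (0 : ℤ) ≤ k := Int.natCast_nonneg k
      have hBM : (0 : ℤ) ≤ B * M := mul_nonneg hB0 hM0
      rw [abs_le]
      constructor
      · nlinarith [h2.2]
      · nlinarith [h2.1]
  have claim : ∀ m : ℤ, |m| ≤ B → ∃ m', c m = e m' ∧ x1 m = y1 m' := fun m hm =>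
    C2_claim σ L hL M hlen hM hD x y x1 y1 c e hx hy m (hsize m hm)
  have hinj : ∀ m m' : ℤ, e m = e m' → m = m' := by
    intro m m' h
    rcases lt_trichotomy m m' with h1 | h1 | h1
    · have := C2_lt e M he h1
      omega
    · exact h1
    · have := C2_lt e M he h1
      omega
  -- the origin
  have h0 : x1 0 = y1 0 ∧ c 0 = e 0 := by
    obtain ⟨m', h1, h2⟩ := claim 0 (by simp)
    have h3 := hx.step 0
    have h4 := hy.step m'
    rw [zero_add] at h3
    have h5 : c 1 = e (m' + 1) := by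
      rw [h3, h4, h1, h2]
    have hm' : m' = 0 := by
      rcases lt_trichotomy m' 0 with h6 | h6 | h6
      · exfalso
        have h7 := C2_le e M he (show m' + 1 ≤ 0 by omega)
        have h8 := hx.zero.2
        have h9 := hy.zero.1
        omega
      · exact h6
      · exfalso
        have h7 := C2_le e M he (show 1 ≤ m' by omega)
        have h8 := hx.zero.1
        have h9 := hy.zero.2
        omega
    subst hm'
    exact ⟨h2, h1⟩
  have hright : ∀ k : ℕ, (k : ℤ) ≤ B → x1 k = y1 k ∧ c k = e k := by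
    intro k
    induction k with
    | zero => intro _; exact_mod_cast h0
    | succ k ih =>
      intro hk
      push_cast at hk
      obtain ⟨i1, i2⟩ := ih (by linarith)
      obtain ⟨m', h1, h2⟩ := claim ((k + 1 : ℕ) : ℤ) (by
        rw [abs_of_nonneg (Int.natCast_nonneg _)]
        push_cast
        exact hk)
      have h3 := hx.step k
      have h4 := hy.step k
      have h5 : c ((k : ℤ) + 1) = e ((k : ℤ) + 1) := by
        rw [h3, h4, i1, i2]
      push_cast at h1 h2 ⊢
      have h6 : (k : ℤ) + 1 = m' := hinj _ _ (by rw [← h5, h1])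
      rw [← h6] at h2
      exact ⟨h2, h5⟩
  have hleft : ∀ k : ℕ, (k : ℤ) ≤ B → x1 (-(k : ℤ)) = y1 (-(k : ℤ)) ∧ c (-(k : ℤ)) = e (-(k : ℤ)) := by
    intro k
    induction k with
    | zero => intro _; simpa using h0
    | succ k ih =>
      intro hk
      push_cast at hk
      obtain ⟨i1, i2⟩ := ih (by linarith)
      obtain ⟨m', h1, h2⟩ := claim (-((k + 1 : ℕ) : ℤ)) (by
        rw [abs_neg, abs_of_nonneg (Int.natCast_nonneg _)]
        push_cast
        exact hk)
      have h3 := hx.step (-((k + 1 : ℕ) : ℤ))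
      have h4 := hy.step m'
      have e1 : -((k + 1 : ℕ) : ℤ) + 1 = -(k : ℤ) := by
        push_cast
        ring
      rw [e1] at h3
      have h5 : e (-(k : ℤ)) = e (m' + 1) := by
        rw [← i2, h3, h4, h1, h2]
      have h6 : m' = -((k + 1 : ℕ) : ℤ) := by
        have := hinj _ _ h5
        push_cast
        linarith
      rw [h6] at h1 h2
      exact ⟨h2, h1⟩
  intro m hm
  rcases le_total 0 m with h1 | h1
  · obtain ⟨k, hk⟩ := Int.eq_ofNat_of_zero_le h1
    rw [abs_of_nonneg h1] at hm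
    rw [hk]
    exact hright k (by linarith)
  · obtain ⟨k, hk⟩ := Int.eq_ofNat_of_zero_le (show 0 ≤ -m by linarith)
    rw [abs_of_nonpos h1] at hm
    have e1 : m = -(k : ℤ) := by linarith
    rw [e1]
    exact hleft k (by linarith)

end Pool.Agent.H811R3.PS
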