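import Pool.Agent.H811R3.PS.Defs3

/-!
C3: existence of the address map (helper57).
-/

set_option autoImplicit false

open Finset MeasureTheory Filter Topology

namespace Pool.Agent.H811R3.PS

namespace C3

variable {d : ℕ}

/-! ### Linear algebra -/

theorem act_eq (A : Matrix (Fin d) (Fin d) ℤ) (y : Fin d → ℝ) :
    act A y = (A.map (Int.castRingHom ℝ)).mulVec y := rfl

theorem act_mul (A B : Matrix (Fin d) (Fin d) ℤ) (y : Fin d → ℝ) :
    act (A * B) y = act A (act B y) := by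
  rw [act_eq, act_eq, act_eq, Matrix.map_mul, Matrix.mulVec_mulVec]

theorem act_one (y : Fin d → ℝ) : act (1 : Matrix (Fin d) (Fin d) ℤ) y = y := by
  rw [act_eq, Matrix.map_one _ (map_zero _) (map_one _), Matrix.one_mulVec]

theorem act_add (A : Matrix (Fin d) (Fin d) ℤ) (y z : Fin d → ℝ) :
    act A (y + z) = act A y + act A z := by
  rw [act_eq, act_eq, act_eq, Matrix.mulVec_add]

theorem act_sub (A : Matrix (Fin d) (Fin d) ℤ) (y z : Fin d → ℝ) :
    act A (y - z) = act A y - act A z := by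
  rw [act_eq, act_eq, act_eq, Matrix.mulVec_sub]

theorem act_smul (A : Matrix (Fin d) (Fin d) ℤ) (a : ℝ) (y : Fin d → ℝ) :
    act A (a • y) = a • act A y := by
  rw [act_eq, act_eq, Matrix.mulVec_smul]

theorem prj_add (f y z : Fin d → ℝ) : prj f (y + z) = prj f y + prj f z := by
  funext i
  simp only [prj, Pi.add_apply, Finset.sum_add_distrib]
  ring

theorem prj_sub (f y z : Fin d → ℝ) : prj f (y - z) = prj f y - prj f z := by
  funext i
  simp only [prj, Pi.sub_apply, Finset.sum_sub_distrib]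
  ring

theorem prj_smul (f : Fin d → ℝ) (a : ℝ) (y : Fin d → ℝ) : prj f (a • y) = a • prj f y := by
  funext i
  simp only [prj, Pi.smul_apply, smul_eq_mul, ← Finset.mul_sum]
  ring

theorem prj_sum {f : Fin d → ℝ} (hf : ∑ i, f i = 1) (y : Fin d → ℝ) : ∑ i, prj f y i = 0 := by
  simp only [prj, Finset.sum_sub_distrib, ← Finset.mul_sum, hf, mul_one, sub_self]

theorem prj_of_sum {f y : Fin d → ℝ} (h : ∑ i, y i = 0) : prj f y = y := by
  funext i
  simp [prj, h]

/-- `prj (A (prj z)) = prj (A z)` -/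
theorem prj_act_prj {A : Matrix (Fin d) (Fin d) ℤ} {Lam : ℝ} {l f : Fin d → ℝ}
    (h : Dat A Lam l f) (z : Fin d → ℝ) : prj f (act A (prj f z)) = prj f (act A z) := by
  have e1 : prj f z = z - (∑ i, z i) • f := by
    funext i
    simp [prj]
  have e2 : act A f = Lam • f := by
    rw [h.right]
    rfl
  have e3 : prj f f = 0 := by
    funext i
    simp [prj, h.fsum]
  rw [e1, act_sub, act_smul, e2, prj_sub, prj_smul, prj_smul, e3, smul_zero, smul_zero, sub_zero]

/-- the linear map `y ↦ prj (A y)` -/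
noncomputable def Phi (A : Matrix (Fin d) (Fin d) ℤ) (f : Fin d → ℝ) :
    (Fin d → ℝ) →L[ℝ] (Fin d → ℝ) :=
  LinearMap.toContinuousLinearMap
    { toFun := fun y => prj f (act A y)
      map_add' := fun y z => by rw [act_add, prj_add]
      map_smul' := fun a y => by rw [act_smul, prj_smul]; rfl }

theorem Phi_apply (A : Matrix (Fin d) (Fin d) ℤ) (f y : Fin d → ℝ) :
    Phi A f y = prj f (act A y) := rfl

/-- the sum of the coordinates -/
noncomputable def Sm : (Fin d → ℝ) →L[ℝ] ℝ :=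
  LinearMap.toContinuousLinearMap
    { toFun := fun y => ∑ i, y i
      map_add' := fun y z => by simp [Finset.sum_add_distrib]
      map_smul' := fun a y => by simp [Finset.mul_sum] }

theorem Sm_apply (y : Fin d → ℝ) : Sm y = ∑ i, y i := rfl

theorem ic_add (u v : Fin d → ℤ) : ic (u + v) = ic u + ic v := by
  funext i
  simp [ic]

/-! ### Contents -/

theorem cnt_succ (w : ℕ → Fin d) (t : ℕ) :
    cnt w 0 (t + 1) = cnt w 0 t + Pi.single (w t) 1 := by
  funext i
  simp only [cnt, Pi.add_apply, Pi.single_apply]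
  rw [Finset.sum_Ico_succ_top (Nat.zero_le t)]
  simp only [eq_comm]

theorem cnt_zero (w : ℕ → Fin d) : cnt w 0 0 = 0 := by
  funext i
  simp [cnt]

theorem count_list (L : List (Fin d)) (a i : Fin d) :
    ∑ t ∈ Finset.range L.length, (if L.getD t a = i then (1:ℤ) else 0) = (L.count i : ℤ) := by
  induction L with
  | nil => simp
  | cons b L ih =>
    rw [List.length_cons, Finset.sum_range_succ', List.count_cons]
    simp only [List.getD_cons_succ, List.getD_cons_zero]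
    rw [ih]
    push_cast
    congr 1
    by_cases h : b = i
    · simp [h]
    · simp [h]

theorem cnt_full (σ : Fin d → List (Fin d)) (a : Fin d) :
    cnt (wd σ a) 0 (σ a).length = fun i => inc σ i a := by
  funext i
  simp only [cnt, wd, inc]
  rw [Nat.Ico_zero_eq_range]
  exact count_list (σ a) a i

theorem act_single (A : Matrix (Fin d) (Fin d) ℤ) (a : Fin d) :
    act A (ic (Pi.single a 1)) = ic (fun i => A i a) := by
  funext i
  simp only [act, ic, Pi.single_apply]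
  rw [Finset.sum_eq_single a]
  · simp
  · intro b _ hb
    simp [hb]
  · simp

/-! ### Uniqueness of the desubstitution -/

theorem des_unique {σ : Fin d → List (Fin d)} {L : ℕ} (hC2 : StC2) (hL : 1 ≤ L)
    (hlen : ∀ j, 2 * L ≤ (σ j).length) (hDist : Dist (ln σ) (wd σ) L)
    {x x1 y1 : ℤ → Fin d} {c e : ℤ → ℤ} (h1 : Des σ x x1 c) (h2 : Des σ x y1 e) :
    x1 = y1 ∧ c = e := by
  have h : ∀ m : ℤ, x1 m = y1 m ∧ c m = e m := by
    intro m
    obtain ⟨B', hB⟩ := hC2 d σ L hL hlen hDist m.natAbs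
    exact hB x x x1 y1 c e h1 h2 (fun _ _ => rfl) m (by simp)
  exact ⟨funext fun m => (h m).1, funext fun m => (h m).2⟩

/-! ### The address map -/

section main

variable (σ : Fin d → List (Fin d)) (f : Fin d → ℝ) (D : (ℤ → Fin d) → (ℤ → Fin d))
  (cc : (ℤ → Fin d) → (ℤ → ℤ))

/-- the prefix content -/
def p0 (x : ℤ → Fin d) : Fin d → ℤ := cnt (wd σ (D x 0)) 0 (-(cc x 0)).toNat

/-- the terms of the series -/
noncomputable def term (j : ℕ) (x : ℤ → Fin d) : Fin d → ℝ :=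
  prj f (act ((inc σ) ^ j) (ic (p0 σ D cc (D^[j] x))))

/-- the address map -/
noncomputable def TT (x : ℤ → Fin d) : Fin d → ℝ := ∑' j, term σ f D cc j x

/-- bound for the prefix contents -/
noncomputable def B0 : ℝ :=
  ∑ a : Fin d, ∑ t ∈ Finset.range ((σ a).length + 1), ‖prj f (ic (cnt (wd σ a) 0 t))‖

theorem B0_nonneg : 0 ≤ B0 σ f := by
  unfold B0
  positivity

variable {σ f D cc}

theorem p0_le (hD : ∀ x ∈ XS σ, D x ∈ XS σ ∧ Des σ x (D x) (cc x)) {x : ℤ → Fin d}
    (hx : x ∈ XS σ) : ‖prj f (ic (p0 σ D cc x))‖ ≤ B0 σ f := by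
  have h := (hD x hx).2
  have h1 := h.zero
  have h2 := h.step 0
  rw [zero_add] at h2
  have h3 : (-(cc x 0)).toNat ∈ Finset.range ((σ (D x 0)).length + 1) := by
    rw [Finset.mem_range]
    omega
  unfold B0
  calc ‖prj f (ic (p0 σ D cc x))‖
      ≤ ∑ t ∈ Finset.range ((σ (D x 0)).length + 1), ‖prj f (ic (cnt (wd σ (D x 0)) 0 t))‖ :=
        Finset.single_le_sum (f := fun t => ‖prj f (ic (cnt (wd σ (D x 0)) 0 t))‖)
          (fun t _ => norm_nonneg _) h3
    _ ≤ _ := Finset.single_le_sum (f := fun a =>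
        ∑ t ∈ Finset.range ((σ a).length + 1), ‖prj f (ic (cnt (wd σ a) 0 t))‖)
          (fun a _ => Finset.sum_nonneg fun t _ => norm_nonneg _) (Finset.mem_univ (D x 0))

theorem iter_mem (hD : ∀ x ∈ XS σ, D x ∈ XS σ ∧ Des σ x (D x) (cc x)) (j : ℕ) {x : ℤ → Fin d}
    (hx : x ∈ XS σ) : D^[j] x ∈ XS σ := by
  induction j generalizing x with
  | zero => exact hx
  | succ j ih =>
    rw [Function.iterate_succ_apply]
    exact ih (hD x hx).1

theorem term_le (hD : ∀ x ∈ XS σ, D x ∈ XS σ ∧ Des σ x (D x) (cc x)) {C θ : ℝ}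
    (hCon : Con (inc σ) f C θ) (j : ℕ) {x : ℤ → Fin d} (hx : x ∈ XS σ) :
    ‖term σ f D cc j x‖ ≤ C * B0 σ f * θ ^ j := by
  obtain ⟨h1, h2, h3, h4⟩ := hCon
  unfold term
  refine (h4 j _).trans ?_
  have h5 := p0_le (f := f) hD (iter_mem hD j hx)
  have h6 : 0 ≤ C * θ ^ j := by positivity
  calc C * θ ^ j * ‖prj f (ic (p0 σ D cc (D^[j] x)))‖ ≤ C * θ ^ j * B0 σ f :=
        mul_le_mul_of_nonneg_left h5 h6
    _ = _ := by ring

theorem summ {C θ : ℝ} (hCon : Con (inc σ) f C θ) :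
    Summable (fun j : ℕ => C * B0 σ f * θ ^ j) := by
  obtain ⟨h1, h2, h3, _⟩ := hCon
  exact (summable_geometric_of_lt_one h2.le h3).mul_left _

theorem term_summ (hD : ∀ x ∈ XS σ, D x ∈ XS σ ∧ Des σ x (D x) (cc x)) {C θ : ℝ}
    (hCon : Con (inc σ) f C θ) {x : ℤ → Fin d} (hx : x ∈ XS σ) :
    Summable (fun j => term σ f D cc j x) :=
  Summable.of_norm_bounded (summ hCon) (fun j => term_le hD hCon j hx)

theorem TT_bdd (hD : ∀ x ∈ XS σ, D x ∈ XS σ ∧ Des σ x (D x) (cc x)) {C θ : ℝ}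
    (hCon : Con (inc σ) f C θ) {x : ℤ → Fin d} (hx : x ∈ XS σ) :
    ‖TT σ f D cc x‖ ≤ ∑' j : ℕ, C * B0 σ f * θ ^ j :=
  tsum_of_norm_bounded (summ hCon).hasSum (fun j => term_le hD hCon j hx)

theorem TT_sum0 (hf : ∑ i, f i = 1)
    (hD : ∀ x ∈ XS σ, D x ∈ XS σ ∧ Des σ x (D x) (cc x)) {C θ : ℝ}
    (hCon : Con (inc σ) f C θ) {x : ℤ → Fin d} (hx : x ∈ XS σ) :
    ∑ i, TT σ f D cc x i = 0 := by
  rw [← Sm_apply]
  unfold TT
  rw [ContinuousLinearMap.map_tsum _ (term_summ hD hCon hx)]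
  have : ∀ j, Sm (term σ f D cc j x) = 0 := fun j => by
    rw [Sm_apply]
    exact prj_sum hf _
  simp [this]

/-- locality of the iterated desubstitution -/
theorem loc {L : ℕ} (hC2 : StC2) (hL : 1 ≤ L)
    (hlen : ∀ j, 2 * L ≤ (σ j).length) (hDist : Dist (ln σ) (wd σ) L)
    (hD : ∀ x ∈ XS σ, D x ∈ XS σ ∧ Des σ x (D x) (cc x)) (j B : ℕ) :
    ∃ B' : ℕ, ∀ x ∈ XS σ, ∀ y ∈ XS σ, (∀ n : ℤ, |n| ≤ B' → x n = y n) →
      ∀ m : ℤ, |m| ≤ B → (D^[j] x) m = (D^[j] y) m := by
  induction j generalizing B with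
  | zero => exact ⟨B, fun x _ y _ h => h⟩
  | succ j ih =>
    obtain ⟨B1, hB1⟩ := hC2 d σ L hL hlen hDist B
    obtain ⟨B', hB'⟩ := ih B1
    refine ⟨B', fun x hx y hy h m hm => ?_⟩
    rw [Function.iterate_succ_apply', Function.iterate_succ_apply']
    exact (hB1 _ _ _ _ _ _ (hD _ (iter_mem hD j hx)).2 (hD _ (iter_mem hD j hy)).2
      (hB' x hx y hy h) m hm).1

theorem loc_p0 {L : ℕ} (hC2 : StC2) (hL : 1 ≤ L)
    (hlen : ∀ j, 2 * L ≤ (σ j).length) (hDist : Dist (ln σ) (wd σ) L)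
    (hD : ∀ x ∈ XS σ, D x ∈ XS σ ∧ Des σ x (D x) (cc x)) (j : ℕ) :
    ∃ B' : ℕ, ∀ x ∈ XS σ, ∀ y ∈ XS σ, (∀ n : ℤ, |n| ≤ B' → x n = y n) →
      p0 σ D cc (D^[j] x) = p0 σ D cc (D^[j] y) := by
  obtain ⟨B1, hB1⟩ := hC2 d σ L hL hlen hDist 0
  obtain ⟨B', hB'⟩ := loc hC2 hL hlen hDist hD j B1
  refine ⟨B', fun x hx y hy h => ?_⟩
  have h1 := hB1 _ _ _ _ _ _ (hD _ (iter_mem hD j hx)).2 (hD _ (iter_mem hD j hy)).2
    (hB' x hx y hy h) 0 (by simp)
  unfold p0
  rw [h1.1, h1.2]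

theorem nhds_window (x : ℤ → Fin d) (B : ℕ) : ∀ᶠ y in 𝓝 x, ∀ n : ℤ, |n| ≤ B → y n = x n := by
  have h1 : ∀ n : ℤ, ∀ᶠ y in 𝓝 x, y n = x n := by
    intro n
    have h2 : Tendsto (fun y : ℤ → Fin d => y n) (𝓝 x) (𝓝 (x n)) :=
      (continuous_apply n).tendsto x
    have h3 : {x n} ∈ 𝓝 (x n) := (isOpen_discrete {x n}).mem_nhds rfl
    exact h2 h3
  have h4 : ∀ᶠ y in 𝓝 x, ∀ n ∈ Finset.Icc (-(B:ℤ)) B, y n = x n := by
    rw [Filter.eventually_all_finset]
    intro n _
    exact h1 n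
  filter_upwards [h4] with y hy n hn
  rw [abs_le] at hn
  exact hy n (Finset.mem_Icc.2 hn)

theorem TT_cont {L : ℕ} (hC2 : StC2) (hL : 1 ≤ L)
    (hlen : ∀ j, 2 * L ≤ (σ j).length) (hDist : Dist (ln σ) (wd σ) L)
    (hD : ∀ x ∈ XS σ, D x ∈ XS σ ∧ Des σ x (D x) (cc x)) {C θ : ℝ}
    (hCon : Con (inc σ) f C θ) : ContinuousOn (TT σ f D cc) (XS σ) := by
  unfold TT
  refine continuousOn_tsum (fun j => ?_) (summ hCon) (fun j x hx => term_le hD hCon j hx)
  intro x hx
  obtain ⟨B', hB'⟩ := loc_p0 hC2 hL hlen hDist hD j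
  have h1 : ∀ᶠ y in 𝓝[XS σ] x, term σ f D cc j y = term σ f D cc j x := by
    filter_upwards [nhdsWithin_le_nhds (nhds_window x B'), self_mem_nhdsWithin] with y hy hyX
    unfold term
    rw [hB' y hyX x hx hy]
  exact ContinuousWithinAt.congr_of_eventuallyEq continuousWithinAt_const h1 rfl

theorem TT_des {L : ℕ} (hC2 : StC2) (hL : 1 ≤ L)
    (hlen : ∀ j, 2 * L ≤ (σ j).length) (hDist : Dist (ln σ) (wd σ) L)
    (hD : ∀ x ∈ XS σ, D x ∈ XS σ ∧ Des σ x (D x) (cc x)) {Lam C θ : ℝ} {l : Fin d → ℝ}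
    (hDat : Dat (inc σ) Lam l f)
    (hCon : Con (inc σ) f C θ) {x x1 : ℤ → Fin d} (hx : x ∈ XS σ) (_hx1 : x1 ∈ XS σ)
    {c : ℤ → ℤ} (h : Des σ x x1 c) :
    TT σ f D cc x = prj f (ic (cnt (wd σ (x1 0)) 0 (-(c 0)).toNat)) +
      prj f (act (inc σ) (TT σ f D cc x1)) := by
  obtain ⟨h1, h2⟩ := des_unique hC2 hL hlen hDist (hD x hx).2 h
  have hs := term_summ hD hCon hx
  have hs1 := term_summ (f := f) hD hCon (hD x hx).1
  unfold TT
  rw [hs.tsum_eq_zero_add]
  congr 1
  · unfold term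
    rw [pow_zero, act_one, Function.iterate_zero_apply]
    unfold p0
    rw [h1, h2]
  · rw [← h1, ← Phi_apply, ContinuousLinearMap.map_tsum _ hs1]
    apply tsum_congr
    intro j
    rw [Phi_apply]
    unfold term
    rw [prj_act_prj hDat, ← act_mul, ← pow_succ', Function.iterate_succ_apply]

theorem TT_shift {L : ℕ} (hC1 : StC1) (hd : 2 ≤ d) (hinc : ∀ i j, 1 ≤ inc σ i j)
    (hC2 : StC2) (hL : 1 ≤ L)
    (hlen : ∀ j, 2 * L ≤ (σ j).length) (hDist : Dist (ln σ) (wd σ) L)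
    (hD : ∀ x ∈ XS σ, D x ∈ XS σ ∧ Des σ x (D x) (cc x)) {Lam C θ : ℝ} {l : Fin d → ℝ}
    (hDat : Dat (inc σ) Lam l f)
    (hCon : Con (inc σ) f C θ) {x : ℤ → Fin d} (hx : x ∈ XS σ) :
    TT σ f D cc (sh x) = TT σ f D cc x + prj f (ic (Pi.single (x 0) 1)) := by
  obtain ⟨_, _, hsh, _, _⟩ := hC1 d hd σ hinc
  obtain ⟨g, hg⟩ : ∃ g : (ℤ → Fin d) → Fin d → ℝ, g = fun x =>
      TT σ f D cc (sh x) - TT σ f D cc x - prj f (ic (Pi.single (x 0) 1)) := ⟨_, rfl⟩
  have hstep : ∀ x ∈ XS σ, g x = 0 ∨ g x = prj f (act (inc σ) (g (D x))) := by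
    intro x hx
    obtain ⟨hx1, hdes⟩ := hD x hx
    obtain ⟨x1, hxe⟩ : ∃ x1, x1 = D x := ⟨_, rfl⟩
    obtain ⟨c, hce⟩ : ∃ c, c = cc x := ⟨_, rfl⟩
    rw [← hxe] at hx1 hdes
    rw [← hce] at hdes
    rw [← hxe]
    have hz := hdes.zero
    have hs0 := hdes.step 0
    rw [zero_add] at hs0
    obtain ⟨t, ht⟩ : ∃ t : ℕ, (t : ℤ) = -(c 0) := ⟨(-(c 0)).toNat, by omega⟩
    have ht' : (-(c 0)).toNat = t := by omega
    have hlt : wd σ (x1 0) t = x 0 := by
      rw [← hdes.letter 0 t (by omega)]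
      congr 1
      omega
    have e1 := TT_des hC2 hL hlen hDist hD hDat hCon hx hx1 hdes
    rw [ht'] at e1
    by_cases hcase : 1 < c 1
    · left
      have hdes2 : Des σ (sh x) x1 (fun m => c m - 1) := by
        refine ⟨fun m => ?_, ?_, fun m s hs => ?_⟩
        · rw [hdes.step m]
          ring
        · constructor
          · omega
          · omega
        · rw [← hdes.letter m s hs]
          unfold sh
          congr 1
          ring
      have e2 := TT_des hC2 hL hlen hDist hD hDat hCon ((hsh x).1 hx) hx1 hdes2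
      have ht2 : (-(c 0 - 1)).toNat = t + 1 := by omega
      simp only [ht2] at e2
      rw [cnt_succ, ic_add, prj_add, hlt] at e2
      rw [hg]
      simp only
      rw [e1, e2]
      abel
    · right
      have hc1 : c 1 = 1 := by omega
      have hdes2 : Des σ (sh x) (sh x1) (fun m => c (m + 1) - 1) := by
        refine ⟨fun m => ?_, ?_, fun m s hs => ?_⟩
        · simp only [sh]
          rw [hdes.step (m + 1)]
          ring
        · have h1 := hdes.step 1
          have h2 := hlen (x1 1)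
          constructor
          · simp only [zero_add]; omega
          · omega
        · have := hdes.letter (m + 1) s hs
          unfold sh
          rw [← this]
          congr 1
          ring
      have e2 := TT_des hC2 hL hlen hDist hD hDat hCon ((hsh x).1 hx) ((hsh x1).1 hx1) hdes2
      have ht2 : (-(c (0 + 1) - 1)).toNat = 0 := by
        rw [zero_add]
        omega
      simp only [ht2] at e2
      have hz0 : prj f (ic (0 : Fin d → ℤ)) = 0 := by
        funext i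
        simp [prj, ic]
      rw [cnt_zero, hz0, zero_add] at e2
      have hfull := cnt_full σ (x1 0)
      have hlen' : (σ (x1 0)).length = t + 1 := by omega
      rw [hlen', cnt_succ, hlt] at hfull
      have e3 : prj f (ic (cnt (wd σ (x1 0)) 0 t)) + prj f (ic (Pi.single (x 0) 1)) =
          prj f (act (inc σ) (prj f (ic (Pi.single (x1 0) 1)))) := by
        rw [← prj_add, ← ic_add, hfull, prj_act_prj hDat, act_single]
      rw [hg]
      simp only
      rw [act_sub, act_sub, prj_sub, prj_sub, ← e3, e2, e1]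
      abel
  have hiter : ∀ n : ℕ, ∀ x ∈ XS σ, g x = 0 ∨ g x = prj f (act ((inc σ) ^ n) (g (D^[n] x))) := by
    intro n
    induction n with
    | zero =>
      intro x hx
      right
      rw [pow_zero, act_one, Function.iterate_zero_apply]
      symm
      apply prj_of_sum
      rw [hg]
      simp only [Pi.sub_apply, Finset.sum_sub_distrib]
      rw [TT_sum0 hDat.fsum hD hCon ((hsh x).1 hx), TT_sum0 hDat.fsum hD hCon hx,
        prj_sum hDat.fsum]
      ring
    | succ n ih =>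
      intro x hx
      rcases hstep x hx with h | h
      · exact Or.inl h
      · rcases ih (D x) (hD x hx).1 with h2 | h2
        · left
          rw [h, h2]
          have : act (inc σ) 0 = 0 := by
            rw [act_eq, Matrix.mulVec_zero]
          rw [this]
          funext i
          simp [prj]
        · right
          rw [h, h2, prj_act_prj hDat, ← act_mul, ← pow_succ', Function.iterate_succ_apply]
  have hbd : ∃ G : ℝ, ∀ x ∈ XS σ, ‖prj f (g x)‖ ≤ G := by
    refine ⟨2 * (∑' j : ℕ, C * B0 σ f * θ ^ j) + ∑ a : Fin d, ‖prj f (ic (Pi.single a 1))‖, ?_⟩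
    intro x hx
    have h0 : prj f (g x) = g x := by
      apply prj_of_sum
      rw [hg]
      simp only [Pi.sub_apply, Finset.sum_sub_distrib]
      rw [TT_sum0 hDat.fsum hD hCon ((hsh x).1 hx), TT_sum0 hDat.fsum hD hCon hx,
        prj_sum hDat.fsum]
      ring
    rw [h0, hg]
    simp only
    have b1 := TT_bdd (f := f) hD hCon ((hsh x).1 hx)
    have b2 := TT_bdd (f := f) hD hCon hx
    have b3 := Finset.single_le_sum (f := fun a : Fin d => ‖prj f (ic (Pi.single a 1))‖)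
      (fun a _ => norm_nonneg _) (Finset.mem_univ (x 0))
    have b4 := norm_sub_le (TT σ f D cc (sh x) - TT σ f D cc x) (prj f (ic (Pi.single (x 0) 1)))
    have b5 := norm_sub_le (TT σ f D cc (sh x)) (TT σ f D cc x)
    linarith
  have hzero : g x = 0 := by
    obtain ⟨G, hG⟩ := hbd
    obtain ⟨h1, h2, h3, h4⟩ := hCon
    by_contra hne
    have h5 : ∀ n : ℕ, ‖g x‖ ≤ C * θ ^ n * G := by
      intro n
      rcases hiter n x hx with h | h
      · exact absurd h hne
      · rw [h]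
        refine (h4 n _).trans ?_
        exact mul_le_mul_of_nonneg_left (hG _ (iter_mem hD n hx)) (by positivity)
    have h6 : Tendsto (fun n : ℕ => C * θ ^ n * G) atTop (𝓝 (C * 0 * G)) :=
      ((tendsto_pow_atTop_nhds_zero_of_lt_one h2.le h3).const_mul C).mul_const G
    rw [mul_zero, zero_mul] at h6
    have h7 : ‖g x‖ ≤ 0 := ge_of_tendsto' h6 h5
    exact hne (norm_le_zero_iff.1 h7)
  rw [hg] at hzero
  simp only at hzero
  have : TT σ f D cc (sh x) = TT σ f D cc (sh x) - TT σ f D cc x -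
      prj f (ic (Pi.single (x 0) 1)) + (TT σ f D cc x + prj f (ic (Pi.single (x 0) 1))) := by
    abel
  rw [this, hzero, zero_add]

end main

end C3

/-- (C3) existence of the address map -/
theorem c3_holds : StC3 := by
  intro hC1 hC2 d hd σ Lam l f C θ L hinc hDat hCon hL hlen hDist
  classical
  obtain ⟨hex, _, _, _, _⟩ := hC1 d hd σ hinc
  have hch : ∀ x : ℤ → Fin d, ∃ p : (ℤ → Fin d) × (ℤ → ℤ), x ∈ XS σ → p.1 ∈ XS σ ∧
      Des σ x p.1 p.2 := by
    intro x
    by_cases hx : x ∈ XS σ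
    · obtain ⟨x1, hx1, c, hc⟩ := hex x hx
      exact ⟨(x1, c), fun _ => ⟨hx1, hc⟩⟩
    · exact ⟨(x, fun m => m), fun h => absurd h hx⟩
  choose P hP using hch
  have hD : ∀ x ∈ XS σ, (fun x => (P x).1) x ∈ XS σ ∧
      Des σ x ((fun x => (P x).1) x) ((fun x => (P x).2) x) := hP
  refine ⟨C3.TT σ f (fun x => (P x).1) (fun x => (P x).2), ?_⟩
  exact
    { cont := C3.TT_cont hC2 hL hlen hDist hD hCon
      shift := fun x hx => C3.TT_shift hC1 hd hinc hC2 hL hlen hDist hD hDat hCon hx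
      des := fun x hx x1 hx1 c h => C3.TT_des hC2 hL hlen hDist hD hDat hCon hx hx1 h
      sum0 := fun x hx => C3.TT_sum0 hDat.fsum hD hCon hx
      bdd := ⟨_, fun x hx => C3.TT_bdd hD hCon hx⟩ }

end Pool.Agent.H811R3.PS
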