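import Pool.Agent.H811R3.PS.Defs3

set_option autoImplicit false

open Finset MeasureTheory Filter

namespace Pool.Agent.H811R3.PS

namespace TC4

lemma act_eq {d : ℕ} (A : Matrix (Fin d) (Fin d) ℤ) (y : Fin d → ℝ) :
    act A y = (A.map (Int.castRingHom ℝ)).mulVec y := by
  funext i
  simp [act, Matrix.mulVec, dotProduct]

lemma ic_mulVec {d : ℕ} (A : Matrix (Fin d) (Fin d) ℤ) (z : Fin d → ℤ) :
    ic (A.mulVec z) = act A (ic z) := by
  funext i
  simp [act, ic, Matrix.mulVec, dotProduct]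

lemma act_sub {d : ℕ} (A : Matrix (Fin d) (Fin d) ℤ) (y z : Fin d → ℝ) :
    act A (y - z) = act A y - act A z := by
  rw [act_eq, act_eq, act_eq, Matrix.mulVec_sub]

lemma prj_sub {d : ℕ} (f y z : Fin d → ℝ) : prj f (y - z) = prj f y - prj f z := by
  funext i
  simp only [prj, Pi.sub_apply, Finset.sum_sub_distrib]
  ring

lemma prj_zero_sum {d : ℕ} (f y : Fin d → ℝ) (h : ∑ i, y i = 0) : prj f y = y := by
  funext i
  simp [prj, h]

end TC4

open TC4

theorem c4_holds : StC4 := by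
  intro n A Lam l f C θ hD hC hU y
  rw [Metric.dense_iff]
  intro y' ε hε
  obtain ⟨hC0, hθ0, hθ1, hcon⟩ := hC
  -- the lift
  have hlift : ∀ i, ∃ δ : ℝ, (δ : UnitAddCircle) = (y' - y) i := fun i =>
    QuotientAddGroup.mk_surjective _
  choose δ hδ using hlift
  set Y : Fin (n + 1) → ℝ := Fin.snoc δ (-∑ i, δ i) with hY
  have hYs : ∑ i, Y i = 0 := by
    rw [Fin.sum_univ_castSucc]
    simp [hY]
  -- small power
  obtain ⟨K, hK⟩ : ∃ K : ℕ, C * θ ^ K * ((n : ℝ) + 2) < ε := by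
    have : Tendsto (fun K : ℕ => C * θ ^ K * ((n : ℝ) + 2)) atTop (nhds (C * 0 * ((n : ℝ) + 2))) :=
      ((tendsto_pow_atTop_nhds_zero_of_lt_one hθ0.le hθ1).const_mul C).mul_const _
    simp only [mul_zero, zero_mul] at this
    exact ((this.eventually_lt_const hε)).exists
  -- invertibility
  set B : Matrix (Fin (n + 1)) (Fin (n + 1)) ℤ := A ^ K with hB
  have hdet : IsUnit (B.map (Int.castRingHom ℝ)).det := by
    have h1 : IsUnit B.det := by rw [hB, Matrix.det_pow]; exact hU.pow K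
    have h2 : (B.map (Int.castRingHom ℝ)).det = Int.castRingHom ℝ B.det := by
      rw [RingHom.map_det]; rfl
    rw [h2]
    exact h1.map _
  obtain ⟨x, hx⟩ : ∃ x : Fin (n + 1) → ℝ, act B x = Y := by
    refine ⟨(B.map (Int.castRingHom ℝ))⁻¹.mulVec Y, ?_⟩
    rw [act_eq, Matrix.mulVec_mulVec, Matrix.mul_nonsing_inv _ hdet, Matrix.one_mulVec]
  set z0 : Fin (n + 1) → ℤ := fun i => ⌊x i⌋ with hz0
  set z : Fin (n + 1) → ℤ := B.mulVec z0 with hz
  set r : Fin (n + 1) → ℝ := fun i => Int.fract (x i) with hr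
  have hxr : ic z0 = x - r := by
    funext i
    simp only [ic, hz0, Pi.sub_apply, hr, Int.fract]
    ring
  have hzY : prj f (ic z) = Y - prj f (act B r) := by
    rw [hz, ic_mulVec, hxr, act_sub, prj_sub, hx, prj_zero_sum f Y hYs]
  have hf1 : ∀ i, f i ≤ 1 := by
    intro i
    rw [← hD.fsum]
    exact Finset.single_le_sum (fun j _ => (hD.fpos j).le) (Finset.mem_univ i)
  have hrn : ‖prj f r‖ ≤ (n : ℝ) + 2 := by
    rw [pi_norm_le_iff_of_nonneg (by positivity)]
    intro i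
    simp only [prj]
    have h1 : 0 ≤ r i := Int.fract_nonneg _
    have h2 : r i < 1 := Int.fract_lt_one _
    have h3 : 0 ≤ ∑ j, r j := Finset.sum_nonneg fun j _ => Int.fract_nonneg _
    have h4 : ∑ j, r j ≤ (n : ℝ) + 1 := by
      have : ∑ j, r j ≤ ∑ _j : Fin (n + 1), (1 : ℝ) :=
        Finset.sum_le_sum fun j _ => (Int.fract_lt_one _).le
      simpa using this
    have h5 := hD.fpos i
    have h6 := hf1 i
    rw [Real.norm_eq_abs, abs_le]
    constructor
    · nlinarith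
    · nlinarith
  have hsm : ‖prj f (act B r)‖ < ε := by
    calc ‖prj f (act B r)‖ ≤ C * θ ^ K * ‖prj f r‖ := hcon K r
      _ ≤ C * θ ^ K * ((n : ℝ) + 2) := by gcongr
      _ < ε := hK
  set k : ℤ := ∑ i, z i with hk
  refine ⟨y + k • (fun i : Fin n => ((-(f i.castSucc) : ℝ) : UnitAddCircle)), ?_, ⟨k, rfl⟩⟩
  rw [Metric.mem_ball, dist_pi_lt_iff hε]
  intro i
  rw [dist_eq_norm]
  have hkey : (y + k • (fun i : Fin n => ((-(f i.castSucc) : ℝ) : UnitAddCircle))) i - y' i =
      (((-(prj f (act B r) i.castSucc)) : ℝ) : UnitAddCircle) := by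
    have e1 : (ic z) i.castSucc - (∑ j, (ic z) j) * f i.castSucc =
        δ i - prj f (act B r) i.castSucc := by
      have := congrFun hzY i.castSucc
      simp only [Pi.sub_apply] at this
      rw [hY, Fin.snoc_castSucc] at this
      exact this
    have e2 : (∑ j, (ic z) j) = (k : ℝ) := by
      rw [hk]; push_cast; rfl
    rw [e2] at e1
    have e3 : (-(prj f (act B r) i.castSucc) : ℝ) = (z i.castSucc : ℝ) + (k : ℝ) * (-(f i.castSucc)) - δ i := by
      have : (ic z) i.castSucc = (z i.castSucc : ℝ) := rfl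
      rw [this] at e1
      linarith
    rw [e3, AddCircle.coe_sub, AddCircle.coe_add, hδ i]
    have e4 : ((z i.castSucc : ℝ) : UnitAddCircle) = 0 := by
      rw [AddCircle.coe_eq_zero_iff]
      exact ⟨z i.castSucc, by simp⟩
    have e5 : (((k : ℝ) * (-(f i.castSucc)) : ℝ) : UnitAddCircle) =
        k • ((-(f i.castSucc) : ℝ) : UnitAddCircle) := by
      rw [← AddCircle.coe_zsmul, zsmul_eq_mul]
    rw [e4, e5]
    simp only [Pi.add_apply, Pi.smul_apply, Pi.sub_apply]
    abel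
  rw [hkey]
  calc ‖(((-(prj f (act B r) i.castSucc)) : ℝ) : UnitAddCircle)‖
      ≤ ‖(-(prj f (act B r) i.castSucc) : ℝ)‖ := QuotientAddGroup.norm_mk_le_norm
    _ = ‖prj f (act B r) i.castSucc‖ := norm_neg _
    _ ≤ ‖prj f (act B r)‖ := norm_le_pi_norm _ _
    _ < ε := hsm

end Pool.Agent.H811R3.PS
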