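import Pool.Agent.H811R3.PS.Defs3

set_option autoImplicit false

open Finset MeasureTheory Filter

namespace Pool.Agent.H811R3.PS

/-! ### additivity of intersection lengths -/

/-- length of the intersection of two intervals -/
noncomputable def C5ov (a b c e : ℝ) : ℝ := max 0 (min b e - max a c)

lemma C5ov_nonneg (a b c e : ℝ) : 0 ≤ C5ov a b c e := le_max_left _ _

lemma C5ov_comm (a b c e : ℝ) : C5ov a b c e = C5ov c e a b := by
  unfold C5ov
  rw [min_comm b e, max_comm a c]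

lemma C5ov_self (a c e : ℝ) : C5ov a a c e = 0 := by
  unfold C5ov
  apply max_eq_left
  have h1 := min_le_left a e
  have h2 := le_max_left a c
  linarith

lemma C5ov_add {a b b' c e : ℝ} (h1 : a ≤ b) (h2 : b ≤ b') (h3 : c ≤ e) :
    C5ov a b c e + C5ov b b' c e = C5ov a b' c e := by
  unfold C5ov
  rcases le_total b e with hbe | hbe <;> rcases le_total b' e with hbe' | hbe' <;>
  rcases le_total a c with hac | hac <;> rcases le_total b c with hbc | hbc <;>
  simp only [min_eq_left, min_eq_right, max_eq_left, max_eq_right, hbe, hbe', hac, hbc] <;>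
  (try (rcases le_total b' c with hb'c | hb'c)) <;>
  (try (rcases le_total a e with hae | hae)) <;>
  simp only [max_def] <;> split_ifs <;> linarith

lemma C5ov_sum {X : ℕ → ℝ} (hX : Monotone X) {c e : ℝ} (h : c ≤ e) (n : ℕ) :
    ∑ t ∈ range n, C5ov (X t) (X (t + 1)) c e = C5ov (X 0) (X n) c e := by
  induction n with
  | zero => simp [C5ov_self]
  | succ n ih =>
    rw [Finset.sum_range_succ, ih]
    exact C5ov_add (hX (Nat.zero_le n)) (hX (Nat.le_succ n)) h

lemma C5ov_sum2 {X Z : ℕ → ℝ} (hX : Monotone X) (hZ : Monotone Z) (n m : ℕ) :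
    ∑ t ∈ range n, ∑ t' ∈ range m, C5ov (X t) (X (t + 1)) (Z t') (Z (t' + 1)) =
      C5ov (X 0) (X n) (Z 0) (Z m) := by
  have h1 : ∀ t ∈ range n, ∑ t' ∈ range m, C5ov (X t) (X (t + 1)) (Z t') (Z (t' + 1)) =
      C5ov (X t) (X (t + 1)) (Z 0) (Z m) := by
    intro t _
    have h2 : ∀ t' ∈ range m, C5ov (X t) (X (t + 1)) (Z t') (Z (t' + 1)) =
        C5ov (Z t') (Z (t' + 1)) (X t) (X (t + 1)) := fun t' _ => C5ov_comm _ _ _ _
    rw [Finset.sum_congr rfl h2, C5ov_sum hZ (hX (Nat.le_succ t)), C5ov_comm]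
  rw [Finset.sum_congr rfl h1, C5ov_sum hX (hZ (Nat.zero_le m))]

/-! ### linear facts -/

lemma C5dot_add {d : ℕ} (l : Fin d → ℝ) (u v : Fin d → ℤ) :
    dot l (ic (u + v)) = dot l (ic u) + dot l (ic v) := by
  simp only [dot, ic, Pi.add_apply, Int.cast_add, mul_add, Finset.sum_add_distrib]

lemma C5dot_sub {d : ℕ} (l : Fin d → ℝ) (u v : Fin d → ℤ) :
    dot l (ic (u - v)) = dot l (ic u) - dot l (ic v) := by
  simp only [dot, ic, Pi.sub_apply, Int.cast_sub, mul_sub, Finset.sum_sub_distrib]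

lemma C5dot_zero {d : ℕ} (l : Fin d → ℝ) : dot l (ic (0 : Fin d → ℤ)) = 0 := by
  simp [dot, ic]

lemma C5dot_mulVec {d : ℕ} {A : Matrix (Fin d) (Fin d) ℤ} {Lam : ℝ} {l f : Fin d → ℝ}
    (D : Dat A Lam l f) (v : Fin d → ℤ) : dot l (ic (A.mulVec v)) = Lam * dot l (ic v) := by
  simp only [dot, ic, Matrix.mulVec, dotProduct, Int.cast_sum, Int.cast_mul, Finset.mul_sum]
  rw [Finset.sum_comm]
  refine Finset.sum_congr rfl fun j _ => ?_
  have h := D.left j
  have h2 : ∑ i, l i * ((A i j : ℝ) * (v j : ℝ)) = (∑ i, l i * (A i j : ℝ)) * (v j : ℝ) := by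
    rw [Finset.sum_mul]
    exact Finset.sum_congr rfl fun i _ => by ring
  rw [h2, h]
  ring

lemma C5cnt_zero {d : ℕ} (w : ℕ → Fin d) : cnt w 0 0 = 0 := by
  funext i
  simp [cnt]

lemma C5cnt_succ {d : ℕ} (l : Fin d → ℝ) (w : ℕ → Fin d) (t : ℕ) :
    dot l (ic (cnt w 0 (t + 1))) = dot l (ic (cnt w 0 t)) + l (w t) := by
  have h : cnt w 0 (t + 1) = cnt w 0 t + Pi.single (w t) 1 := by
    funext i
    simp only [cnt, Pi.add_apply]
    rw [Finset.sum_Ico_succ_top (Nat.zero_le t)]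
    congr 1
    by_cases hi : w t = i
    · subst hi; simp
    · rw [if_neg hi, Pi.single_eq_of_ne (Ne.symm hi)]
  rw [h, C5dot_add]
  congr 1
  simp only [dot, ic]
  rw [Finset.sum_eq_single (w t)]
  · simp
  · intro b _ hb
    rw [Pi.single_eq_of_ne hb]; simp
  · simp

section
variable {d : ℕ} {A : Matrix (Fin d) (Fin d) ℤ} {Lam : ℝ} {l f : Fin d → ℝ} {N : Fin d → ℕ}
  {W : Fin d → ℕ → Fin d}

/-- the positive part of the overlap length -/
noncomputable def C5lp (l : Fin d → ℝ) (i j : Fin d) (v : Fin d → ℤ) : ℝ := max 0 (len l i j v)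

lemma C5lp_nonneg (l : Fin d → ℝ) (i j : Fin d) (v : Fin d → ℤ) : 0 ≤ C5lp l i j v :=
  le_max_left _ _

lemma C5mono (hl : ∀ i, 0 < l i) (w : ℕ → Fin d) (x : ℝ) :
    Monotone fun t => x + dot l (ic (cnt w 0 t)) := by
  apply monotone_nat_of_le_succ
  intro t
  rw [C5cnt_succ]
  have := hl (w t)
  linarith

lemma C5child (i j : Fin d) (v : Fin d → ℤ) (t t' : ℕ) :
    len l (W i t) (W j t') (chv A W i j v t t') =
      min (dot l (ic (A.mulVec v)) + dot l (ic (cnt (W i) 0 (t + 1))))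
          (0 + dot l (ic (cnt (W j) 0 (t' + 1)))) -
        max (dot l (ic (A.mulVec v)) + dot l (ic (cnt (W i) 0 t)))
          (0 + dot l (ic (cnt (W j) 0 t'))) := by
  unfold len chv
  rw [C5dot_sub, C5dot_add, C5cnt_succ, C5cnt_succ]
  set a := dot l (ic (A.mulVec v))
  set b := dot l (ic (cnt (W i) 0 t))
  set c := dot l (ic (cnt (W j) 0 t'))
  have h1 : min (a + (b + l (W i t))) (0 + (c + l (W j t'))) =
      min (a + b - c + l (W i t)) (l (W j t')) + c := by
    rw [← min_add_add_right]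
    congr 1
    · ring
    · ring
  have h2 : max (a + b) (0 + c) = max (a + b - c) 0 + c := by
    rw [← max_add_add_right]
    congr 1 <;> ring
  rw [h1, h2]
  ring

lemma C5exact (D : Dat A Lam l f) (E : Exact A N W) (i : Fin d) :
    dot l (ic (cnt (W i) 0 (N i))) = Lam * l i := by
  rw [E i, ← D.left i]
  rfl

lemma C5add (D : Dat A Lam l f) (E : Exact A N W) (i j : Fin d) (v : Fin d → ℤ) :
    ∑ t ∈ range (N i), ∑ t' ∈ range (N j), C5lp l (W i t) (W j t') (chv A W i j v t t') =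
      Lam * C5lp l i j v := by
  have h := C5ov_sum2 (C5mono D.lpos (W i) (dot l (ic (A.mulVec v)))) (C5mono D.lpos (W j) 0)
    (N i) (N j)
  refine Eq.trans (Eq.trans (Finset.sum_congr rfl fun t _ => Finset.sum_congr rfl fun t' _ => ?_) h) ?_
  · unfold C5lp C5ov
    rw [C5child]
  unfold C5ov C5lp len
  simp only [C5cnt_zero, C5dot_zero, add_zero, zero_add, C5exact D E, C5dot_mulVec D]
  have hL : 0 ≤ Lam := by linarith [D.one_lt]
  rw [mul_max_of_nonneg _ _ hL, mul_zero, mul_sub, mul_min_of_nonneg _ _ hL,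
    mul_max_of_nonneg _ _ hL, mul_zero, mul_add]

/-- children of disjoint tiles are disjoint -/
lemma C5child_nonpos (D : Dat A Lam l f) (E : Exact A N W) {i j : Fin d} {v : Fin d → ℤ}
    (h : len l i j v ≤ 0) {t t' : ℕ} (ht : t < N i) (ht' : t' < N j) :
    len l (W i t) (W j t') (chv A W i j v t t') ≤ 0 := by
  have h1 := C5add D E i j v
  have h2 : C5lp l i j v = 0 := max_eq_left h
  rw [h2, mul_zero] at h1
  have h3 := (Finset.sum_eq_zero_iff_of_nonneg (fun t _ => Finset.sum_nonneg fun t' _ =>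
    C5lp_nonneg l _ _ _)).1 h1 t (Finset.mem_range.2 ht)
  have h4 := (Finset.sum_eq_zero_iff_of_nonneg (fun t' _ =>
    C5lp_nonneg l _ _ _)).1 h3 t' (Finset.mem_range.2 ht')
  unfold C5lp at h4
  exact max_eq_left_iff.1 h4

lemma C5b (D : Dat A Lam l f) (E : Exact A N W) : ∀ (K : ℕ) (i j : Fin d) (v : Fin d → ℤ),
    len l i j v ≤ 0 → FK A l N W K i j v = 0
  | 0, i, j, v, h => by
    rw [FK]
    split_ifs
    · rfl
    · exact max_eq_left h
  | K + 1, i, j, v, h => by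
    rw [FK]
    refine Finset.sum_eq_zero fun t ht => Finset.sum_eq_zero fun t' ht' => ?_
    exact C5b D E K _ _ _ (C5child_nonpos D E h (Finset.mem_range.1 ht) (Finset.mem_range.1 ht'))

lemma C5c (D : Dat A Lam l f) (E : Exact A N W) : ∀ (K : ℕ) (c : Fin d),
    FK A l N W K c c 0 = 0
  | 0, c => by simp [FK]
  | K + 1, c => by
    rw [FK]
    refine Finset.sum_eq_zero fun t ht => Finset.sum_eq_zero fun t' ht' => ?_
    by_cases h : t = t'
    · subst h
      have h1 : chv A W c c 0 t t = 0 := by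
        unfold chv
        rw [Matrix.mulVec_zero, zero_add, sub_self]
      rw [h1]
      exact C5c D E K _
    · apply C5b D E
      rw [C5child, Matrix.mulVec_zero, C5dot_zero]
      have hm := C5mono D.lpos (W c) 0
      rcases lt_or_gt_of_ne h with h | h
      · have h1 := hm (show t + 1 ≤ t' from h)
        simp only at h1
        have h2 := min_le_left (0 + dot l (ic (cnt (W c) 0 (t + 1))))
          (0 + dot l (ic (cnt (W c) 0 (t' + 1))))
        have h3 := le_max_right (0 + dot l (ic (cnt (W c) 0 t))) (0 + dot l (ic (cnt (W c) 0 t')))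
        linarith
      · have h1 := hm (show t' + 1 ≤ t from h)
        simp only at h1
        have h2 := min_le_right (0 + dot l (ic (cnt (W c) 0 (t + 1))))
          (0 + dot l (ic (cnt (W c) 0 (t' + 1))))
        have h3 := le_max_left (0 + dot l (ic (cnt (W c) 0 t))) (0 + dot l (ic (cnt (W c) 0 t')))
        linarith

lemma C5nonneg : ∀ (K : ℕ) (i j : Fin d) (v : Fin d → ℤ), 0 ≤ FK A l N W K i j v
  | 0, i, j, v => by
    rw [FK]
    split_ifs
    · exact le_refl _
    · exact le_max_left _ _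
  | K + 1, i, j, v => by
    rw [FK]
    exact Finset.sum_nonneg fun t _ => Finset.sum_nonneg fun t' _ => C5nonneg K _ _ _

lemma C5FK0_le (i j : Fin d) (v : Fin d → ℤ) : FK A l N W 0 i j v ≤ C5lp l i j v := by
  rw [FK]
  split_ifs
  · exact C5lp_nonneg _ _ _ _
  · exact le_refl _

lemma C5FK0_eq {i j : Fin d} {v : Fin d → ℤ} (h : ¬ (i = j ∧ v = 0)) :
    FK A l N W 0 i j v = C5lp l i j v := by
  rw [FK, if_neg h]
  rfl

lemma C5step (D : Dat A Lam l f) (E : Exact A N W) : ∀ (K : ℕ) (i j : Fin d) (v : Fin d → ℤ),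
    FK A l N W (K + 1) i j v ≤ Lam * FK A l N W K i j v
  | 0, i, j, v => by
    by_cases h : i = j ∧ v = 0
    · obtain ⟨rfl, rfl⟩ := h
      rw [C5c D E, C5c D E, mul_zero]
    · rw [C5FK0_eq h, ← C5add D E, FK]
      exact Finset.sum_le_sum fun t _ => Finset.sum_le_sum fun t' _ => C5FK0_le _ _ _
  | K + 1, i, j, v => by
    rw [FK, FK, Finset.mul_sum]
    refine Finset.sum_le_sum fun t _ => ?_
    rw [Finset.mul_sum]
    exact Finset.sum_le_sum fun t' _ => C5step D E K _ _ _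

lemma C5steps (D : Dat A Lam l f) (E : Exact A N W) (K r : ℕ) (i j : Fin d) (v : Fin d → ℤ) :
    FK A l N W (K + r) i j v ≤ Lam ^ r * FK A l N W K i j v := by
  induction r with
  | zero => simp
  | succ r ih =>
    have hL : 0 ≤ Lam := by linarith [D.one_lt]
    calc FK A l N W (K + (r + 1)) i j v ≤ Lam * FK A l N W (K + r) i j v := C5step D E _ _ _ _
      _ ≤ Lam * (Lam ^ r * FK A l N W K i j v) := mul_le_mul_of_nonneg_left ih hL
      _ = Lam ^ (r + 1) * FK A l N W K i j v := by ring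

lemma C5le (D : Dat A Lam l f) (E : Exact A N W) (K : ℕ) (i j : Fin d) (v : Fin d → ℤ) :
    FK A l N W K i j v ≤ Lam ^ K * C5lp l i j v := by
  have h := C5steps D E 0 K i j v
  rw [zero_add] at h
  have hL : 0 ≤ Lam := by linarith [D.one_lt]
  exact h.trans (mul_le_mul_of_nonneg_left (C5FK0_le _ _ _) (pow_nonneg hL _))

/-- strict loss along a chain leading to a coincidence -/
lemma C5strict (D : Dat A Lam l f) (E : Exact A N W) (c : Fin d)
    (o : Fin d × Fin d × (Fin d → ℤ)) (h : Relation.ReflTransGen (Step A l N W) o (c, c, 0)) :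
    ∃ n, FK A l N W n o.1 o.2.1 o.2.2 < Lam ^ n * C5lp l o.1 o.2.1 o.2.2 := by
  induction h using Relation.ReflTransGen.head_induction_on with
  | refl =>
    refine ⟨0, ?_⟩
    simp only [C5c D E, pow_zero, one_mul]
    unfold C5lp len
    rw [C5dot_zero]
    simp [D.lpos c]
  | head hs _ ih =>
    rename_i a b
    obtain ⟨n, hn⟩ := ih
    obtain ⟨t, ht, t', ht', rfl, hpos⟩ := hs
    refine ⟨n + 1, ?_⟩
    have hL : 0 ≤ Lam := by linarith [D.one_lt]
    rw [FK, pow_succ, mul_assoc, ← C5add D E, Finset.mul_sum]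
    refine Finset.sum_lt_sum (fun s _ => ?_) ⟨t, Finset.mem_range.2 ht, ?_⟩
    · rw [Finset.mul_sum]
      exact Finset.sum_le_sum fun s' _ => C5le D E n _ _ _
    · rw [Finset.mul_sum]
      refine Finset.sum_lt_sum (fun s' _ => C5le D E n _ _ _) ⟨t', Finset.mem_range.2 ht', ?_⟩
      exact hn


lemma C5sl (hl : ∀ i, 0 < l i) (i : Fin d) : l i ≤ sl l :=
  Finset.single_le_sum (fun j _ => (hl j).le) (Finset.mem_univ i)

lemma C5lp_le (hl : ∀ i, 0 < l i) (i j : Fin d) (v : Fin d → ℤ) : C5lp l i j v ≤ sl l := by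
  unfold C5lp len
  apply max_le ((hl i).le.trans (C5sl hl i))
  have h1 := min_le_right (dot l (ic v) + l i) (l j)
  have h2 := le_max_right (dot l (ic v)) 0
  have h3 := C5sl hl j
  linarith

lemma C5dot_le (hl : ∀ i, 0 < l i) (y : Fin d → ℝ) : |dot l y| ≤ sl l * ‖y‖ := by
  unfold dot sl
  rw [Finset.sum_mul]
  refine (Finset.abs_sum_le_sum_abs _ _).trans (Finset.sum_le_sum fun i _ => ?_)
  rw [abs_mul, abs_of_pos (hl i)]
  exact mul_le_mul_of_nonneg_left (by simpa using norm_le_pi_norm y i) (hl i).le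

lemma C5fin (D : Dat A Lam l f) (R : ℝ) :
    {o : Fin d × Fin d × (Fin d → ℤ) | 0 < len l o.1 o.2.1 o.2.2 ∧
      ‖prj f (ic o.2.2)‖ ≤ R}.Finite := by
  set B : ℝ := R + (sl l + sl l * R) with hB
  have hbox : ({v : Fin d → ℤ | ∀ i, |(v i : ℝ)| ≤ B}).Finite := by
    refine Set.Finite.subset (Set.finite_Icc (fun _ : Fin d => -⌈B⌉) (fun _ => ⌈B⌉)) fun v hv => ?_
    have h2 : B ≤ ⌈B⌉ := Int.le_ceil B
    rw [Set.mem_Icc]
    constructor
    · intro i
      have h1 := (abs_le.1 (hv i)).1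
      have h3 : -(⌈B⌉ : ℝ) ≤ v i := by linarith
      exact_mod_cast h3
    · intro i
      have h1 := (abs_le.1 (hv i)).2
      have h3 : (v i : ℝ) ≤ ⌈B⌉ := by linarith
      exact_mod_cast h3
  refine Set.Finite.subset (Set.finite_univ.prod (Set.finite_univ.prod hbox)) fun o ho => ?_
  obtain ⟨i, j, v⟩ := o
  obtain ⟨h1, h2⟩ := ho
  refine ⟨Set.mem_univ _, Set.mem_univ _, fun a => ?_⟩
  simp only at h1 h2 ⊢
  set S : ℝ := ∑ b, ic v b with hS
  have hp : ∀ b, prj f (ic v) b = (v b : ℝ) - S * f b := fun b => rfl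
  have hdot : dot l (ic v) = dot l (prj f (ic v)) + S := by
    have h3 : dot l (prj f (ic v)) = dot l (ic v) - S * dot l f := by
      unfold dot
      simp only [hp, mul_sub, Finset.sum_sub_distrib, Finset.mul_sum]
      congr 1
      exact Finset.sum_congr rfl fun b _ => by ring
    rw [h3, D.lf]
    ring
  have hx : |dot l (ic v)| ≤ sl l := by
    unfold len at h1
    have h3 := min_le_left (dot l (ic v) + l i) (l j)
    have h4 := min_le_right (dot l (ic v) + l i) (l j)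
    have h5 := le_max_left (dot l (ic v)) 0
    have h6 := le_max_right (dot l (ic v)) 0
    have h7 := C5sl D.lpos i
    have h8 := C5sl D.lpos j
    rw [abs_le]
    constructor <;> linarith
  have hsl : 0 ≤ sl l := (D.lpos a).le.trans (C5sl D.lpos a)
  have hS1 : |S| ≤ sl l + sl l * R := by
    have h3 : S = dot l (ic v) - dot l (prj f (ic v)) := by rw [hdot]; ring
    rw [h3]
    refine (abs_sub _ _).trans (add_le_add hx ?_)
    exact (C5dot_le D.lpos _).trans (mul_le_mul_of_nonneg_left h2 hsl)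
  have hf1 : f a ≤ 1 := by
    rw [← D.fsum]
    exact Finset.single_le_sum (fun b _ => (D.fpos b).le) (Finset.mem_univ a)
  have h9 : |prj f (ic v) a| ≤ R := by
    have := norm_le_pi_norm (prj f (ic v)) a
    rw [Real.norm_eq_abs] at this
    linarith
  have h10 : (v a : ℝ) = prj f (ic v) a + S * f a := by rw [hp]; ring
  rw [h10]
  refine (abs_add_le _ _).trans (add_le_add h9 ?_)
  rw [abs_mul, abs_of_pos (D.fpos a)]
  have h11 : |S| * f a ≤ |S| * 1 := mul_le_mul_of_nonneg_left hf1 (abs_nonneg _)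
  linarith

/-- uniform loss after `n0` steps -/
lemma C5unif (D : Dat A Lam l f) (E : Exact A N W) {R : ℝ} (hC : Coin A l f N W R) :
    ∃ n0 : ℕ, 1 ≤ n0 ∧ ∃ θ0 : ℝ, 0 < θ0 ∧ θ0 < Lam ^ n0 ∧ ∀ (i j : Fin d) (v : Fin d → ℤ),
      ‖prj f (ic v)‖ ≤ R → FK A l N W n0 i j v ≤ θ0 * C5lp l i j v := by
  classical
  have hL : 0 < Lam := by linarith [D.one_lt]
  have hfin := C5fin (A := A) (Lam := Lam) D R
  set F := hfin.toFinset with hF
  have hmemF : ∀ o, o ∈ F ↔ 0 < len l o.1 o.2.1 o.2.2 ∧ ‖prj f (ic o.2.2)‖ ≤ R := by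
    intro o
    rw [hF, Set.Finite.mem_toFinset]
    rfl
  have hex : ∀ o : Fin d × Fin d × (Fin d → ℤ), ∃ n, o ∈ F →
      FK A l N W n o.1 o.2.1 o.2.2 < Lam ^ n * C5lp l o.1 o.2.1 o.2.2 := by
    intro o
    by_cases ho : o ∈ F
    · obtain ⟨h1, h2⟩ := (hmemF o).1 ho
      obtain ⟨c, hc⟩ := hC o.1 o.2.1 o.2.2 h1 h2
      obtain ⟨n, hn⟩ := C5strict D E c o hc
      exact ⟨n, fun _ => hn⟩
    · exact ⟨0, fun h => absurd h ho⟩
  choose n hn using hex
  set n0 := F.sup n + 1 with hn0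
  have hlt : ∀ o ∈ F, FK A l N W n0 o.1 o.2.1 o.2.2 < Lam ^ n0 * C5lp l o.1 o.2.1 o.2.2 := by
    intro o ho
    have h1 : n o ≤ n0 := (Finset.le_sup (f := n) ho).trans (Nat.le_succ _)
    obtain ⟨r, hr⟩ := Nat.exists_eq_add_of_le h1
    rw [hr]
    have h2 := C5steps (W := W) D E (n o) r o.1 o.2.1 o.2.2
    have h3 := mul_lt_mul_of_pos_left (hn o ho) (pow_pos hL r)
    calc FK A l N W (n o + r) o.1 o.2.1 o.2.2 ≤ _ := h2
      _ < _ := h3
      _ = Lam ^ (n o + r) * C5lp l o.1 o.2.1 o.2.2 := by rw [pow_add]; ring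
  set ρ : Fin d × Fin d × (Fin d → ℤ) → ℝ := fun o =>
    FK A l N W n0 o.1 o.2.1 o.2.2 / C5lp l o.1 o.2.1 o.2.2 with hρ
  set G : Finset ℝ := insert (Lam ^ n0 / 2) (F.image ρ) with hG
  have hGne : G.Nonempty := ⟨_, Finset.mem_insert_self _ _⟩
  have hlp : ∀ o ∈ F, 0 < C5lp l o.1 o.2.1 o.2.2 := by
    intro o ho
    exact lt_of_lt_of_le ((hmemF o).1 ho).1 (le_max_right _ _)
  refine ⟨n0, by omega, G.max' hGne, ?_, ?_, ?_⟩
  · have h1 : Lam ^ n0 / 2 ≤ G.max' hGne := Finset.le_max' _ _ (Finset.mem_insert_self _ _)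
    have h2 := pow_pos hL n0
    linarith
  · rw [Finset.max'_lt_iff]
    intro y hy
    rw [hG, Finset.mem_insert, Finset.mem_image] at hy
    rcases hy with rfl | ⟨o, ho, rfl⟩
    · have h2 := pow_pos hL n0
      linarith
    · rw [hρ]
      simp only
      rw [div_lt_iff₀ (hlp o ho)]
      exact hlt o ho
  · intro i j v hv
    by_cases h : 0 < len l i j v
    · have ho : (i, j, v) ∈ F := (hmemF _).2 ⟨h, hv⟩
      have h1 : ρ (i, j, v) ≤ G.max' hGne :=
        Finset.le_max' _ _ (Finset.mem_insert_of_mem (Finset.mem_image_of_mem _ ho))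
      rw [hρ] at h1
      simp only at h1
      rwa [div_le_iff₀ (hlp _ ho)] at h1
    · push Not at h
      rw [C5b D E _ _ _ _ h]
      have : C5lp l i j v = 0 := max_eq_left h
      rw [this, mul_zero]

lemma C5sub (D : Dat A Lam l f) (E : Exact A N W) {R θ0 : ℝ} {n0 : ℕ}
    (hpres : ∀ o o' : Fin d × Fin d × (Fin d → ℤ), Step A l N W o o' → ‖prj f (ic o.2.2)‖ ≤ R →
      ‖prj f (ic o'.2.2)‖ ≤ R)
    (hθ : ∀ (i j : Fin d) (v : Fin d → ℤ), ‖prj f (ic v)‖ ≤ R →
      FK A l N W n0 i j v ≤ θ0 * C5lp l i j v) :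
    ∀ (K : ℕ) (i j : Fin d) (v : Fin d → ℤ), ‖prj f (ic v)‖ ≤ R →
      FK A l N W (K + n0) i j v ≤ θ0 * FK A l N W K i j v
  | 0, i, j, v, hv => by
    by_cases h : i = j ∧ v = 0
    · obtain ⟨rfl, rfl⟩ := h
      rw [C5c D E, C5c D E, mul_zero]
    · rw [C5FK0_eq h, zero_add]
      exact hθ i j v hv
  | K + 1, i, j, v, hv => by
    rw [show K + 1 + n0 = (K + n0) + 1 by omega, FK, FK, Finset.mul_sum]
    refine Finset.sum_le_sum fun t ht => ?_
    rw [Finset.mul_sum]
    refine Finset.sum_le_sum fun t' ht' => ?_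
    by_cases h : 0 < len l (W i t) (W j t') (chv A W i j v t t')
    · apply C5sub D E hpres hθ K
      exact hpres (i, j, v) (W i t, W j t', chv A W i j v t t')
        ⟨t, Finset.mem_range.1 ht, t', Finset.mem_range.1 ht', rfl, h⟩ hv
    · push Not at h
      rw [C5b D E _ _ _ _ h, C5b D E _ _ _ _ h, mul_zero]

end

theorem c5_holds : StC5 := by
  intro d hd A Lam l f N W R D E hC hpres
  refine ⟨fun K i j v h => C5b D E K i j v h, ?_⟩
  obtain ⟨n0, hn0, θ0, hθ0, hθL, hθ⟩ := C5unif D E hC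
  have hL : 0 < Lam := by linarith [D.one_lt]
  have hn0' : n0 ≠ 0 := by omega
  set θ' : ℝ := θ0 ^ ((n0 : ℝ)⁻¹) with hθ'
  have hpow : θ' ^ n0 = θ0 := Real.rpow_inv_natCast_pow hθ0.le hn0'
  have hθ'0 : 0 < θ' := Real.rpow_pos_of_pos hθ0 _
  have hθ'L : θ' < Lam := lt_of_pow_lt_pow_left₀ n0 hL.le (by rw [hpow]; exact hθL)
  have hsl : 0 < sl l := lt_of_lt_of_le (D.lpos ⟨0, by omega⟩) (C5sl D.lpos _)
  refine ⟨(Lam / θ') ^ n0 * sl l, θ', by positivity, hθ'0, hθ'L, fun K i j v hv => ?_⟩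
  have hq : ∀ q r : ℕ, FK A l N W (r + q * n0) i j v ≤ θ0 ^ q * FK A l N W r i j v := by
    intro q r
    induction q with
    | zero => simp
    | succ q ih =>
      calc FK A l N W (r + (q + 1) * n0) i j v = FK A l N W ((r + q * n0) + n0) i j v := by
            congr 1; ring
        _ ≤ θ0 * FK A l N W (r + q * n0) i j v := C5sub D E hpres hθ _ i j v hv
        _ ≤ θ0 * (θ0 ^ q * FK A l N W r i j v) := mul_le_mul_of_nonneg_left ih hθ0.le
        _ = θ0 ^ (q + 1) * FK A l N W r i j v := by ring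
  have hK : K = K % n0 + (K / n0) * n0 := by
    rw [mul_comm]; exact (Nat.mod_add_div K n0).symm
  set q := K / n0
  set r := K % n0 with hr
  have hrn : r ≤ n0 := (Nat.mod_lt _ (by omega)).le
  have h1 : FK A l N W K i j v ≤ θ0 ^ q * (Lam ^ r * sl l) := by
    rw [hK]
    refine (hq q r).trans (mul_le_mul_of_nonneg_left ?_ (pow_nonneg hθ0.le _))
    exact (C5le D E r i j v).trans (mul_le_mul_of_nonneg_left (C5lp_le D.lpos i j v)
      (pow_nonneg hL.le _))
  have h2 : θ' ^ K = θ' ^ r * θ0 ^ q := by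
    rw [hK, pow_add, mul_comm q n0, pow_mul, hpow]
  have h3 : (Lam / θ') ^ r ≤ (Lam / θ') ^ n0 := by
    apply pow_le_pow_right₀ _ hrn
    rw [one_le_div hθ'0]
    exact hθ'L.le
  have h4 : Lam ^ r = (Lam / θ') ^ r * θ' ^ r := by
    rw [← mul_pow, div_mul_cancel₀ _ hθ'0.ne']
  calc FK A l N W K i j v ≤ θ0 ^ q * (Lam ^ r * sl l) := h1
    _ = (Lam / θ') ^ r * (θ0 ^ q * θ' ^ r * sl l) := by rw [h4]; ring
    _ ≤ (Lam / θ') ^ n0 * (θ0 ^ q * θ' ^ r * sl l) :=
        mul_le_mul_of_nonneg_right h3 (by positivity)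
    _ = (Lam / θ') ^ n0 * sl l * θ' ^ K := by rw [h2]; ring

end Pool.Agent.H811R3.PS
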