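import Pool.Agent.H811R3.PS.Defs3

set_option autoImplicit false

open Finset MeasureTheory Filter

namespace Pool.Agent.H811R3.PS

namespace TC6

variable {d : ℕ}

/-- unit vector -/
def e (j : Fin d) : Fin d → ℤ := fun i => if j = i then 1 else 0

theorem Pt_zero (x : ℤ → Fin d) : Pt x 0 = 0 := by
  funext i
  simp [Pt]

theorem Pt_succ (x : ℤ → Fin d) (n : ℤ) : Pt x (n + 1) = Pt x n + e (x n) := by
  funext i
  simp only [Pt, e, Pi.add_apply]
  rcases le_or_gt 0 n with h | h
  · have h1 : Finset.Ico 0 (n + 1) = insert n (Finset.Ico 0 n) := by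
      ext a; simp only [Finset.mem_Ico, Finset.mem_insert]; omega
    have h2 : Finset.Ico (n + 1) 0 = ∅ := Finset.Ico_eq_empty (by omega)
    have h3 : Finset.Ico n 0 = ∅ := Finset.Ico_eq_empty (by omega)
    rw [h1, h2, h3, Finset.sum_insert (by simp)]
    simp only [Finset.sum_empty]
    ring
  · have h1 : Finset.Ico n 0 = insert n (Finset.Ico (n + 1) 0) := by
      ext a; simp only [Finset.mem_Ico, Finset.mem_insert]; omega
    have h2 : Finset.Ico 0 (n + 1) = ∅ := Finset.Ico_eq_empty (by omega)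
    have h3 : Finset.Ico 0 n = ∅ := Finset.Ico_eq_empty (by omega)
    rw [h1, h2, h3, Finset.sum_insert (by simp)]
    simp only [Finset.sum_empty]
    ring

theorem cnt_zero (w : ℕ → Fin d) : cnt w 0 0 = 0 := by
  funext i
  simp [cnt]

theorem cnt_succ (w : ℕ → Fin d) (t : ℕ) : cnt w 0 (t + 1) = cnt w 0 t + e (w t) := by
  funext i
  simp only [cnt, e, Pi.add_apply]
  rw [Finset.sum_Ico_succ_top (by omega)]

theorem count_sum (i j0 : Fin d) (w : List (Fin d)) :
    (∑ t ∈ range w.length, if w.getD t j0 = i then (1 : ℤ) else 0) = (w.count i : ℤ) := by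
  induction w with
  | nil => simp
  | cons a w ih =>
    rw [List.length_cons, Finset.sum_range_succ']
    simp only [List.getD_cons_succ, List.getD_cons_zero]
    rw [ih, List.count_cons]
    push_cast
    by_cases h : a = i
    · simp [h]
    · simp [h]

theorem cnt_wd (σ : Fin d → List (Fin d)) (j : Fin d) :
    cnt (wd σ j) 0 (σ j).length = fun i => inc σ i j := by
  funext i
  simp only [cnt, wd, inc]
  rw [← Finset.range_eq_Ico]
  exact count_sum i j (σ j)

theorem mulVec_e (A : Matrix (Fin d) (Fin d) ℤ) (j : Fin d) :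
    A.mulVec (e j) = fun i => A i j := by
  funext i
  simp [Matrix.mulVec, dotProduct, e]

section Des
variable {σ : Fin d → List (Fin d)} {x x1 : ℤ → Fin d} {c : ℤ → ℤ}

theorem des_add (h : Des σ x x1 c) (m : ℤ) (t : ℕ) (ht : t ≤ (σ (x1 m)).length) :
    Pt x (c m + t) = Pt x (c m) + cnt (wd σ (x1 m)) 0 t := by
  induction t with
  | zero => simp [cnt_zero]
  | succ t ih =>
    have h1 : c m + ((t + 1 : ℕ) : ℤ) = (c m + t) + 1 := by push_cast; ring
    rw [h1, Pt_succ, ih (by omega), cnt_succ, h.letter m t (by omega), add_assoc]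

theorem des_next (h : Des σ x x1 c) (m : ℤ) :
    Pt x (c (m + 1)) = Pt x (c m) + (inc σ).mulVec (e (x1 m)) := by
  rw [h.step, des_add h m _ le_rfl, cnt_wd, mulVec_e]

theorem des_lin (h : Des σ x x1 c) (m : ℤ) :
    Pt x (c m) = (inc σ).mulVec (Pt x1 m) + Pt x (c 0) := by
  induction m using Int.induction_on with
  | zero => rw [Pt_zero, Matrix.mulVec_zero, zero_add]
  | succ i ih =>
    rw [des_next h, ih, Pt_succ, Matrix.mulVec_add]
    abel
  | pred i ih =>
    have h1 := des_next h (-(i:ℤ) - 1)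
    have h2 := Pt_succ x1 (-(i:ℤ) - 1)
    rw [sub_add_cancel] at h1 h2
    rw [ih, h2, Matrix.mulVec_add] at h1
    have h3 : (inc σ).mulVec (Pt x1 (-(i:ℤ) - 1)) + (inc σ).mulVec (e (x1 (-(i:ℤ) - 1))) +
        Pt x (c 0) = (inc σ).mulVec (Pt x1 (-(i:ℤ) - 1)) + Pt x (c 0) +
        (inc σ).mulVec (e (x1 (-(i:ℤ) - 1))) := by abel
    rw [h3] at h1
    exact (add_right_cancel h1).symm

theorem des_zero (h : Des σ x x1 c) :
    cnt (wd σ (x1 0)) 0 (-(c 0)).toNat = - Pt x (c 0) := by
  have h1 := h.zero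
  have h2 := h.step 0
  rw [zero_add] at h2
  have h3 : (-(c 0)).toNat ≤ (σ (x1 0)).length := by omega
  have h4 := des_add h 0 _ h3
  have h5 : c 0 + ((-(c 0)).toNat : ℤ) = 0 := by
    rw [Int.toNat_of_nonneg (by omega)]; ring
  rw [h5, Pt_zero] at h4
  exact eq_neg_of_add_eq_zero_right h4.symm

end Des

/-- positive lengths -/
theorem len_pos {σ : Fin d → List (Fin d)} (hd : 2 ≤ d) (hσ : ∀ i j, 1 ≤ inc σ i j) (j : Fin d) :
    0 < (σ j).length := by
  have h1 := hσ ⟨0, by omega⟩ j
  unfold inc at h1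
  have h2 : 1 ≤ (σ j).count ⟨0, by omega⟩ := by exact_mod_cast h1
  have h3 : 0 < (σ j).count ⟨0, by omega⟩ := h2
  exact List.length_pos_of_mem (List.count_pos_iff.1 h3)

theorem des_strict {σ : Fin d → List (Fin d)} {x x1 : ℤ → Fin d} {c : ℤ → ℤ} (hd : 2 ≤ d)
    (hσ : ∀ i j, 1 ≤ inc σ i j) (h : Des σ x x1 c) : StrictMono c := by
  apply strictMono_int_of_lt_succ
  intro n
  rw [h.step]
  have := len_pos hd hσ (x1 n)
  omega

/-- a strictly increasing integer sequence covers the integers -/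
theorem cover {c : ℤ → ℤ} (hc : StrictMono c) (n : ℤ) : ∃ m : ℤ, c m ≤ n ∧ n < c (m + 1) := by
  have h1 : ∀ k : ℕ, c 0 + k ≤ c k := by
    intro k
    induction k with
    | zero => simp
    | succ k ih =>
      have := hc (show (k:ℤ) < ((k + 1 : ℕ) : ℤ) by push_cast; omega)
      push_cast at this ⊢
      omega
  have h2 : ∀ k : ℕ, c (-(k:ℤ)) ≤ c 0 - k := by
    intro k
    induction k with
    | zero => simp
    | succ k ih =>
      have := hc (show (-((k + 1 : ℕ) : ℤ)) < -(k:ℤ) by push_cast; omega)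
      push_cast at this ⊢
      omega
  have h3 : ∃ b : ℤ, ∀ z : ℤ, c z ≤ n → z ≤ b := by
    refine ⟨((n - c 0).toNat : ℤ), fun z hz => ?_⟩
    by_contra hcon
    push Not at hcon
    have h4 := hc hcon
    have h5 := h1 (n - c 0).toNat
    have h6 : n - c 0 ≤ ((n - c 0).toNat : ℤ) := Int.self_le_toNat _
    omega
  have h4 : ∃ z : ℤ, c z ≤ n := by
    refine ⟨-((c 0 - n).toNat : ℤ), ?_⟩
    have h5 := h2 (c 0 - n).toNat
    have h6 : c 0 - n ≤ ((c 0 - n).toNat : ℤ) := Int.self_le_toNat _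
    omega
  obtain ⟨m, hm, hmax⟩ := Int.exists_greatest_of_bdd h3 h4
  refine ⟨m, hm, ?_⟩
  by_contra hcon
  push Not at hcon
  have := hmax _ hcon
  omega

section DesK
variable {σ : Fin d → List (Fin d)}

theorem desK_strict (hd : 2 ≤ d) (hσ : ∀ i j, 1 ≤ inc σ i j) (K : ℕ) :
    ∀ (x y : ℤ → Fin d) (c : ℤ → ℤ), DesK σ K x y c → StrictMono c := by
  induction K with
  | zero =>
    rintro x y c ⟨-, h⟩
    intro a b hab
    rw [h, h]; exact hab
  | succ K ih =>
    rintro x y c ⟨x1, c1, c', h1, -, h2, h3⟩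
    intro a b hab
    rw [h3, h3]
    exact ih _ _ _ h1 (des_strict hd hσ h2 hab)

theorem desK_mem (K : ℕ) (x y : ℤ → Fin d) (c : ℤ → ℤ) (hx : x ∈ XS σ) (h : DesK σ K x y c) :
    y ∈ XS σ := by
  cases K with
  | zero => rw [h.1]; exact hx
  | succ K =>
    obtain ⟨x1, c1, c', h1, h2, h3, h4⟩ := h
    exact h2

theorem desK_lin (K : ℕ) : ∀ (x y : ℤ → Fin d) (c : ℤ → ℤ), DesK σ K x y c → ∀ m,
    Pt x (c m) = ((inc σ) ^ K).mulVec (Pt y m) + Pt x (c 0) := by
  induction K with
  | zero =>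
    rintro x y c ⟨rfl, h⟩ m
    rw [h, h, pow_zero, Matrix.one_mulVec, Pt_zero, add_zero]
  | succ K ih =>
    rintro x y c ⟨x1, c1, c', h1, -, h2, h3⟩ m
    have h4 := ih _ _ _ h1 (c' m)
    have h5 := ih _ _ _ h1 (c' 0)
    rw [h3, h3, h4, h5, des_lin h2 m, Matrix.mulVec_add, Matrix.mulVec_mulVec, ← pow_succ]
    abel

end DesK

/-! ### real vectors -/

theorem dot_add (l y z : Fin d → ℝ) : dot l (y + z) = dot l y + dot l z := by
  simp [dot, mul_add, Finset.sum_add_distrib]

theorem ic_add (v w : Fin d → ℤ) : ic (v + w) = ic v + ic w := by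
  funext i; simp [ic]

theorem ic_sub (v w : Fin d → ℤ) : ic (v - w) = ic v - ic w := by
  funext i; simp [ic]

theorem ic_neg (v : Fin d → ℤ) : ic (-v) = - ic v := by
  funext i; simp [ic]

theorem dot_sub (l y z : Fin d → ℝ) : dot l (y - z) = dot l y - dot l z := by
  simp [dot, mul_sub, Finset.sum_sub_distrib]

theorem dot_e (l : Fin d → ℝ) (j : Fin d) : dot l (ic (e j)) = l j := by
  simp [dot, ic, e]

theorem ic_mulVec (A : Matrix (Fin d) (Fin d) ℤ) (v : Fin d → ℤ) :
    ic (A.mulVec v) = act A (ic v) := by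
  funext i
  simp [ic, act, Matrix.mulVec, dotProduct]

theorem dot_act {A : Matrix (Fin d) (Fin d) ℤ} {Lam : ℝ} {l f : Fin d → ℝ}
    (hD : Dat A Lam l f) (y : Fin d → ℝ) : dot l (act A y) = Lam * dot l y := by
  unfold dot act
  simp only [Finset.mul_sum]
  rw [Finset.sum_comm]
  refine Finset.sum_congr rfl fun j _ => ?_
  have h := hD.left j
  calc ∑ i, l i * ((A i j : ℝ) * y j) = (∑ i, l i * (A i j : ℝ)) * y j := by
        rw [Finset.sum_mul]
        exact Finset.sum_congr rfl fun i _ => by ring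
    _ = Lam * (l j * y j) := by rw [h]; ring

theorem dot_cnt_nonneg {l : Fin d → ℝ} (hl : ∀ i, 0 < l i) (w : ℕ → Fin d) (t : ℕ) :
    0 ≤ dot l (ic (cnt w 0 t)) := by
  unfold dot ic cnt
  refine Finset.sum_nonneg fun i _ => mul_nonneg (hl i).le ?_
  push_cast
  exact Finset.sum_nonneg fun s _ => by split_ifs <;> norm_num

theorem dot_cnt_succ (l : Fin d → ℝ) (w : ℕ → Fin d) (t : ℕ) :
    dot l (ic (cnt w 0 (t + 1))) = dot l (ic (cnt w 0 t)) + l (w t) := by
  rw [cnt_succ, ic_add, dot_add, dot_e]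

theorem dot_cnt_mono {l : Fin d → ℝ} (hl : ∀ i, 0 < l i) (w : ℕ → Fin d) {t N : ℕ}
    (h : t ≤ N) : dot l (ic (cnt w 0 t)) ≤ dot l (ic (cnt w 0 N)) := by
  induction N, h using Nat.le_induction with
  | base => exact le_rfl
  | succ N _ ih =>
    rw [dot_cnt_succ]
    linarith [hl (w N)]

theorem exists_low (hd : 2 ≤ d) {l : Fin d → ℝ} (hl : ∀ i, 0 < l i) :
    ∃ δ : ℝ, 0 < δ ∧ ∀ i, δ ≤ l i := by
  have : Nonempty (Fin d) := ⟨⟨0, by omega⟩⟩
  obtain ⟨i0, hi0⟩ := Finite.exists_min l
  exact ⟨l i0, hl i0, hi0⟩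

/-! ### the base case -/

theorem clamp {a L b b' : ℝ} (hL : 0 ≤ L) (hb : b ≤ b') :
    max 0 (min (a + L) b' - max a b) = max a (min b' (a + L)) - max a (min b (a + L)) := by
  rcases max_cases (0:ℝ) (min (a + L) b' - max a b) with ⟨h1, h1'⟩ | ⟨h1, h1'⟩ <;>
    rcases min_cases (a + L) b' with ⟨h2, h2'⟩ | ⟨h2, h2'⟩ <;>
    rcases max_cases a b with ⟨h3, h3'⟩ | ⟨h3, h3'⟩ <;>
    rcases max_cases a (min b' (a + L)) with ⟨h4, h4'⟩ | ⟨h4, h4'⟩ <;>
    rcases min_cases b' (a + L) with ⟨h5, h5'⟩ | ⟨h5, h5'⟩ <;>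
    rcases max_cases a (min b (a + L)) with ⟨h6, h6'⟩ | ⟨h6, h6'⟩ <;>
    rcases min_cases b (a + L) with ⟨h7, h7'⟩ | ⟨h7, h7'⟩ <;> linarith

theorem len_eq (l : Fin d → ℝ) (i j : Fin d) (v w : Fin d → ℤ) :
    len l i j (v - w) = min (dot l (ic v) + l i) (dot l (ic w) + l j) -
      max (dot l (ic v)) (dot l (ic w)) := by
  unfold len
  rw [ic_sub, dot_sub]
  set a := dot l (ic v)
  set b := dot l (ic w)
  have h1 : min (a - b + l i) (l j) = min (a + l i) (b + l j) - b := by
    rcases min_cases (a - b + l i) (l j) with ⟨h, h'⟩ | ⟨h, h'⟩ <;>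
      rcases min_cases (a + l i) (b + l j) with ⟨k, k'⟩ | ⟨k, k'⟩ <;> linarith
  have h2 : max (a - b) 0 = max a b - b := by
    rcases le_total a b with h | h
    · rw [max_eq_right (by linarith), max_eq_right h]; ring
    · rw [max_eq_left (by linarith), max_eq_left h]
  rw [h1, h2]; ring

theorem telesc (G : ℤ → ℝ) (p : ℤ) (k : ℕ) :
    ∑ m ∈ Finset.Ico p (p + k), (G (m + 1) - G m) = G (p + k) - G p := by
  induction k with
  | zero => simp
  | succ k ih =>
    have h1 : Finset.Ico p (p + ((k + 1 : ℕ) : ℤ)) = insert (p + k) (Finset.Ico p (p + k)) := by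
      ext a; simp only [Finset.mem_Ico, Finset.mem_insert]; push_cast; omega
    rw [h1, Finset.sum_insert (by simp), ih]
    push_cast
    rw [← add_assoc]
    ring

theorem base_cover (hd : 2 ≤ d) {l : Fin d → ℝ} (hl : ∀ i, 0 < l i) (i : Fin d)
    (V : Fin d → ℤ) (x0 : ℤ → Fin d) (S : Finset ℤ)
    (hS : ∀ m' : ℤ, 0 < len l i (x0 m') (V - Pt x0 m') → m' ∈ S) :
    l i ≤ ∑ m' ∈ S, max 0 (len l i (x0 m') (V - Pt x0 m')) := by
  classical
  obtain ⟨δ, hδ, hδl⟩ := exists_low hd hl
  set b : ℤ → ℝ := fun m => dot l (ic (Pt x0 m)) with hb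
  set a := dot l (ic V) with ha
  have hb1 : ∀ m, b (m + 1) = b m + l (x0 m) := by
    intro m
    simp only [hb]
    rw [Pt_succ, ic_add, dot_add, dot_e]
  have hup : ∀ k : ℕ, b 0 + k * δ ≤ b k := by
    intro k
    induction k with
    | zero => simp
    | succ k ih =>
      have h1 := hb1 k
      have h2 := hδl (x0 k)
      push_cast
      rw [h1]
      linarith
  have hdn : ∀ k : ℕ, b (-(k:ℤ)) ≤ b 0 - k * δ := by
    intro k
    induction k with
    | zero => simp
    | succ k ih =>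
      have h1 := hb1 (-(k:ℤ) - 1)
      rw [sub_add_cancel] at h1
      have h2 := hδl (x0 (-(k:ℤ) - 1))
      have h3 : -(((k + 1 : ℕ) : ℤ)) = -(k:ℤ) - 1 := by push_cast; ring
      rw [h3]
      push_cast
      linarith
  obtain ⟨M, hM⟩ := exists_nat_gt (max ((a + l i - b 0) / δ) ((b 0 - a) / δ))
  have hM1 : (a + l i - b 0) / δ < M := (le_max_left _ _).trans_lt hM
  have hM2 : (b 0 - a) / δ < M := (le_max_right _ _).trans_lt hM
  rw [div_lt_iff₀ hδ] at hM1 hM2
  have hbM : a + l i ≤ b M := by linarith [hup M]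
  have hbm : b (-(M:ℤ)) ≤ a := by linarith [hdn M]
  set G : ℤ → ℝ := fun m => max a (min (b m) (a + l i)) with hG
  have hh : ∀ m, max 0 (len l i (x0 m) (V - Pt x0 m)) = G (m + 1) - G m := by
    intro m
    rw [len_eq]
    have h1 : dot l (ic (Pt x0 m)) + l (x0 m) = b (m + 1) := (hb1 m).symm
    rw [h1]
    simp only [hG]
    exact clamp (hl i).le (by rw [hb1]; linarith [hl (x0 m)])
  have htel := telesc G (-(M:ℤ)) (2 * M)
  have e1 : -(M:ℤ) + ((2 * M : ℕ) : ℤ) = M := by push_cast; ring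
  rw [e1] at htel
  have hGM : G M = a + l i := by
    simp only [hG]
    rw [min_eq_right hbM, max_eq_right (by linarith [hl i])]
  have hGm : G (-(M:ℤ)) = a := by
    simp only [hG]
    rw [max_eq_left ((min_le_left _ _).trans hbm)]
  rw [hGM, hGm] at htel
  have hsum : ∑ m ∈ Finset.Ico (-(M:ℤ)) M, max 0 (len l i (x0 m) (V - Pt x0 m)) = l i := by
    rw [Finset.sum_congr rfl fun m _ => hh m, htel]; ring
  rw [← hsum]
  calc ∑ m ∈ Finset.Ico (-(M:ℤ)) M, max 0 (len l i (x0 m) (V - Pt x0 m))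
      = ∑ m ∈ (Finset.Ico (-(M:ℤ)) M).filter (fun m => m ∈ S),
          max 0 (len l i (x0 m) (V - Pt x0 m)) := by
        symm
        apply Finset.sum_subset (Finset.filter_subset _ _)
        intro m hm1 hm2
        have hmS : m ∉ S := fun h => hm2 (Finset.mem_filter.2 ⟨hm1, h⟩)
        have h3 : ¬ 0 < len l i (x0 m) (V - Pt x0 m) := fun h => hmS (hS m h)
        exact max_eq_left (not_lt.1 h3)
    _ ≤ _ := by
        apply Finset.sum_le_sum_of_subset_of_nonneg
        · intro m hm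
          exact (Finset.mem_filter.1 hm).2
        · intro m _ _
          exact le_max_left _ _

theorem FK_nonneg (A : Matrix (Fin d) (Fin d) ℤ) (l : Fin d → ℝ) (N : Fin d → ℕ)
    (W : Fin d → ℕ → Fin d) (K : ℕ) : ∀ (i j : Fin d) (v : Fin d → ℤ), 0 ≤ FK A l N W K i j v := by
  induction K with
  | zero =>
    intro i j v
    unfold FK
    split_ifs
    · exact le_rfl
    · exact le_max_left _ _
  | succ K ih =>
    intro i j v
    unfold FK
    exact Finset.sum_nonneg fun t _ => Finset.sum_nonneg fun t' _ => ih _ _ _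

/-! ### projections -/

theorem sum_prj {f : Fin d → ℝ} (hf : ∑ i, f i = 1) (y : Fin d → ℝ) : ∑ i, prj f y i = 0 := by
  unfold prj
  rw [Finset.sum_sub_distrib, ← Finset.mul_sum, hf]
  ring

theorem prj_add (f y z : Fin d → ℝ) : prj f (y + z) = prj f y + prj f z := by
  funext i
  simp only [prj, Pi.add_apply, Finset.sum_add_distrib]
  ring

theorem prj_sub (f y z : Fin d → ℝ) : prj f (y - z) = prj f y - prj f z := by
  funext i
  simp only [prj, Pi.sub_apply, Finset.sum_sub_distrib]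
  ring

theorem prj_neg (f y : Fin d → ℝ) : prj f (-y) = - prj f y := by
  funext i
  simp only [prj, Pi.neg_apply, Finset.sum_neg_distrib]
  ring

theorem act_add (A : Matrix (Fin d) (Fin d) ℤ) (y z : Fin d → ℝ) :
    act A (y + z) = act A y + act A z := by
  funext i
  simp only [act, Pi.add_apply, mul_add, Finset.sum_add_distrib]

theorem act_sub (A : Matrix (Fin d) (Fin d) ℤ) (y z : Fin d → ℝ) :
    act A (y - z) = act A y - act A z := by
  funext i
  simp only [act, Pi.sub_apply, mul_sub, Finset.sum_sub_distrib]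

theorem act_smul (A : Matrix (Fin d) (Fin d) ℤ) (s : ℝ) (y : Fin d → ℝ) :
    act A (s • y) = s • act A y := by
  funext i
  simp only [act, Pi.smul_apply, smul_eq_mul, Finset.mul_sum]
  exact Finset.sum_congr rfl fun j _ => by ring

theorem prj_eq (f y : Fin d → ℝ) : prj f y = y - (∑ j, y j) • f := by
  funext i
  simp [prj]

theorem act_f {A : Matrix (Fin d) (Fin d) ℤ} {Lam : ℝ} {l f : Fin d → ℝ} (hD : Dat A Lam l f) :
    act A f = Lam • f := by
  rw [hD.right]
  funext i
  simp

theorem prj_act_prj {A : Matrix (Fin d) (Fin d) ℤ} {Lam : ℝ} {l f : Fin d → ℝ}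
    (hD : Dat A Lam l f) (y : Fin d → ℝ) : prj f (act A (prj f y)) = prj f (act A y) := by
  rw [prj_eq f y, act_sub, act_smul, act_f hD, prj_sub]
  have : prj f ((∑ j, y j) • Lam • f) = 0 := by
    funext i
    simp only [prj, Pi.smul_apply, smul_eq_mul, Pi.zero_apply]
    rw [← Finset.mul_sum, ← Finset.mul_sum, hD.fsum]
    ring
  rw [this, sub_zero]

theorem act_inj {A : Matrix (Fin d) (Fin d) ℤ} (hA : IsUnit A.det) {y : Fin d → ℝ}
    (h : act A y = 0) : y = 0 := by
  have h1 : (A.map (Int.castRingHom ℝ)).det ≠ 0 := by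
    rw [← RingHom.mapMatrix_apply, ← RingHom.map_det]
    rcases Int.isUnit_iff.1 hA with h2 | h2 <;> rw [h2] <;> norm_num
  apply Matrix.eq_zero_of_mulVec_eq_zero h1
  rw [← h]
  funext i
  simp [act, Matrix.mulVec, dotProduct]

theorem prj_key {A : Matrix (Fin d) (Fin d) ℤ} {Lam : ℝ} {l f : Fin d → ℝ}
    (hD : Dat A Lam l f) (hA : IsUnit A.det) {z : Fin d → ℝ} (hz : ∑ i, z i = 0)
    (h : prj f (act A z) = 0) : z = 0 := by
  have hL : Lam ≠ 0 := by linarith [hD.one_lt]
  set s := ∑ j, act A z j with hs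
  have h1 : act A z = s • f := by
    rw [prj_eq] at h
    exact sub_eq_zero.1 h
  have h2 : act A (z - (s / Lam) • f) = 0 := by
    rw [act_sub, act_smul, act_f hD, h1, smul_smul, div_mul_cancel₀ _ hL, sub_self]
  have h3 := act_inj hA h2
  have h4 : z = (s / Lam) • f := sub_eq_zero.1 h3
  have h5 : ∑ i, z i = s / Lam := by
    rw [h4]
    simp only [Pi.smul_apply, smul_eq_mul]
    rw [← Finset.mul_sum, hD.fsum, mul_one]
  rw [hz] at h5
  rw [h4, ← h5, zero_smul]

/-! ### overlaps: children and parents -/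

theorem child_parent {A : Matrix (Fin d) (Fin d) ℤ} {Lam : ℝ} {l f : Fin d → ℝ}
    (hD : Dat A Lam l f) {N : Fin d → ℕ} {W : Fin d → ℕ → Fin d} (hE : Exact A N W)
    {i j : Fin d} {V : Fin d → ℤ} {t t' : ℕ} (ht : t < N i) (ht' : t' < N j)
    (h : 0 < len l (W i t) (W j t') (chv A W i j V t t')) : 0 < len l i j V := by
  have hL : 0 < Lam := by linarith [hD.one_lt]
  have hcol : ∀ j, dot l (ic (cnt (W j) 0 (N j))) = Lam * l j := by
    intro j
    rw [hE j]
    have h1 : (fun i => A i j) = A.mulVec (e j) := (mulVec_e A j).symm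
    rw [h1, ic_mulVec, dot_act hD, dot_e]
  have hα : dot l (ic (cnt (W i) 0 t)) + l (W i t) ≤ Lam * l i := by
    rw [← dot_cnt_succ, ← hcol i]
    exact dot_cnt_mono hD.lpos _ ht
  have hβ : dot l (ic (cnt (W j) 0 t')) + l (W j t') ≤ Lam * l j := by
    rw [← dot_cnt_succ, ← hcol j]
    exact dot_cnt_mono hD.lpos _ ht'
  have hα0 := dot_cnt_nonneg hD.lpos (W i) t
  have hβ0 := dot_cnt_nonneg hD.lpos (W j) t'
  have hc : dot l (ic (chv A W i j V t t')) = Lam * dot l (ic V) + dot l (ic (cnt (W i) 0 t)) -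
      dot l (ic (cnt (W j) 0 t')) := by
    unfold chv
    rw [ic_sub, ic_add, dot_sub, dot_add, ic_mulVec, dot_act hD]
  unfold len at h ⊢
  rw [hc] at h
  set v := dot l (ic V)
  set α := dot l (ic (cnt (W i) 0 t))
  set β := dot l (ic (cnt (W j) 0 t'))
  have hi := hD.lpos i
  have hj := hD.lpos j
  have h1 : 0 < Lam * v + α - β + l (W i t) := by
    have a1 := min_le_left (Lam * v + α - β + l (W i t)) (l (W j t'))
    have a2 := le_max_right (Lam * v + α - β) 0
    linarith
  have h2 : Lam * v + α - β < l (W j t') := by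
    have a1 := min_le_right (Lam * v + α - β + l (W i t)) (l (W j t'))
    have a2 := le_max_left (Lam * v + α - β) 0
    linarith
  have h3 : 0 < Lam * (v + l i) := by nlinarith
  have h4 : 0 < v + l i := (mul_pos_iff_of_pos_left hL).1 h3
  have h5 : 0 < Lam * (l j - v) := by nlinarith
  have h6 : 0 < l j - v := (mul_pos_iff_of_pos_left hL).1 h5
  rw [sub_pos]
  apply max_lt
  · exact lt_min (by linarith) (by linarith)
  · exact lt_min h4 hj

theorem sum_Ico_split (g : ℤ → ℝ) {c1 : ℤ → ℤ} (hc : StrictMono c1) (p : ℤ) (N : ℕ) :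
    ∑ n ∈ Finset.Ico (c1 p) (c1 (p + N)), g n =
      ∑ t ∈ range N, ∑ n ∈ Finset.Ico (c1 (p + t)) (c1 (p + t + 1)), g n := by
  induction N with
  | zero => simp
  | succ N ih =>
    rw [Finset.sum_range_succ, ← ih]
    have h1 : c1 p ≤ c1 (p + N) := hc.monotone (by omega)
    have h2 : c1 (p + N) ≤ c1 (p + N + 1) := hc.monotone (by omega)
    have h3 : p + ((N + 1 : ℕ) : ℤ) = p + N + 1 := by push_cast; ring
    rw [h3, ← Finset.sum_union]
    · congr 1
      ext a; simp only [Finset.mem_Ico, Finset.mem_union]; omega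
    · rw [Finset.disjoint_left]
      intro a h4 h5
      rw [Finset.mem_Ico] at h4 h5
      omega

end TC6

open TC6 in
theorem c6_holds : StC6 := by
  classical
  intro _ d hd σ Lam l f T hσ hD hA hT K
  have hN : ∀ j, 0 < (σ j).length := len_pos hd hσ
  have hE : Exact (inc σ) (ln σ) (wd σ) := fun j => cnt_wd σ j
  induction K with
  | zero =>
    intro x x0 y y0 c c0 u hx hx0 hK hK0 hu
    obtain ⟨rfl, hc⟩ := hK
    obtain ⟨rfl, hc0⟩ := hK0
    refine ⟨u, hu, ?_, ?_⟩
    · rw [hc, hc0, Pt_zero, Pt_zero, pow_zero, Matrix.one_mulVec]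
      simp
    · intro m S hS
      have h1 : Finset.Ico (c m) (c (m + 1)) = {m} := by
        rw [hc, hc]
        ext a; simp only [Finset.mem_Ico, Finset.mem_singleton]; omega
      rw [h1, Finset.sum_singleton]
      by_cases hn : NCs y y0 u m
      · rw [if_pos hn]
        refine (base_cover hd hD.lpos (y m) (u + Pt y m) y0 S hS).trans (le_of_eq ?_)
        refine Finset.sum_congr rfl fun m' _ => ?_
        unfold FK
        rw [if_neg]
        rintro ⟨h2, h3⟩
        exact hn ⟨m', (sub_eq_zero.1 h3).symm, h2.symm⟩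
      · rw [if_neg hn]
        exact Finset.sum_nonneg fun m' _ => FK_nonneg _ _ _ _ _ _ _ _
  | succ K ih =>
    intro x x0 y y0 c c0 u hx hx0 hK hK0 hu
    obtain ⟨x1, c1, c', h1, hy, h2, h3⟩ := hK
    obtain ⟨x01, c01, c0', h01, hy0, h02, h03⟩ := hK0
    obtain ⟨uK, hu1, hu2, hu3⟩ := ih x x0 x1 x01 c1 c01 u hx hx0 h1 h01 hu
    have hx1 : x1 ∈ XS σ := desK_mem K x x1 c1 hx h1
    have hx01 : x01 ∈ XS σ := desK_mem K x0 x01 c01 hx0 h01
    set A := inc σ with hAdef
    set z : Fin d → ℤ := uK + Pt x1 (c' 0) - Pt x01 (c0' 0) with hz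
    set w : Fin d → ℤ := A⁻¹.mulVec z with hw
    have hAw : A.mulVec w = z := by
      rw [hw, Matrix.mulVec_mulVec, Matrix.mul_nonsing_inv A hA, Matrix.one_mulVec]
    refine ⟨w, ?_, ?_, ?_⟩
    · -- transversal part
      have d1 := hT.des x1 hx1 y hy c' h2
      have d2 := hT.des x01 hx01 y0 hy0 c0' h02
      rw [des_zero h2, ic_neg, prj_neg] at d1
      rw [des_zero h02, ic_neg, prj_neg] at d2
      have p1 : prj f (act A (ic w)) = prj f (act A (T y)) - prj f (act A (T y0)) := by
        rw [← ic_mulVec, hAw, hz, ic_sub, ic_add, prj_sub, prj_add, hu1, d1, d2]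
        abel
      have p2 : prj f (act A (prj f (ic w) - (T y - T y0))) = 0 := by
        rw [act_sub, act_sub, prj_sub, prj_sub, prj_act_prj hD, p1]
        abel
      have p3 : ∑ i, (prj f (ic w) - (T y - T y0)) i = 0 := by
        simp only [Pi.sub_apply, Finset.sum_sub_distrib]
        rw [sum_prj hD.fsum, hT.sum0 y hy, hT.sum0 y0 hy0]
        ring
      exact sub_eq_zero.1 (prj_key hD hA p3 p2)
    · rw [pow_succ, ← Matrix.mulVec_mulVec, hAw, hz, Matrix.mulVec_sub, Matrix.mulVec_add, hu2]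
      have q1 := desK_lin K x x1 c1 h1 (c' 0)
      have q2 := desK_lin K x0 x01 c01 h01 (c0' 0)
      rw [h3, h03, q1, q2]
      abel
    · intro m S hS
      have hc1 := desK_strict hd hσ K x x1 c1 h1
      have hc0' := des_strict hd hσ h02
      -- positions
      have key : ∀ (m' : ℤ) (t t' : ℕ), t ≤ (σ (y m)).length → t' ≤ (σ (y0 m')).length →
          uK + Pt x1 (c' m + t) - Pt x01 (c0' m' + t') =
            chv A (wd σ) (y m) (y0 m') (w + Pt y m - Pt y0 m') t t' := by
        intro m' t t' ht ht'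
        rw [des_add h2 m t ht, des_add h02 m' t' ht', des_lin h2 m, des_lin h02 m']
        unfold chv
        rw [Matrix.mulVec_sub, Matrix.mulVec_add, hAw, hz]
        abel
      rw [h3, h3, h2.step, sum_Ico_split _ hc1]
      -- the finite set for the level below
      set I : ℤ → Finset ℤ := fun m' =>
        (range (σ (y0 m')).length).image (fun t' : ℕ => c0' m' + (t' : ℤ)) with hI
      set S1 : Finset ℤ := S.biUnion I with hS1
      have hdisj : (S : Set ℤ).PairwiseDisjoint I := by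
        intro a _ b _ hab
        rw [Function.onFun, Finset.disjoint_left]
        intro n hn1 hn2
        simp only [hI, Finset.mem_image, Finset.mem_range] at hn1 hn2
        obtain ⟨t1, ht1, e1⟩ := hn1
        obtain ⟨t2, ht2, e2⟩ := hn2
        rcases lt_or_gt_of_ne hab with h5 | h5
        · have h6 : c0' (a + 1) ≤ c0' b := hc0'.monotone (by omega)
          rw [h02.step] at h6
          omega
        · have h6 : c0' (b + 1) ≤ c0' a := hc0'.monotone (by omega)
          rw [h02.step] at h6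
          omega
      have hlow : ∀ t ∈ range (σ (y m)).length,
          ∑ n ∈ Finset.Ico (c1 (c' m + t)) (c1 (c' m + t + 1)),
            (if NCs x x0 u n then l (x n) else 0) ≤
          ∑ m' ∈ S, ∑ t' ∈ range (σ (y0 m')).length,
            FK A l (ln σ) (wd σ) K (wd σ (y m) t) (wd σ (y0 m') t')
              (chv A (wd σ) (y m) (y0 m') (w + Pt y m - Pt y0 m') t t') := by
        intro t ht
        rw [Finset.mem_range] at ht
        have hx1t : x1 (c' m + t) = wd σ (y m) t := h2.letter m t ht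
        have hS1m : ∀ m1' : ℤ, 0 < len l (x1 (c' m + t)) (x01 m1')
            (uK + Pt x1 (c' m + t) - Pt x01 m1') → m1' ∈ S1 := by
          intro m1' hpos
          obtain ⟨m', hm1, hm2⟩ := cover hc0' m1'
          rw [h02.step] at hm2
          obtain ⟨t', ht'⟩ : ∃ t' : ℕ, m1' = c0' m' + t' := ⟨(m1' - c0' m').toNat, by
            rw [Int.toNat_of_nonneg (by omega)]; ring⟩
          subst ht'
          have ht2 : t' < (σ (y0 m')).length := by omega
          rw [hS1, Finset.mem_biUnion]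
          refine ⟨m', ?_, ?_⟩
          · apply hS
            rw [key m' t t' ht.le ht2.le, hx1t, h02.letter m' t' ht2] at hpos
            exact child_parent hD hE (N := ln σ) ht ht2 hpos
          · simp only [hI, Finset.mem_image, Finset.mem_range]
            exact ⟨t', ht2, rfl⟩
        refine (hu3 (c' m + t) S1 hS1m).trans (le_of_eq ?_)
        rw [hS1, Finset.sum_biUnion hdisj]
        refine Finset.sum_congr rfl fun m' _ => ?_
        simp only [hI]
        rw [Finset.sum_image (by intro a _ b _ hab; simpa using hab)]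
        refine Finset.sum_congr rfl fun t' ht' => ?_
        rw [Finset.mem_range] at ht'
        rw [key m' t t' ht.le ht'.le, hx1t, h02.letter m' t' ht']
      refine (Finset.sum_le_sum hlow).trans (le_of_eq ?_)
      rw [Finset.sum_comm]
      refine Finset.sum_congr rfl fun m' _ => ?_
      conv_rhs => unfold FK
      rfl

end Pool.Agent.H811R3.PS
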