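import Pool.Agent.H811R3.PS.Defs3

set_option autoImplicit false

open Finset MeasureTheory Filter

namespace Pool.Agent.H811R3.PS

namespace TC6b

variable {d : ℕ}

theorem lm_pos {l : Fin d → ℝ} (hl : ∀ i, 0 < l i) (i : Fin d) : 0 < lm l := by
  unfold lm
  rw [inv_pos]
  exact Finset.sum_pos (fun j _ => inv_pos.2 (hl j)) ⟨i, Finset.mem_univ i⟩

theorem lm_le {l : Fin d → ℝ} (hl : ∀ i, 0 < l i) (i : Fin d) : lm l ≤ l i := by
  unfold lm
  rw [inv_le_comm₀ (Finset.sum_pos (fun j _ => inv_pos.2 (hl j)) ⟨i, Finset.mem_univ i⟩) (hl i)]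
  exact Finset.single_le_sum (f := fun j => (l j)⁻¹) (fun j _ => (inv_pos.2 (hl j)).le)
    (Finset.mem_univ i)

theorem le_sl {l : Fin d → ℝ} (hl : ∀ i, 0 < l i) (i : Fin d) : l i ≤ sl l :=
  Finset.single_le_sum (f := l) (fun j _ => (hl j).le) (Finset.mem_univ i)

theorem Pt_succ (x : ℤ → Fin d) (n : ℤ) (i : Fin d) :
    Pt x (n + 1) i = Pt x n i + if x n = i then 1 else 0 := by
  unfold Pt
  rcases le_or_gt 0 n with h | h
  · have h1 : Finset.Ico (0 : ℤ) (n + 1) = insert n (Finset.Ico 0 n) := by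
      ext a
      simp only [Finset.mem_Ico, Finset.mem_insert]
      omega
    have h2 : Finset.Ico (n + 1) (0 : ℤ) = ∅ := Finset.Ico_eq_empty (by omega)
    have h3 : Finset.Ico n (0 : ℤ) = ∅ := Finset.Ico_eq_empty (by omega)
    rw [h1, h2, h3, Finset.sum_insert (by simp)]
    ring
  · have h1 : Finset.Ico n (0 : ℤ) = insert n (Finset.Ico (n + 1) 0) := by
      ext a
      simp only [Finset.mem_Ico, Finset.mem_insert]
      omega
    have h2 : Finset.Ico (0 : ℤ) (n + 1) = ∅ := Finset.Ico_eq_empty (by omega)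
    have h3 : Finset.Ico (0 : ℤ) n = ∅ := Finset.Ico_eq_empty (by omega)
    rw [h1, h2, h3, Finset.sum_insert (by simp)]
    ring

theorem dot_Pt_succ (l : Fin d → ℝ) (x : ℤ → Fin d) (n : ℤ) :
    dot l (ic (Pt x (n + 1))) = dot l (ic (Pt x n)) + l (x n) := by
  unfold dot ic
  have h : ∀ i, l i * ((Pt x (n + 1) i : ℤ) : ℝ) =
      l i * ((Pt x n i : ℤ) : ℝ) + if x n = i then l i else 0 := by
    intro i
    rw [Pt_succ]
    push_cast
    split_ifs <;> ring
  simp only [h, Finset.sum_add_distrib, Finset.sum_ite_eq, Finset.mem_univ, if_true]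

theorem dot_Pt_mono {l : Fin d → ℝ} (hl : ∀ i, 0 < l i) (x : ℤ → Fin d) (n : ℤ) (k : ℕ) :
    dot l (ic (Pt x n)) + lm l * k ≤ dot l (ic (Pt x (n + k))) := by
  induction k with
  | zero => simp
  | succ k ih =>
    push_cast
    rw [← add_assoc, dot_Pt_succ]
    have := lm_le hl (x (n + k))
    linarith

theorem dot_sub' (l : Fin d → ℝ) (v w : Fin d → ℤ) :
    dot l (ic (v - w)) = dot l (ic v) - dot l (ic w) := by
  unfold dot ic
  rw [← Finset.sum_sub_distrib]
  refine Finset.sum_congr rfl fun i _ => ?_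
  simp only [Pi.sub_apply]
  push_cast
  ring

theorem abs_lt_of_len {l : Fin d → ℝ} (hl : ∀ i, 0 < l i) {i j : Fin d} {v : Fin d → ℤ}
    (h : 0 < len l i j v) : |dot l (ic v)| < sl l := by
  unfold len at h
  have h1 := min_le_left (dot l (ic v) + l i) (l j)
  have h2 := min_le_right (dot l (ic v) + l i) (l j)
  have h3 := le_max_left (dot l (ic v)) 0
  have h4 := le_max_right (dot l (ic v)) 0
  have h5 := le_sl hl i
  have h6 := le_sl hl j
  rw [abs_lt]
  constructor <;> linarith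

end TC6b

open TC6b

theorem c6b_holds : StC6b := by
  intro d l hl
  refine ⟨2 * ⌈2 * sl l / lm l⌉₊ + 1, ?_⟩
  intro i v y0
  set J := ⌈2 * sl l / lm l⌉₊ with hJ
  by_cases hex : ∃ m1 : ℤ, 0 < len l i (y0 m1) (v - Pt y0 m1)
  · obtain ⟨m1, hm1⟩ := hex
    refine ⟨Finset.Icc (m1 - J) (m1 + J), ?_, ?_⟩
    · rw [Int.card_Icc]
      omega
    · intro m' hm'
      have hlm := lm_pos hl i
      have h1 := abs_lt_of_len hl hm1
      have h2 := abs_lt_of_len hl hm'
      rw [dot_sub'] at h1 h2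
      rw [abs_lt] at h1 h2
      have key : ∀ a b : ℤ, a ≤ b → dot l (ic (Pt y0 b)) - dot l (ic (Pt y0 a)) < 2 * sl l →
          b ≤ a + J := by
        intro a b hab h
        obtain ⟨k, rfl⟩ := Int.le.dest hab
        have h3 := dot_Pt_mono hl y0 a k
        have h4 : lm l * k < 2 * sl l := by linarith
        have h5 : (k : ℝ) < 2 * sl l / lm l := by
          rw [lt_div_iff₀ hlm]
          linarith
        have h6 : (k : ℝ) < J := h5.trans_le (Nat.le_ceil _)
        have h7 : k < J := by exact_mod_cast h6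
        omega
      rw [Finset.mem_Icc]
      rcases le_total m1 m' with h | h
      · have := key m1 m' h (by linarith [h1.1, h1.2, h2.1, h2.2])
        omega
      · have := key m' m1 h (by linarith [h1.1, h1.2, h2.1, h2.2])
        omega
  · refine ⟨∅, by simp, fun m' hm' => absurd ⟨m', hm'⟩ hex⟩

end Pool.Agent.H811R3.PS
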