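import Pool.Agent.H811R3.PS.Defs3

/-!
# Iterated desubstitutions: the task C6c
-/

set_option autoImplicit false

open Finset MeasureTheory Filter

namespace Pool.Agent.H811R3.PS

namespace TC6c

variable {d : ℕ}

/-- the word `u` is read in `x` from the position `p` on -/
def Rd (x : ℤ → Fin d) : ℤ → List (Fin d) → Prop
  | _, [] => True
  | p, a :: u => x p = a ∧ Rd x (p + 1) u

theorem rd_append (x : ℤ → Fin d) (u v : List (Fin d)) (p : ℤ) :
    Rd x p (u ++ v) ↔ Rd x p u ∧ Rd x (p + u.length) v := by
  induction u generalizing p with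
  | nil => simp [Rd]
  | cons a u ih =>
    simp only [List.cons_append, Rd, ih, List.length_cons, Nat.cast_add, Nat.cast_one]
    rw [show p + ((u.length : ℤ) + 1) = p + 1 + u.length by ring]
    tauto

theorem rd_of_getD (x : ℤ → Fin d) (j : Fin d) (u : List (Fin d)) (p : ℤ)
    (h : ∀ t : ℕ, t < u.length → x (p + t) = u.getD t j) : Rd x p u := by
  induction u generalizing p with
  | nil => trivial
  | cons a u ih =>
    refine ⟨?_, ih (p + 1) ?_⟩
    · have := h 0 (by simp)
      simpa using this
    · intro t ht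
      have := h (t + 1) (by simpa using ht)
      have e : p + ((t + 1 : ℕ) : ℤ) = p + 1 + t := by push_cast; ring
      rw [e] at this
      simpa using this

theorem rd_eq (x x' : ℤ → Fin d) (u : List (Fin d)) (p : ℤ) (h : Rd x p u) (h' : Rd x' p u)
    (n : ℤ) (h1 : p ≤ n) (h2 : n < p + u.length) : x' n = x n := by
  induction u generalizing p with
  | nil => simp at h2; omega
  | cons a u ih =>
    rcases eq_or_lt_of_le h1 with e | e
    · subst e
      rw [h.1, h'.1]
    · refine ih (p + 1) h.2 h'.2 (by omega) ?_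
      simp only [List.length_cons, Nat.cast_add, Nat.cast_one] at h2
      omega

theorem rd_sum (x : ℤ → Fin d) (l : Fin d → ℝ) (u : List (Fin d)) (p : ℤ) (h : Rd x p u) :
    ∑ s ∈ Finset.Ico p (p + u.length), l (x s) = (u.map l).sum := by
  induction u generalizing p with
  | nil => simp
  | cons a u ih =>
    have e : Finset.Ico p (p + ((a :: u).length : ℕ)) =
        insert p (Finset.Ico (p + 1) (p + 1 + u.length)) := by
      ext s
      simp only [List.length_cons, Finset.mem_Ico, Finset.mem_insert]
      push_cast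
      omega
    rw [e, Finset.sum_insert (by simp), ih (p + 1) h.2, h.1]
    simp

theorem appK_nil (σ : Fin d → List (Fin d)) (K : ℕ) : (app σ)^[K] [] = [] := by
  induction K with
  | zero => rfl
  | succ K ih => rw [Function.iterate_succ_apply']; rw [ih]; rfl

theorem appK_append (σ : Fin d → List (Fin d)) (K : ℕ) (u v : List (Fin d)) :
    (app σ)^[K] (u ++ v) = (app σ)^[K] u ++ (app σ)^[K] v := by
  induction K generalizing u v with
  | zero => rfl
  | succ K ih =>
    rw [Function.iterate_succ_apply, Function.iterate_succ_apply, Function.iterate_succ_apply]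
    rw [← ih]
    simp [app]

theorem appK_flatMap (σ : Fin d → List (Fin d)) (K : ℕ) (u : List (Fin d)) :
    (app σ)^[K] u = u.flatMap (fun a => (app σ)^[K] [a]) := by
  induction u with
  | nil => simpa using appK_nil σ K
  | cons a u ih =>
    rw [show a :: u = [a] ++ u from rfl, appK_append, ih]
    simp

theorem image (x x1 : ℤ → Fin d) (c1 : ℤ → ℤ) (w : Fin d → List (Fin d))
    (h : ∀ m, Rd x (c1 m) (w (x1 m)) ∧ c1 (m + 1) = c1 m + (w (x1 m)).length)
    (u : List (Fin d)) (p : ℤ) (hu : Rd x1 p u) :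
    Rd x (c1 p) (u.flatMap w) ∧ c1 (p + u.length) = c1 p + (u.flatMap w).length := by
  induction u generalizing p with
  | nil => simp [Rd]
  | cons a u ih =>
    obtain ⟨h1, h2⟩ := ih (p + 1) hu.2
    obtain ⟨h3, h4⟩ := h p
    rw [hu.1] at h3 h4
    refine ⟨?_, ?_⟩
    · rw [List.flatMap_cons, rd_append]
      refine ⟨h3, ?_⟩
      rw [← h4]
      exact h1
    · rw [List.flatMap_cons]
      have e : p + ((a :: u).length : ℕ) = p + 1 + u.length := by
        simp only [List.length_cons]
        push_cast
        ring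
      rw [e, h2, h4]
      simp only [List.length_append]
      push_cast
      ring

theorem word (σ : Fin d → List (Fin d)) (K : ℕ) (x y : ℤ → Fin d) (c : ℤ → ℤ)
    (h : DesK σ K x y c) (m : ℤ) :
    Rd x (c m) ((app σ)^[K] [y m]) ∧ c (m + 1) = c m + ((app σ)^[K] [y m]).length := by
  induction K generalizing x y c m with
  | zero =>
    obtain ⟨h1, h2⟩ := h
    subst h1
    rw [h2, h2]
    simp [Rd]
  | succ K ih =>
    obtain ⟨x1, c1, c', hd, _, hD, hc⟩ := h
    have hr : Rd x1 (c' m) (σ (y m)) := by
      refine rd_of_getD x1 (y m) _ _ ?_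
      intro t ht
      exact hD.letter m t ht
    have hI := image x x1 c1 (fun a => (app σ)^[K] [a]) (fun m => ih x x1 c1 hd m)
      (σ (y m)) (c' m) hr
    have e : (app σ)^[K + 1] [y m] = (σ (y m)).flatMap (fun a => (app σ)^[K] [a]) := by
      rw [Function.iterate_succ_apply, appK_flatMap]
      simp [app]
    rw [e, hc, hc, hD.step]
    exact hI

theorem map_sum_eq (l : Fin d → ℝ) (u : List (Fin d)) :
    (u.map l).sum = ∑ i, l i * (u.count i : ℝ) := by
  induction u with
  | nil => simp
  | cons a u ih =>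
    simp only [List.map_cons, List.sum_cons, ih, List.count_cons]
    have : ∀ i, l i * (((u.count i + if a == i then 1 else 0 : ℕ)) : ℝ) =
        l i * (u.count i : ℝ) + (if a = i then l i else 0) := by
      intro i
      by_cases h : a = i
      · simp [h, mul_add]
      · simp [h]
    simp only [this, Finset.sum_add_distrib]
    simp
    ring

theorem wt (σ : Fin d → List (Fin d)) (Lam : ℝ) (l : Fin d → ℝ)
    (hl : ∀ j, ∑ i, l i * (inc σ i j : ℝ) = Lam * l j) (u : List (Fin d)) :
    ((app σ u).map l).sum = Lam * (u.map l).sum := by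
  induction u with
  | nil => simp [app]
  | cons a u ih =>
    have e : app σ (a :: u) = σ a ++ app σ u := by simp [app]
    rw [e, List.map_append, List.sum_append, ih, map_sum_eq]
    have := hl a
    simp only [inc, Int.cast_natCast] at this
    rw [this]
    simp [mul_add]

theorem wtK (σ : Fin d → List (Fin d)) (Lam : ℝ) (l : Fin d → ℝ)
    (hl : ∀ j, ∑ i, l i * (inc σ i j : ℝ) = Lam * l j) (K : ℕ) (a : Fin d) :
    (((app σ)^[K] [a]).map l).sum = Lam ^ K * l a := by
  induction K with
  | zero => simp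
  | succ K ih =>
    rw [Function.iterate_succ_apply', wt σ Lam l hl, ih]
    ring

theorem le_sl (l : Fin d → ℝ) (hl : ∀ i, 0 < l i) (i : Fin d) : l i ≤ sl l :=
  Finset.single_le_sum (f := l) (fun j _ => (hl j).le) (Finset.mem_univ i)

theorem sum_le_len (l : Fin d → ℝ) (hl : ∀ i, 0 < l i) (u : List (Fin d)) :
    (u.map l).sum ≤ sl l * u.length := by
  induction u with
  | nil => simp
  | cons a u ih =>
    simp only [List.map_cons, List.sum_cons, List.length_cons]
    push_cast
    have := le_sl l hl a
    nlinarith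

theorem dot_Pt (l : Fin d → ℝ) (x : ℤ → Fin d) (n : ℤ) (hn : n ≤ 0) :
    dot l (ic (Pt x n)) = - ∑ s ∈ Finset.Ico n 0, l (x s) := by
  unfold dot ic Pt
  have e : Finset.Ico (0 : ℤ) n = ∅ := by
    rw [Finset.Ico_eq_empty_iff]; omega
  simp only [e, Finset.sum_empty, zero_sub, Int.cast_neg, mul_neg, Finset.sum_neg_distrib]
  congr 1
  push_cast
  simp only [Finset.mul_sum]
  rw [Finset.sum_comm]
  refine Finset.sum_congr rfl fun s _ => ?_
  simp

end TC6c

open TC6c in
theorem c6c_holds : StC6c := by
  intro hC1 d hd σ Lam l f hinc hDat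
  obtain ⟨hdes, -, -, -, -⟩ := hC1 d hd σ hinc
  have hL0 : 0 < Lam := lt_trans one_pos hDat.one_lt
  have hpos : ∀ (K : ℕ) (a : Fin d), 0 < ((app σ)^[K] [a]).length := by
    intro K a
    rcases Nat.eq_zero_or_pos ((app σ)^[K] [a]).length with h | h
    · exfalso
      have h1 := wtK σ Lam l hDat.left K a
      rw [List.length_eq_zero_iff] at h
      rw [h] at h1
      simp only [List.map_nil, List.sum_nil] at h1
      have : 0 < Lam ^ K * l a := mul_pos (pow_pos hL0 K) (hDat.lpos a)
      linarith
    · exact h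
  have hmono : ∀ (K : ℕ) (x y : ℤ → Fin d) (c : ℤ → ℤ), DesK σ K x y c → StrictMono c := by
    intro K x y c h
    refine strictMono_int_of_lt_succ ?_
    intro m
    have h1 := (word σ K x y c h m).2
    have h2 := hpos K (y m)
    omega
  have hzero : ∀ (K : ℕ) (x y : ℤ → Fin d) (c : ℤ → ℤ), DesK σ K x y c → c 0 ≤ 0 ∧ 0 < c 1 := by
    intro K
    induction K with
    | zero =>
      intro x y c h
      rw [h.2, h.2]
      simp
    | succ K ih =>
      intro x y c h
      obtain ⟨x1, c1, c', hd, _, hD, hc⟩ := h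
      obtain ⟨h1, h2⟩ := ih x x1 c1 hd
      have hm := (hmono K x x1 c1 hd).monotone
      obtain ⟨h3, h4⟩ := hD.zero
      rw [hc, hc]
      refine ⟨(hm h3).trans h1, lt_of_lt_of_le h2 (hm (by omega))⟩
  refine ⟨?_, ?_⟩
  · intro K
    induction K with
    | zero =>
      intro x hx
      exact ⟨x, fun m => m, hx, rfl, fun m => rfl⟩
    | succ K ih =>
      intro x hx
      obtain ⟨x1, c1, hx1, hd1⟩ := ih x hx
      obtain ⟨y, hy, c', hD⟩ := hdes x1 hx1
      exact ⟨y, fun m => c1 (c' m), hy, x1, c1, c', hd1, hy, hD, fun m => rfl⟩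
  · intro K x y c hx h
    obtain ⟨h0, h1⟩ := hzero K x y c h
    refine ⟨?_, h0, h1, ?_, ?_, ?_⟩
    · cases K with
      | zero => obtain ⟨e, -⟩ := h; rw [e]; exact hx
      | succ K => obtain ⟨x1, c1, c', hd, hy, -, -⟩ := h; exact hy
    · intro m
      have h2 := (word σ K x y c h m).2
      have h3 := wtK σ Lam l hDat.left K (y m)
      have h4 := sum_le_len l hDat.lpos ((app σ)^[K] [y m])
      have h5 : 0 < sl l := lt_of_lt_of_le (hDat.lpos (y m)) (le_sl l hDat.lpos (y m))
      rw [h2, div_le_iff₀ h5, ← h3]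
      push_cast
      rw [add_sub_cancel_left]
      linarith [mul_comm (sl l) (((app σ)^[K] [y m]).length : ℝ)]
    · rw [dot_Pt l x (c 0) h0, abs_neg, abs_of_nonneg (Finset.sum_nonneg fun s _ => (hDat.lpos _).le)]
      obtain ⟨h2, h3⟩ := word σ K x y c h 0
      have h4 := rd_sum x l _ _ h2
      rw [wtK σ Lam l hDat.left K (y 0)] at h4
      have h5 : Finset.Ico (c 0) 0 ⊆ Finset.Ico (c 0) (c 0 + ((app σ)^[K] [y 0]).length) := by
        intro s hs
        rw [Finset.mem_Ico] at hs ⊢
        rw [zero_add] at h3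
        omega
      have h6 := Finset.sum_le_sum_of_subset_of_nonneg (f := fun s => l (x s)) h5
        (fun s _ _ => (hDat.lpos _).le)
      rw [h4] at h6
      refine h6.trans ?_
      exact mul_le_mul_of_nonneg_left (le_sl l hDat.lpos (y 0)) (pow_nonneg hL0.le K)
    · intro x' y' c' h' e0 e1 ec n hn1 hn2
      obtain ⟨a1, a2⟩ := word σ K x y c h 0
      obtain ⟨b1, b2⟩ := word σ K x y c h 1
      obtain ⟨a1', a2'⟩ := word σ K x' y' c' h' 0
      obtain ⟨b1', b2'⟩ := word σ K x' y' c' h' 1
      rw [e0] at a1' a2'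
      rw [e1] at b1' b2'
      rw [zero_add] at a2 a2'
      rw [show (1 : ℤ) + 1 = 2 from rfl] at b2 b2'
      rw [ec] at a1' a2'
      have r : Rd x (c 0) ((app σ)^[K] [y 0] ++ (app σ)^[K] [y 1]) := by
        rw [rd_append]
        exact ⟨a1, a2 ▸ b1⟩
      have r' : Rd x' (c 0) ((app σ)^[K] [y 0] ++ (app σ)^[K] [y 1]) := by
        rw [rd_append]
        exact ⟨a1', a2' ▸ b1'⟩
      refine rd_eq x x' _ _ r r' n hn1 ?_
      rw [List.length_append]
      push_cast
      omega

end Pool.Agent.H811R3.PS
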