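import Pool.Agent.H811R3.PS.Defs3

set_option autoImplicit false

open Finset MeasureTheory Filter

namespace Pool.Agent.H811R3.PS

/-! ### linear facts -/

lemma C7dot_add {d : ℕ} (l : Fin d → ℝ) (u v : Fin d → ℤ) :
    dot l (ic (u + v)) = dot l (ic u) + dot l (ic v) := by
  simp only [dot, ic, Pi.add_apply, Int.cast_add, mul_add, Finset.sum_add_distrib]

lemma C7dot_sub {d : ℕ} (l : Fin d → ℝ) (u v : Fin d → ℤ) :
    dot l (ic (u - v)) = dot l (ic u) - dot l (ic v) := by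
  simp only [dot, ic, Pi.sub_apply, Int.cast_sub, mul_sub, Finset.sum_sub_distrib]

lemma C7dot_mulVec {d : ℕ} {A : Matrix (Fin d) (Fin d) ℤ} {Lam : ℝ} {l f : Fin d → ℝ}
    (D : Dat A Lam l f) (v : Fin d → ℤ) : dot l (ic (A.mulVec v)) = Lam * dot l (ic v) := by
  simp only [dot, ic, Matrix.mulVec, dotProduct, Int.cast_sum, Int.cast_mul, Finset.mul_sum]
  rw [Finset.sum_comm]
  refine Finset.sum_congr rfl fun j _ => ?_
  have h := D.left j
  have h2 : ∑ i, l i * ((A i j : ℝ) * (v j : ℝ)) = (∑ i, l i * (A i j : ℝ)) * (v j : ℝ) := by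
    rw [Finset.sum_mul]
    exact Finset.sum_congr rfl fun i _ => by ring
  rw [h2, h]
  ring

lemma C7dot_pow {d : ℕ} {A : Matrix (Fin d) (Fin d) ℤ} {Lam : ℝ} {l f : Fin d → ℝ}
    (D : Dat A Lam l f) (K : ℕ) (v : Fin d → ℤ) :
    dot l (ic ((A ^ K).mulVec v)) = Lam ^ K * dot l (ic v) := by
  induction K generalizing v with
  | zero => simp
  | succ K ih =>
    rw [pow_succ, ← Matrix.mulVec_mulVec, ih, C7dot_mulVec D]
    ring

lemma C7sl {d : ℕ} {l : Fin d → ℝ} (hl : ∀ i, 0 < l i) (i : Fin d) : l i ≤ sl l :=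
  Finset.single_le_sum (fun j _ => (hl j).le) (Finset.mem_univ i)

lemma C7lm {d : ℕ} {l : Fin d → ℝ} (hl : ∀ i, 0 < l i) (i : Fin d) : lm l ≤ l i := by
  unfold lm
  have h1 : (l i)⁻¹ ≤ ∑ j, (l j)⁻¹ :=
    Finset.single_le_sum (f := fun j => (l j)⁻¹) (fun j _ => (inv_pos.2 (hl j)).le)
      (Finset.mem_univ i)
  have h2 := inv_anti₀ (inv_pos.2 (hl i)) h1
  rwa [inv_inv] at h2

lemma C7lm_pos {n : ℕ} {l : Fin (n + 1) → ℝ} (hl : ∀ i, 0 < l i) : 0 < lm l := by
  unfold lm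
  apply inv_pos.2
  exact Finset.sum_pos (fun i _ => inv_pos.2 (hl i)) Finset.univ_nonempty

lemma C7dot_le {d : ℕ} {l : Fin d → ℝ} (hl : ∀ i, 0 < l i) (y : Fin d → ℝ) :
    |dot l y| ≤ sl l * ‖y‖ := by
  unfold dot sl
  rw [Finset.sum_mul]
  refine (Finset.abs_sum_le_sum_abs _ _).trans (Finset.sum_le_sum fun i _ => ?_)
  rw [abs_mul, abs_of_pos (hl i)]
  exact mul_le_mul_of_nonneg_left (by simpa using norm_le_pi_norm y i) (hl i).le

lemma C7prj_add {d : ℕ} (f x y : Fin d → ℝ) : prj f (x + y) = prj f x + prj f y := by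
  funext i
  simp only [prj, Pi.add_apply, Finset.sum_add_distrib]
  ring

lemma C7prj_sub {d : ℕ} (f x y : Fin d → ℝ) : prj f (x - y) = prj f x - prj f y := by
  funext i
  simp only [prj, Pi.sub_apply, Finset.sum_sub_distrib]
  ring

lemma C7ic_add {d : ℕ} (u v : Fin d → ℤ) : ic (u + v) = ic u + ic v := by
  funext i
  simp [ic]

lemma C7ic_sub {d : ℕ} (u v : Fin d → ℤ) : ic (u - v) = ic u - ic v := by
  funext i
  simp [ic]

/-! ### vertices of strands -/

lemma C7Pt_zero {d : ℕ} (x : ℤ → Fin d) : Pt x 0 = 0 := by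
  funext i
  simp [Pt]

lemma C7Pt_succ {d : ℕ} (x : ℤ → Fin d) (n : ℤ) : Pt x (n + 1) = Pt x n + Pi.single (x n) 1 := by
  funext i
  have hs : (Pi.single (x n) (1 : ℤ) : Fin d → ℤ) i = if x n = i then 1 else 0 := by
    by_cases h : x n = i
    · subst h; simp
    · rw [Pi.single_eq_of_ne (Ne.symm h), if_neg h]
  rw [Pi.add_apply, hs]
  unfold Pt
  rcases le_or_gt 0 n with h | h
  · have h1 : Finset.Ico (0 : ℤ) (n + 1) = insert n (Finset.Ico 0 n) := by
      ext s
      simp only [Finset.mem_Ico, Finset.mem_insert]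
      omega
    have h2 : Finset.Ico (n + 1) (0 : ℤ) = ∅ := by
      rw [Finset.Ico_eq_empty_iff]; omega
    have h3 : Finset.Ico n (0 : ℤ) = ∅ := by
      rw [Finset.Ico_eq_empty_iff]; omega
    rw [h1, h2, h3, Finset.sum_insert (by simp)]
    simp only [Finset.sum_empty]
    ring
  · have h1 : Finset.Ico n (0 : ℤ) = insert n (Finset.Ico (n + 1) 0) := by
      ext s
      simp only [Finset.mem_Ico, Finset.mem_insert]
      omega
    have h2 : Finset.Ico (0 : ℤ) (n + 1) = ∅ := by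
      rw [Finset.Ico_eq_empty_iff]; omega
    have h3 : Finset.Ico (0 : ℤ) n = ∅ := by
      rw [Finset.Ico_eq_empty_iff]; omega
    rw [h1, h2, h3, Finset.sum_insert (by simp)]
    simp only [Finset.sum_empty]
    ring

lemma C7Pt_sum {d : ℕ} (x : ℤ → Fin d) (n : ℤ) : ∑ i, Pt x n i = n := by
  unfold Pt
  rw [Finset.sum_sub_distrib, Finset.sum_comm, Finset.sum_comm (s := Finset.univ)
    (t := Finset.Ico n 0)]
  simp only [Finset.sum_ite_eq, Finset.mem_univ, if_true, Finset.sum_const, Int.card_Ico,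
    nsmul_eq_mul, mul_one]
  omega

/-- shifted sequences stay in the subshift, and the address changes by the vertex -/
lemma C7shift (h1 : StC1) {d : ℕ} (hd : 2 ≤ d) {σ : Fin d → List (Fin d)} {f : Fin d → ℝ}
    {T : (ℤ → Fin d) → Fin d → ℝ} (hinc : ∀ i j, 1 ≤ inc σ i j) (hA : Addr σ f T)
    (z : ℤ → Fin d) (hz : z ∈ XS σ) (m : ℤ) :
    (fun k => z (k + m)) ∈ XS σ ∧ T (fun k => z (k + m)) = T z + prj f (ic (Pt z m)) := by
  obtain ⟨-, -, hsh, -, -⟩ := h1 d hd σ hinc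
  induction m using Int.induction_on with
  | zero =>
    simp only [add_zero]
    refine ⟨hz, ?_⟩
    rw [C7Pt_zero]
    have : prj f (ic (0 : Fin d → ℤ)) = 0 := by
      funext i
      simp [prj, ic]
    rw [this, add_zero]
  | succ m ih =>
    obtain ⟨ih1, ih2⟩ := ih
    have he : (fun k => z (k + ((m : ℤ) + 1))) = sh (fun k => z (k + (m : ℤ))) := by
      funext k
      unfold sh
      congr 1
      ring
    rw [he]
    refine ⟨(hsh _).1 ih1, ?_⟩
    rw [hA.shift _ ih1, ih2, C7Pt_succ, C7ic_add, C7prj_add]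
    simp only [zero_add]
    abel
  | pred m ih =>
    obtain ⟨ih1, ih2⟩ := ih
    have he : sh (fun k => z (k + (-(m : ℤ) - 1))) = (fun k => z (k + -(m : ℤ))) := by
      funext k
      have hk : k + 1 + (-(m : ℤ) - 1) = k + -(m : ℤ) := by ring
      show z (k + 1 + (-(m : ℤ) - 1)) = z (k + -(m : ℤ))
      rw [hk]
    have hmem : (fun k => z (k + (-(m : ℤ) - 1))) ∈ XS σ := by
      rw [hsh, he]
      exact ih1
    refine ⟨hmem, ?_⟩
    have h2 := hA.shift _ hmem
    rw [he, ih2] at h2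
    simp only [zero_add] at h2
    have h3 := C7Pt_succ z (-(m : ℤ) - 1)
    rw [sub_add_cancel] at h3
    rw [h3, C7ic_add, C7prj_add] at h2
    have h4 : T (fun k => z (k + (-(m : ℤ) - 1))) + prj f (ic (Pi.single (z (-(m : ℤ) - 1)) 1)) =
      (T z + prj f (ic (Pt z (-(m : ℤ) - 1)))) + prj f (ic (Pi.single (z (-(m : ℤ) - 1)) 1)) := by
      rw [← h2]; abel
    exact add_right_cancel h4

/-- points of the same fibre differ by an integer vector with sum zero -/
lemma C7int {n : ℕ} {σ : Fin (n + 1) → List (Fin (n + 1))} {f : Fin (n + 1) → ℝ}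
    {T : (ℤ → Fin (n + 1)) → Fin (n + 1) → ℝ} (hA : Addr σ f T) {x x0 : ℤ → Fin (n + 1)}
    (hx : x ∈ XS σ) (hx0 : x0 ∈ XS σ) (h : tor T x = tor T x0) :
    ∃ u : Fin (n + 1) → ℤ, ∑ i, u i = 0 ∧ ic u = T x - T x0 := by
  have h1 : ∀ i : Fin n, ∃ k : ℤ, (k : ℝ) = T x i.castSucc - T x0 i.castSucc := by
    intro i
    have h2 : ((T x i.castSucc : ℝ) : UnitAddCircle) = ((T x0 i.castSucc : ℝ) : UnitAddCircle) :=
      congrFun h i
    have h3 := (QuotientAddGroup.eq.1 h2)
    obtain ⟨k, hk⟩ := AddSubgroup.mem_zmultiples_iff.1 h3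
    refine ⟨-k, ?_⟩
    simp only [zsmul_eq_mul, mul_one] at hk
    push_cast
    rw [hk]
    ring
  choose k hk using h1
  refine ⟨Fin.snoc k (-∑ i, k i), ?_, ?_⟩
  · rw [Fin.sum_univ_castSucc]
    simp
  · have hs1 := hA.sum0 x hx
    have hs0 := hA.sum0 x0 hx0
    rw [Fin.sum_univ_castSucc] at hs1 hs0
    funext i
    refine Fin.lastCases ?_ (fun i => ?_) i
    · simp only [ic, Fin.snoc_last, Pi.sub_apply, Int.cast_neg, Int.cast_sum, hk,
        Finset.sum_sub_distrib]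
      linarith
    · simp only [ic, Fin.snoc_castSucc, Pi.sub_apply, hk]

lemma C7prj_self {d : ℕ} (f : Fin d → ℝ) (u : Fin d → ℤ) (h : ∑ i, u i = 0) :
    prj f (ic u) = ic u := by
  funext i
  have h1 : ∑ j, ic u j = 0 := by
    simp only [ic]
    exact_mod_cast h
  simp only [prj, h1, zero_mul, sub_zero]

/-- the coordinates are controlled by the two components -/
lemma C7box {d : ℕ} {A : Matrix (Fin d) (Fin d) ℤ} {Lam : ℝ} {l f : Fin d → ℝ}
    (D : Dat A Lam l f) {R B : ℝ} (v : Fin d → ℤ) (h1 : ‖prj f (ic v)‖ ≤ R)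
    (h2 : |dot l (ic v)| ≤ B) (i : Fin d) : |(v i : ℝ)| ≤ R + (B + sl l * R) := by
  set S : ℝ := ∑ b, ic v b with hS
  have hp : ∀ b, prj f (ic v) b = (v b : ℝ) - S * f b := fun b => rfl
  have hdot : dot l (ic v) = dot l (prj f (ic v)) + S := by
    have h3 : dot l (prj f (ic v)) = dot l (ic v) - S * dot l f := by
      unfold dot
      simp only [hp, mul_sub, Finset.sum_sub_distrib, Finset.mul_sum]
      congr 1
      exact Finset.sum_congr rfl fun b _ => by ring
    rw [h3, D.lf]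
    ring
  have hsl : 0 ≤ sl l := (D.lpos i).le.trans (C7sl D.lpos i)
  have hS1 : |S| ≤ B + sl l * R := by
    have h3 : S = dot l (ic v) - dot l (prj f (ic v)) := by rw [hdot]; ring
    rw [h3]
    refine (abs_sub _ _).trans (add_le_add h2 ?_)
    exact (C7dot_le D.lpos _).trans (mul_le_mul_of_nonneg_left h1 hsl)
  have hf1 : f i ≤ 1 := by
    rw [← D.fsum]
    exact Finset.single_le_sum (fun b _ => (D.fpos b).le) (Finset.mem_univ i)
  have h9 : |prj f (ic v) i| ≤ R := by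
    have := norm_le_pi_norm (prj f (ic v)) i
    rw [Real.norm_eq_abs] at this
    linarith
  have h10 : (v i : ℝ) = prj f (ic v) i + S * f i := by rw [hp]; ring
  rw [h10]
  refine (abs_add_le _ _).trans (add_le_add h9 ?_)
  rw [abs_mul, abs_of_pos (D.fpos i)]
  have h11 : |S| * f i ≤ |S| * 1 := mul_le_mul_of_nonneg_left hf1 (abs_nonneg _)
  linarith

/-- `x` belongs to the class `κ = (uK, z 0, z 1)` -/
structure C7Cl {n : ℕ} (σ : Fin (n + 1) → List (Fin (n + 1))) (f : Fin (n + 1) → ℝ)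
    (T : (ℤ → Fin (n + 1)) → Fin (n + 1) → ℝ) (K : ℕ) (x0 y0 : ℤ → Fin (n + 1)) (c0 : ℤ → ℤ)
    (x : ℤ → Fin (n + 1)) (κ : (Fin (n + 1) → ℤ) × Fin (n + 1) × Fin (n + 1)) : Prop where
  mem : x ∈ XS σ
  ex : ∃ (z : ℤ → Fin (n + 1)) (c : ℤ → ℤ) (u : Fin (n + 1) → ℤ), DesK σ K x z c ∧
    ∑ i, u i = 0 ∧ ic u = T x - T x0 ∧ κ.2.1 = z 0 ∧ κ.2.2 = z 1 ∧
    prj f (ic κ.1) = T z - T y0 ∧
    ((inc σ) ^ K).mulVec κ.1 = u + Pt x (c 0) - Pt x0 (c0 0)

lemma C7start {n : ℕ} {σ : Fin (n + 1) → List (Fin (n + 1))} {K : ℕ} {x x0 : ℤ → Fin (n + 1)}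
    {a a0 : ℤ} {u v : Fin (n + 1) → ℤ} (hu : ∑ i, u i = 0)
    (h : ((inc σ) ^ K).mulVec v = u + Pt x a - Pt x0 a0) :
    a = a0 + ∑ i, (((inc σ) ^ K).mulVec v) i := by
  rw [h]
  simp only [Pi.sub_apply, Pi.add_apply, Finset.sum_sub_distrib, Finset.sum_add_distrib, hu,
    C7Pt_sum]
  ring

open Classical in
theorem c7_holds : StC7 := by
  intro hC1 hC6 hC6b hC6c n hn σ Lam l f T R C θ' hinc D hdet hA hTR hC0 hθ0 hθL hFK
  obtain ⟨hex, hdes⟩ := hC6c hC1 (n + 1) (by omega) σ Lam l f hinc D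
  obtain ⟨J, hJ⟩ := hC6b (n + 1) l D.lpos
  have hL : 0 < Lam := by linarith [D.one_lt]
  have hlm : 0 < lm l := C7lm_pos D.lpos
  have hsl : 0 < sl l := lt_of_lt_of_le (D.lpos 0) (C7sl D.lpos 0)
  set B : ℝ := R + ((sl l * R + 2 * sl l) + sl l * R) with hB
  set F : Finset (Fin (n + 1) → ℤ) := Finset.Icc (fun _ => -⌈B⌉) (fun _ => ⌈B⌉) with hF
  set M : ℝ := 2 * (J * (C / lm l)) with hM
  have hM0 : 0 ≤ M := by positivity
  refine ⟨lm l / sl l, (F.card * ((n + 1) * (n + 1)) : ℝ) * M + 1, by positivity, by positivity,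
    fun K => ?_⟩
  have hLK : 0 < Lam ^ K := pow_pos hL K
  have hLK1 : 1 ≤ Lam ^ K := one_le_pow₀ D.one_lt.le
  refine ⟨⌈Lam ^ K * lm l / sl l⌉₊, ?_, fun y => ?_⟩
  · refine le_trans (le_of_eq ?_) (Nat.le_ceil _)
    ring
  by_cases hfib : ∃ x0 ∈ XS σ, tor T x0 = y
  swap
  · refine ⟨∅, ?_, ?_⟩
    · simp only [Finset.card_empty, Nat.cast_zero]
      positivity
    · rintro s - ⟨x, hx, x', -, hxy, -, -⟩
      exact absurd ⟨x, hx, hxy⟩ hfib
  obtain ⟨x0, hx0, hx0y⟩ := hfib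
  obtain ⟨y0, c0, hy0, hD0⟩ := hex K x0 hx0
  obtain ⟨-, hc00, hc01, hlen0, hdot0, -⟩ := hdes K x0 y0 c0 hx0 hD0
  set TK : ℕ := ⌈Lam ^ K * lm l / sl l⌉₊ with hTK
  -- lengths
  have hTKle : ∀ (a : Fin (n + 1)) (z : ℤ), Lam ^ K * l a / sl l ≤ ((z : ℤ) : ℝ) → (TK : ℤ) ≤ z := by
    intro a z hz
    have h1 : Lam ^ K * lm l / sl l ≤ (z : ℝ) := by
      refine le_trans ?_ hz
      apply div_le_div_of_nonneg_right _ hsl.le
      exact mul_le_mul_of_nonneg_left (C7lm D.lpos a) hLK.le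
    have h2 : 0 ≤ z := by
      have h3 : 0 ≤ Lam ^ K * lm l / sl l := by positivity
      exact_mod_cast h3.trans h1
    lift z to ℕ using h2
    have h4 : TK ≤ z := by
      rw [hTK, Nat.ceil_le]
      exact_mod_cast h1
    exact_mod_cast h4
  -- membership in a class
  have hmem : ∀ x ∈ XS σ, tor T x = y → ∃ κ ∈ F ×ˢ (Finset.univ : Finset (Fin (n + 1))) ×ˢ
      (Finset.univ : Finset (Fin (n + 1))), C7Cl σ f T K x0 y0 c0 x κ := by
    intro x hx hxy
    obtain ⟨z, c, hz, hDx⟩ := hex K x hx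
    obtain ⟨-, -, -, -, hdotx, -⟩ := hdes K x z c hx hDx
    obtain ⟨u, hu0, hu⟩ := C7int hA hx hx0 (hxy.trans hx0y.symm)
    have hprj : prj f (ic u) = T x - T x0 := by rw [C7prj_self f u hu0, hu]
    obtain ⟨uK, h1, h2, -⟩ := hC6 hC1 (n + 1) (by omega) σ Lam l f T hinc D hdet hA K x x0 z y0 c
      c0 u hx hx0 hDx hD0 hprj
    refine ⟨(uK, z 0, z 1), ?_, hx, z, c, u, hDx, hu0, hu, rfl, rfl, h1, h2⟩
    rw [Finset.mem_product]
    refine ⟨?_, by simp⟩
    have hn1 : ‖prj f (ic uK)‖ ≤ R := by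
      rw [h1]
      refine (norm_sub_le _ _).trans ?_
      have := hTR z hz
      have := hTR y0 hy0
      linarith
    have hn2 : |dot l (ic uK)| ≤ sl l * R + 2 * sl l := by
      have h3 := C7dot_pow D K uK
      rw [h2, C7dot_sub, C7dot_add] at h3
      have h4 : |dot l (ic u)| ≤ sl l * R := by
        refine (C7dot_le D.lpos _).trans (mul_le_mul_of_nonneg_left ?_ hsl.le)
        rw [hu]
        refine (norm_sub_le _ _).trans ?_
        have := hTR x hx
        have := hTR x0 hx0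
        linarith
      have hR0 : 0 ≤ sl l * R := le_trans (abs_nonneg _) h4
      have h5 : Lam ^ K * |dot l (ic uK)| ≤ Lam ^ K * (sl l * R + 2 * sl l) := by
        rw [← abs_of_pos hLK, ← abs_mul, ← h3, abs_of_pos hLK]
        have h6 : |dot l (ic u) + dot l (ic (Pt x (c 0))) - dot l (ic (Pt x0 (c0 0)))| ≤
            |dot l (ic u)| + |dot l (ic (Pt x (c 0)))| + |dot l (ic (Pt x0 (c0 0)))| :=
          (abs_sub _ _).trans (add_le_add (abs_add_le _ _) le_rfl)
        have h7 : sl l * R ≤ Lam ^ K * (sl l * R) := le_mul_of_one_le_left hR0 hLK1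
        nlinarith
      exact le_of_mul_le_mul_left h5 hLK
    have hbox := C7box D uK hn1 hn2
    rw [hF, Finset.mem_Icc]
    have hceil : B ≤ ⌈B⌉ := Int.le_ceil B
    constructor
    · intro i
      have h3 := (abs_le.1 (hbox i)).1
      have h4 : -(⌈B⌉ : ℝ) ≤ uK i := by linarith
      exact_mod_cast h4
    · intro i
      have h3 := (abs_le.1 (hbox i)).2
      have h4 : (uK i : ℝ) ≤ ⌈B⌉ := by linarith
      exact_mod_cast h4
  -- points of the same class agree on `[0, TK)`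
  have hagree : ∀ x x' κ, C7Cl σ f T K x0 y0 c0 x κ → C7Cl σ f T K x0 y0 c0 x' κ →
      ∀ s : ℕ, s < TK → x s = x' s := by
    intro x x' κ hx hx' s hs
    obtain ⟨hxm, z, c, u, hDx, hu0, hu, hk1, hk2, hk3, hk4⟩ := hx
    obtain ⟨hxm', z', c', u', hDx', hu0', hu', hk1', hk2', hk3', hk4'⟩ := hx'
    obtain ⟨-, hc0, hc1, hlen, -, hloc⟩ := hdes K x' z' c' hxm' hDx'
    have hcc : c 0 = c' 0 := by
      rw [C7start hu0 hk4, C7start hu0' hk4']
    apply hloc x z c hDx (hk1.symm.trans hk1') (hk2.symm.trans hk2') hcc s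
    · have : (0 : ℤ) ≤ s := by positivity
      omega
    · have h1 := hTKle _ _ (hlen 1)
      have h2 : ((1 : ℤ) + 1) = 2 := by norm_num
      rw [h2] at h1
      have h3 : (s : ℤ) < TK := by exact_mod_cast hs
      omega
  -- few disagreements with `x0`
  have hcard : ∀ x κ, C7Cl σ f T K x0 y0 c0 x κ →
      (((Finset.range TK).filter (fun s : ℕ => x s ≠ x0 s)).card : ℝ) ≤ M * θ' ^ K := by
    intro x κ hx
    obtain ⟨hxm, z, c, u, hDx, hu0, hu, hk1, hk2, hk3, hk4⟩ := hx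
    obtain ⟨hz, hc0, hc1, hlen, -, -⟩ := hdes K x z c hxm hDx
    have hprj : prj f (ic u) = T x - T x0 := by rw [C7prj_self f u hu0, hu]
    obtain ⟨uK, h1, h2, h3⟩ := hC6 hC1 (n + 1) (by omega) σ Lam l f T hinc D hdet hA K x x0 z y0 c
      c0 u hxm hx0 hDx hD0 hprj
    have hpiece : ∀ m : ℤ, ∑ k ∈ Finset.Ico (c m) (c (m + 1)),
        (if NCs x x0 u k then l (x k) else 0) ≤ J * (C * θ' ^ K) := by
      intro m
      obtain ⟨S, hSJ, hS⟩ := hJ (z m) (uK + Pt z m) y0
      refine (h3 m S hS).trans ?_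
      refine (Finset.sum_le_card_nsmul S _ (C * θ' ^ K) fun m' _ => ?_).trans ?_
      · apply hFK
        rw [C7ic_sub, C7ic_add, C7prj_sub, C7prj_add, h1]
        obtain ⟨ha1, ha2⟩ := C7shift hC1 (by omega) hinc hA z hz m
        obtain ⟨hb1, hb2⟩ := C7shift hC1 (by omega) hinc hA y0 hy0 m'
        have h4 : T z - T y0 + prj f (ic (Pt z m)) - prj f (ic (Pt y0 m')) =
            T (fun k => z (k + m)) - T (fun k => y0 (k + m')) := by
          rw [ha2, hb2]
          abel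
        rw [h4]
        refine (norm_sub_le _ _).trans ?_
        have := hTR _ ha1
        have := hTR _ hb1
        linarith
      · rw [nsmul_eq_mul]
        apply mul_le_mul_of_nonneg_right _ (by positivity)
        exact_mod_cast hSJ
    have hc12 : c 1 ≤ c 2 := by
      have h4 := hTKle _ _ (hlen 1)
      have h5 : ((1 : ℤ) + 1) = 2 := by norm_num
      rw [h5] at h4
      have h6 : (0 : ℤ) ≤ TK := by positivity
      omega
    have hTK2 : (TK : ℤ) < c 2 := by
      have h4 := hTKle _ _ (hlen 1)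
      have h5 : ((1 : ℤ) + 1) = 2 := by norm_num
      rw [h5] at h4
      omega
    set g : ℤ → ℝ := fun k => if NCs x x0 u k then l (x k) else 0 with hg
    have hg0 : ∀ k, 0 ≤ g k := by
      intro k
      rw [hg]
      simp only
      split_ifs
      · exact (D.lpos _).le
      · exact le_refl _
    have htot : ∑ k ∈ Finset.Ico (c 0) (c 2), g k ≤ 2 * (J * (C * θ' ^ K)) := by
      rw [← Finset.Ico_union_Ico_eq_Ico (show c 0 ≤ c 1 by omega) hc12,
        Finset.sum_union (Finset.Ico_disjoint_Ico_consecutive _ _ _)]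
      have h4 := hpiece 0
      have h5 := hpiece 1
      rw [zero_add] at h4
      rw [show (1 : ℤ) + 1 = 2 by norm_num] at h5
      linarith
    set E := (Finset.range TK).filter (fun s : ℕ => x s ≠ x0 s) with hE
    have hlow : lm l * (E.card : ℝ) ≤ ∑ k ∈ Finset.Ico (c 0) (c 2), g k := by
      have h4 : ∑ s ∈ E, lm l ≤ ∑ s ∈ E, g (s : ℤ) := by
        refine Finset.sum_le_sum fun s hs => ?_
        have hne := (Finset.mem_filter.1 hs).2
        have hNC : NCs x x0 u (s : ℤ) := by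
          rintro ⟨k, hk, hk'⟩
          have h5 : ∑ i, Pt x0 k i = ∑ i, (u + Pt x (s : ℤ)) i := by rw [hk]
          simp only [Pi.add_apply, Finset.sum_add_distrib, hu0, C7Pt_sum, zero_add] at h5
          rw [h5] at hk'
          exact hne hk'.symm
        rw [hg]
        simp only
        rw [if_pos hNC]
        exact C7lm D.lpos _
      have h5 : ∑ s ∈ E, g (s : ℤ) = ∑ k ∈ E.map Nat.castEmbedding, g k := by
        rw [Finset.sum_map]
        rfl
      have h6 : ∑ k ∈ E.map Nat.castEmbedding, g k ≤ ∑ k ∈ Finset.Ico (c 0) (c 2), g k := by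
        apply Finset.sum_le_sum_of_subset_of_nonneg
        · intro k hk
          obtain ⟨s, hs, rfl⟩ := Finset.mem_map.1 hk
          have h7 := Finset.mem_range.1 (Finset.mem_filter.1 hs).1
          rw [Finset.mem_Ico]
          simp only [Nat.castEmbedding_apply]
          have h8 : (s : ℤ) < TK := by exact_mod_cast h7
          have h9 : (0 : ℤ) ≤ s := by positivity
          constructor <;> omega
        · intro k _ _
          exact hg0 k
      rw [Finset.sum_const, nsmul_eq_mul] at h4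
      calc lm l * (E.card : ℝ) = (E.card : ℝ) * lm l := mul_comm _ _
        _ ≤ _ := h4
        _ = _ := h5
        _ ≤ _ := h6
    have hfin : lm l * (E.card : ℝ) ≤ 2 * (J * (C * θ' ^ K)) := hlow.trans htot
    have h7 : (E.card : ℝ) ≤ (2 * (J * (C * θ' ^ K))) / lm l := by
      rw [le_div_iff₀ hlm]
      linarith
    refine h7.trans (le_of_eq ?_)
    rw [hM]
    field_simp
  -- the union over the classes
  set P := F ×ˢ (Finset.univ : Finset (Fin (n + 1))) ×ˢ (Finset.univ : Finset (Fin (n + 1)))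
    with hP
  set Dk : (Fin (n + 1) → ℤ) × Fin (n + 1) × Fin (n + 1) → Finset ℕ := fun κ =>
    if h : ∃ x, C7Cl σ f T K x0 y0 c0 x κ then
      (Finset.range TK).filter (fun s : ℕ => h.choose s ≠ x0 s) else ∅ with hDk
  have hDcard : ∀ κ, ((Dk κ).card : ℝ) ≤ M * θ' ^ K := by
    intro κ
    rw [hDk]
    simp only
    split_ifs with h
    · exact hcard _ κ h.choose_spec
    · simp only [Finset.card_empty, Nat.cast_zero]
      positivity
  have key : ∀ x ∈ XS σ, tor T x = y → ∀ s < TK, x (s : ℤ) ≠ x0 s → s ∈ P.biUnion Dk := by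
    intro x hx hxy s hs hne
    obtain ⟨κ, hκ, hcl⟩ := hmem x hx hxy
    rw [Finset.mem_biUnion]
    refine ⟨κ, hκ, ?_⟩
    have h : ∃ x, C7Cl σ f T K x0 y0 c0 x κ := ⟨x, hcl⟩
    rw [hDk]
    simp only
    rw [dif_pos h, Finset.mem_filter, Finset.mem_range]
    refine ⟨hs, ?_⟩
    rw [hagree _ _ κ h.choose_spec hcl s hs]
    exact hne
  refine ⟨P.biUnion Dk, ?_, ?_⟩
  · have h1 : ((P.biUnion Dk).card : ℝ) ≤ ∑ κ ∈ P, ((Dk κ).card : ℝ) := by
      exact_mod_cast Finset.card_biUnion_le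
    refine h1.trans ((Finset.sum_le_card_nsmul P _ (M * θ' ^ K) fun κ _ => hDcard κ).trans ?_)
    rw [nsmul_eq_mul]
    have h2 : (P.card : ℝ) = F.card * ((n + 1) * (n + 1)) := by
      rw [hP, Finset.card_product, Finset.card_product]
      simp
    rw [h2]
    have h3 : 0 < θ' ^ K := pow_pos hθ0 K
    have h4 : ((F.card : ℝ) * ((n + 1) * (n + 1)) * M + 1) * θ' ^ K =
      (F.card : ℝ) * ((n + 1) * (n + 1)) * (M * θ' ^ K) + θ' ^ K := by ring
    rw [h4]
    linarith
  · rintro s hs ⟨x, hx, x', hx', hxy, hxy', hne⟩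
    by_cases h : x (s : ℤ) = x0 s
    · apply key x' hx' hxy' s hs
      intro h'
      exact hne (h.trans h'.symm)
    · exact key x hx hxy s hs h

end Pool.Agent.H811R3.PS
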