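import Pool.Agent.H811R3.PS.Defs3

set_option autoImplicit false

open Finset MeasureTheory Filter

namespace Pool.Agent.H811R3.PS

open Classical in
theorem C8_int (n : ℕ) (γ : Fin n → UnitAddCircle) (Z : Set (Fin n → UnitAddCircle))
    (hZ : MeasurableSet Z) (B : ℝ) (TK : ℕ)
    (h : ∀ y : Fin n → UnitAddCircle, ∃ S : Finset ℕ,
      (S.card : ℝ) ≤ B ∧ ∀ s < TK, y + s • γ ∈ Z → s ∈ S) :
    (TK : ℝ) * (volume Z).toReal ≤ B := by
  have hp : IsProbabilityMeasure (volume : Measure UnitAddCircle) := ⟨UnitAddCircle.measure_univ⟩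
  have hP : IsProbabilityMeasure (volume : Measure (Fin n → UnitAddCircle)) := by
    rw [volume_pi]
    infer_instance
  have hB : 0 ≤ B := by
    obtain ⟨S, hS, -⟩ := h 0
    exact (Nat.cast_nonneg _).trans hS
  have h1 : (TK : ENNReal) * volume Z = ∑ s ∈ range TK, volume ((fun y => y + s • γ) ⁻¹' Z) := by
    rw [sum_congr rfl (fun s _ => measure_preimage_add_right volume (s • γ) Z), sum_const,
      card_range, nsmul_eq_mul]
  have hms : ∀ s : ℕ, MeasurableSet ((fun y : Fin n → UnitAddCircle => y + s • γ) ⁻¹' Z) :=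
    fun s => (measurable_add_const (s • γ)) hZ
  have h2 : ∑ s ∈ range TK, volume ((fun y : Fin n → UnitAddCircle => y + s • γ) ⁻¹' Z) =
      ∫⁻ y, ∑ s ∈ range TK, ((fun y : Fin n → UnitAddCircle => y + s • γ) ⁻¹' Z).indicator 1 y := by
    rw [lintegral_finsetSum _ (fun s _ => measurable_one.indicator (hms s))]
    refine sum_congr rfl fun s _ => ?_
    rw [lintegral_indicator_one (hms s)]
  have h3 : ∫⁻ y, ∑ s ∈ range TK,
      ((fun y : Fin n → UnitAddCircle => y + s • γ) ⁻¹' Z).indicator 1 y ≤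
      ∫⁻ _y : Fin n → UnitAddCircle, ENNReal.ofReal B := by
    refine lintegral_mono fun y => ?_
    obtain ⟨S, hS, hS2⟩ := h y
    have h4a : (∑ s ∈ range TK, ((fun y : Fin n → UnitAddCircle => y + s • γ) ⁻¹' Z).indicator
        (1 : (Fin n → UnitAddCircle) → ENNReal) y) =
        ∑ s ∈ range TK, (if y + s • γ ∈ Z then (1 : ENNReal) else 0) := by
      refine sum_congr rfl fun s _ => ?_
      rw [Set.indicator_apply]
      rfl
    have h4b : (∑ s ∈ range TK, (if y + s • γ ∈ Z then (1 : ENNReal) else 0)) =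
        (((range TK).filter fun s => y + s • γ ∈ Z).card : ENNReal) := by
      rw [sum_ite, sum_const_zero, add_zero, sum_const, nsmul_eq_mul, mul_one]
    have h4c : (((range TK).filter fun s => y + s • γ ∈ Z).card : ENNReal) ≤
        (S.card : ENNReal) := by
      have : ((range TK).filter fun s => y + s • γ ∈ Z) ⊆ S := by
        intro s hs
        rw [mem_filter, mem_range] at hs
        exact hS2 s hs.1 hs.2
      exact_mod_cast card_le_card this
    have h4 : (∑ s ∈ range TK, ((fun y : Fin n → UnitAddCircle => y + s • γ) ⁻¹' Z).indicator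
        (1 : (Fin n → UnitAddCircle) → ENNReal) y) ≤ (S.card : ENNReal) := by
      rw [h4a, h4b]
      exact h4c
    refine h4.trans ?_
    rw [← ENNReal.ofReal_natCast]
    exact ENNReal.ofReal_le_ofReal hS
  have h5 : (TK : ENNReal) * volume Z ≤ ENNReal.ofReal B := by
    rw [h1, h2]
    refine h3.trans ?_
    rw [lintegral_const, measure_univ, mul_one]
  have h6 := ENNReal.toReal_mono ENNReal.ofReal_ne_top h5
  rw [ENNReal.toReal_mul, ENNReal.toReal_natCast, ENNReal.toReal_ofReal hB] at h6
  exact h6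

theorem c8_holds : StC8 := by
  intro n γ Z hZ Lam θ' c C' hθ hθL hc hC h
  have hp : IsProbabilityMeasure (volume : Measure UnitAddCircle) := ⟨UnitAddCircle.measure_univ⟩
  have hP : IsProbabilityMeasure (volume : Measure (Fin n → UnitAddCircle)) := by
    rw [volume_pi]
    infer_instance
  have hL : 0 < Lam := hθ.trans hθL
  set v : ℝ := (volume Z).toReal with hv
  have hv0 : 0 ≤ v := ENNReal.toReal_nonneg
  have key : ∀ K : ℕ, v ≤ C' / c * (θ' / Lam) ^ K := by
    intro K
    obtain ⟨TK, hT, hS⟩ := h K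
    have h1 := C8_int n γ Z hZ (C' * θ' ^ K) TK hS
    have h2 : c * Lam ^ K * v ≤ C' * θ' ^ K := (mul_le_mul_of_nonneg_right hT hv0).trans h1
    have h3 : 0 < c * Lam ^ K := by positivity
    have h4 : C' / c * (θ' / Lam) ^ K = C' * θ' ^ K / (c * Lam ^ K) := by
      rw [div_pow]
      field_simp
    rw [h4, le_div_iff₀ h3]
    linarith
  have hlim : Tendsto (fun K : ℕ => C' / c * (θ' / Lam) ^ K) atTop (nhds (C' / c * 0)) := by
    apply Tendsto.const_mul
    exact tendsto_pow_atTop_nhds_zero_of_lt_one (by positivity) ((div_lt_one hL).2 hθL)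
  have h5 : v ≤ C' / c * 0 := ge_of_tendsto' hlim key
  have h6 : v = 0 := le_antisymm (by simpa using h5) hv0
  rw [hv, ENNReal.toReal_eq_zero_iff] at h6
  rcases h6 with h6 | h6
  · exact h6
  · exact absurd h6 (measure_ne_top _ _)

end Pool.Agent.H811R3.PS
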