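import Pool.Agent.H811R3.PS.Defs4

set_option autoImplicit false

open Finset MeasureTheory Filter

namespace Pool.Agent.H811R3.PS

namespace TC9

lemma prj_zero_sum {d : ℕ} (f y : Fin d → ℝ) (h : ∑ i, y i = 0) : prj f y = y := by
  funext i
  simp [prj, h]

lemma sum_getD {α : Type} [DecidableEq α] (a i : α) : ∀ w : List α,
    (∑ t ∈ Finset.range w.length, if w.getD t a = i then (1 : ℤ) else 0) = (w.count i : ℤ)
  | [] => by simp
  | b :: w => by
    rw [List.length_cons, Finset.sum_range_succ']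
    simp only [List.getD_cons_succ, List.getD_cons_zero]
    rw [sum_getD a i w, List.count_cons]
    push_cast
    congr 1
    by_cases h : b = i <;> simp [h]

lemma exact_wd {d : ℕ} (σ : Fin d → List (Fin d)) : Exact (inc σ) (ln σ) (wd σ) := by
  intro j
  funext i
  simp only [cnt, wd, ln, inc]
  rw [← Finset.range_eq_Ico]
  exact sum_getD j i (σ j)

/-- shift by `k` -/
def shk {d : ℕ} (k : ℤ) (x : ℤ → Fin d) : ℤ → Fin d := fun m => x (m + k)

lemma shk_mem {d : ℕ} {σ : Fin d → List (Fin d)} {x : ℤ → Fin d} (hx : x ∈ XS σ) (k : ℤ) :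
    shk k x ∈ XS σ := by
  intro a m
  obtain ⟨b, j, hj, h⟩ := hx (a + k) m
  refine ⟨b, j, hj, ?_⟩
  have e : (fun s : Fin m => shk k x (a + (s : ℕ))) = fun s : Fin m => x (a + k + (s : ℕ)) := by
    funext s
    simp only [shk]
    congr 1
    ring
  rw [e]
  exact h

lemma sh_shk {d : ℕ} (k : ℤ) (x : ℤ → Fin d) : sh (shk k x) = shk (k + 1) x := by
  funext m
  simp only [sh, shk]
  congr 1
  ring

section
variable {n : ℕ} {σ : Fin (n + 1) → List (Fin (n + 1))} {f : Fin (n + 1) → ℝ}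
  {T : (ℤ → Fin (n + 1)) → Fin (n + 1) → ℝ}

/-- the rotation vector -/
noncomputable def gam (f : Fin (n + 1) → ℝ) : Fin n → UnitAddCircle :=
  fun i : Fin n => ((-(f i.castSucc) : ℝ) : UnitAddCircle)

lemma tor_sh (hT : Addr σ f T) {x : ℤ → Fin (n + 1)} (hx : x ∈ XS σ) :
    tor T (sh x) = tor T x + gam f := by
  funext i
  simp only [tor, Pi.add_apply, gam]
  rw [hT.shift x hx]
  simp only [Pi.add_apply]
  rw [AddCircle.coe_add]
  congr 1
  simp only [prj]
  have e1 : ∑ j, ic (Pi.single (x 0) (1 : ℤ)) j = 1 := by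
    have : ∀ j, ic (Pi.single (x 0) (1 : ℤ)) j = if j = x 0 then (1 : ℝ) else 0 := by
      intro j
      simp only [ic, Pi.single_apply]
      split_ifs <;> simp
    rw [Finset.sum_congr rfl fun j _ => this j]
    simp
  rw [e1, one_mul, sub_eq_add_neg, AddCircle.coe_add]
  have e2 : ((ic (Pi.single (x 0) (1 : ℤ)) i.castSucc : ℝ) : UnitAddCircle) = 0 := by
    rw [AddCircle.coe_eq_zero_iff]
    refine ⟨(Pi.single (x 0) (1 : ℤ) : Fin (n + 1) → ℤ) i.castSucc, ?_⟩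
    simp [ic]
  rw [e2, zero_add]

lemma tor_shk (hT : Addr σ f T) {x : ℤ → Fin (n + 1)} (hx : x ∈ XS σ) (k : ℤ) :
    tor T (shk k x) = tor T x + k • gam f := by
  have step : ∀ k : ℤ, tor T (shk (k + 1) x) = tor T (shk k x) + gam f := by
    intro k
    rw [← sh_shk]
    exact tor_sh hT (shk_mem hx k)
  induction k using Int.induction_on with
  | zero =>
    simp only [zero_smul, add_zero]
    congr 1
    funext m
    simp [shk]
  | succ k ih =>
    rw [step, ih, add_smul, one_smul, add_assoc]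
  | pred k ih =>
    have h := step (-(k : ℤ) - 1)
    rw [sub_add_cancel, ih] at h
    rw [sub_smul, one_smul]
    have : tor T (shk (-(k : ℤ) - 1) x) = tor T x + -(k : ℤ) • gam f - gam f := by
      rw [h]; abel
    rw [this]
    abel

lemma tor_cont (hT : Addr σ f T) : ContinuousOn (tor T) (XS σ) := by
  rw [continuousOn_pi]
  intro i
  have h1 : ContinuousOn (fun x => T x i.castSucc) (XS σ) :=
    (continuous_apply _).comp_continuousOn hT.cont
  exact (AddCircle.continuous_mk' 1).comp_continuousOn h1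

end

lemma T_bdd (hC1 : StC1) {n : ℕ} {σ : Fin (n + 1) → List (Fin (n + 1))} {f : Fin (n + 1) → ℝ}
    {T : (ℤ → Fin (n + 1)) → Fin (n + 1) → ℝ} (hn : 1 ≤ n) (hpos : ∀ i j, 1 ≤ inc σ i j)
    (hT : Addr σ f T) (κ L0 R0 : ℝ)
    (hκ : ∀ y, ‖prj f (act (inc σ) y)‖ ≤ κ * ‖prj f y‖) (hκ0 : 0 ≤ κ) (hκ2 : κ ≤ 1 / 2)
    (hlen : ∀ j, (ln σ j : ℝ) ≤ L0) (hReg : Reg f (ln σ) (wd σ) L0 R0) :
    ∀ x ∈ XS σ, ‖T x‖ ≤ 2 * R0 := by
  obtain ⟨hdes, -, -, -, -⟩ := hC1 (n + 1) (by omega) σ hpos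
  obtain ⟨B, hB⟩ := hT.bdd
  have hR0 : 0 ≤ R0 := by
    have := hReg 0 0 0 le_rfl (Nat.zero_le _) (by
      simp only [Nat.sub_self, Nat.cast_zero]
      exact le_trans (Nat.cast_nonneg _) (hlen 0))
    exact le_trans (norm_nonneg _) this
  have key : ∀ k : ℕ, ∀ x ∈ XS σ, ‖T x‖ ≤ 2 * R0 + |B| * (1 / 2) ^ k := by
    intro k
    induction k with
    | zero =>
      intro x hx
      have h1 := hB x hx
      have h2 := le_abs_self B
      simp only [pow_zero, mul_one]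
      linarith
    | succ k ih =>
      intro x hx
      obtain ⟨x1, hx1, c, hc⟩ := hdes x hx
      rw [hT.des x hx x1 hx1 c hc]
      refine (norm_add_le _ _).trans ?_
      have hc1 : c 1 = c 0 + (σ (x1 0)).length := by simpa using hc.step 0
      have h1 : ‖prj f (ic (cnt (wd σ (x1 0)) 0 (-(c 0)).toNat))‖ ≤ R0 := by
        have hle : (-(c 0)).toNat ≤ ln σ (x1 0) := by
          have := hc.zero.2
          simp only [ln]
          omega
        refine hReg (x1 0) 0 _ (Nat.zero_le _) hle ?_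
        rw [Nat.sub_zero]
        exact le_trans (Nat.cast_le.mpr hle) (hlen _)
      have h2 := hκ (T x1)
      have h3 : prj f (T x1) = T x1 := prj_zero_sum f _ (hT.sum0 x1 hx1)
      rw [h3] at h2
      have h4 := ih x1 hx1
      have h5 : κ * ‖T x1‖ ≤ 1 / 2 * (2 * R0 + |B| * (1 / 2) ^ k) := by
        have := norm_nonneg (T x1)
        calc κ * ‖T x1‖ ≤ 1 / 2 * ‖T x1‖ := by gcongr
          _ ≤ _ := by gcongr
      calc _ ≤ R0 + 1 / 2 * (2 * R0 + |B| * (1 / 2) ^ k) := add_le_add h1 (h2.trans h5)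
        _ = _ := by ring
  intro x hx
  have hlim : Tendsto (fun k : ℕ => 2 * R0 + |B| * (1 / 2 : ℝ) ^ k) atTop (nhds (2 * R0 + |B| * 0)) :=
    ((tendsto_pow_atTop_nhds_zero_of_lt_one (by norm_num) (by norm_num)).const_mul _).const_add _
  rw [mul_zero, add_zero] at hlim
  exact ge_of_tendsto' hlim fun k => key k x hx

end TC9

open TC9

theorem c9a_holds (hC1 : StC1) (hC2 : StC2) (hC3 : StC3) (hC4 : StC4) (hC5 : StC5) (hC6 : StC6)
    (hC6b : StC6b) (hC6c : StC6c) (hC7 : StC7) (hC8 : StC8) (hDB : StDB) : StC9a := by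
  intro n hn σ Lam l f C θ κ L0 R0 L hpos hD hCon hU hκ hκ0 hκ2 hR0 hlen hReg hCoin hL1 hL2 hDist
  obtain ⟨T, hT⟩ := hC3 hC1 hC2 (n + 1) (by omega) σ Lam l f C θ L hpos hD hCon hL1 hL2 hDist
  obtain ⟨-, -, -, hcomp, hne⟩ := hC1 (n + 1) (by omega) σ hpos
  have hTb := T_bdd hC1 hn hpos hT κ L0 R0 hκ hκ0 hκ2 hlen hReg
  obtain ⟨-, C5, θ', hC5pos, hθ', hθL, hFK⟩ := hC5 (n + 1) (by omega) (inc σ) Lam l f (ln σ) (wd σ)
    (4 * R0) hD (exact_wd σ) hCoin (fun o o' hs ho => hDB (n + 1) (inc σ) Lam l f (ln σ) (wd σ) κ L0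
      R0 hD hκ hκ2 hR0 hReg hlen o o' (Relation.ReflTransGen.single hs) ho)
  obtain ⟨c, C', hc, hC', hTK⟩ := hC7 hC1 hC6 hC6b hC6c n hn σ Lam l f T (4 * R0) C5 θ' hpos hD hU
    hT (fun x hx => (hTb x hx).trans (by linarith)) hC5pos hθ' hθL hFK
  have hcont := tor_cont hT
  have hXc : IsClosed (XS σ) := hcomp.isClosed
  -- surjectivity
  have hsurj : ∀ y, ∃ x ∈ XS σ, tor T x = y := by
    obtain ⟨x, hx⟩ := hne
    have hcl : IsClosed (tor T '' XS σ) := (hcomp.image_of_continuousOn hcont).isClosed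
    have hd := hC4 n (inc σ) Lam l f C θ hD hCon hU (tor T x)
    have hsub : (Set.range fun k : ℤ => tor T x + k • gam f) ⊆ tor T '' XS σ := by
      rintro _ ⟨k, rfl⟩
      exact ⟨shk k x, shk_mem hx k, tor_shk hT hx k⟩
    intro y
    have hy : y ∈ closure (Set.range fun k : ℤ => tor T x + k • gam f) := hd y
    have := closure_minimal hsub hcl hy
    obtain ⟨z, hz, hzy⟩ := this
    exact ⟨z, hz, hzy⟩
  -- the set Z0
  set Z0 : Set (Fin n → UnitAddCircle) :=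
    {y | ∃ x ∈ XS σ, ∃ x' ∈ XS σ, tor T x = y ∧ tor T x' = y ∧ x 0 ≠ x' 0} with hZ0
  have hZ0c : IsCompact Z0 := by
    set P : Set ((ℤ → Fin (n + 1)) × (ℤ → Fin (n + 1))) :=
      ((XS σ) ×ˢ (XS σ)) ∩ (fun p => (tor T p.1, tor T p.2)) ⁻¹' (Set.diagonal _) with hP
    have hg : ContinuousOn (fun p : (ℤ → Fin (n + 1)) × (ℤ → Fin (n + 1)) =>
        (tor T p.1, tor T p.2)) ((XS σ) ×ˢ (XS σ)) := by
      refine ContinuousOn.prodMk ?_ ?_
      · exact hcont.comp continuous_fst.continuousOn fun p hp => hp.1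
      · exact hcont.comp continuous_snd.continuousOn fun p hp => hp.2
    have hPc : IsClosed P :=
      hg.preimage_isClosed_of_isClosed (hXc.prod hXc) isClosed_diagonal
    have hQ : IsClosed {p : (ℤ → Fin (n + 1)) × (ℤ → Fin (n + 1)) | p.1 0 ≠ p.2 0} := by
      have h1 : Continuous fun p : (ℤ → Fin (n + 1)) × (ℤ → Fin (n + 1)) => (p.1 0, p.2 0) := by
        fun_prop
      have h2 : IsClosed {q : Fin (n + 1) × Fin (n + 1) | q.1 ≠ q.2} := isClosed_discrete _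
      exact h2.preimage h1
    have hPQ : IsCompact (P ∩ {p | p.1 0 ≠ p.2 0}) :=
      (hcomp.prod hcomp).of_isClosed_subset (hPc.inter hQ) (fun p hp => hp.1.1)
    have him : Z0 = (fun p : (ℤ → Fin (n + 1)) × (ℤ → Fin (n + 1)) => tor T p.1) ''
        (P ∩ {p | p.1 0 ≠ p.2 0}) := by
      ext y
      constructor
      · rintro ⟨x, hx, x', hx', h1, h2, h3⟩
        exact ⟨(x, x'), ⟨⟨⟨hx, hx'⟩, by simp [h1, h2]⟩, h3⟩, h1⟩
      · rintro ⟨⟨x, x'⟩, ⟨⟨⟨hx, hx'⟩, h1⟩, h3⟩, h4⟩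
        refine ⟨x, hx, x', hx', h4, ?_, h3⟩
        have : tor T x = tor T x' := h1
        rw [← this]; exact h4
    rw [him]
    refine hPQ.image_of_continuousOn ?_
    exact hcont.comp continuous_fst.continuousOn fun p hp => hp.1.1.1
  have hZ0m : MeasurableSet Z0 := hZ0c.measurableSet
  have hZ0v : volume Z0 = 0 := by
    refine hC8 n (gam f) Z0 hZ0m Lam θ' c C' hθ' hθL hc hC' ?_
    intro K
    obtain ⟨TK, hTK1, hTK2⟩ := hTK K
    refine ⟨TK, hTK1, fun y => ?_⟩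
    obtain ⟨S, hS1, hS2⟩ := hTK2 y
    refine ⟨S, hS1, fun s hs hmem => hS2 s hs ?_⟩
    obtain ⟨x, hx, x', hx', h1, h2, h3⟩ := hmem
    refine ⟨shk (-(s : ℤ)) x, shk_mem hx _, shk (-(s : ℤ)) x', shk_mem hx' _, ?_, ?_, ?_⟩
    · rw [tor_shk hT hx, h1]; simp
    · rw [tor_shk hT hx', h2]; simp
    · simpa [shk] using h3
  refine ⟨T, hT, hsurj, ⋃ k : ℤ, (fun y => y + k • gam f) ⁻¹' Z0, ?_, ?_, ?_, ?_⟩
  · rw [measure_iUnion_null_iff]
    intro k
    rw [measure_preimage_add_right]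
    exact hZ0v
  · exact MeasurableSet.iUnion fun k => (measurable_add_const _) hZ0m
  · intro y
    simp only [Set.mem_iUnion, Set.mem_preimage]
    constructor
    · rintro ⟨k, hk⟩
      refine ⟨k - 1, ?_⟩
      have : y + gam f + (k - 1) • gam f = y + k • gam f := by
        rw [sub_smul, one_smul]; abel
      change y + gam f + (k - 1) • gam f ∈ Z0
      rw [this]; exact hk
    · rintro ⟨k, hk⟩
      refine ⟨k + 1, ?_⟩
      have : y + (k + 1) • gam f = y + gam f + k • gam f := by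
        rw [add_smul, one_smul]; abel
      rw [this]; exact hk
  · intro x hx x' hx' he hnot
    by_contra hne'
    obtain ⟨m, hm⟩ := Function.ne_iff.mp hne'
    apply hnot
    simp only [Set.mem_iUnion, Set.mem_preimage]
    refine ⟨m, shk m x, shk_mem hx m, shk m x', shk_mem hx' m, tor_shk hT hx m, ?_, ?_⟩
    · rw [tor_shk hT hx', he]
    · simpa [shk] using hm

theorem c9_holds (hC1 : StC1) (hC2 : StC2) (hC3 : StC3) (hC4 : StC4) (hC5 : StC5) (hC6 : StC6)
    (hC6b : StC6b) (hC6c : StC6c) (hC7 : StC7) (hC8 : StC8) (hDB : StDB) : StC9 := by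
  intro n hn σ Lam l f C θ κ L0 R0 L hpos hD hCon hU hκ hκ0 hκ2 hR0 hlen hReg hCoin hL1 hL2 hDist
  obtain ⟨T, hT, hsurj, Z, hZ0, -, -, huniq⟩ := c9a_holds hC1 hC2 hC3 hC4 hC5 hC6 hC6b hC6c hC7 hC8
    hDB n hn σ Lam l f C θ κ L0 R0 L hpos hD hCon hU hκ hκ0 hκ2 hR0 hlen hReg hCoin hL1 hL2 hDist
  refine ⟨gam f, tor T, Z, hC4 n (inc σ) Lam l f C θ hD hCon hU, tor_cont hT,
    fun x hx => tor_sh hT hx, hsurj, hZ0, ?_⟩
  intro y hy
  obtain ⟨x, hx, hxy⟩ := hsurj y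
  refine ⟨x, ⟨hx, hxy⟩, ?_⟩
  rintro x' ⟨hx', hxy'⟩
  exact huniq x' hx' x hx (by rw [hxy, hxy']) (by rw [hxy']; exact hy)

end Pool.Agent.H811R3.PS
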