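import Pool.Agent.H811R3.PS.Defs

set_option autoImplicit false

open Finset MeasureTheory Filter

namespace Pool.Agent.H811R3.PS

theorem cnt_ovr_card {d : ℕ} (w0 : ℕ → Fin d) {n : ℕ} (v : Fin n → Fin d) (i : Fin d) :
    cnt (ovr w0 0 v) 0 n i = ((univ.filter (fun s : Fin n => v s = i)).card : ℤ) := by
  unfold cnt
  rw [Finset.card_filter, ← Finset.range_eq_Ico, Finset.sum_range]
  push_cast
  apply Finset.sum_congr rfl
  intro s _
  have : ovr w0 0 v (s : ℕ) = v s := by
    unfold ovr
    rw [dif_pos (by have := s.2; omega)]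
    congr 1
  rw [this]

theorem cnt_weight {d : ℕ} (f : Fin d → ℝ) (w0 : ℕ → Fin d) {n : ℕ} (v : Fin n → Fin d)
    (a : Fin d → ℤ) (h : cnt (ovr w0 0 v) 0 n = fun i => a i) :
    ∏ s, f (v s) = ∏ i, f i ^ (a i).toNat := by
  rw [← Finset.prod_fiberwise Finset.univ v (fun s => f (v s))]
  apply Finset.prod_congr rfl
  intro i _
  have h1 := congrFun h i
  rw [cnt_ovr_card] at h1
  rw [← h1, Int.toNat_natCast, ← Finset.prod_const]
  apply Finset.prod_congr rfl
  intro s hs
  rw [(Finset.mem_filter.1 hs).2]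

theorem cnt_holds : StCNT := by
  classical
  intro d f hf A N w0 E
  set ω : Fin d → ℝ := fun j => ∏ i, f i ^ (A i j).toNat with hω
  set c : Fin d → ℕ := fun j => (univ.filter (fun v : Fin (N j) → Fin d =>
    cnt (ovr w0 0 v) 0 (N j) = fun i => A i j)).card with hc
  have h1 : ∀ j, Pr f 0 (N j) (fun w => cnt w 0 (N j) = fun i => A i j) w0 = ω j * c j := by
    intro j
    unfold Pr Ex
    rw [hc]
    simp only
    rw [Finset.card_filter]
    push_cast
    rw [Finset.mul_sum]
    apply Finset.sum_congr rfl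
    intro v _
    by_cases hv : cnt (ovr w0 0 v) 0 (N j) = fun i => A i j
    · rw [if_pos hv, if_pos hv, cnt_weight f w0 v (fun i => A i j) hv]
    · rw [if_neg hv, if_neg hv, mul_zero, mul_zero]
  have h2 : ∀ inst : DecidablePred (fun t : (∀ j : Fin d, Fin (N j) → Fin d) =>
      E (fun j => ovr w0 0 (t j)) ∧ ∀ j, cnt (ovr w0 0 (t j)) 0 (N j) = fun i => A i j),
      PrT f N w0 (fun W => E W ∧ ∀ j, cnt (W j) 0 (N j) = fun i => A i j) =
      (∏ j, ω j) * ((@Finset.filter _ (fun t : (∀ j : Fin d, Fin (N j) → Fin d) =>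
      E (fun j => ovr w0 0 (t j)) ∧ ∀ j, cnt (ovr w0 0 (t j)) 0 (N j) = fun i => A i j) inst
        univ).card : ℝ) := by
    intro inst
    unfold PrT
    rw [Finset.card_filter]
    push_cast
    rw [Finset.mul_sum]
    apply Finset.sum_congr rfl
    intro t _
    by_cases ht : E (fun j => ovr w0 0 (t j)) ∧ ∀ j, cnt (ovr w0 0 (t j)) 0 (N j) = fun i => A i j
    · rw [if_pos ht, if_pos ht]
      congr 1
      apply Finset.prod_congr rfl
      intro j _
      exact cnt_weight f w0 (t j) (fun i => A i j) (ht.2 j)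
    · rw [if_neg ht, if_neg ht, mul_zero, mul_zero]
  have h3 : ∀ inst : DecidablePred (fun t : (∀ j : Fin d, Fin (N j) → Fin d) =>
      ∀ j, cnt (ovr w0 0 (t j)) 0 (N j) = fun i => A i j),
      (@Finset.filter _ (fun t : (∀ j : Fin d, Fin (N j) → Fin d) =>
      ∀ j, cnt (ovr w0 0 (t j)) 0 (N j) = fun i => A i j) inst univ).card = ∏ j, c j := by
    intro inst
    have : (@Finset.filter _ (fun t : (∀ j : Fin d, Fin (N j) → Fin d) =>
      ∀ j, cnt (ovr w0 0 (t j)) 0 (N j) = fun i => A i j) inst univ) =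
      Fintype.piFinset (fun j => univ.filter (fun v : Fin (N j) → Fin d =>
        cnt (ovr w0 0 v) 0 (N j) = fun i => A i j)) := by
      ext t
      simp [Fintype.mem_piFinset]
    rw [this, Fintype.card_piFinset]
  rw [h2, h3, Finset.prod_congr rfl (fun j _ => h1 j), Finset.prod_mul_distrib]
  push_cast
  ring

end Pool.Agent.H811R3.PS
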