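import Pool.Agent.H811R3.PS.Defs3

set_option autoImplicit false

open Finset MeasureTheory Filter

namespace Pool.Agent.H811R3.PS

theorem ct_count_ofFn {d : ℕ} {n : ℕ} (v : Fin n → Fin d) (i : Fin d) :
    (((List.ofFn v).count i : ℕ) : ℤ) = ∑ s, if v s = i then 1 else 0 := by
  induction n with
  | zero => simp
  | succ n ih =>
    rw [List.ofFn_succ, List.count_cons, Fin.sum_univ_succ]
    push_cast
    rw [ih]
    simp only [beq_iff_eq]
    split_ifs <;> simp [add_comm]

theorem ct_cnt_ofFn {d : ℕ} (w0 : ℕ → Fin d) {n : ℕ} (v : Fin n → Fin d) (i : Fin d) :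
    cnt (ovr w0 0 v) 0 n i = (((List.ofFn v).count i : ℕ) : ℤ) := by
  rw [ct_count_ofFn]
  unfold cnt
  rw [← Finset.range_eq_Ico, Finset.sum_range]
  apply Finset.sum_congr rfl
  intro s _
  have : ovr w0 0 v (s : ℕ) = v s := by
    unfold ovr
    rw [dif_pos (by have := s.2; omega)]
    congr 1
  rw [this]

theorem ct_sum_count {d : ℕ} (w : List (Fin d)) : ∑ i, (w.count i : ℤ) = (w.length : ℤ) := by
  induction w with
  | nil => simp
  | cons a w ih =>
    simp only [List.count_cons, List.length_cons]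
    push_cast
    rw [Finset.sum_add_distrib, ih]
    simp

theorem ct_holds : StCT := by
  classical
  intro d hd M k w0 P Q q hpos hPQ hcard
  set Φ : (∀ j : Fin d, Fin (NN M k j) → Fin d) → (Fin d → List (Fin d)) :=
    fun t j => List.ofFn (t j) with hΦ
  have hinj : Function.Injective Φ := by
    intro t t' h
    funext j
    have := congrFun h j
    exact List.ofFn_injective this
  have hex : ∀ t : (∀ j : Fin d, Fin (NN M k j) → Fin d),
      Exact (M ^ k) (NN M k) (fun j => ovr w0 0 (t j)) ↔ inc (Φ t) = M ^ k := by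
    intro t
    constructor
    · intro h
      ext i j
      have := congrFun (h j) i
      rw [ct_cnt_ofFn] at this
      exact this
    · intro h j
      funext i
      rw [ct_cnt_ofFn]
      have := congrFun (congrFun h i) j
      exact this
  have hsurj : ∀ σ : Fin d → List (Fin d), inc σ = M ^ k →
      ∃ t : (∀ j : Fin d, Fin (NN M k j) → Fin d), Φ t = σ := by
    intro σ hσ
    have hlen : ∀ j, NN M k j = (σ j).length := by
      intro j
      unfold NN
      rw [← hσ]
      have := ct_sum_count (σ j)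
      unfold inc
      rw [this]; simp
    have hj : ∀ j, ∃ v : Fin (NN M k j) → Fin d, List.ofFn v = σ j := by
      intro j
      rw [hlen j]
      exact ⟨(σ j).get, List.ofFn_get (σ j)⟩
    choose t ht using hj
    exact ⟨t, funext ht⟩
  have hall : ∀ inst : DecidablePred (fun t : (∀ j : Fin d, Fin (NN M k j) → Fin d) =>
      Exact (M ^ k) (NN M k) (fun j => ovr w0 0 (t j))),
      {σ : Fin d → List (Fin d) | inc σ = M ^ k}.ncard =
      (@Finset.filter _ (fun t : (∀ j : Fin d, Fin (NN M k j) → Fin d) =>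
        Exact (M ^ k) (NN M k) (fun j => ovr w0 0 (t j))) inst univ).card := by
    intro inst
    have h1 : {σ : Fin d → List (Fin d) | inc σ = M ^ k} = Φ '' (↑(@Finset.filter _
        (fun t : (∀ j : Fin d, Fin (NN M k j) → Fin d) =>
        Exact (M ^ k) (NN M k) (fun j => ovr w0 0 (t j))) inst univ) :
          Set (∀ j : Fin d, Fin (NN M k j) → Fin d)) := by
      ext σ
      simp only [Set.mem_ofPred_eq, Set.mem_image, Finset.coe_filter, Finset.mem_univ, true_and]
      constructor
      · intro hσ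
        obtain ⟨t, ht⟩ := hsurj σ hσ
        exact ⟨t, (hex t).2 (by rw [ht]; exact hσ), ht⟩
      · rintro ⟨t, ht, rfl⟩
        exact (hex t).1 ht
    rw [h1, Set.ncard_image_of_injective _ hinj, Set.ncard_coe_finset]
  have hbad : ∀ inst : DecidablePred (fun t : (∀ j : Fin d, Fin (NN M k j) → Fin d) =>
      ¬ P (fun j => ovr w0 0 (t j)) ∧ Exact (M ^ k) (NN M k) (fun j => ovr w0 0 (t j))),
      {σ : Fin d → List (Fin d) | inc σ = M ^ k ∧ ¬ Q σ}.ncard ≤
      (@Finset.filter _ (fun t : (∀ j : Fin d, Fin (NN M k j) → Fin d) =>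
        ¬ P (fun j => ovr w0 0 (t j)) ∧
        Exact (M ^ k) (NN M k) (fun j => ovr w0 0 (t j))) inst univ).card := by
    intro inst
    have h1 : {σ : Fin d → List (Fin d) | inc σ = M ^ k ∧ ¬ Q σ} ⊆ Φ '' (↑(@Finset.filter _
        (fun t : (∀ j : Fin d, Fin (NN M k j) → Fin d) => ¬ P (fun j => ovr w0 0 (t j)) ∧
        Exact (M ^ k) (NN M k) (fun j => ovr w0 0 (t j))) inst univ) :
          Set (∀ j : Fin d, Fin (NN M k j) → Fin d)) := by
      rintro σ ⟨hσ, hQ⟩
      obtain ⟨t, ht⟩ := hsurj σ hσ
      simp only [Set.mem_image, Finset.coe_filter, Finset.mem_univ, true_and, Set.mem_ofPred_eq]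
      refine ⟨t, ⟨?_, (hex t).2 (by rw [ht]; exact hσ)⟩, ht⟩
      intro hP
      exact hQ (hPQ σ t hσ (fun j => by rw [← ht]) hP)
    refine le_trans (Set.ncard_le_ncard h1 (Set.Finite.image _ (Finset.finite_toSet _))) ?_
    rw [Set.ncard_image_of_injective _ hinj, Set.ncard_coe_finset]
  refine le_trans (Nat.cast_le.2 (hbad _)) (le_trans hcard (le_of_eq ?_))
  rw [hall _]

end Pool.Agent.H811R3.PS
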