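import Pool.Agent.H811R3.PS.DetAux

/-!
# (DB) the transversal bound is preserved
-/

set_option autoImplicit false

open Finset MeasureTheory Filter

namespace Pool.Agent.H811R3.PS

theorem db_holds : StDB := by
  intro d A Lam l f N W κ L0 R0 _ hκ h2 _ hR hN o o' hp hv
  exact DetAux.path_bound hκ h2 hR hN o o' hp hv

end Pool.Agent.H811R3.PS
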