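import Pool.Agent.H811R3.PS.DetAux

/-!
# (DC) the chain of self alignments ends in a coincidence
-/

set_option autoImplicit false

open Finset MeasureTheory Filter

namespace Pool.Agent.H811R3.PS

open DetAux

theorem dc_holds : StDC := by
  intro d hd A Lam l f N W κ L0 R0 Ls R1 e K a b L hD hκ hNum hG i v he1 he2 hv
  have hlm : 0 < lm l := lm_pos hD.lpos i
  have hLam : 6 ≤ Lam := hNum.lam6
  -- the iteration
  have key : ∀ n : ℕ, ∃ (c : Fin d) (w : Fin d → ℤ),
      Relation.ReflTransGen (Step A l N W) (i, i, v) (c, c, w) ∧ e ≤ dot l (ic w) ∧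
      dot l (ic w) ≤ 2 * e ∧ ‖prj f (ic w)‖ ≤ 4 * R0 ∧
      ‖prj f (ic w)‖ ≤ κ ^ n * (4 * R0) + 2 * R1 := by
    intro n
    induction n with
    | zero =>
      refine ⟨i, v, Relation.ReflTransGen.refl, he1, he2, hv, ?_⟩
      have := hNum.R1pos
      simp only [pow_zero, one_mul]
      linarith
    | succ n ih =>
      obtain ⟨c, w, hp, h1, h2, h3, h4⟩ := ih
      obtain ⟨t, t', ht, ht', hc, h5, h6⟩ := hG.l1e c w h3 h1 h2
      have hoff := dot_chv (A := A) hD.left W c c w t t'
      have hst : Step A l N W (c, c, w) (W c t, W c t, chv A W c c w t t') := by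
        refine ⟨t, ht, t', ht', ?_, ?_⟩
        · simp only [hc]
        · simp only [len]
          have e1 : lm l ≤ l (W c t) := lm_le hD.lpos _
          have e2 := hNum.e2
          have e3 := hNum.epos
          rw [min_eq_right (by linarith), max_eq_left (by linarith)]
          linarith
      have htt : t < t' := by
        by_contra hcon
        push Not at hcon
        have e1 : dot l (ic (cnt (W c) 0 t')) ≤ dot l (ic (cnt (W c) 0 t)) := by
          rw [cnt_add (W c) (Nat.zero_le t') hcon, ic_add, dot_add]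
          have : 0 ≤ dot l (ic (cnt (W c) t' t)) := by
            rw [dot_cnt]
            exact Finset.sum_nonneg fun s _ => (hD.lpos _).le
          linarith
        have e3 := hNum.epos
        nlinarith
      have hchv : chv A W c c w t t' = A.mulVec w - cnt (W c) t t' := by
        unfold chv
        rw [cnt_add (W c) (Nat.zero_le t) htt.le]
        abel
      have hwin : ((t' - t : ℕ) : ℝ) ≤ Ls := by
        have e1 : lm l * ((t' - t : ℕ) : ℝ) ≤ dot l (ic (cnt (W c) t t')) := by
          rw [dot_cnt]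
          calc lm l * ((t' - t : ℕ) : ℝ) = ∑ _s ∈ Finset.Ico t t', lm l := by
                rw [Finset.sum_const, Nat.card_Ico, nsmul_eq_mul]; ring
            _ ≤ ∑ s ∈ Finset.Ico t t', l (W c s) :=
                Finset.sum_le_sum fun s _ => lm_le hD.lpos _
        have e2 : dot l (ic (cnt (W c) t t')) = Lam * dot l (ic w) -
            dot l (ic (chv A W c c w t t')) := by
          rw [hchv, ic_sub, dot_sub, ic_mulVec, dot_act hD.left]
          ring
        have e3 := hNum.epos
        have e4 : lm l * ((t' - t : ℕ) : ℝ) ≤ 2 * Lam * e := by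
          rw [e2] at e1
          nlinarith
        refine le_trans ?_ hNum.win
        rw [le_div_iff₀ hlm]
        linarith
      have hprj : ‖prj f (ic (chv A W c c w t t'))‖ ≤ κ * ‖prj f (ic w)‖ + R1 := by
        rw [hchv, ic_sub, prj_sub, ic_mulVec]
        refine (norm_sub_le _ _).trans ?_
        exact add_le_add (hκ _) (hG.regS c t t' htt.le ht'.le hwin)
      refine ⟨W c t, chv A W c c w t t', hp.tail hst, h5, h6, ?_, ?_⟩
      · exact prj_chv_le hκ hNum.κ2 hG.regL hNum.len0 c c w t t' ht.le ht'.le h3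
      · refine hprj.trans ?_
        have k0 := hNum.κ0
        have k2 := hNum.κ2
        have hR1 := hNum.R1pos
        have e1 : κ * ‖prj f (ic w)‖ ≤ κ * (κ ^ n * (4 * R0) + 2 * R1) :=
          mul_le_mul_of_nonneg_left h4 k0
        have e2 : κ * (2 * R1) ≤ R1 := by nlinarith
        calc κ * ‖prj f (ic w)‖ + R1 ≤ κ * (κ ^ n * (4 * R0) + 2 * R1) + R1 := by linarith
          _ = κ ^ (n + 1) * (4 * R0) + κ * (2 * R1) + R1 := by ring
          _ ≤ κ ^ (n + 1) * (4 * R0) + 2 * R1 := by linarith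
  -- choose n
  obtain ⟨n, hn⟩ : ∃ n : ℕ, κ ^ n * (4 * R0) ≤ R1 := by
    have k0 := hNum.κ0
    have k2 := hNum.κ2
    have ht : Tendsto (fun n : ℕ => κ ^ n * (4 * R0)) atTop (nhds (0 * (4 * R0))) :=
      (tendsto_pow_atTop_nhds_zero_of_lt_one k0 (by linarith)).mul_const _
    rw [zero_mul] at ht
    exact (ht.eventually (eventually_le_nhds hNum.R1pos)).exists
  obtain ⟨c, w, hp, h1, h2, h3, h4⟩ := key n
  have h5 : ‖prj f (ic w)‖ ≤ 3 * R1 := by linarith
  have hu : ‖prj f (ic (A.mulVec w))‖ ≤ 3 * κ * R1 := by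
    rw [ic_mulVec]
    refine (hκ _).trans ?_
    have k0 := hNum.κ0
    calc κ * ‖prj f (ic w)‖ ≤ κ * (3 * R1) := mul_le_mul_of_nonneg_left h5 k0
      _ = 3 * κ * R1 := by ring
  have hdu : dot l (ic (A.mulVec w)) = Lam * dot l (ic w) := by
    rw [ic_mulVec, dot_act hD.left]
  have hsum : dot l (ic (A.mulVec w)) = dot l (prj f (ic (A.mulVec w))) +
      ((∑ i, (A.mulVec w) i : ℤ) : ℝ) := by
    rw [dot_prj hD.lf (ic (A.mulVec w))]
    congr 1
    simp [ic]
  have habs : |dot l (prj f (ic (A.mulVec w)))| ≤ Lam * e / 2 := by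
    refine (abs_dot_le hD.lpos _).trans ?_
    refine le_trans ?_ hNum.typ2
    exact mul_le_mul_of_nonneg_left hu (by
      unfold sl
      exact Finset.sum_nonneg fun j _ => (hD.lpos j).le)
  rw [abs_le] at habs
  have hlow : Lam * e / 2 ≤ ((∑ i, (A.mulVec w) i : ℤ) : ℝ) := by
    have : Lam * e ≤ Lam * dot l (ic w) := mul_le_mul_of_nonneg_left h1 (by linarith)
    linarith [habs.2]
  have hupp : ((∑ i, (A.mulVec w) i : ℤ) : ℝ) ≤ 3 * Lam * e := by
    have e3 := hNum.epos
    have : Lam * dot l (ic w) ≤ Lam * (2 * e) := mul_le_mul_of_nonneg_left h2 (by linarith)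
    have h7 : 0 ≤ Lam * e := by positivity
    linarith [habs.1]
  have hsq : ‖prj f (ic (A.mulVec w))‖ ≤ √((∑ i, (A.mulVec w) i : ℤ) : ℝ) :=
    hu.trans (hNum.typ1.trans (Real.sqrt_le_sqrt hlow))
  obtain ⟨t, t', htt, ht', hcc, hcnt⟩ := hG.l2 c (A.mulVec w) hlow hupp hsq
  refine ⟨W c t, hp.tail ⟨t, lt_trans htt ht', t', ht', ?_, ?_⟩⟩
  · simp only
    rw [← hcc]
    have : chv A W c c w t t' = 0 := by
      unfold chv
      rw [cnt_add (W c) (Nat.zero_le t) htt.le, hcnt]
      abel
    rw [this]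
  · simp only [len, ic_zero, dot_zero]
    have := hD.lpos (W c t)
    simp [this]

end Pool.Agent.H811R3.PS
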