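import Pool.Agent.H811R3.PS.DetAux

/-!
# (DF) the deterministic theorem
-/

set_option autoImplicit false

open Finset MeasureTheory Filter

namespace Pool.Agent.H811R3.PS

open DetAux

theorem df_holds (hDG : StDG) (hDB : StDB) (hDS : StDS) (hDC : StDC) : StDF := by
  intro d hd A Lam l f N W κ L0 R0 Ls R1 e K a b L hD hκ hNum hG hab i j v hlen hv
  have hlm : 0 < lm l := lm_pos hD.lpos i
  have bound : ∀ o o' : Fin d × Fin d × (Fin d → ℤ), Relation.ReflTransGen (Step A l N W) o o' →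
      ‖prj f (ic o.2.2)‖ ≤ 4 * R0 → ‖prj f (ic o'.2.2)‖ ≤ 4 * R0 := fun o o' =>
    hDB d A Lam l f N W κ L0 R0 hD hκ hNum.κ2 hNum.R0pos hG.regL hNum.len0 o o'
  -- from different letters
  have diff : ∀ (i j : Fin d) (v : Fin d → ℤ), i ≠ j → lm l / 4 ≤ len l i j v →
      ‖prj f (ic v)‖ ≤ 4 * R0 → Lead A l N W (i, j, v) := by
    intro i j v hne hl hv
    obtain ⟨t, t', ht, ht', hc, h5, h6⟩ := hG.l1n i j v hne hv hl
    have hst : Step A l N W (i, j, v) (W i t, W i t, chv A W i j v t t') := by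
      refine ⟨t, ht, t', ht', ?_, ?_⟩
      · simp only [hc]
      · simp only [len]
        have e1 : lm l ≤ l (W i t) := lm_le hD.lpos _
        have e2 := hNum.e2
        have e3 := hNum.epos
        rw [min_eq_right (by linarith), max_eq_left (by linarith)]
        linarith
    have hb := bound _ _ (Relation.ReflTransGen.single hst) hv
    obtain ⟨c, hc'⟩ := hDC d hd A Lam l f N W κ L0 R0 Ls R1 e K a b L hD hκ hNum hG _ _ h5 h6 hb
    exact ⟨c, Relation.ReflTransGen.head hst hc'⟩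
  obtain ⟨i', j', v', hl', hp'⟩ := hDG d hd A Lam l f N W hD hG.exact hNum.lam6 i j v hlen
  have hv' : ‖prj f (ic v')‖ ≤ 4 * R0 := bound (i, j, v) (i', j', v') hp' hv
  suffices h : Lead A l N W (i', j', v') by
    obtain ⟨c, hc⟩ := h
    exact ⟨c, hp'.trans hc⟩
  by_cases hij : i' = j'
  · subst hij
    by_cases hv0 : v' = 0
    · subst hv0
      exact ⟨i', Relation.ReflTransGen.refl⟩
    · obtain ⟨i2, j2, v2, hne, hl2, hp2⟩ := hDS d hd A Lam l f N W κ L0 R0 Ls R1 e K a b L hD hκ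
        hNum hG hab hDB i' v' hv0 hl' hv'
      have hv2 : ‖prj f (ic v2)‖ ≤ 4 * R0 := bound (i', i', v') (i2, j2, v2) hp2 hv'
      obtain ⟨c, hc⟩ := diff i2 j2 v2 hne hl2 hv2
      exact ⟨c, hp2.trans hc⟩
  · exact diff i' j' v' hij hl' hv'

end Pool.Agent.H811R3.PS
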