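import Pool.Agent.H811R3.PS.Defs2

set_option autoImplicit false

open Finset MeasureTheory Filter

namespace Pool.Agent.H811R3.PS

namespace DG

/-- the tile containing a point -/
theorem tile (X : ℕ → ℝ) (n : ℕ) (c : ℝ) (h0 : X 0 ≤ c) (hn : c < X n) :
    ∃ t < n, X t ≤ c ∧ c < X (t + 1) := by
  induction n with
  | zero => exact absurd (lt_of_le_of_lt h0 hn) (lt_irrefl _)
  | succ n ih =>
    rcases le_or_gt (X n) c with h | h
    · exact ⟨n, Nat.lt_succ_self n, h, hn⟩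
    · obtain ⟨t, ht, h1, h2⟩ := ih h
      exact ⟨t, by omega, h1, h2⟩

theorem mono (X : ℕ → ℝ) (L : ℝ) (hL : 0 < L) (hX : ∀ t, X t + L ≤ X (t + 1)) : Monotone X :=
  monotone_nat_of_le_succ fun t => by linarith [hX t]

/-- two vertices of the same strand are not close -/
theorem far (X : ℕ → ℝ) (L : ℝ) (hL : 0 < L) (hX : ∀ t, X t + L ≤ X (t + 1)) (s t : ℕ) (a b : ℝ)
    (h1 : a < X (s + 1)) (h2 : X (s + 1) ≤ b) (h3 : b < X (t + 1)) : a + L < X (t + 1) := by
  have hm := mono X L hL hX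
  have hst : s + 1 ≤ t := by
    by_contra hc
    have h4 : X (t + 1) ≤ X (s + 1) := hm (by omega)
    linarith
  have h5 := hm hst
  have h6 := hX t
  linarith

theorem overlap (X Z : ℕ → ℝ) (L : ℝ) (hL : 0 < L) (hX : ∀ t, X t + L ≤ X (t + 1))
    (hZ : ∀ t, Z t + L ≤ Z (t + 1)) (n n' : ℕ) (p r : ℝ) (hr : 0 < r) (hrL : r ≤ L)
    (hX0 : X 0 ≤ p) (hZ0 : Z 0 ≤ p) (hXn : p + r ≤ X n) (hZn : p + r ≤ Z n') :
    ∃ t < n, ∃ t' < n', ∃ c, X t ≤ c ∧ Z t' ≤ c ∧ c + r / 3 ≤ X (t + 1) ∧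
      c + r / 3 ≤ Z (t' + 1) := by
  obtain ⟨t0, ht0, a1, a2⟩ := tile X n p hX0 (by linarith)
  obtain ⟨s0, hs0, b1, b2⟩ := tile Z n' p hZ0 (by linarith)
  obtain ⟨t1, ht1, a3, a4⟩ := tile X n (p + r / 3) (by linarith) (by linarith)
  obtain ⟨s1, hs1, b3, b4⟩ := tile Z n' (p + r / 3) (by linarith) (by linarith)
  obtain ⟨t2, ht2, a5, a6⟩ := tile X n (p + 2 * r / 3) (by linarith) (by linarith)
  obtain ⟨s2, hs2, b5, b6⟩ := tile Z n' (p + 2 * r / 3) (by linarith) (by linarith)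
  by_cases c0 : p + r / 3 ≤ X (t0 + 1) ∧ p + r / 3 ≤ Z (s0 + 1)
  · exact ⟨t0, ht0, s0, hs0, p, a1, b1, c0.1, c0.2⟩
  by_cases c1 : p + r / 3 + r / 3 ≤ X (t1 + 1) ∧ p + r / 3 + r / 3 ≤ Z (s1 + 1)
  · exact ⟨t1, ht1, s1, hs1, p + r / 3, a3, b3, c1.1, c1.2⟩
  by_cases c2 : p + 2 * r / 3 + r / 3 ≤ X (t2 + 1) ∧ p + 2 * r / 3 + r / 3 ≤ Z (s2 + 1)
  · exact ⟨t2, ht2, s2, hs2, p + 2 * r / 3, a5, b5, c2.1, c2.2⟩
  exfalso
  rw [not_and_or, not_le, not_le] at c0 c1 c2
  have key : ∀ Y : ℕ → ℝ, (∀ t, Y t + L ≤ Y (t + 1)) → ∀ s t : ℕ, ∀ b : ℝ, p < Y (s + 1) →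
      Y (s + 1) ≤ b → b < Y (t + 1) → Y (t + 1) < p + r → False := by
    intro Y hY s t b h1 h2 h3 h4
    have := far Y L hL hY s t p b h1 h2 h3
    linarith
  rcases c0 with c0 | c0 <;> rcases c1 with c1 | c1 <;> rcases c2 with c2 | c2
  · exact key X hX t0 t1 (p + r / 3) a2 c0.le a4 (by linarith)
  · exact key X hX t0 t1 (p + r / 3) a2 c0.le a4 (by linarith)
  · exact key X hX t0 t2 (p + 2 * r / 3) a2 (by linarith) a6 (by linarith)
  · exact key Z hZ s1 s2 (p + 2 * r / 3) (by linarith) (by linarith) b6 (by linarith)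
  · exact key X hX t1 t2 (p + 2 * r / 3) (by linarith) (by linarith) a6 (by linarith)
  · exact key Z hZ s0 s2 (p + 2 * r / 3) b2 (by linarith) b6 (by linarith)
  · exact key Z hZ s0 s1 (p + r / 3) b2 c0.le b4 (by linarith)
  · exact key Z hZ s0 s1 (p + r / 3) b2 c0.le b4 (by linarith)

variable {d : ℕ}

theorem dot_add (l : Fin d → ℝ) (a b : Fin d → ℤ) :
    dot l (ic (a + b)) = dot l (ic a) + dot l (ic b) := by
  unfold dot ic
  rw [← Finset.sum_add_distrib]
  refine Finset.sum_congr rfl fun i _ => ?_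
  rw [Pi.add_apply]
  push_cast
  ring

theorem dot_sub (l : Fin d → ℝ) (a b : Fin d → ℤ) :
    dot l (ic (a - b)) = dot l (ic a) - dot l (ic b) := by
  unfold dot ic
  rw [← Finset.sum_sub_distrib]
  refine Finset.sum_congr rfl fun i _ => ?_
  rw [Pi.sub_apply]
  push_cast
  ring

theorem dot_zero (l : Fin d → ℝ) : dot l (ic (0 : Fin d → ℤ)) = 0 := by
  unfold dot ic
  simp

theorem cnt_succ (w : ℕ → Fin d) (t : ℕ) :
    cnt w 0 (t + 1) = cnt w 0 t + (fun i => if w t = i then 1 else 0) := by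
  funext i
  unfold cnt
  rw [Pi.add_apply, Finset.sum_Ico_succ_top (Nat.zero_le t)]

theorem cnt_zero (w : ℕ → Fin d) : cnt w 0 0 = 0 := by
  funext i
  unfold cnt
  simp

theorem dot_unit (l : Fin d → ℝ) (a : Fin d) :
    dot l (ic (fun i => if a = i then 1 else 0)) = l a := by
  unfold dot ic
  simp

theorem dot_cnt_succ (l : Fin d → ℝ) (w : ℕ → Fin d) (t : ℕ) :
    dot l (ic (cnt w 0 (t + 1))) = dot l (ic (cnt w 0 t)) + l (w t) := by
  rw [cnt_succ, dot_add, dot_unit]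

theorem dot_mulVec {A : Matrix (Fin d) (Fin d) ℤ} {Lam : ℝ} {l : Fin d → ℝ}
    (hl : ∀ j, ∑ i, l i * (A i j : ℝ) = Lam * l j) (v : Fin d → ℤ) :
    dot l (ic (A.mulVec v)) = Lam * dot l (ic v) := by
  unfold dot ic
  simp only [Matrix.mulVec, dotProduct]
  push_cast
  simp_rw [Finset.mul_sum]
  rw [Finset.sum_comm]
  refine Finset.sum_congr rfl fun j _ => ?_
  rw [← mul_assoc, ← hl j, Finset.sum_mul]
  refine Finset.sum_congr rfl fun i _ => ?_
  ring

theorem lm_le {l : Fin d → ℝ} (hl : ∀ i, 0 < l i) (i : Fin d) : lm l ≤ l i := by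
  unfold lm
  have h1 : (l i)⁻¹ ≤ ∑ j, (l j)⁻¹ :=
    Finset.single_le_sum (f := fun j => (l j)⁻¹) (fun j _ => (inv_pos.2 (hl j)).le)
      (Finset.mem_univ i)
  calc (∑ j, (l j)⁻¹)⁻¹ ≤ ((l i)⁻¹)⁻¹ := inv_anti₀ (inv_pos.2 (hl i)) h1
    _ = l i := inv_inv _

theorem lm_pos {l : Fin d → ℝ} (hl : ∀ i, 0 < l i) (i : Fin d) : 0 < lm l := by
  unfold lm
  have h1 : (l i)⁻¹ ≤ ∑ j, (l j)⁻¹ :=
    Finset.single_le_sum (f := fun j => (l j)⁻¹) (fun j _ => (inv_pos.2 (hl j)).le)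
      (Finset.mem_univ i)
  exact inv_pos.2 (lt_of_lt_of_le (inv_pos.2 (hl i)) h1)

/-- one step: a child which is longer -/
theorem child {A : Matrix (Fin d) (Fin d) ℤ} {Lam : ℝ} {l f : Fin d → ℝ} {N : Fin d → ℕ}
    {W : Fin d → ℕ → Fin d} (hD : Dat A Lam l f) (hE : Exact A N W) (h6 : 6 ≤ Lam)
    (i j : Fin d) (v : Fin d → ℤ) (hlen : 0 < len l i j v) :
    ∃ (i' j' : Fin d) (v' : Fin d → ℤ), min (2 * len l i j v) (lm l / 4) ≤ len l i' j' v' ∧
      Step A l N W (i, j, v) (i', j', v') := by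
  have hlm := lm_pos hD.lpos i
  set X : ℕ → ℝ := fun t => dot l (ic (A.mulVec v)) + dot l (ic (cnt (W i) 0 t)) with hX
  set Z : ℕ → ℝ := fun t => dot l (ic (cnt (W j) 0 t)) with hZ
  have hXs : ∀ t, X (t + 1) = X t + l (W i t) := by
    intro t
    simp only [hX]
    rw [dot_cnt_succ]
    ring
  have hZs : ∀ t, Z (t + 1) = Z t + l (W j t) := by
    intro t
    simp only [hZ]
    rw [dot_cnt_succ]
  have hX0 : X 0 = Lam * dot l (ic v) := by
    simp only [hX]
    rw [cnt_zero, dot_zero, add_zero, dot_mulVec hD.left]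
  have hZ0 : Z 0 = 0 := by
    simp only [hZ]
    rw [cnt_zero, dot_zero]
  have hcol : ∀ k, dot l (ic (cnt (W k) 0 (N k))) = Lam * l k := by
    intro k
    rw [hE k, ← hD.left k]
    rfl
  have hXn : X (N i) = Lam * (dot l (ic v) + l i) := by
    simp only [hX]
    rw [hcol, dot_mulVec hD.left]
    ring
  have hZn : Z (N j) = Lam * l j := by
    simp only [hZ]
    rw [hcol]
  obtain ⟨g, hg⟩ : ∃ g, g = dot l (ic v) := ⟨_, rfl⟩
  have hlen' : len l i j v = min (g + l i) (l j) - max g 0 := by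
    unfold len
    rw [hg]
  rw [← hg] at hX0 hXn
  set r : ℝ := min (Lam * len l i j v) (3 * lm l / 4) with hr
  have hLam : 0 < Lam := by linarith
  have hr0 : 0 < r := lt_min (by positivity) (by positivity)
  have hr1 : r ≤ Lam * len l i j v := min_le_left _ _
  have hr2 : r ≤ 3 * lm l / 4 := min_le_right _ _
  have e1 : g ≤ max g 0 := le_max_left _ _
  have e2 : 0 ≤ max g 0 := le_max_right _ _
  have e3 : min (g + l i) (l j) ≤ g + l i := min_le_left _ _
  have e4 : min (g + l i) (l j) ≤ l j := min_le_right _ _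
  obtain ⟨t, ht, t', ht', c, c1, c2, c3, c4⟩ := overlap X Z (lm l) hlm
    (fun t => by rw [hXs]; linarith [lm_le hD.lpos (W i t)])
    (fun t => by rw [hZs]; linarith [lm_le hD.lpos (W j t)]) (N i) (N j) (Lam * max g 0) r hr0
    (by linarith) (by rw [hX0]; exact mul_le_mul_of_nonneg_left e1 hLam.le)
    (by rw [hZ0]; positivity)
    (by
      rw [hXn]
      have : Lam * (max g 0 + len l i j v) ≤ Lam * (g + l i) :=
        mul_le_mul_of_nonneg_left (by rw [hlen']; linarith) hLam.le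
      linarith)
    (by
      rw [hZn]
      have : Lam * (max g 0 + len l i j v) ≤ Lam * l j :=
        mul_le_mul_of_nonneg_left (by rw [hlen']; linarith) hLam.le
      linarith)
  have hdot : dot l (ic (chv A W i j v t t')) = X t - Z t' := by
    unfold chv
    rw [dot_sub, dot_add]
  have hchild : r / 3 ≤ len l (W i t) (W j t') (chv A W i j v t t') := by
    unfold len
    rw [hdot]
    rw [hXs] at c3
    rw [hZs] at c4
    have f1 : max (X t - Z t') 0 ≤ c - Z t' := max_le (by linarith) (by linarith)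
    have f2 : c - Z t' + r / 3 ≤ min (X t - Z t' + l (W i t)) (l (W j t')) :=
      le_min (by linarith) (by linarith)
    linarith
  refine ⟨W i t, W j t', chv A W i j v t t', ?_, t, ht, t', ht', rfl, ?_⟩
  · refine le_trans ?_ hchild
    rw [hr]
    rcases le_total (Lam * len l i j v) (3 * lm l / 4) with h | h
    · rw [min_eq_left h]
      refine (min_le_left _ _).trans ?_
      nlinarith
    · rw [min_eq_right h]
      refine (min_le_right _ _).trans ?_
      linarith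
  · simp only
    linarith

end DG

open DG in
theorem dg_holds : StDG := by
  intro d _ A Lam l f N W hD hE h6
  have key : ∀ (n : ℕ) (i j : Fin d) (v : Fin d → ℤ), 0 < len l i j v →
      lm l / 4 ≤ len l i j v * 2 ^ n →
      ∃ (i' j' : Fin d) (v' : Fin d → ℤ), lm l / 4 ≤ len l i' j' v' ∧
        Relation.ReflTransGen (Step A l N W) (i, j, v) (i', j', v') := by
    intro n
    induction n with
    | zero =>
      intro i j v _ h2
      rw [pow_zero, mul_one] at h2
      exact ⟨i, j, v, h2, Relation.ReflTransGen.refl⟩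
    | succ n ih =>
      intro i j v h1 h2
      obtain ⟨i', j', v', h3, h4⟩ := child hD hE h6 i j v h1
      have h5 : 0 < len l i' j' v' :=
        lt_of_lt_of_le (lt_min (by linarith) (by linarith [lm_pos hD.lpos i])) h3
      have h6' : lm l / 4 ≤ len l i' j' v' * 2 ^ n := by
        have h7 : (1 : ℝ) ≤ 2 ^ n := one_le_pow₀ (by norm_num)
        rcases le_total (2 * len l i j v) (lm l / 4) with h | h
        · rw [min_eq_left h] at h3
          calc lm l / 4 ≤ len l i j v * 2 ^ (n + 1) := h2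
            _ = (2 * len l i j v) * 2 ^ n := by ring
            _ ≤ _ := mul_le_mul_of_nonneg_right h3 (by positivity)
        · rw [min_eq_right h] at h3
          calc lm l / 4 ≤ len l i' j' v' * 1 := by rw [mul_one]; exact h3
            _ ≤ _ := mul_le_mul_of_nonneg_left h7 h5.le
      obtain ⟨i'', j'', v'', h8, h9⟩ := ih i' j' v' h5 h6'
      exact ⟨i'', j'', v'', h8, Relation.ReflTransGen.head h4 h9⟩
  intro i j v hlen
  obtain ⟨n, hn⟩ : ∃ n : ℕ, lm l / 4 / len l i j v < 2 ^ n := pow_unbounded_of_one_lt _ (by norm_num)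
  refine key n i j v hlen ?_
  rw [div_lt_iff₀ hlen] at hn
  rw [mul_comm]
  exact hn.le

end Pool.Agent.H811R3.PS
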