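import Pool.Agent.H811R3.PS.DetAux

/-!
# (DS) from equal letters to different letters
-/

set_option autoImplicit false

open Finset MeasureTheory Filter

namespace Pool.Agent.H811R3.PS

open DetAux

/-- the case of a run: offset between `lm / 2` and `2 sl` after one step -/
theorem ds_run {d : ℕ} (A : Matrix (Fin d) (Fin d) ℤ) (Lam : ℝ)
    (l f : Fin d → ℝ) (N : Fin d → ℕ) (W : Fin d → ℕ → Fin d) (K : ℕ) (a b : Fin d)
    (hD : Dat A Lam l f) (hK : 2 * sl l / lm l + 1 ≤ K) (i : Fin d)
    (hrun : EvR N W K a b i) (v : Fin d → ℤ) (h1 : lm l / 2 ≤ Lam * dot l (ic v))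
    (h2 : Lam * dot l (ic v) < 2 * sl l) :
    ∃ v' : Fin d → ℤ, lm l / 4 ≤ len l a b v' ∧ Step A l N W (i, i, v) (a, b, v') := by
  have hlm : 0 < lm l := lm_pos hD.lpos i
  obtain ⟨τ, hτ, hra, hrb⟩ := hrun
  set o : ℝ := Lam * dot l (ic v) with ho
  set S : ℕ → ℝ := fun t => dot l (ic (cnt (W i) 0 t)) with hS
  have hK' : 2 * sl l ≤ (K - 1 : ℝ) * lm l := by
    have : 2 * sl l / lm l ≤ K - 1 := by linarith
    rwa [div_le_iff₀ hlm] at this
  have hKpos : 0 < K := by
    have : (0 : ℝ) < K := by
      have : 0 ≤ sl l := by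
        unfold sl
        exact Finset.sum_nonneg fun j _ => (hD.lpos j).le
      have : 0 ≤ 2 * sl l / lm l := by positivity
      linarith
    exact_mod_cast this
  -- positions in the first run
  have hSs : ∀ s ≤ K, S (τ + s) = S τ + s * l a := by
    intro s hs
    induction s with
    | zero => simp
    | succ s ih =>
      have e1 : S (τ + (s + 1)) = S (τ + s) + l (W i (τ + s)) := by
        simp only [hS]
        rw [← add_assoc, dot_cnt_succ l (W i) (Nat.zero_le _)]
      rw [e1, ih (by omega), hra s (by omega)]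
      push_cast
      ring
  have hla : lm l ≤ l a := lm_le hD.lpos a
  have hlb : lm l ≤ l b := lm_le hD.lpos b
  -- the largest `s < K` with `s * l a + o ≤ K * l a`
  have hex : ∃ s : ℕ, s < K ∧ (s : ℝ) * l a + o ≤ K * l a ∧ (K : ℝ) * l a < (s + 1 : ℝ) * l a + o := by
    classical
    have h0 : ((0 : ℕ) : ℝ) * l a + o ≤ K * l a := by
      have : (K - 1 : ℝ) * lm l ≤ (K : ℝ) * l a := by
        have hk1 : (0 : ℝ) ≤ K - 1 := by
          have : (1 : ℝ) ≤ K := by exact_mod_cast hKpos
          linarith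
        nlinarith
      simp only [Nat.cast_zero, zero_mul, zero_add]
      linarith
    by_contra hcon
    push Not at hcon
    have hall : ∀ s : ℕ, s ≤ K → (s : ℝ) * l a + o ≤ K * l a := by
      intro s
      induction s with
      | zero => intro _; exact h0
      | succ s ih =>
        intro hs
        have := hcon s (by omega) (ih (by omega))
        push_cast
        exact this
    have := hall K le_rfl
    linarith
  obtain ⟨s, hsK, hs1, hs2⟩ := hex
  -- offset of the top tile
  have hoff : ∀ s' ≤ K, dot l (ic (chv A W i i v (τ + s') (τ + K))) =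
      o + s' * l a - K * l a := by
    intro s' hs'
    rw [dot_chv hD.left]
    have e1 := hSs s' hs'
    have e2 := hSs K le_rfl
    simp only [hS] at e1 e2
    rw [e1, e2]
    ring
  have hlast : W i (τ + K) = b := by
    have := hrb 0 hKpos
    simpa using this
  by_cases hc : o + s * l a - K * l a + l a ≥ lm l / 4
  · refine ⟨chv A W i i v (τ + s) (τ + K), ?_, τ + s, by simp only; omega, τ + K, by simp only; omega, ?_, ?_⟩
    · simp only [len]
      rw [hoff s hsK.le, max_eq_right (by linarith), sub_zero]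
      exact le_min hc (by linarith)
    · simp only
      rw [hra s hsK, hlast]
    · simp only [len]
      rw [hoff s hsK.le, max_eq_right (by linarith), sub_zero]
      exact lt_of_lt_of_le (by linarith : (0 : ℝ) < lm l / 4) (le_min hc (by linarith))
  · push Not at hc
    have hs3 : s + 1 < K := by
      by_contra hcon
      have hsK' : s + 1 = K := by omega
      have : ((s : ℝ) + 1) = K := by exact_mod_cast hsK'
      have e1 : (s : ℝ) * l a + l a = K * l a := by rw [← this]; ring
      linarith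
    have hcast : ((s + 1 : ℕ) : ℝ) * l a = s * l a + l a := by push_cast; ring
    have hlen : lm l / 4 ≤ min (o + ((s + 1 : ℕ) : ℝ) * l a - K * l a + l a) (l b) -
        max (o + ((s + 1 : ℕ) : ℝ) * l a - K * l a) 0 := by
      rw [hcast]
      rw [max_eq_left (by linarith)]
      rcases min_choice (o + (s * l a + l a) - K * l a + l a) (l b) with h | h
      · rw [h]; linarith
      · rw [h]; linarith
    refine ⟨chv A W i i v (τ + (s + 1)) (τ + K), ?_, τ + (s + 1), by simp only; omega, τ + K,
      by simp only; omega, ?_, ?_⟩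
    · simp only [len]
      rw [hoff (s + 1) hs3.le]
      exact hlen
    · simp only
      rw [hra (s + 1) hs3, hlast]
    · simp only [len]
      rw [hoff (s + 1) hs3.le]
      exact lt_of_lt_of_le (by linarith : (0 : ℝ) < lm l / 4) hlen

theorem ds_pos {d : ℕ} (A : Matrix (Fin d) (Fin d) ℤ) (Lam : ℝ)
    (l f : Fin d → ℝ) (N : Fin d → ℕ) (W : Fin d → ℕ → Fin d) (κ L0 R0 Ls R1 e : ℝ) (K : ℕ)
    (a b : Fin d) (L : ℕ) (hD : Dat A Lam l f) (hκ : ∀ y, ‖prj f (act A y)‖ ≤ κ * ‖prj f y‖)
    (hNum : Num Lam l N κ L0 R0 Ls R1 e K) (hG : Good A Lam l f N W L0 R0 Ls R1 e K a b L)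
    (hab : a ≠ b) (n : ℕ) :
    ∀ (i : Fin d) (v : Fin d → ℤ), 0 < dot l (ic v) → lm l / 2 ≤ Lam ^ (n + 1) * dot l (ic v) →
    lm l / 4 ≤ len l i i v → ‖prj f (ic v)‖ ≤ 4 * R0 →
    ∃ (i' j' : Fin d) (v' : Fin d → ℤ), i' ≠ j' ∧ lm l / 4 ≤ len l i' j' v' ∧
      Relation.ReflTransGen (Step A l N W) (i, i, v) (i', j', v') := by
  -- large offset
  have big : ∀ (i : Fin d) (v : Fin d → ℤ), lm l / 2 ≤ Lam * dot l (ic v) →
      lm l / 4 ≤ len l i i v → ‖prj f (ic v)‖ ≤ 4 * R0 →
      ∃ (i' j' : Fin d) (v' : Fin d → ℤ), i' ≠ j' ∧ lm l / 4 ≤ len l i' j' v' ∧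
        Relation.ReflTransGen (Step A l N W) (i, i, v) (i', j', v') := by
    intro i v h2 h3 h4
    have hlm : 0 < lm l := lm_pos hD.lpos i
    by_cases hc : 2 * sl l ≤ Lam * dot l (ic v)
    · obtain ⟨t, t', ht, ht', hne, hlen⟩ := hG.p1b i v h4 hc h3
      refine ⟨W i t, W i t', chv A W i i v t t', hne, hlen, Relation.ReflTransGen.single ?_⟩
      exact ⟨t, ht, t', ht', rfl, lt_of_lt_of_le (by linarith) hlen⟩
    · push Not at hc
      obtain ⟨v', hv', hst⟩ := ds_run A Lam l f N W K a b hD hNum.run i (hG.run i) v h2 hc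
      exact ⟨a, b, v', hab, hv', Relation.ReflTransGen.single hst⟩
  induction n with
  | zero =>
    intro i v _ h2 h3 h4
    rw [zero_add, pow_one] at h2
    exact big i v h2 h3 h4
  | succ n ih =>
    intro i v h1 h2 h3 h4
    have hlm : 0 < lm l := lm_pos hD.lpos i
    by_cases hc : lm l / 2 ≤ Lam * dot l (ic v)
    · exact big i v hc h3 h4
    · push Not at hc
      have hNi : 0 < N i := N_pos hD hG.exact i
      have hL : 6 ≤ Lam := hNum.lam6
      have hchv : chv A W i i v 0 0 = A.mulVec v := by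
        unfold chv
        rw [cnt_self]
        simp
      have hoff : dot l (ic (A.mulVec v)) = Lam * dot l (ic v) := by
        rw [ic_mulVec, dot_act hD.left]
      have hpos : 0 < Lam * dot l (ic v) := mul_pos (by linarith) h1
      have hlen : len l (W i 0) (W i 0) (A.mulVec v) = l (W i 0) - Lam * dot l (ic v) := by
        simp only [len]
        rw [hoff, min_eq_right (by linarith), max_eq_left hpos.le]
      have hl0 : lm l ≤ l (W i 0) := lm_le hD.lpos _
      have hst : Step A l N W (i, i, v) (W i 0, W i 0, A.mulVec v) := by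
        refine ⟨0, hNi, 0, hNi, ?_, ?_⟩
        · simp only
          rw [hchv]
        · simp only
          rw [hlen]
          linarith
      have hb : ‖prj f (ic (A.mulVec v))‖ ≤ 4 * R0 := by
        have := prj_chv_le hκ hNum.κ2 hG.regL hNum.len0 i i v 0 0 (Nat.zero_le _)
          (Nat.zero_le _) h4
        rwa [hchv] at this
      obtain ⟨i', j', v', hne, hl', hp⟩ := ih (W i 0) (A.mulVec v) (by rw [hoff]; exact hpos)
        (by
          rw [hoff]
          calc lm l / 2 ≤ Lam ^ (n + 1 + 1) * dot l (ic v) := h2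
            _ = Lam ^ (n + 1) * (Lam * dot l (ic v)) := by ring)
        (by rw [hlen]; linarith) hb
      exact ⟨i', j', v', hne, hl', Relation.ReflTransGen.head hst hp⟩

theorem ds_holds : StDS := by
  intro d hd A Lam l f N W κ L0 R0 Ls R1 e K a b L hD hκ hNum hG hab _ i v hv0 hlen hv
  have hlm : 0 < lm l := lm_pos hD.lpos i
  -- for positive offset
  have pos : ∀ w : Fin d → ℤ, 0 < dot l (ic w) → lm l / 4 ≤ len l i i w →
      ‖prj f (ic w)‖ ≤ 4 * R0 → ∃ (i' j' : Fin d) (v' : Fin d → ℤ), i' ≠ j' ∧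
        lm l / 4 ≤ len l i' j' v' ∧ Relation.ReflTransGen (Step A l N W) (i, i, w) (i', j', v') := by
    intro w hw h1 h2
    obtain ⟨n, hn⟩ : ∃ n : ℕ, lm l / 2 ≤ Lam ^ (n + 1) * dot l (ic w) := by
      obtain ⟨n, hn⟩ := pow_unbounded_of_one_lt (lm l / 2 / dot l (ic w)) hD.one_lt
      refine ⟨n, ?_⟩
      have h5 : lm l / 2 / dot l (ic w) ≤ Lam ^ (n + 1) := by
        refine hn.le.trans ?_
        exact pow_le_pow_right₀ hD.one_lt.le (Nat.le_succ n)
      rwa [div_le_iff₀ hw] at h5
    exact ds_pos A Lam l f N W κ L0 R0 Ls R1 e K a b L hD hκ hNum hG hab n i w hw hn h1 h2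
  rcases lt_trichotomy (dot l (ic v)) 0 with h | h | h
  · obtain ⟨i', j', v', hne, hl', hp⟩ := pos (-v) (by rw [ic_neg, dot_neg]; linarith)
      (by rw [len_swp]; exact hlen) (by rw [ic_neg, prj_neg, norm_neg]; exact hv)
    refine ⟨j', i', -v', hne.symm, by rw [len_swp]; exact hl', ?_⟩
    have := path_swp hp
    simpa [swp] using this
  · exact absurd h (hD.indep v hv0)
  · exact pos v h hlen hv

end Pool.Agent.H811R3.PS
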