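import Pool.Agent.H811R3.PS.Defs

set_option autoImplicit false

open Finset MeasureTheory Filter

namespace Pool.Agent.H811R3.PS

theorem ex_ovr_append {d : ℕ} (w : ℕ → Fin d) (τ : ℕ) {L L' : ℕ} (v : Fin L → Fin d)
    (v' : Fin L' → Fin d) :
    ovr w τ (Fin.append v v') = ovr (ovr w τ v) (τ + L) v' := by
  funext t
  unfold ovr
  by_cases h1 : τ ≤ t ∧ t < τ + L
  · have h2 : τ ≤ t ∧ t < τ + (L + L') := by omega
    have h3 : ¬ (τ + L ≤ t ∧ t < τ + L + L') := by omega
    rw [dif_pos h2, dif_neg h3, dif_pos h1]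
    have : (⟨t - τ, by omega⟩ : Fin (L + L')) = Fin.castAdd L' ⟨t - τ, by omega⟩ := rfl
    rw [this, Fin.append_left]
  · by_cases h3 : τ + L ≤ t ∧ t < τ + L + L'
    · have h2 : τ ≤ t ∧ t < τ + (L + L') := by omega
      rw [dif_pos h2, dif_pos h3]
      have : (⟨t - τ, by omega⟩ : Fin (L + L')) = Fin.natAdd L ⟨t - (τ + L), by omega⟩ := by
        apply Fin.ext; simp; omega
      rw [this, Fin.append_right]
    · have h2 : ¬ (τ ≤ t ∧ t < τ + (L + L')) := by omega
      rw [dif_neg h2, dif_neg h3, dif_neg h1]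

theorem ex_holds : StEX := by
  intro d f hf
  have hprod : ∀ (L : ℕ) (v : Fin L → Fin d), 0 ≤ ∏ t, f (v t) := fun L v =>
    Finset.prod_nonneg fun t _ => (hf.1 _).le
  refine ⟨?_, ?_, ?_, ?_, ?_⟩
  · intro τ L L' φ w
    unfold Ex
    rw [← (Fin.appendEquiv L L').sum_comp, Fintype.sum_prod_type]
    apply Finset.sum_congr rfl
    intro v _
    rw [Finset.mul_sum]
    apply Finset.sum_congr rfl
    intro v' _
    have h1 : (Fin.appendEquiv L L') (v, v') = Fin.append v v' := rfl
    rw [h1, Fin.prod_univ_add, ex_ovr_append]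
    simp only [Fin.append_left, Fin.append_right]
    ring
  · intro τ L c w
    unfold Ex
    rw [← Finset.sum_mul]
    have h1 : ∑ v : Fin L → Fin d, ∏ t, f (v t) = 1 := by
      have h2 := Finset.prod_univ_sum (fun _ : Fin L => (Finset.univ : Finset (Fin d)))
        (fun _ i => f i)
      rw [Fintype.piFinset_univ] at h2
      rw [← h2]
      simp [hf.2]
    rw [h1, one_mul]
  · intro τ L φ ψ w h
    unfold Ex
    apply Finset.sum_le_sum
    intro v _
    apply mul_le_mul_of_nonneg_left _ (hprod L v)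
    apply h
    intro t ht
    unfold ovr
    rw [dif_neg (by omega)]
  · intro τ L φ c w
    unfold Ex
    rw [Finset.mul_sum]
    apply Finset.sum_congr rfl
    intro v _; ring
  · intro τ L φ ψ w
    unfold Ex
    rw [← Finset.sum_add_distrib]
    apply Finset.sum_congr rfl
    intro v _; ring

end Pool.Agent.H811R3.PS
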