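import Pool.Agent.H811R3.PS.Defs6

/-! Task FN: finitely many substitutions with given incidence matrix. -/

set_option autoImplicit false

open Finset MeasureTheory Filter

namespace Pool.Agent.H811R3.PS

namespace FN

lemma length_eq {d : ℕ} (l : List (Fin d)) : l.length = ∑ i : Fin d, l.count i := by
  have h := Multiset.toFinset_sum_count_eq (l : Multiset (Fin d))
  rw [Multiset.coe_card] at h
  rw [← h]
  have h2 : ∑ a ∈ (l : Multiset (Fin d)).toFinset, Multiset.count a (l : Multiset (Fin d)) =
      ∑ a : Fin d, Multiset.count a (l : Multiset (Fin d)) := by
    refine Finset.sum_subset (Finset.subset_univ _) ?_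
    intro x _ hx
    rw [Multiset.mem_toFinset] at hx
    exact Multiset.count_eq_zero_of_notMem hx
  rw [h2]
  exact Finset.sum_congr rfl fun i _ => Multiset.coe_count i l

end FN

theorem fn_holds : StFN := by
  intro d A hA
  constructor
  · have hfin : (Set.univ.pi (fun j : Fin d =>
        {l : List (Fin d) | l.length ≤ ∑ i : Fin d, (A i j).toNat})).Finite :=
      Set.Finite.pi fun j => List.finite_length_le (Fin d) _
    refine hfin.subset ?_
    intro σ hσ
    rw [Set.mem_ofPred_eq] at hσ
    intro j _
    rw [Set.mem_ofPred_eq, FN.length_eq]
    refine Finset.sum_le_sum fun i _ => ?_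
    have h1 : ((σ j).count i : ℤ) = A i j := by
      rw [← hσ]
      rfl
    rw [← h1, Int.toNat_natCast]
  · refine ⟨fun j => (List.finRange d).flatMap (fun i => List.replicate (A i j).toNat i), ?_⟩
    rw [Set.mem_ofPred_eq]
    funext i j
    have h2 : ((List.finRange d).flatMap (fun i => List.replicate (A i j).toNat i)).count i =
        (A i j).toNat := by
      rw [List.count_flatMap]
      have h3 : ((List.finRange d).map (List.count i ∘ fun i' => List.replicate (A i' j).toNat i')).sum
          = ∑ i' : Fin d, (List.replicate (A i' j).toNat i').count i := by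
        rw [Fin.sum_univ_def]
        rfl
      rw [h3, Finset.sum_eq_single i]
      · rw [List.count_replicate_self]
      · intro b _ hb
        rw [List.count_replicate]
        have : (b == i) = false := by simpa using hb
        rw [this]
        rfl
      · intro h
        exact absurd (Finset.mem_univ i) h
    show ((_ : ℕ) : ℤ) = _
    rw [h2, Int.toNat_of_nonneg (hA i j)]

end Pool.Agent.H811R3.PS
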