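import Pool.Agent.H811R3.PS.Defs

set_option autoImplicit false

open Finset MeasureTheory Filter

namespace Pool.Agent.H811R3.PS

theorem hoe_prod {d : ℕ} (f : Fin d → ℝ) (n : ℕ) (g : ℕ → Fin d → ℝ) (w0 : ℕ → Fin d) :
    Ex f 0 n (fun w => ∏ t ∈ Finset.range n, g t (w t)) w0 =
      ∏ t ∈ Finset.range n, ∑ k, f k * g t k := by
  unfold Ex
  have h1 : ∀ v : Fin n → Fin d, (∏ t, f (v t)) * ∏ t ∈ Finset.range n, g t (ovr w0 0 v t)
      = ∏ t : Fin n, (f (v t) * g t (v t)) := by
    intro v
    rw [Finset.prod_mul_distrib]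
    congr 1
    rw [Finset.prod_range]
    apply Finset.prod_congr rfl
    intro t _
    congr 1
    unfold ovr
    rw [dif_pos (by have := t.2; omega)]
    congr 1
  simp only [h1]
  rw [Finset.prod_range]
  rw [Finset.prod_univ_sum (fun _ : Fin n => (Finset.univ : Finset (Fin d)))
    (fun (t : Fin n) k => f k * g t k)]
  rw [Fintype.piFinset_univ]

theorem hoe_X {d : ℕ} (f : Fin d → ℝ) (a b : ℕ) (i : Fin d) (w : ℕ → Fin d) :
    prj f (ic (cnt w a b)) i = ∑ t ∈ Finset.Ico a b, ((if w t = i then (1:ℝ) else 0) - f i) := by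
  have h1 : ∀ j, ic (cnt w a b) j = ∑ t ∈ Finset.Ico a b, (if w t = j then (1:ℝ) else 0) := by
    intro j
    unfold ic cnt
    push_cast
    rfl
  unfold prj
  simp only [h1]
  rw [Finset.sum_comm]
  have h2 : ∀ t ∈ Finset.Ico a b, ∑ j, (if w t = j then (1:ℝ) else 0) = 1 := by
    intro t _; simp
  rw [Finset.sum_congr rfl h2, Finset.sum_sub_distrib]
  simp

theorem hoe_exp_le (x : ℝ) (hx : |x| ≤ 1) : Real.exp x ≤ 1 + x + x ^ 2 := by
  have h := Real.abs_exp_sub_one_sub_id_le hx
  have := (abs_le.1 h).2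
  linarith

theorem hoe_mgf {d : ℕ} (f : Fin d → ℝ) (hf : PV f) (a b n : ℕ) (hab : a < b) (hbn : b ≤ n)
    (i : Fin d) (h : ℝ) (hh : |h| ≤ 1) (w0 : ℕ → Fin d) :
    Ex f 0 n (fun w => Real.exp (h * prj f (ic (cnt w a b)) i)) w0 ≤
      Real.exp (h ^ 2 * ((b : ℝ) - a)) := by
  set E : Fin d → ℝ := fun k => Real.exp (h * ((if k = i then (1:ℝ) else 0) - f i)) with hE
  set g : ℕ → Fin d → ℝ := fun t k => if a ≤ t ∧ t < b then E k else 1 with hg
  have h1 : (fun w : ℕ → Fin d => Real.exp (h * prj f (ic (cnt w a b)) i))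
      = fun w => ∏ t ∈ Finset.range n, g t (w t) := by
    funext w
    rw [hoe_X, Finset.mul_sum, Real.exp_sum]
    simp only [hg]
    rw [← Finset.prod_filter]
    apply Finset.prod_congr
    · ext t; simp only [Finset.mem_Ico, Finset.mem_filter, Finset.mem_range]; omega
    · intro t _; rfl
  rw [h1, hoe_prod]
  set G : ℝ := ∑ k, f k * E k with hG
  have h2 : ∀ t ∈ Finset.range n, ∑ k, f k * g t k = if a ≤ t ∧ t < b then G else 1 := by
    intro t _
    simp only [hg]
    split_ifs
    · rfl
    · simp [hf.2]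
  rw [Finset.prod_congr rfl h2, ← Finset.prod_filter, Finset.prod_const]
  have h3 : (Finset.filter (fun t => a ≤ t ∧ t < b) (Finset.range n)).card = b - a := by
    have : Finset.filter (fun t => a ≤ t ∧ t < b) (Finset.range n) = Finset.Ico a b := by
      ext t; simp only [Finset.mem_Ico, Finset.mem_filter, Finset.mem_range]; omega
    rw [this, Nat.card_Ico]
  rw [h3]
  have hfi1 : f i ≤ 1 := by
    rw [← hf.2]
    exact Finset.single_le_sum (f := f) (fun k _ => (hf.1 k).le) (Finset.mem_univ i)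
  have hfi0 := hf.1 i
  have hG0 : 0 ≤ G := Finset.sum_nonneg fun k _ => mul_nonneg (hf.1 k).le (Real.exp_pos _).le
  have hxk : ∀ k : Fin d, |(if k = i then (1:ℝ) else 0) - f i| ≤ 1 := by
    intro k
    rw [abs_le]
    split_ifs <;> constructor <;> linarith
  have hGle : G ≤ Real.exp (h ^ 2) := by
    have h4 : ∀ k, f k * E k ≤ f k * (1 + h * ((if k = i then (1:ℝ) else 0) - f i) + h ^ 2) := by
      intro k
      apply mul_le_mul_of_nonneg_left _ (hf.1 k).le
      have h5 : |h * ((if k = i then (1:ℝ) else 0) - f i)| ≤ 1 := by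
        rw [abs_mul]
        calc |h| * |(if k = i then (1:ℝ) else 0) - f i| ≤ 1 * 1 :=
              mul_le_mul hh (hxk k) (abs_nonneg _) zero_le_one
          _ = 1 := by ring
      have h6 := hoe_exp_le _ h5
      have h7 : (h * ((if k = i then (1:ℝ) else 0) - f i)) ^ 2 ≤ h ^ 2 := by
        rw [mul_pow]
        have h8 : ((if k = i then (1:ℝ) else 0) - f i) ^ 2 ≤ 1 := by
          rw [← sq_abs]
          exact pow_le_one₀ (abs_nonneg _) (hxk k)
        nlinarith [sq_nonneg h]
      simp only [hE]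
      linarith
    have h5 : ∑ k, f k * (1 + h * ((if k = i then (1:ℝ) else 0) - f i) + h ^ 2) = 1 + h ^ 2 := by
      have h6 : ∀ k, f k * (1 + h * ((if k = i then (1:ℝ) else 0) - f i) + h ^ 2)
          = (1 - h * f i + h ^ 2) * f k + h * (if k = i then f k else 0) := by
        intro k; split_ifs <;> ring
      simp only [h6, Finset.sum_add_distrib, ← Finset.mul_sum, hf.2]
      simp
      ring
    have h6 : G ≤ 1 + h ^ 2 := by
      rw [← h5]
      exact Finset.sum_le_sum fun k _ => h4 k
    have h7 := Real.add_one_le_exp (h ^ 2)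
    linarith
  calc G ^ (b - a) ≤ Real.exp (h ^ 2) ^ (b - a) := pow_le_pow_left₀ hG0 hGle _
    _ = Real.exp (h ^ 2 * ((b : ℝ) - a)) := by
        rw [← Real.exp_nat_mul, Nat.cast_sub hab.le]; congr 1; ring

theorem hoe_holds (hEX : StEX) : StHOE := by
  intro d f hf a b n hab hbn i R hR w0
  obtain ⟨hFub, hconst, hmono, hcmul, hadd⟩ := hEX d f hf
  have hm : (0:ℝ) < (b : ℝ) - a := by
    have : (a : ℝ) < b := by exact_mod_cast hab
    linarith
  have hfi1 : f i ≤ 1 := by
    rw [← hf.2]
    exact Finset.single_le_sum (f := f) (fun k _ => (hf.1 k).le) (Finset.mem_univ i)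
  have hfi0 := hf.1 i
  have habs : ∀ w : ℕ → Fin d, |prj f (ic (cnt w a b)) i| ≤ (b : ℝ) - a := by
    intro w
    rw [hoe_X]
    refine le_trans (Finset.abs_sum_le_sum_abs _ _) ?_
    calc ∑ t ∈ Finset.Ico a b, |(if w t = i then (1:ℝ) else 0) - f i|
        ≤ ∑ t ∈ Finset.Ico a b, (1:ℝ) := by
          apply Finset.sum_le_sum
          intro t _
          rw [abs_le]
          split_ifs <;> constructor <;> linarith
      _ = (b : ℝ) - a := by
          rw [Finset.sum_const, Nat.card_Ico, nsmul_eq_mul, mul_one, Nat.cast_sub hab.le]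
  by_cases hcase : R ≤ 2 * ((b : ℝ) - a)
  · set h : ℝ := R / (2 * ((b : ℝ) - a)) with hh
    have hh0 : 0 ≤ h := by positivity
    have hh1 : h ≤ 1 := by rw [hh, div_le_one (by linarith)]; exact hcase
    have habsh : |h| ≤ 1 := by rw [abs_of_nonneg hh0]; exact hh1
    have habsh' : |(-h)| ≤ 1 := by rw [abs_neg]; exact habsh
    have h1 := hoe_mgf f hf a b n hab hbn i h habsh w0
    have h2 := hoe_mgf f hf a b n hab hbn i (-h) habsh' w0
    rw [neg_sq] at h2
    unfold Pr
    have h3 : ∀ w : ℕ → Fin d, (if R < |prj f (ic (cnt w a b)) i| then (1:ℝ) else 0) ≤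
        Real.exp (-(h * R)) * (Real.exp (h * prj f (ic (cnt w a b)) i) +
          Real.exp (-h * prj f (ic (cnt w a b)) i)) := by
      intro w
      split_ifs with hc
      · rw [mul_add, ← Real.exp_add, ← Real.exp_add]
        rcases le_total 0 (prj f (ic (cnt w a b)) i) with hp | hp
        · rw [abs_of_nonneg hp] at hc
          have h4 : (1:ℝ) ≤ Real.exp (-(h * R) + h * prj f (ic (cnt w a b)) i) := by
            apply Real.one_le_exp
            nlinarith
          have h5 := Real.exp_pos (-(h * R) + -h * prj f (ic (cnt w a b)) i)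
          linarith
        · rw [abs_of_nonpos hp] at hc
          have h4 : (1:ℝ) ≤ Real.exp (-(h * R) + -h * prj f (ic (cnt w a b)) i) := by
            apply Real.one_le_exp
            nlinarith
          have h5 := Real.exp_pos (-(h * R) + h * prj f (ic (cnt w a b)) i)
          linarith
      · positivity
    have h4 := hmono 0 n (fun w => if R < |prj f (ic (cnt w a b)) i| then (1:ℝ) else 0)
      (fun w => Real.exp (-(h * R)) * (Real.exp (h * prj f (ic (cnt w a b)) i) +
          Real.exp (-h * prj f (ic (cnt w a b)) i))) w0 (fun w' _ => h3 w')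
    rw [hcmul, hadd] at h4
    have h5 : Real.exp (-(h * R)) * (Ex f 0 n (fun w => Real.exp (h * prj f (ic (cnt w a b)) i)) w0
        + Ex f 0 n (fun w => Real.exp (-h * prj f (ic (cnt w a b)) i)) w0)
        ≤ Real.exp (-(h * R)) * (2 * Real.exp (h ^ 2 * ((b : ℝ) - a))) := by
      apply mul_le_mul_of_nonneg_left _ (Real.exp_pos _).le
      linarith
    have h6 : Real.exp (-(h * R)) * (2 * Real.exp (h ^ 2 * ((b : ℝ) - a)))
        = 2 * Real.exp (-(R ^ 2 / (4 * ((b : ℝ) - a)))) := by
      have : Real.exp (-(h * R)) * (2 * Real.exp (h ^ 2 * ((b : ℝ) - a)))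
        = 2 * Real.exp (-(h * R) + h ^ 2 * ((b : ℝ) - a)) := by rw [Real.exp_add]; ring
      rw [this]
      congr 2
      rw [hh]
      field_simp
      ring
    have h7 : Ex f 0 n (fun w => if R < |prj f (ic (cnt w a b)) i| then (1:ℝ) else 0) w0 ≤
        2 * Real.exp (-(R ^ 2 / (4 * ((b : ℝ) - a)))) := by linarith
    convert h7 using 3
  · have h0 : Pr f 0 n (fun w => R < |prj f (ic (cnt w a b)) i|) w0 = 0 := by
      unfold Pr
      have : (fun w' : ℕ → Fin d => (if R < |prj f (ic (cnt w' a b)) i| then (1:ℝ) else 0))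
          = fun _ => 0 := by
        funext w
        rw [if_neg]
        have := habs w
        push Not at hcase ⊢
        linarith
      have h8 := hconst 0 n 0 w0
      rw [← this] at h8
      convert h8 using 3
    rw [h0]; positivity

end Pool.Agent.H811R3.PS
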