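import Pool.Agent.H811R3.PS.Defs

/-! Task L1: the hitting lemma. -/

set_option autoImplicit false

open Finset

namespace Pool.Agent.H811R3.PS

theorem L1_dot_sub {d : ℕ} (l : Fin d → ℝ) (u v : Fin d → ℤ) :
    dot l (ic (u - v)) = dot l (ic u) - dot l (ic v) := by
  simp only [dot, ic, Pi.sub_apply, Int.cast_sub, mul_sub, Finset.sum_sub_distrib]

theorem L1_dot_prj {d : ℕ} {l f : Fin d → ℝ} (h : dot l f = 1) (z : Fin d → ℤ) :
    dot l (ic z) = dot l (prj f (ic z)) + ((∑ i, z i : ℤ) : ℝ) := by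
  have h1 : dot l (prj f (ic z)) = dot l (ic z) - (∑ j, ic z j) * dot l f := by
    simp only [dot, prj, mul_sub, Finset.sum_sub_distrib]
    congr 1
    rw [Finset.mul_sum]
    exact Finset.sum_congr rfl fun i _ => by ring
  rw [h1, h]
  simp [ic]

theorem L1_dot_le {d : ℕ} {l : Fin d → ℝ} (hl : ∀ i, 0 < l i) (y : Fin d → ℝ) :
    |dot l y| ≤ sl l * ‖y‖ := by
  unfold dot sl
  rw [Finset.sum_mul]
  refine (Finset.abs_sum_le_sum_abs _ _).trans (Finset.sum_le_sum fun i _ => ?_)
  rw [abs_mul, abs_of_pos (hl i)]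
  exact mul_le_mul_of_nonneg_left (norm_le_pi_norm y i) (hl i).le

theorem L1_cnt_add {d : ℕ} (w : ℕ → Fin d) {a b c : ℕ} (hab : a ≤ b) (hbc : b ≤ c) :
    cnt w a c = cnt w a b + cnt w b c := by
  funext i
  simp only [cnt, Pi.add_apply]
  exact (Finset.sum_Ico_consecutive _ hab hbc).symm

theorem L1_cnt_congr {d : ℕ} {w w' : ℕ → Fin d} {a b : ℕ} (h : ∀ t, a ≤ t → t < b → w t = w' t) :
    cnt w a b = cnt w' a b := by
  funext i
  simp only [cnt]
  apply Finset.sum_congr rfl
  intro t ht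
  rw [Finset.mem_Ico] at ht
  rw [h t ht.1 ht.2]

/-- one letter -/
theorem L1_letter {d : ℕ} {f : Fin d → ℝ} (hEX : StEX) (hf : PV f) (b R : ℕ) (a : Fin d)
    (w : ℕ → Fin d) : f a ≤ Ex f b (1 + R) (fun w' => if w' b = a then 1 else 0) w := by
  classical
  obtain ⟨h1, h2, h3, h4, h5⟩ := hEX d f hf
  rw [h1]
  have hstep : ∀ w' : ℕ → Fin d, (if w' b = a then (1 : ℝ) else 0) ≤
      Ex f (b + 1) R (fun w'' => if w'' b = a then 1 else 0) w' := by
    intro w'
    rw [← h2 (b + 1) R (if w' b = a then (1 : ℝ) else 0) w']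
    apply h3
    intro w'' hw''
    rw [hw'' b (Or.inl (by omega))]
  refine le_trans ?_ (h3 b 1 _ _ w (fun w' _ => hstep w'))
  unfold Ex
  rw [← Equiv.sum_comp (Equiv.funUnique (Fin 1) (Fin d)).symm]
  have : ∀ x : Fin d, (∏ t : Fin 1, f ((Equiv.funUnique (Fin 1) (Fin d)).symm x t)) *
      (if ovr w b ((Equiv.funUnique (Fin 1) (Fin d)).symm x) b = a then (1 : ℝ) else 0) =
      if x = a then f a else 0 := by
    intro x
    have ho : ovr w b ((Equiv.funUnique (Fin 1) (Fin d)).symm x) b = x := by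
      unfold ovr
      rw [dif_pos ⟨le_refl _, by omega⟩]
      rfl
    rw [ho]
    by_cases hx : x = a
    · subst hx; simp
    · simp [hx]
  rw [Finset.sum_congr rfl (fun x _ => this x)]
  simp

/-- a window with content `z` followed by the letter `a` -/
theorem L1_window {d : ℕ} {f : Fin d → ℝ} (hEX : StEX) (hf : PV f) (b N R : ℕ) (a : Fin d)
    (z : Fin d → ℤ) (w : ℕ → Fin d) :
    f a * Pr f b N (fun w' => cnt w' b (b + N) = z) w ≤
      Pr f b (N + (1 + R)) (fun w' => cnt w' b (b + N) = z ∧ w' (b + N) = a) w := by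
  classical
  obtain ⟨h1, h2, h3, h4, h5⟩ := hEX d f hf
  unfold Pr
  rw [h1, ← h4]
  apply h3
  intro w1 _
  by_cases hc : cnt w1 b (b + N) = z
  · rw [if_pos hc, mul_one]
    refine le_trans (L1_letter hEX hf (b + N) R a w1) ?_
    apply h3
    intro w2 hw2
    have hcc : cnt w2 b (b + N) = z := by
      rw [← hc]
      exact L1_cnt_congr fun t _ ht => hw2 t (Or.inl ht)
    by_cases ha : w2 (b + N) = a
    · rw [if_pos ha, if_pos ⟨hcc, ha⟩]
    · rw [if_neg ha, if_neg (fun h => ha h.2)]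
  · rw [if_neg hc, mul_zero]
    refine le_trans (le_of_eq (h2 (b + N) (1 + R) 0 w1).symm) ?_
    apply h3
    intro w2 _
    split_ifs
    · exact zero_le_one
    · exact le_refl _

theorem l1_holds (hEX : StEX) (hSEQ : StSEQ) (hLOW : StLOW) : StL1 := by
  classical
  intro d hd A Lam l f hD hDen
  obtain ⟨C, hCpos, hDen⟩ := hDen
  have hf : PV f := ⟨hD.fpos, hD.fsum⟩
  obtain ⟨ex1, ex2, ex3, ex4, ex5⟩ := hEX d f hf
  have : Nonempty (Fin d) := ⟨⟨0, by omega⟩⟩
  obtain ⟨imin, -, himin⟩ := Finset.exists_min_image (univ : Finset (Fin d)) f univ_nonempty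
  set fm : ℝ := f imin with hfm
  have hfm0 : 0 < fm := hD.fpos imin
  have hfmle : ∀ i, fm ≤ f i := fun i => himin i (mem_univ i)
  obtain ⟨c, hc0, n0, hlow⟩ := hLOW d hd f hf 2
  set g : ℝ := ((d : ℝ) - 1) / 2 with hg
  have hg0 : 0 ≤ g := by
    have : (2 : ℝ) ≤ d := by exact_mod_cast hd
    rw [hg]; linarith
  set C' : ℝ := max C 1 with hC'
  have hC'1 : 1 ≤ C' := le_max_right _ _
  have hC'C : C ≤ C' := le_max_left _ _
  have hC'0 : 0 < C' := by linarith
  set C5 : ℝ := C * C' ^ ((d : ℝ) - 1) with hC5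
  have hC50 : 0 < C5 := mul_pos hCpos (Real.rpow_pos_of_pos hC'0 _)
  set c1 : ℝ := fm * c * (2 : ℝ) ^ (-g) with hc1
  have h2g : 0 < (2 : ℝ) ^ (-g) := Real.rpow_pos_of_pos (by norm_num) _
  have hc10 : 0 < c1 := mul_pos (mul_pos hfm0 hc0) h2g
  have hsl0 : 0 < sl l := by
    unfold sl
    exact Finset.sum_pos (fun i _ => hD.lpos i) univ_nonempty
  set B : ℝ := max C' (max (2 * sl l + 2) (2 * (2 * C5))) with hB
  refine ⟨min c1 1, 2 * C5, lt_min hc10 one_pos, by positivity, ⌈B ^ 2⌉₊ + 2 * n0 + 1, ?_⟩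
  intro m hm τ K n hn V a G hV ha hG hVG w0
  have hmB : B ^ 2 ≤ (m : ℝ) := by
    refine (Nat.le_ceil _).trans ?_
    exact_mod_cast (by omega : ⌈B ^ 2⌉₊ ≤ m)
  have hmn0 : 2 * n0 ≤ m := by omega
  have hm1 : 1 ≤ m := by omega
  have hm1' : (1 : ℝ) ≤ m := by exact_mod_cast hm1
  have hm0' : (0 : ℝ) < m := by linarith
  have hBs : B ≤ √(m : ℝ) := Real.le_sqrt_of_sq_le hmB
  have hs1 : C' ≤ √(m : ℝ) := (le_max_left _ _).trans hBs
  have hs2 : 2 * sl l + 2 ≤ √(m : ℝ) :=
    ((le_max_left _ _).trans (le_max_right _ _)).trans hBs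
  have hs3 : 2 * (2 * C5) ≤ √(m : ℝ) :=
    ((le_max_right _ _).trans (le_max_right _ _)).trans hBs
  have hsq : √(m : ℝ) * √(m : ℝ) = m := Real.mul_self_sqrt hm0'.le
  have hspos : 0 < √(m : ℝ) := Real.sqrt_pos.mpr hm0'
  have hk1 : sl l * √(m : ℝ) ≤ m / 2 - √(m : ℝ) := by nlinarith
  have hmg1 : (m : ℝ) ^ (-g) ≤ 1 := Real.rpow_le_one_of_one_le_of_nonpos hm1' (by linarith)
  have hmg0 : 0 < (m : ℝ) ^ (-g) := Real.rpow_pos_of_pos hm0' _
  set e : ℝ := 2 * C5 * (m : ℝ) ^ (-g) with he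
  have he0 : 0 < e := by positivity
  have heC : e ≤ 2 * C5 := by
    rw [he]; exact mul_le_of_le_one_right (by positivity) hmg1
  -- the density with the right scale
  have hden : ∀ α : ℝ, ∃ z : Fin d → ℤ, ‖prj f (ic z)‖ ≤ √(m : ℝ) ∧
      |dot l (ic z) - α| ≤ e / 2 := by
    intro α
    have hH : 1 ≤ √(m : ℝ) / C' := by rw [le_div_iff₀ hC'0, one_mul]; exact hs1
    obtain ⟨z, hz1, hz2⟩ := hDen _ hH α
    refine ⟨z, hz1.trans ?_, hz2.trans (le_of_eq ?_)⟩
    · rw [mul_div_assoc', div_le_iff₀ hC'0, mul_comm]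
      exact mul_le_mul_of_nonneg_left hC'C hspos.le
    · rw [Real.div_rpow hspos.le hC'0.le, Real.rpow_neg hC'0.le, div_inv_eq_mul]
      have : √(m : ℝ) ^ (-((d : ℝ) - 1)) = (m : ℝ) ^ (-g) := by
        rw [Real.sqrt_eq_rpow, ← Real.rpow_mul hm0'.le]
        congr 1
        rw [hg]; ring
      rw [this, he, hC5]; ring
  set S : ℕ → (ℕ → Fin d) → Prop := fun k w => ¬ G k w ∨ ∃ t', τ + k * (3 * m) ≤ t' ∧
      t' < τ + (k + 1) * (3 * m) ∧ w t' = a k w ∧
      e ≤ dot l (ic (V k w - cnt w 0 t')) ∧ dot l (ic (V k w - cnt w 0 t')) ≤ 2 * e with hS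
  have hloc : ∀ k < K, Loc (τ + (k + 1) * (3 * m)) (S k) := by
    intro k _ w w' hww
    have hkk : τ + k * (3 * m) ≤ τ + (k + 1) * (3 * m) := by
      have : k * (3 * m) ≤ (k + 1) * (3 * m) := Nat.mul_le_mul_right _ (by omega)
      omega
    have e1 : G k w = G k w' := hG k w w' fun t ht => hww t (by omega)
    have e2 : V k w = V k w' := hV k w w' fun t ht => hww t (by omega)
    have e3 : a k w = a k w' := ha k w w' fun t ht => hww t (by omega)
    apply propext
    simp only [hS]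
    rw [e1, e2, e3]
    apply or_congr Iff.rfl
    apply exists_congr
    intro t'
    constructor
    · rintro ⟨q1, q2, q3, q4, q5⟩
      have ec : cnt w' 0 t' = cnt w 0 t' :=
        L1_cnt_congr fun t _ ht => (hww t (by omega)).symm
      exact ⟨q1, q2, by rw [← hww t' q2]; exact q3, by rw [ec]; exact q4, by rw [ec]; exact q5⟩
    · rintro ⟨q1, q2, q3, q4, q5⟩
      have ec : cnt w 0 t' = cnt w' 0 t' := L1_cnt_congr fun t _ ht => hww t (by omega)
      exact ⟨q1, q2, by rw [hww t' q2]; exact q3, by rw [ec]; exact q4, by rw [ec]; exact q5⟩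
  have hp : ∀ k < K, ∀ w, min c1 1 * (m : ℝ) ^ (-g) ≤
      Pr f (τ + k * (3 * m)) (3 * m) (S k) w := by
    intro k hk w
    set τk := τ + k * (3 * m) with hτk
    have hτk1 : τ + (k + 1) * (3 * m) = τk + 3 * m := by rw [hτk]; ring
    by_cases hGk : G k w
    · obtain ⟨hV1, hV2⟩ := hVG k hk w hGk
      set D : ℝ := dot l (ic (V k w - cnt w 0 τk)) with hDd
      obtain ⟨z, hz1, hz2⟩ := hden (D - 3 / 2 * e)
      rw [abs_le] at hz2
      have hz3 := L1_dot_prj hD.lf z
      have hz4 : |dot l (prj f (ic z))| ≤ sl l * √(m : ℝ) :=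
        (L1_dot_le hD.lpos _).trans (mul_le_mul_of_nonneg_left hz1 hsl0.le)
      rw [abs_le] at hz4
      have hz5 : ((∑ i, z i : ℤ) : ℝ) = dot l (ic z) - dot l (prj f (ic z)) := by
        rw [hz3]; ring
      have hlo : (m : ℝ) / 2 ≤ ((∑ i, z i : ℤ) : ℝ) := by
        rw [hz5]; linarith [hz2.1, hz4.2]
      have hhi : ((∑ i, z i : ℤ) : ℝ) ≤ 2 * m := by
        rw [hz5]; linarith [hz2.2, hz4.1]
      obtain ⟨N, hN⟩ : ∃ N : ℕ, (∑ i, z i : ℤ) = N := by
        have : (0 : ℤ) ≤ ∑ i, z i := by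
          have : (0 : ℝ) ≤ ((∑ i, z i : ℤ) : ℝ) := by linarith
          exact_mod_cast this
        exact ⟨_, (Int.toNat_of_nonneg this).symm⟩
      rw [hN] at hlo hhi
      simp only [Int.cast_natCast] at hlo hhi
      have hN2 : N ≤ 2 * m := by exact_mod_cast hhi
      have hNn0 : n0 ≤ N := by
        have h1 : (m : ℝ) ≤ 2 * N := by linarith
        have h2 : m ≤ 2 * N := by exact_mod_cast h1
        omega
      have hN0 : (0 : ℝ) < N := by linarith
      have hzi : ∀ i, |(z i : ℝ) - N * f i| ≤ 2 * √(N : ℝ) := by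
        intro i
        have h1 : (z i : ℝ) - N * f i = prj f (ic z) i := by
          unfold prj
          have : ∑ j, ic z j = (N : ℝ) := by
            have := congrArg (fun x : ℤ => (x : ℝ)) hN
            simp only [Int.cast_sum, Int.cast_natCast] at this
            simpa [ic] using this
          rw [this]; simp [ic]
        rw [h1]
        have h2 : |prj f (ic z) i| ≤ ‖prj f (ic z)‖ := norm_le_pi_norm (prj f (ic z)) i
        have h3 : √(m : ℝ) ≤ 2 * √(N : ℝ) := by
          rw [show (2 : ℝ) * √(N : ℝ) = √(4 * N) by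
            rw [Real.sqrt_mul (by norm_num), show (4 : ℝ) = 2 ^ 2 by norm_num,
              Real.sqrt_sq (by norm_num)]]
          exact Real.sqrt_le_sqrt (by linarith)
        linarith
      have hpr := hlow N hNn0 z hN hzi τk w
      have hwin := L1_window hEX hf τk N (3 * m - N - 1) (a k w) z w
      have hlen : N + (1 + (3 * m - N - 1)) = 3 * m := by omega
      rw [hlen] at hwin
      have hbig : Pr f τk (3 * m) (fun w' => cnt w' τk (τk + N) = z ∧ w' (τk + N) = a k w) w ≤
          Pr f τk (3 * m) (S k) w := by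
        unfold Pr
        apply ex3
        intro w' hw'
        by_cases hcase : cnt w' τk (τk + N) = z ∧ w' (τk + N) = a k w
        · rw [if_pos hcase]
          have hSk : S k w' := by
            have e2 : V k w' = V k w := hV k w' w fun t ht => hw' t (Or.inl ht)
            have e3 : a k w' = a k w := ha k w' w fun t ht => hw' t (Or.inl ht)
            have ecnt : cnt w' 0 (τk + N) = cnt w 0 τk + z := by
              rw [L1_cnt_add w' (Nat.zero_le τk) (Nat.le_add_right τk N), hcase.1]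
              congr 1
              exact L1_cnt_congr fun t _ ht => hw' t (Or.inl ht)
            have hval : dot l (ic (V k w' - cnt w' 0 (τk + N))) = D - dot l (ic z) := by
              rw [e2, ecnt, hDd, ← sub_sub, L1_dot_sub]
            refine Or.inr ⟨τk + N, by omega, by rw [hτk1]; omega, ?_, ?_, ?_⟩
            · rw [e3]; exact hcase.2
            · rw [hval]; linarith
            · rw [hval]; linarith
          rw [if_pos hSk]
        · rw [if_neg hcase]
          split_ifs <;> norm_num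
      have hNg : (2 : ℝ) ^ (-g) * (m : ℝ) ^ (-g) ≤ (N : ℝ) ^ (-g) := by
        rw [← Real.mul_rpow (by norm_num) hm0'.le]
        exact Real.rpow_le_rpow_of_nonpos hN0 (by linarith) (by linarith)
      calc min c1 1 * (m : ℝ) ^ (-g) ≤ c1 * (m : ℝ) ^ (-g) :=
            mul_le_mul_of_nonneg_right (min_le_left _ _) hmg0.le
        _ = fm * (c * ((2 : ℝ) ^ (-g) * (m : ℝ) ^ (-g))) := by rw [hc1]; ring
        _ ≤ f (a k w) * (c * (N : ℝ) ^ (-g)) := by
            apply mul_le_mul (hfmle _) _ (by positivity) (hD.fpos _).le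
            exact mul_le_mul_of_nonneg_left hNg hc0.le
        _ ≤ f (a k w) * Pr f τk N (fun w' => cnt w' τk (τk + N) = z) w :=
            mul_le_mul_of_nonneg_left hpr (hD.fpos _).le
        _ ≤ _ := hwin
        _ ≤ _ := hbig
    · have h1 : (1 : ℝ) ≤ Pr f τk (3 * m) (S k) w := by
        unfold Pr
        refine le_trans (le_of_eq (ex2 τk (3 * m) 1 w).symm) ?_
        apply ex3
        intro w' hw'
        have : S k w' := by
          left
          have e1 : G k w' = G k w := hG k w' w fun t ht => hw' t (Or.inl ht)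
          rw [e1]; exact hGk
        rw [if_pos this]
      refine le_trans ?_ h1
      exact mul_le_one₀ (min_le_right _ _) hmg0.le hmg1
  have hfin := hSEQ d f hf (min c1 1 * (m : ℝ) ^ (-g))
    (mul_nonneg (le_min hc10.le zero_le_one) hmg0.le) τ (3 * m) K n S hn hloc hp w0
  refine le_trans (le_of_eq ?_) hfin
  congr 1
  funext w
  apply propext
  apply forall_congr'
  intro k
  apply forall_congr'
  intro _
  simp only [hS, not_or, not_not]

end Pool.Agent.H811R3.PS
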