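import Pool.Agent.H811R3.PS.Defs

/-! Task L2: windows with prescribed content. -/

set_option autoImplicit false

open Finset

namespace Pool.Agent.H811R3.PS

theorem L2_cnt_add {d : ℕ} (w : ℕ → Fin d) {a b c : ℕ} (hab : a ≤ b) (hbc : b ≤ c) :
    cnt w a c = cnt w a b + cnt w b c := by
  funext i
  simp only [cnt, Pi.add_apply]
  exact (Finset.sum_Ico_consecutive _ hab hbc).symm

theorem L2_cnt_congr {d : ℕ} {w w' : ℕ → Fin d} {a b : ℕ} (h : ∀ t, a ≤ t → t < b → w t = w' t) :
    cnt w a b = cnt w' a b := by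
  funext i
  simp only [cnt]
  apply Finset.sum_congr rfl
  intro t ht
  rw [Finset.mem_Ico] at ht
  rw [h t ht.1 ht.2]

theorem L2_cnt_sum {d : ℕ} (w : ℕ → Fin d) (a b : ℕ) : ∑ i, cnt w a b i = ((b - a : ℕ) : ℤ) := by
  simp only [cnt]
  rw [Finset.sum_comm]
  simp

theorem L2_cnt_nonneg {d : ℕ} (w : ℕ → Fin d) (a b : ℕ) (i : Fin d) : 0 ≤ cnt w a b i :=
  Finset.sum_nonneg fun t _ => by split_ifs <;> norm_num

theorem L2_cnt_le {d : ℕ} (w : ℕ → Fin d) (a b : ℕ) (i : Fin d) :
    cnt w a b i ≤ ((b - a : ℕ) : ℤ) := by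
  rw [← L2_cnt_sum w a b]
  exact Finset.single_le_sum (f := fun i => cnt w a b i)
    (fun i _ => L2_cnt_nonneg w a b i) (Finset.mem_univ i)

theorem L2_drop {d : ℕ} {f : Fin d → ℝ} (hEX : StEX) (hf : PV f) (b N R : ℕ)
    (φ : (ℕ → Fin d) → ℝ) (hφ : ∀ w w' : ℕ → Fin d, (∀ t < b + N, w t = w' t) → φ w = φ w')
    (w : ℕ → Fin d) : Ex f b (N + R) φ w = Ex f b N φ w := by
  obtain ⟨h1, h2, h3, h4, h5⟩ := hEX d f hf
  rw [h1]
  congr 1
  funext w'
  apply le_antisymm
  · refine le_trans (h3 _ _ φ (fun _ => φ w') w' ?_) (le_of_eq (h2 _ _ _ _))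
    intro w'' hw
    exact le_of_eq (hφ _ _ fun t ht => hw t (Or.inl ht))
  · refine le_trans (le_of_eq (h2 (b + N) R (φ w') w').symm) (h3 _ _ (fun _ => φ w') φ w' ?_)
    intro w'' hw
    exact le_of_eq (hφ _ _ fun t ht => (hw t (Or.inl ht)).symm)

/-- one letter -/
theorem L2_letter {d : ℕ} {f : Fin d → ℝ} (hEX : StEX) (hf : PV f) (b R : ℕ) (a : Fin d)
    (w : ℕ → Fin d) : f a ≤ Ex f b (1 + R) (fun w' => if w' b = a then 1 else 0) w := by
  classical
  rw [L2_drop hEX hf b 1 R _ (fun w w' h => by rw [h b (by omega)]) w]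
  unfold Ex
  rw [← Equiv.sum_comp (Equiv.funUnique (Fin 1) (Fin d)).symm]
  have : ∀ x : Fin d, (∏ t : Fin 1, f ((Equiv.funUnique (Fin 1) (Fin d)).symm x t)) *
      (if ovr w b ((Equiv.funUnique (Fin 1) (Fin d)).symm x) b = a then (1 : ℝ) else 0) =
      if x = a then f a else 0 := by
    intro x
    have ho : ovr w b ((Equiv.funUnique (Fin 1) (Fin d)).symm x) b = x := by
      unfold ovr
      rw [dif_pos ⟨le_refl _, by omega⟩]
      rfl
    rw [ho]
    by_cases hx : x = a
    · subst hx; simp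
    · simp [hx]
  rw [Finset.sum_congr rfl (fun x _ => this x)]
  simp

/-- a window with content `z` followed by the letter `a` -/
theorem L2_window {d : ℕ} {f : Fin d → ℝ} (hEX : StEX) (hf : PV f) (b N R : ℕ) (a : Fin d)
    (z : Fin d → ℤ) (w : ℕ → Fin d) :
    f a * Pr f b N (fun w' => cnt w' b (b + N) = z) w ≤
      Pr f b (N + (1 + R)) (fun w' => cnt w' b (b + N) = z ∧ w' (b + N) = a) w := by
  classical
  obtain ⟨h1, h2, h3, h4, h5⟩ := hEX d f hf
  unfold Pr
  rw [h1, ← h4]
  apply h3
  intro w1 _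
  by_cases hc : cnt w1 b (b + N) = z
  · rw [if_pos hc, mul_one]
    refine le_trans (L2_letter hEX hf (b + N) R a w1) ?_
    apply h3
    intro w2 hw2
    have hcc : cnt w2 b (b + N) = z := by
      rw [← hc]
      exact L2_cnt_congr fun t _ ht => hw2 t (Or.inl ht)
    by_cases ha : w2 (b + N) = a
    · rw [if_pos ha, if_pos ⟨hcc, ha⟩]
    · rw [if_neg ha, if_neg (fun h => ha h.2)]
  · rw [if_neg hc, mul_zero]
    refine le_trans (le_of_eq (h2 (b + N) (1 + R) 0 w1).symm) ?_
    apply h3
    intro w2 _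
    split_ifs
    · exact zero_le_one
    · exact le_refl _

/-- two consecutive windows -/
theorem L2_pair {d : ℕ} {f : Fin d → ℝ} (hEX : StEX) (hf : PV f) (b N N' R : ℕ)
    (z z' : Fin d → ℤ) (q : ℝ)
    (hq : ∀ w, Pr f (b + N) N' (fun w' => cnt w' (b + N) (b + N + N') = z') w ≤ q)
    (w : ℕ → Fin d) :
    Pr f b (N + (N' + R)) (fun w' => cnt w' b (b + N) = z ∧
      cnt w' (b + N) (b + N + N') = z') w ≤
      q * Pr f b N (fun w' => cnt w' b (b + N) = z) w := by
  classical
  obtain ⟨h1, h2, h3, h4, h5⟩ := hEX d f hf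
  unfold Pr
  rw [h1, ← h4]
  apply h3
  intro w1 _
  by_cases hc : cnt w1 b (b + N) = z
  · rw [if_pos hc, mul_one]
    refine le_trans ?_ (hq w1)
    unfold Pr
    refine le_trans ?_ (le_of_eq (L2_drop hEX hf (b + N) N' R _ ?_ w1))
    swap
    · intro w w' h
      have : cnt w (b + N) (b + N + N') = cnt w' (b + N) (b + N + N') :=
        L2_cnt_congr fun t _ ht => h t ht
      by_cases hh : cnt w' (b + N) (b + N + N') = z'
      · rw [if_pos (this.trans hh), if_pos hh]
      · rw [if_neg (fun h2 => hh (this.symm.trans h2)), if_neg hh]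
    apply h3
    intro w2 _
    by_cases h' : cnt w2 (b + N) (b + N + N') = z'
    · rw [if_pos h']
      split_ifs
      · exact le_refl _
      · exact zero_le_one
    · rw [if_neg (fun h => h' h.2), if_neg h']
  · rw [if_neg hc, mul_zero]
    refine le_trans ?_ (le_of_eq (h2 (b + N) (N' + R) 0 w1))
    apply h3
    intro w2 hw2
    have hcc : ¬ cnt w2 b (b + N) = z := by
      rw [L2_cnt_congr fun t _ ht => hw2 t (Or.inl ht)]
      exact hc
    rw [if_neg (fun h => hcc h.1)]

/-- Bonferroni, pointwise -/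
theorem L2_bonf (K : ℕ) (x : ℕ → ℝ) (hx : ∀ i, x i = 0 ∨ x i = 1) :
    (∑ j ∈ range K, x j * (1 - ∑ i ∈ range j, x i)) ≤ 1 ∧
      ((∀ i < K, x i = 0) → (∑ j ∈ range K, x j * (1 - ∑ i ∈ range j, x i)) = 0) := by
  constructor
  · have key : ∀ K : ℕ, ∃ N : ℕ, (∑ i ∈ range K, x i) = N ∧
        (∑ j ∈ range K, x j * (1 - ∑ i ∈ range j, x i)) = (3 * (N : ℝ) - N ^ 2) / 2 := by
      intro K
      induction K with
      | zero => exact ⟨0, by simp, by simp⟩
      | succ K ih =>
        obtain ⟨N, h1, h2⟩ := ih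
        rcases hx K with h | h
        · refine ⟨N, ?_, ?_⟩
          · rw [Finset.sum_range_succ, h1, h, add_zero]
          · rw [Finset.sum_range_succ, h2, h]; ring
        · refine ⟨N + 1, ?_, ?_⟩
          · rw [Finset.sum_range_succ, h1, h]; push_cast; ring
          · rw [Finset.sum_range_succ, h2, h, h1]; push_cast; ring
    obtain ⟨N, -, h2⟩ := key K
    rw [h2]
    have h3 : (0 : ℝ) ≤ ((N : ℝ) - 1) * ((N : ℝ) - 2) := by
      rcases Nat.lt_or_ge N 2 with h | h
      · interval_cases N <;> norm_num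
      · have : (2 : ℝ) ≤ N := by exact_mod_cast h
        exact mul_nonneg (by linarith) (by linarith)
    nlinarith
  · intro h
    apply Finset.sum_eq_zero
    intro j hj
    rw [h j (Finset.mem_range.mp hj), zero_mul]

theorem L2_sum {d : ℕ} {f : Fin d → ℝ} (hEX : StEX) (hf : PV f) (b N : ℕ) (K : ℕ)
    (φ : ℕ → (ℕ → Fin d) → ℝ) (w : ℕ → Fin d) :
    Ex f b N (fun w' => ∑ j ∈ range K, φ j w') w = ∑ j ∈ range K, Ex f b N (φ j) w := by
  obtain ⟨h1, h2, h3, h4, h5⟩ := hEX d f hf
  induction K with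
  | zero => simpa using h2 b N 0 w
  | succ K ih =>
    rw [Finset.sum_range_succ, ← ih, ← h5]
    congr 1
    funext w'
    rw [Finset.sum_range_succ]

/-- one trial -/
theorem L2_trial {d : ℕ} {f : Fin d → ℝ} (hEX : StEX) (hf : PV f) (b L K : ℕ) (w : ℕ → Fin d)
    (S : (ℕ → Fin d) → Prop) (nn : ℕ → ℕ) (z : ℕ → Fin d → ℤ) (a : ℕ → Fin d) (fm q p : ℝ)
    (hfm : ∀ i, fm ≤ f i) (hq0 : 0 ≤ q) (hKq : K * q ≤ fm / 2) (hfm0 : 0 ≤ fm)
    (hn : ∀ j < K, nn j < L) (hdec : ∀ i j, i < j → j < K → nn j < nn i)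
    (hS : ∀ j < K, ∀ w' : ℕ → Fin d, (∀ t, (t < b ∨ b + L ≤ t) → w' t = w t) →
      cnt w' b (b + nn j) = z j → w' (b + nn j) = a j → S w')
    (hlow : ∀ j < K, p ≤ Pr f b (nn j) (fun w' => cnt w' b (b + nn j) = z j) w)
    (hp : 0 ≤ p)
    (hupp : ∀ i j, i < j → j < K → ∀ (y : Fin d → ℤ) (w' : ℕ → Fin d),
      Pr f (b + nn j) (nn i - nn j)
        (fun w' => cnt w' (b + nn j) (b + nn j + (nn i - nn j)) = y) w' ≤ q) :
    fm / 2 * K * p ≤ Pr f b L S w := by
  classical
  obtain ⟨h1, h2, h3, h4, h5⟩ := hEX d f hf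
  set x : ℕ → (ℕ → Fin d) → ℝ := fun j w' =>
    if (j < K ∧ cnt w' b (b + nn j) = z j ∧ w' (b + nn j) = a j) then 1 else 0 with hx
  have hxv : ∀ w' i, x i w' = 0 ∨ x i w' = 1 := by
    intro w' i
    simp only [hx]
    split_ifs
    · exact Or.inr rfl
    · exact Or.inl rfl
  -- pointwise bound
  have hpt : Ex f b L (fun w' => ∑ j ∈ range K, x j w' * (1 - ∑ i ∈ range j, x i w')) w ≤
      Pr f b L S w := by
    unfold Pr
    apply h3
    intro w' hw'
    obtain ⟨hb1, hb2⟩ := L2_bonf K (fun i => x i w') (hxv w')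
    by_cases hex : ∀ i < K, x i w' = 0
    · rw [hb2 hex]
      split_ifs
      · exact zero_le_one
      · exact le_refl _
    · push Not at hex
      obtain ⟨i, hi, hi0⟩ := hex
      have hi1 : (i < K ∧ cnt w' b (b + nn i) = z i ∧ w' (b + nn i) = a i) := by
        by_contra hcon
        exact hi0 (by simp only [hx]; rw [if_neg hcon])
      have : S w' := hS i hi w' hw' hi1.2.1 hi1.2.2
      rw [if_pos this]
      exact hb1
  refine le_trans ?_ hpt
  rw [L2_sum hEX hf]
  have hterm : ∀ j ∈ range K, fm / 2 * p ≤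
      Ex f b L (fun w' => x j w' * (1 - ∑ i ∈ range j, x i w')) w := by
    intro j hj
    rw [Finset.mem_range] at hj
    set P := Pr f b (nn j) (fun w' => cnt w' b (b + nn j) = z j) w with hP
    have hPp : p ≤ P := hlow j hj
    have e1 : (fun w' => x j w' * (1 - ∑ i ∈ range j, x i w')) =
        (fun w' => x j w' + ∑ i ∈ range j, (-1) * (x j w' * x i w')) := by
      funext w'
      rw [mul_sub, mul_one, Finset.mul_sum, sub_eq_add_neg, ← Finset.sum_neg_distrib]
      congr 1
      exact Finset.sum_congr rfl fun i _ => by ring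
    rw [e1, h5, L2_sum hEX hf]
    have hfirst : fm * P ≤ Ex f b L (x j) w := by
      have hwin := L2_window hEX hf b (nn j) (L - nn j - 1) (a j) (z j) w
      have hlen : nn j + (1 + (L - nn j - 1)) = L := by have := hn j hj; omega
      rw [hlen] at hwin
      refine le_trans (mul_le_mul_of_nonneg_right (hfm (a j)) (le_trans hp hPp)) (hwin.trans ?_)
      unfold Pr
      apply h3
      intro w' _
      simp only [hx]
      by_cases hh : cnt w' b (b + nn j) = z j ∧ w' (b + nn j) = a j
      · rw [if_pos hh, if_pos ⟨hj, hh⟩]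
      · rw [if_neg hh]
        split_ifs
        · exact zero_le_one
        · exact le_refl _
    have hsecond : ∀ i ∈ range j, -(q * P) ≤
        Ex f b L (fun w' => (-1) * (x j w' * x i w')) w := by
      intro i hi
      rw [Finset.mem_range] at hi
      rw [h4]
      have hdij := hdec i j hi hj
      have hni := hn i (by omega)
      have hpair := L2_pair hEX hf b (nn j) (nn i - nn j) (L - nn i) (z j) (z i - z j) q
        (hupp i j hi hj _) w
      have hlen : nn j + (nn i - nn j + (L - nn i)) = L := by omega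
      rw [hlen] at hpair
      have hle : Ex f b L (fun w' => x j w' * x i w') w ≤ q * P := by
        refine le_trans ?_ hpair
        unfold Pr
        apply h3
        intro w' _
        by_cases hA : (j < K ∧ cnt w' b (b + nn j) = z j ∧ w' (b + nn j) = a j)
        · by_cases hB : (i < K ∧ cnt w' b (b + nn i) = z i ∧ w' (b + nn i) = a i)
          · have hC : cnt w' (b + nn j) (b + nn j + (nn i - nn j)) = z i - z j := by
              have h6 : b + nn j + (nn i - nn j) = b + nn i := by omega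
              rw [h6]
              have h7 := L2_cnt_add w' (Nat.le_add_right b (nn j))
                (by omega : b + nn j ≤ b + nn i)
              rw [hB.2.1, hA.2.1] at h7
              rw [h7]; simp
            rw [if_pos ⟨hA.2.1, hC⟩]
            simp only [hx]
            rw [if_pos hA, if_pos hB, mul_one]
          · have : x i w' = 0 := by simp only [hx]; rw [if_neg hB]
            rw [this, mul_zero]
            split_ifs
            · exact zero_le_one
            · exact le_refl _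
        · have : x j w' = 0 := by simp only [hx]; rw [if_neg hA]
          rw [this, zero_mul]
          split_ifs
          · exact zero_le_one
          · exact le_refl _
      linarith
    have hP0 : 0 ≤ P := le_trans hp hPp
    have hsum : -(fm / 2 * P) ≤
        ∑ i ∈ range j, Ex f b L (fun w' => (-1) * (x j w' * x i w')) w := by
      have h6 := Finset.card_nsmul_le_sum (range j)
        (fun i => Ex f b L (fun w' => (-1) * (x j w' * x i w')) w) (-(q * P)) hsecond
      rw [Finset.card_range, nsmul_eq_mul] at h6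
      have h7 : (j : ℝ) * (q * P) ≤ fm / 2 * P := by
        have h8 : (j : ℝ) ≤ K := by exact_mod_cast hj.le
        calc (j : ℝ) * (q * P) ≤ K * (q * P) :=
              mul_le_mul_of_nonneg_right h8 (mul_nonneg hq0 hP0)
          _ = (K * q) * P := by ring
          _ ≤ fm / 2 * P := mul_le_mul_of_nonneg_right hKq hP0
      linarith
    have h9 : fm / 2 * p ≤ fm / 2 * P := mul_le_mul_of_nonneg_left hPp (by linarith)
    linarith
  have h10 := Finset.card_nsmul_le_sum (range K) _ _ hterm
  rw [Finset.card_range, nsmul_eq_mul] at h10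
  calc fm / 2 * K * p = K * (fm / 2 * p) := by ring
    _ ≤ _ := h10

theorem l2_holds (hEX : StEX) (hSEQ : StSEQ) (hLOW : StLOW) (hUPP : StUPP) : StL2 := by
  classical
  intro d hd f hf
  obtain ⟨ex1, ex2, ex3, ex4, ex5⟩ := hEX d f hf
  have : Nonempty (Fin d) := ⟨⟨0, by omega⟩⟩
  obtain ⟨imin, -, himin⟩ := Finset.exists_min_image (univ : Finset (Fin d)) f univ_nonempty
  set fm : ℝ := f imin with hfm
  have hfm0 : 0 < fm := hf.1 imin
  have hfmle : ∀ i, fm ≤ f i := fun i => himin i (mem_univ i)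
  have hf1 : ∀ i, f i ≤ 1 := by
    intro i
    rw [← hf.2]
    exact Finset.single_le_sum (fun i _ => (hf.1 i).le) (mem_univ i)
  obtain ⟨c, hc0, n0, hlow⟩ := hLOW d hd f hf 2
  obtain ⟨Cu, hCu0, hupp⟩ := hUPP d hd f hf
  set g : ℝ := ((d : ℝ) - 1) / 2 with hg
  have hg0 : 0 ≤ g := by
    have : (2 : ℝ) ≤ d := by exact_mod_cast hd
    rw [hg]; linarith
  set R0 : ℝ := (2 * Cu / fm) ^ 2 with hR0
  have hR00 : 0 ≤ R0 := sq_nonneg _
  refine ⟨fm / 2 * c, 4 * (R0 + 2), by positivity, by positivity, 2 * n0 + 1, ?_⟩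
  intro s hs K hK hCK u hu hpu J n hn w0
  have hs1 : 1 ≤ s := by omega
  have hs1' : (1 : ℝ) ≤ s := by exact_mod_cast hs1
  have hs0' : (0 : ℝ) < s := by linarith
  have hsqs : √(s : ℝ) ≤ s := by
    have h1 : (1 : ℝ) ≤ √(s : ℝ) := Real.one_le_sqrt.mpr hs1'
    have h2 : √(s : ℝ) * √(s : ℝ) = s := Real.mul_self_sqrt hs0'.le
    nlinarith
  have hK1 : (1 : ℝ) ≤ K := by exact_mod_cast hK
  set r : ℕ := ⌈R0 * K ^ 2⌉₊ + 1 with hr
  have hr1 : 1 ≤ r := by omega
  have hrlow : R0 * K ^ 2 ≤ r := by
    rw [hr]; push_cast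
    have := Nat.le_ceil (R0 * (K : ℝ) ^ 2)
    linarith
  have hrhigh : (r : ℝ) ≤ (R0 + 2) * K ^ 2 := by
    rw [hr]; push_cast
    have h1 := (Nat.ceil_lt_add_one (a := R0 * (K : ℝ) ^ 2) (by positivity)).le
    have h2 : (1 : ℝ) ≤ (K : ℝ) ^ 2 := one_le_pow₀ hK1
    nlinarith
  have hKr : (K : ℝ) * r ≤ √(s : ℝ) / 4 := by
    have h1 : (K : ℝ) * r ≤ K * ((R0 + 2) * K ^ 2) :=
      mul_le_mul_of_nonneg_left hrhigh (by linarith)
    have h2 : (K : ℝ) * ((R0 + 2) * K ^ 2) = (4 * (R0 + 2) * K ^ 3) / 4 := by ring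
    linarith
  have hKr4 : 4 * (K * r) ≤ s := by
    have h1 : (4 : ℝ) * (K * r) ≤ s := by linarith
    exact_mod_cast h1
  have hrpos : (0 : ℝ) < r := by exact_mod_cast (by omega : 0 < r)
  -- the bound for the pairs
  set q : ℝ := Cu / √(r : ℝ) with hq
  have hq0 : 0 ≤ q := by positivity
  have hKq : (K : ℝ) * q ≤ fm / 2 := by
    have h1 : 2 * Cu / fm * K ≤ √(r : ℝ) := by
      apply Real.le_sqrt_of_sq_le
      calc ((2 * Cu / fm * K) ^ 2 : ℝ) = R0 * K ^ 2 := by rw [hR0]; ring
        _ ≤ (r : ℝ) := hrlow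
    have h2 : 0 < √(r : ℝ) := Real.sqrt_pos.mpr hrpos
    rw [hq, mul_div_assoc', div_le_div_iff₀ h2 (by norm_num)]
    have h3 : 2 * Cu / fm * K * fm = 2 * Cu * K := by field_simp
    nlinarith
  set S : ℕ → (ℕ → Fin d) → Prop := fun k w => ∃ t t', t < t' ∧ t' < s + (k + 1) * (2 * s) ∧
    w t = w t' ∧ cnt w t t' = u with hS
  have hloc : ∀ k < J, Loc (s + (k + 1) * (2 * s)) (S k) := by
    intro k _ w w' hww
    apply propext
    constructor
    · rintro ⟨t, t', q1, q2, q3, q4⟩
      refine ⟨t, t', q1, q2, ?_, ?_⟩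
      · rw [← hww t (by omega), ← hww t' q2]; exact q3
      · rw [← q4]; exact L2_cnt_congr fun x _ hx => (hww x (by omega)).symm
    · rintro ⟨t, t', q1, q2, q3, q4⟩
      refine ⟨t, t', q1, q2, ?_, ?_⟩
      · rw [hww t (by omega), hww t' q2]; exact q3
      · rw [← q4]; exact L2_cnt_congr fun x _ hx => hww x (by omega)
  have hp : ∀ k < J, ∀ w, fm / 2 * c * K * (s : ℝ) ^ (-g) ≤
      Pr f (s + k * (2 * s)) (2 * s) (S k) w := by
    intro k hk w
    set b := s + k * (2 * s) with hb
    have hb1 : s + (k + 1) * (2 * s) = b + 2 * s := by rw [hb]; ring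
    have hbs : s ≤ b := by omega
    have hjr : ∀ j < K, (j + 1) * r ≤ K * r := fun j hj => Nat.mul_le_mul_right r hj
    have hj1 : ∀ j : ℕ, 1 ≤ (j + 1) * r := fun j => Nat.mul_pos (by omega) (by omega)
    have hkey := L2_trial hEX hf b (2 * s) K w (S k) (fun j => s - (j + 1) * r)
      (fun j => u - cnt w (b - (j + 1) * r) b) (fun j => w (b - (j + 1) * r)) fm q
      (c * (s : ℝ) ^ (-g)) hfmle hq0 hKq hfm0.le
      (by intro j _; show s - (j + 1) * r < 2 * s; omega)
      (by
        intro i j hij hj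
        show s - (j + 1) * r < s - (i + 1) * r
        have h1 := hjr j hj
        have h2 : (i + 1) * r < (j + 1) * r := Nat.mul_lt_mul_of_pos_right (by omega) (by omega)
        omega)
      (by
        intro j hj w' hw' h1 h2
        have hjj := hjr j hj
        have hj1' := hj1 j
        refine ⟨b - (j + 1) * r, b + (s - (j + 1) * r), by omega, by rw [hb1]; omega, ?_, ?_⟩
        · rw [h2]; exact hw' _ (Or.inl (by omega))
        · rw [L2_cnt_add w' (Nat.sub_le b _) (Nat.le_add_right b _), h1]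
          have h3 : cnt w' (b - (j + 1) * r) b = cnt w (b - (j + 1) * r) b :=
            L2_cnt_congr fun t _ ht => hw' t (Or.inl ht)
          rw [h3]; simp)
      (by
        intro j hj
        have hjj := hjr j hj
        have hj1' := hj1 j
        set e := (j + 1) * r with he
        have he' : (e : ℝ) ≤ √(s : ℝ) / 4 := by
          refine le_trans ?_ hKr
          exact_mod_cast hjj
        have hnj : ((s - e : ℕ) : ℝ) = s - e := by
          rw [Nat.cast_sub (by omega)]
        have hnj0 : (0 : ℝ) < ((s - e : ℕ) : ℝ) := by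
          exact_mod_cast (by omega : 0 < s - e)
        have hsum : ∑ i, (u - cnt w (b - e) b) i = ((s - e : ℕ) : ℤ) := by
          simp only [Pi.sub_apply, Finset.sum_sub_distrib]
          rw [hu, L2_cnt_sum]
          omega
        have hl := hlow (s - e) (by omega) (u - cnt w (b - e) b) hsum (by
          intro i
          have h1 : ((u - cnt w (b - e) b) i : ℝ) - ((s - e : ℕ) : ℝ) * f i =
              prj f (ic u) i - ((cnt w (b - e) b i : ℝ) - e * f i) := by
            unfold prj
            have h2 : ∑ j, ic u j = (s : ℝ) := by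
              have := congrArg (fun x : ℤ => (x : ℝ)) hu
              simp only [Int.cast_sum, Int.cast_natCast] at this
              simpa [ic] using this
            rw [h2, hnj]
            simp only [ic, Pi.sub_apply, Int.cast_sub]
            ring
          rw [h1]
          have h2 : |prj f (ic u) i| ≤ √(s : ℝ) := (norm_le_pi_norm (prj f (ic u)) i).trans hpu
          have h3 : |(cnt w (b - e) b i : ℝ) - e * f i| ≤ e := by
            have h4 : (0 : ℝ) ≤ (cnt w (b - e) b i : ℝ) := by
              exact_mod_cast L2_cnt_nonneg w (b - e) b i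
            have h5 : (cnt w (b - e) b i : ℝ) ≤ e := by
              have h6 := L2_cnt_le w (b - e) b i
              have h7 : b - (b - e) = e := by omega
              rw [h7] at h6
              exact_mod_cast h6
            have h6 : 0 ≤ (e : ℝ) * f i := mul_nonneg (by positivity) (hf.1 i).le
            have h7 : (e : ℝ) * f i ≤ e := mul_le_of_le_one_right (by positivity) (hf1 i)
            rw [abs_le]
            constructor <;> linarith
          have h4 : 5 / 4 * √(s : ℝ) ≤ 2 * √((s - e : ℕ) : ℝ) := by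
            have h5 : √((25 / 16) * (s : ℝ)) ≤ √(4 * ((s - e : ℕ) : ℝ)) := by
              apply Real.sqrt_le_sqrt
              rw [hnj]; linarith
            rw [Real.sqrt_mul (by norm_num), Real.sqrt_mul (by norm_num)] at h5
            rw [show (25 / 16 : ℝ) = (5 / 4) ^ 2 by norm_num, show (4 : ℝ) = 2 ^ 2 by norm_num,
              Real.sqrt_sq (by norm_num), Real.sqrt_sq (by norm_num)] at h5
            norm_num at h5 ⊢
            exact h5
          have h5 := abs_sub (prj f (ic u) i) ((cnt w (b - e) b i : ℝ) - e * f i)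
          linarith) b w
        refine le_trans ?_ hl
        apply mul_le_mul_of_nonneg_left _ hc0.le
        apply Real.rpow_le_rpow_of_nonpos hnj0 _ (by linarith)
        exact_mod_cast Nat.sub_le s e)
      (by positivity)
      (by
        intro i j hij hj y w'
        have h1 := hjr j hj
        have h2 : (i + 1) * r + r ≤ (j + 1) * r := by
          calc (i + 1) * r + r = (i + 1 + 1) * r := by ring
            _ ≤ (j + 1) * r := Nat.mul_le_mul_right r (by omega)
        have h3 : r ≤ s - (i + 1) * r - (s - (j + 1) * r) := by omega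
        refine (hupp _ (by omega) y _ w').trans ?_
        rw [hq]
        apply div_le_div_of_nonneg_left hCu0.le (Real.sqrt_pos.mpr hrpos)
        apply Real.sqrt_le_sqrt
        exact_mod_cast h3)
    refine le_trans (le_of_eq ?_) hkey
    ring
  have hfin := hSEQ d f hf (fm / 2 * c * K * (s : ℝ) ^ (-g)) (by positivity) s (2 * s) J n S
    (by
      have h1 : (2 * J + 2) * s = s + J * (2 * s) + s := by ring
      omega) hloc hp w0
  refine le_trans ?_ hfin
  unfold Pr
  apply ex3
  intro w _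
  by_cases h : ∃ t t', t < t' ∧ t' < n ∧ w t = w t' ∧ cnt w t t' = u
  · rw [if_neg (not_not.mpr h)]
    split_ifs
    · exact zero_le_one
    · exact le_refl _
  · rw [if_pos h]
    have : ∀ k < J, ¬ S k w := by
      rintro k hk ⟨t, t', q1, q2, q3, q4⟩
      refine h ⟨t, t', q1, ?_, q3, q4⟩
      have h1 : (k + 1) * (2 * s) ≤ J * (2 * s) := Nat.mul_le_mul_right _ hk
      have h2 : (2 * J + 2) * s = s + J * (2 * s) + s := by ring
      omega
    rw [if_pos this]

end Pool.Agent.H811R3.PS
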