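import Pool.Agent.H811R3.PS.Defs

set_option autoImplicit false

/-!
# The lower local bound
-/

open Finset MeasureTheory Filter

namespace Pool.Agent.H811R3.PS

namespace TLOW

lemma fac_le (n : ℕ) (hn : 1 ≤ n) :
    (n.factorial : ℝ) ≤ Real.exp 1 * √n * ((n:ℝ) / Real.exp 1) ^ n := by
  obtain ⟨m, rfl⟩ := Nat.exists_eq_add_of_le' hn
  have h := Stirling.stirlingSeq'_antitone (Nat.zero_le m)
  simp only [Function.comp, Nat.succ_eq_add_one, zero_add] at h
  rw [Stirling.stirlingSeq_one, Stirling.stirlingSeq] at h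
  have hpos : (0:ℝ) < √(2 * ((m + 1 : ℕ) : ℝ)) * (((m + 1 : ℕ) : ℝ) / Real.exp 1) ^ (m + 1) := by
    positivity
  rw [div_le_iff₀ hpos] at h
  refine h.trans (le_of_eq ?_)
  rw [Real.sqrt_mul (by norm_num)]
  have h2 : √(2:ℝ) ≠ 0 := by positivity
  field_simp

lemma le_fac (n : ℕ) (hn : 1 ≤ n) :
    √n * ((n:ℝ) / Real.exp 1) ^ n ≤ (n.factorial : ℝ) := by
  refine le_trans ?_ (Stirling.le_factorial_stirling n)
  refine mul_le_mul_of_nonneg_right ?_ (by positivity)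
  apply Real.sqrt_le_sqrt
  have : (1:ℝ) ≤ 2 * Real.pi := by linarith [Real.pi_gt_three]
  have h0 : (0:ℝ) ≤ n := Nat.cast_nonneg n
  nlinarith

/-- one factor -/
lemma factor (n z : ℕ) (f : ℝ) (hf : 0 < f) (hz : 1 ≤ z) (hzn : z ≤ n) :
    (1 / (Real.exp 1 * √n)) * Real.exp (-((z:ℝ) * ((z:ℝ) / (n * f) - 1))) ≤
      ((n:ℝ) / Real.exp 1) ^ z * (f ^ z / (z.factorial : ℝ)) := by
  have hz0 : (0:ℝ) < z := by exact_mod_cast hz
  have hn0 : (0:ℝ) < n := lt_of_lt_of_le hz0 (by exact_mod_cast hzn)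
  have he : 0 < Real.exp 1 := Real.exp_pos 1
  have hsz : 0 < √(z:ℝ) := Real.sqrt_pos.2 hz0
  have hsn : 0 < √(n:ℝ) := Real.sqrt_pos.2 hn0
  have h1 : Real.exp (-((z:ℝ) * ((z:ℝ) / (n * f) - 1))) ≤ ((n:ℝ) * f / z) ^ z := by
    have hx : (z:ℝ) / (n * f) ≤ Real.exp ((z:ℝ) / (n * f) - 1) := by
      have := Real.add_one_le_exp ((z:ℝ) / (n * f) - 1)
      linarith
    have hxp : 0 < (z:ℝ) / (n * f) := by positivity
    have h2 : Real.exp (-((z:ℝ) / (n * f) - 1)) ≤ (n:ℝ) * f / z := by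
      rw [Real.exp_neg, inv_le_comm₀ (Real.exp_pos _) (by positivity), inv_div]
      exact hx
    have h3 : Real.exp (-((z:ℝ) * ((z:ℝ) / (n * f) - 1))) = Real.exp (-((z:ℝ) / (n * f) - 1)) ^ z := by
      rw [← Real.exp_nat_mul]
      congr 1
      ring
    rw [h3]
    exact pow_le_pow_left₀ (Real.exp_pos _).le h2 z
  have h4 := fac_le z hz
  have h5 : ((n:ℝ) / Real.exp 1) ^ z * (f ^ z / (z.factorial : ℝ)) ≥
      ((n:ℝ) / Real.exp 1) ^ z * (f ^ z / (Real.exp 1 * √z * ((z:ℝ) / Real.exp 1) ^ z)) := by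
    apply mul_le_mul_of_nonneg_left _ (by positivity)
    exact div_le_div_of_nonneg_left (by positivity) (by exact_mod_cast Nat.factorial_pos z) h4
  refine le_trans ?_ h5
  have h6 : ((n:ℝ) / Real.exp 1) ^ z * (f ^ z / (Real.exp 1 * √z * ((z:ℝ) / Real.exp 1) ^ z)) =
      (1 / (Real.exp 1 * √z)) * ((n:ℝ) * f / z) ^ z := by
    rw [div_pow, div_pow, div_pow, mul_pow]
    field_simp
  rw [h6]
  refine mul_le_mul ?_ h1 (Real.exp_pos _).le (by positivity)
  apply one_div_le_one_div_of_le (by positivity)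
  exact mul_le_mul_of_nonneg_left (Real.sqrt_le_sqrt (by exact_mod_cast hzn)) he.le

end TLOW

theorem low_holds (_hEX : StEX) (hMUL : StMUL) : StLOW := by
  intro d hd f hf C'
  obtain ⟨hfpos, hfsum⟩ := hf
  refine ⟨(Real.exp 1)⁻¹ ^ d * Real.exp (-∑ i, C' ^ 2 / f i), by positivity,
    ⌈∑ i, ((|C'| + 1) / f i) ^ 2⌉₊ + 1, ?_⟩
  intro n hn z hzsum hz τ w
  have hn1 : 1 ≤ n := by omega
  have hnpos : (0:ℝ) < n := by exact_mod_cast hn1
  have hsn1 : 1 ≤ √(n:ℝ) := by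
    rw [Real.one_le_sqrt]
    exact_mod_cast hn1
  have hsq : √(n:ℝ) * √(n:ℝ) = n := Real.mul_self_sqrt hnpos.le
  have hbig : ∀ i, |C'| + 1 ≤ √(n:ℝ) * f i := by
    intro i
    have h1 : ((|C'| + 1) / f i) ^ 2 ≤ n := by
      have h2 : ((|C'| + 1) / f i) ^ 2 ≤ ∑ i, ((|C'| + 1) / f i) ^ 2 :=
        single_le_sum (f := fun i => ((|C'| + 1) / f i) ^ 2) (fun _ _ => by positivity) (mem_univ i)
      have h3 := Nat.le_ceil (∑ i, ((|C'| + 1) / f i) ^ 2)
      have h4 : ((⌈∑ i, ((|C'| + 1) / f i) ^ 2⌉₊ + 1 : ℕ) : ℝ) ≤ n := by exact_mod_cast hn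
      push_cast at h4
      linarith
    have h5 : (|C'| + 1) / f i ≤ √(n:ℝ) := Real.le_sqrt_of_sq_le h1
    rwa [div_le_iff₀ (hfpos i)] at h5
  have hz1 : ∀ i, 1 ≤ z i := by
    intro i
    have h1 := (abs_le.1 (hz i)).1
    have h2 := hbig i
    have h3 : (|C'| + 1) * √(n:ℝ) ≤ n * f i := by
      have := mul_le_mul_of_nonneg_right h2 (Real.sqrt_nonneg (n:ℝ))
      calc _ ≤ √(n:ℝ) * f i * √(n:ℝ) := this
        _ = (√(n:ℝ) * √(n:ℝ)) * f i := by ring
        _ = n * f i := by rw [hsq]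
    have h4 : C' * √(n:ℝ) ≤ |C'| * √(n:ℝ) := mul_le_mul_of_nonneg_right (le_abs_self _) (Real.sqrt_nonneg _)
    have h5 : (1:ℝ) ≤ z i := by nlinarith
    exact_mod_cast h5
  -- natural numbers
  obtain ⟨y, hy⟩ : ∃ y : Fin d → ℕ, ∀ i, z i = (y i : ℤ) :=
    ⟨fun i => (z i).toNat, fun i => (Int.toNat_of_nonneg (by linarith [hz1 i])).symm⟩
  have hzy : z = fun i => (y i : ℤ) := funext hy
  have hysum : ∑ i, y i = n := by
    have : ((∑ i, y i : ℕ) : ℤ) = n := by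
      push_cast
      rw [← hzsum]
      exact sum_congr rfl fun i _ => (hy i).symm
    exact_mod_cast this
  have hy1 : ∀ i, 1 ≤ y i := by
    intro i
    have := hz1 i
    rw [hy i] at this
    exact_mod_cast this
  have hyn : ∀ i, y i ≤ n := by
    intro i
    rw [← hysum]
    exact single_le_sum (f := y) (fun _ _ => Nat.zero_le _) (mem_univ i)
  rw [hzy, hMUL d f ⟨hfpos, hfsum⟩ τ n w y hysum]
  have hC : ∑ i, ((y i : ℝ) * ((y i : ℝ) / (n * f i) - 1)) ≤ ∑ i, C' ^ 2 / f i := by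
    have h1 : ∀ i, (y i : ℝ) * ((y i : ℝ) / (n * f i) - 1) =
        ((y i : ℝ) - n * f i) ^ 2 / (n * f i) + ((y i : ℝ) - n * f i) := by
      intro i
      have := (hfpos i).ne'
      field_simp
      ring
    rw [sum_congr rfl fun i _ => h1 i, sum_add_distrib]
    have h2 : ∑ i, ((y i : ℝ) - n * f i) = 0 := by
      rw [sum_sub_distrib, ← mul_sum, hfsum]
      have : ((∑ i, y i : ℕ) : ℝ) = n := by exact_mod_cast hysum
      push_cast at this
      rw [this]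
      ring
    rw [h2, add_zero]
    refine sum_le_sum fun i _ => ?_
    have hfi := hfpos i
    rw [div_le_div_iff₀ (by positivity) hfi]
    have h3 := hz i
    rw [hy i] at h3
    push_cast at h3
    have h4 : ((y i : ℝ) - n * f i) ^ 2 ≤ C' ^ 2 * n := by
      have h5 := abs_nonneg ((y i : ℝ) - n * f i)
      calc ((y i : ℝ) - n * f i) ^ 2 = |(y i : ℝ) - n * f i| ^ 2 := (sq_abs _).symm
        _ ≤ (C' * √(n:ℝ)) ^ 2 := pow_le_pow_left₀ h5 h3 2
        _ = C' ^ 2 * n := by rw [mul_pow, Real.sq_sqrt hnpos.le]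
    nlinarith
  calc (Real.exp 1)⁻¹ ^ d * Real.exp (-∑ i, C' ^ 2 / f i) * (n:ℝ) ^ (-(((d:ℝ) - 1) / 2))
      = √n * ((1 / (Real.exp 1 * √n)) ^ d * Real.exp (-∑ i, C' ^ 2 / f i)) := by
        have h1 : (n:ℝ) ^ (-(((d:ℝ) - 1) / 2)) = √n * (1 / √n) ^ d := by
          rw [Real.sqrt_eq_rpow, one_div_pow, ← Real.rpow_natCast, ← Real.rpow_mul hnpos.le,
            one_div ((n:ℝ) ^ _), ← Real.rpow_neg hnpos.le, ← Real.rpow_add hnpos]
          congr 1
          ring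
        rw [h1, one_div, one_div, mul_inv, mul_pow]
        ring
    _ ≤ √n * ((1 / (Real.exp 1 * √n)) ^ d *
          Real.exp (-∑ i, ((y i : ℝ) * ((y i : ℝ) / (n * f i) - 1)))) := by
        refine mul_le_mul_of_nonneg_left (mul_le_mul_of_nonneg_left ?_ (by positivity)) (by positivity)
        exact Real.exp_le_exp.2 (neg_le_neg hC)
    _ = √n * ∏ i, ((1 / (Real.exp 1 * √n)) * Real.exp (-((y i : ℝ) * ((y i : ℝ) / (n * f i) - 1)))) := by
        rw [prod_mul_distrib, prod_const, card_univ, Fintype.card_fin, ← Real.exp_sum, sum_neg_distrib]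
    _ ≤ √n * ∏ i, (((n:ℝ) / Real.exp 1) ^ (y i) * (f i ^ (y i) / ((y i).factorial : ℝ))) := by
        refine mul_le_mul_of_nonneg_left ?_ (by positivity)
        refine prod_le_prod (fun i _ => by positivity) fun i _ => ?_
        exact TLOW.factor n (y i) (f i) (hfpos i) (hy1 i) (hyn i)
    _ = (√n * ((n:ℝ) / Real.exp 1) ^ n) * ∏ i, (f i ^ (y i) / ((y i).factorial : ℝ)) := by
        rw [prod_mul_distrib, prod_pow_eq_pow_sum, hysum]
        ring
    _ ≤ (n.factorial : ℝ) * ∏ i, (f i ^ (y i) / ((y i).factorial : ℝ)) := by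
        refine mul_le_mul_of_nonneg_right (TLOW.le_fac n hn1) ?_
        refine prod_nonneg fun i _ => ?_
        have := hfpos i
        positivity

end Pool.Agent.H811R3.PS
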