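import Pool.Agent.H811R3.PS.Defs

set_option autoImplicit false

open Finset MeasureTheory Filter

namespace Pool.Agent.H811R3.PS

open Classical in
/-- indicator -/
noncomputable def mul_ind (p : Prop) : ℝ := if p then 1 else 0

theorem mul_ind_congr {p q : Prop} (h : p ↔ q) : mul_ind p = mul_ind q := by
  rw [propext h]

theorem mul_ind_true {p : Prop} (h : p) : mul_ind p = 1 := by
  unfold mul_ind; rw [if_pos h]

theorem mul_ind_false {p : Prop} (h : ¬ p) : mul_ind p = 0 := by
  unfold mul_ind; rw [if_neg h]

theorem mul_Pr {d : ℕ} (f : Fin d → ℝ) (τ L : ℕ) (S : (ℕ → Fin d) → Prop) (w : ℕ → Fin d) :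
    Pr f τ L S w = Ex f τ L (fun w' => mul_ind (S w')) w := rfl

/-- one more letter -/
theorem mul_one_letter {d : ℕ} (f : Fin d → ℝ) (τ : ℕ) (φ : (ℕ → Fin d) → ℝ) (w : ℕ → Fin d) :
    Ex f τ 1 φ w = ∑ i, f i * φ (ovr w τ (fun _ : Fin 1 => i)) := by
  unfold Ex
  rw [← (Equiv.funUnique (Fin 1) (Fin d)).symm.sum_comp]
  apply Finset.sum_congr rfl
  intro i _
  simp only [Fin.prod_univ_one]
  rfl

theorem mul_cnt_succ {d : ℕ} (w : ℕ → Fin d) (a b : ℕ) (hab : a ≤ b) (i : Fin d) :
    cnt w a (b + 1) i = cnt w a b i + (if w b = i then 1 else 0) := by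
  unfold cnt
  rw [Finset.sum_Ico_succ_top hab]

theorem mul_cnt_ovr {d : ℕ} (w : ℕ → Fin d) (a b : ℕ) (i : Fin d) :
    cnt (ovr w b (fun _ : Fin 1 => i)) a b = cnt w a b := by
  funext k
  unfold cnt
  apply Finset.sum_congr rfl
  intro t ht
  have h := (Finset.mem_Ico.1 ht).2
  have : ovr w b (fun _ : Fin 1 => i) t = w t := by
    unfold ovr; rw [dif_neg (by omega)]
  rw [this]

theorem mul_holds (hEX : StEX) : StMUL := by
  intro d f hf τ n
  obtain ⟨hFub, hconst, hmono, hcmul, hadd⟩ := hEX d f hf
  induction n with
  | zero =>
    intro w z hz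
    have hz0 : ∀ i, z i = 0 := fun i => (Finset.sum_eq_zero_iff.1 hz) i (Finset.mem_univ i)
    rw [mul_Pr]
    have h1 : (fun w' : ℕ → Fin d => mul_ind (cnt w' τ (τ + 0) = fun i => (z i : ℤ)))
        = fun _ => 1 := by
      funext w'
      rw [mul_ind_true]
      funext i
      simp [cnt, hz0]
    rw [h1, hconst]
    simp [hz0]
  | succ n ih =>
    intro w z hz
    rw [mul_Pr]
    rw [hFub τ n 1]
    have h1 : (fun w' : ℕ → Fin d => Ex f (τ + n) 1
        (fun w' => mul_ind (cnt w' τ (τ + (n + 1)) = fun i => (z i : ℤ))) w')
        = fun w' => ∑ i, f i * mul_ind (cnt w' τ (τ + n) =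
          (fun k => (z k : ℤ) - if k = i then 1 else 0)) := by
      funext w'
      rw [mul_one_letter]
      apply Finset.sum_congr rfl
      intro i _
      congr 1
      have h2 : (cnt (ovr w' (τ + n) (fun _ : Fin 1 => i)) τ (τ + (n + 1)) = fun i => (z i : ℤ))
          ↔ (cnt w' τ (τ + n) = (fun k => (z k : ℤ) - if k = i then 1 else 0)) := by
        have h3 : ∀ k, cnt (ovr w' (τ + n) (fun _ : Fin 1 => i)) τ (τ + (n + 1)) k
            = cnt w' τ (τ + n) k + (if k = i then 1 else 0) := by
          intro k
          rw [← add_assoc, mul_cnt_succ _ _ _ (by omega), mul_cnt_ovr]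
          congr 1
          have : ovr w' (τ + n) (fun _ : Fin 1 => i) (τ + n) = i := by
            unfold ovr; rw [dif_pos (by omega)]
          rw [this]
          by_cases h : i = k
          · subst h; simp
          · simp [h, Ne.symm h]
        constructor
        · intro h; funext k
          have := congrFun h k
          rw [h3] at this
          linarith
        · intro h; funext k
          rw [h3, congrFun h k]; ring
      exact mul_ind_congr h2
    rw [h1]
    -- exchange Ex and the sum over i
    have h4 : ∀ s : Finset (Fin d), Ex f τ n (fun w' => ∑ i ∈ s, f i *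
        mul_ind (cnt w' τ (τ + n) = (fun k => (z k : ℤ) - if k = i then 1 else 0))) w
        = ∑ i ∈ s, f i * Ex f τ n (fun w' =>
          mul_ind (cnt w' τ (τ + n) = (fun k => (z k : ℤ) - if k = i then 1 else 0))) w := by
      intro s
      induction s using Finset.induction_on with
      | empty => simp [hconst]
      | insert i s his ihs =>
        simp only [Finset.sum_insert his]
        rw [hadd, hcmul, ihs]
    rw [h4]
    have hterm : ∀ i, f i * Ex f τ n (fun w' =>
          mul_ind (cnt w' τ (τ + n) = (fun k => (z k : ℤ) - if k = i then 1 else 0))) w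
        = (z i : ℝ) * ((n.factorial : ℝ) * ∏ i, (f i ^ (z i) / ((z i).factorial : ℝ))) := by
      intro i
      rcases Nat.eq_zero_or_pos (z i) with h0 | h0
      · have h5 : (fun w' : ℕ → Fin d =>
            mul_ind (cnt w' τ (τ + n) = (fun k => (z k : ℤ) - if k = i then 1 else 0)))
              = fun _ => 0 := by
          funext w'
          apply mul_ind_false
          intro h
          have h6 := congrFun h i
          have h7 : 0 ≤ cnt w' τ (τ + n) i := by
            unfold cnt
            apply Finset.sum_nonneg
            intro t _; split_ifs <;> norm_num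
          simp only [if_true] at h6
          rw [h0] at h6
          simp at h6
          omega
        rw [h5, hconst, h0]; simp
      · set z' : Fin d → ℕ := Function.update z i (z i - 1) with hz'
        have hz'i : z' i = z i - 1 := by simp [hz']
        have hz'k : ∀ k, k ≠ i → z' k = z k := by
          intro k hk; simp [hz', hk]
        have h5 : (fun k => (z k : ℤ) - if k = i then 1 else 0) = fun k => (z' k : ℤ) := by
          funext k
          by_cases hk : k = i
          · subst hk
            rw [if_pos rfl, hz'i]
            omega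
          · rw [if_neg hk, hz'k k hk]; ring
        have hsum : ∑ k, z' k = n := by
          have h6 := Finset.add_sum_erase Finset.univ z (Finset.mem_univ i)
          have h7 := Finset.add_sum_erase Finset.univ z' (Finset.mem_univ i)
          have h8 : ∑ k ∈ Finset.univ.erase i, z' k = ∑ k ∈ Finset.univ.erase i, z k := by
            apply Finset.sum_congr rfl
            intro k hk
            exact hz'k k (Finset.ne_of_mem_erase hk)
          rw [h8, hz'i] at h7
          omega
        have hih := ih w z' hsum
        rw [mul_Pr] at hih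
        rw [h5, hih]
        have hprod : f i * ∏ k, (f k ^ (z' k) / ((z' k).factorial : ℝ))
            = (z i : ℝ) * ∏ k, (f k ^ (z k) / ((z k).factorial : ℝ)) := by
          rw [← Finset.mul_prod_erase Finset.univ
              (fun k => f k ^ (z' k) / ((z' k).factorial : ℝ)) (Finset.mem_univ i),
            ← Finset.mul_prod_erase Finset.univ
              (fun k => f k ^ (z k) / ((z k).factorial : ℝ)) (Finset.mem_univ i)]
          have h8 : ∏ k ∈ Finset.univ.erase i, (f k ^ (z' k) / ((z' k).factorial : ℝ))
              = ∏ k ∈ Finset.univ.erase i, (f k ^ (z k) / ((z k).factorial : ℝ)) := by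
            apply Finset.prod_congr rfl
            intro k hk
            rw [hz'k k (Finset.ne_of_mem_erase hk)]
          rw [h8, hz'i, ← mul_assoc, ← mul_assoc]
          congr 1
          obtain ⟨m, hm⟩ : ∃ m, z i = m + 1 := ⟨z i - 1, by omega⟩
          rw [hm]
          have h9 : m + 1 - 1 = m := by omega
          rw [h9, Nat.factorial_succ]
          push_cast
          have h10 : ((m : ℝ) + 1) ≠ 0 := by positivity
          have h11 : (m.factorial : ℝ) ≠ 0 := by positivity
          field_simp
          ring
        calc f i * ((n.factorial : ℝ) * ∏ k, (f k ^ (z' k) / ((z' k).factorial : ℝ)))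
            = (n.factorial : ℝ) * (f i * ∏ k, (f k ^ (z' k) / ((z' k).factorial : ℝ))) := by ring
          _ = _ := by rw [hprod]; ring
    rw [Finset.sum_congr rfl (fun i _ => hterm i), ← Finset.sum_mul]
    have h12 : ∑ i, (z i : ℝ) = (n : ℝ) + 1 := by
      have : ((∑ i, z i : ℕ) : ℝ) = ((n + 1 : ℕ) : ℝ) := by rw [hz]
      push_cast at this
      exact this
    rw [h12, Nat.factorial_succ]
    push_cast
    ring

end Pool.Agent.H811R3.PS
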