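import Pool.Agent.H811R3.PS.Defs

set_option autoImplicit false

open Finset

namespace Pool.Agent.H811R3.PS

namespace TP1

/-- indicator -/
noncomputable def bi (P : Prop) : ℝ := open Classical in if P then 1 else 0

lemma bi_true {P : Prop} (h : P) : bi P = 1 := by simp [bi, h]
lemma bi_false {P : Prop} (h : ¬ P) : bi P = 0 := by simp [bi, h]
lemma bi_nonneg (P : Prop) : 0 ≤ bi P := by
  by_cases h : P
  · rw [bi_true h]; norm_num
  · rw [bi_false h]

lemma Pr_eq {d : ℕ} (f : Fin d → ℝ) (τ L : ℕ) (S : (ℕ → Fin d) → Prop) (w : ℕ → Fin d) :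
    Pr f τ L S w = Ex f τ L (fun w' => bi (S w')) w := by
  unfold Pr
  congr 1

lemma dot_sub {d : ℕ} (l : Fin d → ℝ) (a b c : Fin d → ℤ) :
    dot l (ic (a + b - c)) = dot l (ic a) + dot l (ic b) - dot l (ic c) := by
  unfold dot ic
  rw [← Finset.sum_add_distrib, ← Finset.sum_sub_distrib]
  apply Finset.sum_congr rfl
  intro i _
  simp only [Pi.add_apply, Pi.sub_apply]
  push_cast
  ring

lemma cnt_zero {d : ℕ} (l : Fin d → ℝ) (w : ℕ → Fin d) : dot l (ic (cnt w 0 0)) = 0 := by
  unfold dot ic cnt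
  simp

lemma cnt_succ {d : ℕ} (l : Fin d → ℝ) (w : ℕ → Fin d) (t : ℕ) :
    dot l (ic (cnt w 0 (t + 1))) = dot l (ic (cnt w 0 t)) + l (w t) := by
  have : ∀ i, (cnt w 0 (t + 1)) i = cnt w 0 t i + if w t = i then 1 else 0 := by
    intro i
    unfold cnt
    rw [Finset.sum_Ico_succ_top (Nat.zero_le t)]
  unfold dot ic
  simp only [this]
  push_cast
  simp only [mul_add, Finset.sum_add_distrib]
  congr 1
  simp

lemma cnt_congr {d : ℕ} (w w' : ℕ → Fin d) (t : ℕ) (h : ∀ s < t, w s = w' s) :
    cnt w 0 t = cnt w' 0 t := by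
  funext i
  unfold cnt
  apply Finset.sum_congr rfl
  intro s hs
  rw [h s (Finset.mem_Ico.mp hs).2]

lemma lm_le {d : ℕ} (l : Fin d → ℝ) (hl : ∀ i, 0 < l i) (i : Fin d) : lm l ≤ l i := by
  unfold lm
  have h1 : (l i)⁻¹ ≤ ∑ j, (l j)⁻¹ :=
    Finset.single_le_sum (f := fun j => (l j)⁻¹) (fun j _ => (inv_pos.mpr (hl j)).le)
      (Finset.mem_univ i)
  have h2 : 0 < (l i)⁻¹ := inv_pos.mpr (hl i)
  calc (∑ j, (l j)⁻¹)⁻¹ ≤ ((l i)⁻¹)⁻¹ := inv_anti₀ h2 h1
    _ = l i := inv_inv _

lemma lm_pos {d : ℕ} (hd : 2 ≤ d) (l : Fin d → ℝ) (hl : ∀ i, 0 < l i) : 0 < lm l := by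
  unfold lm
  have i0 : Fin d := ⟨0, by omega⟩
  apply inv_pos.mpr
  exact Finset.sum_pos (fun j _ => inv_pos.mpr (hl j)) ⟨i0, Finset.mem_univ _⟩

end TP1

open TP1

theorem p1_holds (hEX : StEX) (hSEQ : StSEQ) : StP1 := by
  intro d hd l f hf hl p hp hpf a ha τ K n hn w0
  obtain ⟨h1, h2, h3, h4, h5⟩ := hEX d f hf
  let S : ℕ → (ℕ → Fin d) → Prop := fun k w =>
    ¬ (dot l (ic a) ≤ dot l (ic (cnt w 0 (τ + k)))) ∨
      ∃ t < τ + k, w t ≠ w (τ + k) ∧
        lm l / 4 ≤ len l (w t) (w (τ + k)) (a + cnt w 0 t - cnt w 0 (τ + k))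
  have hloc : ∀ k < K, Loc (τ + (k + 1) * 1) (S k) := by
    intro k _ w w' hww
    have e1 : cnt w 0 (τ + k) = cnt w' 0 (τ + k) := cnt_congr _ _ _ (fun s hs => hww s (by omega))
    have e2 : w (τ + k) = w' (τ + k) := hww _ (by omega)
    apply propext
    have e3 : (∃ t < τ + k, w t ≠ w (τ + k) ∧
        lm l / 4 ≤ len l (w t) (w (τ + k)) (a + cnt w 0 t - cnt w 0 (τ + k))) ↔
        (∃ t < τ + k, w' t ≠ w' (τ + k) ∧
        lm l / 4 ≤ len l (w' t) (w' (τ + k)) (a + cnt w' 0 t - cnt w' 0 (τ + k))) := by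
      constructor
      · rintro ⟨t, ht, h⟩
        refine ⟨t, ht, ?_⟩
        have e4 : cnt w 0 t = cnt w' 0 t := cnt_congr _ _ _ (fun s hs => hww s (by omega))
        have e5 : w t = w' t := hww _ (by omega)
        rw [← e5, ← e4, ← e1, ← e2]
        exact h
      · rintro ⟨t, ht, h⟩
        refine ⟨t, ht, ?_⟩
        have e4 : cnt w 0 t = cnt w' 0 t := cnt_congr _ _ _ (fun s hs => hww s (by omega))
        have e5 : w t = w' t := hww _ (by omega)
        rw [e5, e4, e1, e2]
        exact h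
    show (¬ (dot l (ic a) ≤ dot l (ic (cnt w 0 (τ + k)))) ∨ _) ↔
      (¬ (dot l (ic a) ≤ dot l (ic (cnt w' 0 (τ + k)))) ∨ _)
    rw [e1]
    rw [e1] at e3
    exact or_congr Iff.rfl e3
  have hpr : ∀ k < K, ∀ w, p ≤ Pr f (τ + k * 1) 1 (S k) w := by
    intro k hk w
    rw [mul_one]
    set T := τ + k with hT
    have hcnt : ∀ (v : Fin 1 → Fin d) (t : ℕ), t ≤ T → cnt (ovr w T v) 0 t = cnt w 0 t := by
      intro v t ht
      apply cnt_congr
      intro s hs
      unfold ovr
      rw [dif_neg (by omega)]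
    have hlow : ∀ (v : Fin 1 → Fin d) (t : ℕ), t < T → ovr w T v t = w t := by
      intro v t ht
      unfold ovr
      rw [dif_neg (by omega)]
    have htop : ∀ (v : Fin 1 → Fin d), ovr w T v T = v 0 := by
      intro v
      unfold ovr
      rw [dif_pos (by omega)]
      congr 1
      apply Subsingleton.elim
    have hlm : 0 < lm l := lm_pos hd l hl
    -- it suffices to find a letter `b` for which the event holds
    have main : ∃ b : Fin d, S k (ovr w T (fun _ : Fin 1 => b)) := by
      by_cases hQ : dot l (ic a) ≤ dot l (ic (cnt w 0 T))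
      · have hex : ∃ t < T, dot l (ic a) + dot l (ic (cnt w 0 t)) ≤
            dot l (ic (cnt w 0 T)) + lm l / 4 ∧
            dot l (ic (cnt w 0 T)) + lm l / 4 < dot l (ic a) + dot l (ic (cnt w 0 (t + 1))) := by
          by_contra hcon
          have all : ∀ t ≤ T, dot l (ic a) + dot l (ic (cnt w 0 t)) ≤
              dot l (ic (cnt w 0 T)) + lm l / 4 := by
            intro t
            induction t with
            | zero => intro _; rw [cnt_zero]; linarith
            | succ t ih =>
              intro ht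
              by_contra hlt
              exact hcon ⟨t, by omega, ih (by omega), not_le.mp hlt⟩
          have h := all T le_rfl
          have i0 : Fin d := ⟨0, by omega⟩
          have hs : l i0 ≤ sl l := Finset.single_le_sum (f := l) (fun j _ => (hl j).le)
            (Finset.mem_univ i0)
          have := lm_le l hl i0
          linarith
        obtain ⟨t, ht, hA, hB⟩ := hex
        haveI : Nontrivial (Fin d) := Fin.nontrivial_iff_two_le.mpr hd
        obtain ⟨b, hb⟩ := exists_ne (w t)
        refine ⟨b, Or.inr ⟨t, ht, ?_, ?_⟩⟩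
        · show ovr w T (fun _ : Fin 1 => b) t ≠ ovr w T (fun _ : Fin 1 => b) T
          rw [hlow _ t ht, htop]
          exact hb.symm
        · show lm l / 4 ≤ len l (ovr w T (fun _ : Fin 1 => b) t) (ovr w T (fun _ : Fin 1 => b) T)
            (a + cnt (ovr w T (fun _ : Fin 1 => b)) 0 t - cnt (ovr w T (fun _ : Fin 1 => b)) 0 T)
          rw [hlow _ t ht, htop, hcnt _ t ht.le, hcnt _ T le_rfl]
          unfold len
          rw [dot_sub]
          rw [cnt_succ] at hB
          set x := dot l (ic a) + dot l (ic (cnt w 0 t)) - dot l (ic (cnt w 0 T)) with hx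
          have hb' := lm_le l hl b
          have hc' := lm_le l hl (w t)
          have hx1 : x ≤ lm l / 4 := by rw [hx]; linarith
          have hx2 : lm l / 4 < x + l (w t) := by rw [hx]; linarith
          rcases le_total x 0 with h0 | h0
          · rw [max_eq_right h0, sub_zero]
            apply le_min hx2.le
            linarith
          · rw [max_eq_left h0]
            have : lm l / 4 + x ≤ min (x + l (w t)) (l b) := by
              apply le_min <;> linarith
            linarith
      · haveI : Nontrivial (Fin d) := Fin.nontrivial_iff_two_le.mpr hd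
        refine ⟨⟨0, by omega⟩, Or.inl ?_⟩
        show ¬ (dot l (ic a) ≤ dot l (ic (cnt (ovr w T (fun _ : Fin 1 => (⟨0, by omega⟩ : Fin d))) 0 T)))
        rw [hcnt _ T le_rfl]
        exact hQ
    obtain ⟨b, hb⟩ := main
    rw [Pr_eq]
    unfold Ex
    have hterm : ∀ v : Fin 1 → Fin d, 0 ≤ (∏ t, f (v t)) * bi (S k (ovr w T v)) := by
      intro v
      exact mul_nonneg (Finset.prod_nonneg fun t _ => (hf.1 _).le) (bi_nonneg _)
    have hsingle := Finset.single_le_sum
      (f := fun v : Fin 1 → Fin d => (∏ t, f (v t)) * bi (S k (ovr w T v)))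
      (fun v _ => hterm v) (Finset.mem_univ (fun _ : Fin 1 => b))
    refine le_trans ?_ hsingle
    simp only [bi_true hb, mul_one]
    rw [Fin.prod_univ_one]
    exact hpf b
  have hfin := hSEQ d f hf p hp τ 1 K n S (by omega) hloc hpr w0
  refine le_trans (le_of_eq ?_) hfin
  rw [Pr_eq, Pr_eq]
  congr 1
  funext w
  congr 1
  apply propext
  constructor
  · intro h k hk
    have := h (τ + k) (by omega) (by omega)
    intro hS
    rcases hS with hS | hS
    · exact hS this.1
    · exact this.2 hS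
  · intro h t' ht1 ht2
    obtain ⟨k, rfl⟩ := Nat.exists_eq_add_of_le ht1
    have := h k (by omega)
    constructor
    · by_contra hc
      exact this (Or.inl hc)
    · intro hc
      exact this (Or.inr hc)

end Pool.Agent.H811R3.PS
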