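import Pool.Agent.H811R3.PS.Defs2

/-!
# Task PA: the powers `M ^ k` for large `k`
-/

set_option autoImplicit false

open Finset MeasureTheory Filter

namespace Pool.Agent.H811R3.PS

namespace TPA

variable {d : ℕ}

theorem act_one (y : Fin d → ℝ) : act (1 : Matrix (Fin d) (Fin d) ℤ) y = y := by
  ext i
  unfold act
  rw [Finset.sum_eq_single i]
  · simp
  · intro j _ hj
    simp [Matrix.one_apply_ne hj.symm]
  · simp

theorem act_mul (A B : Matrix (Fin d) (Fin d) ℤ) (y : Fin d → ℝ) :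
    act (A * B) y = act A (act B y) := by
  ext i
  unfold act
  have h1 : ∀ j, (((A * B) i j : ℤ) : ℝ) * y j = ∑ m, (A i m : ℝ) * ((B m j : ℝ) * y j) := by
    intro j
    rw [Matrix.mul_apply]
    push_cast
    rw [Finset.sum_mul]
    refine Finset.sum_congr rfl fun m _ => ?_
    ring
  simp_rw [h1]
  rw [Finset.sum_comm]
  refine Finset.sum_congr rfl fun m _ => ?_
  rw [Finset.mul_sum]

theorem right_pow {M : Matrix (Fin d) (Fin d) ℤ} {lam : ℝ} {f : Fin d → ℝ}
    (h : act M f = fun i => lam * f i) (k : ℕ) : act (M ^ k) f = fun i => lam ^ k * f i := by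
  induction k with
  | zero =>
    rw [pow_zero, act_one]
    ext i
    simp
  | succ k ih =>
    rw [pow_succ, act_mul, h]
    ext i
    have h1 := congrFun ih i
    unfold act at h1 ⊢
    have h2 : ∀ j, (((M ^ k) i j : ℤ) : ℝ) * (lam * f j) = lam * ((((M ^ k) i j : ℤ) : ℝ) * f j) := by
      intro j
      ring
    simp_rw [h2]
    rw [← Finset.mul_sum, h1]
    ring

theorem left_pow {M : Matrix (Fin d) (Fin d) ℤ} {lam : ℝ} {l : Fin d → ℝ}
    (h : ∀ j, ∑ i, l i * (M i j : ℝ) = lam * l j) (k : ℕ) :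
    ∀ j, ∑ i, l i * (((M ^ k) i j : ℤ) : ℝ) = lam ^ k * l j := by
  induction k with
  | zero =>
    intro j
    rw [Finset.sum_eq_single j]
    · simp
    · intro i _ hi
      simp [Matrix.one_apply_ne hi]
    · simp
  | succ k ih =>
    intro j
    have h1 : ∀ i, l i * (((M ^ (k + 1)) i j : ℤ) : ℝ) =
        ∑ m, l i * (((M ^ k) i m : ℤ) : ℝ) * (M m j : ℝ) := by
      intro i
      rw [pow_succ, Matrix.mul_apply]
      push_cast
      rw [Finset.mul_sum]
      refine Finset.sum_congr rfl fun m _ => ?_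
      ring
    simp_rw [h1]
    rw [Finset.sum_comm]
    have h2 : ∀ m, ∑ i, l i * (((M ^ k) i m : ℤ) : ℝ) * (M m j : ℝ) =
        lam ^ k * (l m * (M m j : ℝ)) := by
      intro m
      rw [← Finset.sum_mul, ih m]
      ring
    simp_rw [h2]
    rw [← Finset.mul_sum, h j]
    ring

theorem dat_pow {M : Matrix (Fin d) (Fin d) ℤ} {lam : ℝ} {l f : Fin d → ℝ}
    (h : Dat M lam l f) {k : ℕ} (hk : 1 ≤ k) : Dat (M ^ k) (lam ^ k) l f where
  one_lt := one_lt_pow₀ h.one_lt (by omega)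
  lpos := h.lpos
  fpos := h.fpos
  fsum := h.fsum
  lf := h.lf
  left := left_pow h.left k
  right := right_pow h.right k
  indep := h.indep

theorem act_single (A : Matrix (Fin d) (Fin d) ℤ) (j : Fin d) :
    act A (Pi.single j 1) = fun i => (A i j : ℝ) := by
  ext i
  unfold act
  rw [Finset.sum_eq_single j]
  · simp
  · intro m _ hm
    simp [hm]
  · simp

theorem dot_le (l : Fin d → ℝ) (hl : ∀ i, 0 < l i) (y : Fin d → ℝ) :
    |dot l y| ≤ sl l * ‖y‖ := by
  unfold dot sl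
  rw [Finset.sum_mul]
  refine (Finset.abs_sum_le_sum_abs _ _).trans (Finset.sum_le_sum fun i _ => ?_)
  rw [abs_mul, abs_of_pos (hl i)]
  have := norm_le_pi_norm y i
  rw [Real.norm_eq_abs] at this
  exact mul_le_mul_of_nonneg_left this (hl i).le

theorem dot_prj {l f : Fin d → ℝ} (h : dot l f = 1) (y : Fin d → ℝ) :
    dot l y = dot l (prj f y) + ∑ i, y i := by
  unfold dot prj at *
  have h1 : ∀ i, l i * (y i - (∑ j, y j) * f i) = l i * y i - (∑ j, y j) * (l i * f i) := by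
    intro i
    ring
  simp_rw [h1]
  rw [Finset.sum_sub_distrib, ← Finset.mul_sum, h]
  ring

theorem le_sl {l : Fin d → ℝ} (hl : ∀ i, 0 < l i) (j : Fin d) : l j ≤ sl l :=
  Finset.single_le_sum (f := l) (fun i _ => (hl i).le) (Finset.mem_univ j)

theorem sl_nonneg {l : Fin d → ℝ} (hl : ∀ i, 0 < l i) : 0 ≤ sl l :=
  Finset.sum_nonneg fun i _ => (hl i).le

end TPA

theorem pa_holds : StPA := by
  intro d M lam l f Cc θ δ hctx
  have hD := hctx.dat
  obtain ⟨hC0, hθ0, hθ1, hcon⟩ := hctx.con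
  refine ⟨fun k hk => TPA.dat_pow hD hk, ?_⟩
  have hsl : 0 ≤ sl l := TPA.sl_nonneg hD.lpos
  set B : ℝ := ∑ j, ‖prj f (Pi.single j 1 : Fin d → ℝ)‖ with hB
  have hB0 : 0 ≤ B := Finset.sum_nonneg fun j _ => norm_nonneg _
  have hBj : ∀ j, ‖prj f (Pi.single j 1 : Fin d → ℝ)‖ ≤ B := fun j =>
    Finset.single_le_sum (f := fun j => ‖prj f (Pi.single j 1 : Fin d → ℝ)‖)
      (fun i _ => norm_nonneg _) (Finset.mem_univ j)
  -- smallness of the transversal part
  have hlim : Tendsto (fun k : ℕ => Cc * θ ^ k * B) atTop (nhds 0) := by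
    have h1 := tendsto_pow_atTop_nhds_zero_of_lt_one hθ0.le hθ1
    have h2 := (h1.const_mul Cc).mul_const B
    simpa using h2
  have hε : (0 : ℝ) < 1 / (1 + sl l) := by positivity
  have hev1 : ∀ᶠ k : ℕ in atTop, Cc * θ ^ k * B < 1 / (1 + sl l) :=
    hlim.eventually (gt_mem_nhds hε)
  -- the entries are large
  have hpowlim : Tendsto (fun k : ℕ => lam ^ k) atTop atTop :=
    tendsto_pow_atTop_atTop_of_one_lt hD.one_lt
  have hev2 : ∀ᶠ k : ℕ in atTop, ∀ i j, 3 / (l j * f i) + 1 / l j ≤ lam ^ k := by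
    rw [Filter.eventually_all]
    intro i
    rw [Filter.eventually_all]
    intro j
    exact hpowlim.eventually_ge_atTop _
  filter_upwards [hev1, hev2] with k hk1 hk2
  have hlamk : 1 ≤ lam ^ k := one_le_pow₀ hD.one_lt.le
  have hprj : ∀ j, ‖prj f (fun i => (((M ^ k) i j : ℤ) : ℝ))‖ ≤ 1 / (1 + sl l) := by
    intro j
    have h1 := hcon k (Pi.single j 1)
    rw [TPA.act_single] at h1
    refine h1.trans (le_trans ?_ hk1.le)
    exact mul_le_mul_of_nonneg_left (hBj j) (by positivity)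
  have hle1 : 1 / (1 + sl l) ≤ 1 := by
    rw [div_le_one (by positivity)]
    linarith
  have hslε : sl l * (1 / (1 + sl l)) ≤ 1 := by
    rw [mul_one_div, div_le_one (by positivity)]
    linarith
  -- the sum of the column
  have hsum : ∀ j, |(∑ i, (((M ^ k) i j : ℤ) : ℝ)) - lam ^ k * l j| ≤ 1 := by
    intro j
    have h1 := TPA.dot_prj hD.lf (fun i => (((M ^ k) i j : ℤ) : ℝ))
    have h2 : dot l (fun i => (((M ^ k) i j : ℤ) : ℝ)) = lam ^ k * l j :=
      TPA.left_pow hD.left k j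
    rw [h2] at h1
    have h3 := TPA.dot_le l hD.lpos (prj f (fun i => (((M ^ k) i j : ℤ) : ℝ)))
    have h4 : sl l * ‖prj f (fun i => (((M ^ k) i j : ℤ) : ℝ))‖ ≤ 1 :=
      (mul_le_mul_of_nonneg_left (hprj j) hsl).trans hslε
    have h5 : (∑ i, (((M ^ k) i j : ℤ) : ℝ)) - lam ^ k * l j =
        -dot l (prj f (fun i => (((M ^ k) i j : ℤ) : ℝ))) := by
      rw [h1]
      ring
    rw [h5, abs_neg]
    exact h3.trans h4
  have hent : ∀ j i, |(((M ^ k) i j : ℤ) : ℝ) - (∑ i', (((M ^ k) i' j : ℤ) : ℝ)) * f i| ≤ 1 := by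
    intro j i
    have h1 := norm_le_pi_norm (prj f (fun i => (((M ^ k) i j : ℤ) : ℝ))) i
    rw [Real.norm_eq_abs] at h1
    exact h1.trans ((hprj j).trans hle1)
  have hge : ∀ i j, 1 ≤ (M ^ k) i j := by
    intro i j
    have h1 := (abs_le.1 (hsum j)).1
    have h2 := (abs_le.1 (hent j i)).1
    have hl := hD.lpos j
    have hf := hD.fpos i
    have h3 : 3 / (l j * f i) + 1 / l j ≤ lam ^ k := hk2 i j
    have h4 : 3 / f i + 1 ≤ lam ^ k * l j := by
      have h5 := mul_le_mul_of_nonneg_right h3 hl.le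
      have h6 : (3 / (l j * f i) + 1 / l j) * l j = 3 / f i + 1 := by
        field_simp
      rwa [h6] at h5
    have h7 : 3 ≤ (∑ i', (((M ^ k) i' j : ℤ) : ℝ)) * f i := by
      have h8 : 3 / f i ≤ ∑ i', (((M ^ k) i' j : ℤ) : ℝ) := by linarith
      rwa [div_le_iff₀ hf] at h8
    have h9 : (1 : ℝ) ≤ (((M ^ k) i j : ℤ) : ℝ) := by linarith
    exact_mod_cast h9
  have hNN : ∀ j, (NN M k j : ℤ) = ∑ i, (M ^ k) i j := by
    intro j
    unfold NN
    refine Int.toNat_of_nonneg (Finset.sum_nonneg fun i _ => ?_)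
    have := hge i j
    omega
  have hNNr : ∀ j, (NN M k j : ℝ) = ∑ i, (((M ^ k) i j : ℤ) : ℝ) := by
    intro j
    have h1 := hNN j
    have h2 : ((NN M k j : ℤ) : ℝ) = ((∑ i, (M ^ k) i j : ℤ) : ℝ) := by rw [h1]
    push_cast at h2
    exact h2
  refine ⟨hge, hNN, fun j => ?_, fun j => ?_, fun j i => ?_⟩
  · rw [hNNr j]
    exact hsum j
  · rw [hNNr j]
    have h1 := (abs_le.1 (hsum j)).2
    have h2 : lam ^ k * l j ≤ lam ^ k * sl l :=
      mul_le_mul_of_nonneg_left (TPA.le_sl hD.lpos j) (by linarith)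
    unfold L0P
    nlinarith
  · rw [hNNr j]
    exact hent j i

end Pool.Agent.H811R3.PS
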