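import Pool.Agent.H811R3.PS.Defs6

/-! Task PK: powers of irreducible Pisot matrices are irreducible Pisot (helper267). -/

set_option autoImplicit false

open Finset MeasureTheory Filter

namespace Pool.Agent.H811R3.PS

namespace TPK

open Polynomial

theorem map_pow' {d : ℕ} (M : Matrix (Fin d) (Fin d) ℤ) {R : Type*} [CommRing R] (f : ℤ →+* R)
    (k : ℕ) : (M ^ k).map f = (M.map f) ^ k := by
  have := map_pow f.mapMatrix M k
  simpa [RingHom.mapMatrix_apply] using this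

theorem nonneg_pow {d : ℕ} {M : Matrix (Fin d) (Fin d) ℤ} (h : ∀ i j, 0 ≤ M i j) (k : ℕ) :
    ∀ i j, 0 ≤ (M ^ k) i j := by
  induction k with
  | zero =>
    intro i j
    rw [pow_zero, Matrix.one_apply]
    split_ifs <;> norm_num
  | succ k ih =>
    intro i j
    rw [pow_succ, Matrix.mul_apply]
    exact Finset.sum_nonneg fun l _ => mul_nonneg (ih i l) (h l j)

/-- roots over the complex numbers of the rational characteristic polynomial -/
theorem root_iff {d : ℕ} (M : Matrix (Fin d) (Fin d) ℤ) (μ : ℂ) :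
    (M.map (Int.castRingHom ℂ)).charpoly.IsRoot μ ↔
      aeval μ (M.map (Int.castRingHom ℚ)).charpoly = 0 := by
  have h1 : (M.map (Int.castRingHom ℂ)) =
      (M.map (Int.castRingHom ℚ)).map (algebraMap ℚ ℂ) := by
    ext i j
    simp
  rw [h1, Matrix.charpoly_map, Polynomial.IsRoot.def, Polynomial.eval_map_algebraMap]

theorem root_real {d : ℕ} (M : Matrix (Fin d) (Fin d) ℤ) (lam : ℝ)
    (h : (M.map (Int.castRingHom ℝ)).charpoly.IsRoot lam) :
    (M.map (Int.castRingHom ℂ)).charpoly.IsRoot (lam : ℂ) := by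
  have h1 : (M.map (Int.castRingHom ℂ)) =
      (M.map (Int.castRingHom ℝ)).map (algebraMap ℝ ℂ) := by
    ext i j
    simp
  rw [h1, Matrix.charpoly_map]
  exact h.map

/-- the key injectivity -/
theorem pow_inj {P : ℚ[X]} (hirr : Irreducible P) (lam : ℂ) (hlam : aeval lam P = 0)
    (hl : 1 < ‖lam‖) (hoth : ∀ μ : ℂ, aeval μ P = 0 → μ ≠ lam → ‖μ‖ < 1) {k : ℕ} (hk : 1 ≤ k)
    {ν₁ ν₂ : ℂ} (h1 : aeval ν₁ P = 0) (h2 : aeval ν₂ P = 0) (h : ν₁ ^ k = ν₂ ^ k) : ν₁ = ν₂ := by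
  by_contra hne
  let L := P.SplittingField
  let ι : L →ₐ[ℚ] ℂ := IsAlgClosed.lift
  have hnorm : Normal ℚ L := SplittingField.instNormal P
  have hinj : Function.Injective ι := ι.toRingHom.injective
  have himg : ι '' P.rootSet L = P.rootSet ℂ :=
    (Polynomial.SplittingField.splits P).image_rootSet ι
  have hP0 : P ≠ 0 := hirr.ne_zero
  have lift : ∀ ν : ℂ, aeval ν P = 0 → ∃ a : L, aeval a P = 0 ∧ ι a = ν := by
    intro ν hν
    have hm : ν ∈ P.rootSet ℂ := mem_rootSet.mpr ⟨hP0, hν⟩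
    rw [← himg] at hm
    obtain ⟨a, ha, rfl⟩ := hm
    exact ⟨a, (mem_rootSet.mp ha).2, rfl⟩
  obtain ⟨a0, ha0, rfl⟩ := lift lam hlam
  obtain ⟨a1, ha1, rfl⟩ := lift ν₁ h1
  obtain ⟨a2, ha2, rfl⟩ := lift ν₂ h2
  -- an automorphism sending `a1` to `a0`
  have halg : IsAlgebraic ℚ a1 := ⟨P, hP0, ha1⟩
  have hroot : aeval a0 (minpoly ℚ a1) = 0 := by
    have hd : P ∣ minpoly ℚ a1 := by
      have h3 : minpoly ℚ a1 ∣ P := minpoly.dvd ℚ a1 ha1
      exact ((minpoly.irreducible halg.isIntegral).dvd_comm hirr).mp h3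
    obtain ⟨r, hr⟩ := hd
    rw [hr, map_mul, ha0, zero_mul]
  obtain ⟨σ, hσ⟩ := minpoly.exists_algEquiv_of_root' halg hroot
  have hb : aeval (σ a2) P = 0 := by
    rw [← AlgEquiv.coe_toAlgHom, aeval_algHom_apply, ha2, map_zero]
  have hb' : aeval (ι (σ a2)) P = 0 := by
    rw [aeval_algHom_apply, hb, map_zero]
  have hne' : ι (σ a2) ≠ ι a0 := by
    intro h4
    have h5 := hinj h4
    rw [← hσ] at h5
    exact hne (by rw [σ.injective h5])
  have h6 : a1 ^ k = a2 ^ k := by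
    apply hinj
    rw [map_pow, map_pow, h]
  have h7 : (ι a0) ^ k = (ι (σ a2)) ^ k := by
    rw [← map_pow, ← map_pow, ← hσ, ← map_pow, ← map_pow, h6]
  have h8 := hoth _ hb' hne'
  have h9 : ‖ι a0‖ ^ k = ‖ι (σ a2)‖ ^ k := by
    rw [← norm_pow, ← norm_pow, h7]
  have h10 : 1 < ‖ι a0‖ ^ k := one_lt_pow₀ hl (by omega)
  have h11 : ‖ι (σ a2)‖ ^ k < 1 := pow_lt_one₀ (norm_nonneg _) h8 (by omega)
  linarith

end TPK

open TPK Polynomial in
theorem pk_holds : StPK := by
  classical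
  intro d hd M lam hM k hk
  obtain ⟨hnn, hirr, hlt, hroot, hoth⟩ := hM
  have hk0 : k ≠ 0 := by omega
  -- other eigenvalues
  have hspec : ∀ μ : ℂ, ((M ^ k).map (Int.castRingHom ℂ)).charpoly.IsRoot μ →
      ∃ ν : ℂ, (M.map (Int.castRingHom ℂ)).charpoly.IsRoot ν ∧ ν ^ k = μ := by
    intro μ hμ
    rw [map_pow', ← Matrix.mem_spectrum_iff_isRoot_charpoly,
      spectrum.map_pow_of_pos _ (by omega : 0 < k)] at hμ
    obtain ⟨ν, hν, hνμ⟩ := hμ
    exact ⟨ν, Matrix.mem_spectrum_iff_isRoot_charpoly.mp hν, hνμ⟩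
  have hrootk : ((M ^ k).map (Int.castRingHom ℝ)).charpoly.IsRoot (lam ^ k) := by
    rw [map_pow', ← Matrix.mem_spectrum_iff_isRoot_charpoly]
    exact spectrum.pow_mem_pow _ k (Matrix.mem_spectrum_iff_isRoot_charpoly.mpr hroot)
  refine ⟨nonneg_pow hnn k, ?_, one_lt_pow₀ hlt hk0, hrootk, ?_⟩
  · -- irreducibility
    set P : ℚ[X] := (M.map (Int.castRingHom ℚ)).charpoly with hP
    set Q : ℚ[X] := ((M ^ k).map (Int.castRingHom ℚ)).charpoly with hQ
    have hPm : P.Monic := Matrix.charpoly_monic _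
    have hQm : Q.Monic := Matrix.charpoly_monic _
    have hPd : P.natDegree = d := by
      rw [hP, Matrix.charpoly_natDegree_eq_dim, Fintype.card_fin]
    have hQd : Q.natDegree = d := by
      rw [hQ, Matrix.charpoly_natDegree_eq_dim, Fintype.card_fin]
    have hPl : aeval (lam : ℂ) P = 0 := (root_iff M lam).mp (root_real M lam hroot)
    have hQl : aeval ((lam : ℂ) ^ k) Q = 0 := by
      have h1 := (root_iff (M ^ k) ((lam ^ k : ℝ) : ℂ)).mp (root_real (M ^ k) (lam ^ k) hrootk)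
      rw [Complex.ofReal_pow] at h1
      exact h1
    have hint : IsIntegral ℚ ((lam : ℂ) ^ k) := ⟨Q, hQm, hQl⟩
    set p : ℚ[X] := minpoly ℚ ((lam : ℂ) ^ k) with hp
    have hpm : p.Monic := minpoly.monic hint
    have hpQ : p ∣ Q := minpoly.dvd ℚ _ hQl
    -- `P` divides `p (X ^ k)`
    have hPmin : P = minpoly ℚ (lam : ℂ) := minpoly.eq_of_irreducible_of_monic hirr hPl hPm
    have hPp : P ∣ expand ℚ k p := by
      rw [hPmin]
      apply minpoly.dvd
      rw [expand_aeval]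
      exact minpoly.aeval ℚ _
    have hpν : ∀ ν : ℂ, aeval ν P = 0 → aeval (ν ^ k) p = 0 := by
      intro ν hν
      rw [← expand_aeval]
      obtain ⟨r, hr⟩ := hPp
      rw [hr, map_mul, hν, zero_mul]
    have hl1 : 1 < ‖(lam : ℂ)‖ := by
      rw [Complex.norm_real, Real.norm_eq_abs]
      exact hlt.trans_le (le_abs_self _)
    have hinjk : ∀ ν₁ ∈ P.rootSet ℂ, ∀ ν₂ ∈ P.rootSet ℂ, ν₁ ^ k = ν₂ ^ k → ν₁ = ν₂ := by
      intro ν₁ h1 ν₂ h2 h
      exact pow_inj hirr lam hPl hl1 (fun μ hμ hne => hoth μ ((root_iff M μ).mpr hμ) hne) hk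
        (mem_rootSet.mp h1).2 (mem_rootSet.mp h2).2 h
    have hcard : Fintype.card (P.rootSet ℂ) = d := by
      rw [card_rootSet_eq_natDegree hirr.separable (IsAlgClosed.splits _), hPd]
    have hle : Fintype.card (P.rootSet ℂ) ≤ Fintype.card (p.rootSet ℂ) := by
      refine Fintype.card_le_of_injective (fun ν => ⟨(ν : ℂ) ^ k, ?_⟩) ?_
      · exact mem_rootSet.mpr ⟨hpm.ne_zero, hpν _ (mem_rootSet.mp ν.2).2⟩
      · intro a b hab
        simp only [Subtype.mk.injEq] at hab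
        exact Subtype.ext (hinjk a a.2 b b.2 hab)
    have hpd : Fintype.card (p.rootSet ℂ) ≤ p.natDegree := by
      have h1 : Fintype.card (p.rootSet ℂ) = p.natDegree := by
        rw [card_rootSet_eq_natDegree (minpoly.irreducible hint).separable (IsAlgClosed.splits _)]
      exact h1.le
    have hQp : Q = p := eq_of_monic_of_dvd_of_natDegree_le hpm hQm hpQ (by
      rw [hQd]
      omega)
    rw [hQp]
    exact minpoly.irreducible hint
  · intro μ hμ hne
    obtain ⟨ν, hν, rfl⟩ := hspec μ hμ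
    have h1 : ν ≠ (lam : ℂ) := by
      rintro rfl
      apply hne
      push_cast
      rfl
    rw [norm_pow]
    exact pow_lt_one₀ (norm_nonneg _) (hoth ν hν h1) hk0

end Pool.Agent.H811R3.PS
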