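import Pool.Agent.H811R3.PS.Defs2

/-!
# Task PN: the numerical conditions for large `k`
-/

set_option autoImplicit false

open Finset MeasureTheory Filter

namespace Pool.Agent.H811R3.PS

namespace TPN

theorem expo_pos {d : ℕ} (hd : 2 ≤ d) {δ : ℝ} (h : δ ≤ 1 / (10 * ((d : ℝ) + 1) ^ 3)) :
    0 < 2 / ((d : ℝ) + 1) - δ := by
  have h1 : (0 : ℝ) < (d : ℝ) + 1 := by positivity
  have h2 : 1 / (10 * ((d : ℝ) + 1) ^ 3) ≤ 1 / ((d : ℝ) + 1) := by
    apply one_div_le_one_div_of_le h1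
    have h3 : (1 : ℝ) ≤ (d : ℝ) + 1 := by
      have : (0 : ℝ) ≤ d := Nat.cast_nonneg d
      linarith
    have h4 : (1 : ℝ) ≤ ((d : ℝ) + 1) ^ 2 := one_le_pow₀ h3
    nlinarith
  have h5 : 1 / ((d : ℝ) + 1) < 2 / ((d : ℝ) + 1) := by
    apply div_lt_div_of_pos_right _ h1
    norm_num
  linarith

theorem tend_mP {d : ℕ} (hd : 2 ≤ d) {δ : ℝ} (h : δ ≤ 1 / (10 * ((d : ℝ) + 1) ^ 3)) :
    Tendsto (fun y : ℝ => ((mP d δ y : ℕ) : ℝ)) atTop atTop := by
  have h1 : Tendsto (fun y : ℝ => y ^ (2 / ((d : ℝ) + 1) - δ)) atTop atTop :=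
    tendsto_rpow_atTop (expo_pos hd h)
  have h2 : Tendsto (fun y : ℝ => mP d δ y) atTop atTop := tendsto_nat_floor_atTop.comp h1
  exact tendsto_natCast_atTop_atTop.comp h2

theorem half_pos {d : ℕ} (hd : 2 ≤ d) : 0 < ((d : ℝ) - 1) / 2 := by
  have : (2 : ℝ) ≤ d := by exact_mod_cast hd
  linarith

theorem tend_eP {d : ℕ} (hd : 2 ≤ d) {δ : ℝ} (h : δ ≤ 1 / (10 * ((d : ℝ) + 1) ^ 3)) (C1 : ℝ) :
    Tendsto (fun y : ℝ => eP d C1 δ y) atTop (nhds 0) := by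
  have h1 := (tendsto_rpow_neg_atTop (half_pos hd)).comp (tend_mP hd h)
  have h2 := h1.const_mul C1
  rw [mul_zero] at h2
  exact h2

theorem eP_pos {d : ℕ} {C1 δ y : ℝ} (hC : 0 < C1) (hm : 1 ≤ mP d δ y) : 0 < eP d C1 δ y := by
  unfold eP
  have : (0 : ℝ) < (mP d δ y : ℝ) := by exact_mod_cast hm
  positivity

theorem y_eP {d : ℕ} (hd : 2 ≤ d) {C1 δ y : ℝ} (hC : 0 < C1) (hδ : 0 < δ) (hy : 1 ≤ y)
    (hm : 1 ≤ mP d δ y) :
    C1 * y ^ (2 / ((d : ℝ) + 1)) ≤ y * eP d C1 δ y := by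
  have hy0 : 0 < y := by linarith
  have hd0 : (2 : ℝ) ≤ d := by exact_mod_cast hd
  have hhalf := half_pos hd
  have hm0 : (0 : ℝ) < (mP d δ y : ℝ) := by exact_mod_cast hm
  have h1 : (mP d δ y : ℝ) ≤ y ^ (2 / ((d : ℝ) + 1) - δ) :=
    Nat.floor_le (Real.rpow_nonneg hy0.le _)
  have h2 : (y ^ (2 / ((d : ℝ) + 1) - δ)) ^ (-(((d : ℝ) - 1) / 2)) ≤
      (mP d δ y : ℝ) ^ (-(((d : ℝ) - 1) / 2)) :=
    Real.rpow_le_rpow_of_nonpos hm0 h1 (by linarith)
  rw [← Real.rpow_mul hy0.le] at h2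
  have h3 : y * y ^ ((2 / ((d : ℝ) + 1) - δ) * -(((d : ℝ) - 1) / 2)) =
      y ^ (1 + (2 / ((d : ℝ) + 1) - δ) * -(((d : ℝ) - 1) / 2)) := by
    rw [Real.rpow_add hy0, Real.rpow_one]
  have h4 : (2 / ((d : ℝ) + 1)) ≤ 1 + (2 / ((d : ℝ) + 1) - δ) * -(((d : ℝ) - 1) / 2) := by
    have e : 1 + (2 / ((d : ℝ) + 1) - δ) * -(((d : ℝ) - 1) / 2) =
        2 / ((d : ℝ) + 1) + δ * (((d : ℝ) - 1) / 2) := by
      have : (d : ℝ) + 1 ≠ 0 := by positivity
      field_simp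
      ring
    rw [e]
    have := mul_pos hδ hhalf
    linarith
  have h5 : y ^ (2 / ((d : ℝ) + 1)) ≤ y * y ^ ((2 / ((d : ℝ) + 1) - δ) * -(((d : ℝ) - 1) / 2)) := by
    rw [h3]
    exact Real.rpow_le_rpow_of_exponent_le hy h4
  unfold eP
  calc C1 * y ^ (2 / ((d : ℝ) + 1))
      ≤ C1 * (y * y ^ ((2 / ((d : ℝ) + 1) - δ) * -(((d : ℝ) - 1) / 2))) := by gcongr
    _ ≤ C1 * (y * (mP d δ y : ℝ) ^ (-(((d : ℝ) - 1) / 2))) := by gcongr
    _ = y * (C1 * (mP d δ y : ℝ) ^ (-(((d : ℝ) - 1) / 2))) := by ring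

end TPN

theorem pn_holds (hPA : StPA) : StPN := by
  intro d M lam l f Cc θ δ hctx C1 hC1
  have hD := hctx.dat
  have hd := hctx.d2
  obtain ⟨hC0, hθ0, hθ1, hcon⟩ := hctx.con
  obtain ⟨hδ0, hδ1, hδ2⟩ := hctx.adm
  obtain ⟨-, hPA2⟩ := hPA d M lam l f Cc θ δ hctx
  have hlam := hD.one_lt
  have hlam0 : 0 < lam := by linarith
  have : Nonempty (Fin d) := ⟨⟨0, by omega⟩⟩
  have hlm : 0 < lm l := by
    unfold lm
    have : 0 < ∑ i, (l i)⁻¹ := Finset.sum_pos (fun i _ => inv_pos.2 (hD.lpos i)) Finset.univ_nonempty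
    positivity
  have hsl : 0 ≤ sl l := Finset.sum_nonneg fun i _ => (hD.lpos i).le
  have hy : Tendsto (fun k : ℕ => lam ^ k) atTop atTop :=
    tendsto_pow_atTop_atTop_of_one_lt hlam
  -- the events
  have ev1 : ∀ᶠ k : ℕ in atTop, 6 ≤ lam ^ k := hy.eventually_ge_atTop 6
  have ev2 : ∀ᶠ k : ℕ in atTop, Cc * θ ^ k ≤ 1 / 2 := by
    have h1 := (tendsto_pow_atTop_nhds_zero_of_lt_one hθ0.le hθ1).const_mul Cc
    rw [mul_zero] at h1
    exact (h1.eventually (gt_mem_nhds (by norm_num : (0 : ℝ) < 1 / 2))).mono fun k hk => hk.le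
  have ev3 : ∀ᶠ k : ℕ in atTop, 1 ≤ mP d δ (lam ^ k) := by
    have h1 := (TPN.tend_mP hd hδ1).comp hy
    refine (h1.eventually_ge_atTop 1).mono fun k hk => ?_
    have : (1 : ℝ) ≤ ((mP d δ (lam ^ k) : ℕ) : ℝ) := hk
    exact_mod_cast this
  have ev4 : ∀ᶠ k : ℕ in atTop, eP d C1 δ (lam ^ k) < lm l / 4 := by
    have h1 := (TPN.tend_eP hd hδ1 C1).comp hy
    exact h1.eventually (gt_mem_nhds (by positivity : (0 : ℝ) < lm l / 4))
  have ev5 : ∀ᶠ k : ℕ in atTop, 6 * Cc * (θ * lam ^ δ) ^ k ≤ √(lm l) := by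
    have h0 : 0 ≤ θ * lam ^ δ := mul_nonneg hθ0.le (Real.rpow_nonneg hlam0.le _)
    have h1 : θ * lam ^ δ < 1 := by
      refine lt_of_le_of_lt ?_ hδ2
      have : lam ^ δ ≤ lam ^ (2 * δ) := Real.rpow_le_rpow_of_exponent_le hlam.le (by linarith)
      exact mul_le_mul_of_nonneg_left this hθ0.le
    have h2 := (tendsto_pow_atTop_nhds_zero_of_lt_one h0 h1).const_mul (6 * Cc)
    rw [mul_zero] at h2
    exact (h2.eventually (gt_mem_nhds (Real.sqrt_pos.2 hlm))).mono fun k hk => hk.le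
  have ev6 : ∀ᶠ k : ℕ in atTop, 2 * (sl l) ^ 2 ≤ C1 * (lam ^ k) ^ (2 / ((d : ℝ) + 1)) := by
    have h1 : Tendsto (fun k : ℕ => C1 * (lam ^ k) ^ (2 / ((d : ℝ) + 1))) atTop atTop :=
      Tendsto.const_mul_atTop hC1 ((tendsto_rpow_atTop (by positivity)).comp hy)
    exact h1.eventually_ge_atTop _
  filter_upwards [hPA2, ev1, ev2, ev3, ev4, ev5, ev6] with k hk0 h1 h2 h3 h4 h5 h6
  refine ⟨hcon k, ?_⟩
  set y : ℝ := lam ^ k with hydef
  have hy1 : 1 ≤ y := by linarith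
  have hy0 : 0 < y := by linarith
  set e : ℝ := eP d C1 δ y with hedef
  have he : 0 < e := TPN.eP_pos hC1 h3
  have hye : 2 * (sl l) ^ 2 ≤ y * e := h6.trans (TPN.y_eP hd hC1 hδ0 hy1 h3)
  have hye0 : 0 < y * e := by positivity
  have hLs : 0 < LsP l C1 δ y := by
    unfold LsP
    positivity
  have hyδ : 0 < y ^ δ := Real.rpow_pos_of_pos hy0 _
  have hR1 : 0 < R1P l C1 δ y := by
    unfold R1P
    exact mul_pos hyδ (Real.sqrt_pos.2 hLs)
  have htyp1 : 3 * (Cc * θ ^ k) * R1P l C1 δ y ≤ √(y * e / 2) := by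
    have e1 : LsP l C1 δ y = (y * e / 2) * (4 / lm l) := by
      unfold LsP
      rw [← hedef]
      field_simp
      ring
    have e2 : √(LsP l C1 δ y) = √(y * e / 2) * (2 / √(lm l)) := by
      have e0 : √(4 / lm l) = 2 / √(lm l) := by
        rw [Real.sqrt_div (by norm_num), show (4 : ℝ) = 2 ^ 2 by norm_num,
          Real.sqrt_sq (by norm_num)]
      have hye2 : 0 ≤ y * e / 2 := by positivity
      rw [e1, Real.sqrt_mul hye2, e0]
    have e3 : θ ^ k * y ^ δ = (θ * lam ^ δ) ^ k := by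
      rw [mul_pow, hydef, ← Real.rpow_natCast lam k, ← Real.rpow_mul hlam0.le,
        ← Real.rpow_natCast (lam ^ δ) k, ← Real.rpow_mul hlam0.le, mul_comm (k : ℝ) δ]
    have hsq : 0 < √(lm l) := Real.sqrt_pos.2 hlm
    have e4 : 3 * (Cc * θ ^ k) * R1P l C1 δ y =
        (6 * Cc * (θ * lam ^ δ) ^ k) / √(lm l) * √(y * e / 2) := by
      unfold R1P
      rw [e2, ← e3]
      field_simp
      ring
    rw [e4]
    have e5 : (6 * Cc * (θ * lam ^ δ) ^ k) / √(lm l) ≤ 1 := by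
      rw [div_le_one hsq]
      exact h5
    calc (6 * Cc * (θ * lam ^ δ) ^ k) / √(lm l) * √(y * e / 2) ≤ 1 * √(y * e / 2) := by gcongr
      _ = √(y * e / 2) := one_mul _
  exact
    { lam6 := h1
      κ0 := by positivity
      κ2 := h2
      len0 := hk0.2.2.2.1
      R0pos := by
        unfold R0P
        positivity
      R1pos := hR1
      epos := he
      e2 := by linarith
      win := by
        unfold LsP
        rw [← hedef]
      typ1 := htyp1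
      typ2 := by
        have h7 : sl l * (3 * (Cc * θ ^ k) * R1P l C1 δ y) ≤ sl l * √(y * e / 2) :=
          mul_le_mul_of_nonneg_left htyp1 hsl
        have h8 : sl l ≤ √(y * e / 2) := by
          apply Real.le_sqrt_of_sq_le
          linarith
        have h9 : sl l * √(y * e / 2) ≤ √(y * e / 2) * √(y * e / 2) :=
          mul_le_mul_of_nonneg_right h8 (Real.sqrt_nonneg _)
        rw [Real.mul_self_sqrt (by positivity)] at h9
        exact h7.trans h9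
      run := by
        unfold KP
        push_cast
        have := Nat.le_ceil (2 * sl l / lm l)
        linarith }

end Pool.Agent.H811R3.PS
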