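import Pool.Agent.H811R3.PS.Defs3

set_option autoImplicit false

open Finset MeasureTheory Filter

namespace Pool.Agent.H811R3.PS

namespace TS1

variable {d : ℕ}

/-- content of a word -/
def ct (p : List (Fin d)) : Fin d → ℤ := fun a => (p.count a : ℤ)

theorem ct_nil : ct ([] : List (Fin d)) = 0 := by
  funext a
  simp [ct]

theorem ct_append (p q : List (Fin d)) : ct (p ++ q) = ct p + ct q := by
  funext a
  simp [ct]

theorem ct_cons (i : Fin d) (p : List (Fin d)) : ct (i :: p) = Pi.single i 1 + ct p := by
  funext a
  simp only [ct, List.count_cons, Pi.add_apply, Pi.single_apply]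
  by_cases h : i = a
  · subst h
    simp
    ring
  · have h' : ¬ a = i := fun e => h e.symm
    simp [h, h']

theorem app_append (σ : Fin d → List (Fin d)) (p q : List (Fin d)) :
    app σ (p ++ q) = app σ p ++ app σ q := by
  simp [app]

theorem app_cons (σ : Fin d → List (Fin d)) (i : Fin d) (q : List (Fin d)) :
    app σ (i :: q) = σ i ++ app σ q := by
  simp [app]

theorem ct_app (σ : Fin d → List (Fin d)) (p : List (Fin d)) :
    ct (app σ p) = (inc σ).mulVec (ct p) := by
  induction p with
  | nil => rw [show app σ [] = [] from rfl, ct_nil, Matrix.mulVec_zero]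
  | cons i p ih =>
    rw [app_cons, ct_append, ih, ct_cons, Matrix.mulVec_add]
    congr 1
    rw [Matrix.mulVec_single_one]
    rfl

theorem ct_take (σ : Fin d → List (Fin d)) (j : Fin d) :
    ∀ t ≤ (σ j).length, ct ((σ j).take t) = cnt (wd σ j) 0 t := by
  intro t
  induction t with
  | zero =>
    intro _
    funext i
    simp [ct, cnt]
  | succ t ih =>
    intro ht
    have h1 := ih (by omega)
    have h2 : (σ j).take (t + 1) = (σ j).take t ++ [(σ j)[t]] := by
      rw [List.take_add_one, List.getElem?_eq_getElem (by omega)]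
      rfl
    have h3 : wd σ j t = (σ j)[t] := by
      unfold wd
      rw [List.getD_eq_getElem _ _ (by omega)]
    rw [h2, ct_append, h1, ct_cons, ct_nil]
    funext i
    simp only [Pi.add_apply, cnt, Pi.single_apply, add_zero]
    rw [Finset.sum_Ico_succ_top (Nat.zero_le t), h3]
    by_cases h : (σ j)[t] = i
    · simp [h]
    · have h' : ¬ i = (σ j)[t] := fun e => h e.symm
      simp [h, h']

theorem chain (σ : Fin d → List (Fin d)) (l : Fin d → ℝ) (o o' : Fin d × Fin d × (Fin d → ℤ))
    (h : Relation.ReflTransGen (Step (inc σ) l (ln σ) (wd σ)) o o') :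
    ∃ (k : ℕ) (p1 s1 p2 s2 : List (Fin d)), (app σ)^[k] [o.1] = p1 ++ o'.1 :: s1 ∧
      (app σ)^[k] [o.2.1] = p2 ++ o'.2.1 :: s2 ∧
      o'.2.2 = ((inc σ) ^ k).mulVec o.2.2 + ct p1 - ct p2 := by
  induction h with
  | refl =>
    refine ⟨0, [], [], [], [], rfl, rfl, ?_⟩
    simp
  | @tail o1 o2 _ hs ih =>
    obtain ⟨k, p1, s1, p2, s2, h1, h2, h3⟩ := ih
    obtain ⟨t, ht, t', ht', h4, -⟩ := hs
    have ht : t < (σ o1.1).length := ht
    have ht' : t' < (σ o1.2.1).length := ht'
    refine ⟨k + 1, app σ p1 ++ (σ o1.1).take t, (σ o1.1).drop (t + 1) ++ app σ s1,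
      app σ p2 ++ (σ o1.2.1).take t', (σ o1.2.1).drop (t' + 1) ++ app σ s2, ?_, ?_, ?_⟩
    · rw [Function.iterate_succ_apply', h1, app_append, app_cons, h4]
      have h5 : wd σ o1.1 t = (σ o1.1)[t] := by
        unfold wd
        rw [List.getD_eq_getElem _ _ ht]
      have h6 : σ o1.1 = (σ o1.1).take t ++ (σ o1.1)[t] :: (σ o1.1).drop (t + 1) := by
        rw [← List.drop_eq_getElem_cons, List.take_append_drop]
      show app σ p1 ++ (σ o1.1 ++ app σ s1) = _ ++ wd σ o1.1 t :: _
      rw [h5, List.append_assoc]
      congr 1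
      conv_lhs => rw [h6]
      rw [List.append_assoc, List.cons_append]
    · rw [Function.iterate_succ_apply', h2, app_append, app_cons, h4]
      have h5 : wd σ o1.2.1 t' = (σ o1.2.1)[t'] := by
        unfold wd
        rw [List.getD_eq_getElem _ _ ht']
      have h6 : σ o1.2.1 = (σ o1.2.1).take t' ++ (σ o1.2.1)[t'] :: (σ o1.2.1).drop (t' + 1) := by
        rw [← List.drop_eq_getElem_cons, List.take_append_drop]
      show app σ p2 ++ (σ o1.2.1 ++ app σ s2) = _ ++ wd σ o1.2.1 t' :: _
      rw [h5, List.append_assoc]
      congr 1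
      conv_lhs => rw [h6]
      rw [List.append_assoc, List.cons_append]
    · rw [h4]
      show chv (inc σ) (wd σ) o1.1 o1.2.1 o1.2.2 t t' = _
      unfold chv
      rw [ct_append, ct_append, ct_app, ct_app, ct_take σ _ t (le_of_lt ht),
        ct_take σ _ t' (le_of_lt ht'), h3, Matrix.mulVec_sub, Matrix.mulVec_add,
        Matrix.mulVec_mulVec, ← pow_succ']
      abel

end TS1

open TS1

theorem s1_holds : StS1 := by
  intro d hd σ Lam l f R hinc hD hR hCoin j1 j2
  by_cases hj : j1 = j2
  · subst hj
    have h1 : 1 ≤ (σ j1).count j1 := by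
      have := hinc j1 j1
      unfold inc at this
      exact_mod_cast this
    have h2 : σ j1 ≠ [] := by
      intro h
      rw [h] at h1
      simp at h1
    obtain ⟨i, s, hs⟩ := List.exists_cons_of_ne_nil h2
    refine ⟨1, le_rfl, i, [], s, [], s, ?_, ?_, fun a => rfl⟩ <;>
      simp [app, hs]
  · have h0 : ic (0 : Fin d → ℤ) = 0 := by
      funext i
      simp [ic]
    have hl1 := hD.lpos j1
    have hl2 := hD.lpos j2
    have hlen : 0 < len l j1 j2 0 := by
      unfold len
      rw [h0]
      have : dot l 0 = 0 := by simp [dot]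
      rw [this, zero_add, max_self, sub_zero]
      exact lt_min hl1 hl2
    obtain ⟨c, hc⟩ := hCoin j1 j2 0 hlen (by
      rw [h0]
      have : prj f (0 : Fin d → ℝ) = 0 := by
        funext i
        simp [prj]
      rw [this, norm_zero]
      exact hR)
    obtain ⟨k, p1, s1, p2, s2, h1, h2, h3⟩ := chain σ l _ _ hc
    simp only at h1 h2 h3
    rw [Matrix.mulVec_zero, zero_add] at h3
    refine ⟨k, ?_, c, p1, s1, p2, s2, h1, h2, ?_⟩
    · rcases Nat.eq_zero_or_pos k with hk | hk
      · exfalso
        subst hk
        apply hj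
        simp only [Function.iterate_zero, id] at h1 h2
        have e1 : j1 = c := by
          cases p1 with
          | nil => simpa using (List.cons.inj h1).1
          | cons x p =>
            have := congrArg List.length h1
            simp at this
        have e2 : j2 = c := by
          cases p2 with
          | nil => simpa using (List.cons.inj h2).1
          | cons x p =>
            have := congrArg List.length h2
            simp at this
        rw [e1, e2]
      · exact hk
    · intro a
      have := congrFun h3 a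
      simp only [Pi.zero_apply, Pi.sub_apply, ct] at this
      omega

end Pool.Agent.H811R3.PS
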