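import Pool.Agent.H811R3.PS.Defs

set_option autoImplicit false

open Finset

namespace Pool.Agent.H811R3.PS

namespace TSEQ

/-- indicator -/
noncomputable def bi (P : Prop) : ℝ := open Classical in if P then 1 else 0

lemma bi_eq (P : Prop) [Decidable P] : (if P then (1 : ℝ) else 0) = bi P := by
  unfold bi; by_cases h : P <;> simp [h]

lemma bi_true {P : Prop} (h : P) : bi P = 1 := by simp [bi, h]
lemma bi_false {P : Prop} (h : ¬ P) : bi P = 0 := by simp [bi, h]
lemma bi_nonneg (P : Prop) : 0 ≤ bi P := by
  by_cases h : P
  · rw [bi_true h]; norm_num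
  · rw [bi_false h]
lemma bi_le_one (P : Prop) : bi P ≤ 1 := by
  by_cases h : P
  · rw [bi_true h]
  · rw [bi_false h]; norm_num

lemma Pr_eq {d : ℕ} (f : Fin d → ℝ) (τ L : ℕ) (S : (ℕ → Fin d) → Prop) (w : ℕ → Fin d) :
    Pr f τ L S w = Ex f τ L (fun w' => bi (S w')) w := by
  unfold Pr
  congr 1

end TSEQ

open TSEQ

theorem seq_holds (hEX : StEX) : StSEQ := by
  intro d f hf p hp τ L K n S hn hloc hS w0
  obtain ⟨h1, h2, h3, h4, h5⟩ := hEX d f hf
  -- the event depends only on the letters below
  have key : ∀ K : ℕ, (∀ k < K, Loc (τ + (k + 1) * L) (S k)) →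
      (∀ k < K, ∀ w, p ≤ Pr f (τ + k * L) L (S k) w) → ∀ w0,
      Ex f 0 (τ + K * L) (fun w => bi (∀ k < K, ¬ S k w)) w0 ≤ (1 - p) ^ K := by
    intro K
    induction K with
    | zero =>
      intro _ _ w0
      have e : (fun w : ℕ → Fin d => bi (∀ k < 0, ¬ S k w)) = fun _ => (1 : ℝ) := by
        funext w
        exact bi_true (fun k hk => absurd hk (Nat.not_lt_zero k))
      rw [e, h2]
      simp
    | succ K ih =>
      intro hloc hS w0
      have ih' := ih (fun k hk => hloc k (by omega)) (fun k hk => hS k (by omega))
      have e0 : τ + (K + 1) * L = (τ + K * L) + L := by ring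
      rw [e0, h1 0 (τ + K * L) L]
      rw [Nat.zero_add]
      have hcompl : ∀ w', Ex f (τ + K * L) L (fun w'' => bi (¬ S K w'')) w' ≤ 1 - p := by
        intro w'
        have a := h5 (τ + K * L) L (fun w'' => bi (¬ S K w'')) (fun w'' => bi (S K w'')) w'
        have b : (fun w'' : ℕ → Fin d => bi (¬ S K w'') + bi (S K w'')) = fun _ => (1 : ℝ) := by
          funext w''
          by_cases h : S K w''
          · rw [bi_false (not_not.mpr h), bi_true h]; norm_num
          · rw [bi_true h, bi_false h]; norm_num
        rw [b, h2] at a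
        have c := hS K (by omega) w'
        rw [Pr_eq] at c
        linarith
      have hnn : ∀ w', 0 ≤ Ex f (τ + K * L) L (fun w'' => bi (¬ S K w'')) w' := by
        intro w'
        have a := h3 (τ + K * L) L (fun _ => (0 : ℝ)) (fun w'' => bi (¬ S K w'')) w'
          (fun w'' _ => bi_nonneg _)
        rwa [h2] at a
      have h1p : 0 ≤ 1 - p := le_trans (hnn w0) (hcompl w0)
      have inner : ∀ w', Ex f (τ + K * L) L (fun w'' => bi (∀ k < K + 1, ¬ S k w'')) w' ≤
          (1 - p) * bi (∀ k < K, ¬ S k w') := by
        intro w'
        have a := h3 (τ + K * L) L (fun w'' => bi (∀ k < K + 1, ¬ S k w''))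
          (fun w'' => bi (∀ k < K, ¬ S k w') * bi (¬ S K w'')) w' (by
            intro w'' hw
            have hk : ∀ k < K, S k w'' = S k w' := by
              intro k hk
              refine hloc k (by omega) w'' w' ?_
              intro t ht
              apply hw
              left
              have : (k + 1) * L ≤ K * L := Nat.mul_le_mul_right L (by omega)
              omega
            by_cases hall : ∀ k < K + 1, ¬ S k w''
            · rw [bi_true hall, bi_true (hall K (by omega)), bi_true (by
                intro k hk'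
                rw [← hk k hk']
                exact hall k (by omega))]
              norm_num
            · rw [bi_false hall]
              exact mul_nonneg (bi_nonneg _) (bi_nonneg _))
        refine le_trans a ?_
        rw [h4, mul_comm]
        exact mul_le_mul_of_nonneg_right (hcompl w') (bi_nonneg _)
      refine le_trans (h3 0 (τ + K * L) _ _ w0 (fun w' _ => inner w')) ?_
      rw [h4, pow_succ, mul_comm]
      exact mul_le_mul_of_nonneg_right (ih' w0) h1p
  obtain ⟨r, rfl⟩ := Nat.exists_eq_add_of_le hn
  rw [Pr_eq, h1 0 (τ + K * L) r, Nat.zero_add]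
  refine le_trans (h3 0 (τ + K * L) _ _ w0 (fun w' _ => ?_)) (key K hloc hS w0)
  have a := h3 (τ + K * L) r (fun w'' => bi (∀ k < K, ¬ S k w''))
    (fun _ => bi (∀ k < K, ¬ S k w')) w' (by
      intro w'' hw
      have hk : ∀ k < K, S k w'' = S k w' := by
        intro k hk
        refine hloc k hk w'' w' ?_
        intro t ht
        apply hw
        left
        have : (k + 1) * L ≤ K * L := Nat.mul_le_mul_right L (by omega)
        omega
      have e : (∀ k < K, ¬ S k w'') = (∀ k < K, ¬ S k w') := by
        apply propext
        constructor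
        · intro h k hk'
          rw [← hk k hk']; exact h k hk'
        · intro h k hk'
          rw [hk k hk']; exact h k hk'
      show bi (∀ k < K, ¬ S k w'') ≤ bi (∀ k < K, ¬ S k w')
      rw [e])
  rwa [h2] at a

end Pool.Agent.H811R3.PS
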