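import Pool.Agent.H811R3.PS.Defs

/-!
Task UPP: the upper local bound `C / √n` for the multinomial distribution.
-/

set_option autoImplicit false

open Finset MeasureTheory Filter

namespace Pool.Agent.H811R3.PS

namespace UPP

/-! ### the binomial distribution, by Fourier inversion -/

theorem int_char (m : ℤ) :
    ∫ θ in (-Real.pi)..Real.pi, Complex.exp (((m : ℂ) * Complex.I) * (θ : ℂ)) =
      if m = 0 then (2 * Real.pi : ℂ) else 0 := by
  split_ifs with h
  · subst h
    simp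
    ring
  · have hc : ((m : ℂ) * Complex.I) ≠ 0 :=
      mul_ne_zero (by exact_mod_cast h) Complex.I_ne_zero
    rw [integral_exp_mul_complex hc]
    have e : Complex.exp (((m : ℂ) * Complex.I) * ((Real.pi : ℝ) : ℂ)) =
        Complex.exp (((m : ℂ) * Complex.I) * ((-Real.pi : ℝ) : ℂ)) := by
      rw [Complex.exp_eq_exp_iff_exists_int]
      exact ⟨m, by push_cast; ring⟩
    rw [e, sub_self, zero_div]

theorem norm_char {p q : ℝ} (hp : 0 ≤ p) (hq : 0 ≤ q) (hpq : p + q = 1) {θ : ℝ}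
    (hθ : |θ| ≤ Real.pi) :
    ‖(q : ℂ) + p * Complex.exp (θ * Complex.I)‖ ≤
      Real.exp (-(2 * p * q / Real.pi ^ 2) * θ ^ 2) := by
  have h1 : ‖(q : ℂ) + p * Complex.exp (θ * Complex.I)‖ ^ 2 =
      1 - 2 * p * q * (1 - Real.cos θ) := by
    rw [Complex.sq_norm, Complex.normSq_apply, Complex.exp_mul_I, ← Complex.ofReal_cos,
      ← Complex.ofReal_sin]
    simp only [Complex.add_re, Complex.mul_re, Complex.ofReal_re, Complex.ofReal_im,
      Complex.I_re, Complex.I_im, Complex.add_im, Complex.mul_im]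
    have h2 := Real.sin_sq_add_cos_sq θ
    have h3 : q = 1 - p := by linarith
    subst h3
    linear_combination p ^ 2 * h2
  have h2 := Real.cos_le_one_sub_mul_cos_sq hθ
  have h3 : ‖(q : ℂ) + p * Complex.exp (θ * Complex.I)‖ ^ 2 ≤
      Real.exp (-(2 * p * q / Real.pi ^ 2) * θ ^ 2) ^ 2 := by
    rw [h1, ← Real.exp_nat_mul]
    refine le_trans ?_ (Real.add_one_le_exp _)
    have h4 : 2 * p * q * (2 / Real.pi ^ 2 * θ ^ 2) ≤ 2 * p * q * (1 - Real.cos θ) :=
      mul_le_mul_of_nonneg_left (by linarith) (by positivity)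
    push_cast
    have h5 : (2 : ℝ) * (-(2 * p * q / Real.pi ^ 2) * θ ^ 2) =
        -(2 * p * q * (2 / Real.pi ^ 2 * θ ^ 2)) := by ring
    rw [h5]
    linarith
  exact le_of_sq_le_sq h3 (Real.exp_pos _).le

theorem binom_fourier {p q : ℝ} (n h : ℕ) (hh : h ≤ n) :
    ∫ θ in (-Real.pi)..Real.pi, ((q : ℂ) + p * Complex.exp (θ * Complex.I)) ^ n *
      Complex.exp (-(h : ℂ) * (θ * Complex.I)) =
    (2 * Real.pi : ℂ) * (((n.choose h : ℝ) * p ^ h * q ^ (n - h) : ℝ) : ℂ) := by
  have h1 : ∀ θ : ℝ, ((q : ℂ) + p * Complex.exp (θ * Complex.I)) ^ n *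
      Complex.exp (-(h : ℂ) * (θ * Complex.I)) =
      ∑ k ∈ Finset.range (n + 1), (((n.choose k : ℝ) * p ^ k * q ^ (n - k) : ℝ) : ℂ) *
        Complex.exp ((((k : ℤ) - h : ℤ) : ℂ) * Complex.I * (θ : ℂ)) := by
    intro θ
    rw [add_comm (q : ℂ), add_pow, Finset.sum_mul]
    refine Finset.sum_congr rfl fun k _ => ?_
    have e1 : Complex.exp ((((k : ℤ) - h : ℤ) : ℂ) * Complex.I * (θ : ℂ)) =
        Complex.exp (θ * Complex.I) ^ k * Complex.exp (-(h : ℂ) * (θ * Complex.I)) := by
      rw [← Complex.exp_nat_mul, ← Complex.exp_add]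
      congr 1
      push_cast
      ring
    rw [e1]
    push_cast
    ring
  simp_rw [h1]
  rw [intervalIntegral.integral_finsetSum]
  · rw [Finset.sum_eq_single h]
    · rw [intervalIntegral.integral_const_mul, int_char, if_pos (by simp)]
      ring
    · intro k _ hk
      rw [intervalIntegral.integral_const_mul, int_char, if_neg, mul_zero]
      intro h0
      exact hk (by omega)
    · intro h0
      exact absurd (Finset.mem_range.2 (by omega)) h0
  · intro k _
    refine Continuous.intervalIntegrable ?_ _ _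
    fun_prop

theorem binom_le {p q : ℝ} (hp : 0 < p) (hq : 0 < q) (hpq : p + q = 1) :
    ∃ C : ℝ, 0 < C ∧ ∀ n : ℕ, 1 ≤ n → ∀ h : ℕ, h ≤ n →
      (n.choose h : ℝ) * p ^ h * q ^ (n - h) ≤ C / √n := by
  obtain ⟨b, hb⟩ : ∃ b : ℝ, b = 2 * p * q / Real.pi ^ 2 := ⟨_, rfl⟩
  have hb0 : 0 < b := by rw [hb]; have := Real.pi_pos; positivity
  refine ⟨√(Real.pi / b), by have := Real.pi_pos; positivity, fun n hn h hh => ?_⟩
  have hn0 : (0 : ℝ) < n := by exact_mod_cast hn
  have h1 := binom_fourier (p := p) (q := q) n h hh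
  have h2 : ‖∫ θ in (-Real.pi)..Real.pi, ((q : ℂ) + p * Complex.exp (θ * Complex.I)) ^ n *
      Complex.exp (-(h : ℂ) * (θ * Complex.I))‖ ≤
      ∫ θ in (-Real.pi)..Real.pi, Real.exp (-(n * b) * θ ^ 2) := by
    refine intervalIntegral.norm_integral_le_of_norm_le (by linarith [Real.pi_pos]) ?_ ?_
    · refine Eventually.of_forall fun θ hθ => ?_
      have hθ' : |θ| ≤ Real.pi := abs_le.2 ⟨hθ.1.le, hθ.2⟩
      rw [norm_mul, norm_pow]
      have e1 : ‖Complex.exp (-(h : ℂ) * (θ * Complex.I))‖ = 1 := by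
        rw [Complex.norm_exp]
        simp
      rw [e1, mul_one]
      have e2 := pow_le_pow_left₀ (norm_nonneg _) (norm_char hp.le hq.le hpq hθ') n
      refine e2.trans (le_of_eq ?_)
      rw [← Real.exp_nat_mul, ← hb]
      congr 1
      ring
    · refine Continuous.intervalIntegrable ?_ _ _
      fun_prop
  have h3 : ∫ θ in (-Real.pi)..Real.pi, Real.exp (-(n * b) * θ ^ 2) ≤ √(Real.pi / (n * b)) := by
    rw [← integral_gaussian, intervalIntegral.integral_of_le (by linarith [Real.pi_pos])]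
    exact setIntegral_le_integral (integrable_exp_neg_mul_sq (by positivity))
      (Eventually.of_forall fun θ => (Real.exp_pos _).le)
  rw [h1, norm_mul, Complex.norm_real] at h2
  have h4 : ‖(2 * Real.pi : ℂ)‖ = 2 * Real.pi := by
    rw [norm_mul, Complex.norm_real, Real.norm_of_nonneg Real.pi_pos.le]
    norm_num
  have h5 : 0 ≤ (n.choose h : ℝ) * p ^ h * q ^ (n - h) := by positivity
  rw [h4, Real.norm_of_nonneg h5] at h2
  have h6 : √(Real.pi / (n * b)) = √(Real.pi / b) / √n := by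
    rw [← Real.sqrt_div' _ hn0.le]
    congr 1
    field_simp
  rw [h6] at h3
  have h7 := Real.pi_gt_three
  nlinarith

/-! ### one term of the multinomial theorem -/

theorem multi_le {ι : Type} [DecidableEq ι] (s : Finset ι) (x : ι → ℝ) (hx : ∀ i, 0 ≤ x i)
    (k : ι → ℕ) : ((∑ i ∈ s, k i).factorial : ℝ) * ∏ i ∈ s, (x i ^ k i / ((k i).factorial : ℝ)) ≤
      (∑ i ∈ s, x i) ^ (∑ i ∈ s, k i) := by
  induction s using Finset.induction_on with
  | empty => simp
  | insert a s ha ih =>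
    rw [Finset.sum_insert ha, Finset.sum_insert ha, Finset.prod_insert ha]
    obtain ⟨K, hK⟩ : ∃ K, K = ∑ i ∈ s, k i := ⟨_, rfl⟩
    obtain ⟨X, hX⟩ : ∃ X, X = ∑ i ∈ s, x i := ⟨_, rfl⟩
    obtain ⟨P, hP⟩ : ∃ P, P = ∏ i ∈ s, (x i ^ k i / ((k i).factorial : ℝ)) := ⟨_, rfl⟩
    rw [← hK, ← hX, ← hP] at ih
    rw [← hK, ← hX, ← hP]
    have hX0 : 0 ≤ X := by rw [hX]; exact Finset.sum_nonneg fun i _ => hx i
    have hxa := hx a
    have h1 : ((k a + K).choose (k a) : ℝ) * x a ^ k a * X ^ K ≤ (x a + X) ^ (k a + K) := by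
      rw [add_pow]
      have := Finset.single_le_sum (f := fun m => x a ^ m * X ^ (k a + K - m) *
        ((k a + K).choose m : ℝ)) (s := Finset.range (k a + K + 1))
        (fun m _ => by positivity) (Finset.mem_range.2 (by omega : k a < k a + K + 1))
      simp only [Nat.add_sub_cancel_left] at this
      linarith
    have h2 : ((k a + K).factorial : ℝ) = ((k a + K).choose (k a) : ℝ) * (k a).factorial *
        K.factorial := by
      have := Nat.choose_mul_factorial_mul_factorial (show k a ≤ k a + K by omega)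
      rw [Nat.add_sub_cancel_left] at this
      exact_mod_cast this.symm
    have h3 : ((k a).factorial : ℝ) ≠ 0 := Nat.cast_ne_zero.2 (k a).factorial_ne_zero
    calc ((k a + K).factorial : ℝ) * (x a ^ k a / (k a).factorial * P)
        = ((k a + K).choose (k a) : ℝ) * x a ^ k a * (K.factorial * P) := by
          rw [h2]; field_simp
      _ ≤ ((k a + K).choose (k a) : ℝ) * x a ^ k a * X ^ K :=
          mul_le_mul_of_nonneg_left ih (by positivity)
      _ ≤ _ := h1

/-! ### contents -/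

theorem cnt_nonneg {d : ℕ} (w : ℕ → Fin d) (a b : ℕ) (i : Fin d) : 0 ≤ cnt w a b i := by
  unfold cnt
  exact Finset.sum_nonneg fun t _ => by split_ifs <;> norm_num

theorem cnt_sum {d : ℕ} (w : ℕ → Fin d) (τ n : ℕ) : ∑ i, cnt w τ (τ + n) i = n := by
  unfold cnt
  rw [Finset.sum_comm]
  have : ∀ t ∈ Finset.Ico τ (τ + n), ∑ i : Fin d, (if w t = i then (1 : ℤ) else 0) = 1 := by
    intro t _
    simp
  rw [Finset.sum_congr rfl this, Finset.sum_const, Nat.card_Ico]
  simp

end UPP

open UPP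

theorem upp_holds (_hEX : StEX) (hMUL : StMUL) : StUPP := by
  classical
  intro d hd f hf
  obtain ⟨hf0, hf1⟩ := hf
  let i0 : Fin d := ⟨0, by omega⟩
  let i1 : Fin d := ⟨1, by omega⟩
  have hne : i1 ≠ i0 := by
    intro h
    have := congrArg Fin.val h
    simp [i0, i1] at this
  obtain ⟨q, hq⟩ : ∃ q, q = ∑ i ∈ Finset.univ.erase i0, f i := ⟨_, rfl⟩
  have hq0 : 0 < q := by
    rw [hq]
    exact Finset.sum_pos (fun i _ => hf0 i) ⟨i1, Finset.mem_erase.2 ⟨hne, Finset.mem_univ _⟩⟩
  have hpq : f i0 + q = 1 := by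
    rw [hq, Finset.add_sum_erase _ _ (Finset.mem_univ i0), hf1]
  obtain ⟨C, hC, hb⟩ := binom_le (hf0 i0) hq0 hpq
  refine ⟨C, hC, fun n hn z τ w => ?_⟩
  have hn0 : (0 : ℝ) < n := by exact_mod_cast hn
  by_cases hz : (∀ i, 0 ≤ z i) ∧ ∑ i, z i = n
  · obtain ⟨k, hk⟩ : ∃ k : Fin d → ℕ, z = fun i => (k i : ℤ) :=
      ⟨fun i => (z i).toNat, by funext i; rw [Int.toNat_of_nonneg (hz.1 i)]⟩
    have hks : ∑ i, k i = n := by
      have := hz.2
      rw [hk] at this
      simp only at this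
      exact_mod_cast this
    rw [hk, hMUL d f ⟨hf0, hf1⟩ τ n w k hks]
    have hs : ∑ i ∈ Finset.univ.erase i0, k i = n - k i0 := by
      have := Finset.add_sum_erase Finset.univ k (Finset.mem_univ i0)
      omega
    have hkn : k i0 ≤ n := by
      rw [← hks]
      exact Finset.single_le_sum (fun i _ => Nat.zero_le _) (Finset.mem_univ i0)
    have hm := multi_le (Finset.univ.erase i0) f (fun i => (hf0 i).le) k
    rw [hs, ← hq] at hm
    rw [← Finset.mul_prod_erase _ _ (Finset.mem_univ i0)]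
    have h2 : (n.factorial : ℝ) = (n.choose (k i0) : ℝ) * (k i0).factorial *
        (n - k i0).factorial := by
      exact_mod_cast (Nat.choose_mul_factorial_mul_factorial hkn).symm
    have h3 : ((k i0).factorial : ℝ) ≠ 0 := Nat.cast_ne_zero.2 (k i0).factorial_ne_zero
    obtain ⟨P, hP⟩ : ∃ P, P = ∏ i ∈ Finset.univ.erase i0, (f i ^ k i / ((k i).factorial : ℝ)) :=
      ⟨_, rfl⟩
    rw [← hP] at hm ⊢
    have hp := hf0 i0
    calc (n.factorial : ℝ) * (f i0 ^ k i0 / (k i0).factorial * P)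
        = (n.choose (k i0) : ℝ) * f i0 ^ k i0 * ((n - k i0).factorial * P) := by
          rw [h2]; field_simp
      _ ≤ (n.choose (k i0) : ℝ) * f i0 ^ k i0 * q ^ (n - k i0) :=
          mul_le_mul_of_nonneg_left hm (by positivity)
      _ ≤ C / √n := hb n hn (k i0) hkn
  · have h0 : Pr f τ n (fun w' => cnt w' τ (τ + n) = z) w = 0 := by
      unfold Pr Ex
      refine Finset.sum_eq_zero fun v _ => ?_
      simp only
      rw [if_neg, mul_zero]
      intro h
      apply hz
      rw [← h]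
      exact ⟨fun i => cnt_nonneg _ _ _ _, cnt_sum _ _ _⟩
    rw [h0]
    positivity

end Pool.Agent.H811R3.PS
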