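import Pool.Agent.H811R3.PS.TA1
import Pool.Agent.H811R3.PS.TA2
import Pool.Agent.H811R3.PS.TA3
import Pool.Agent.H811R3.PS.TA4
import Pool.Agent.H811R3.PS.TA5
import Pool.Agent.H811R3.PS.TEX
import Pool.Agent.H811R3.PS.TSEQ
import Pool.Agent.H811R3.PS.TMUL
import Pool.Agent.H811R3.PS.TLOW
import Pool.Agent.H811R3.PS.TUPP
import Pool.Agent.H811R3.PS.THOE
import Pool.Agent.H811R3.PS.TL1
import Pool.Agent.H811R3.PS.TL2
import Pool.Agent.H811R3.PS.TP1
import Pool.Agent.H811R3.PS.TPRO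
import Pool.Agent.H811R3.PS.TCNT
import Pool.Agent.H811R3.PS.TDG
import Pool.Agent.H811R3.PS.TDB
import Pool.Agent.H811R3.PS.TDC
import Pool.Agent.H811R3.PS.TDF
import Pool.Agent.H811R3.PS.TDS
import Pool.Agent.H811R3.PS.TPA
import Pool.Agent.H811R3.PS.TPN
import Pool.Agent.H811R3.PS.TBR
import Pool.Agent.H811R3.PS.TBRU
import Pool.Agent.H811R3.PS.TBP
import Pool.Agent.H811R3.PS.TBN
import Pool.Agent.H811R3.PS.TBE
import Pool.Agent.H811R3.PS.TBW
import Pool.Agent.H811R3.PS.TBD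
import Pool.Agent.H811R3.PS.TBC
import Pool.Agent.H811R3.PS.TBU
import Pool.Agent.H811R3.PS.TBF
import Pool.Agent.H811R3.PS.TC1
import Pool.Agent.H811R3.PS.TC2
import Pool.Agent.H811R3.PS.TC3
import Pool.Agent.H811R3.PS.TC4
import Pool.Agent.H811R3.PS.TC5
import Pool.Agent.H811R3.PS.TC6
import Pool.Agent.H811R3.PS.TC6b
import Pool.Agent.H811R3.PS.TC6c
import Pool.Agent.H811R3.PS.TC7
import Pool.Agent.H811R3.PS.TC8
import Pool.Agent.H811R3.PS.TC9
import Pool.Agent.H811R3.PS.TCG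
import Pool.Agent.H811R3.PS.TCT
import Pool.Agent.H811R3.PS.TS1
import Pool.Agent.H811R3.PS.TMAIN
import Pool.Agent.H811R3.PS.TPK
import Pool.Agent.H811R3.PS.TFN

set_option autoImplicit false

namespace Pool.Agent.H811R3.PS

/-- (SEQ) -/
theorem SEQ_ : StSEQ := seq_holds ex_holds
theorem MUL_ : StMUL := mul_holds ex_holds
theorem LOW_ : StLOW := low_holds ex_holds MUL_
theorem UPP_ : StUPP := upp_holds ex_holds MUL_
theorem HOE_ : StHOE := hoe_holds ex_holds
theorem L1_ : StL1 := l1_holds ex_holds SEQ_ LOW_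
theorem L2_ : StL2 := l2_holds ex_holds SEQ_ LOW_ UPP_
theorem P1_ : StP1 := p1_holds ex_holds SEQ_
theorem A2_ : StA2 := a2_holds a1_holds
theorem A3_ : StA3 := a3_holds a1_holds
theorem A4_ : StA4 := a4_holds a1_holds A2_ A3_
theorem A5_ : StA5 := a5_holds a1_holds
theorem PN_ : StPN := pn_holds pa_holds
theorem BR_ : StBR := br_holds HOE_ pro_holds pa_holds
theorem BRU_ : StBRU := bru_holds ex_holds SEQ_ pro_holds pa_holds
theorem BP_ : StBP := bp_holds P1_ pro_holds pa_holds ex_holds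
theorem BN_ : StBN := bn_holds pro_holds pa_holds ex_holds
theorem BE_ : StBE := be_holds pro_holds pa_holds ex_holds
theorem BW_ : StBW := bw_holds pro_holds pa_holds
theorem BD_ : StBD := bd_holds ex_holds pro_holds pa_holds
theorem BC_ : StBC := bc_holds LOW_ pa_holds
theorem BU_ : StBU := bu_holds L1_ L2_ BR_ BRU_ BP_ BN_ BE_ BW_ BD_ PN_ pa_holds
theorem DF_ : StDF := df_holds dg_holds db_holds ds_holds dc_holds
theorem BF_ : StBF := bf_holds BU_ BC_ cnt_holds DF_ PN_ pa_holds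
theorem C9a_ : StC9a := c9a_holds c1_holds c2_holds c3_holds c4_holds c5_holds c6_holds
  c6b_holds c6c_holds c7_holds c8_holds db_holds
theorem C9_ : StC9 := c9_holds c1_holds c2_holds c3_holds c4_holds c5_holds c6_holds
  c6b_holds c6c_holds c7_holds c8_holds db_holds
theorem main_ : StMain := main_holds A4_ A5_ pa_holds BF_ ct_holds cg_holds C9_
theorem mains_ : StMainS := mains_holds A4_ A5_ pa_holds BF_ ct_holds cg_holds s1_holds

end Pool.Agent.H811R3.PS
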