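import Pool.Agent.H811R3.PS.Defs5

/-!
# MAINT: assembly (Rauzy tilings); the general part is helper602's file TMAIN
-/

set_option autoImplicit false

open Finset MeasureTheory Filter

namespace Pool.Agent.H811R3.PS

namespace MAINT

private theorem ctx_exists (hA4 : StA4) (hA5 : StA5) {d : ℕ} (hd : 2 ≤ d) {M : Matrix (Fin d) (Fin d) ℤ}
    {lam : ℝ} (hM : Pis M lam) : ∃ (l f : Fin d → ℝ) (Cc θ δ : ℝ), Ctx d M lam l f Cc θ δ := by
  obtain ⟨l, f, hD, hC⟩ := hA4 d hd M lam hM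
  have hDen := hA5 d hd M lam hM l f hD hC
  obtain ⟨Cc, θ, hCon⟩ := hC
  have hlam : 0 < lam := by linarith [hM.one_lt]
  have hcont : Tendsto (fun δ : ℝ => θ * lam ^ (2 * δ)) (nhds 0) (nhds (θ * lam ^ (2 * (0 : ℝ)))) := by
    have : Continuous (fun δ : ℝ => θ * lam ^ (2 * δ)) :=
      continuous_const.mul (Continuous.rpow continuous_const (by fun_prop)
        (fun _ => Or.inl hlam.ne'))
    exact this.tendsto 0
  have h1 : θ * lam ^ (2 * (0 : ℝ)) < 1 := by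
    simp only [mul_zero, Real.rpow_zero, mul_one]
    exact hCon.2.2.1
  have h2 : ∀ᶠ δ : ℝ in nhds 0, θ * lam ^ (2 * δ) < 1 := hcont.eventually_lt_const h1
  obtain ⟨ε, hε, hε2⟩ := Metric.eventually_nhds_iff.1 h2
  obtain ⟨D, hD'⟩ : ∃ D : ℝ, D = 1 / (10 * ((d : ℝ) + 1) ^ 3) := ⟨_, rfl⟩
  have hDpos : 0 < D := by rw [hD']; positivity
  refine ⟨l, f, Cc, θ, min (ε / 2) D, hd, hM, hD, hCon, hDen, ?_, ?_, ?_⟩
  · exact lt_min (by positivity) hDpos
  · rw [← hD']; exact min_le_right _ _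
  · refine hε2 ?_
    rw [Real.dist_eq, sub_zero, abs_of_pos (lt_min (by positivity) hDpos)]
    exact lt_of_le_of_lt (min_le_left _ _) (by linarith)

private theorem tend_lam {lam : ℝ} (h : 1 < lam) : Tendsto (fun k : ℕ => lam ^ k) atTop atTop :=
  tendsto_pow_atTop_atTop_of_one_lt h

private theorem concl (hBF : StBF) (hCT : StCT) (hCG : StCG) (hPA : StPA) {d : ℕ}
    {M : Matrix (Fin d) (Fin d) ℤ} {lam : ℝ} {l f : Fin d → ℝ} {Cc θ δ : ℝ}
    (X : Ctx d M lam l f Cc θ δ) (Q : (Fin d → List (Fin d)) → Prop)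
    (hQ : ∀ᶠ k : ℕ in atTop, ∀ σ : Fin d → List (Fin d), inc σ = M ^ k → ln σ = NN M k →
      Coin (M ^ k) l f (NN M k) (wd σ) (4 * R0P l δ (lam ^ k)) →
      Reg f (NN M k) (wd σ) (L0P l (lam ^ k)) (R0P l δ (lam ^ k)) →
      Dist (NN M k) (wd σ) (LP δ (lam ^ k)) → Q σ) :
    ∃ c : ℝ, 0 < c ∧ ∀ᶠ k : ℕ in atTop,
      ({σ : Fin d → List (Fin d) | inc σ = M ^ k ∧ ¬ Q σ}.ncard : ℝ) ≤
        Real.exp (-(Real.exp (c * k))) *
          ({σ : Fin d → List (Fin d) | inc σ = M ^ k}.ncard : ℝ) := by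
  classical
  have hd := X.d2
  have hlam : 1 < lam := X.pis.one_lt
  have hδ : 0 < δ := X.adm.1
  have hlog : 0 < Real.log lam := Real.log_pos hlam
  obtain ⟨c, hc, hB⟩ := hBF d M lam l f Cc θ δ X
  obtain ⟨c', hc'⟩ : ∃ c' : ℝ, c' = δ * Real.log lam / 2 := ⟨_, rfl⟩
  have hc'0 : 0 < c' := by rw [hc']; positivity
  refine ⟨c', hc'0, ?_⟩
  have hlarge : ∀ᶠ k : ℕ in atTop, 1 ≤ c * Real.exp (c' * k) := by
    have h1 : Tendsto (fun k : ℕ => c * Real.exp (c' * k)) atTop atTop := by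
      refine Tendsto.const_mul_atTop hc ?_
      refine Real.tendsto_exp_atTop.comp ?_
      exact Tendsto.const_mul_atTop hc'0 tendsto_natCast_atTop_atTop
    exact h1.eventually_ge_atTop 1
  filter_upwards [hB, hQ, hlarge, (hPA d M lam l f Cc θ δ X).2] with k hBk hQk hlk hPk
  have w0 : ℕ → Fin d := fun _ => ⟨0, by omega⟩
  have hct := hCT d hd M k w0
    (fun W => Coin (M ^ k) l f (NN M k) W (4 * R0P l δ (lam ^ k)) ∧
      Reg f (NN M k) W (L0P l (lam ^ k)) (R0P l δ (lam ^ k)) ∧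
      Dist (NN M k) W (LP δ (lam ^ k))) Q (Real.exp (-(c * (lam ^ k) ^ δ)))
    (fun i j => le_trans (by norm_num) (hPk.1 i j)) ?_ (by refine Eq.mp ?_ (hBk w0); congr)
  · refine hct.trans ?_
    refine mul_le_mul_of_nonneg_right (Real.exp_le_exp.2 ?_) (Nat.cast_nonneg _)
    have e1 : (lam ^ k) ^ δ = Real.exp (c' * k) * Real.exp (c' * k) := by
      rw [← Real.exp_add, ← Real.rpow_natCast, ← Real.rpow_mul (by linarith),
        Real.rpow_def_of_pos (by linarith)]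
      congr 1
      rw [hc']
      ring
    rw [e1]
    have h2 := Real.exp_pos (c' * k)
    nlinarith
  · intro σ t hσ ht hP
    have hln : ln σ = NN M k := by
      funext j
      unfold ln
      rw [ht j, List.length_ofFn]
    have hagree : ∀ j, ∀ s < NN M k j, ovr w0 0 (t j) s = wd σ j s := by
      intro j s hs
      unfold ovr wd
      rw [dif_pos ⟨Nat.zero_le _, by omega⟩, ht j, List.getD_eq_getElem _ _ (by simpa using hs),
        List.getElem_ofFn]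
      rfl
    obtain ⟨g1, g2, g3, -⟩ := hCG d (M ^ k) l f (NN M k) (fun j => ovr w0 0 (t j)) (wd σ) hagree
    exact hQk σ hσ hln (g1 _ hP.1) (g2 _ _ hP.2.1) (g3 _ hP.2.2)

end MAINT

open MAINT

theorem maint_holds (hA4 : StA4) (hA5 : StA5) (hPA : StPA) (hBF : StBF) (hCT : StCT)
    (hCG : StCG) (hC1 : StC1) (hC6c : StC6c) (hC9a : StC9a) (hT1 : StT1) (hT2 : StT2)
    (hT3 : StT3) (hT4 : StT4) : StMainT := by
  intro n hn M lam hM hdet
  obtain ⟨l, f, Cc, θ, δ, X⟩ := ctx_exists hA4 hA5 (by omega : 2 ≤ n + 1) hM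
  have hlam : 1 < lam := hM.one_lt
  have hlam0 : 0 < lam := by linarith
  obtain ⟨hCc, hθ0, hθ1, hcon⟩ := X.con
  have hδ : 0 < δ := X.adm.1
  have hδ1 : δ ≤ 1 / 2 := by
    refine X.adm.2.1.trans ?_
    rw [div_le_div_iff₀ (by positivity) (by norm_num)]
    have h1 : (1 : ℝ) ≤ (((n + 1 : ℕ) : ℝ) + 1) ^ 3 := by
      refine one_le_pow₀ ?_
      push_cast
      linarith [Nat.cast_nonneg (α := ℝ) n]
    linarith
  refine concl hBF hCT hCG hPA X TilProp ?_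
  have hκ : ∀ᶠ k : ℕ in atTop, Cc * θ ^ k ≤ 1 / 2 := by
    have h1 : Tendsto (fun k : ℕ => Cc * θ ^ k) atTop (nhds (Cc * 0)) :=
      (tendsto_pow_atTop_nhds_zero_of_lt_one hθ0.le hθ1).const_mul Cc
    rw [mul_zero] at h1
    exact h1.eventually_le_const (by norm_num)
  have hlen : ∀ᶠ k : ℕ in atTop, ∀ j, 2 * (lam ^ k) ^ δ ≤ lam ^ k * l j - 1 := by
    rw [Filter.eventually_all]
    intro j
    have hlj := X.dat.lpos j
    -- `y = s ^ 2`, `y ^ δ ≤ s`
    have h1 : Tendsto (fun k : ℕ => √(lam ^ k)) atTop atTop :=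
      Real.tendsto_sqrt_atTop.comp (tend_lam hlam)
    filter_upwards [h1.eventually_ge_atTop (3 / l j + 1)] with k hk
    obtain ⟨s, hs⟩ : ∃ s : ℝ, s = √(lam ^ k) := ⟨_, rfl⟩
    rw [← hs] at hk
    have hy : lam ^ k = s ^ 2 := by
      rw [hs, Real.sq_sqrt (by positivity)]
    have hs1 : 1 ≤ s := by
      have : 0 < 3 / l j := by positivity
      linarith
    have hyd : (lam ^ k) ^ δ ≤ s := by
      rw [hy]
      calc (s ^ 2) ^ δ ≤ (s ^ 2) ^ (1 / 2 : ℝ) :=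
            Real.rpow_le_rpow_of_exponent_le (by nlinarith) hδ1
        _ = s := by
            rw [← Real.sqrt_eq_rpow, Real.sqrt_sq (by linarith)]
    rw [hy] at hyd ⊢
    have h2 : 3 ≤ s * l j := by
      have h3 : 3 / l j ≤ s := by linarith
      rwa [div_le_iff₀ hlj] at h3
    nlinarith
  filter_upwards [(hPA (n + 1) M lam l f Cc θ δ X).2, eventually_ge_atTop 1, hκ, hlen] with
    k hPk hk hκk hlenk
  intro σ hσ hln h1 h2 h3
  have hy1 : 1 ≤ lam ^ k := one_le_pow₀ hlam.le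
  have hyd1 : 1 ≤ (lam ^ k) ^ δ := Real.one_le_rpow hy1 hδ.le
  have hinc : ∀ i j, 1 ≤ inc σ i j := by rw [hσ]; exact hPk.1
  have hdat : Dat (inc σ) (lam ^ k) l f := by
    rw [hσ]; exact (hPA (n + 1) M lam l f Cc θ δ X).1 k hk
  have hcn : Con (inc σ) f Cc (θ ^ k) := by
    rw [hσ]
    refine ⟨hCc, by positivity, pow_lt_one₀ hθ0.le hθ1 (by omega), fun m y => ?_⟩
    rw [← pow_mul, ← pow_mul]
    exact hcon (k * m) y
  have key := hC9a n hn σ (lam ^ k) l f Cc (θ ^ k)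
    (Cc * θ ^ k) (L0P l (lam ^ k)) (R0P l δ (lam ^ k)) (LP δ (lam ^ k)) hinc hdat hcn ?_ ?_ ?_
    hκk ?_ ?_ ?_ ?_ ?_ ?_ ?_
  · obtain ⟨T, hAT, hsurj, Z, hZ0, hZm, hZi, hinj⟩ := key
    refine hT4 n σ (lam ^ k) l f Cc (θ ^ k) hdat hcn fun u hu => ?_
    exact hT3 hC1 n hn σ (lam ^ k) l f T Z hinc hdat hAT hsurj hZ0 hZm hZi hinj u
      (hT2 hC1 (n + 1) (by omega) σ (lam ^ k) l f T hinc hdat hAT u hu
        (hT1 hC1 hC6c (n + 1) (by omega) σ (lam ^ k) l f Cc (θ ^ k) T hinc hdat hcn hAT u hu))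
  · rw [hσ, Matrix.det_pow]
    exact hdet.pow k
  · intro y
    rw [hσ]
    exact hcon k y
  · positivity
  · unfold R0P; positivity
  · intro j
    rw [hln]
    exact hPk.2.2.2.1 j
  · rw [hln]; exact h2
  · rw [hσ, hln]; exact h1
  · unfold LP
    exact Nat.le_floor (by simpa using hyd1)
  · intro j
    have e1 : (σ j).length = NN M k j := by
      have := congrFun hln j
      exact this
    rw [e1]
    have e2 := (abs_le.1 (hPk.2.2.1 j)).1
    have e3 := hlenk j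
    have e4 : ((LP δ (lam ^ k) : ℕ) : ℝ) ≤ (lam ^ k) ^ δ := Nat.floor_le (by positivity)
    have e5 : (2 * (LP δ (lam ^ k) : ℕ) : ℝ) ≤ (NN M k j : ℝ) := by linarith
    exact_mod_cast e5
  · rw [hln]; exact h3

end Pool.Agent.H811R3.PS
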