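import Pool.Agent.H811R3.PS.Defs5

/-!
# T1: a periodic point extends to a point of the subshift with address zero
-/

set_option autoImplicit false

open Finset MeasureTheory Filter

namespace Pool.Agent.H811R3.PS

private lemma T1_act_eq {d : ℕ} (A : Matrix (Fin d) (Fin d) ℤ) (y : Fin d → ℝ) :
    act A y = ((Int.castRingHom ℝ).mapMatrix A).mulVec y := by
  funext i
  simp [act, Matrix.mulVec, dotProduct]

private lemma T1_act_pow {d : ℕ} (A : Matrix (Fin d) (Fin d) ℤ) (k : ℕ) (y : Fin d → ℝ) :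
    act (A ^ (k + 1)) y = act A (act (A ^ k) y) := by
  rw [T1_act_eq, T1_act_eq, T1_act_eq, Matrix.mulVec_mulVec, pow_succ', map_mul]

private lemma T1_act_zero {d : ℕ} (A : Matrix (Fin d) (Fin d) ℤ) (y : Fin d → ℝ) :
    act (A ^ 0) y = y := by
  rw [T1_act_eq, pow_zero, map_one, Matrix.one_mulVec]

private lemma T1_prj_act_prj {d : ℕ} (A : Matrix (Fin d) (Fin d) ℤ) (Lam : ℝ) (f v : Fin d → ℝ)
    (hf : ∑ i, f i = 1) (hr : act A f = fun i => Lam * f i) :
    prj f (act A (prj f v)) = prj f (act A v) := by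
  have h1 : ∀ i, act A (prj f v) i = act A v i - (∑ j, v j) * (Lam * f i) := by
    intro i
    rw [← congrFun hr i]
    simp only [act, prj]
    rw [Finset.mul_sum, ← Finset.sum_sub_distrib]
    exact Finset.sum_congr rfl fun j _ => by ring
  funext i
  simp only [prj] at h1 ⊢
  rw [h1 i, Finset.sum_congr rfl (fun j _ => h1 j), Finset.sum_sub_distrib]
  rw [← Finset.mul_sum, ← Finset.mul_sum, hf]
  ring

/-! ### image of a bi-infinite word -/

private noncomputable def T1c {d : ℕ} (σ : Fin d → List (Fin d)) (y : ℤ → Fin d) (m : ℤ) : ℤ :=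
  (∑ s ∈ Finset.Ico 0 m, ((σ (y s)).length : ℤ)) - ∑ s ∈ Finset.Ico m 0, ((σ (y s)).length : ℤ)

private lemma T1c_zero {d : ℕ} (σ : Fin d → List (Fin d)) (y : ℤ → Fin d) : T1c σ y 0 = 0 := by
  simp [T1c]

private lemma T1c_succ {d : ℕ} (σ : Fin d → List (Fin d)) (y : ℤ → Fin d) (m : ℤ) :
    T1c σ y (m + 1) = T1c σ y m + ((σ (y m)).length : ℤ) := by
  unfold T1c
  rcases le_or_gt 0 m with hm | hm
  · have h1 : Finset.Ico (0 : ℤ) (m + 1) = insert m (Finset.Ico 0 m) := by
      ext s; simp only [Finset.mem_Ico, Finset.mem_insert]; omega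
    have h2 : Finset.Ico (m + 1) (0 : ℤ) = ∅ := by
      ext s; simp only [Finset.mem_Ico, Finset.notMem_empty, iff_false]; omega
    have h3 : Finset.Ico m (0 : ℤ) = ∅ := by
      ext s; simp only [Finset.mem_Ico, Finset.notMem_empty, iff_false]; omega
    rw [h1, h2, h3, Finset.sum_insert (by simp)]
    simp only [Finset.sum_empty]
    ring
  · have h1 : Finset.Ico m (0 : ℤ) = insert m (Finset.Ico (m + 1) 0) := by
      ext s; simp only [Finset.mem_Ico, Finset.mem_insert]; omega
    have h2 : Finset.Ico (0 : ℤ) (m + 1) = ∅ := by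
      ext s; simp only [Finset.mem_Ico, Finset.notMem_empty, iff_false]; omega
    have h3 : Finset.Ico (0 : ℤ) m = ∅ := by
      ext s; simp only [Finset.mem_Ico, Finset.notMem_empty, iff_false]; omega
    rw [h1, h2, h3, Finset.sum_insert (by simp)]
    simp only [Finset.sum_empty]
    ring

private lemma T1c_lt {d : ℕ} (σ : Fin d → List (Fin d)) (hσ : ∀ j, 2 ≤ (σ j).length)
    (y : ℤ → Fin d) : ∀ (m : ℤ) (k : ℕ), T1c σ y m + 2 * k ≤ T1c σ y (m + k) := by
  intro m k
  induction k with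
  | zero => simp
  | succ k ih =>
    have h1 := T1c_succ σ y (m + k)
    have h2 := hσ (y (m + k))
    have h3 : m + ((k + 1 : ℕ) : ℤ) = m + k + 1 := by push_cast; ring
    rw [h3, h1]
    push_cast
    omega

private lemma T1c_mono {d : ℕ} (σ : Fin d → List (Fin d)) (hσ : ∀ j, 2 ≤ (σ j).length)
    (y : ℤ → Fin d) {m m' : ℤ} (h : m ≤ m') : T1c σ y m ≤ T1c σ y m' := by
  have h1 := T1c_lt σ hσ y m (m' - m).toNat
  have h2 : m + ((m' - m).toNat : ℤ) = m' := by omega
  rw [h2] at h1
  omega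

private lemma T1c_ex {d : ℕ} (σ : Fin d → List (Fin d)) (hσ : ∀ j, 2 ≤ (σ j).length)
    (y : ℤ → Fin d) (n : ℤ) : ∃ m : ℤ, T1c σ y m ≤ n ∧ n < T1c σ y (m + 1) := by
  have hb : ∃ b : ℤ, ∀ z : ℤ, T1c σ y z ≤ n → z ≤ b := by
    refine ⟨max n 0, fun z hz => ?_⟩
    rcases le_or_gt z 0 with h | h
    · exact h.trans (le_max_right _ _)
    · have h1 := T1c_lt σ hσ y 0 z.toNat
      rw [T1c_zero] at h1
      have h2 : (0 : ℤ) + (z.toNat : ℤ) = z := by omega
      rw [h2] at h1
      have : z ≤ n := by omega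
      exact this.trans (le_max_left _ _)
  have he : ∃ z : ℤ, T1c σ y z ≤ n := by
    refine ⟨min n 0, ?_⟩
    have h1 := T1c_lt σ hσ y (min n 0) (-(min n 0)).toNat
    have h2 : min n 0 + ((-(min n 0)).toNat : ℤ) = 0 := by
      have : min n 0 ≤ 0 := min_le_right _ _
      omega
    rw [h2, T1c_zero] at h1
    have : min n 0 ≤ n := min_le_left _ _
    omega
  obtain ⟨m, hm1, hm2⟩ := Int.exists_greatest_of_bdd hb he
  refine ⟨m, hm1, ?_⟩
  by_contra hcon
  push Not at hcon
  have := hm2 _ hcon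
  omega

private noncomputable def T1S {d : ℕ} (σ : Fin d → List (Fin d)) (hσ : ∀ j, 2 ≤ (σ j).length)
    (y : ℤ → Fin d) (n : ℤ) : Fin d :=
  wd σ (y (T1c_ex σ hσ y n).choose) (n - T1c σ y (T1c_ex σ hσ y n).choose).toNat

private lemma T1S_letter {d : ℕ} (σ : Fin d → List (Fin d)) (hσ : ∀ j, 2 ≤ (σ j).length)
    (y : ℤ → Fin d) (m : ℤ) (t : ℕ) (ht : t < (σ (y m)).length) :
    T1S σ hσ y (T1c σ y m + t) = wd σ (y m) t := by
  unfold T1S
  set n := T1c σ y m + (t : ℤ) with hn
  have hspec := (T1c_ex σ hσ y n).choose_spec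
  set m' := (T1c_ex σ hσ y n).choose with hm'
  have h1 : m' = m := by
    have h2 := T1c_succ σ y m
    rcases lt_trichotomy m' m with h | h | h
    · have := T1c_mono σ hσ y (show m' + 1 ≤ m by omega)
      omega
    · exact h
    · have := T1c_mono σ hσ y (show m + 1 ≤ m' by omega)
      omega
  rw [h1]
  congr 1
  omega

private lemma T1S_des {d : ℕ} (σ : Fin d → List (Fin d)) (hσ : ∀ j, 2 ≤ (σ j).length)
    (y : ℤ → Fin d) : Des σ (T1S σ hσ y) y (T1c σ y) where
  step := fun m => T1c_succ σ y m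
  zero := by
    refine ⟨(T1c_zero σ y).le, ?_⟩
    have h1 := T1c_lt σ hσ y 0 1
    rw [T1c_zero] at h1
    simp only [zero_add, Nat.cast_one] at h1
    omega
  letter := fun m t ht => T1S_letter σ hσ y m t ht

/-- prefix of a bi-infinite word -/
private def T1pre {d : ℕ} (y : ℤ → Fin d) (N : ℕ) : List (Fin d) :=
  (List.range N).map fun s : ℕ => y s

private lemma T1pre_len {d : ℕ} (y : ℤ → Fin d) (N : ℕ) : (T1pre y N).length = N := by
  simp [T1pre]

private lemma T1S_pre {d : ℕ} (σ : Fin d → List (Fin d)) (hσ : ∀ j, 2 ≤ (σ j).length)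
    (y : ℤ → Fin d) (N : ℕ) :
    T1pre (T1S σ hσ y) (T1c σ y N).toNat = app σ (T1pre y N) := by
  induction N with
  | zero => simp [T1c_zero, T1pre, app]
  | succ N ih =>
    have h1 := T1c_succ σ y N
    have h0 : 0 ≤ T1c σ y N := by
      have := T1c_mono σ hσ y (show (0 : ℤ) ≤ N by omega)
      rw [T1c_zero] at this
      exact this
    have h2 : (T1c σ y ((N + 1 : ℕ) : ℤ)).toNat = (T1c σ y N).toNat + (σ (y N)).length := by
      push_cast
      rw [h1]
      omega
    have h3 : T1pre y (N + 1) = T1pre y N ++ [y N] := by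
      simp [T1pre, List.range_succ]
    rw [h2, h3]
    have h4 : app σ (T1pre y N ++ [y N]) = app σ (T1pre y N) ++ σ (y N) := by
      simp [app]
    rw [h4, ← ih]
    have h5 : T1pre (T1S σ hσ y) ((T1c σ y N).toNat + (σ (y N)).length) =
        T1pre (T1S σ hσ y) (T1c σ y N).toNat ++
          (List.range (σ (y N)).length).map
            (fun t : ℕ => T1S σ hσ y (((T1c σ y N).toNat + t : ℕ) : ℤ)) := by
      simp only [T1pre]
      rw [List.range_add, List.map_append, List.map_map]
      rfl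
    rw [h5]
    congr 1
    apply List.ext_getElem
    · simp
    · intro t ht1 ht2
      rw [List.getElem_map, List.getElem_range]
      have h6 : (((T1c σ y N).toNat + t : ℕ) : ℤ) = T1c σ y N + t := by
        push_cast
        omega
      rw [h6, T1S_letter σ hσ y N t ht2]
      unfold wd
      rw [List.getD_eq_getElem _ _ ht2]

private lemma T1_iter_pre {d : ℕ} (σ : Fin d → List (Fin d)) (hσ : ∀ j, 2 ≤ (σ j).length)
    (y : ℤ → Fin d) (k : ℕ) : ∃ N : ℕ, k + 1 ≤ N ∧
      T1pre ((T1S σ hσ)^[k] y) N = (app σ)^[k] [y 0] := by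
  induction k with
  | zero => exact ⟨1, le_refl _, by simp [T1pre]⟩
  | succ k ih =>
    obtain ⟨N, hN, hp⟩ := ih
    rw [Function.iterate_succ_apply', Function.iterate_succ_apply', ← hp]
    refine ⟨(T1c σ ((T1S σ hσ)^[k] y) N).toNat, ?_, T1S_pre σ hσ _ N⟩
    have h1 := T1c_lt σ hσ ((T1S σ hσ)^[k] y) 0 N
    simp only [T1c_zero, zero_add] at h1
    omega

private lemma T1_per {d : ℕ} (σ : Fin d → List (Fin d)) (u : ℕ → Fin d) (m : ℕ)
    (h : ∀ N : ℕ, ∃ N' : ℕ,
      (app σ)^[m] (List.ofFn fun s : Fin N => u s) = List.ofFn fun s : Fin N' => u s) (j : ℕ) :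
    ∃ N' : ℕ, (app σ)^[m * j] [u 0] = List.ofFn fun s : Fin N' => u s := by
  induction j with
  | zero => exact ⟨1, by simp⟩
  | succ j ih =>
    obtain ⟨N, hN⟩ := ih
    obtain ⟨N', hN'⟩ := h N
    refine ⟨N', ?_⟩
    rw [Nat.mul_succ, Nat.add_comm, Function.iterate_add_apply, hN, hN']

theorem t1_holds : StT1 := by
  intro hC1 _ d hd σ Lam l f C θ T hinc hD hC hT u hu
  obtain ⟨m, hm, hper⟩ := hu
  obtain ⟨hC0, hθ0, hθ1, hcon⟩ := hC
  obtain ⟨c1, c2, _, c4, c5⟩ := hC1 d hd σ hinc
  -- every letter occurs in every image, lengths at least two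
  have hmem : ∀ i j : Fin d, i ∈ σ j := by
    intro i j
    have h1 := hinc i j
    unfold inc at h1
    have h2 : 0 < (σ j).count i := by
      have : (1 : ℤ) ≤ ((σ j).count i : ℤ) := h1
      omega
    exact List.count_pos_iff.1 h2
  have hσ : ∀ j, 2 ≤ (σ j).length := by
    intro j
    have h1 : (univ : Finset (Fin d)) ⊆ (σ j).toFinset := by
      intro i _
      exact List.mem_toFinset.2 (hmem i j)
    have h2 := Finset.card_le_card h1
    rw [Finset.card_univ, Fintype.card_fin] at h2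
    exact hd.trans (h2.trans (List.toFinset_card_le _))
  -- a point with first letter `u 0`
  obtain ⟨y, hy, hy0⟩ : ∃ y ∈ XS σ, y 0 = u 0 := by
    obtain ⟨x, hx⟩ := c5
    obtain ⟨x1, hx1, c, hdes⟩ := c1 x hx
    obtain ⟨t, ht, hte⟩ := List.getElem_of_mem (hmem (u 0) (x1 0))
    refine ⟨fun n => x (n + (c 0 + t)), ?_, ?_⟩
    · intro a n
      obtain ⟨b, k, hk, hin⟩ := hx (a + (c 0 + t)) n
      refine ⟨b, k, hk, ?_⟩
      have : (List.ofFn fun s : Fin n => x (a + (s : ℕ) + (c 0 + t))) =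
          List.ofFn fun s : Fin n => x (a + (c 0 + t) + (s : ℕ)) := by
        congr 1
        funext s
        congr 1
        ring
      rw [this]
      exact hin
    · have := hdes.letter 0 t ht
      simp only [zero_add]
      rw [this]
      unfold wd
      rw [List.getD_eq_getElem _ _ ht, hte]
  -- iterated images
  have hXS : ∀ z ∈ XS σ, T1S σ hσ z ∈ XS σ := fun z hz => c2 z hz _ _ (T1S_des σ hσ z)
  have hXSk : ∀ k : ℕ, (T1S σ hσ)^[k] y ∈ XS σ := by
    intro k
    induction k with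
    | zero => exact hy
    | succ k ih =>
      rw [Function.iterate_succ_apply']
      exact hXS _ ih
  have hTS : ∀ z ∈ XS σ, T (T1S σ hσ z) = prj f (act (inc σ) (T z)) := by
    intro z hz
    have h1 := hT.des (T1S σ hσ z) (hXS z hz) z hz _ (T1S_des σ hσ z)
    rw [h1, T1c_zero]
    have h2 : prj f (ic (cnt (wd σ (z 0)) 0 (-(0 : ℤ)).toNat)) = 0 := by
      funext i
      simp [prj, ic, cnt]
    rw [h2, zero_add]
  have hTk : ∀ k : ℕ, T ((T1S σ hσ)^[k] y) = prj f (act ((inc σ) ^ k) (T y)) := by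
    intro k
    induction k with
    | zero =>
      rw [T1_act_zero]
      funext i
      simp only [Function.iterate_zero, id_eq, prj]
      rw [hT.sum0 y hy]
      ring
    | succ k ih =>
      rw [Function.iterate_succ_apply', hTS _ (hXSk k), ih,
        T1_prj_act_prj (inc σ) Lam f _ hD.fsum hD.right, T1_act_pow]
  -- a convergent subsequence
  obtain ⟨x, hx, φ, hφ, hlim⟩ := c4.tendsto_subseq (x := fun j => (T1S σ hσ)^[m * j] y)
    (fun j => hXSk _)
  refine ⟨x, hx, fun s => ?_, ?_⟩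
  · have h1 : Tendsto (fun j => (T1S σ hσ)^[m * φ j] y (s : ℤ)) atTop (nhds (x (s : ℤ))) :=
      (tendsto_pi_nhds.1 hlim) (s : ℤ)
    have h2 : Tendsto (fun j => (T1S σ hσ)^[m * φ j] y (s : ℤ)) atTop (nhds (u s)) := by
      refine tendsto_const_nhds.congr' ?_
      filter_upwards [eventually_ge_atTop s] with j hj
      obtain ⟨N, hN, hp⟩ := T1_iter_pre σ hσ y (m * φ j)
      obtain ⟨N', hN'⟩ := T1_per σ u m hper (φ j)
      rw [hy0, hN'] at hp
      have hlen : N = N' := by
        have := congrArg List.length hp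
        rw [T1pre_len, List.length_ofFn] at this
        exact this
      subst hlen
      have hsN : s < N := by
        have h3 : j ≤ φ j := hφ.id_le j
        have h4 : φ j ≤ m * φ j := Nat.le_mul_of_pos_left _ hm
        omega
      have h5 := congrArg (fun L => L[s]?) hp
      simp only [T1pre] at h5
      rw [List.getElem?_map, List.getElem?_range hsN, List.getElem?_ofFn] at h5
      simp only [hsN, dite_true, Option.map_some, Option.some.injEq] at h5
      exact h5.symm
    exact tendsto_nhds_unique h1 h2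
  · have h1 : Tendsto (fun j => T ((T1S σ hσ)^[m * φ j] y)) atTop (nhds (T x)) := by
      have h2 : Tendsto (fun j => (T1S σ hσ)^[m * φ j] y) atTop (nhdsWithin x (XS σ)) := by
        rw [tendsto_nhdsWithin_iff]
        exact ⟨hlim, Filter.Eventually.of_forall fun j => hXSk _⟩
      exact (hT.cont x hx).tendsto.comp h2
    have h2 : Tendsto (fun j => T ((T1S σ hσ)^[m * φ j] y)) atTop (nhds 0) := by
      rw [tendsto_zero_iff_norm_tendsto_zero]
      have h3 : Tendsto (fun j : ℕ => C * θ ^ j * ‖prj f (T y)‖) atTop (nhds 0) := by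
        have h4 := (tendsto_pow_atTop_nhds_zero_of_lt_one hθ0.le hθ1).const_mul C
        have h5 := h4.mul_const ‖prj f (T y)‖
        simpa using h5
      refine squeeze_zero (fun j => norm_nonneg _) (fun j => ?_) h3
      rw [hTk]
      refine (hcon _ _).trans ?_
      have h4 : θ ^ (m * φ j) ≤ θ ^ j := by
        refine pow_le_pow_of_le_one hθ0.le hθ1.le ?_
        exact (hφ.id_le j).trans (Nat.le_mul_of_pos_left _ hm)
      exact mul_le_mul_of_nonneg_right (mul_le_mul_of_nonneg_left h4 hC0.le) (norm_nonneg _)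
    exact tendsto_nhds_unique h1 h2

end Pool.Agent.H811R3.PS
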