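import Pool.Agent.H811R3.PS.Defs5

/-!
# T2: the subtile is the image of a cylinder under the address map
-/

set_option autoImplicit false

open Finset MeasureTheory Filter

namespace Pool.Agent.H811R3.PS

private lemma T2_per {d : ℕ} (σ : Fin d → List (Fin d)) (u : ℕ → Fin d) (m : ℕ)
    (h : ∀ N : ℕ, ∃ N' : ℕ,
      (app σ)^[m] (List.ofFn fun s : Fin N => u s) = List.ofFn fun s : Fin N' => u s) (j : ℕ) :
    ∃ N' : ℕ, (app σ)^[m * j] [u 0] = List.ofFn fun s : Fin N' => u s := by
  induction j with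
  | zero => exact ⟨1, by simp⟩
  | succ j ih =>
    obtain ⟨N, hN⟩ := ih
    obtain ⟨N', hN'⟩ := h N
    refine ⟨N', ?_⟩
    rw [Nat.mul_succ, Nat.add_comm, Function.iterate_add_apply, hN, hN']

private lemma T2_app_append {d : ℕ} (σ : Fin d → List (Fin d)) (a b : List (Fin d)) :
    app σ (a ++ b) = app σ a ++ app σ b := by simp [app]

private lemma T2_app_infix {d : ℕ} (σ : Fin d → List (Fin d)) {a b : List (Fin d)}
    (h : a <:+: b) : app σ a <:+: app σ b := by
  obtain ⟨s, t, rfl⟩ := h
  rw [T2_app_append, T2_app_append]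
  exact ⟨_, _, rfl⟩

private lemma T2_iter_infix {d : ℕ} (σ : Fin d → List (Fin d)) (k : ℕ) {a b : List (Fin d)}
    (h : a <:+: b) : (app σ)^[k] a <:+: (app σ)^[k] b := by
  induction k with
  | zero => exact h
  | succ k ih =>
    rw [Function.iterate_succ_apply', Function.iterate_succ_apply']
    exact T2_app_infix σ ih

private lemma T2_mem_iter {d : ℕ} (σ : Fin d → List (Fin d)) (h : ∀ i j : Fin d, i ∈ σ j)
    (b c : Fin d) (k : ℕ) : b ∈ (app σ)^[k + 1] [c] := by
  induction k generalizing b with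
  | zero =>
    simp only [zero_add, Function.iterate_one, app]
    rw [List.mem_flatMap]
    exact ⟨c, by simp, h b c⟩
  | succ k ih =>
    rw [Function.iterate_succ_apply']
    unfold app
    rw [List.mem_flatMap]
    exact ⟨b, ih b, h b b⟩

private lemma T2_pc_prj {d : ℕ} (l f v : Fin d → ℝ) (h : dot l f = 1) :
    pc l f (prj f v) = pc l f v := by
  funext i
  unfold pc
  rw [h, div_one, div_one]
  have h1 : dot l (prj f v) = dot l v - (∑ j, v j) * dot l f := by
    unfold dot prj
    rw [Finset.mul_sum, ← Finset.sum_sub_distrib]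
    exact Finset.sum_congr rfl fun j _ => by ring
  rw [h1, h]
  unfold prj
  ring

private lemma T2_pc_cont {d : ℕ} (l f : Fin d → ℝ) : Continuous (pc l f) := by
  unfold pc dot
  fun_prop

private lemma T2_sh {d : ℕ} {σ : Fin d → List (Fin d)} {x : ℤ → Fin d} (hx : x ∈ XS σ) (N : ℤ) :
    (fun n => x (n + N)) ∈ XS σ := by
  intro a n
  obtain ⟨b, k, hk, hin⟩ := hx (a + N) n
  refine ⟨b, k, hk, ?_⟩
  have : (List.ofFn fun s : Fin n => x (a + (s : ℕ) + N)) =
      List.ofFn fun s : Fin n => x (a + N + (s : ℕ)) := by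
    congr 1
    funext s
    congr 1
    ring
  rw [this]
  exact hin

private lemma T2_T {d : ℕ} {σ : Fin d → List (Fin d)} {f : Fin d → ℝ}
    {T : (ℤ → Fin d) → Fin d → ℝ} (hT : Addr σ f T) {x : ℤ → Fin d} (hx : x ∈ XS σ)
    {u : ℕ → Fin d} (hu : ∀ s : ℕ, x s = u s) (h0 : T x = 0) (N : ℕ) :
    T (fun n => x (n + N)) = prj f (ic (cnt u 0 N)) := by
  induction N with
  | zero =>
    simp only [Nat.cast_zero, add_zero]
    rw [h0]
    funext i
    simp [prj, ic, cnt]
  | succ N ih =>
    have h1 : (fun n : ℤ => x (n + ((N + 1 : ℕ) : ℤ))) = sh (fun n => x (n + N)) := by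
      funext n
      unfold sh
      congr 1
      push_cast
      ring
    rw [h1, hT.shift _ (T2_sh hx N), ih]
    simp only [zero_add]
    rw [hu N]
    have h2 : ic (cnt u 0 (N + 1)) = ic (cnt u 0 N) + ic (Pi.single (u N) 1) := by
      funext i
      simp only [ic, cnt, Pi.add_apply]
      rw [Finset.sum_Ico_succ_top (Nat.zero_le N)]
      push_cast
      congr 1
      by_cases hi : u N = i
      · subst hi; simp
      · rw [if_neg hi, Pi.single_eq_of_ne (Ne.symm hi)]
        simp
    rw [h2]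
    funext i
    simp only [prj, Pi.add_apply, Finset.sum_add_distrib]
    ring

theorem t2_holds : StT2 := by
  intro hC1 d hd σ Lam l f T hinc hD hT u hu hex i
  obtain ⟨x, hx, hxu, hx0⟩ := hex
  obtain ⟨m, hm, hper⟩ := hu
  obtain ⟨_, _, _, c4, _⟩ := hC1 d hd σ hinc
  have hmem : ∀ i j : Fin d, i ∈ σ j := by
    intro i j
    have h1 := hinc i j
    unfold inc at h1
    have h2 : 0 < (σ j).count i := by
      have : (1 : ℤ) ≤ ((σ j).count i : ℤ) := h1
      omega
    exact List.count_pos_iff.1 h2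
  apply Set.Subset.antisymm
  · -- closed set
    have hK : IsCompact (pc l f '' (T '' (XS σ ∩ {z | z 0 = i}))) := by
      refine IsCompact.image ?_ (T2_pc_cont l f)
      refine IsCompact.image_of_continuousOn ?_ (hT.cont.mono Set.inter_subset_left)
      refine c4.inter_right ?_
      exact isClosed_eq (continuous_apply 0) continuous_const
    have hsub : {y | ∃ N : ℕ, u N = i ∧ y = pc l f (ic (cnt u 0 N))} ⊆
        pc l f '' (T '' (XS σ ∩ {z | z 0 = i})) := by
      rintro y ⟨N, hN, rfl⟩
      refine ⟨_, ⟨fun n => x (n + N), ⟨T2_sh hx N, ?_⟩, rfl⟩, ?_⟩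
      · show x (0 + N) = i
        rw [zero_add, hxu, hN]
      · rw [T2_T hT hx hxu hx0, T2_pc_prj l f _ hD.lf]
    intro y hy
    have h1 := closure_minimal hsub hK.isClosed hy
    obtain ⟨_, ⟨z, ⟨hz, hz0⟩, rfl⟩, rfl⟩ := h1
    exact ⟨z, hz, hz0, rfl⟩
  · rintro y ⟨ξ, hξ, hξ0, rfl⟩
    -- windows of ξ occur in u
    have hwin : ∀ a : ℕ, ∃ N : ℕ, ∀ t : ℤ, |t| ≤ a → x (t + N) = ξ t := by
      intro a
      obtain ⟨b, k, hk, hin⟩ := hξ (-(a : ℤ)) (2 * a + 1)
      obtain ⟨N', hN'⟩ := T2_per σ u m hper (k + 1)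
      have h1 : (app σ)^[k] [b] <:+: (app σ)^[m * (k + 1)] [u 0] := by
        have h2 : m * (k + 1) = k + ((m * (k + 1) - k - 1) + 1) := by
          have : k + 1 ≤ m * (k + 1) := Nat.le_mul_of_pos_left _ hm
          omega
        rw [h2, Function.iterate_add_apply]
        apply T2_iter_infix
        have h3 := T2_mem_iter σ hmem b (u 0) (m * (k + 1) - k - 1)
        obtain ⟨s, t, hst⟩ := List.append_of_mem h3
        exact ⟨s, t, by rw [hst]; simp⟩
      rw [hN'] at h1
      obtain ⟨p, q, hpq⟩ := hin.trans h1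
      refine ⟨p.length + a, fun t ht => ?_⟩
      have ht' := abs_le.1 ht
      have h4 : ∃ r : ℕ, (r : ℤ) = t + a ∧ r < 2 * a + 1 := ⟨(t + a).toNat, by omega, by omega⟩
      obtain ⟨r, hr, hr2⟩ := h4
      have h5 := congrArg (fun L => L[p.length + r]?) hpq
      rw [List.append_assoc, List.getElem?_append_right (by omega)] at h5
      rw [List.getElem?_append_left (by simp; omega)] at h5
      rw [List.getElem?_ofFn, List.getElem?_ofFn] at h5
      have h6 : p.length + r - p.length = r := by omega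
      simp only [h6, hr2, dite_true] at h5
      split_ifs at h5 with h7
      simp only [Option.some.injEq] at h5
      have h8 : t + ((p.length + a : ℕ) : ℤ) = ((p.length + r : ℕ) : ℤ) := by
        push_cast; omega
      rw [h8, hxu, ← h5]
      congr 1
      omega
    choose N hN using hwin
    have hlim : Tendsto (fun a : ℕ => fun n : ℤ => x (n + N a)) atTop (nhds ξ) := by
      rw [tendsto_pi_nhds]
      intro n
      refine tendsto_const_nhds.congr' ?_
      filter_upwards [eventually_ge_atTop n.natAbs] with a ha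
      rw [hN a n (by rw [Int.abs_eq_natAbs]; exact_mod_cast ha)]
    have hlim2 : Tendsto (fun a : ℕ => fun n : ℤ => x (n + N a)) atTop (nhdsWithin ξ (XS σ)) := by
      rw [tendsto_nhdsWithin_iff]
      exact ⟨hlim, Filter.Eventually.of_forall fun a => T2_sh hx _⟩
    have hlim3 : Tendsto (fun a : ℕ => pc l f (T (fun n : ℤ => x (n + N a)))) atTop
        (nhds (pc l f (T ξ))) :=
      ((T2_pc_cont l f).tendsto _).comp ((hT.cont ξ hξ).tendsto.comp hlim2)
    unfold Tile
    refine mem_closure_of_tendsto hlim3 (Filter.Eventually.of_forall fun a => ?_)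
    refine ⟨N a, ?_, ?_⟩
    · have h1 := hN a 0 (by simp)
      rw [zero_add, hxu] at h1
      rw [h1, hξ0]
    · rw [T2_T hT hx hxu hx0, T2_pc_prj l f _ hD.lf]

end Pool.Agent.H811R3.PS
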