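import Pool.Agent.H811R3.PS.Defs5

/-!
# T3: the tiling theorem
-/

set_option autoImplicit false

open Finset MeasureTheory Filter

namespace Pool.Agent.H811R3.PS

private lemma T3_dot_add {d : ℕ} (l y z : Fin d → ℝ) : dot l (y + z) = dot l y + dot l z := by
  unfold dot
  rw [← Finset.sum_add_distrib]
  exact Finset.sum_congr rfl fun i _ => by rw [Pi.add_apply]; ring

private lemma T3_dot_sub {d : ℕ} (l y z : Fin d → ℝ) : dot l (y - z) = dot l y - dot l z := by
  unfold dot
  rw [← Finset.sum_sub_distrib]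
  exact Finset.sum_congr rfl fun i _ => by rw [Pi.sub_apply]; ring

private lemma T3_dot_smul {d : ℕ} (l y : Fin d → ℝ) (c : ℝ) : dot l (c • y) = c * dot l y := by
  unfold dot
  rw [Finset.mul_sum]
  exact Finset.sum_congr rfl fun i _ => by rw [Pi.smul_apply, smul_eq_mul]; ring

private lemma T3_dot_le {d : ℕ} (l y : Fin d → ℝ) : |dot l y| ≤ (∑ i, |l i|) * ‖y‖ := by
  unfold dot
  refine (Finset.abs_sum_le_sum_abs _ _).trans ?_
  rw [Finset.sum_mul]
  refine Finset.sum_le_sum fun i _ => ?_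
  rw [abs_mul]
  exact mul_le_mul_of_nonneg_left (norm_le_pi_norm y i) (abs_nonneg _)

private lemma T3_pc_eq {d : ℕ} (l f y : Fin d → ℝ) (h : dot l f = 1) :
    pc l f y = y - dot l y • f := by
  funext i
  simp [pc, h]

private lemma T3_prj_eq {d : ℕ} (f y : Fin d → ℝ) : prj f y = y - (∑ j, y j) • f := by
  funext i
  simp [prj]

private lemma T3_prj_add {d : ℕ} (f y z : Fin d → ℝ) : prj f (y + z) = prj f y + prj f z := by
  funext i
  simp only [prj, Pi.add_apply, Finset.sum_add_distrib]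
  ring

private lemma T3_prj_sub {d : ℕ} (f y z : Fin d → ℝ) : prj f (y - z) = prj f y - prj f z := by
  funext i
  simp only [prj, Pi.sub_apply, Finset.sum_sub_distrib]
  ring

private lemma T3_prj_smul_f {d : ℕ} (f : Fin d → ℝ) (c : ℝ) (h : ∑ i, f i = 1) :
    prj f (c • f) = 0 := by
  funext i
  simp only [prj, Pi.smul_apply, smul_eq_mul, Pi.zero_apply]
  rw [← Finset.mul_sum, h]
  ring

private lemma T3_prj_of_sum {d : ℕ} (f y : Fin d → ℝ) (h : ∑ i, y i = 0) : prj f y = y := by
  rw [T3_prj_eq, h]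
  simp

private lemma T3_prj_pc {d : ℕ} (l f y : Fin d → ℝ) (h : dot l f = 1) (hf : ∑ i, f i = 1) :
    prj f (pc l f y) = prj f y := by
  rw [T3_pc_eq l f y h, T3_prj_sub, T3_prj_smul_f f _ hf, sub_zero]

private lemma T3_pc_prj {d : ℕ} (l f y : Fin d → ℝ) (h : dot l f = 1) :
    pc l f (prj f y) = pc l f y := by
  rw [T3_pc_eq l f _ h, T3_pc_eq l f _ h, T3_prj_eq, T3_dot_sub, T3_dot_smul, h]
  module

private lemma T3_pc_sub {d : ℕ} (l f y z : Fin d → ℝ) (h : dot l f = 1) :
    pc l f (y - z) = pc l f y - pc l f z := by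
  rw [T3_pc_eq l f _ h, T3_pc_eq l f _ h, T3_pc_eq l f _ h, T3_dot_sub]
  module

private lemma T3_pc_of_dot {d : ℕ} (l f y : Fin d → ℝ) (h : dot l f = 1) (hy : dot l y = 0) :
    pc l f y = y := by
  rw [T3_pc_eq l f _ h, hy]
  simp

private lemma T3_ic_add {d : ℕ} (v w : Fin d → ℤ) : ic (v + w) = ic v + ic w := by
  funext i; simp [ic]

private lemma T3_ic_sub {d : ℕ} (v w : Fin d → ℤ) : ic (v - w) = ic v - ic w := by
  funext i; simp [ic]

private lemma T3_ic_neg {d : ℕ} (v : Fin d → ℤ) : ic (-v) = - ic v := by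
  funext i; simp [ic]

/-! ### strands -/

private lemma T3_Pt_zero {d : ℕ} (x : ℤ → Fin d) : Pt x 0 = 0 := by
  funext i
  simp [Pt]

private lemma T3_Pt_succ {d : ℕ} (x : ℤ → Fin d) (m : ℤ) :
    Pt x (m + 1) = Pt x m + Pi.single (x m) 1 := by
  funext i
  have hsing : (Pi.single (x m) 1 : Fin d → ℤ) i = if x m = i then 1 else 0 := by
    rw [Pi.single_apply]
    simp only [eq_comm]
  rw [Pi.add_apply, hsing]
  unfold Pt
  rcases le_or_gt 0 m with hm | hm
  · have h1 : Finset.Ico (0 : ℤ) (m + 1) = insert m (Finset.Ico 0 m) := by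
      ext s; simp only [Finset.mem_Ico, Finset.mem_insert]; omega
    have h2 : Finset.Ico (m + 1) (0 : ℤ) = ∅ := by
      ext s; simp only [Finset.mem_Ico, Finset.notMem_empty, iff_false]; omega
    have h3 : Finset.Ico m (0 : ℤ) = ∅ := by
      ext s; simp only [Finset.mem_Ico, Finset.notMem_empty, iff_false]; omega
    rw [h1, h2, h3, Finset.sum_insert (by simp)]
    simp only [Finset.sum_empty]
    ring
  · have h1 : Finset.Ico m (0 : ℤ) = insert m (Finset.Ico (m + 1) 0) := by
      ext s; simp only [Finset.mem_Ico, Finset.mem_insert]; omega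
    have h2 : Finset.Ico (0 : ℤ) (m + 1) = ∅ := by
      ext s; simp only [Finset.mem_Ico, Finset.notMem_empty, iff_false]; omega
    have h3 : Finset.Ico (0 : ℤ) m = ∅ := by
      ext s; simp only [Finset.mem_Ico, Finset.notMem_empty, iff_false]; omega
    rw [h1, h2, h3, Finset.sum_insert (by simp)]
    simp only [Finset.sum_empty]
    ring

private lemma T3_const {α : Type*} (g : ℤ → α) (h : ∀ m, g (m + 1) = g m) (m : ℤ) :
    g m = g 0 := by
  induction m using Int.induction_on with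
  | zero => rfl
  | succ i ih => rw [h, ih]
  | pred i ih =>
    rw [← ih]
    have := h (-(i : ℤ) - 1)
    rw [← this]
    congr 1
    ring

private lemma T3_Pt_sum {d : ℕ} (x : ℤ → Fin d) (m : ℤ) : ∑ i, Pt x m i = m := by
  have h := T3_const (fun m => ∑ i, Pt x m i - m) (fun m => by
    simp only [T3_Pt_succ, Pi.add_apply, Finset.sum_add_distrib]
    rw [Finset.sum_pi_single']
    simp only [Finset.mem_univ, if_true]
    ring) m
  simp only [T3_Pt_zero] at h
  simp at h
  linarith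

private lemma T3_sh {d : ℕ} {σ : Fin d → List (Fin d)} {x : ℤ → Fin d} (hx : x ∈ XS σ) (N : ℤ) :
    (fun n => x (n + N)) ∈ XS σ := by
  intro a n
  obtain ⟨b, k, hk, hin⟩ := hx (a + N) n
  refine ⟨b, k, hk, ?_⟩
  have : (List.ofFn fun s : Fin n => x (a + (s : ℕ) + N)) =
      List.ofFn fun s : Fin n => x (a + N + (s : ℕ)) := by
    congr 1
    funext s
    congr 1
    ring
  rw [this]
  exact hin

private lemma T3_T {d : ℕ} {σ : Fin d → List (Fin d)} {f : Fin d → ℝ}
    {T : (ℤ → Fin d) → Fin d → ℝ} (hT : Addr σ f T) {x : ℤ → Fin d} (hx : x ∈ XS σ) (m : ℤ) :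
    T (fun n => x (n + m)) = T x + prj f (ic (Pt x m)) := by
  have h := T3_const (fun m => T (fun n => x (n + m)) - prj f (ic (Pt x m))) (fun m => by
    have h1 : (fun n : ℤ => x (n + (m + 1))) = sh (fun n => x (n + m)) := by
      funext n
      unfold sh
      congr 1
      ring
    rw [h1, hT.shift _ (T3_sh hx m), T3_Pt_succ, T3_ic_add, T3_prj_add]
    simp only [zero_add]
    abel) m
  simp only [T3_Pt_zero, add_zero] at h
  have h0 : prj f (ic (0 : Fin d → ℤ)) = 0 := by
    funext i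
    simp [prj, ic]
  rw [h0, sub_zero] at h
  have hx' : (fun n => x n) = x := rfl
  rw [hx'] at h
  rw [← h]
  abel

private lemma T3_q_succ {d : ℕ} (l : Fin d → ℝ) (x : ℤ → Fin d) (m : ℤ) :
    dot l (ic (Pt x (m + 1))) = dot l (ic (Pt x m)) + l (x m) := by
  rw [T3_Pt_succ, T3_ic_add, T3_dot_add]
  congr 1
  unfold dot ic
  simp [Pi.single_apply]

private lemma T3_q_mono {d : ℕ} (l : Fin d → ℝ) (x : ℤ → Fin d) (δ : ℝ) (hδ : ∀ i, δ ≤ l i)
    (m : ℤ) (k : ℕ) : dot l (ic (Pt x m)) + δ * k ≤ dot l (ic (Pt x (m + k))) := by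
  induction k with
  | zero => simp
  | succ k ih =>
    have h1 := T3_q_succ l x (m + k)
    have h2 : m + ((k + 1 : ℕ) : ℤ) = m + k + 1 := by push_cast; ring
    rw [h2, h1]
    have h3 := hδ (x (m + k))
    push_cast
    linarith

private lemma T3_q_le {d : ℕ} (l : Fin d → ℝ) (x : ℤ → Fin d) (hl : ∀ i, 0 < l i) {m m' : ℤ}
    (h : m ≤ m') : dot l (ic (Pt x m)) ≤ dot l (ic (Pt x m')) := by
  have h1 := T3_q_mono l x 0 (fun i => (hl i).le) m (m' - m).toNat
  have h2 : m + ((m' - m).toNat : ℤ) = m' := by omega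
  rw [h2] at h1
  linarith

private lemma T3_q_zero {d : ℕ} (l : Fin d → ℝ) (x : ℤ → Fin d) :
    dot l (ic (Pt x 0)) = 0 := by
  rw [T3_Pt_zero]
  simp [dot, ic]

private lemma T3_q_ex {n : ℕ} (l : Fin (n + 1) → ℝ) (x : ℤ → Fin (n + 1)) (hl : ∀ i, 0 < l i)
    (α : ℝ) : ∃ m : ℤ, dot l (ic (Pt x m)) ≤ α ∧ α < dot l (ic (Pt x (m + 1))) := by
  obtain ⟨i0, hi0⟩ : ∃ i, ∀ j, l i ≤ l j := Finite.exists_min l
  set δ := l i0 with hδ
  have hδ0 : 0 < δ := hl i0
  have hb : ∃ b : ℤ, ∀ z : ℤ, dot l (ic (Pt x z)) ≤ α → z ≤ b := by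
    refine ⟨max ⌈α / δ⌉ 0, fun z hz => ?_⟩
    rcases le_or_gt z 0 with h | h
    · exact h.trans (le_max_right _ _)
    · refine le_trans ?_ (le_max_left _ _)
      have h1 := T3_q_mono l x δ hi0 0 z.toNat
      rw [T3_q_zero, zero_add] at h1
      have h2 : (0 : ℤ) + (z.toNat : ℤ) = z := by omega
      rw [h2] at h1
      have h3 : ((z.toNat : ℕ) : ℝ) = (z : ℝ) := by
        have h4 : ((z.toNat : ℕ) : ℤ) = z := Int.toNat_of_nonneg h.le
        exact_mod_cast h4
      rw [h3] at h1
      have h5 : (z : ℝ) ≤ α / δ := by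
        rw [le_div_iff₀ hδ0]
        linarith
      have h6 : (z : ℝ) ≤ ⌈α / δ⌉ := h5.trans (Int.le_ceil _)
      exact_mod_cast h6
  have he : ∃ z : ℤ, dot l (ic (Pt x z)) ≤ α := by
    refine ⟨min ⌊α / δ⌋ 0, ?_⟩
    set z := min ⌊α / δ⌋ 0 with hz
    have hz0 : z ≤ 0 := min_le_right _ _
    have hz1 : z ≤ ⌊α / δ⌋ := min_le_left _ _
    have h1 := T3_q_mono l x δ hi0 z (-z).toNat
    have h2 : z + ((-z).toNat : ℤ) = 0 := by omega
    rw [h2, T3_q_zero] at h1
    have h3 : (((-z).toNat : ℕ) : ℝ) = (-z : ℝ) := by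
      have h4 : (((-z).toNat : ℕ) : ℤ) = -z := Int.toNat_of_nonneg (by omega)
      exact_mod_cast h4
    rw [h3] at h1
    have h5 : (z : ℝ) ≤ α / δ := by
      have : (z : ℝ) ≤ (⌊α / δ⌋ : ℝ) := by exact_mod_cast hz1
      exact this.trans (Int.floor_le _)
    rw [le_div_iff₀ hδ0] at h5
    linarith
  obtain ⟨m, hm1, hm2⟩ := Int.exists_greatest_of_bdd hb he
  refine ⟨m, hm1, ?_⟩
  by_contra hcon
  push Not at hcon
  have := hm2 _ hcon
  omega

/-! ### measure -/

private lemma T3_null {n : ℕ} (Z : Set (Fin n → UnitAddCircle)) (hZ : volume Z = 0)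
    (hZm : MeasurableSet Z) :
    volume {t : Fin n → ℝ | (fun i => ((t i : ℝ) : UnitAddCircle)) ∈ Z} = 0 := by
  set p : (Fin n → ℝ) → (Fin n → UnitAddCircle) := fun t i => ((t i : ℝ) : UnitAddCircle) with hp
  have hpm : Measurable p := by
    rw [measurable_pi_iff]
    intro i
    exact (AddCircle.measurable_mk' (a := (1 : ℝ))).comp (measurable_pi_apply i)
  have hcov : {t : Fin n → ℝ | p t ∈ Z} ⊆ ⋃ a : Fin n → ℤ,
      (p ⁻¹' Z) ∩ Set.univ.pi (fun i => Set.Ioc (a i : ℝ) (a i + 1)) := by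
    intro t ht
    rw [Set.mem_iUnion]
    refine ⟨fun i => ⌈t i⌉ - 1, ht, ?_⟩
    rw [Set.mem_univ_pi]
    intro i
    rw [Set.mem_Ioc]
    have h1 := Int.ceil_lt_add_one (t i)
    have h2 := Int.le_ceil (t i)
    push_cast
    constructor
    · linarith
    · linarith
  refine measure_mono_null hcov ?_
  rw [measure_iUnion_null_iff]
  intro a
  have hmp := measurePreserving_pi (fun i : Fin n => (volume : Measure ℝ).restrict
    (Set.Ioc (a i : ℝ) (a i + 1))) (fun _ : Fin n => (volume : Measure UnitAddCircle))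
    (f := fun _ => ((↑) : ℝ → UnitAddCircle))
    (fun i => UnitAddCircle.measurePreserving_mk (a i : ℝ))
  have h1 := hmp.measure_preimage hZm.nullMeasurableSet
  rw [← Measure.restrict_pi_pi] at h1
  have h2 : (Measure.pi fun _ : Fin n => (volume : Measure UnitAddCircle)) Z = 0 := hZ
  rw [h2, Measure.restrict_apply (hpm hZm)] at h1
  exact h1

private lemma T3_null2 {n : ℕ} (f : Fin (n + 1) → ℝ) (hf : ∀ i, 0 < f i) (hs : ∑ i, f i = 1)
    (S : Set (Fin n → ℝ)) (hS : volume S = 0) :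
    volume {t : Fin n → ℝ | (fun i => t i - (∑ j, t j) * f i.castSucc) ∈ S} = 0 := by
  set B : (Fin n → ℝ) →ₗ[ℝ] (Fin n → ℝ) :=
    { toFun := fun t i => t i - (∑ j, t j) * f i.castSucc
      map_add' := by
        intro t t'
        funext i
        simp only [Pi.add_apply, Finset.sum_add_distrib]
        ring
      map_smul' := by
        intro c t
        funext i
        simp only [Pi.smul_apply, smul_eq_mul, RingHom.id_apply]
        rw [← Finset.mul_sum]
        ring } with hB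
  have hinj : LinearMap.ker B = ⊥ := by
    rw [LinearMap.ker_eq_bot']
    intro t ht
    have h1 : ∀ i, t i = (∑ j, t j) * f i.castSucc := by
      intro i
      have := congrFun ht i
      simp only [hB, LinearMap.coe_mk, AddHom.coe_mk, Pi.zero_apply] at this
      linarith
    have h2 : ∑ i, t i = (∑ j, t j) * ∑ i : Fin n, f i.castSucc := by
      rw [Finset.mul_sum]
      exact Finset.sum_congr rfl fun i _ => h1 i
    have h3 : ∑ i : Fin n, f i.castSucc = 1 - f (Fin.last n) := by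
      rw [Fin.sum_univ_castSucc] at hs
      linarith
    rw [h3] at h2
    have h4 : (∑ j, t j) * f (Fin.last n) = 0 := by linarith
    have h5 : ∑ j, t j = 0 := by
      rcases mul_eq_zero.1 h4 with h | h
      · exact h
      · exact absurd h (hf _).ne'
    funext i
    rw [h1 i, h5]
    simp
  have hdet : LinearMap.det B ≠ 0 := by
    have hu : IsUnit B := (LinearMap.isUnit_iff_ker_eq_bot B).2 hinj
    exact (LinearMap.isUnit_det B hu).ne_zero
  have h := Measure.addHaar_preimage_linearMap (volume : Measure (Fin n → ℝ)) hdet S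
  rw [hS, mul_zero] at h
  exact h

/-! ### the theorem -/

private lemma T3_Z {n : ℕ} {γ : Fin n → UnitAddCircle} {Z : Set (Fin n → UnitAddCircle)}
    (h : ∀ y, y ∈ Z ↔ y + γ ∈ Z) (y : Fin n → UnitAddCircle) (m : ℤ) :
    (y + m • γ ∈ Z) = (y ∈ Z) := by
  have := T3_const (fun m : ℤ => (y + m • γ ∈ Z)) (fun m => by
    rw [eq_iff_iff, h (y + m • γ), add_smul, one_smul, add_assoc]) m
  rw [this]
  simp

theorem t3_holds : StT3 := by
  intro hC1 n hn σ Lam l f T Z hinc hD hT hsurj hZ0 hZm hZinv hinj u htile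
  have hlf := hD.lf
  have hfs := hD.fsum
  have hprjT : ∀ ξ ∈ XS σ, prj f (T ξ) = T ξ := fun ξ hξ => T3_prj_of_sum f _ (hT.sum0 ξ hξ)
  have hmem : ∀ (a : (Fin (n + 1) → ℤ) × Fin (n + 1)) (y : Fin (n + 1) → ℝ),
      y ∈ Mem l f u a ↔ ∃ ξ ∈ XS σ, ξ 0 = a.2 ∧ y - pc l f (ic a.1) = pc l f (T ξ) := by
    intro a y
    show y - pc l f (ic a.1) ∈ Tile l f u a.2 ↔ _
    rw [htile]
    rfl
  -- the address from membership
  have haddr : ∀ (x : Fin (n + 1) → ℤ) (y : Fin (n + 1) → ℝ) (ξ : ℤ → Fin (n + 1)), ξ ∈ XS σ →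
      y - pc l f (ic x) = pc l f (T ξ) → T ξ = prj f y - prj f (ic x) := by
    intro x y ξ hξ h
    have h1 := congrArg (prj f) h
    rw [T3_prj_sub, T3_prj_pc l f _ hlf hfs, T3_prj_pc l f _ hlf hfs, hprjT ξ hξ] at h1
    exact h1.symm
  have hcov : ∀ y, dot l y = 0 → ∃ a, InL l a ∧ y ∈ Mem l f u a := by
    intro y hy
    obtain ⟨ξ, hξ, htor⟩ := hsurj (fun i => ((prj f y i.castSucc : ℝ) : UnitAddCircle))
    have h1 : ∀ i : Fin n, ∃ z : ℤ, T ξ i.castSucc - prj f y i.castSucc = z := by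
      intro i
      have h2 := congrFun htor i
      unfold tor at h2
      have h3 : ((T ξ i.castSucc - prj f y i.castSucc : ℝ) : UnitAddCircle) = 0 := by
        rw [AddCircle.coe_sub, h2, sub_self]
      obtain ⟨z, hz⟩ := (AddCircle.coe_eq_zero_iff (1 : ℝ)).1 h3
      exact ⟨z, by rw [← hz]; simp⟩
    choose z hz using h1
    set w : Fin (n + 1) → ℤ := Fin.snoc z (-∑ i, z i) with hw
    have hwsum : ∑ i, w i = 0 := by
      rw [Fin.sum_univ_castSucc, hw]
      simp
    have hpsum : ∑ i, prj f y i = 0 := by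
      simp only [prj, Finset.sum_sub_distrib]
      rw [← Finset.mul_sum, hfs]
      ring
    have hwT : T ξ = prj f y + ic w := by
      have hcs : ∀ i : Fin n, T ξ i.castSucc = prj f y i.castSucc + (w i.castSucc : ℝ) := by
        intro i
        rw [hw, Fin.snoc_castSucc, ← hz i]
        ring
      funext i
      refine Fin.lastCases ?_ (fun i => ?_) i
      · have e1 := hT.sum0 ξ hξ
        rw [Fin.sum_univ_castSucc] at e1
        have e2 := hpsum
        rw [Fin.sum_univ_castSucc] at e2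
        have e3 : ∑ i, (w i : ℝ) = 0 := by exact_mod_cast hwsum
        rw [Fin.sum_univ_castSucc] at e3
        have e4 : ∑ i : Fin n, T ξ i.castSucc = ∑ i : Fin n, prj f y i.castSucc +
            ∑ i : Fin n, (w i.castSucc : ℝ) := by
          rw [← Finset.sum_add_distrib]
          exact Finset.sum_congr rfl fun i _ => hcs i
        simp only [Pi.add_apply, ic]
        linarith
      · simp only [Pi.add_apply, ic]
        exact hcs i
    obtain ⟨m, hm1, hm2⟩ := T3_q_ex l ξ hD.lpos (-(dot l (ic w)))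
    have hprjw : prj f (ic w) = ic w := by
      apply T3_prj_of_sum
      simp only [ic]
      exact_mod_cast hwsum
    refine ⟨(-(w + Pt ξ m), ξ m), ?_, ?_⟩
    · unfold InL
      simp only
      rw [T3_q_succ] at hm2
      have h2 : dot l (ic (-(w + Pt ξ m))) = -(dot l (ic w)) - dot l (ic (Pt ξ m)) := by
        rw [T3_ic_neg, T3_ic_add]
        have : dot l (-(ic w + ic (Pt ξ m))) = - dot l (ic w + ic (Pt ξ m)) := by
          unfold dot
          rw [← Finset.sum_neg_distrib]
          exact Finset.sum_congr rfl fun i _ => by rw [Pi.neg_apply]; ring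
        rw [this, T3_dot_add]
        ring
      rw [h2]
      constructor
      · linarith
      · linarith
    · rw [hmem]
      refine ⟨fun n => ξ (n + m), T3_sh hξ m, ?_, ?_⟩
      · simp only [zero_add]
      · rw [T3_T hT hξ m, hwT]
        have h2 : prj f y + ic w + prj f (ic (Pt ξ m)) = prj f (y - ic (-(w + Pt ξ m))) := by
          rw [T3_prj_sub, T3_ic_neg, T3_ic_add]
          have : prj f (-(ic w + ic (Pt ξ m))) = -(prj f (ic w) + prj f (ic (Pt ξ m))) := by
            rw [← T3_prj_add]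
            funext i
            simp only [prj, Pi.neg_apply, Finset.sum_neg_distrib]
            ring
          rw [this, hprjw]
          abel
        rw [h2, T3_pc_prj l f _ hlf, T3_pc_sub l f _ _ hlf, T3_pc_of_dot l f y hlf hy]
  refine ⟨?_, hcov, ?_⟩
  · -- local finiteness
    intro R
    obtain ⟨B, hB⟩ := hT.bdd
    have hpcn : ∀ v : Fin (n + 1) → ℝ, ‖pc l f v‖ ≤ (1 + (∑ i, |l i|) * ‖f‖) * ‖v‖ := by
      intro v
      rw [T3_pc_eq l f v hlf]
      refine (norm_sub_le _ _).trans ?_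
      rw [norm_smul, Real.norm_eq_abs]
      have := mul_le_mul_of_nonneg_right (T3_dot_le l v) (norm_nonneg f)
      linarith
    set K := 1 + (∑ i, |l i|) * ‖f‖ with hK
    have hK0 : 0 ≤ K := by
      have : 0 ≤ (∑ i, |l i|) * ‖f‖ :=
        mul_nonneg (Finset.sum_nonneg fun i _ => abs_nonneg _) (norm_nonneg _)
      linarith
    set R' := R + K * B + (∑ i, l i) * ‖f‖ with hR'
    refine Set.Finite.subset ((Set.finite_Icc (fun _ : Fin (n + 1) => -⌈R'⌉)
      (fun _ : Fin (n + 1) => ⌈R'⌉)).prod (Set.finite_univ (α := Fin (n + 1)))) ?_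
    rintro ⟨x, i⟩ ⟨hL, y, hy, hyR⟩
    obtain ⟨ξ, hξ, hξ0, he⟩ := (hmem _ _).1 hy
    simp only at he hξ0
    have h1 : ‖pc l f (ic x)‖ ≤ R + K * B := by
      have h2 : pc l f (ic x) = y - pc l f (T ξ) := by rw [← he]; abel
      rw [h2]
      refine (norm_sub_le _ _).trans ?_
      have h3 := (hpcn (T ξ)).trans (mul_le_mul_of_nonneg_left (hB ξ hξ) hK0)
      linarith
    have h2 : ‖ic x‖ ≤ R' := by
      have h3 : ic x = pc l f (ic x) + dot l (ic x) • f := by
        rw [T3_pc_eq l f _ hlf]; abel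
      rw [h3]
      refine (norm_add_le _ _).trans ?_
      rw [norm_smul, Real.norm_eq_abs, abs_of_nonneg hL.1]
      have h4 : dot l (ic x) ≤ ∑ i, l i := by
        refine hL.2.le.trans ?_
        exact Finset.single_le_sum (fun j _ => (hD.lpos j).le) (Finset.mem_univ i)
      have h5 := mul_le_mul_of_nonneg_right h4 (norm_nonneg f)
      linarith
    rw [Set.mem_prod]
    refine ⟨?_, Set.mem_univ _⟩
    rw [Set.mem_Icc, Pi.le_def, Pi.le_def]
    have h3 : ∀ j, |(x j : ℝ)| ≤ R' := fun j => (norm_le_pi_norm (ic x) j).trans h2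
    constructor
    · intro j
      have h4 := (abs_le.1 (h3 j)).1
      have h5 := Int.le_ceil R'
      have h6 : (-(⌈R'⌉ : ℝ)) ≤ (x j : ℝ) := by linarith
      exact_mod_cast h6
    · intro j
      have h4 := (abs_le.1 (h3 j)).2
      have h5 := Int.le_ceil R'
      have h6 : (x j : ℝ) ≤ (⌈R'⌉ : ℝ) := by linarith
      exact_mod_cast h6
  · -- almost everywhere uniqueness
    set γ : Fin n → UnitAddCircle := fun i : Fin n => ((-(f i.castSucc) : ℝ) : UnitAddCircle)
      with hγ
    refine measure_mono_null ?_ (T3_null2 f hD.fpos hfs _ (T3_null Z hZ0 hZm))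
    intro t ht
    rw [Set.mem_ofPred_eq] at ht ⊢
    rw [Set.mem_ofPred_eq]
    by_contra hnZ
    apply ht
    set y := pc l f (Fin.snoc t 0 : Fin (n + 1) → ℝ) with hy
    have hy0 : dot l y = 0 := by
      rw [hy, T3_pc_eq l f _ hlf, T3_dot_sub, T3_dot_smul, hlf]
      ring
    have hpy : ∀ i : Fin n, prj f y i.castSucc = t i - (∑ j, t j) * f i.castSucc := by
      intro i
      rw [hy, T3_prj_pc l f _ hlf hfs]
      unfold prj
      rw [Fin.sum_univ_castSucc]
      simp only [Fin.snoc_castSucc, Fin.snoc_last, add_zero]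
    have hcls : (fun i : Fin n => ((prj f y i.castSucc : ℝ) : UnitAddCircle)) ∉ Z := by
      simp only [hpy]
      exact hnZ
    -- address of a member not in Z
    have hnot : ∀ (x : Fin (n + 1) → ℤ) (ξ : ℤ → Fin (n + 1)), ξ ∈ XS σ →
        T ξ = prj f y - prj f (ic x) → tor T ξ ∉ Z := by
      intro x ξ hξ h
      have h1 : tor T ξ = (fun i : Fin n => ((prj f y i.castSucc : ℝ) : UnitAddCircle)) +
          (-(∑ j, x j)) • γ := by
        funext i
        rw [Pi.add_apply, Pi.smul_apply]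
        unfold tor
        have h2 : T ξ i.castSucc = prj f y i.castSucc +
            (-(∑ j, x j) : ℤ) • (-(f i.castSucc) : ℝ) - (x i.castSucc : ℝ) := by
          rw [h, Pi.sub_apply, zsmul_eq_mul]
          have : prj f (ic x) i.castSucc = (x i.castSucc : ℝ) - ((∑ j, x j : ℤ) : ℝ) *
              f i.castSucc := by
            unfold prj ic
            push_cast
            ring
          rw [this]
          push_cast
          ring
        rw [h2, AddCircle.coe_sub, AddCircle.coe_add, AddCircle.coe_zsmul]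
        have h3 : (((x i.castSucc : ℤ) : ℝ) : UnitAddCircle) = 0 :=
          (AddCircle.coe_eq_zero_iff (1 : ℝ)).2 ⟨x i.castSucc, by simp⟩
        rw [h3, sub_zero]
      rw [h1, T3_Z hZinv]
      exact hcls
    obtain ⟨a, ha, hya⟩ := hcov y hy0
    refine ⟨a, ⟨ha, hya⟩, ?_⟩
    rintro ⟨x', i'⟩ ⟨ha', hya'⟩
    obtain ⟨x, i⟩ := a
    obtain ⟨ξ, hξ, hξ0, he⟩ := (hmem _ _).1 hya
    obtain ⟨ξ', hξ', hξ0', he'⟩ := (hmem _ _).1 hya'
    simp only at hξ0 he hξ0' he'
    have hTξ := haddr x y ξ hξ he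
    have hTξ' := haddr x' y ξ' hξ' he'
    set m : ℤ := ∑ j, x' j - ∑ j, x j with hm
    have hsum : ∑ j, (x' - x - Pt ξ' m) j = 0 := by
      simp only [Pi.sub_apply, Finset.sum_sub_distrib, T3_Pt_sum]
      omega
    have hdiff : T ξ - T (fun n => ξ' (n + m)) = ic (x' - x - Pt ξ' m) := by
      rw [T3_T hT hξ' m, hTξ, hTξ']
      rw [← T3_prj_of_sum f (ic (x' - x - Pt ξ' m)) (by simp only [ic]; exact_mod_cast hsum)]
      rw [T3_ic_sub, T3_ic_sub, T3_prj_sub, T3_prj_sub]
      abel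
    have htor : tor T ξ = tor T (fun n => ξ' (n + m)) := by
      funext j
      unfold tor
      have h1 := congrFun hdiff j.castSucc
      rw [Pi.sub_apply] at h1
      have h2 : T ξ j.castSucc = T (fun n => ξ' (n + m)) j.castSucc +
          (((x' - x - Pt ξ' m) j.castSucc : ℤ) : ℝ) := by
        have : ic (x' - x - Pt ξ' m) j.castSucc = (((x' - x - Pt ξ' m) j.castSucc : ℤ) : ℝ) := rfl
        rw [← this]
        linarith
      rw [h2, AddCircle.coe_add]
      have h3 : ((((x' - x - Pt ξ' m) j.castSucc : ℤ) : ℝ) : UnitAddCircle) = 0 :=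
        (AddCircle.coe_eq_zero_iff (1 : ℝ)).2 ⟨(x' - x - Pt ξ' m) j.castSucc, by simp⟩
      rw [h3, add_zero]
    have hξξ : ξ = fun n => ξ' (n + m) :=
      hinj ξ hξ _ (T3_sh hξ' m) htor (hnot x ξ hξ hTξ)
    have hxx : x' = x + Pt ξ' m := by
      rw [← hξξ, sub_self] at hdiff
      funext j
      have h1 := congrFun hdiff j
      simp only [ic, Pi.zero_apply, Pi.sub_apply] at h1
      have h2 : x' j - x j - Pt ξ' m j = 0 := by exact_mod_cast h1.symm
      rw [Pi.add_apply]
      omega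
    have hi : i = ξ' m := by
      rw [← hξ0, hξξ]
      simp only [zero_add]
    unfold InL at ha ha'
    simp only at ha ha'
    have hdl : dot l (ic x') = dot l (ic x) + dot l (ic (Pt ξ' m)) := by
      rw [hxx, T3_ic_add, T3_dot_add]
    rcases lt_trichotomy m 0 with hm0 | hm0 | hm0
    · exfalso
      have h1 := T3_q_le l ξ' hD.lpos (show m + 1 ≤ 0 by omega)
      rw [T3_q_zero, T3_q_succ, ← hi] at h1
      linarith [ha.1, ha.2, ha'.1]
    · rw [hm0, T3_Pt_zero, add_zero] at hxx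
      rw [hm0] at hi
      rw [hxx, hi, hξ0']
    · exfalso
      have h1 := T3_q_le l ξ' hD.lpos (show (0 : ℤ) + 1 ≤ m by omega)
      rw [T3_q_succ, T3_q_zero, hξ0'] at h1
      linarith [ha.1, ha.2, ha'.1, ha'.2]

end Pool.Agent.H811R3.PS
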