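import Pool.Agent.H811R3.PS.Defs5

/-!
# T4: uniqueness of positive eigenvectors, scaling
-/

set_option autoImplicit false

open Finset MeasureTheory Filter

namespace Pool.Agent.H811R3.PS

private lemma T4_act_eq {d : ℕ} (A : Matrix (Fin d) (Fin d) ℤ) (y : Fin d → ℝ) :
    act A y = ((Int.castRingHom ℝ).mapMatrix A).mulVec y := by
  funext i
  simp [act, Matrix.mulVec, dotProduct]

private lemma T4_act_pow {d : ℕ} (A : Matrix (Fin d) (Fin d) ℤ) (k : ℕ) (y : Fin d → ℝ) :
    act (A ^ (k + 1)) y = act A (act (A ^ k) y) := by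
  rw [T4_act_eq, T4_act_eq, T4_act_eq, Matrix.mulVec_mulVec, pow_succ', map_mul]

private lemma T4_act_zero {d : ℕ} (A : Matrix (Fin d) (Fin d) ℤ) (y : Fin d → ℝ) :
    act (A ^ 0) y = y := by
  rw [T4_act_eq, pow_zero, map_one, Matrix.one_mulVec]

private lemma T4_dot_act {d : ℕ} (A : Matrix (Fin d) (Fin d) ℤ) (l : Fin d → ℝ) (β : ℝ)
    (h : ∀ j, ∑ i, l i * (A i j : ℝ) = β * l j) (y : Fin d → ℝ) :
    dot l (act A y) = β * dot l y := by
  unfold dot act
  simp only [Finset.mul_sum]
  rw [Finset.sum_comm]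
  refine Finset.sum_congr rfl fun j _ => ?_
  have : ∑ i, l i * ((A i j : ℝ) * y j) = (∑ i, l i * (A i j : ℝ)) * y j := by
    rw [Finset.sum_mul]
    exact Finset.sum_congr rfl fun i _ => by ring
  rw [this, h]
  ring

private lemma T4_dot_pow {d : ℕ} (A : Matrix (Fin d) (Fin d) ℤ) (l : Fin d → ℝ) (β : ℝ)
    (h : ∀ j, ∑ i, l i * (A i j : ℝ) = β * l j) (y : Fin d → ℝ) (k : ℕ) :
    dot l (act (A ^ k) y) = β ^ k * dot l y := by
  induction k with
  | zero => rw [T4_act_zero]; simp
  | succ k ih => rw [T4_act_pow, T4_dot_act A l β h, ih]; ring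

private lemma T4_dot_le {d : ℕ} (l y : Fin d → ℝ) : |dot l y| ≤ (∑ i, |l i|) * ‖y‖ := by
  unfold dot
  refine (Finset.abs_sum_le_sum_abs _ _).trans ?_
  rw [Finset.sum_mul]
  refine Finset.sum_le_sum fun i _ => ?_
  rw [abs_mul]
  exact mul_le_mul_of_nonneg_left (norm_le_pi_norm y i) (abs_nonneg _)

private lemma T4_dot_add {d : ℕ} (l y z : Fin d → ℝ) : dot l (y + z) = dot l y + dot l z := by
  unfold dot
  rw [← Finset.sum_add_distrib]
  exact Finset.sum_congr rfl fun i _ => by rw [Pi.add_apply]; ring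

private lemma T4_dot_smul {d : ℕ} (l y : Fin d → ℝ) (c : ℝ) : dot l (c • y) = c * dot l y := by
  unfold dot
  rw [Finset.mul_sum]
  exact Finset.sum_congr rfl fun i _ => by rw [Pi.smul_apply, smul_eq_mul]; ring

private lemma T4_prj {d : ℕ} (f y : Fin d → ℝ) : y = prj f y + (∑ j, y j) • f := by
  funext i
  simp [prj]

/-- a sequence `K / Lam ^ k` tends to zero -/
private lemma T4_lim {x K Lam : ℝ} (hL : 1 < Lam) (hx : 0 ≤ x) (h : ∀ k : ℕ, Lam ^ k * x ≤ K) :
    x = 0 := by
  by_contra hne
  have hx' : 0 < x := lt_of_le_of_ne hx (Ne.symm hne)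
  obtain ⟨k, hk⟩ := pow_unbounded_of_one_lt (K / x) hL
  have h1 := h k
  rw [div_lt_iff₀ hx'] at hk
  linarith

theorem t4_holds : StT4 := by
  intro n σ Lam l f C θ hD hC hT l' f' β hl' hf' hleft hright u hu
  set A := inc σ with hA
  have hLpos : 0 < Lam := lt_trans one_pos hD.one_lt
  obtain ⟨hC0, hθ0, hθ1, hcon⟩ := hC
  -- β = Lam
  have hl'f : 0 < dot l' f := by
    unfold dot
    exact Finset.sum_pos (fun i _ => mul_pos (hl' i) (hD.fpos i)) ⟨0, Finset.mem_univ _⟩
  have hβ : β = Lam := by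
    have h1 := T4_dot_act A l' β hleft f
    rw [hD.right] at h1
    have h2 : dot l' (fun i => Lam * f i) = Lam * dot l' f := T4_dot_smul l' f Lam
    rw [h2] at h1
    have := mul_right_cancel₀ hl'f.ne' h1
    exact this.symm
  subst hβ
  -- left eigenvector
  have hker : ∀ y : Fin (n + 1) → ℝ, dot l y = 0 → dot l' y = 0 := by
    intro y hy
    have hbound : ∀ k : ℕ, β ^ k * |dot l' y| ≤
        (∑ i, |l' i|) * (1 + (∑ i, |l i|) * ‖f‖) * (C * ‖prj f y‖) := by
      intro k
      have h1 := T4_dot_pow A l' β hleft y k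
      have h2 := T4_dot_pow A l β hD.left y k
      rw [hy, mul_zero] at h2
      set v := act (A ^ k) y with hv
      have h3 : ‖prj f v‖ ≤ C * ‖prj f y‖ := by
        refine (hcon k y).trans ?_
        have : θ ^ k ≤ 1 := pow_le_one₀ hθ0.le hθ1.le
        have h4 : 0 ≤ C * ‖prj f y‖ := mul_nonneg hC0.le (norm_nonneg _)
        nlinarith
      have h4 : ∑ j, v j = - dot l (prj f v) := by
        have h5 := congrArg (dot l) (T4_prj f v)
        rw [T4_dot_add, T4_dot_smul, hD.lf, mul_one] at h5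
        rw [h2] at h5
        linarith
      have h5 : ‖v‖ ≤ (1 + (∑ i, |l i|) * ‖f‖) * ‖prj f v‖ := by
        have h6 : ‖v‖ ≤ ‖prj f v‖ + |∑ j, v j| * ‖f‖ := by
          conv_lhs => rw [T4_prj f v]
          refine (norm_add_le _ _).trans ?_
          rw [norm_smul, Real.norm_eq_abs]
        rw [h4, abs_neg] at h6
        have h7 := T4_dot_le l (prj f v)
        have h8 := mul_le_mul_of_nonneg_right h7 (norm_nonneg f)
        nlinarith
      have h6 : |dot l' v| ≤ (∑ i, |l' i|) * ((1 + (∑ i, |l i|) * ‖f‖) * (C * ‖prj f y‖)) := by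
        refine (T4_dot_le l' v).trans ?_
        refine mul_le_mul_of_nonneg_left ?_ (Finset.sum_nonneg fun i _ => abs_nonneg _)
        refine h5.trans ?_
        refine mul_le_mul_of_nonneg_left h3 ?_
        have : 0 ≤ (∑ i, |l i|) * ‖f‖ :=
          mul_nonneg (Finset.sum_nonneg fun i _ => abs_nonneg _) (norm_nonneg _)
        linarith
      rw [h1, abs_mul, abs_of_pos (pow_pos hLpos k)] at h6
      linarith
    have := T4_lim hD.one_lt (abs_nonneg _) hbound
    exact abs_eq_zero.1 this
  have hl'eq : ∀ i, l' i = dot l' f * l i := by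
    intro i
    have h1 : dot l ((Pi.single i 1 : Fin (n + 1) → ℝ) + (-(l i)) • f) = 0 := by
      rw [T4_dot_add, T4_dot_smul, hD.lf]
      have : dot l (Pi.single i 1 : Fin (n + 1) → ℝ) = l i := by
        unfold dot
        simp [Pi.single_apply]
      rw [this]; ring
    have h2 := hker _ h1
    rw [T4_dot_add, T4_dot_smul] at h2
    have h3 : dot l' (Pi.single i 1 : Fin (n + 1) → ℝ) = l' i := by
      unfold dot
      simp [Pi.single_apply]
    rw [h3] at h2
    linarith
  -- right eigenvector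
  have hfpow : ∀ k : ℕ, act (A ^ k) f' = β ^ k • f' := by
    intro k
    induction k with
    | zero => rw [T4_act_zero]; simp
    | succ k ih =>
      rw [T4_act_pow, ih]
      funext i
      have h1 := congrFun hright i
      simp only [act, Pi.smul_apply, smul_eq_mul] at h1 ⊢
      have : ∑ j, (A i j : ℝ) * (β ^ k * f' j) = β ^ k * ∑ j, (A i j : ℝ) * f' j := by
        rw [Finset.mul_sum]
        exact Finset.sum_congr rfl fun j _ => by ring
      rw [this, h1]
      ring
  have hprj0 : prj f f' = 0 := by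
    have hbound : ∀ k : ℕ, β ^ k * ‖prj f f'‖ ≤ C * ‖prj f f'‖ := by
      intro k
      have h1 := hcon k f'
      rw [hfpow k] at h1
      have h2 : prj f (β ^ k • f') = β ^ k • prj f f' := by
        funext i
        simp only [prj, Pi.smul_apply, smul_eq_mul]
        rw [← Finset.mul_sum]
        ring
      rw [h2, norm_smul, Real.norm_eq_abs, abs_of_pos (pow_pos hLpos k)] at h1
      refine h1.trans ?_
      have : θ ^ k ≤ 1 := pow_le_one₀ hθ0.le hθ1.le
      have h4 : 0 ≤ C * ‖prj f f'‖ := mul_nonneg hC0.le (norm_nonneg _)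
      nlinarith
    have := T4_lim hD.one_lt (norm_nonneg _) hbound
    exact norm_eq_zero.1 this
  have hf'eq : ∀ i, f' i = (∑ j, f' j) * f i := by
    intro i
    have h1 := congrFun (T4_prj f f') i
    rw [hprj0] at h1
    simpa using h1
  set a := dot l' f with ha
  set b := ∑ j, f' j with hb
  have hbpos : 0 < b := Finset.sum_pos (fun i _ => hf' i) ⟨0, Finset.mem_univ _⟩
  have hdot : ∀ y, dot l' y = a * dot l y := by
    intro y
    unfold dot
    rw [Finset.mul_sum]
    exact Finset.sum_congr rfl fun i _ => by rw [hl'eq i]; ring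
  have hdot2 : dot l f' = b := by
    have : dot l f' = b * dot l f := by
      unfold dot
      rw [Finset.mul_sum]
      exact Finset.sum_congr rfl fun i _ => by rw [hf'eq i]; ring
    rw [this, hD.lf, mul_one]
  have hpc : pc l' f' = pc l f := by
    funext y i
    unfold pc
    rw [hdot y, hdot f', hdot2, hD.lf, hf'eq i]
    field_simp
  have hInL : ∀ x, InL l' x ↔ InL l x := by
    intro x
    unfold InL
    rw [hdot, hl'eq x.2]
    constructor
    · rintro ⟨h1, h2⟩
      exact ⟨nonneg_of_mul_nonneg_right h1 hl'f, lt_of_mul_lt_mul_left h2 hl'f.le⟩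
    · rintro ⟨h1, h2⟩
      exact ⟨mul_nonneg hl'f.le h1, mul_lt_mul_of_pos_left h2 hl'f⟩
  have hTile : ∀ i, Tile l' f' u i = Tile l f u i := by
    intro i
    unfold Tile
    rw [hpc]
  have hMem : ∀ x, Mem l' f' u x = Mem l f u x := by
    intro x
    unfold Mem
    rw [hpc, hTile]
  have hdot0 : ∀ y, dot l' y = 0 ↔ dot l y = 0 := by
    intro y
    rw [hdot]
    constructor
    · intro h
      rcases mul_eq_zero.1 h with h | h
      · exact absurd h hl'f.ne'
      · exact h
    · intro h
      rw [h, mul_zero]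
  have h := hT u hu
  unfold IsTiling at h ⊢
  simp only [hInL, hMem, hdot0, hpc]
  exact h

end Pool.Agent.H811R3.PS
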