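import Pool.Agent.H811R3.PS.All
import Pool.Agent.H811R3.PS.TT1
import Pool.Agent.H811R3.PS.TT2
import Pool.Agent.H811R3.PS.TT3
import Pool.Agent.H811R3.PS.TT4
import Pool.Agent.H811R3.PS.TMAINT

set_option autoImplicit false

namespace Pool.Agent.H811R3.PS

theorem maint_ : StMainT := maint_holds A4_ A5_ pa_holds BF_ ct_holds cg_holds c1_holds c6c_holds
  C9a_ t1_holds t2_holds t3_holds t4_holds

end Pool.Agent.H811R3.PS
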