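import Mathlib

/-!
# Almost all Pisot substitutions have pure discrete spectrum: definitions and statements

For a unimodular irreducible Pisot matrix `M` the Pisot substitution conjecture holds for all but a
proportion `exp (-exp (c k))` of the substitutions with incidence matrix `M ^ k`.
-/

set_option autoImplicit false

open Finset MeasureTheory Filter

namespace Pool.Agent.H811R3.PS

/-! ## Vectors -/

/-- coercion of an integer vector -/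
def ic {d : ℕ} (v : Fin d → ℤ) : Fin d → ℝ := fun i => (v i : ℝ)

/-- real action of an integer matrix -/
noncomputable def act {d : ℕ} (A : Matrix (Fin d) (Fin d) ℤ) (y : Fin d → ℝ) : Fin d → ℝ :=
  fun i => ∑ j, (A i j : ℝ) * y j

noncomputable def dot {d : ℕ} (l y : Fin d → ℝ) : ℝ := ∑ i, l i * y i

/-- projection along `f` (with `∑ f = 1`) to the vectors with coordinate sum `0` -/
noncomputable def prj {d : ℕ} (f y : Fin d → ℝ) : Fin d → ℝ := fun i => y i - (∑ j, y j) * f i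

/-- a lower bound for all `l i` -/
noncomputable def lm {d : ℕ} (l : Fin d → ℝ) : ℝ := (∑ i, (l i)⁻¹)⁻¹

/-- an upper bound for all `l i` -/
noncomputable def sl {d : ℕ} (l : Fin d → ℝ) : ℝ := ∑ i, l i

/-- the hypotheses on the matrix: nonnegative, irreducible, Pisot -/
structure Pis {d : ℕ} (M : Matrix (Fin d) (Fin d) ℤ) (lam : ℝ) : Prop where
  nonneg : ∀ i j, 0 ≤ M i j
  irr : Irreducible (M.map (Int.castRingHom ℚ)).charpoly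
  one_lt : 1 < lam
  root : (M.map (Int.castRingHom ℝ)).charpoly.IsRoot lam
  others : ∀ μ : ℂ, (M.map (Int.castRingHom ℂ)).charpoly.IsRoot μ → μ ≠ (lam : ℂ) → ‖μ‖ < 1

/-- eigenvector data of a matrix `A` -/
structure Dat {d : ℕ} (A : Matrix (Fin d) (Fin d) ℤ) (Lam : ℝ) (l f : Fin d → ℝ) : Prop where
  one_lt : 1 < Lam
  lpos : ∀ i, 0 < l i
  fpos : ∀ i, 0 < f i
  fsum : ∑ i, f i = 1
  lf : dot l f = 1
  left : ∀ j, ∑ i, l i * (A i j : ℝ) = Lam * l j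
  right : act A f = fun i => Lam * f i
  indep : ∀ v : Fin d → ℤ, v ≠ 0 → dot l (ic v) ≠ 0

/-- contraction transversally to `f` -/
def Con {d : ℕ} (M : Matrix (Fin d) (Fin d) ℤ) (f : Fin d → ℝ) (C θ : ℝ) : Prop :=
  0 < C ∧ 0 < θ ∧ θ < 1 ∧ ∀ (k : ℕ) (y : Fin d → ℝ), ‖prj f (act (M ^ k) y)‖ ≤ C * θ ^ k * ‖prj f y‖

/-- density of the lattice: every box has an integer point -/
def Den {d : ℕ} (l f : Fin d → ℝ) (C : ℝ) : Prop :=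
  0 < C ∧ ∀ H : ℝ, 1 ≤ H → ∀ α : ℝ, ∃ z : Fin d → ℤ,
    ‖prj f (ic z)‖ ≤ C * H ∧ |dot l (ic z) - α| ≤ C * H ^ (-((d : ℝ) - 1))

/-! ## Part A -/

def StA1 : Prop := ∀ (d : ℕ) (M : Matrix (Fin d) (Fin d) ℤ),
  Irreducible (M.map (Int.castRingHom ℚ)).charpoly →
  (∀ p : Polynomial ℚ, p ≠ 0 → p.natDegree < d →
    IsUnit (Polynomial.aeval (M.map (Int.castRingHom ℚ)) p)) ∧
  (∀ (l : Fin d → ℝ) (lam : ℝ), l ≠ 0 → (∀ j, ∑ i, l i * (M i j : ℝ) = lam * l j) →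
    ∀ v : Fin d → ℤ, v ≠ 0 → dot l (ic v) ≠ 0) ∧
  (∀ (f : Fin d → ℝ) (lam : ℝ), f ≠ 0 → (act M f = fun i => lam * f i) → ∀ i, f i ≠ 0)

def StA2 : Prop := ∀ (d : ℕ) (_ : 2 ≤ d) (M : Matrix (Fin d) (Fin d) ℤ) (lam : ℝ), Pis M lam →
  ∃ l f : Fin d → ℝ, dot l f = 1 ∧ (∀ j, ∑ i, l i * (M i j : ℝ) = lam * l j) ∧
    (act M f = fun i => lam * f i)

def StA3 : Prop := ∀ (d : ℕ) (_ : 2 ≤ d) (M : Matrix (Fin d) (Fin d) ℤ) (lam : ℝ), Pis M lam →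
  ∀ l f : Fin d → ℝ, dot l f = 1 → (∀ j, ∑ i, l i * (M i j : ℝ) = lam * l j) →
    (act M f = fun i => lam * f i) →
    ∃ C θ : ℝ, 0 < C ∧ 0 < θ ∧ θ < 1 ∧ ∀ (k : ℕ) (y : Fin d → ℝ), dot l y = 0 →
      ‖act (M ^ k) y‖ ≤ C * θ ^ k * ‖y‖

def StA4 : Prop := ∀ (d : ℕ) (_ : 2 ≤ d) (M : Matrix (Fin d) (Fin d) ℤ) (lam : ℝ), Pis M lam →
  ∃ l f : Fin d → ℝ, Dat M lam l f ∧ ∃ C θ : ℝ, Con M f C θ

def StA5 : Prop := ∀ (d : ℕ) (_ : 2 ≤ d) (M : Matrix (Fin d) (Fin d) ℤ) (lam : ℝ), Pis M lam →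
  ∀ l f : Fin d → ℝ, Dat M lam l f → (∃ C θ : ℝ, Con M f C θ) → ∃ C : ℝ, Den l f C

/-! ## Words, contents, finite probability -/

/-- number of indices in `[a, b)` with given letter -/
def cnt {d : ℕ} (w : ℕ → Fin d) (a b : ℕ) : Fin d → ℤ :=
  fun i => ∑ t ∈ Finset.Ico a b, if w t = i then 1 else 0

/-- the sequence `w` with the letters at `τ, …, τ + L - 1` replaced by `v` -/
def ovr {d : ℕ} (w : ℕ → Fin d) (τ : ℕ) {L : ℕ} (v : Fin L → Fin d) : ℕ → Fin d :=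
  fun t => if h : τ ≤ t ∧ t < τ + L then v ⟨t - τ, by omega⟩ else w t

/-- average over independent letters with law `f` at the places `τ, …, τ + L - 1` -/
noncomputable def Ex {d : ℕ} (f : Fin d → ℝ) (τ L : ℕ) (φ : (ℕ → Fin d) → ℝ) (w : ℕ → Fin d) : ℝ :=
  ∑ v : Fin L → Fin d, (∏ t, f (v t)) * φ (ovr w τ v)

open Classical in
noncomputable def Pr {d : ℕ} (f : Fin d → ℝ) (τ L : ℕ) (S : (ℕ → Fin d) → Prop)
    (w : ℕ → Fin d) : ℝ :=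
  Ex f τ L (fun w' => if S w' then 1 else 0) w

/-- `g` depends only on the letters with index `< τ` -/
def Loc {d : ℕ} {β : Type} (τ : ℕ) (g : (ℕ → Fin d) → β) : Prop :=
  ∀ w w' : ℕ → Fin d, (∀ t < τ, w t = w' t) → g w = g w'

open Classical in
/-- probability for `d` independent words of lengths `N j` -/
noncomputable def PrT {d : ℕ} (f : Fin d → ℝ) (N : Fin d → ℕ) (w0 : ℕ → Fin d)
    (E : (Fin d → ℕ → Fin d) → Prop) : ℝ :=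
  ∑ t : (∀ j : Fin d, Fin (N j) → Fin d), (∏ j, ∏ s, f (t j s)) *
    (if E (fun j => ovr w0 0 (t j)) then 1 else 0)

/-- probability vectors -/
def PV {d : ℕ} (f : Fin d → ℝ) : Prop := (∀ i, 0 < f i) ∧ ∑ i, f i = 1

/-- basic rules -/
def StEX : Prop := ∀ (d : ℕ) (f : Fin d → ℝ), PV f →
  (∀ (τ L L' : ℕ) (φ : (ℕ → Fin d) → ℝ) (w : ℕ → Fin d),
    Ex f τ (L + L') φ w = Ex f τ L (fun w' => Ex f (τ + L) L' φ w') w) ∧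
  (∀ (τ L : ℕ) (c : ℝ) (w : ℕ → Fin d), Ex f τ L (fun _ => c) w = c) ∧
  (∀ (τ L : ℕ) (φ ψ : (ℕ → Fin d) → ℝ) (w : ℕ → Fin d), (∀ w', (∀ t, (t < τ ∨ τ + L ≤ t) →
    w' t = w t) → φ w' ≤ ψ w') → Ex f τ L φ w ≤ Ex f τ L ψ w) ∧
  (∀ (τ L : ℕ) (φ : (ℕ → Fin d) → ℝ) (c : ℝ) (w : ℕ → Fin d),
    Ex f τ L (fun w' => c * φ w') w = c * Ex f τ L φ w) ∧
  (∀ (τ L : ℕ) (φ ψ : (ℕ → Fin d) → ℝ) (w : ℕ → Fin d),
    Ex f τ L (fun w' => φ w' + ψ w') w = Ex f τ L φ w + Ex f τ L ψ w)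

/-- sequential trials -/
def StSEQ : Prop := ∀ (d : ℕ) (f : Fin d → ℝ), PV f → ∀ (p : ℝ), 0 ≤ p → ∀ (τ L K n : ℕ)
  (S : ℕ → (ℕ → Fin d) → Prop), τ + K * L ≤ n →
  (∀ k < K, Loc (τ + (k + 1) * L) (S k)) →
  (∀ k < K, ∀ w, p ≤ Pr f (τ + k * L) L (S k) w) →
  ∀ w0, Pr f 0 n (fun w => ∀ k < K, ¬ S k w) w0 ≤ (1 - p) ^ K

/-- multinomial formula -/
def StMUL : Prop := ∀ (d : ℕ) (f : Fin d → ℝ), PV f → ∀ (τ n : ℕ) (w : ℕ → Fin d) (z : Fin d → ℕ),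
  ∑ i, z i = n → Pr f τ n (fun w' => cnt w' τ (τ + n) = fun i => (z i : ℤ)) w =
    (n.factorial : ℝ) * ∏ i, (f i ^ (z i) / ((z i).factorial : ℝ))

/-- lower local bound -/
def StLOW : Prop := ∀ (d : ℕ) (_ : 2 ≤ d) (f : Fin d → ℝ), PV f → ∀ C' : ℝ, ∃ c : ℝ, 0 < c ∧ ∃ n0 : ℕ,
  ∀ n : ℕ, n0 ≤ n → ∀ z : Fin d → ℤ, ∑ i, z i = n → (∀ i, |(z i : ℝ) - n * f i| ≤ C' * √n) →
  ∀ (τ : ℕ) (w : ℕ → Fin d), c * (n : ℝ) ^ (-(((d : ℝ) - 1) / 2)) ≤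
    Pr f τ n (fun w' => cnt w' τ (τ + n) = z) w

/-- upper local bound -/
def StUPP : Prop := ∀ (d : ℕ) (_ : 2 ≤ d) (f : Fin d → ℝ), PV f → ∃ C : ℝ, 0 < C ∧
  ∀ n : ℕ, 1 ≤ n → ∀ (z : Fin d → ℤ) (τ : ℕ) (w : ℕ → Fin d),
    Pr f τ n (fun w' => cnt w' τ (τ + n) = z) w ≤ C / √n

/-- large deviations -/
def StHOE : Prop := ∀ (d : ℕ) (f : Fin d → ℝ), PV f → ∀ (a b n : ℕ), a < b → b ≤ n →
  ∀ (i : Fin d) (R : ℝ), 0 ≤ R → ∀ w0,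
    Pr f 0 n (fun w => R < |prj f (ic (cnt w a b)) i|) w0 ≤
      2 * Real.exp (-(R ^ 2 / (4 * ((b : ℝ) - a))))

/-- the hitting lemma: targets `V k` given by the past, blocks of length `3 m` -/
def StL1 : Prop := ∀ (d : ℕ) (_ : 2 ≤ d) (A : Matrix (Fin d) (Fin d) ℤ) (Lam : ℝ)
  (l f : Fin d → ℝ), Dat A Lam l f → (∃ C, Den l f C) →
  ∃ c C1 : ℝ, 0 < c ∧ 0 < C1 ∧ ∃ m0 : ℕ, ∀ m : ℕ, m0 ≤ m → ∀ τ K n : ℕ, τ + K * (3 * m) ≤ n →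
  ∀ (V : ℕ → (ℕ → Fin d) → Fin d → ℤ) (a : ℕ → (ℕ → Fin d) → Fin d)
    (G : ℕ → (ℕ → Fin d) → Prop),
  (∀ k, Loc (τ + k * (3 * m)) (V k)) → (∀ k, Loc (τ + k * (3 * m)) (a k)) →
  (∀ k, Loc (τ + k * (3 * m)) (G k)) →
  (∀ k < K, ∀ w, G k w → (m : ℝ) ≤ dot l (ic (V k w - cnt w 0 (τ + k * (3 * m)))) ∧
    dot l (ic (V k w - cnt w 0 (τ + k * (3 * m)))) ≤ m + sl l) →
  ∀ w0, Pr f 0 n (fun w => ∀ k < K, G k w ∧ ¬ ∃ t', τ + k * (3 * m) ≤ t' ∧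
      t' < τ + (k + 1) * (3 * m) ∧ w t' = a k w ∧
      C1 * (m : ℝ) ^ (-(((d : ℝ) - 1) / 2)) ≤ dot l (ic (V k w - cnt w 0 t')) ∧
      dot l (ic (V k w - cnt w 0 t')) ≤ 2 * (C1 * (m : ℝ) ^ (-(((d : ℝ) - 1) / 2)))) w0 ≤
    (1 - c * (m : ℝ) ^ (-(((d : ℝ) - 1) / 2))) ^ K

/-- windows with prescribed content -/
def StL2 : Prop := ∀ (d : ℕ) (_ : 2 ≤ d) (f : Fin d → ℝ), PV f →
  ∃ c C : ℝ, 0 < c ∧ 0 < C ∧ ∃ s0 : ℕ, ∀ s : ℕ, s0 ≤ s → ∀ K : ℕ, 1 ≤ K → C * (K : ℝ) ^ 3 ≤ √s →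
  ∀ u : Fin d → ℤ, ∑ i, u i = s → ‖prj f (ic u)‖ ≤ √s → ∀ J n : ℕ, (2 * J + 2) * s ≤ n → ∀ w0,
    Pr f 0 n (fun w => ¬ ∃ t t', t < t' ∧ t' < n ∧ w t = w t' ∧ cnt w t t' = u) w0 ≤
      (1 - c * K * (s : ℝ) ^ (-(((d : ℝ) - 1) / 2))) ^ J

/-- overlap length of the tile `i` at `v` with the tile `j` at `0` (negative if disjoint) -/
noncomputable def len {d : ℕ} (l : Fin d → ℝ) (i j : Fin d) (v : Fin d → ℤ) : ℝ :=
  min (dot l (ic v) + l i) (l j) - max (dot l (ic v)) 0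

/-- (P1b) -/
def StP1 : Prop := ∀ (d : ℕ) (_ : 2 ≤ d) (l f : Fin d → ℝ), PV f → (∀ i, 0 < l i) →
  ∀ p : ℝ, 0 ≤ p → (∀ i, p ≤ f i) → ∀ (a : Fin d → ℤ), 2 * sl l ≤ dot l (ic a) →
  ∀ τ K n : ℕ, τ + K ≤ n → ∀ w0,
    Pr f 0 n (fun w => ∀ t', τ ≤ t' → t' < τ + K → dot l (ic a) ≤ dot l (ic (cnt w 0 t')) ∧
      ¬ ∃ t < t', w t ≠ w t' ∧ lm l / 4 ≤ len l (w t) (w t') (a + cnt w 0 t - cnt w 0 t')) w0 ≤
      (1 - p) ^ K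

/-- a product bound -/
def StPRO : Prop := ∀ (d : ℕ) (f : Fin d → ℝ), PV f → ∀ (N : Fin d → ℕ) (w0 : ℕ → Fin d)
  (E : (Fin d → ℕ → Fin d) → Prop) (j : Fin d) (q : ℝ),
  (∀ W : Fin d → ℕ → Fin d, Pr f 0 (N j) (fun w => E (Function.update W j w)) w0 ≤ q) →
  PrT f N w0 E ≤ q

open Classical in
/-- from probabilities to counting -/
def StCNT : Prop := ∀ (d : ℕ) (f : Fin d → ℝ), PV f → ∀ (A : Matrix (Fin d) (Fin d) ℤ)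
  (N : Fin d → ℕ) (w0 : ℕ → Fin d) (E : (Fin d → ℕ → Fin d) → Prop),
  ((univ.filter fun t : (∀ j : Fin d, Fin (N j) → Fin d) =>
      E (fun j => ovr w0 0 (t j)) ∧ ∀ j, cnt (ovr w0 0 (t j)) 0 (N j) = fun i => A i j).card : ℝ) *
    ∏ j, Pr f 0 (N j) (fun w => cnt w 0 (N j) = fun i => A i j) w0 =
  PrT f N w0 (fun W => E W ∧ ∀ j, cnt (W j) 0 (N j) = fun i => A i j) *
    ((univ.filter fun t : (∀ j : Fin d, Fin (N j) → Fin d) =>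
      ∀ j, cnt (ovr w0 0 (t j)) 0 (N j) = fun i => A i j).card : ℝ)

end Pool.Agent.H811R3.PS
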