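import Pool.Agent.H811R3.PS.Defs

set_option autoImplicit false

open Finset MeasureTheory Filter

namespace Pool.Agent.H811R3.PS

/-! ## Overlaps and the deterministic part

`N j` is the length of the word of the letter `j`, `W j t` its `t`-th letter. -/

/-- vector of the child `(t, t')` of the overlap `(i, j, v)` -/
def chv {d : ℕ} (A : Matrix (Fin d) (Fin d) ℤ) (W : Fin d → ℕ → Fin d) (i j : Fin d)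
    (v : Fin d → ℤ) (t t' : ℕ) : Fin d → ℤ :=
  A.mulVec v + cnt (W i) 0 t - cnt (W j) 0 t'

/-- one step in the overlap graph -/
def Step {d : ℕ} (A : Matrix (Fin d) (Fin d) ℤ) (l : Fin d → ℝ) (N : Fin d → ℕ)
    (W : Fin d → ℕ → Fin d) (o o' : Fin d × Fin d × (Fin d → ℤ)) : Prop :=
  ∃ t < N o.1, ∃ t' < N o.2.1, o' = (W o.1 t, W o.2.1 t', chv A W o.1 o.2.1 o.2.2 t t') ∧
    0 < len l o'.1 o'.2.1 o'.2.2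

/-- the overlap leads to a coincidence -/
def Lead {d : ℕ} (A : Matrix (Fin d) (Fin d) ℤ) (l : Fin d → ℝ) (N : Fin d → ℕ)
    (W : Fin d → ℕ → Fin d) (o : Fin d × Fin d × (Fin d → ℤ)) : Prop :=
  ∃ c : Fin d, Relation.ReflTransGen (Step A l N W) o (c, c, 0)

/-- every overlap of transversal size `≤ R` leads to a coincidence -/
def Coin {d : ℕ} (A : Matrix (Fin d) (Fin d) ℤ) (l f : Fin d → ℝ) (N : Fin d → ℕ)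
    (W : Fin d → ℕ → Fin d) (R : ℝ) : Prop :=
  ∀ (i j : Fin d) (v : Fin d → ℤ), 0 < len l i j v → ‖prj f (ic v)‖ ≤ R → Lead A l N W (i, j, v)

/-- windows of length `≤ L` have discrepancy `≤ R` -/
def Reg {d : ℕ} (f : Fin d → ℝ) (N : Fin d → ℕ) (W : Fin d → ℕ → Fin d) (L R : ℝ) : Prop :=
  ∀ (j : Fin d) (t t' : ℕ), t ≤ t' → t' ≤ N j → ((t' - t : ℕ) : ℝ) ≤ L →
    ‖prj f (ic (cnt (W j) t t'))‖ ≤ R

/-- all windows of length `L` are different -/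
def Dist {d : ℕ} (N : Fin d → ℕ) (W : Fin d → ℕ → Fin d) (L : ℕ) : Prop :=
  ∀ (a b : Fin d) (p q : ℕ), p + L ≤ N a → q + L ≤ N b →
    (∀ s < L, W a (p + s) = W b (q + s)) → a = b ∧ p = q

/-- the word contents are the columns of `A` -/
def Exact {d : ℕ} (A : Matrix (Fin d) (Fin d) ℤ) (N : Fin d → ℕ) (W : Fin d → ℕ → Fin d) : Prop :=
  ∀ j, cnt (W j) 0 (N j) = fun i => A i j

/-- nice child of the overlap `(i, i, v)` -/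
def EvP {d : ℕ} (A : Matrix (Fin d) (Fin d) ℤ) (l : Fin d → ℝ) (N : Fin d → ℕ)
    (W : Fin d → ℕ → Fin d) (i : Fin d) (v : Fin d → ℤ) : Prop :=
  ∃ t t' : ℕ, t < N i ∧ t' < N i ∧ W i t ≠ W i t' ∧
    lm l / 4 ≤ len l (W i t) (W i t') (chv A W i i v t t')

/-- a child with equal letters and offset in `[e, 2 e]` -/
def EvN {d : ℕ} (A : Matrix (Fin d) (Fin d) ℤ) (l : Fin d → ℝ) (N : Fin d → ℕ)
    (W : Fin d → ℕ → Fin d) (e : ℝ) (i j : Fin d) (v : Fin d → ℤ) : Prop :=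
  ∃ t t' : ℕ, t < N i ∧ t' < N j ∧ W i t = W j t' ∧
    e ≤ dot l (ic (chv A W i j v t t')) ∧ dot l (ic (chv A W i j v t t')) ≤ 2 * e

/-- a window with content `u` between equal letters -/
def EvW {d : ℕ} (N : Fin d → ℕ) (W : Fin d → ℕ → Fin d) (c : Fin d) (u : Fin d → ℤ) : Prop :=
  ∃ t t' : ℕ, t < t' ∧ t' < N c ∧ W c t = W c t' ∧ cnt (W c) t t' = u

/-- a run of `K` letters `a` followed by a run of `K` letters `b` -/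
def EvR {d : ℕ} (N : Fin d → ℕ) (W : Fin d → ℕ → Fin d) (K : ℕ) (a b i : Fin d) : Prop :=
  ∃ τ : ℕ, τ + 2 * K ≤ N i ∧ (∀ s < K, W i (τ + s) = a) ∧ (∀ s < K, W i (τ + K + s) = b)

/-- good systems of words, with parameters `R0` (discrepancy), `Ls, R1` (short windows),
`e` (small offset), `L` (recognizability) -/
structure Good {d : ℕ} (A : Matrix (Fin d) (Fin d) ℤ) (Lam : ℝ) (l f : Fin d → ℝ) (N : Fin d → ℕ)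
    (W : Fin d → ℕ → Fin d) (L0 R0 Ls R1 e : ℝ) (K : ℕ) (a b : Fin d) (L : ℕ) : Prop where
  exact : Exact A N W
  regL : Reg f N W L0 R0
  regS : Reg f N W Ls R1
  run : ∀ i, EvR N W K a b i
  p1b : ∀ (i : Fin d) (v : Fin d → ℤ), ‖prj f (ic v)‖ ≤ 4 * R0 → 2 * sl l ≤ Lam * dot l (ic v) →
    lm l / 4 ≤ len l i i v → EvP A l N W i v
  l1n : ∀ (i j : Fin d) (v : Fin d → ℤ), i ≠ j → ‖prj f (ic v)‖ ≤ 4 * R0 →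
    lm l / 4 ≤ len l i j v → EvN A l N W e i j v
  l1e : ∀ (i : Fin d) (v : Fin d → ℤ), ‖prj f (ic v)‖ ≤ 4 * R0 → e ≤ dot l (ic v) →
    dot l (ic v) ≤ 2 * e → EvN A l N W e i i v
  l2 : ∀ (c : Fin d) (u : Fin d → ℤ), Lam * e / 2 ≤ ((∑ i, u i : ℤ) : ℝ) →
    ((∑ i, u i : ℤ) : ℝ) ≤ 3 * Lam * e → ‖prj f (ic u)‖ ≤ √((∑ i, u i : ℤ) : ℝ) → EvW N W c u
  dist : Dist N W L

/-- the numerical conditions of the deterministic part -/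
structure Num {d : ℕ} (Lam : ℝ) (l : Fin d → ℝ) (N : Fin d → ℕ) (κ L0 R0 Ls R1 e : ℝ) (K : ℕ) :
    Prop where
  lam6 : 6 ≤ Lam
  κ0 : 0 ≤ κ
  κ2 : κ ≤ 1 / 2
  len0 : ∀ j, (N j : ℝ) ≤ L0
  R0pos : 0 ≤ R0
  R1pos : 0 < R1
  epos : 0 < e
  e2 : 2 * e < lm l / 2
  win : 2 * Lam * e / lm l ≤ Ls
  typ1 : 3 * κ * R1 ≤ √(Lam * e / 2)
  typ2 : sl l * (3 * κ * R1) ≤ Lam * e / 2
  run : 2 * sl l / lm l + 1 ≤ K

/-- (DG) growth: every overlap leads to a long overlap -/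
def StDG : Prop := ∀ (d : ℕ) (_ : 2 ≤ d) (A : Matrix (Fin d) (Fin d) ℤ) (Lam : ℝ)
  (l f : Fin d → ℝ) (N : Fin d → ℕ) (W : Fin d → ℕ → Fin d), Dat A Lam l f → Exact A N W →
  6 ≤ Lam → ∀ (i j : Fin d) (v : Fin d → ℤ), 0 < len l i j v →
  ∃ (i' j' : Fin d) (v' : Fin d → ℤ), lm l / 4 ≤ len l i' j' v' ∧
    Relation.ReflTransGen (Step A l N W) (i, j, v) (i', j', v')

/-- (DB) the transversal bound is preserved -/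
def StDB : Prop := ∀ (d : ℕ) (A : Matrix (Fin d) (Fin d) ℤ) (Lam : ℝ)
  (l f : Fin d → ℝ) (N : Fin d → ℕ) (W : Fin d → ℕ → Fin d) (κ L0 R0 : ℝ), Dat A Lam l f →
  (∀ y, ‖prj f (act A y)‖ ≤ κ * ‖prj f y‖) → κ ≤ 1 / 2 → 0 ≤ R0 → Reg f N W L0 R0 →
  (∀ j, (N j : ℝ) ≤ L0) → ∀ (o o' : Fin d × Fin d × (Fin d → ℤ)),
  Relation.ReflTransGen (Step A l N W) o o' → ‖prj f (ic o.2.2)‖ ≤ 4 * R0 →
    ‖prj f (ic o'.2.2)‖ ≤ 4 * R0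

/-- (DS) from equal letters to different letters -/
def StDS : Prop := ∀ (d : ℕ) (_ : 2 ≤ d) (A : Matrix (Fin d) (Fin d) ℤ) (Lam : ℝ)
  (l f : Fin d → ℝ) (N : Fin d → ℕ) (W : Fin d → ℕ → Fin d) (κ L0 R0 Ls R1 e : ℝ) (K : ℕ)
  (a b : Fin d) (L : ℕ), Dat A Lam l f → (∀ y, ‖prj f (act A y)‖ ≤ κ * ‖prj f y‖) →
  Num Lam l N κ L0 R0 Ls R1 e K → Good A Lam l f N W L0 R0 Ls R1 e K a b L → a ≠ b →
  StDB → ∀ (i : Fin d) (v : Fin d → ℤ), v ≠ 0 → lm l / 4 ≤ len l i i v →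
  ‖prj f (ic v)‖ ≤ 4 * R0 →
  ∃ (i' j' : Fin d) (v' : Fin d → ℤ), i' ≠ j' ∧ lm l / 4 ≤ len l i' j' v' ∧
    Relation.ReflTransGen (Step A l N W) (i, i, v) (i', j', v')

/-- (DC) the chain of self alignments -/
def StDC : Prop := ∀ (d : ℕ) (_ : 2 ≤ d) (A : Matrix (Fin d) (Fin d) ℤ) (Lam : ℝ)
  (l f : Fin d → ℝ) (N : Fin d → ℕ) (W : Fin d → ℕ → Fin d) (κ L0 R0 Ls R1 e : ℝ) (K : ℕ)
  (a b : Fin d) (L : ℕ), Dat A Lam l f → (∀ y, ‖prj f (act A y)‖ ≤ κ * ‖prj f y‖) →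
  Num Lam l N κ L0 R0 Ls R1 e K → Good A Lam l f N W L0 R0 Ls R1 e K a b L →
  ∀ (i : Fin d) (v : Fin d → ℤ), e ≤ dot l (ic v) → dot l (ic v) ≤ 2 * e →
  ‖prj f (ic v)‖ ≤ 4 * R0 → Lead A l N W (i, i, v)

/-- (DF) the deterministic theorem -/
def StDF : Prop := ∀ (d : ℕ) (_ : 2 ≤ d) (A : Matrix (Fin d) (Fin d) ℤ) (Lam : ℝ)
  (l f : Fin d → ℝ) (N : Fin d → ℕ) (W : Fin d → ℕ → Fin d) (κ L0 R0 Ls R1 e : ℝ) (K : ℕ)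
  (a b : Fin d) (L : ℕ), Dat A Lam l f → (∀ y, ‖prj f (act A y)‖ ≤ κ * ‖prj f y‖) →
  Num Lam l N κ L0 R0 Ls R1 e K → Good A Lam l f N W L0 R0 Ls R1 e K a b L → a ≠ b →
  Coin A l f N W (4 * R0)

/-! ## Parameters as functions of `y = lam ^ k` -/

/-- length of the word of the letter `j` for the matrix `M ^ k` -/
def NN {d : ℕ} (M : Matrix (Fin d) (Fin d) ℤ) (k : ℕ) (j : Fin d) : ℕ :=
  (∑ i, (M ^ k) i j).toNat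

/-- block length -/
noncomputable def mP (d : ℕ) (δ y : ℝ) : ℕ := ⌊y ^ (2 / ((d : ℝ) + 1) - δ)⌋₊

/-- small offset -/
noncomputable def eP (d : ℕ) (C1 δ y : ℝ) : ℝ := C1 * (mP d δ y : ℝ) ^ (-(((d : ℝ) - 1) / 2))

/-- bound for the word lengths -/
noncomputable def L0P {d : ℕ} (l : Fin d → ℝ) (y : ℝ) : ℝ := (1 + sl l) * y

noncomputable def R0P {d : ℕ} (l : Fin d → ℝ) (δ y : ℝ) : ℝ := y ^ δ * √(L0P l y)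

noncomputable def LsP {d : ℕ} (l : Fin d → ℝ) (C1 δ y : ℝ) : ℝ := 2 * y * eP d C1 δ y / lm l

noncomputable def R1P {d : ℕ} (l : Fin d → ℝ) (C1 δ y : ℝ) : ℝ := y ^ δ * √(LsP l C1 δ y)

/-- admissible `δ` -/
def Adm (d : ℕ) (lam θ δ : ℝ) : Prop :=
  0 < δ ∧ δ ≤ 1 / (10 * ((d : ℝ) + 1) ^ 3) ∧ θ * lam ^ (2 * δ) < 1

/-- run length -/
noncomputable def KP {d : ℕ} (l : Fin d → ℝ) : ℕ := ⌈2 * sl l / lm l⌉₊ + 1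

/-- recognizability length -/
noncomputable def LP (δ y : ℝ) : ℕ := ⌊y ^ δ⌋₊

/-- the standing hypotheses of the asymptotic part -/
structure Ctx (d : ℕ) (M : Matrix (Fin d) (Fin d) ℤ) (lam : ℝ) (l f : Fin d → ℝ) (Cc θ δ : ℝ) :
    Prop where
  d2 : 2 ≤ d
  pis : Pis M lam
  dat : Dat M lam l f
  con : Con M f Cc θ
  den : ∃ C, Den l f C
  adm : Adm d lam θ δ

/-- (PA) size of the entries and of the word lengths of `M ^ k`, and `Dat` for `M ^ k` -/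
def StPA : Prop := ∀ (d : ℕ) (M : Matrix (Fin d) (Fin d) ℤ) (lam : ℝ) (l f : Fin d → ℝ)
  (Cc θ δ : ℝ), Ctx d M lam l f Cc θ δ →
  (∀ k : ℕ, 1 ≤ k → Dat (M ^ k) (lam ^ k) l f) ∧
  (∀ᶠ k : ℕ in atTop, (∀ i j, 1 ≤ (M ^ k) i j) ∧
    (∀ j, (NN M k j : ℤ) = ∑ i, (M ^ k) i j) ∧
    (∀ j, |(NN M k j : ℝ) - lam ^ k * l j| ≤ 1) ∧
    (∀ j, (NN M k j : ℝ) ≤ L0P l (lam ^ k)) ∧
    (∀ j i, |((M ^ k) i j : ℝ) - NN M k j * f i| ≤ 1))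

/-- (PN) the numerical conditions hold for large `k` -/
def StPN : Prop := ∀ (d : ℕ) (M : Matrix (Fin d) (Fin d) ℤ) (lam : ℝ) (l f : Fin d → ℝ)
  (Cc θ δ : ℝ), Ctx d M lam l f Cc θ δ → ∀ C1 : ℝ, 0 < C1 →
  ∀ᶠ k : ℕ in atTop, (∀ y, ‖prj f (act (M ^ k) y)‖ ≤ (Cc * θ ^ k) * ‖prj f y‖) ∧
    Num (lam ^ k) l (NN M k) (Cc * θ ^ k) (L0P l (lam ^ k)) (R0P l δ (lam ^ k))
      (LsP l C1 δ (lam ^ k)) (R1P l C1 δ (lam ^ k)) (eP d C1 δ (lam ^ k)) (KP l)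

/-- (BR) discrepancy -/
def StBR : Prop := ∀ (d : ℕ) (M : Matrix (Fin d) (Fin d) ℤ) (lam : ℝ) (l f : Fin d → ℝ)
  (Cc θ δ : ℝ), Ctx d M lam l f Cc θ δ → ∀ Ls : ℕ → ℝ, (∀ᶠ k in atTop, 1 ≤ Ls k) →
  ∃ c : ℝ, 0 < c ∧ ∀ᶠ k : ℕ in atTop, ∀ w0,
    PrT f (NN M k) w0 (fun W => ¬ Reg f (NN M k) W (Ls k) ((lam ^ k) ^ δ * √(Ls k))) ≤
      Real.exp (-(c * (lam ^ k) ^ δ))

/-- (BRU) runs -/
def StBRU : Prop := ∀ (d : ℕ) (M : Matrix (Fin d) (Fin d) ℤ) (lam : ℝ) (l f : Fin d → ℝ)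
  (Cc θ δ : ℝ), Ctx d M lam l f Cc θ δ → ∀ (K : ℕ) (a b : Fin d),
  ∃ c : ℝ, 0 < c ∧ ∀ᶠ k : ℕ in atTop, ∀ w0,
    PrT f (NN M k) w0 (fun W => ¬ ∀ i, EvR (NN M k) W K a b i) ≤ Real.exp (-(c * (lam ^ k) ^ δ))

/-- (BP) nice children -/
def StBP : Prop := ∀ (d : ℕ) (M : Matrix (Fin d) (Fin d) ℤ) (lam : ℝ) (l f : Fin d → ℝ)
  (Cc θ δ : ℝ), Ctx d M lam l f Cc θ δ →
  ∃ c : ℝ, 0 < c ∧ ∀ᶠ k : ℕ in atTop, ∀ w0, ∀ (i : Fin d) (v : Fin d → ℤ),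
    2 * sl l ≤ lam ^ k * dot l (ic v) → lm l / 4 ≤ len l i i v →
    PrT f (NN M k) w0 (fun W => Reg f (NN M k) W (L0P l (lam ^ k)) (R0P l δ (lam ^ k)) ∧
      ¬ EvP (M ^ k) l (NN M k) W i v) ≤ Real.exp (-(c * (lam ^ k) ^ δ))

/-- (BN) different letters -/
def StBN : Prop := ∀ (d : ℕ) (M : Matrix (Fin d) (Fin d) ℤ) (lam : ℝ) (l f : Fin d → ℝ)
  (Cc θ δ : ℝ), Ctx d M lam l f Cc θ δ → ∀ c C1 : ℝ, 0 < c → 0 < C1 → ∀ m0 : ℕ,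
  (∀ m : ℕ, m0 ≤ m → ∀ τ K n : ℕ, τ + K * (3 * m) ≤ n →
    ∀ (V : ℕ → (ℕ → Fin d) → Fin d → ℤ) (a : ℕ → (ℕ → Fin d) → Fin d)
      (G : ℕ → (ℕ → Fin d) → Prop),
    (∀ k, Loc (τ + k * (3 * m)) (V k)) → (∀ k, Loc (τ + k * (3 * m)) (a k)) →
    (∀ k, Loc (τ + k * (3 * m)) (G k)) →
    (∀ k < K, ∀ w, G k w → (m : ℝ) ≤ dot l (ic (V k w - cnt w 0 (τ + k * (3 * m)))) ∧
      dot l (ic (V k w - cnt w 0 (τ + k * (3 * m)))) ≤ m + sl l) →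
    ∀ w0, Pr f 0 n (fun w => ∀ k < K, G k w ∧ ¬ ∃ t', τ + k * (3 * m) ≤ t' ∧
        t' < τ + (k + 1) * (3 * m) ∧ w t' = a k w ∧
        C1 * (m : ℝ) ^ (-(((d : ℝ) - 1) / 2)) ≤ dot l (ic (V k w - cnt w 0 t')) ∧
        dot l (ic (V k w - cnt w 0 t')) ≤ 2 * (C1 * (m : ℝ) ^ (-(((d : ℝ) - 1) / 2)))) w0 ≤
      (1 - c * (m : ℝ) ^ (-(((d : ℝ) - 1) / 2))) ^ K) →
  ∃ c' : ℝ, 0 < c' ∧ ∀ᶠ k : ℕ in atTop, ∀ w0, ∀ (i j : Fin d) (v : Fin d → ℤ), i ≠ j →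
    lm l / 4 ≤ len l i j v →
    PrT f (NN M k) w0 (fun W => Exact (M ^ k) (NN M k) W ∧
      Reg f (NN M k) W (L0P l (lam ^ k)) (R0P l δ (lam ^ k)) ∧
      ¬ EvN (M ^ k) l (NN M k) W (eP d C1 δ (lam ^ k)) i j v) ≤ Real.exp (-(c' * (lam ^ k) ^ δ))

/-- (BE) equal letters, small offset -/
def StBE : Prop := ∀ (d : ℕ) (M : Matrix (Fin d) (Fin d) ℤ) (lam : ℝ) (l f : Fin d → ℝ)
  (Cc θ δ : ℝ), Ctx d M lam l f Cc θ δ → ∀ c C1 : ℝ, 0 < c → 0 < C1 → ∀ m0 : ℕ,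
  (∀ m : ℕ, m0 ≤ m → ∀ τ K n : ℕ, τ + K * (3 * m) ≤ n →
    ∀ (V : ℕ → (ℕ → Fin d) → Fin d → ℤ) (a : ℕ → (ℕ → Fin d) → Fin d)
      (G : ℕ → (ℕ → Fin d) → Prop),
    (∀ k, Loc (τ + k * (3 * m)) (V k)) → (∀ k, Loc (τ + k * (3 * m)) (a k)) →
    (∀ k, Loc (τ + k * (3 * m)) (G k)) →
    (∀ k < K, ∀ w, G k w → (m : ℝ) ≤ dot l (ic (V k w - cnt w 0 (τ + k * (3 * m)))) ∧
      dot l (ic (V k w - cnt w 0 (τ + k * (3 * m)))) ≤ m + sl l) →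
    ∀ w0, Pr f 0 n (fun w => ∀ k < K, G k w ∧ ¬ ∃ t', τ + k * (3 * m) ≤ t' ∧
        t' < τ + (k + 1) * (3 * m) ∧ w t' = a k w ∧
        C1 * (m : ℝ) ^ (-(((d : ℝ) - 1) / 2)) ≤ dot l (ic (V k w - cnt w 0 t')) ∧
        dot l (ic (V k w - cnt w 0 t')) ≤ 2 * (C1 * (m : ℝ) ^ (-(((d : ℝ) - 1) / 2)))) w0 ≤
      (1 - c * (m : ℝ) ^ (-(((d : ℝ) - 1) / 2))) ^ K) →
  ∃ c' : ℝ, 0 < c' ∧ ∀ᶠ k : ℕ in atTop, ∀ w0, ∀ (i : Fin d) (v : Fin d → ℤ),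
    eP d C1 δ (lam ^ k) ≤ dot l (ic v) → dot l (ic v) ≤ 2 * eP d C1 δ (lam ^ k) →
    PrT f (NN M k) w0 (fun W =>
      Reg f (NN M k) W (L0P l (lam ^ k)) (R0P l δ (lam ^ k)) ∧
      ¬ EvN (M ^ k) l (NN M k) W (eP d C1 δ (lam ^ k)) i i v) ≤ Real.exp (-(c' * (lam ^ k) ^ δ))

/-- (BW) windows with prescribed content -/
def StBW : Prop := StL2 → ∀ (d : ℕ) (M : Matrix (Fin d) (Fin d) ℤ) (lam : ℝ) (l f : Fin d → ℝ)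
  (Cc θ δ : ℝ), Ctx d M lam l f Cc θ δ → ∀ C1 : ℝ, 0 < C1 →
  ∃ c' : ℝ, 0 < c' ∧ ∀ᶠ k : ℕ in atTop, ∀ w0, ∀ (c : Fin d) (u : Fin d → ℤ),
    lam ^ k * eP d C1 δ (lam ^ k) / 2 ≤ ((∑ i, u i : ℤ) : ℝ) →
    ((∑ i, u i : ℤ) : ℝ) ≤ 3 * lam ^ k * eP d C1 δ (lam ^ k) →
    ‖prj f (ic u)‖ ≤ √((∑ i, u i : ℤ) : ℝ) →
    PrT f (NN M k) w0 (fun W => ¬ EvW (NN M k) W c u) ≤ Real.exp (-(c' * (lam ^ k) ^ δ))

/-- (BD) recognizability -/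
def StBD : Prop := ∀ (d : ℕ) (M : Matrix (Fin d) (Fin d) ℤ) (lam : ℝ) (l f : Fin d → ℝ)
  (Cc θ δ : ℝ), Ctx d M lam l f Cc θ δ → ∃ c : ℝ, 0 < c ∧ ∀ᶠ k : ℕ in atTop, ∀ w0,
    PrT f (NN M k) w0 (fun W => ¬ Dist (NN M k) W (LP δ (lam ^ k))) ≤
      Real.exp (-(c * (lam ^ k) ^ δ))

/-- (BU) the union bound -/
def StBU : Prop := ∀ (d : ℕ) (M : Matrix (Fin d) (Fin d) ℤ) (lam : ℝ) (l f : Fin d → ℝ)
  (Cc θ δ : ℝ), Ctx d M lam l f Cc θ δ → ∀ a b : Fin d,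
  ∃ C1 c : ℝ, 0 < C1 ∧ 0 < c ∧ ∀ᶠ k : ℕ in atTop, ∀ w0,
    PrT f (NN M k) w0 (fun W => Exact (M ^ k) (NN M k) W ∧
      ¬ Good (M ^ k) (lam ^ k) l f (NN M k) W (L0P l (lam ^ k)) (R0P l δ (lam ^ k))
        (LsP l C1 δ (lam ^ k)) (R1P l C1 δ (lam ^ k)) (eP d C1 δ (lam ^ k)) (KP l) a b
        (LP δ (lam ^ k))) ≤ Real.exp (-(c * (lam ^ k) ^ δ))

/-- (BC) the class probabilities are at least polynomial -/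
def StBC : Prop := ∀ (d : ℕ) (M : Matrix (Fin d) (Fin d) ℤ) (lam : ℝ) (l f : Fin d → ℝ)
  (Cc θ δ : ℝ), Ctx d M lam l f Cc θ δ → ∃ C : ℝ, 0 < C ∧ ∀ᶠ k : ℕ in atTop, ∀ w0,
    (lam ^ k) ^ (-C) ≤
      ∏ j, Pr f 0 (NN M k j) (fun w => cnt w 0 (NN M k j) = fun i => (M ^ k) i j) w0

open Classical in
/-- (BF) almost all systems of words with incidence matrix `M ^ k` satisfy the coincidence
condition and recognizability -/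
def StBF : Prop := ∀ (d : ℕ) (M : Matrix (Fin d) (Fin d) ℤ) (lam : ℝ) (l f : Fin d → ℝ)
  (Cc θ δ : ℝ), Ctx d M lam l f Cc θ δ → ∃ c : ℝ, 0 < c ∧ ∀ᶠ k : ℕ in atTop, ∀ w0,
  ((univ.filter fun t : (∀ j : Fin d, Fin (NN M k j) → Fin d) =>
      ¬ (Coin (M ^ k) l f (NN M k) (fun j => ovr w0 0 (t j)) (4 * R0P l δ (lam ^ k)) ∧
        Reg f (NN M k) (fun j => ovr w0 0 (t j)) (L0P l (lam ^ k)) (R0P l δ (lam ^ k)) ∧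
        Dist (NN M k) (fun j => ovr w0 0 (t j)) (LP δ (lam ^ k))) ∧
      Exact (M ^ k) (NN M k) (fun j => ovr w0 0 (t j))).card : ℝ) ≤
    Real.exp (-(c * (lam ^ k) ^ δ)) *
      ((univ.filter fun t : (∀ j : Fin d, Fin (NN M k j) → Fin d) =>
        Exact (M ^ k) (NN M k) (fun j => ovr w0 0 (t j))).card : ℝ)

end Pool.Agent.H811R3.PS
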