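import Pool.Agent.H811R3.PS.Defs2

set_option autoImplicit false

open Finset MeasureTheory Filter

namespace Pool.Agent.H811R3.PS

/-! ## Substitutions -/

/-- extension of a substitution to words -/
def app {d : ℕ} (σ : Fin d → List (Fin d)) (w : List (Fin d)) : List (Fin d) := w.flatMap σ

/-- incidence matrix: the entry `(i, j)` is the number of letters `i` in `σ j` -/
def inc {d : ℕ} (σ : Fin d → List (Fin d)) : Matrix (Fin d) (Fin d) ℤ :=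
  fun i j => ((σ j).count i : ℤ)

/-- the substitution subshift: bi-infinite sequences all of whose finite subwords occur in some
`σ ^ k (b)`, `k ≥ 1` -/
def XS {d : ℕ} (σ : Fin d → List (Fin d)) : Set (ℤ → Fin d) :=
  {x | ∀ (a : ℤ) (n : ℕ), ∃ (b : Fin d) (k : ℕ), 1 ≤ k ∧
    (List.ofFn fun s : Fin n => x (a + (s : ℕ))) <:+: (app σ)^[k] [b]}

/-- the shift -/
def sh {d : ℕ} (x : ℤ → Fin d) : ℤ → Fin d := fun n => x (n + 1)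

/-- `t`-th letter of `σ j` -/
def wd {d : ℕ} (σ : Fin d → List (Fin d)) (j : Fin d) (t : ℕ) : Fin d := (σ j).getD t j

/-- length of `σ j` -/
def ln {d : ℕ} (σ : Fin d → List (Fin d)) (j : Fin d) : ℕ := (σ j).length

/-- semi-conjugacy of `(XS σ, sh)` to a minimal translation of the torus of dimension `m`, one to
one almost everywhere -/
def SemiTorus {d : ℕ} (σ : Fin d → List (Fin d)) (m : ℕ) : Prop :=
  ∃ (γ : Fin m → UnitAddCircle) (π : (ℤ → Fin d) → (Fin m → UnitAddCircle))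
    (Z : Set (Fin m → UnitAddCircle)),
    (∀ y, Dense (Set.range fun k : ℤ => y + k • γ)) ∧ ContinuousOn π (XS σ) ∧
    (∀ x ∈ XS σ, π (sh x) = π x + γ) ∧ (∀ y, ∃ x ∈ XS σ, π x = y) ∧
    volume Z = 0 ∧ ∀ y, y ∉ Z → ∃! x, x ∈ XS σ ∧ π x = y

/-- desubstitution: `x` is the image of `x1`, the image of the letter `x1 m` starts at `c m`,
and the origin lies in the image of `x1 0` -/
structure Des {d : ℕ} (σ : Fin d → List (Fin d)) (x x1 : ℤ → Fin d) (c : ℤ → ℤ) : Prop where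
  step : ∀ m, c (m + 1) = c m + (σ (x1 m)).length
  zero : c 0 ≤ 0 ∧ 0 < c 1
  letter : ∀ m, ∀ t : ℕ, t < (σ (x1 m)).length → x (c m + t) = wd σ (x1 m) t

/-- iterated desubstitution inside `XS σ`: `x` is the image of `y` under the `K`-th power, the
image of the letter `y m` starts at `c m` -/
def DesK {d : ℕ} (σ : Fin d → List (Fin d)) : ℕ → (ℤ → Fin d) → (ℤ → Fin d) → (ℤ → ℤ) → Prop
  | 0, x, y, c => y = x ∧ ∀ m, c m = m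
  | K + 1, x, y, c => ∃ (x1 : ℤ → Fin d) (c1 c' : ℤ → ℤ), DesK σ K x x1 c1 ∧ y ∈ XS σ ∧
      Des σ x1 y c' ∧ ∀ m, c m = c1 (c' m)

/-- vertices of the strand of `x` -/
noncomputable def Pt {d : ℕ} (x : ℤ → Fin d) (n : ℤ) : Fin d → ℤ := fun i =>
  (∑ s ∈ Finset.Ico 0 n, if x s = i then 1 else 0) - ∑ s ∈ Finset.Ico n 0, if x s = i then 1 else 0

/-- the tile `n` of `x`, translated by `u`, is not a tile of `x0` -/
def NCs {d : ℕ} (x x0 : ℤ → Fin d) (u : Fin d → ℤ) (n : ℤ) : Prop :=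
  ¬ ∃ n' : ℤ, Pt x0 n' = u + Pt x n ∧ x0 n' = x n

open Classical in
/-- non-coincident overlap length after `K` steps -/
noncomputable def FK {d : ℕ} (A : Matrix (Fin d) (Fin d) ℤ) (l : Fin d → ℝ) (N : Fin d → ℕ)
    (W : Fin d → ℕ → Fin d) : ℕ → Fin d → Fin d → (Fin d → ℤ) → ℝ
  | 0, i, j, v => if i = j ∧ v = 0 then 0 else max 0 (len l i j v)
  | K + 1, i, j, v => ∑ t ∈ range (N i), ∑ t' ∈ range (N j),
      FK A l N W K (W i t) (W j t') (chv A W i j v t t')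

/-- (C1) basic facts on the subshift -/
def StC1 : Prop := ∀ (d : ℕ) (_ : 2 ≤ d) (σ : Fin d → List (Fin d)), (∀ i j, 1 ≤ inc σ i j) →
  (∀ x ∈ XS σ, ∃ x1 ∈ XS σ, ∃ c, Des σ x x1 c) ∧
  (∀ x1 ∈ XS σ, ∀ x c, Des σ x x1 c → x ∈ XS σ) ∧
  (∀ x, x ∈ XS σ ↔ sh x ∈ XS σ) ∧ IsCompact (XS σ) ∧ (XS σ).Nonempty

/-- (C2) unique and local desubstitution -/
def StC2 : Prop := ∀ (d : ℕ) (σ : Fin d → List (Fin d)) (L : ℕ), 1 ≤ L →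
  (∀ j, 2 * L ≤ (σ j).length) → Dist (ln σ) (wd σ) L →
  ∀ B : ℕ, ∃ B' : ℕ, ∀ (x y x1 y1 : ℤ → Fin d) (c e : ℤ → ℤ), Des σ x x1 c → Des σ y y1 e →
    (∀ n : ℤ, |n| ≤ B' → x n = y n) → ∀ m : ℤ, |m| ≤ B → x1 m = y1 m ∧ c m = e m

/-- properties of the address map -/
structure Addr {d : ℕ} (σ : Fin d → List (Fin d)) (f : Fin d → ℝ)
    (T : (ℤ → Fin d) → Fin d → ℝ) : Prop where
  cont : ContinuousOn T (XS σ)
  shift : ∀ x ∈ XS σ, T (sh x) = T x + prj f (ic (Pi.single (x 0) 1))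
  des : ∀ x ∈ XS σ, ∀ x1 ∈ XS σ, ∀ c, Des σ x x1 c →
    T x = prj f (ic (cnt (wd σ (x1 0)) 0 (-(c 0)).toNat)) + prj f (act (inc σ) (T x1))
  sum0 : ∀ x ∈ XS σ, ∑ i, T x i = 0
  bdd : ∃ B : ℝ, ∀ x ∈ XS σ, ‖T x‖ ≤ B

/-- (C3) existence of the address map -/
def StC3 : Prop := StC1 → StC2 → ∀ (d : ℕ) (_ : 2 ≤ d) (σ : Fin d → List (Fin d)) (Lam : ℝ)
  (l f : Fin d → ℝ) (C θ : ℝ) (L : ℕ), (∀ i j, 1 ≤ inc σ i j) → Dat (inc σ) Lam l f →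
  Con (inc σ) f C θ → 1 ≤ L → (∀ j, 2 * L ≤ (σ j).length) → Dist (ln σ) (wd σ) L →
  ∃ T : (ℤ → Fin d) → Fin d → ℝ, Addr σ f T

/-- (C4) minimality of the rotation -/
def StC4 : Prop := ∀ (n : ℕ) (A : Matrix (Fin (n + 1)) (Fin (n + 1)) ℤ) (Lam : ℝ)
  (l f : Fin (n + 1) → ℝ) (C θ : ℝ), Dat A Lam l f → Con A f C θ → IsUnit A.det →
  ∀ y : Fin n → UnitAddCircle,
    Dense (Set.range fun k : ℤ => y + k • (fun i : Fin n => ((-(f i.castSucc) : ℝ) : UnitAddCircle)))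

/-- (C5) decay of the non-coincident part -/
def StC5 : Prop := ∀ (d : ℕ) (_ : 2 ≤ d) (A : Matrix (Fin d) (Fin d) ℤ) (Lam : ℝ)
  (l f : Fin d → ℝ) (N : Fin d → ℕ) (W : Fin d → ℕ → Fin d) (R : ℝ), Dat A Lam l f →
  Exact A N W → Coin A l f N W R →
  (∀ o o' : Fin d × Fin d × (Fin d → ℤ), Step A l N W o o' → ‖prj f (ic o.2.2)‖ ≤ R →
    ‖prj f (ic o'.2.2)‖ ≤ R) →
  (∀ (K : ℕ) (i j : Fin d) (v : Fin d → ℤ), len l i j v ≤ 0 → FK A l N W K i j v = 0) ∧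
  ∃ C θ' : ℝ, 0 < C ∧ 0 < θ' ∧ θ' < Lam ∧ ∀ (K : ℕ) (i j : Fin d) (v : Fin d → ℤ),
    ‖prj f (ic v)‖ ≤ R → FK A l N W K i j v ≤ C * θ' ^ K

open Classical in
/-- (C6) comparison of two points of a fibre -/
def StC6 : Prop := StC1 → ∀ (d : ℕ) (_ : 2 ≤ d) (σ : Fin d → List (Fin d)) (Lam : ℝ)
  (l f : Fin d → ℝ) (T : (ℤ → Fin d) → Fin d → ℝ), (∀ i j, 1 ≤ inc σ i j) →
  Dat (inc σ) Lam l f → IsUnit (inc σ).det → Addr σ f T →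
  ∀ (K : ℕ) (x x0 y y0 : ℤ → Fin d) (c c0 : ℤ → ℤ) (u : Fin d → ℤ), x ∈ XS σ → x0 ∈ XS σ →
  DesK σ K x y c → DesK σ K x0 y0 c0 → prj f (ic u) = T x - T x0 →
  ∃ uK : Fin d → ℤ, prj f (ic uK) = T y - T y0 ∧
    ((inc σ) ^ K).mulVec uK = u + Pt x (c 0) - Pt x0 (c0 0) ∧
    ∀ (m : ℤ) (S : Finset ℤ),
      (∀ m' : ℤ, 0 < len l (y m) (y0 m') (uK + Pt y m - Pt y0 m') → m' ∈ S) →
      ∑ n ∈ Finset.Ico (c m) (c (m + 1)), (if NCs x x0 u n then l (x n) else 0) ≤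
        ∑ m' ∈ S, FK (inc σ) l (ln σ) (wd σ) K (y m) (y0 m') (uK + Pt y m - Pt y0 m')

/-- (C6b) few tiles meet a given tile -/
def StC6b : Prop := ∀ (d : ℕ) (l : Fin d → ℝ), (∀ i, 0 < l i) → ∃ J : ℕ,
  ∀ (i : Fin d) (v : Fin d → ℤ) (y0 : ℤ → Fin d), ∃ S : Finset ℤ, S.card ≤ J ∧
    ∀ m' : ℤ, 0 < len l i (y0 m') (v - Pt y0 m') → m' ∈ S

/-- (C6c) iterated desubstitutions: lengths and existence -/
def StC6c : Prop := StC1 → ∀ (d : ℕ) (_ : 2 ≤ d) (σ : Fin d → List (Fin d)) (Lam : ℝ)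
  (l f : Fin d → ℝ), (∀ i j, 1 ≤ inc σ i j) → Dat (inc σ) Lam l f →
  (∀ (K : ℕ) (x : ℤ → Fin d), x ∈ XS σ → ∃ y c, y ∈ XS σ ∧ DesK σ K x y c) ∧
  (∀ (K : ℕ) (x y : ℤ → Fin d) (c : ℤ → ℤ), x ∈ XS σ → DesK σ K x y c → y ∈ XS σ ∧
    c 0 ≤ 0 ∧ 0 < c 1 ∧
    (∀ m : ℤ, Lam ^ K * l (y m) / sl l ≤ ((c (m + 1) - c m : ℤ) : ℝ)) ∧
    |dot l (ic (Pt x (c 0)))| ≤ Lam ^ K * sl l ∧
    (∀ (x' y' : ℤ → Fin d) (c' : ℤ → ℤ), DesK σ K x' y' c' → y' 0 = y 0 → y' 1 = y 1 →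
      c' 0 = c 0 → ∀ n : ℤ, c 0 ≤ n → n < c 2 → x' n = x n))

/-- the factor map given by the address -/
noncomputable def tor {n : ℕ} (T : (ℤ → Fin (n + 1)) → Fin (n + 1) → ℝ) (x : ℤ → Fin (n + 1)) :
    Fin n → UnitAddCircle :=
  fun i => ((T x i.castSucc : ℝ) : UnitAddCircle)

/-- (C7) few disagreements in a fibre -/
def StC7 : Prop := StC1 → StC6 → StC6b → StC6c → ∀ (n : ℕ) (_ : 1 ≤ n)
  (σ : Fin (n + 1) → List (Fin (n + 1))) (Lam : ℝ) (l f : Fin (n + 1) → ℝ)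
  (T : (ℤ → Fin (n + 1)) → Fin (n + 1) → ℝ) (R C θ' : ℝ), (∀ i j, 1 ≤ inc σ i j) →
  Dat (inc σ) Lam l f → IsUnit (inc σ).det → Addr σ f T → (∀ x ∈ XS σ, ‖T x‖ ≤ R / 2) →
  0 < C → 0 < θ' → θ' < Lam →
  (∀ (K : ℕ) (i j : Fin (n + 1)) (v : Fin (n + 1) → ℤ), ‖prj f (ic v)‖ ≤ R →
    FK (inc σ) l (ln σ) (wd σ) K i j v ≤ C * θ' ^ K) →
  ∃ c C' : ℝ, 0 < c ∧ 0 < C' ∧ ∀ K : ℕ, ∃ TK : ℕ, c * Lam ^ K ≤ TK ∧
    ∀ y : Fin n → UnitAddCircle, ∃ S : Finset ℕ, (S.card : ℝ) ≤ C' * θ' ^ K ∧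
      ∀ s < TK, (∃ x ∈ XS σ, ∃ x' ∈ XS σ, tor T x = y ∧ tor T x' = y ∧ x s ≠ x' s) → s ∈ S

/-- (C8) a measure lemma -/
def StC8 : Prop := ∀ (n : ℕ) (γ : Fin n → UnitAddCircle) (Z : Set (Fin n → UnitAddCircle)),
  MeasurableSet Z → ∀ (Lam θ' c C' : ℝ), 0 < θ' → θ' < Lam → 0 < c → 0 < C' →
  (∀ K : ℕ, ∃ TK : ℕ, c * Lam ^ K ≤ TK ∧ ∀ y : Fin n → UnitAddCircle, ∃ S : Finset ℕ,
    (S.card : ℝ) ≤ C' * θ' ^ K ∧ ∀ s < TK, y + s • γ ∈ Z → s ∈ S) → volume Z = 0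

/-- (C9) the dynamical theorem -/
def StC9 : Prop := ∀ (n : ℕ) (_ : 1 ≤ n) (σ : Fin (n + 1) → List (Fin (n + 1))) (Lam : ℝ)
  (l f : Fin (n + 1) → ℝ) (C θ κ L0 R0 : ℝ) (L : ℕ), (∀ i j, 1 ≤ inc σ i j) →
  Dat (inc σ) Lam l f → Con (inc σ) f C θ → IsUnit (inc σ).det →
  (∀ y, ‖prj f (act (inc σ) y)‖ ≤ κ * ‖prj f y‖) → 0 ≤ κ → κ ≤ 1 / 2 → 0 ≤ R0 →
  (∀ j, (ln σ j : ℝ) ≤ L0) → Reg f (ln σ) (wd σ) L0 R0 →
  Coin (inc σ) l f (ln σ) (wd σ) (4 * R0) →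
  1 ≤ L → (∀ j, 2 * L ≤ (σ j).length) → Dist (ln σ) (wd σ) L → SemiTorus σ n

/-- (CG) the predicates depend only on the letters with index `< N j` -/
def StCG : Prop := ∀ (d : ℕ) (A : Matrix (Fin d) (Fin d) ℤ) (l f : Fin d → ℝ) (N : Fin d → ℕ)
  (W W' : Fin d → ℕ → Fin d), (∀ j, ∀ t < N j, W j t = W' j t) →
  (∀ R, Coin A l f N W R → Coin A l f N W' R) ∧ (∀ L R, Reg f N W L R → Reg f N W' L R) ∧
  (∀ L, Dist N W L → Dist N W' L) ∧ (Exact A N W → Exact A N W')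

open Classical in
/-- (CT) counting substitutions: from systems of words to substitutions -/
def StCT : Prop := ∀ (d : ℕ) (_ : 2 ≤ d) (M : Matrix (Fin d) (Fin d) ℤ) (k : ℕ) (w0 : ℕ → Fin d)
  (P : (Fin d → ℕ → Fin d) → Prop) (Q : (Fin d → List (Fin d)) → Prop) (q : ℝ),
  (∀ i j, 0 ≤ (M ^ k) i j) →
  (∀ (σ : Fin d → List (Fin d)) (t : ∀ j : Fin d, Fin (NN M k j) → Fin d), inc σ = M ^ k →
    (∀ j, σ j = List.ofFn (t j)) → P (fun j => ovr w0 0 (t j)) → Q σ) →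
  ((univ.filter fun t : (∀ j : Fin d, Fin (NN M k j) → Fin d) =>
      ¬ P (fun j => ovr w0 0 (t j)) ∧
      Exact (M ^ k) (NN M k) (fun j => ovr w0 0 (t j))).card : ℝ) ≤
    q * ((univ.filter fun t : (∀ j : Fin d, Fin (NN M k j) → Fin d) =>
        Exact (M ^ k) (NN M k) (fun j => ovr w0 0 (t j))).card : ℝ) →
  ({σ : Fin d → List (Fin d) | inc σ = M ^ k ∧ ¬ Q σ}.ncard : ℝ) ≤
    q * ({σ : Fin d → List (Fin d) | inc σ = M ^ k}.ncard : ℝ)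

/-- the final theorem for MP_e732b0_an -/
def StMain : Prop := ∀ (n : ℕ) (_ : 1 ≤ n) (M : Matrix (Fin (n + 1)) (Fin (n + 1)) ℤ) (lam : ℝ),
  Pis M lam → IsUnit M.det → ∃ c : ℝ, 0 < c ∧ ∀ᶠ k : ℕ in atTop,
    ({σ : Fin (n + 1) → List (Fin (n + 1)) | inc σ = M ^ k ∧ ¬ SemiTorus σ n}.ncard : ℝ) ≤
      Real.exp (-(Real.exp (c * k))) *
        ({σ : Fin (n + 1) → List (Fin (n + 1)) | inc σ = M ^ k}.ncard : ℝ)

/-- strong coincidence -/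
def SCoin {d : ℕ} (σ : Fin d → List (Fin d)) : Prop :=
  ∀ j1 j2 : Fin d, ∃ k : ℕ, 1 ≤ k ∧ ∃ (i : Fin d) (p1 s1 p2 s2 : List (Fin d)),
    (app σ)^[k] [j1] = p1 ++ i :: s1 ∧ (app σ)^[k] [j2] = p2 ++ i :: s2 ∧
    ∀ a, p1.count a = p2.count a

/-- (S1) coincidences of overlaps give strong coincidences -/
def StS1 : Prop := ∀ (d : ℕ) (_ : 2 ≤ d) (σ : Fin d → List (Fin d)) (Lam : ℝ) (l f : Fin d → ℝ)
  (R : ℝ), (∀ i j, 1 ≤ inc σ i j) → Dat (inc σ) Lam l f → 0 ≤ R →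
  Coin (inc σ) l f (ln σ) (wd σ) R → SCoin σ

/-- the final theorem for MP_396664_co (no unimodularity) -/
def StMainS : Prop := ∀ (d : ℕ) (_ : 2 ≤ d) (M : Matrix (Fin d) (Fin d) ℤ) (lam : ℝ),
  Pis M lam → ∃ c : ℝ, 0 < c ∧ ∀ᶠ k : ℕ in atTop,
    ({σ : Fin d → List (Fin d) | inc σ = M ^ k ∧ ¬ SCoin σ}.ncard : ℝ) ≤
      Real.exp (-(Real.exp (c * k))) * ({σ : Fin d → List (Fin d) | inc σ = M ^ k}.ncard : ℝ)

end Pool.Agent.H811R3.PS
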