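import Pool.Agent.H811R3.PS.Defs3

set_option autoImplicit false

open Finset MeasureTheory Filter

namespace Pool.Agent.H811R3.PS

/-- (C9a) the dynamical theorem with the explicit factor map `tor T` -/
def StC9a : Prop := ∀ (n : ℕ) (_ : 1 ≤ n) (σ : Fin (n + 1) → List (Fin (n + 1))) (Lam : ℝ)
  (l f : Fin (n + 1) → ℝ) (C θ κ L0 R0 : ℝ) (L : ℕ), (∀ i j, 1 ≤ inc σ i j) →
  Dat (inc σ) Lam l f → Con (inc σ) f C θ → IsUnit (inc σ).det →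
  (∀ y, ‖prj f (act (inc σ) y)‖ ≤ κ * ‖prj f y‖) → 0 ≤ κ → κ ≤ 1 / 2 → 0 ≤ R0 →
  (∀ j, (ln σ j : ℝ) ≤ L0) → Reg f (ln σ) (wd σ) L0 R0 →
  Coin (inc σ) l f (ln σ) (wd σ) (4 * R0) →
  1 ≤ L → (∀ j, 2 * L ≤ (σ j).length) → Dist (ln σ) (wd σ) L →
  ∃ T : (ℤ → Fin (n + 1)) → Fin (n + 1) → ℝ, Addr σ f T ∧
    (∀ y, ∃ x ∈ XS σ, tor T x = y) ∧
    ∃ Z : Set (Fin n → UnitAddCircle), volume Z = 0 ∧ MeasurableSet Z ∧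
      (∀ y, y ∈ Z ↔ y + (fun i : Fin n => ((-(f i.castSucc) : ℝ) : UnitAddCircle)) ∈ Z) ∧
      ∀ x ∈ XS σ, ∀ x' ∈ XS σ, tor T x = tor T x' → tor T x ∉ Z → x = x'

end Pool.Agent.H811R3.PS
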