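import Pool.Agent.H811R3.PS.Defs4

set_option autoImplicit false

open Finset MeasureTheory Filter

namespace Pool.Agent.H811R3.PS

/-! ## The Rauzy tiling (MP_5180dc_an) -/

/-- projection along `f` to the hyperplane `⟨l, ·⟩ = 0` -/
noncomputable def pc {d : ℕ} (l f y : Fin d → ℝ) : Fin d → ℝ :=
  fun i => y i - dot l y / dot l f * f i

/-- `u` is a one-sided infinite word with `σ ^ m (u) = u` for some `m ≥ 1`: the image of every
prefix of `u` is a prefix of `u` -/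
def PerPt {d : ℕ} (σ : Fin d → List (Fin d)) (u : ℕ → Fin d) : Prop :=
  ∃ m : ℕ, 1 ≤ m ∧ ∀ N : ℕ, ∃ N' : ℕ,
    (app σ)^[m] (List.ofFn fun s : Fin N => u s) = List.ofFn fun s : Fin N' => u s

/-- the subtile of the letter `i` (piece of the Rauzy fractal) -/
def Tile {d : ℕ} (l f : Fin d → ℝ) (u : ℕ → Fin d) (i : Fin d) : Set (Fin d → ℝ) :=
  closure {y | ∃ N : ℕ, u N = i ∧ y = pc l f (ic (cnt u 0 N))}

/-- the index set of the self-replicating collection -/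
def InL {d : ℕ} (l : Fin d → ℝ) (a : (Fin d → ℤ) × Fin d) : Prop :=
  0 ≤ dot l (ic a.1) ∧ dot l (ic a.1) < l a.2

/-- member of the self-replicating collection -/
def Mem {d : ℕ} (l f : Fin d → ℝ) (u : ℕ → Fin d) (a : (Fin d → ℤ) × Fin d) : Set (Fin d → ℝ) :=
  {y | y - pc l f (ic a.1) ∈ Tile l f u a.2}

/-- the self-replicating collection is locally finite, covers the hyperplane `⟨l, ·⟩ = 0` and
almost every point of the hyperplane (Lebesgue measure in the coordinates given by the projections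
of the first `n` unit vectors) lies in exactly one member -/
def IsTiling {n : ℕ} (l f : Fin (n + 1) → ℝ) (u : ℕ → Fin (n + 1)) : Prop :=
  (∀ R : ℝ, {a | InL l a ∧ ∃ y ∈ Mem l f u a, ‖y‖ ≤ R}.Finite) ∧
  (∀ y, dot l y = 0 → ∃ a, InL l a ∧ y ∈ Mem l f u a) ∧
  volume {t : Fin n → ℝ | ¬ ∃! a, InL l a ∧ pc l f (Fin.snoc t 0 : Fin (n + 1) → ℝ) ∈ Mem l f u a} = 0

/-- the tiling property of a substitution, for all choices of eigenvectors and periodic points -/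
def TilProp {n : ℕ} (σ : Fin (n + 1) → List (Fin (n + 1))) : Prop :=
  ∀ (l f : Fin (n + 1) → ℝ) (β : ℝ), (∀ i, 0 < l i) → (∀ i, 0 < f i) →
    (∀ j, ∑ i, l i * (inc σ i j : ℝ) = β * l j) → (act (inc σ) f = fun i => β * f i) →
    ∀ u : ℕ → Fin (n + 1), PerPt σ u → IsTiling l f u

/-- (T1) a periodic point extends to a point of the subshift with address zero -/
def StT1 : Prop := StC1 → StC6c → ∀ (d : ℕ) (_ : 2 ≤ d) (σ : Fin d → List (Fin d)) (Lam : ℝ)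
  (l f : Fin d → ℝ) (C θ : ℝ) (T : (ℤ → Fin d) → Fin d → ℝ), (∀ i j, 1 ≤ inc σ i j) →
  Dat (inc σ) Lam l f → Con (inc σ) f C θ → Addr σ f T → ∀ u : ℕ → Fin d, PerPt σ u →
  ∃ x ∈ XS σ, (∀ s : ℕ, x s = u s) ∧ T x = 0

/-- (T2) the subtile is the image of a cylinder under the address map -/
def StT2 : Prop := StC1 → ∀ (d : ℕ) (_ : 2 ≤ d) (σ : Fin d → List (Fin d)) (Lam : ℝ)
  (l f : Fin d → ℝ) (T : (ℤ → Fin d) → Fin d → ℝ), (∀ i j, 1 ≤ inc σ i j) →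
  Dat (inc σ) Lam l f → Addr σ f T → ∀ u : ℕ → Fin d, PerPt σ u →
  (∃ x ∈ XS σ, (∀ s : ℕ, x s = u s) ∧ T x = 0) →
  ∀ i, Tile l f u i = {y | ∃ x ∈ XS σ, x 0 = i ∧ y = pc l f (T x)}

/-- (T3) the tiling theorem -/
def StT3 : Prop := StC1 → ∀ (n : ℕ) (_ : 1 ≤ n) (σ : Fin (n + 1) → List (Fin (n + 1)))
  (Lam : ℝ) (l f : Fin (n + 1) → ℝ) (T : (ℤ → Fin (n + 1)) → Fin (n + 1) → ℝ)
  (Z : Set (Fin n → UnitAddCircle)), (∀ i j, 1 ≤ inc σ i j) → Dat (inc σ) Lam l f →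
  Addr σ f T → (∀ y, ∃ x ∈ XS σ, tor T x = y) → volume Z = 0 → MeasurableSet Z →
  (∀ y, y ∈ Z ↔ y + (fun i : Fin n => ((-(f i.castSucc) : ℝ) : UnitAddCircle)) ∈ Z) →
  (∀ x ∈ XS σ, ∀ x' ∈ XS σ, tor T x = tor T x' → tor T x ∉ Z → x = x') →
  ∀ u : ℕ → Fin (n + 1),
  (∀ i, Tile l f u i = {y | ∃ x ∈ XS σ, x 0 = i ∧ y = pc l f (T x)}) → IsTiling l f u

/-- (T4) positive eigenvectors are unique up to scaling, and the tiling property does not depend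
on the scaling -/
def StT4 : Prop := ∀ (n : ℕ) (σ : Fin (n + 1) → List (Fin (n + 1))) (Lam : ℝ)
  (l f : Fin (n + 1) → ℝ) (C θ : ℝ), Dat (inc σ) Lam l f → Con (inc σ) f C θ →
  (∀ u : ℕ → Fin (n + 1), PerPt σ u → IsTiling l f u) → TilProp σ

/-- the final theorem for MP_5180dc_an -/
def StMainT : Prop := ∀ (n : ℕ) (_ : 1 ≤ n) (M : Matrix (Fin (n + 1)) (Fin (n + 1)) ℤ) (lam : ℝ),
  Pis M lam → IsUnit M.det → ∃ c : ℝ, 0 < c ∧ ∀ᶠ k : ℕ in atTop,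
    ({σ : Fin (n + 1) → List (Fin (n + 1)) | inc σ = M ^ k ∧ ¬ TilProp σ}.ncard : ℝ) ≤
      Real.exp (-(Real.exp (c * k))) *
        ({σ : Fin (n + 1) → List (Fin (n + 1)) | inc σ = M ^ k}.ncard : ℝ)

end Pool.Agent.H811R3.PS
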