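import Pool.Agent.H811R3.PS.Defs3

set_option autoImplicit false

open Finset MeasureTheory Filter

namespace Pool.Agent.H811R3.PS

/-- (PK) powers of irreducible Pisot matrices are irreducible Pisot -/
def StPK : Prop := ∀ (d : ℕ) (_ : 2 ≤ d) (M : Matrix (Fin d) (Fin d) ℤ) (lam : ℝ), Pis M lam →
  ∀ k : ℕ, 1 ≤ k → Pis (M ^ k) (lam ^ k)

/-- (FN) the set of substitutions with given nonnegative incidence matrix is finite and not empty -/
def StFN : Prop := ∀ (d : ℕ) (A : Matrix (Fin d) (Fin d) ℤ), (∀ i j, 0 ≤ A i j) →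
  {σ : Fin d → List (Fin d) | inc σ = A}.Finite ∧ {σ : Fin d → List (Fin d) | inc σ = A}.Nonempty

end Pool.Agent.H811R3.PS
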