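import Pool.Agent.H811R3.PS.Defs2

/-!
# Auxiliary facts for the deterministic part
-/

set_option autoImplicit false

open Finset MeasureTheory Filter

namespace Pool.Agent.H811R3.PS.DetAux

variable {d : ℕ}

lemma ic_add (u v : Fin d → ℤ) : ic (u + v) = ic u + ic v := by
  funext i; simp [ic]

lemma ic_sub (u v : Fin d → ℤ) : ic (u - v) = ic u - ic v := by
  funext i; simp [ic]

lemma ic_neg (u : Fin d → ℤ) : ic (-u) = - ic u := by
  funext i; simp [ic]

lemma ic_zero : ic (0 : Fin d → ℤ) = 0 := by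
  funext i; simp [ic]

lemma ic_mulVec (A : Matrix (Fin d) (Fin d) ℤ) (v : Fin d → ℤ) :
    ic (A.mulVec v) = act A (ic v) := by
  funext i; simp [ic, act, Matrix.mulVec, dotProduct]

lemma dot_add (l y z : Fin d → ℝ) : dot l (y + z) = dot l y + dot l z := by
  simp [dot, mul_add, Finset.sum_add_distrib]

lemma dot_sub (l y z : Fin d → ℝ) : dot l (y - z) = dot l y - dot l z := by
  simp [dot, mul_sub, Finset.sum_sub_distrib]

lemma dot_neg (l y : Fin d → ℝ) : dot l (-y) = - dot l y := by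
  simp [dot]

lemma dot_zero (l : Fin d → ℝ) : dot l 0 = 0 := by
  simp [dot]

lemma prj_add (f y z : Fin d → ℝ) : prj f (y + z) = prj f y + prj f z := by
  funext i
  simp only [prj, Pi.add_apply, Finset.sum_add_distrib]
  ring

lemma prj_sub (f y z : Fin d → ℝ) : prj f (y - z) = prj f y - prj f z := by
  funext i
  simp only [prj, Pi.sub_apply, Finset.sum_sub_distrib]
  ring

lemma prj_neg (f y : Fin d → ℝ) : prj f (-y) = - prj f y := by
  funext i
  simp only [prj, Pi.neg_apply, Finset.sum_neg_distrib]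
  ring

lemma dot_act {A : Matrix (Fin d) (Fin d) ℤ} {Lam : ℝ} {l : Fin d → ℝ}
    (h : ∀ j, ∑ i, l i * (A i j : ℝ) = Lam * l j) (y : Fin d → ℝ) :
    dot l (act A y) = Lam * dot l y := by
  unfold dot act
  calc ∑ i, l i * ∑ j, (A i j : ℝ) * y j = ∑ i, ∑ j, l i * ((A i j : ℝ) * y j) := by
        simp only [Finset.mul_sum]
    _ = ∑ j, ∑ i, l i * ((A i j : ℝ) * y j) := Finset.sum_comm
    _ = ∑ j, (∑ i, l i * (A i j : ℝ)) * y j := by
        refine Finset.sum_congr rfl fun j _ => ?_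
        rw [Finset.sum_mul]
        exact Finset.sum_congr rfl fun i _ => by ring
    _ = Lam * ∑ j, l j * y j := by
        rw [Finset.mul_sum]
        exact Finset.sum_congr rfl fun j _ => by rw [h j]; ring

lemma dot_prj {l f : Fin d → ℝ} (h : dot l f = 1) (y : Fin d → ℝ) :
    dot l y = dot l (prj f y) + ∑ j, y j := by
  have : dot l (prj f y) = dot l y - (∑ j, y j) * dot l f := by
    simp only [dot, prj, mul_sub, Finset.sum_sub_distrib, Finset.mul_sum]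
    congr 1
    exact Finset.sum_congr rfl fun j _ => by ring
  rw [this, h]; ring

lemma abs_dot_le {l : Fin d → ℝ} (hl : ∀ i, 0 < l i) (y : Fin d → ℝ) :
    |dot l y| ≤ sl l * ‖y‖ := by
  unfold dot sl
  calc |∑ i, l i * y i| ≤ ∑ i, |l i * y i| := Finset.abs_sum_le_sum_abs _ _
    _ ≤ ∑ i, l i * ‖y‖ := by
        refine Finset.sum_le_sum fun i _ => ?_
        rw [abs_mul, abs_of_pos (hl i)]
        refine mul_le_mul_of_nonneg_left ?_ (hl i).le
        rw [← Real.norm_eq_abs]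
        exact norm_le_pi_norm y i
    _ = (∑ i, l i) * ‖y‖ := by rw [Finset.sum_mul]

lemma le_sl {l : Fin d → ℝ} (hl : ∀ i, 0 < l i) (i : Fin d) : l i ≤ sl l := by
  unfold sl
  exact Finset.single_le_sum (f := l) (fun j _ => (hl j).le) (Finset.mem_univ i)

lemma lm_pos {l : Fin d → ℝ} (hl : ∀ i, 0 < l i) (i : Fin d) : 0 < lm l := by
  unfold lm
  have : 0 < ∑ i, (l i)⁻¹ :=
    Finset.sum_pos (fun j _ => inv_pos.mpr (hl j)) ⟨i, Finset.mem_univ i⟩
  positivity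

lemma lm_le {l : Fin d → ℝ} (hl : ∀ i, 0 < l i) (i : Fin d) : lm l ≤ l i := by
  unfold lm
  have h1 : (l i)⁻¹ ≤ ∑ i, (l i)⁻¹ :=
    Finset.single_le_sum (f := fun i => (l i)⁻¹) (fun j _ => (inv_pos.mpr (hl j)).le)
      (Finset.mem_univ i)
  have h2 : 0 < (l i)⁻¹ := inv_pos.mpr (hl i)
  calc (∑ i, (l i)⁻¹)⁻¹ ≤ ((l i)⁻¹)⁻¹ := by
        exact inv_anti₀ h2 h1
    _ = l i := inv_inv _

lemma cnt_self (w : ℕ → Fin d) (a : ℕ) : cnt w a a = 0 := by
  funext i; simp [cnt]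

lemma cnt_add (w : ℕ → Fin d) {a b c : ℕ} (h : a ≤ b) (h' : b ≤ c) :
    cnt w a c = cnt w a b + cnt w b c := by
  funext i
  simp only [cnt, Pi.add_apply]
  exact (Finset.sum_Ico_consecutive _ h h').symm

lemma dot_cnt (l : Fin d → ℝ) (w : ℕ → Fin d) (a b : ℕ) :
    dot l (ic (cnt w a b)) = ∑ t ∈ Finset.Ico a b, l (w t) := by
  unfold dot ic cnt
  calc ∑ i, l i * ((∑ t ∈ Finset.Ico a b, if w t = i then 1 else 0 : ℤ) : ℝ)
      = ∑ i, ∑ t ∈ Finset.Ico a b, (if w t = i then l i else 0) := by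
        refine Finset.sum_congr rfl fun i _ => ?_
        push_cast
        rw [Finset.mul_sum]
        refine Finset.sum_congr rfl fun t _ => ?_
        split_ifs <;> simp
    _ = ∑ t ∈ Finset.Ico a b, ∑ i, (if w t = i then l i else 0) := Finset.sum_comm
    _ = ∑ t ∈ Finset.Ico a b, l (w t) := by
        refine Finset.sum_congr rfl fun t _ => ?_
        simp

lemma sum_cnt (w : ℕ → Fin d) {a b : ℕ} (h : a ≤ b) :
    ∑ i, cnt w a b i = (b : ℤ) - a := by
  unfold cnt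
  rw [Finset.sum_comm]
  simp [Nat.cast_sub h]

lemma dot_cnt_succ (l : Fin d → ℝ) (w : ℕ → Fin d) {a b : ℕ} (h : a ≤ b) :
    dot l (ic (cnt w a (b + 1))) = dot l (ic (cnt w a b)) + l (w b) := by
  rw [dot_cnt, dot_cnt, Finset.sum_Ico_succ_top h]

/-- offset of a child -/
lemma dot_chv {A : Matrix (Fin d) (Fin d) ℤ} {Lam : ℝ} {l : Fin d → ℝ}
    (h : ∀ j, ∑ i, l i * (A i j : ℝ) = Lam * l j) (W : Fin d → ℕ → Fin d) (i j : Fin d)
    (v : Fin d → ℤ) (t t' : ℕ) :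
    dot l (ic (chv A W i j v t t')) = Lam * dot l (ic v) + dot l (ic (cnt (W i) 0 t)) -
      dot l (ic (cnt (W j) 0 t')) := by
  unfold chv
  rw [ic_sub, ic_add, ic_mulVec, dot_sub, dot_add, dot_act h]

lemma prj_chv (A : Matrix (Fin d) (Fin d) ℤ) (f : Fin d → ℝ) (W : Fin d → ℕ → Fin d)
    (i j : Fin d) (v : Fin d → ℤ) (t t' : ℕ) :
    prj f (ic (chv A W i j v t t')) = prj f (act A (ic v)) + prj f (ic (cnt (W i) 0 t)) -
      prj f (ic (cnt (W j) 0 t')) := by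
  unfold chv
  rw [ic_sub, ic_add, ic_mulVec, prj_sub, prj_add]

/-- one step of the transversal bound -/
lemma prj_chv_le {A : Matrix (Fin d) (Fin d) ℤ} {f : Fin d → ℝ} {N : Fin d → ℕ}
    {W : Fin d → ℕ → Fin d} {κ L0 R0 : ℝ}
    (hκ : ∀ y, ‖prj f (act A y)‖ ≤ κ * ‖prj f y‖) (h2 : κ ≤ 1 / 2)
    (hR : Reg f N W L0 R0) (hN : ∀ j, (N j : ℝ) ≤ L0) (i j : Fin d) (v : Fin d → ℤ) (t t' : ℕ)
    (ht : t ≤ N i) (ht' : t' ≤ N j) (hv : ‖prj f (ic v)‖ ≤ 4 * R0) :
    ‖prj f (ic (chv A W i j v t t'))‖ ≤ 4 * R0 := by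
  rw [prj_chv]
  have e1 : ‖prj f (act A (ic v))‖ ≤ 2 * R0 := by
    refine (hκ _).trans ?_
    have : κ * ‖prj f (ic v)‖ ≤ 1 / 2 * ‖prj f (ic v)‖ :=
      mul_le_mul_of_nonneg_right h2 (norm_nonneg _)
    linarith
  have e2 : ‖prj f (ic (cnt (W i) 0 t))‖ ≤ R0 := by
    refine hR i 0 t (Nat.zero_le _) ht ?_
    have h3 : ((t - 0 : ℕ) : ℝ) ≤ (N i : ℝ) := by exact_mod_cast (by omega : t - 0 ≤ N i)
    exact h3.trans (hN i)
  have e3 : ‖prj f (ic (cnt (W j) 0 t'))‖ ≤ R0 := by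
    refine hR j 0 t' (Nat.zero_le _) ht' ?_
    have h3 : ((t' - 0 : ℕ) : ℝ) ≤ (N j : ℝ) := by exact_mod_cast (by omega : t' - 0 ≤ N j)
    exact h3.trans (hN j)
  calc ‖prj f (act A (ic v)) + prj f (ic (cnt (W i) 0 t)) - prj f (ic (cnt (W j) 0 t'))‖
      ≤ ‖prj f (act A (ic v)) + prj f (ic (cnt (W i) 0 t))‖ + ‖prj f (ic (cnt (W j) 0 t'))‖ :=
        norm_sub_le _ _
    _ ≤ ‖prj f (act A (ic v))‖ + ‖prj f (ic (cnt (W i) 0 t))‖ +
        ‖prj f (ic (cnt (W j) 0 t'))‖ := by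
        gcongr
        exact norm_add_le _ _
    _ ≤ 4 * R0 := by linarith

/-- the bound along a path -/
lemma path_bound {A : Matrix (Fin d) (Fin d) ℤ} {l f : Fin d → ℝ} {N : Fin d → ℕ}
    {W : Fin d → ℕ → Fin d} {κ L0 R0 : ℝ}
    (hκ : ∀ y, ‖prj f (act A y)‖ ≤ κ * ‖prj f y‖) (h2 : κ ≤ 1 / 2)
    (hR : Reg f N W L0 R0) (hN : ∀ j, (N j : ℝ) ≤ L0) (o o' : Fin d × Fin d × (Fin d → ℤ))
    (hp : Relation.ReflTransGen (Step A l N W) o o') (hv : ‖prj f (ic o.2.2)‖ ≤ 4 * R0) :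
    ‖prj f (ic o'.2.2)‖ ≤ 4 * R0 := by
  induction hp with
  | refl => exact hv
  | tail _ hs ih =>
    obtain ⟨t, ht, t', ht', rfl, _⟩ := hs
    exact prj_chv_le hκ h2 hR hN _ _ _ _ _ ht.le ht'.le ih

/-! ## Swapping -/

/-- exchange of the two strands -/
def swp (o : Fin d × Fin d × (Fin d → ℤ)) : Fin d × Fin d × (Fin d → ℤ) := (o.2.1, o.1, -o.2.2)

lemma len_swp (l : Fin d → ℝ) (i j : Fin d) (v : Fin d → ℤ) :
    len l j i (-v) = len l i j v := by
  unfold len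
  rw [ic_neg, dot_neg]
  generalize dot l (ic v) = x
  have h1 : min (-x + l j) (l i) = min (x + l i) (l j) - x := by
    rcases le_total (x + l i) (l j) with h | h
    · rw [min_eq_left h, min_eq_right (by linarith)]; ring
    · rw [min_eq_right h, min_eq_left (by linarith)]; ring
  have h2 : max (-x) 0 = max x 0 - x := by
    rcases le_total x 0 with h | h
    · rw [max_eq_right h, max_eq_left (by linarith)]; ring
    · rw [max_eq_left h, max_eq_right (by linarith)]; ring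
  rw [h1, h2]; ring

lemma chv_swp (A : Matrix (Fin d) (Fin d) ℤ) (W : Fin d → ℕ → Fin d) (i j : Fin d)
    (v : Fin d → ℤ) (t t' : ℕ) : chv A W j i (-v) t' t = - chv A W i j v t t' := by
  unfold chv
  rw [Matrix.mulVec_neg]
  abel

lemma step_swp {A : Matrix (Fin d) (Fin d) ℤ} {l : Fin d → ℝ} {N : Fin d → ℕ}
    {W : Fin d → ℕ → Fin d} {o o' : Fin d × Fin d × (Fin d → ℤ)} (h : Step A l N W o o') :
    Step A l N W (swp o) (swp o') := by
  obtain ⟨t, ht, t', ht', rfl, hl⟩ := h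
  refine ⟨t', ht', t, ht, ?_, ?_⟩
  · simp only [swp]
    rw [chv_swp]
  · simp only [swp]
    rw [len_swp]
    exact hl

lemma path_swp {A : Matrix (Fin d) (Fin d) ℤ} {l : Fin d → ℝ} {N : Fin d → ℕ}
    {W : Fin d → ℕ → Fin d} {o o' : Fin d × Fin d × (Fin d → ℤ)}
    (h : Relation.ReflTransGen (Step A l N W) o o') :
    Relation.ReflTransGen (Step A l N W) (swp o) (swp o') := by
  induction h with
  | refl => exact Relation.ReflTransGen.refl
  | tail _ hs ih => exact ih.tail (step_swp hs)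

/-! ## Word lengths -/

lemma exact_dot {A : Matrix (Fin d) (Fin d) ℤ} {Lam : ℝ} {l f : Fin d → ℝ} {N : Fin d → ℕ}
    {W : Fin d → ℕ → Fin d} (hD : Dat A Lam l f) (hE : Exact A N W) (j : Fin d) :
    dot l (ic (cnt (W j) 0 (N j))) = Lam * l j := by
  rw [hE j, ← hD.left j]
  rfl

lemma N_pos {A : Matrix (Fin d) (Fin d) ℤ} {Lam : ℝ} {l f : Fin d → ℝ} {N : Fin d → ℕ}
    {W : Fin d → ℕ → Fin d} (hD : Dat A Lam l f) (hE : Exact A N W) (j : Fin d) : 0 < N j := by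
  by_contra h
  have h0 : N j = 0 := by omega
  have h1 := exact_dot hD hE j
  rw [h0, cnt_self, ic_zero, dot_zero] at h1
  have h2 : 0 < Lam * l j := mul_pos (by linarith [hD.one_lt]) (hD.lpos j)
  linarith

end Pool.Agent.H811R3.PS.DetAux
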