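import Pool.Agent.H811R3.PS.Defs

set_option autoImplicit false

open Finset MeasureTheory Filter

namespace Pool.Agent.H811R3.PS

open Polynomial Matrix

theorem A1_unit {d : ℕ} (M : Matrix (Fin d) (Fin d) ℤ)
    (hirr : Irreducible (M.map (Int.castRingHom ℚ)).charpoly) (p : Polynomial ℚ) (hp : p ≠ 0)
    (hdeg : p.natDegree < d) : IsUnit (Polynomial.aeval (M.map (Int.castRingHom ℚ)) p) := by
  set MQ := M.map (Int.castRingHom ℚ) with hMQ
  have hnd : ¬ MQ.charpoly ∣ p := by
    intro h
    have h1 := Polynomial.natDegree_le_of_dvd h hp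
    rw [Matrix.charpoly_natDegree_eq_dim, Fintype.card_fin] at h1
    omega
  have hcop : IsCoprime MQ.charpoly p := (Irreducible.coprime_iff_not_dvd hirr).mpr hnd
  obtain ⟨a, b, hab⟩ := hcop
  have h1 : aeval MQ b * aeval MQ p = 1 := by
    have := congrArg (aeval MQ) hab
    rwa [map_add, map_mul, map_mul, Matrix.aeval_self_charpoly, mul_zero, zero_add, map_one] at this
  have h2 : aeval MQ p * aeval MQ b = 1 := by
    rw [← map_mul, mul_comm, map_mul]
    exact h1
  exact ⟨⟨aeval MQ p, aeval MQ b, h2, h1⟩, rfl⟩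

theorem A1_indep {d : ℕ} (M : Matrix (Fin d) (Fin d) ℤ)
    (hirr : Irreducible (M.map (Int.castRingHom ℚ)).charpoly) (l : Fin d → ℝ) (lam : ℝ)
    (hl : l ≠ 0) (hev : ∀ j, ∑ i, l i * (M i j : ℝ) = lam * l j) (v : Fin d → ℤ) (hv : v ≠ 0) :
    dot l (ic v) ≠ 0 := by
  intro h0
  set MQ := M.map (Int.castRingHom ℚ) with hMQ
  set vQ : Fin d → ℚ := fun i => (v i : ℚ) with hvQ
  -- the functional
  let L : (Fin d → ℚ) → ℝ := fun x => ∑ i, l i * (x i : ℝ)
  have hL0 : L vQ = 0 := by
    have : L vQ = dot l (ic v) := by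
      simp only [L, hvQ, dot, ic]
      refine Finset.sum_congr rfl fun i _ => ?_
      push_cast
      rfl
    rw [this, h0]
  have hLM : ∀ x, L (MQ.mulVec x) = lam * L x := by
    intro x
    have e1 : ∀ i, ((MQ.mulVec x) i : ℝ) = ∑ j, (M i j : ℝ) * (x j : ℝ) := by
      intro i
      rw [Matrix.mulVec, dotProduct, Rat.cast_sum]
      refine Finset.sum_congr rfl fun j _ => ?_
      rw [hMQ, Matrix.map_apply]
      push_cast
      rfl
    calc L (MQ.mulVec x) = ∑ i, l i * ∑ j, (M i j : ℝ) * (x j : ℝ) := by
          simp only [L, e1]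
      _ = ∑ i, ∑ j, l i * ((M i j : ℝ) * (x j : ℝ)) := by
          refine Finset.sum_congr rfl fun i _ => ?_
          rw [Finset.mul_sum]
      _ = ∑ j, ∑ i, l i * ((M i j : ℝ) * (x j : ℝ)) := Finset.sum_comm
      _ = ∑ j, (∑ i, l i * (M i j : ℝ)) * (x j : ℝ) := by
          refine Finset.sum_congr rfl fun j _ => ?_
          rw [Finset.sum_mul]
          refine Finset.sum_congr rfl fun i _ => ?_
          ring
      _ = lam * L x := by
          simp only [L]
          rw [Finset.mul_sum]
          refine Finset.sum_congr rfl fun j _ => ?_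
          rw [hev j]
          ring
  have hLadd : ∀ x y, L (x + y) = L x + L y := by
    intro x y
    simp only [L, Pi.add_apply, Rat.cast_add, mul_add, Finset.sum_add_distrib]
  have hLsmul : ∀ (c : ℚ) x, L (c • x) = c * L x := by
    intro c x
    simp only [L, Pi.smul_apply, smul_eq_mul, Rat.cast_mul]
    rw [Finset.mul_sum]
    refine Finset.sum_congr rfl fun i _ => ?_
    ring
  have hLpow : ∀ n : ℕ, L ((MQ ^ n).mulVec vQ) = 0 := by
    intro n
    induction n with
    | zero => simpa using hL0
    | succ n ih =>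
      rw [pow_succ', ← Matrix.mulVec_mulVec, hLM, ih, mul_zero]
  have hLsum : ∀ (s : Finset (Fin d)) (g : Fin d → Fin d → ℚ), (∀ i, L (g i) = 0) →
      L (∑ i ∈ s, g i) = 0 := by
    intro s g hg
    induction s using Finset.induction_on with
    | empty => simp [L]
    | insert i s hi ih => rw [Finset.sum_insert hi, hLadd, hg, ih, add_zero]
  have hvQ0 : vQ ≠ 0 := by
    intro h
    apply hv
    funext i
    have := congrFun h i
    simp only [hvQ, Pi.zero_apply] at this
    exact_mod_cast this
  -- the map `a ↦ ∑ a_i M^i v`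
  let Φ : (Fin d → ℚ) →ₗ[ℚ] (Fin d → ℚ) :=
    Fintype.linearCombination ℚ (fun i : Fin d => (MQ ^ (i : ℕ)).mulVec vQ)
  have hΦ : ∀ a, Φ a = ∑ i, a i • (MQ ^ (i : ℕ)).mulVec vQ := fun a =>
    Fintype.linearCombination_apply _ _ _
  have hinj : Function.Injective Φ := by
    rw [← LinearMap.ker_eq_bot, LinearMap.ker_eq_bot']
    intro a ha
    by_contra hne
    set p : Polynomial ℚ := ∑ i : Fin d, C (a i) * X ^ (i : ℕ) with hp
    have hcoeff : ∀ j : Fin d, p.coeff j = a j := by
      intro j
      rw [hp, Polynomial.finset_sum_coeff]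
      simp only [Polynomial.coeff_C_mul_X_pow]
      rw [Finset.sum_eq_single j]
      · simp
      · intro b _ hb
        rw [if_neg]
        intro h
        exact hb (Fin.ext h.symm)
      · intro h
        exact absurd (Finset.mem_univ j) h
    have hp0 : p ≠ 0 := by
      intro h
      apply hne
      funext j
      rw [← hcoeff j, h]
      rfl
    have hd0 : 0 < d := by
      rcases Nat.eq_zero_or_pos d with h | h
      · subst h
        exact absurd (Subsingleton.elim a 0) hne
      · exact h
    have hdeg : p.natDegree < d := by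
      have : p.degree < d := by
        rw [hp]
        refine (Polynomial.degree_sum_le _ _).trans_lt ?_
        rw [Finset.sup_lt_iff (by simp)]
        intro i _
        refine (Polynomial.degree_C_mul_X_pow_le _ _).trans_lt ?_
        exact_mod_cast i.2
      rw [Polynomial.natDegree_lt_iff_degree_lt hp0]
      exact this
    have hu := A1_unit M hirr p hp0 hdeg
    have hz : (aeval MQ p).mulVec vQ = 0 := by
      rw [← ha, hΦ, hp, map_sum, Matrix.sum_mulVec]
      refine Finset.sum_congr rfl fun i _ => ?_
      rw [map_mul, aeval_C, map_pow, aeval_X, ← Algebra.smul_def, Matrix.smul_mulVec]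
    obtain ⟨u, hu⟩ := hu
    have : vQ = 0 := by
      have e : (u⁻¹.val * u.val).mulVec vQ = vQ := by simp
      rw [← e, ← Matrix.mulVec_mulVec, hu, hz, Matrix.mulVec_zero]
    exact hvQ0 this
  have hsurj : Function.Surjective Φ := LinearMap.injective_iff_surjective.mp hinj
  apply hl
  funext j
  obtain ⟨a, ha⟩ := hsurj (Pi.single j 1)
  have h1 : L (Φ a) = 0 := by
    rw [hΦ]
    exact hLsum _ _ fun i => by rw [hLsmul, hLpow, mul_zero]
  rw [ha] at h1
  have h2 : L (Pi.single j 1) = l j := by
    simp only [L]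
    rw [Finset.sum_eq_single j]
    · simp
    · intro b _ hb
      simp [Pi.single_eq_of_ne hb]
    · intro h
      exact absurd (Finset.mem_univ j) h
  rw [← h2, h1]
  rfl

theorem a1_holds : StA1 := by
  intro d M hirr
  refine ⟨fun p hp hdeg => A1_unit M hirr p hp hdeg,
    fun l lam hl hev v hv => A1_indep M hirr l lam hl hev v hv, ?_⟩
  intro f lam hf hact i hi
  have hirr' : Irreducible (Mᵀ.map (Int.castRingHom ℚ)).charpoly := by
    rw [Matrix.transpose_map, Matrix.charpoly_transpose]
    exact hirr
  have h := A1_indep Mᵀ hirr' f lam hf (fun j => by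
    have := congrFun hact j
    simp only [act] at this
    rw [← this]
    refine Finset.sum_congr rfl fun k _ => ?_
    rw [Matrix.transpose_apply, mul_comm]) (Pi.single i 1) (by
      intro h
      have := congrFun h i
      simp at this)
  apply h
  simp only [dot, ic]
  rw [Finset.sum_eq_single i]
  · simp [hi]
  · intro b _ hb
    simp [Pi.single_eq_of_ne hb]
  · intro h
    exact absurd (Finset.mem_univ i) h

end Pool.Agent.H811R3.PS
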