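import Pool.Agent.H811R3.PS.Defs2

set_option autoImplicit false

open Finset MeasureTheory Filter

namespace Pool.Agent.H811R3.PS

namespace TBD

variable {d : ℕ}

theorem Ex_one (f : Fin d → ℝ) (τ : ℕ) (c : Fin d) (w : ℕ → Fin d) :
    Ex f τ 1 (fun w' => if w' τ = c then 1 else 0) w = f c := by
  unfold Ex
  have h : ∀ v : Fin 1 → Fin d, (∏ t, f (v t)) * (if ovr w τ v τ = c then (1 : ℝ) else 0) =
      if v 0 = c then f c else 0 := by
    intro v
    have h1 : ovr w τ v τ = v 0 := by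
      unfold ovr
      rw [dif_pos ⟨le_refl τ, by omega⟩]
      congr 1
      ext
      simp
    rw [h1, Fin.prod_univ_one]
    split_ifs with h2
    · rw [h2, mul_one]
    · rw [mul_zero]
  rw [Finset.sum_congr rfl fun v _ => h v]
  rw [← (Equiv.funUnique (Fin 1) (Fin d)).symm.sum_comp]
  simp [Equiv.funUnique]

open Classical in
/-- prescribed letters, given by the past -/
theorem window (hEX : StEX) {f : Fin d → ℝ} (hf : PV f) {φ : ℝ} (hφ : ∀ i, f i ≤ φ)
    (q : ℕ) (g : ℕ → (ℕ → Fin d) → Fin d) (hg : ∀ s, Loc (q + s) (g s)) (w0 : ℕ → Fin d) :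
    ∀ L : ℕ, Ex f 0 (q + L) (fun w => if ∀ s < L, w (q + s) = g s w then 1 else 0) w0 ≤ φ ^ L := by
  obtain ⟨e1, e2, e3, e4, -⟩ := hEX d f hf
  intro L
  induction L with
  | zero =>
    simp only [Nat.not_lt_zero, false_imp_iff, implies_true, if_true, pow_zero]
    exact (e2 0 (q + 0) 1 w0).le
  | succ L ih =>
    have hφ0 : 0 ≤ φ := (hf.1 (g 0 w0)).le.trans (hφ _)
    have h1 : Ex f 0 (q + (L + 1)) (fun w => if ∀ s < L + 1, w (q + s) = g s w then 1 else 0) w0 =
        Ex f 0 (q + L) (fun w' => Ex f (0 + (q + L)) 1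
          (fun w => if ∀ s < L + 1, w (q + s) = g s w then 1 else 0) w') w0 := by
      rw [← e1]
      rfl
    rw [h1]
    have h2 : ∀ w' : ℕ → Fin d, Ex f (0 + (q + L)) 1
        (fun w => if ∀ s < L + 1, w (q + s) = g s w then (1 : ℝ) else 0) w' ≤
        φ * (if ∀ s < L, w' (q + s) = g s w' then 1 else 0) := by
      intro w'
      rw [zero_add]
      calc Ex f (q + L) 1 (fun w => if ∀ s < L + 1, w (q + s) = g s w then (1 : ℝ) else 0) w'
          ≤ Ex f (q + L) 1 (fun w => (if ∀ s < L, w' (q + s) = g s w' then 1 else 0) *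
              (if w (q + L) = g L w' then 1 else 0)) w' := by
            apply e3
            intro w hw
            have h3 : ∀ t < q + L, w t = w' t := fun t ht => hw t (Or.inl ht)
            by_cases h4 : ∀ s < L + 1, w (q + s) = g s w
            · have h5 : ∀ s < L, w' (q + s) = g s w' := by
                intro s hs
                rw [← h3 (q + s) (by omega), h4 s (by omega)]
                exact hg s w w' fun t ht => h3 t (by omega)
              have h6 : w (q + L) = g L w' := by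
                rw [h4 L (by omega)]
                exact hg L w w' fun t ht => h3 t (by omega)
              rw [if_pos h4, if_pos h5, if_pos h6, one_mul]
            · rw [if_neg h4]
              split_ifs <;> norm_num
        _ = (if ∀ s < L, w' (q + s) = g s w' then 1 else 0) * f (g L w') := by
            rw [e4, Ex_one]
        _ ≤ φ * (if ∀ s < L, w' (q + s) = g s w' then 1 else 0) := by
            rw [mul_comm]
            apply mul_le_mul_of_nonneg_right (hφ _)
            split_ifs <;> norm_num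
    calc Ex f 0 (q + L) (fun w' => Ex f (0 + (q + L)) 1
          (fun w => if ∀ s < L + 1, w (q + s) = g s w then 1 else 0) w') w0
        ≤ Ex f 0 (q + L) (fun w' => φ * (if ∀ s < L, w' (q + s) = g s w' then 1 else 0)) w0 :=
          e3 _ _ _ _ _ fun w' _ => h2 w'
      _ = φ * Ex f 0 (q + L) (fun w' => if ∀ s < L, w' (q + s) = g s w' then 1 else 0) w0 := e4 _ _ _ _ _
      _ ≤ φ * φ ^ L := mul_le_mul_of_nonneg_left ih hφ0
      _ = φ ^ (L + 1) := by ring

open Classical in
theorem window' (hEX : StEX) {f : Fin d → ℝ} (hf : PV f) {φ : ℝ} (hφ : ∀ i, f i ≤ φ)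
    (q : ℕ) (g : ℕ → (ℕ → Fin d) → Fin d) (hg : ∀ s, Loc (q + s) (g s)) (w0 : ℕ → Fin d)
    {L n : ℕ} (hn : q + L ≤ n) (S : (ℕ → Fin d) → Prop)
    (hS : ∀ w, S w → ∀ s < L, w (q + s) = g s w) : Pr f 0 n S w0 ≤ φ ^ L := by
  obtain ⟨e1, e2, e3, e4, -⟩ := hEX d f hf
  obtain ⟨r, rfl⟩ := Nat.exists_eq_add_of_le hn
  unfold Pr
  calc Ex f 0 (q + L + r) (fun w' => if S w' then 1 else 0) w0
      ≤ Ex f 0 (q + L + r) (fun w' => if ∀ s < L, w' (q + s) = g s w' then 1 else 0) w0 := by
        apply e3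
        intro w' _
        by_cases h : S w'
        · rw [if_pos h, if_pos (hS w' h)]
        · rw [if_neg h]
          split_ifs <;> norm_num
    _ = Ex f 0 (q + L) (fun w => Ex f (0 + (q + L)) r
          (fun w' => if ∀ s < L, w' (q + s) = g s w' then 1 else 0) w) w0 := e1 _ _ _ _ _
    _ ≤ Ex f 0 (q + L) (fun w => if ∀ s < L, w (q + s) = g s w then 1 else 0) w0 := by
        apply e3
        intro w _
        calc Ex f (0 + (q + L)) r
              (fun w' => if ∀ s < L, w' (q + s) = g s w' then (1 : ℝ) else 0) w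
            ≤ Ex f (0 + (q + L)) r
              (fun _ => if ∀ s < L, w (q + s) = g s w then (1 : ℝ) else 0) w := by
              apply e3
              intro w' hw'
              rw [zero_add] at hw'
              have h3 : ∀ t < q + L, w' t = w t := fun t ht => hw' t (Or.inl ht)
              by_cases h4 : ∀ s < L, w' (q + s) = g s w'
              · have h5 : ∀ s < L, w (q + s) = g s w := by
                  intro s hs
                  rw [← h3 (q + s) (by omega), h4 s hs]
                  exact hg s w' w fun t ht => h3 t (by omega)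
                rw [if_pos h4, if_pos h5]
              · rw [if_neg h4]
                split_ifs <;> norm_num
          _ = _ := e2 _ _ _ _
    _ ≤ φ ^ L := window hEX hf hφ q g hg w0 L

open Classical in
theorem PrT_union {ι : Type} (f : Fin d → ℝ) (hf : ∀ i, 0 ≤ f i) (N : Fin d → ℕ)
    (w0 : ℕ → Fin d) (E0 : (Fin d → ℕ → Fin d) → Prop) (S : Finset ι)
    (E : ι → (Fin d → ℕ → Fin d) → Prop) (h : ∀ W, E0 W → ∃ x ∈ S, E x W) :
    PrT f N w0 E0 ≤ ∑ x ∈ S, PrT f N w0 (E x) := by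
  unfold PrT
  rw [Finset.sum_comm]
  refine Finset.sum_le_sum fun t _ => ?_
  rw [← Finset.mul_sum]
  refine mul_le_mul_of_nonneg_left ?_
    (Finset.prod_nonneg fun j _ => Finset.prod_nonneg fun s _ => hf _)
  by_cases h1 : E0 (fun j => ovr w0 0 (t j))
  · obtain ⟨x, hx, hx'⟩ := h _ h1
    rw [if_pos h1]
    calc (1 : ℝ) = if E x (fun j => ovr w0 0 (t j)) then 1 else 0 := by rw [if_pos hx']
      _ ≤ _ := Finset.single_le_sum (f := fun x => if E x (fun j => ovr w0 0 (t j)) then (1 : ℝ)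
          else 0) (fun y _ => by split_ifs <;> norm_num) hx
  · rw [if_neg h1]
    exact Finset.sum_nonneg fun y _ => by split_ifs <;> norm_num

theorem pair_le (hEX : StEX) (hPRO : StPRO) {f : Fin d → ℝ} (hf : PV f) {φ : ℝ}
    (hφ : ∀ i, f i ≤ φ) (hφ0 : 0 ≤ φ) (N : Fin d → ℕ) (w0 : ℕ → Fin d) (L : ℕ)
    (a b : Fin d) (p q : ℕ) :
    PrT f N w0 (fun W => p + L ≤ N a ∧ q + L ≤ N b ∧ (∀ s < L, W a (p + s) = W b (q + s)) ∧
      ¬ (a = b ∧ p = q)) ≤ φ ^ L := by
  classical
  apply hPRO d f hf N w0 _ a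
  intro W
  by_cases h1 : p + L ≤ N a ∧ q + L ≤ N b ∧ ¬ (a = b ∧ p = q)
  · obtain ⟨hp, hq, hne⟩ := h1
    by_cases hab : a = b
    · subst hab
      rcases lt_trichotomy p q with h | h | h
      · refine window' hEX hf hφ q (fun s w => w (p + s)) ?_ w0 hq _ ?_
        · intro s w w' hw
          exact hw (p + s) (by omega)
        · rintro w ⟨-, -, h2, -⟩ s hs
          have := h2 s hs
          rw [Function.update_self] at this
          exact this.symm
      · exact absurd ⟨rfl, h⟩ hne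
      · refine window' hEX hf hφ p (fun s w => w (q + s)) ?_ w0 hp _ ?_
        · intro s w w' hw
          exact hw (q + s) (by omega)
        · rintro w ⟨-, -, h2, -⟩ s hs
          have := h2 s hs
          rw [Function.update_self] at this
          exact this
    · refine window' hEX hf hφ p (fun s _ => W b (q + s)) ?_ w0 hp _ ?_
      · intro s w w' _
        rfl
      · rintro w ⟨-, -, h2, -⟩ s hs
        have := h2 s hs
        rw [Function.update_self, Function.update_of_ne (fun h => hab h.symm)] at this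
        exact this
  · obtain ⟨e1, e2, e3, e4, -⟩ := hEX d f hf
    unfold Pr
    calc Ex f 0 (N a) _ w0 ≤ Ex f 0 (N a) (fun _ => 0) w0 := by
          apply e3
          intro w' _
          rw [if_neg]
          rintro ⟨h2, h3, -, h4⟩
          exact h1 ⟨h2, h3, h4⟩
      _ = 0 := e2 _ _ _ _
      _ ≤ φ ^ L := pow_nonneg hφ0 _

theorem exists_max {f : Fin d → ℝ} (hd : 2 ≤ d) (hf : PV f) :
    ∃ φ : ℝ, 0 < φ ∧ φ < 1 ∧ ∀ i, f i ≤ φ := by
  classical
  obtain ⟨i0, -, hi0⟩ := Finset.exists_max_image (Finset.univ : Finset (Fin d)) f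
    ⟨⟨0, by omega⟩, Finset.mem_univ _⟩
  refine ⟨f i0, hf.1 i0, ?_, fun i => hi0 i (Finset.mem_univ _)⟩
  obtain ⟨j, hj⟩ : ∃ j : Fin d, j ≠ i0 := by
    by_cases h : i0 = ⟨0, by omega⟩
    · exact ⟨⟨1, by omega⟩, by rw [h]; simp⟩
    · exact ⟨⟨0, by omega⟩, fun h' => h h'.symm⟩
  have h1 : f i0 + f j ≤ ∑ i, f i := by
    rw [← Finset.sum_pair hj.symm]
    exact Finset.sum_le_sum_of_subset_of_nonneg (Finset.subset_univ _) fun i _ _ => (hf.1 i).le
  have := hf.1 j
  rw [hf.2] at h1
  linarith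

end TBD

open TBD

theorem bd_holds (hEX : StEX) (hPRO : StPRO) (hPA : StPA) : StBD := by
  classical
  intro d M lam l f Cc θ δ hC
  obtain ⟨-, hPA2⟩ := hPA d M lam l f Cc θ δ hC
  have hPV : PV f := ⟨hC.dat.fpos, hC.dat.fsum⟩
  obtain ⟨φ, hφ0, hφ1, hφ⟩ := exists_max hC.d2 hPV
  have hlam : 1 < lam := hC.dat.one_lt
  have hδ : 0 < δ := hC.adm.1
  have hsl : 0 ≤ sl l := Finset.sum_nonneg fun i _ => (hC.dat.lpos i).le
  have hy : Tendsto (fun k : ℕ => lam ^ k) atTop atTop := tendsto_pow_atTop_atTop_of_one_lt hlam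
  set c0 : ℝ := -Real.log φ with hc0
  have hc0pos : 0 < c0 := by
    have := Real.log_neg hφ0 hφ1
    rw [hc0]
    linarith
  set K : ℝ := ((d : ℝ) * (2 + sl l)) ^ 2 * φ⁻¹ with hK
  have hK0 : 0 ≤ K := by positivity
  have hev : ∀ᶠ k : ℕ in atTop, K * (lam ^ k) ^ (2 : ℝ) * Real.exp (-(c0 / 2 * (lam ^ k) ^ δ)) ≤ 1 := by
    have h1 : Tendsto (fun k : ℕ => (lam ^ k) ^ δ) atTop atTop :=
      (tendsto_rpow_atTop hδ).comp hy
    have h2 := (tendsto_rpow_mul_exp_neg_mul_atTop_nhds_zero (2 / δ) (c0 / 2) (by positivity)).comp h1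
    have h3 := h2.const_mul K
    rw [mul_zero] at h3
    filter_upwards [h3.eventually_le_const (show (0 : ℝ) < 1 by norm_num)] with k hk
    have h4 : ((lam ^ k) ^ δ) ^ (2 / δ) = (lam ^ k) ^ (2 : ℝ) := by
      rw [← Real.rpow_mul (by positivity)]
      congr 1
      field_simp
    simp only [Function.comp] at hk
    rw [h4] at hk
    calc K * (lam ^ k) ^ (2 : ℝ) * Real.exp (-(c0 / 2 * (lam ^ k) ^ δ)) =
        K * ((lam ^ k) ^ (2 : ℝ) * Real.exp (-(c0 / 2) * (lam ^ k) ^ δ)) := by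
          rw [mul_assoc, neg_mul]
      _ ≤ 1 := hk
  refine ⟨c0 / 2, by positivity, ?_⟩
  filter_upwards [hPA2, hev, hy.eventually_ge_atTop 1] with k hk hk1 hk2 w0
  obtain ⟨-, -, -, hN2, -⟩ := hk
  set y := lam ^ k with hydef
  have hy0 : 0 < y := by linarith
  set N := NN M k with hN
  set L := LP δ y with hL
  set S : Finset (Fin d × Fin d × ℕ × ℕ) := Finset.univ.sigma
    (fun a : Fin d => Finset.univ.sigma (fun b : Fin d => Finset.range (N a + 1) ×ˢ Finset.range (N b + 1)))
    |>.image (fun x => (x.1, x.2.1, x.2.2.1, x.2.2.2)) with hS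
  have hmemS : ∀ a b p q, p ≤ N a → q ≤ N b → (a, b, p, q) ∈ S := by
    intro a b p q hp hq
    rw [hS, Finset.mem_image]
    refine ⟨⟨a, b, p, q⟩, ?_, rfl⟩
    simp only [Finset.mem_sigma, Finset.mem_univ, true_and, Finset.mem_product, Finset.mem_range]
    omega
  have hcardS : (S.card : ℝ) ≤ (∑ a, ((N a : ℝ) + 1)) ^ 2 := by
    have h1 : S.card ≤ ∑ a : Fin d, ∑ b : Fin d, (N a + 1) * (N b + 1) := by
      rw [hS]
      refine Finset.card_image_le.trans ?_
      rw [Finset.card_sigma]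
      refine Finset.sum_le_sum fun a _ => ?_
      rw [Finset.card_sigma]
      refine Finset.sum_le_sum fun b _ => ?_
      rw [Finset.card_product, Finset.card_range, Finset.card_range]
    have h2 : ((∑ a : Fin d, ∑ b : Fin d, (N a + 1) * (N b + 1) : ℕ) : ℝ) =
        (∑ a, ((N a : ℝ) + 1)) ^ 2 := by
      push_cast
      rw [pow_two, Finset.sum_mul_sum]
    rw [← h2]
    exact_mod_cast h1
  have hsum : ∑ a, ((N a : ℝ) + 1) ≤ (d : ℝ) * (2 + sl l) * y := by
    calc ∑ a, ((N a : ℝ) + 1) ≤ ∑ _a : Fin d, (2 + sl l) * y := by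
          refine Finset.sum_le_sum fun a _ => ?_
          have h1 := hN2 a
          unfold L0P at h1
          nlinarith
      _ = _ := by
          rw [Finset.sum_const, Finset.card_univ, Fintype.card_fin, nsmul_eq_mul]
          ring
  have hsum0 : 0 ≤ ∑ a, ((N a : ℝ) + 1) := Finset.sum_nonneg fun a _ => by positivity
  have h1 : PrT f N w0 (fun W => ¬ Dist N W L) ≤ (S.card : ℝ) * φ ^ L := by
    refine (PrT_union f (fun i => (hPV.1 i).le) N w0 _ S
      (fun x W => x.2.2.1 + L ≤ N x.1 ∧ x.2.2.2 + L ≤ N x.2.1 ∧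
        (∀ s < L, W x.1 (x.2.2.1 + s) = W x.2.1 (x.2.2.2 + s)) ∧
        ¬ (x.1 = x.2.1 ∧ x.2.2.1 = x.2.2.2)) ?_).trans ?_
    · intro W hW
      unfold Dist at hW
      push Not at hW
      obtain ⟨a, b, p, q, hp, hq, h2, h3⟩ := hW
      refine ⟨(a, b, p, q), hmemS a b p q (by omega) (by omega), hp, hq, h2, ?_⟩
      rintro ⟨h4, h5⟩
      exact h3 h4 h5
    · calc _ ≤ ∑ _x ∈ S, φ ^ L := Finset.sum_le_sum fun x _ =>
            pair_le hEX hPRO hPV hφ hφ0.le N w0 L x.1 x.2.1 x.2.2.1 x.2.2.2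
        _ = _ := by rw [Finset.sum_const, nsmul_eq_mul]
  have h2 : φ ^ L ≤ φ⁻¹ * Real.exp (-(c0 * y ^ δ)) := by
    have h3 : y ^ δ < (L : ℝ) + 1 := by
      rw [hL]
      unfold LP
      exact Nat.lt_floor_add_one _
    have h4 : φ ^ L = Real.exp (-(c0 * L)) := by
      rw [hc0, neg_mul, neg_neg, mul_comm, Real.exp_nat_mul, Real.exp_log hφ0]
    have h5 : φ⁻¹ = Real.exp c0 := by
      rw [hc0, Real.exp_neg, Real.exp_log hφ0]
    rw [h4, h5, ← Real.exp_add]
    apply Real.exp_le_exp.2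
    nlinarith
  calc PrT f N w0 (fun W => ¬ Dist N W L) ≤ (S.card : ℝ) * φ ^ L := h1
    _ ≤ ((d : ℝ) * (2 + sl l) * y) ^ 2 * (φ⁻¹ * Real.exp (-(c0 * y ^ δ))) := by
        have h3 : (S.card : ℝ) ≤ ((d : ℝ) * (2 + sl l) * y) ^ 2 :=
          hcardS.trans (pow_le_pow_left₀ hsum0 hsum 2)
        exact mul_le_mul h3 h2 (pow_nonneg hφ0.le _) (by positivity)
    _ = (K * y ^ (2 : ℝ) * Real.exp (-(c0 / 2 * y ^ δ))) * Real.exp (-(c0 / 2 * y ^ δ)) := by
        rw [mul_assoc (K * y ^ (2 : ℝ)), ← Real.exp_add, hK]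
        have : y ^ (2 : ℝ) = y ^ 2 := by
          rw [← Real.rpow_natCast]
          norm_num
        rw [this]
        have e : -(c0 / 2 * y ^ δ) + -(c0 / 2 * y ^ δ) = -(c0 * y ^ δ) := by ring
        rw [e]
        ring
    _ ≤ 1 * Real.exp (-(c0 / 2 * y ^ δ)) :=
        mul_le_mul_of_nonneg_right hk1 (Real.exp_pos _).le
    _ = Real.exp (-(c0 / 2 * y ^ δ)) := one_mul _

end Pool.Agent.H811R3.PS
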