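import Pool.Agent.H811R3.PS.Defs3

set_option autoImplicit false

open Finset MeasureTheory Filter

namespace Pool.Agent.H811R3.PS

theorem cg_cnt {d : ℕ} (w w' : ℕ → Fin d) (n : ℕ) (h : ∀ t < n, w t = w' t) (a b : ℕ)
    (hb : b ≤ n) : cnt w a b = cnt w' a b := by
  funext i
  unfold cnt
  apply Finset.sum_congr rfl
  intro t ht
  rw [h t (lt_of_lt_of_le (Finset.mem_Ico.1 ht).2 hb)]

theorem cg_holds : StCG := by
  intro d A l f N W W' h
  have hc : ∀ j a b, b ≤ N j → cnt (W j) a b = cnt (W' j) a b := fun j a b hb =>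
    cg_cnt (W j) (W' j) (N j) (h j) a b hb
  refine ⟨?_, ?_, ?_, ?_⟩
  · intro R hC i j v hv hR
    obtain ⟨c, hc'⟩ := hC i j v hv hR
    refine ⟨c, ?_⟩
    have hstep : Step A l N W ≤ Step A l N W' := by
      intro o o' ho
      obtain ⟨t, ht, t', ht', ho, hl⟩ := ho
      refine ⟨t, ht, t', ht', ?_, hl⟩
      rw [ho, h _ t ht, h _ t' ht']
      unfold chv
      rw [hc _ 0 t ht.le, hc _ 0 t' ht'.le]
    exact Relation.ReflTransGen.mono hstep _ _ hc'
  · intro L R hR j t t' htt ht' hL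
    rw [← hc j t t' ht']
    exact hR j t t' htt ht' hL
  · intro L hD a b p q hp hq hs
    apply hD a b p q hp hq
    intro s hsL
    rw [h a (p + s) (by omega), h b (q + s) (by omega)]
    exact hs s hsL
  · intro hE j
    rw [← hc j 0 (N j) le_rfl]
    exact hE j

end Pool.Agent.H811R3.PS
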