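import Pool.Agent.H811R3.PS.Defs

/-! Task PRO: the product bound. -/

set_option autoImplicit false

open Finset

namespace Pool.Agent.H811R3.PS

theorem PRO_sum_one {d : ℕ} {f : Fin d → ℝ} (hf : PV f) (L : ℕ) :
    ∑ v : Fin L → Fin d, ∏ s, f (v s) = 1 := by
  have h := Finset.prod_univ_sum (fun _ : Fin L => (univ : Finset (Fin d))) (fun _ a => f a)
  rw [Fintype.piFinset_univ] at h
  rw [← h]
  simp [hf.2]

theorem pro_holds : StPRO := by
  classical
  intro d f hf N w0 E j q hq
  have hfnn : ∀ i, 0 ≤ f i := fun i => (hf.1 i).le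
  unfold PrT
  let e := Equiv.piSplitAt j (fun i : Fin d => Fin (N i) → Fin d)
  rw [← Equiv.sum_comp e.symm, Fintype.sum_prod_type_right]
  have hone : ∑ r : (∀ i : {i // i ≠ j}, Fin (N i) → Fin d), ∏ i, ∏ s, f (r i s) = 1 := by
    have h := Finset.prod_univ_sum
      (fun i : {i // i ≠ j} => (univ : Finset (Fin (N i) → Fin d))) (fun i x => ∏ s, f (x s))
    rw [Fintype.piFinset_univ] at h
    rw [← h]
    apply Finset.prod_eq_one
    intro i _
    exact PRO_sum_one hf _
  have hmain : ∀ r : (∀ i : {i // i ≠ j}, Fin (N i) → Fin d),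
      ∑ x : Fin (N j) → Fin d, (∏ i, ∏ s, f (e.symm (x, r) i s)) *
        (if E (fun i => ovr w0 0 (e.symm (x, r) i)) then 1 else 0) ≤
      (∏ i, ∏ s, f (r i s)) * q := by
    intro r
    let W : Fin d → ℕ → Fin d := fun i => if h : i = j then w0 else ovr w0 0 (r ⟨i, h⟩)
    have hW : ∀ x : Fin (N j) → Fin d,
        (fun i => ovr w0 0 (e.symm (x, r) i)) = Function.update W j (ovr w0 0 x) := by
      intro x
      funext i
      by_cases hi : i = j
      · subst hi
        rw [Function.update_self]
        congr 1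
        simp [e, Equiv.piSplitAt]
      · rw [Function.update_of_ne hi]
        simp only [W, dif_neg hi]
        congr 1
        simp [e, Equiv.piSplitAt, hi]
    have hwt : ∀ x : Fin (N j) → Fin d, (∏ i, ∏ s, f (e.symm (x, r) i s)) =
        (∏ s, f (x s)) * ∏ i, ∏ s, f (r i s) := by
      intro x
      rw [Fintype.prod_eq_mul_prod_subtype_ne _ j]
      congr 1
      · simp [e, Equiv.piSplitAt]
      · apply Finset.prod_congr rfl
        intro i _
        have hi : (i : Fin d) ≠ j := i.2
        simp [e, Equiv.piSplitAt, hi]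
    calc ∑ x : Fin (N j) → Fin d, (∏ i, ∏ s, f (e.symm (x, r) i s)) *
          (if E (fun i => ovr w0 0 (e.symm (x, r) i)) then 1 else 0)
        = ∑ x : Fin (N j) → Fin d, (∏ i, ∏ s, f (r i s)) * ((∏ s, f (x s)) *
          (if E (Function.update W j (ovr w0 0 x)) then 1 else 0)) := by
          apply Finset.sum_congr rfl
          intro x _
          rw [hW x, hwt x]
          ring
      _ = (∏ i, ∏ s, f (r i s)) * Pr f 0 (N j) (fun w => E (Function.update W j w)) w0 := by
          rw [← Finset.mul_sum]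
          rfl
      _ ≤ (∏ i, ∏ s, f (r i s)) * q :=
          mul_le_mul_of_nonneg_left (hq W)
            (Finset.prod_nonneg fun i _ => Finset.prod_nonneg fun s _ => hfnn _)
  calc _ ≤ ∑ r : (∀ i : {i // i ≠ j}, Fin (N i) → Fin d), (∏ i, ∏ s, f (r i s)) * q :=
        Finset.sum_le_sum fun r _ => hmain r
    _ = q := by rw [← Finset.sum_mul, hone, one_mul]

end Pool.Agent.H811R3.PS
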